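import Mathlib

set_option autoImplicit false

/-!
# MP_6f5d36_co : from the frozen statement to configurations with coordinates and colours

`CR.Conf n` : `n` points in general position with coordinates, colours `0, ..., n-2` for the squared
distances, colour `k` being used by exactly `k+1` pairs.
`CR.conf_of_set` : a set as in the frozen statement gives such a configuration.
-/

namespace CR

/-- twice the signed area of the triangle of three points -/
def area {n : ℕ} (x y : Fin n → ℝ) (i j k : Fin n) : ℝ :=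
  (x j - x i) * (y k - y i) - (x k - x i) * (y j - y i)

/-- squared distance -/
def sq {n : ℕ} (x y : Fin n → ℝ) (i j : Fin n) : ℝ := (x i - x j) ^ 2 + (y i - y j) ^ 2

/-- the incircle form of four points (zero iff they lie on a common circle or line) -/
def circ {n : ℕ} (x y : Fin n → ℝ) (i j k l : Fin n) : ℝ :=
  sq x y i j * area x y i k l - sq x y i k * area x y i j l + sq x y i l * area x y i j k

/-- configurations of `n` points in general position with `n-1` squared distances, the `k`-th of which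
is used by `k+1` pairs -/
structure Conf (n : ℕ) where
  x : Fin n → ℝ
  y : Fin n → ℝ
  D : Fin (n - 1) → ℝ
  c : Fin n → Fin n → Fin (n - 1)
  symm : ∀ i j, c i j = c j i
  inj : Function.Injective D
  pos : ∀ k, 0 < D k
  dist : ∀ i j, i ≠ j → sq x y i j = D (c i j)
  count : ∀ k : Fin (n - 1),
    ((Finset.univ : Finset (Fin n × Fin n)).filter (fun p => p.1 < p.2 ∧ c p.1 p.2 = k)).card = k + 1
  nocol : ∀ i j k, i ≠ j → i ≠ k → j ≠ k → area x y i j k ≠ 0
  nocirc : ∀ i j k l, i ≠ j → i ≠ k → i ≠ l → j ≠ k → j ≠ l → k ≠ l → circ x y i j k l ≠ 0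

open scoped Classical in
/-- the properties of the frozen statement -/
def Good (n : ℕ) (S : Finset (EuclideanSpace ℝ (Fin 2))) : Prop :=
      S.card = n ∧
      (∀ p ∈ S, ∀ q ∈ S, ∀ r ∈ S, p ≠ q → p ≠ r → q ≠ r →
        ¬ Collinear ℝ ({p, q, r} : Set (EuclideanSpace ℝ (Fin 2)))) ∧
      (∀ a ∈ S, ∀ b ∈ S, ∀ c ∈ S, ∀ d ∈ S,
        a ≠ b → a ≠ c → a ≠ d → b ≠ c → b ≠ d → c ≠ d →
        ¬ EuclideanGeometry.Cospherical ({a, b, c, d} : Set (EuclideanSpace ℝ (Fin 2)))) ∧
      (S.offDiag.image (fun p => dist p.1 p.2)).card = n - 1 ∧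
      ∀ i ∈ Finset.Icc 1 (n - 1), ∃ d : ℝ,
        (S.offDiag.filter (fun p => dist p.1 p.2 = d)).card = 2 * i

theorem dist_sq (p q : EuclideanSpace ℝ (Fin 2)) :
    dist p q ^ 2 = (p 0 - q 0) ^ 2 + (p 1 - q 1) ^ 2 := by
  rw [EuclideanSpace.dist_eq, Real.sq_sqrt (by positivity)]
  simp [Fin.sum_univ_two, Real.dist_eq, sq_abs]

theorem collinear_of_area (p q r : EuclideanSpace ℝ (Fin 2)) (hpq : p ≠ q)
    (h : (q 0 - p 0) * (r 1 - p 1) - (r 0 - p 0) * (q 1 - p 1) = 0) :
    Collinear ℝ ({p, q, r} : Set (EuclideanSpace ℝ (Fin 2))) := by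
  rw [collinear_iff_of_mem (p₀ := p) (by simp)]
  refine ⟨q - p, ?_⟩
  have h2 : (q 0 - p 0) ^ 2 + (q 1 - p 1) ^ 2 ≠ 0 := by
    intro h3
    apply hpq
    have h4 : q 0 - p 0 = 0 := by nlinarith [sq_nonneg (q 0 - p 0), sq_nonneg (q 1 - p 1)]
    have h5 : q 1 - p 1 = 0 := by nlinarith [sq_nonneg (q 0 - p 0), sq_nonneg (q 1 - p 1)]
    ext i
    fin_cases i
    · simpa using (sub_eq_zero.1 h4).symm
    · simpa using (sub_eq_zero.1 h5).symm
  intro z hz
  simp only [Set.mem_insert_iff, Set.mem_singleton_iff] at hz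
  rcases hz with rfl | rfl | rfl
  · exact ⟨0, by simp⟩
  · exact ⟨1, by simp⟩
  · refine ⟨((q 0 - p 0) * (z 0 - p 0) + (q 1 - p 1) * (z 1 - p 1)) /
      ((q 0 - p 0) ^ 2 + (q 1 - p 1) ^ 2), ?_⟩
    ext i
    fin_cases i
    · simp only [vadd_eq_add, PiLp.add_apply, PiLp.smul_apply, PiLp.sub_apply, smul_eq_mul,
        Fin.zero_eta, Fin.isValue]
      field_simp
      linear_combination (-(q 1 - p 1)) * h
    · simp only [vadd_eq_add, PiLp.add_apply, PiLp.smul_apply, PiLp.sub_apply, smul_eq_mul,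
        Fin.mk_one, Fin.isValue]
      field_simp
      linear_combination (q 0 - p 0) * h

theorem dist_eq_of_sq (p q r s : EuclideanSpace ℝ (Fin 2))
    (h : (p 0 - q 0) ^ 2 + (p 1 - q 1) ^ 2 = (r 0 - s 0) ^ 2 + (r 1 - s 1) ^ 2) :
    dist p q = dist r s := by
  rw [← dist_sq, ← dist_sq] at h
  exact (sq_eq_sq₀ dist_nonneg dist_nonneg).1 h

theorem cospherical_of_circ (p q r s : EuclideanSpace ℝ (Fin 2))
    (hA : (q 0 - p 0) * (r 1 - p 1) - (r 0 - p 0) * (q 1 - p 1) ≠ 0)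
    (h : ((p 0 - q 0) ^ 2 + (p 1 - q 1) ^ 2) *
          ((r 0 - p 0) * (s 1 - p 1) - (s 0 - p 0) * (r 1 - p 1)) -
        ((p 0 - r 0) ^ 2 + (p 1 - r 1) ^ 2) *
          ((q 0 - p 0) * (s 1 - p 1) - (s 0 - p 0) * (q 1 - p 1)) +
        ((p 0 - s 0) ^ 2 + (p 1 - s 1) ^ 2) *
          ((q 0 - p 0) * (r 1 - p 1) - (r 0 - p 0) * (q 1 - p 1)) = 0) :
    EuclideanGeometry.Cospherical ({p, q, r, s} : Set (EuclideanSpace ℝ (Fin 2))) := by
  set A : ℝ := (q 0 - p 0) * (r 1 - p 1) - (r 0 - p 0) * (q 1 - p 1) with hAdef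
  set U : ℝ := (q 0 - p 0) ^ 2 + (q 1 - p 1) ^ 2 with hU
  set V : ℝ := (r 0 - p 0) ^ 2 + (r 1 - p 1) ^ 2 with hV
  obtain ⟨w, hw0, hw1⟩ : ∃ w : EuclideanSpace ℝ (Fin 2),
      w 0 = p 0 + (U * (r 1 - p 1) - V * (q 1 - p 1)) / (2 * A) ∧
      w 1 = p 1 + (V * (q 0 - p 0) - U * (r 0 - p 0)) / (2 * A) :=
    ⟨!₂[p 0 + (U * (r 1 - p 1) - V * (q 1 - p 1)) / (2 * A),
      p 1 + (V * (q 0 - p 0) - U * (r 0 - p 0)) / (2 * A)], by simp, by simp⟩
  have e0 : 2 * A * (w 0 - p 0) = U * (r 1 - p 1) - V * (q 1 - p 1) := by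
    rw [hw0]; field_simp; ring
  have e1 : 2 * A * (w 1 - p 1) = V * (q 0 - p 0) - U * (r 0 - p 0) := by
    rw [hw1]; field_simp; ring
  -- the defining equations of the centre
  have key : ∀ z0 z1 : ℝ, 2 * A * ((z0 - p 0) * (w 0 - p 0) + (z1 - p 1) * (w 1 - p 1)) =
      A * ((z0 - p 0) ^ 2 + (z1 - p 1) ^ 2) →
      (z0 - w 0) ^ 2 + (z1 - w 1) ^ 2 = (p 0 - w 0) ^ 2 + (p 1 - w 1) ^ 2 := by
    intro z0 z1 hz
    have h1 : A * (((z0 - w 0) ^ 2 + (z1 - w 1) ^ 2) - ((p 0 - w 0) ^ 2 + (p 1 - w 1) ^ 2)) = 0 := by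
      linear_combination -hz
    have h2 := (mul_eq_zero.1 h1).resolve_left hA
    linarith
  refine ⟨w, dist p w, ?_⟩
  intro z hz
  simp only [Set.mem_insert_iff, Set.mem_singleton_iff] at hz
  rcases hz with rfl | rfl | rfl | rfl
  · rfl
  · apply dist_eq_of_sq
    apply key
    linear_combination (z 0 - p 0) * e0 + (z 1 - p 1) * e1 - A * hU + U * hAdef
  · apply dist_eq_of_sq
    apply key
    linear_combination (z 0 - p 0) * e0 + (z 1 - p 1) * e1 - A * hV + V * hAdef
  · apply dist_eq_of_sq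
    apply key
    linear_combination (z 0 - p 0) * e0 + (z 1 - p 1) * e1 - h

open scoped Classical in
/-- the frozen statement gives configurations -/
theorem conf_of_good (n : ℕ) (hn : 2 ≤ n) (S : Finset (EuclideanSpace ℝ (Fin 2))) (h : Good n S) :
    Nonempty (Conf n) := by
  obtain ⟨hcard, hcol, hcirc, himg, hcnt⟩ := h
  -- enumeration of the points
  have e : Fin n ≃ S := by
    have h1 : Fintype.card S = n := by simp [hcard]
    exact (Fintype.equivFinOfCardEq h1).symm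
  set p : Fin n → EuclideanSpace ℝ (Fin 2) := fun i => (e i : EuclideanSpace ℝ (Fin 2)) with hp
  have hpS : ∀ i, p i ∈ S := fun i => (e i).2
  have hpinj : Function.Injective p := fun i j hij => e.injective (Subtype.ext hij)
  have hpsurj : ∀ q ∈ S, ∃ i, p i = q := fun q hq => ⟨e.symm ⟨q, hq⟩, by simp [hp]⟩
  -- the distances
  choose! d hd using hcnt
  have hdI : ∀ i ∈ Finset.Icc 1 (n - 1), d i ∈ S.offDiag.image (fun p => dist p.1 p.2) := by
    intro i hi
    have h1 := hd i hi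
    have h2 : 0 < (S.offDiag.filter (fun p => dist p.1 p.2 = d i)).card := by
      rw [h1]
      have := (Finset.mem_Icc.1 hi).1
      omega
    obtain ⟨q, hq⟩ := Finset.card_pos.1 h2
    rw [Finset.mem_filter] at hq
    exact Finset.mem_image.2 ⟨q, hq.1, hq.2⟩
  have hdinj : Set.InjOn d (Finset.Icc 1 (n - 1)) := by
    intro i hi j hj hij
    have h1 := hd i hi
    have h2 := hd j hj
    rw [hij, h2] at h1
    omega
  have himg2 : (Finset.Icc 1 (n - 1)).image d = S.offDiag.image (fun p => dist p.1 p.2) := by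
    apply Finset.eq_of_subset_of_card_le
    · intro z hz
      obtain ⟨i, hi, rfl⟩ := Finset.mem_image.1 hz
      exact hdI i hi
    · rw [himg, Finset.card_image_of_injOn hdinj]
      simp
  have hcol2 : ∀ i j : Fin n, i ≠ j → ∃ k : Fin (n - 1), dist (p i) (p j) = d (k + 1) := by
    intro i j hij
    have h1 : dist (p i) (p j) ∈ S.offDiag.image (fun p => dist p.1 p.2) :=
      Finset.mem_image.2 ⟨(p i, p j), Finset.mem_offDiag.2 ⟨hpS i, hpS j, hpinj.ne hij⟩, rfl⟩
    rw [← himg2] at h1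
    obtain ⟨m, hm, hm2⟩ := Finset.mem_image.1 h1
    rw [Finset.mem_Icc] at hm
    exact ⟨⟨m - 1, by omega⟩, by rw [← hm2]; congr 1; simp; omega⟩
  have hdpos : ∀ k : Fin (n - 1), 0 < d (k + 1) := by
    intro k
    have hk : (k : ℕ) + 1 ∈ Finset.Icc 1 (n - 1) := Finset.mem_Icc.2 ⟨by omega, by omega⟩
    obtain ⟨q, hq, hq2⟩ := Finset.mem_image.1 (hdI _ hk)
    rw [← hq2]
    exact dist_pos.2 (Finset.mem_offDiag.1 hq).2.2
  have hne : Nonempty (Fin (n - 1)) := ⟨⟨0, by omega⟩⟩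
  choose! c hc using hcol2
  have hdinj2 : Function.Injective (fun k : Fin (n - 1) => d (k + 1)) := by
    intro k l hkl
    have := hdinj (Finset.mem_coe.2 (Finset.mem_Icc.2 ⟨by omega, by omega⟩))
      (Finset.mem_coe.2 (Finset.mem_Icc.2 ⟨by omega, by omega⟩)) hkl
    exact Fin.ext (by omega)
  have hsymm : ∀ i j, c i j = c j i := by
    intro i j
    rcases eq_or_ne i j with rfl | hij
    · rfl
    · apply hdinj2
      show d (c i j + 1) = d (c j i + 1)
      rw [← hc i j hij, ← hc j i hij.symm, dist_comm]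
  have hciff : ∀ i j k, i ≠ j → (c i j = k ↔ dist (p i) (p j) = d (k + 1)) := by
    intro i j k hij
    rw [hc i j hij]
    exact ⟨fun h => by rw [h], fun h => hdinj2 h⟩
  refine ⟨{ x := fun i => p i 0, y := fun i => p i 1, D := fun k => d (k + 1) ^ 2, c := c,
            symm := hsymm, inj := ?_, pos := ?_, dist := ?_, count := ?_, nocol := ?_,
            nocirc := ?_ }⟩
  · intro k l hkl
    exact hdinj2 ((sq_eq_sq₀ (hdpos k).le (hdpos l).le).1 hkl)
  · intro k
    exact pow_pos (hdpos k) 2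
  · intro i j hij
    unfold sq
    show (p i 0 - p j 0) ^ 2 + (p i 1 - p j 1) ^ 2 = d (c i j + 1) ^ 2
    rw [← dist_sq, hc i j hij]
  · intro k
    have hk : (k : ℕ) + 1 ∈ Finset.Icc 1 (n - 1) := Finset.mem_Icc.2 ⟨by omega, by omega⟩
    have h1 := hd _ hk
    -- ordered pairs of indices
    have h2 : ((Finset.univ : Finset (Fin n × Fin n)).filter
        (fun q => q.1 ≠ q.2 ∧ c q.1 q.2 = k)).card =
        (S.offDiag.filter (fun p => dist p.1 p.2 = d (k + 1))).card := by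
      apply Finset.card_bij (fun q _ => (p q.1, p q.2))
      · intro q hq
        rw [Finset.mem_filter] at hq ⊢
        obtain ⟨-, hq1, hq2⟩ := hq
        exact ⟨Finset.mem_offDiag.2 ⟨hpS _, hpS _, hpinj.ne hq1⟩, (hciff _ _ _ hq1).1 hq2⟩
      · intro q _ r _ hqr
        rw [Prod.mk.injEq] at hqr
        exact Prod.ext (hpinj hqr.1) (hpinj hqr.2)
      · intro r hr
        rw [Finset.mem_filter, Finset.mem_offDiag] at hr
        obtain ⟨⟨hr1, hr2, hr3⟩, hr4⟩ := hr
        obtain ⟨i, hi⟩ := hpsurj _ hr1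
        obtain ⟨j, hj⟩ := hpsurj _ hr2
        have hij : i ≠ j := by
          rintro rfl
          exact hr3 (hi.symm.trans hj)
        refine ⟨(i, j), ?_, by rw [hi, hj]⟩
        rw [Finset.mem_filter]
        refine ⟨Finset.mem_univ _, hij, (hciff _ _ _ hij).2 ?_⟩
        rw [hi, hj]; exact hr4
    have h3 : ((Finset.univ : Finset (Fin n × Fin n)).filter
        (fun q => q.1 ≠ q.2 ∧ c q.1 q.2 = k)).card =
        ((Finset.univ : Finset (Fin n × Fin n)).filter
          (fun q => q.1 < q.2 ∧ c q.1 q.2 = k)).card +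
        ((Finset.univ : Finset (Fin n × Fin n)).filter
          (fun q => q.2 < q.1 ∧ c q.1 q.2 = k)).card := by
      rw [← Finset.card_union_of_disjoint]
      · congr 1
        ext q
        simp only [Finset.mem_filter, Finset.mem_univ, true_and, Finset.mem_union]
        constructor
        · rintro ⟨h4, h5⟩
          rcases lt_or_gt_of_ne h4 with h6 | h6
          · exact Or.inl ⟨h6, h5⟩
          · exact Or.inr ⟨h6, h5⟩
        · rintro (⟨h4, h5⟩ | ⟨h4, h5⟩)
          · exact ⟨ne_of_lt h4, h5⟩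
          · exact ⟨(ne_of_lt h4).symm, h5⟩
      · rw [Finset.disjoint_left]
        intro q h4 h5
        rw [Finset.mem_filter] at h4 h5
        exact absurd h4.2.1 (lt_asymm h5.2.1)
    have h4 : ((Finset.univ : Finset (Fin n × Fin n)).filter
          (fun q => q.2 < q.1 ∧ c q.1 q.2 = k)).card =
        ((Finset.univ : Finset (Fin n × Fin n)).filter
          (fun q => q.1 < q.2 ∧ c q.1 q.2 = k)).card := by
      apply Finset.card_bij (fun q _ => (q.2, q.1))
      · intro q hq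
        rw [Finset.mem_filter] at hq ⊢
        exact ⟨Finset.mem_univ _, hq.2.1, by rw [hsymm]; exact hq.2.2⟩
      · intro q _ r _ hqr
        rw [Prod.mk.injEq] at hqr
        exact Prod.ext hqr.2 hqr.1
      · intro r hr
        rw [Finset.mem_filter] at hr
        refine ⟨(r.2, r.1), ?_, rfl⟩
        rw [Finset.mem_filter]
        exact ⟨Finset.mem_univ _, hr.2.1, by rw [hsymm]; exact hr.2.2⟩
    omega
  · intro i j k hij hik hjk h0
    exact hcol _ (hpS i) _ (hpS j) _ (hpS k) (hpinj.ne hij) (hpinj.ne hik) (hpinj.ne hjk)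
      (collinear_of_area _ _ _ (hpinj.ne hij) h0)
  · intro i j k l hij hik hil hjk hjl hkl h0
    have hA : (p j 0 - p i 0) * (p k 1 - p i 1) - (p k 0 - p i 0) * (p j 1 - p i 1) ≠ 0 := by
      intro h1
      exact hcol _ (hpS i) _ (hpS j) _ (hpS k) (hpinj.ne hij) (hpinj.ne hik) (hpinj.ne hjk)
        (collinear_of_area _ _ _ (hpinj.ne hij) h1)
    exact hcirc _ (hpS i) _ (hpS j) _ (hpS k) _ (hpS l) (hpinj.ne hij) (hpinj.ne hik)
      (hpinj.ne hil) (hpinj.ne hjk) (hpinj.ne hjl) (hpinj.ne hkl)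
      (cospherical_of_circ _ _ _ _ hA h0)

open scoped Classical in
/-- the negation of the frozen statement follows when there are no configurations for one `n` -/
theorem frozen_of (m : ℕ) (hm : 2 ≤ m) (h : IsEmpty (Conf m)) :
    ¬ (∀ n : ℕ, ∃ S : Finset (EuclideanSpace ℝ (Fin 2)),
      S.card = n ∧
      (∀ p ∈ S, ∀ q ∈ S, ∀ r ∈ S, p ≠ q → p ≠ r → q ≠ r →
        ¬ Collinear ℝ ({p, q, r} : Set (EuclideanSpace ℝ (Fin 2)))) ∧
      (∀ a ∈ S, ∀ b ∈ S, ∀ c ∈ S, ∀ d ∈ S,
        a ≠ b → a ≠ c → a ≠ d → b ≠ c → b ≠ d → c ≠ d →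
        ¬ EuclideanGeometry.Cospherical ({a, b, c, d} : Set (EuclideanSpace ℝ (Fin 2)))) ∧
      (S.offDiag.image (fun p => dist p.1 p.2)).card = n - 1 ∧
      ∀ i ∈ Finset.Icc 1 (n - 1), ∃ d : ℝ,
        (S.offDiag.filter (fun p => dist p.1 p.2 = d)).card = 2 * i) := by
  intro hall
  obtain ⟨S, hS⟩ := hall m
  exact (conf_of_good m hm S hS).elim h.false

end CR
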