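import Pool.Agent.Lib.MP_6f5d36_co.FDefs

set_option autoImplicit false

/-!
# MP_6f5d36_co : case (ii), the statements which the levels deliver

* `CR.Star2` : the edges from `t` to the six points are big and are given by the vector `w`;
* `CR.V7c` : the conclusion of level 7 in case (ii) for one pattern `R` with the list `E` of vectors;
* `CR.Kill2` : the conclusion of levels 8 and 9 in case (ii) for one pattern `R` with the list `E`.
-/

namespace CR

/-- the star of the point `t` at the six points is the vector `w` -/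
def Star2 (F : Conf 9) (f : ℕ → Fin 9) (g : ℕ → Fin 8) (w : ℕ) (t : Fin 9) : Prop :=
  ∀ i, i < 6 → od w i < 6 ∧ F.c (f i) t = g (od w i)

/-- every seventh point without bad edges has its star in the list `E` -/
def V7c (R : ℕ) (E : List ℕ) : Prop :=
  ∀ (F : Conf 9) (f : ℕ → Fin 9) (g : ℕ → Fin 8), Occ F 6 f g R → GoodG g →
    ∀ t, (∀ i, i < 6 → f i ≠ t) → (∀ i, i < 6 → 2 ≤ (F.c (f i) t).val) →
    ∃ w ∈ E, Star2 F f g w t

/-- levels 8 and 9 in case (ii) for the pattern `R` -/
def Kill2 (R : ℕ) (E : List ℕ) : Prop :=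
  ∀ (F : Conf 9) (f : ℕ → Fin 9) (g : ℕ → Fin 8), Frame2 F f → Occ F 6 f g R → GoodG g →
    (∃ w ∈ E, Star2 F f g w (f 6)) → (∃ w ∈ E, Star2 F f g w (f 7)) → False

end CR
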