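import Pool.Agent.Lib.MP_6f5d36_co.CertC

set_option autoImplicit false
set_option linter.all false

/-!
# MP_6f5d36_co : the lists of squares and products, the values of the variables
-/

namespace CR
namespace Ker

open Finset

section

variable {q : ℕ} {w : Fin q → ℕ} {b K : ℕ} {x : Fin q → ℝ}

/-- a product -/
def PV (w : Fin q → ℕ) (b K : ℕ) (x : Fin q → ℝ) (d a : ℕ) : Prop :=
  ∃ u, True ∧ Inv w b K x d 1 a u ∧ a ≤ 2 ^ (2 * K + 8)

theorem S6_ok {f : ℕ → ℕ} {u : ℕ → ℝ} (h : ∀ i, i < 6 → SV w b K x (f i) (u i))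
    (hn : ∀ c d, c < d → d < 6 → u c ≠ u d) :
    ∀ a ∈ S6 (2 ^ K) (2 ^ (2 * K + 4)) (f 0) (f 1) (f 2) (f 3) (f 4) (f 5), HV w b K x 4 a := by
  unfold S6
  refine List.forall_mem_cons.2 ⟨ns_inv (h 0 (by decide)) (h 1 (by decide)) (hn 0 1 (by decide) (by decide)), ?_⟩
  refine List.forall_mem_cons.2 ⟨ns_inv (h 0 (by decide)) (h 2 (by decide)) (hn 0 2 (by decide) (by decide)), ?_⟩
  refine List.forall_mem_cons.2 ⟨ns_inv (h 1 (by decide)) (h 2 (by decide)) (hn 1 2 (by decide) (by decide)), ?_⟩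
  refine List.forall_mem_cons.2 ⟨ns_inv (h 0 (by decide)) (h 3 (by decide)) (hn 0 3 (by decide) (by decide)), ?_⟩
  refine List.forall_mem_cons.2 ⟨ns_inv (h 1 (by decide)) (h 3 (by decide)) (hn 1 3 (by decide) (by decide)), ?_⟩
  refine List.forall_mem_cons.2 ⟨ns_inv (h 2 (by decide)) (h 3 (by decide)) (hn 2 3 (by decide) (by decide)), ?_⟩
  refine List.forall_mem_cons.2 ⟨ns_inv (h 0 (by decide)) (h 4 (by decide)) (hn 0 4 (by decide) (by decide)), ?_⟩
  refine List.forall_mem_cons.2 ⟨ns_inv (h 1 (by decide)) (h 4 (by decide)) (hn 1 4 (by decide) (by decide)), ?_⟩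
  refine List.forall_mem_cons.2 ⟨ns_inv (h 2 (by decide)) (h 4 (by decide)) (hn 2 4 (by decide) (by decide)), ?_⟩
  refine List.forall_mem_cons.2 ⟨ns_inv (h 3 (by decide)) (h 4 (by decide)) (hn 3 4 (by decide) (by decide)), ?_⟩
  refine List.forall_mem_cons.2 ⟨ns_inv (h 0 (by decide)) (h 5 (by decide)) (hn 0 5 (by decide) (by decide)), ?_⟩
  refine List.forall_mem_cons.2 ⟨ns_inv (h 1 (by decide)) (h 5 (by decide)) (hn 1 5 (by decide) (by decide)), ?_⟩
  refine List.forall_mem_cons.2 ⟨ns_inv (h 2 (by decide)) (h 5 (by decide)) (hn 2 5 (by decide) (by decide)), ?_⟩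
  refine List.forall_mem_cons.2 ⟨ns_inv (h 3 (by decide)) (h 5 (by decide)) (hn 3 5 (by decide) (by decide)), ?_⟩
  refine List.forall_mem_cons.2 ⟨ns_inv (h 4 (by decide)) (h 5 (by decide)) (hn 4 5 (by decide) (by decide)), ?_⟩
  exact List.forall_mem_nil _

theorem M6_ok {f : ℕ → ℕ} {u : ℕ → ℝ} (h : ∀ i, i < 6 → SV w b K x (f i) (u i)) :
    ∀ a ∈ M6 (f 0) (f 1) (f 2) (f 3) (f 4) (f 5), PV w b K x 2 a := by
  unfold M6
  refine List.forall_mem_cons.2 ⟨pp_inv (h 0 (by decide)) (h 0 (by decide)), ?_⟩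
  refine List.forall_mem_cons.2 ⟨pp_inv (h 0 (by decide)) (h 1 (by decide)), ?_⟩
  refine List.forall_mem_cons.2 ⟨pp_inv (h 1 (by decide)) (h 1 (by decide)), ?_⟩
  refine List.forall_mem_cons.2 ⟨pp_inv (h 0 (by decide)) (h 2 (by decide)), ?_⟩
  refine List.forall_mem_cons.2 ⟨pp_inv (h 1 (by decide)) (h 2 (by decide)), ?_⟩
  refine List.forall_mem_cons.2 ⟨pp_inv (h 2 (by decide)) (h 2 (by decide)), ?_⟩
  refine List.forall_mem_cons.2 ⟨pp_inv (h 0 (by decide)) (h 3 (by decide)), ?_⟩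
  refine List.forall_mem_cons.2 ⟨pp_inv (h 1 (by decide)) (h 3 (by decide)), ?_⟩
  refine List.forall_mem_cons.2 ⟨pp_inv (h 2 (by decide)) (h 3 (by decide)), ?_⟩
  refine List.forall_mem_cons.2 ⟨pp_inv (h 3 (by decide)) (h 3 (by decide)), ?_⟩
  refine List.forall_mem_cons.2 ⟨pp_inv (h 0 (by decide)) (h 4 (by decide)), ?_⟩
  refine List.forall_mem_cons.2 ⟨pp_inv (h 1 (by decide)) (h 4 (by decide)), ?_⟩
  refine List.forall_mem_cons.2 ⟨pp_inv (h 2 (by decide)) (h 4 (by decide)), ?_⟩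
  refine List.forall_mem_cons.2 ⟨pp_inv (h 3 (by decide)) (h 4 (by decide)), ?_⟩
  refine List.forall_mem_cons.2 ⟨pp_inv (h 4 (by decide)) (h 4 (by decide)), ?_⟩
  refine List.forall_mem_cons.2 ⟨pp_inv (h 0 (by decide)) (h 5 (by decide)), ?_⟩
  refine List.forall_mem_cons.2 ⟨pp_inv (h 1 (by decide)) (h 5 (by decide)), ?_⟩
  refine List.forall_mem_cons.2 ⟨pp_inv (h 2 (by decide)) (h 5 (by decide)), ?_⟩
  refine List.forall_mem_cons.2 ⟨pp_inv (h 3 (by decide)) (h 5 (by decide)), ?_⟩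
  refine List.forall_mem_cons.2 ⟨pp_inv (h 4 (by decide)) (h 5 (by decide)), ?_⟩
  refine List.forall_mem_cons.2 ⟨pp_inv (h 5 (by decide)) (h 5 (by decide)), ?_⟩
  exact List.forall_mem_nil _

theorem S7_ok {f : ℕ → ℕ} {u : ℕ → ℝ} (h : ∀ i, i < 7 → SV w b K x (f i) (u i))
    (hn : ∀ c d, c < d → d < 7 → u c ≠ u d) :
    ∀ a ∈ S7 (2 ^ K) (2 ^ (2 * K + 4)) (f 0) (f 1) (f 2) (f 3) (f 4) (f 5) (f 6), HV w b K x 4 a := by
  unfold S7
  refine List.forall_mem_cons.2 ⟨ns_inv (h 0 (by decide)) (h 1 (by decide)) (hn 0 1 (by decide) (by decide)), ?_⟩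
  refine List.forall_mem_cons.2 ⟨ns_inv (h 0 (by decide)) (h 2 (by decide)) (hn 0 2 (by decide) (by decide)), ?_⟩
  refine List.forall_mem_cons.2 ⟨ns_inv (h 1 (by decide)) (h 2 (by decide)) (hn 1 2 (by decide) (by decide)), ?_⟩
  refine List.forall_mem_cons.2 ⟨ns_inv (h 0 (by decide)) (h 3 (by decide)) (hn 0 3 (by decide) (by decide)), ?_⟩
  refine List.forall_mem_cons.2 ⟨ns_inv (h 1 (by decide)) (h 3 (by decide)) (hn 1 3 (by decide) (by decide)), ?_⟩
  refine List.forall_mem_cons.2 ⟨ns_inv (h 2 (by decide)) (h 3 (by decide)) (hn 2 3 (by decide) (by decide)), ?_⟩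
  refine List.forall_mem_cons.2 ⟨ns_inv (h 0 (by decide)) (h 4 (by decide)) (hn 0 4 (by decide) (by decide)), ?_⟩
  refine List.forall_mem_cons.2 ⟨ns_inv (h 1 (by decide)) (h 4 (by decide)) (hn 1 4 (by decide) (by decide)), ?_⟩
  refine List.forall_mem_cons.2 ⟨ns_inv (h 2 (by decide)) (h 4 (by decide)) (hn 2 4 (by decide) (by decide)), ?_⟩
  refine List.forall_mem_cons.2 ⟨ns_inv (h 3 (by decide)) (h 4 (by decide)) (hn 3 4 (by decide) (by decide)), ?_⟩
  refine List.forall_mem_cons.2 ⟨ns_inv (h 0 (by decide)) (h 5 (by decide)) (hn 0 5 (by decide) (by decide)), ?_⟩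
  refine List.forall_mem_cons.2 ⟨ns_inv (h 1 (by decide)) (h 5 (by decide)) (hn 1 5 (by decide) (by decide)), ?_⟩
  refine List.forall_mem_cons.2 ⟨ns_inv (h 2 (by decide)) (h 5 (by decide)) (hn 2 5 (by decide) (by decide)), ?_⟩
  refine List.forall_mem_cons.2 ⟨ns_inv (h 3 (by decide)) (h 5 (by decide)) (hn 3 5 (by decide) (by decide)), ?_⟩
  refine List.forall_mem_cons.2 ⟨ns_inv (h 4 (by decide)) (h 5 (by decide)) (hn 4 5 (by decide) (by decide)), ?_⟩
  refine List.forall_mem_cons.2 ⟨ns_inv (h 0 (by decide)) (h 6 (by decide)) (hn 0 6 (by decide) (by decide)), ?_⟩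
  refine List.forall_mem_cons.2 ⟨ns_inv (h 1 (by decide)) (h 6 (by decide)) (hn 1 6 (by decide) (by decide)), ?_⟩
  refine List.forall_mem_cons.2 ⟨ns_inv (h 2 (by decide)) (h 6 (by decide)) (hn 2 6 (by decide) (by decide)), ?_⟩
  refine List.forall_mem_cons.2 ⟨ns_inv (h 3 (by decide)) (h 6 (by decide)) (hn 3 6 (by decide) (by decide)), ?_⟩
  refine List.forall_mem_cons.2 ⟨ns_inv (h 4 (by decide)) (h 6 (by decide)) (hn 4 6 (by decide) (by decide)), ?_⟩
  refine List.forall_mem_cons.2 ⟨ns_inv (h 5 (by decide)) (h 6 (by decide)) (hn 5 6 (by decide) (by decide)), ?_⟩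
  exact List.forall_mem_nil _

theorem M7_ok {f : ℕ → ℕ} {u : ℕ → ℝ} (h : ∀ i, i < 7 → SV w b K x (f i) (u i)) :
    ∀ a ∈ M7 (f 0) (f 1) (f 2) (f 3) (f 4) (f 5) (f 6), PV w b K x 2 a := by
  unfold M7
  refine List.forall_mem_cons.2 ⟨pp_inv (h 0 (by decide)) (h 0 (by decide)), ?_⟩
  refine List.forall_mem_cons.2 ⟨pp_inv (h 0 (by decide)) (h 1 (by decide)), ?_⟩
  refine List.forall_mem_cons.2 ⟨pp_inv (h 1 (by decide)) (h 1 (by decide)), ?_⟩
  refine List.forall_mem_cons.2 ⟨pp_inv (h 0 (by decide)) (h 2 (by decide)), ?_⟩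
  refine List.forall_mem_cons.2 ⟨pp_inv (h 1 (by decide)) (h 2 (by decide)), ?_⟩
  refine List.forall_mem_cons.2 ⟨pp_inv (h 2 (by decide)) (h 2 (by decide)), ?_⟩
  refine List.forall_mem_cons.2 ⟨pp_inv (h 0 (by decide)) (h 3 (by decide)), ?_⟩
  refine List.forall_mem_cons.2 ⟨pp_inv (h 1 (by decide)) (h 3 (by decide)), ?_⟩
  refine List.forall_mem_cons.2 ⟨pp_inv (h 2 (by decide)) (h 3 (by decide)), ?_⟩
  refine List.forall_mem_cons.2 ⟨pp_inv (h 3 (by decide)) (h 3 (by decide)), ?_⟩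
  refine List.forall_mem_cons.2 ⟨pp_inv (h 0 (by decide)) (h 4 (by decide)), ?_⟩
  refine List.forall_mem_cons.2 ⟨pp_inv (h 1 (by decide)) (h 4 (by decide)), ?_⟩
  refine List.forall_mem_cons.2 ⟨pp_inv (h 2 (by decide)) (h 4 (by decide)), ?_⟩
  refine List.forall_mem_cons.2 ⟨pp_inv (h 3 (by decide)) (h 4 (by decide)), ?_⟩
  refine List.forall_mem_cons.2 ⟨pp_inv (h 4 (by decide)) (h 4 (by decide)), ?_⟩
  refine List.forall_mem_cons.2 ⟨pp_inv (h 0 (by decide)) (h 5 (by decide)), ?_⟩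
  refine List.forall_mem_cons.2 ⟨pp_inv (h 1 (by decide)) (h 5 (by decide)), ?_⟩
  refine List.forall_mem_cons.2 ⟨pp_inv (h 2 (by decide)) (h 5 (by decide)), ?_⟩
  refine List.forall_mem_cons.2 ⟨pp_inv (h 3 (by decide)) (h 5 (by decide)), ?_⟩
  refine List.forall_mem_cons.2 ⟨pp_inv (h 4 (by decide)) (h 5 (by decide)), ?_⟩
  refine List.forall_mem_cons.2 ⟨pp_inv (h 5 (by decide)) (h 5 (by decide)), ?_⟩
  refine List.forall_mem_cons.2 ⟨pp_inv (h 0 (by decide)) (h 6 (by decide)), ?_⟩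
  refine List.forall_mem_cons.2 ⟨pp_inv (h 1 (by decide)) (h 6 (by decide)), ?_⟩
  refine List.forall_mem_cons.2 ⟨pp_inv (h 2 (by decide)) (h 6 (by decide)), ?_⟩
  refine List.forall_mem_cons.2 ⟨pp_inv (h 3 (by decide)) (h 6 (by decide)), ?_⟩
  refine List.forall_mem_cons.2 ⟨pp_inv (h 4 (by decide)) (h 6 (by decide)), ?_⟩
  refine List.forall_mem_cons.2 ⟨pp_inv (h 5 (by decide)) (h 6 (by decide)), ?_⟩
  refine List.forall_mem_cons.2 ⟨pp_inv (h 6 (by decide)) (h 6 (by decide)), ?_⟩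
  exact List.forall_mem_nil _

theorem S8_ok {f : ℕ → ℕ} {u : ℕ → ℝ} (h : ∀ i, i < 8 → SV w b K x (f i) (u i))
    (hn : ∀ c d, c < d → d < 8 → u c ≠ u d) :
    ∀ a ∈ S8 (2 ^ K) (2 ^ (2 * K + 4)) (f 0) (f 1) (f 2) (f 3) (f 4) (f 5) (f 6) (f 7), HV w b K x 4 a := by
  unfold S8
  refine List.forall_mem_cons.2 ⟨ns_inv (h 0 (by decide)) (h 1 (by decide)) (hn 0 1 (by decide) (by decide)), ?_⟩
  refine List.forall_mem_cons.2 ⟨ns_inv (h 0 (by decide)) (h 2 (by decide)) (hn 0 2 (by decide) (by decide)), ?_⟩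
  refine List.forall_mem_cons.2 ⟨ns_inv (h 1 (by decide)) (h 2 (by decide)) (hn 1 2 (by decide) (by decide)), ?_⟩
  refine List.forall_mem_cons.2 ⟨ns_inv (h 0 (by decide)) (h 3 (by decide)) (hn 0 3 (by decide) (by decide)), ?_⟩
  refine List.forall_mem_cons.2 ⟨ns_inv (h 1 (by decide)) (h 3 (by decide)) (hn 1 3 (by decide) (by decide)), ?_⟩
  refine List.forall_mem_cons.2 ⟨ns_inv (h 2 (by decide)) (h 3 (by decide)) (hn 2 3 (by decide) (by decide)), ?_⟩
  refine List.forall_mem_cons.2 ⟨ns_inv (h 0 (by decide)) (h 4 (by decide)) (hn 0 4 (by decide) (by decide)), ?_⟩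
  refine List.forall_mem_cons.2 ⟨ns_inv (h 1 (by decide)) (h 4 (by decide)) (hn 1 4 (by decide) (by decide)), ?_⟩
  refine List.forall_mem_cons.2 ⟨ns_inv (h 2 (by decide)) (h 4 (by decide)) (hn 2 4 (by decide) (by decide)), ?_⟩
  refine List.forall_mem_cons.2 ⟨ns_inv (h 3 (by decide)) (h 4 (by decide)) (hn 3 4 (by decide) (by decide)), ?_⟩
  refine List.forall_mem_cons.2 ⟨ns_inv (h 0 (by decide)) (h 5 (by decide)) (hn 0 5 (by decide) (by decide)), ?_⟩
  refine List.forall_mem_cons.2 ⟨ns_inv (h 1 (by decide)) (h 5 (by decide)) (hn 1 5 (by decide) (by decide)), ?_⟩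
  refine List.forall_mem_cons.2 ⟨ns_inv (h 2 (by decide)) (h 5 (by decide)) (hn 2 5 (by decide) (by decide)), ?_⟩
  refine List.forall_mem_cons.2 ⟨ns_inv (h 3 (by decide)) (h 5 (by decide)) (hn 3 5 (by decide) (by decide)), ?_⟩
  refine List.forall_mem_cons.2 ⟨ns_inv (h 4 (by decide)) (h 5 (by decide)) (hn 4 5 (by decide) (by decide)), ?_⟩
  refine List.forall_mem_cons.2 ⟨ns_inv (h 0 (by decide)) (h 6 (by decide)) (hn 0 6 (by decide) (by decide)), ?_⟩
  refine List.forall_mem_cons.2 ⟨ns_inv (h 1 (by decide)) (h 6 (by decide)) (hn 1 6 (by decide) (by decide)), ?_⟩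
  refine List.forall_mem_cons.2 ⟨ns_inv (h 2 (by decide)) (h 6 (by decide)) (hn 2 6 (by decide) (by decide)), ?_⟩
  refine List.forall_mem_cons.2 ⟨ns_inv (h 3 (by decide)) (h 6 (by decide)) (hn 3 6 (by decide) (by decide)), ?_⟩
  refine List.forall_mem_cons.2 ⟨ns_inv (h 4 (by decide)) (h 6 (by decide)) (hn 4 6 (by decide) (by decide)), ?_⟩
  refine List.forall_mem_cons.2 ⟨ns_inv (h 5 (by decide)) (h 6 (by decide)) (hn 5 6 (by decide) (by decide)), ?_⟩
  refine List.forall_mem_cons.2 ⟨ns_inv (h 0 (by decide)) (h 7 (by decide)) (hn 0 7 (by decide) (by decide)), ?_⟩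
  refine List.forall_mem_cons.2 ⟨ns_inv (h 1 (by decide)) (h 7 (by decide)) (hn 1 7 (by decide) (by decide)), ?_⟩
  refine List.forall_mem_cons.2 ⟨ns_inv (h 2 (by decide)) (h 7 (by decide)) (hn 2 7 (by decide) (by decide)), ?_⟩
  refine List.forall_mem_cons.2 ⟨ns_inv (h 3 (by decide)) (h 7 (by decide)) (hn 3 7 (by decide) (by decide)), ?_⟩
  refine List.forall_mem_cons.2 ⟨ns_inv (h 4 (by decide)) (h 7 (by decide)) (hn 4 7 (by decide) (by decide)), ?_⟩
  refine List.forall_mem_cons.2 ⟨ns_inv (h 5 (by decide)) (h 7 (by decide)) (hn 5 7 (by decide) (by decide)), ?_⟩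
  refine List.forall_mem_cons.2 ⟨ns_inv (h 6 (by decide)) (h 7 (by decide)) (hn 6 7 (by decide) (by decide)), ?_⟩
  exact List.forall_mem_nil _

theorem M8_ok {f : ℕ → ℕ} {u : ℕ → ℝ} (h : ∀ i, i < 8 → SV w b K x (f i) (u i)) :
    ∀ a ∈ M8 (f 0) (f 1) (f 2) (f 3) (f 4) (f 5) (f 6) (f 7), PV w b K x 2 a := by
  unfold M8
  refine List.forall_mem_cons.2 ⟨pp_inv (h 0 (by decide)) (h 0 (by decide)), ?_⟩
  refine List.forall_mem_cons.2 ⟨pp_inv (h 0 (by decide)) (h 1 (by decide)), ?_⟩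
  refine List.forall_mem_cons.2 ⟨pp_inv (h 1 (by decide)) (h 1 (by decide)), ?_⟩
  refine List.forall_mem_cons.2 ⟨pp_inv (h 0 (by decide)) (h 2 (by decide)), ?_⟩
  refine List.forall_mem_cons.2 ⟨pp_inv (h 1 (by decide)) (h 2 (by decide)), ?_⟩
  refine List.forall_mem_cons.2 ⟨pp_inv (h 2 (by decide)) (h 2 (by decide)), ?_⟩
  refine List.forall_mem_cons.2 ⟨pp_inv (h 0 (by decide)) (h 3 (by decide)), ?_⟩
  refine List.forall_mem_cons.2 ⟨pp_inv (h 1 (by decide)) (h 3 (by decide)), ?_⟩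
  refine List.forall_mem_cons.2 ⟨pp_inv (h 2 (by decide)) (h 3 (by decide)), ?_⟩
  refine List.forall_mem_cons.2 ⟨pp_inv (h 3 (by decide)) (h 3 (by decide)), ?_⟩
  refine List.forall_mem_cons.2 ⟨pp_inv (h 0 (by decide)) (h 4 (by decide)), ?_⟩
  refine List.forall_mem_cons.2 ⟨pp_inv (h 1 (by decide)) (h 4 (by decide)), ?_⟩
  refine List.forall_mem_cons.2 ⟨pp_inv (h 2 (by decide)) (h 4 (by decide)), ?_⟩
  refine List.forall_mem_cons.2 ⟨pp_inv (h 3 (by decide)) (h 4 (by decide)), ?_⟩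
  refine List.forall_mem_cons.2 ⟨pp_inv (h 4 (by decide)) (h 4 (by decide)), ?_⟩
  refine List.forall_mem_cons.2 ⟨pp_inv (h 0 (by decide)) (h 5 (by decide)), ?_⟩
  refine List.forall_mem_cons.2 ⟨pp_inv (h 1 (by decide)) (h 5 (by decide)), ?_⟩
  refine List.forall_mem_cons.2 ⟨pp_inv (h 2 (by decide)) (h 5 (by decide)), ?_⟩
  refine List.forall_mem_cons.2 ⟨pp_inv (h 3 (by decide)) (h 5 (by decide)), ?_⟩
  refine List.forall_mem_cons.2 ⟨pp_inv (h 4 (by decide)) (h 5 (by decide)), ?_⟩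
  refine List.forall_mem_cons.2 ⟨pp_inv (h 5 (by decide)) (h 5 (by decide)), ?_⟩
  refine List.forall_mem_cons.2 ⟨pp_inv (h 0 (by decide)) (h 6 (by decide)), ?_⟩
  refine List.forall_mem_cons.2 ⟨pp_inv (h 1 (by decide)) (h 6 (by decide)), ?_⟩
  refine List.forall_mem_cons.2 ⟨pp_inv (h 2 (by decide)) (h 6 (by decide)), ?_⟩
  refine List.forall_mem_cons.2 ⟨pp_inv (h 3 (by decide)) (h 6 (by decide)), ?_⟩
  refine List.forall_mem_cons.2 ⟨pp_inv (h 4 (by decide)) (h 6 (by decide)), ?_⟩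
  refine List.forall_mem_cons.2 ⟨pp_inv (h 5 (by decide)) (h 6 (by decide)), ?_⟩
  refine List.forall_mem_cons.2 ⟨pp_inv (h 6 (by decide)) (h 6 (by decide)), ?_⟩
  refine List.forall_mem_cons.2 ⟨pp_inv (h 0 (by decide)) (h 7 (by decide)), ?_⟩
  refine List.forall_mem_cons.2 ⟨pp_inv (h 1 (by decide)) (h 7 (by decide)), ?_⟩
  refine List.forall_mem_cons.2 ⟨pp_inv (h 2 (by decide)) (h 7 (by decide)), ?_⟩
  refine List.forall_mem_cons.2 ⟨pp_inv (h 3 (by decide)) (h 7 (by decide)), ?_⟩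
  refine List.forall_mem_cons.2 ⟨pp_inv (h 4 (by decide)) (h 7 (by decide)), ?_⟩
  refine List.forall_mem_cons.2 ⟨pp_inv (h 5 (by decide)) (h 7 (by decide)), ?_⟩
  refine List.forall_mem_cons.2 ⟨pp_inv (h 6 (by decide)) (h 7 (by decide)), ?_⟩
  refine List.forall_mem_cons.2 ⟨pp_inv (h 7 (by decide)) (h 7 (by decide)), ?_⟩
  exact List.forall_mem_nil _

theorem shl (n : ℕ) : Nat.shiftLeft 1 n = 2 ^ n := by
  show 1 <<< n = 2 ^ n
  rw [Nat.shiftLeft_eq, one_mul]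

/-- the value of a variable -/
theorem var_ok {F : ℕ} (hw : ∀ c, w c ≤ F) (c : Fin q) : SV w b (b * F) x (2 ^ (b * w c)) (x c) :=
  ⟨Inv.var c, pow_le (Nat.mul_le_mul_left b (hw c))⟩

theorem SV.pv {a : ℕ} {v : ℝ} (h : SV w b K x a v) : PV w b K x 1 a :=
  ⟨v, trivial, h.1, h.2.trans (pow_le (by omega))⟩

end

theorem lget_getD (L : List ℕ) (k : ℕ) : lget L k = L.getD k 0 := by
  induction L generalizing k with
  | nil => rfl
  | cons h t ih =>
    cases k with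
    | zero => rfl
    | succ k => exact ih k

theorem lget_zero {L : List ℕ} {k : ℕ} (h : L.length ≤ k) : lget L k = 0 := by
  rw [lget_getD, List.getD_eq_default _ _ h]

theorem lget_range (f : ℕ → ℕ) {n k : ℕ} (h : k < n) : lget ((List.range n).map f) k = f k := by
  rw [lget_getD, List.getD_eq_getElem?_getD]
  simp [h]

theorem land7 (P e : ℕ) : Nat.land (Nat.shiftRight P (3 * e)) 7 = od P e := by
  have h1 : Nat.land (Nat.shiftRight P (3 * e)) 7 = Nat.shiftRight P (3 * e) % 2 ^ 3 :=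
    Nat.and_two_pow_sub_one_eq_mod _ 3
  have h2 : Nat.shiftRight P (3 * e) = P / 2 ^ (3 * e) := Nat.shiftRight_eq_div_pow _ _
  rw [h1, h2, pow_mul]
  rfl

theorem sv_eqS (XL : List ℕ) (P e : ℕ) : sv XL P (3 * e) = lget XL (od P e) := by
  unfold sv; rw [land7]

theorem od_bit (P e i : ℕ) (hi : i < 3) : Nat.testBit (od P e) i = Nat.testBit P (3 * e + i) := by
  unfold od
  have h8 : (8 : ℕ) = 2 ^ 3 := by norm_num
  rw [h8, ← pow_mul, Nat.testBit_mod_two_pow, Nat.testBit_div_two_pow, Nat.add_comm]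
  simp [hi]

theorem dig6_true {P : ℕ} (h : dig6 P = true) (e : ℕ) (he : e < 15) : od P e < 6 := by
  unfold dig6 at h
  have h1 := Nat.eq_of_beq_eq_true h
  have h2 : Nat.testBit ((P &&& (P >>> 1)) &&& 10052677739666) (3 * e + 1) = false := by
    have h3 : (P &&& (P >>> 1)) &&& 10052677739666 = 0 := h1
    rw [h3]; exact Nat.zero_testBit _
  rw [Nat.testBit_and, Nat.testBit_and, Nat.testBit_shiftRight] at h2
  have h4 : Nat.testBit 10052677739666 (3 * e + 1) = true := by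
    have h4' : ∀ e, e < 15 → Nat.testBit 10052677739666 (3 * e + 1) = true := by decide
    exact h4' e he
  rw [h4, Bool.and_true] at h2
  have h5 := od_bit P e 1 (by norm_num)
  have h6 := od_bit P e 2 (by norm_num)
  rw [show 1 + (3 * e + 1) = 3 * e + 2 by ring] at h2
  rw [← h5, ← h6] at h2
  have h7 := od_lt P e
  generalize od P e = d at *
  interval_cases d <;> first | omega | (exfalso; revert h2; decide)

theorem dig7_true {P : ℕ} (h : dig7 P = true) (e : ℕ) (he : e < 21) : od P e < 7 := by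
  unfold dig7 at h
  have h1 := Nat.eq_of_beq_eq_true h
  have h2 : Nat.testBit (((P &&& (P >>> 1)) &&& (P >>> 2)) &&& 1317624576693539401) (3 * e) =
      false := by
    have h3 : ((P &&& (P >>> 1)) &&& (P >>> 2)) &&& 1317624576693539401 = 0 := h1
    rw [h3]; exact Nat.zero_testBit _
  rw [Nat.testBit_and, Nat.testBit_and, Nat.testBit_and, Nat.testBit_shiftRight,
    Nat.testBit_shiftRight] at h2
  have h4 : Nat.testBit 1317624576693539401 (3 * e) = true := by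
    have h4' : ∀ e, e < 21 → Nat.testBit 1317624576693539401 (3 * e) = true := by decide
    exact h4' e he
  rw [h4, Bool.and_true] at h2
  have h5 := od_bit P e 0 (by norm_num)
  have h6 := od_bit P e 1 (by norm_num)
  have h8 := od_bit P e 2 (by norm_num)
  rw [Nat.add_comm 1, Nat.add_comm 2] at h2
  rw [Nat.add_zero] at h5
  rw [← h5, ← h6, ← h8] at h2
  have h7 := od_lt P e
  generalize od P e = d at *
  interval_cases d <;> first | omega | (exfalso; revert h2; decide)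

end Ker
end CR
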