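import Pool.Agent.Lib.MP_6f5d36_co.CertC

set_option autoImplicit false

/-!
# MP_6f5d36_co : soundness of the direct terms of the kernel checker

The list `E` of an environment contains the values of the edges; `se`, `me`, `dmin`, `dterm`, `hterm`
compute minors and Heron forms directly from it.
-/

namespace CR
namespace Ker

theorem se_self (E : List ℕ) (i : ℕ) : se E i i = 0 := by
  unfold se
  have h1 : Nat.beq i i = true := Nat.beq_refl i
  rw [h1]

theorem se_gt (E : List ℕ) {i j : ℕ} (h : j < i) : se E i j = lget E (i * (i - 1) / 2 + j) := by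
  unfold se
  have h1 : Nat.beq i j = false := by
    rw [Bool.eq_false_iff]
    intro h2
    have := Nat.eq_of_beq_eq_true h2
    omega
  have h2 : Nat.ble i j = false := by
    rw [Bool.eq_false_iff]
    intro h2
    have := Nat.le_of_ble_eq_true h2
    omega
  rw [h1, h2]
  rfl

theorem se_lt (E : List ℕ) {i j : ℕ} (h : i < j) : se E i j = lget E (j * (j - 1) / 2 + i) := by
  unfold se
  have h1 : Nat.beq i j = false := by
    rw [Bool.eq_false_iff]
    intro h2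
    have := Nat.eq_of_beq_eq_true h2
    omega
  have h2 : Nat.ble i j = true := Nat.ble_eq_true_of_le h.le
  rw [h1, h2]
  rfl

section

variable {q : ℕ} {w : Fin q → ℕ} {b K : ℕ} {x : Fin q → ℝ} {m : ℕ} {X Y : ℕ → ℝ} {E : List ℕ}

/-- the values of the edges from the values of the list -/
theorem se_of_lget
    (hE : ∀ i j, i < j → j < m → SV w b K x (lget E (j * (j - 1) / 2 + i)) (sd X Y i j))
    {i j : ℕ} (hi : i < m) (hj : j < m) : SV w b K x (se E i j) (sd X Y i j) := by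
  rcases lt_trichotomy i j with h | h | h
  · rw [se_lt E h]
    exact hE i j h hj
  · subst h
    rw [se_self, sd_self]
    exact SV.zero
  · rw [se_gt E h, sd_symm]
    exact hE j i h hi

variable (hE : ∀ i j, i < m → j < m → SV w b K x (se E i j) (sd X Y i j))

include hE

theorem me_inv {c i j : ℕ} (hc : c < m) (hi : i < m) (hj : j < m) :
    ME w b K x (gm X Y c) i j (me (2 ^ K) E c i j) :=
  mf_inv (hE _ _ hc hi) (hE _ _ hc hj) (hE _ _ hi hj)

/-- a direct minor is a zero form -/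
theorem dmin_inv {c i1 i2 i3 j1 j2 j3 : ℕ} (hc : c < m) (h1 : i1 < m) (h2 : i2 < m) (h3 : i3 < m)
    (g1 : j1 < m) (g2 : j2 < m) (g3 : j3 < m) :
    ZV w b K x (dmin (2 ^ K - 1) (2 ^ K) (2 ^ (2 * K + 4)) E c i1 i2 i3 j1 j2 j3) :=
  mkD ⟨fun i j => gm_symm X Y c i j, fun a1 a2 a3 b1 b2 b3 => minor_zero X Y c a1 a2 a3 b1 b2 b3⟩
    (me_inv hE hc h1 g1) (me_inv hE hc h1 g2) (me_inv hE hc h1 g3)
    (mkQ (me_inv hE hc h2 g2) (me_inv hE hc h3 g3) (me_inv hE hc h2 g3) (me_inv hE hc h3 g2))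
    (mkQ (me_inv hE hc h2 g1) (me_inv hE hc h3 g3) (me_inv hE hc h2 g3) (me_inv hE hc h3 g1))
    (mkQ (me_inv hE hc h2 g1) (me_inv hE hc h3 g2) (me_inv hE hc h2 g2) (me_inv hE hc h3 g1))

/-- a direct Heron form -/
theorem heron_inv (G : GP m X Y) {c i j : ℕ} (hc : c < m) (hi : i < m) (hj : j < m)
    (h1 : c ≠ i) (h2 : c ≠ j) (h3 : i ≠ j) :
    HV w b K x 13 (nh (2 ^ (2 * K + 4)) (me (2 ^ K) E c i j) (se E c i) (se E c j)) := by
  refine nh_inv (me_inv hE hc hi hj) (hE _ _ hc hi) (hE _ _ hc hj) ?_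
  have h4 := G.tri_pos hc hi hj h1 h2 h3
  have e : gm X Y c i j * gm X Y c i j - 4 * (sd X Y c i * sd X Y c j) =
      -tri (sd X Y c i) (sd X Y c j) (sd X Y i j) := by
    unfold gm tri
    ring
  rw [e]
  linarith

theorem direct0 : DTrue w b K x 3 162 29 (fun _ v => v = 0)
    (dterm (2 ^ K - 1) (2 ^ K) (2 ^ (2 * K + 4)) (2 ^ (2 * K + 300)) m E) := by
  intro acc t ww k N0 n0 v hww ht hI hv h
  obtain ⟨h1, h2⟩ := band_true h
  obtain ⟨h3, h4⟩ := band_true h1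
  obtain ⟨h5, h6⟩ := band_true h4
  obtain ⟨h7, h8⟩ := band_true h5
  obtain ⟨h9, h10⟩ := band_true h8
  obtain ⟨h11, h12⟩ := band_true h6
  obtain ⟨h13, h14⟩ := band_true h12
  have hz := dmin_inv hE (lt'_true h3) (lt'_true h7) (lt'_true h9) (lt'_true h10) (lt'_true h11)
    (lt'_true h13) (lt'_true h14)
  have hmag : Nat.succ (Nat.shiftRight t 29) ≤ 2 ^ ww := by
    have h15 : Nat.shiftRight t 29 = t / 2 ^ 29 := Nat.shiftRight_eq_div_pow _ _
    rw [h15]
    apply Nat.succ_le_of_lt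
    apply Nat.div_lt_of_lt_mul
    rwa [← pow_add]
  obtain ⟨u', k1, k2, -⟩ := tm_inv (sg := Nat.land (Nat.shiftRight t 28) 1) hz.1 hz.2 hmag
    (pow_le (by omega))
  refine ⟨_, v + u', h2, hI.add k1, ?_⟩
  have hu : u' = 0 := by
    rcases k2 with ⟨_, h⟩ | ⟨_, h⟩ <;> rw [h] <;> simp
  have hv' : v = 0 := hv
  show v + u' = 0
  rw [hu, hv', add_zero]

theorem hterm_inv (G : GP m X Y) {acc t : ℕ} {k : ℕ → Bool}
    (h : hterm (2 ^ K) (2 ^ (2 * K + 4)) m E acc t k = true) :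
    ∃ a, HV w b K x 13 a ∧ k (acc + Nat.mul (Nat.succ (Nat.shiftRight t 12)) a) = true := by
  obtain ⟨h1, h2⟩ := band_true h
  obtain ⟨h3, h4⟩ := band_true h1
  obtain ⟨h5, h6⟩ := band_true h3
  obtain ⟨h7, h8⟩ := band_true h6
  obtain ⟨h9, h10⟩ := band_true h4
  have k4 := lt'_true h9
  have k5 := lt'_true h10
  exact ⟨_, heron_inv hE G (lt'_true h5) (lt'_true h7) (lt'_true h8) (by omega) (by omega)
    (by omega), h2⟩

theorem direct1 (G : GP m X Y) :
    DTrue w b K x 2 13 12 Neg (hterm (2 ^ K) (2 ^ (2 * K + 4)) m E) := by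
  intro acc t ww k N0 n0 v hww ht hI hv h
  obtain ⟨a, ⟨u, h1, h2, h3⟩, h4⟩ := hterm_inv hE G h
  have hmag : Nat.succ (Nat.shiftRight t 12) ≤ 2 ^ ww := by
    have h15 : Nat.shiftRight t 12 = t / 2 ^ 12 := Nat.shiftRight_eq_div_pow _ _
    rw [h15]
    apply Nat.succ_le_of_lt
    apply Nat.div_lt_of_lt_mul
    rwa [← pow_add]
  have h5 := h2.smul (Nat.succ (Nat.shiftRight t 12))
  refine ⟨_, _, h4, hI.add (h5.mono (Nat.mul_le_mul_right _ hmag)), ?_⟩
  exact mode_neg.plus _ _ _ _ (Nat.succ_le_succ (Nat.zero_le _)) hv h1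

theorem direct2 (G : GP m X Y) (t : ℕ) (k : ℕ → Bool) (ht : t < 2 ^ 12)
    (h : hterm (2 ^ K) (2 ^ (2 * K + 4)) m E 0 t k = true) :
    ∃ G' u, k G' = true ∧ u < 0 ∧ Inv w b K x 2 13 G' u ∧ G' ≤ 2 ^ (2 * K + 8) := by
  obtain ⟨a, ⟨u, h1, h2, h3⟩, h4⟩ := hterm_inv hE G h
  have h5 : Nat.shiftRight t 12 = 0 := by
    have h15 : Nat.shiftRight t 12 = t / 2 ^ 12 := Nat.shiftRight_eq_div_pow _ _
    rw [h15, Nat.div_eq_of_lt ht]
  rw [h5] at h4
  have h6 : 0 + Nat.mul (Nat.succ 0) a = a := by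
    show 0 + 1 * a = a
    omega
  rw [h6] at h4
  exact ⟨a, u, h4, h1, h2, h3⟩

end

end Ker
end CR
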