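import Pool.Agent.Lib.MP_6f5d36_co.Facts

set_option autoImplicit false

/-!
# MP_6f5d36_co : patterns of point sets (partial edge colourings, coded by natural numbers)

Points are `0, 1, 2, ...`; the edge `i < j` has the number `eix i j` (order by the larger vertex:
01, 02, 12, 03, 13, 23, ...).  A pattern is a natural number, the digit `dg P e` (base 16) of the
edge `e` is its class, `15` means that the edge is free.  `CR.Real m k P` : there are `m` points in
general position and positive class values, pairwise different for the classes `0, ..., k - 1`, such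
that every edge which is not free has the value of its class.
-/

namespace CR

/-- squared distance of two points of a sequence -/
def sd (X Y : ℕ → ℝ) (i j : ℕ) : ℝ := (X i - X j) ^ 2 + (Y i - Y j) ^ 2

/-- twice the signed area -/
def ar (X Y : ℕ → ℝ) (i j k : ℕ) : ℝ :=
  (X j - X i) * (Y k - Y i) - (X k - X i) * (Y j - Y i)

/-- the incircle form -/
def ci (X Y : ℕ → ℝ) (i j k l : ℕ) : ℝ :=
  sd X Y i j * ar X Y i k l - sd X Y i k * ar X Y i j l + sd X Y i l * ar X Y i j k

/-- general position of the first `m` points -/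
structure GP (m : ℕ) (X Y : ℕ → ℝ) : Prop where
  nocol : ∀ i j k, i < m → j < m → k < m → i ≠ j → i ≠ k → j ≠ k → ar X Y i j k ≠ 0
  nocirc : ∀ i j k l, i < m → j < m → k < m → l < m → i ≠ j → i ≠ k → i ≠ l → j ≠ k → j ≠ l →
    k ≠ l → ci X Y i j k l ≠ 0
  ne : ∀ i j, i < m → j < m → i ≠ j → 0 < sd X Y i j

/-- the number of the edge `i < j` -/
def eix (i j : ℕ) : ℕ := Nat.add (Nat.div (Nat.mul j (Nat.sub j 1)) 2) i

/-- the digit (base 16) number `e` of the pattern `P` -/
def dg (P e : ℕ) : ℕ := Nat.land (Nat.shiftRight P (Nat.mul 4 e)) 15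

/-- the pattern `P` of `m` points is satisfied by the points and the class values `x` -/
def Sat (m P : ℕ) (X Y : ℕ → ℝ) (x : ℕ → ℝ) : Prop :=
  ∀ i j, i < j → j < m → dg P (eix i j) ≠ 15 → sd X Y i j = x (dg P (eix i j))

/-- the pattern `P` of `m` points is realizable in general position, the classes `0, ..., k-1` having
different values -/
def Real (m k P : ℕ) : Prop :=
  ∃ X Y x : ℕ → ℝ, GP m X Y ∧ (∀ c, 0 < x c) ∧ (∀ c d, c < k → d < k → x c = x d → c = d) ∧
    Sat m P X Y x

section facts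

variable (X Y : ℕ → ℝ)

theorem sd_symm (i j : ℕ) : sd X Y i j = sd X Y j i := by unfold sd; ring

theorem sd_self (i : ℕ) : sd X Y i i = 0 := by unfold sd; ring

/-- twice the Gram matrix with base point `b`, in terms of the squared distances -/
def gm (b i j : ℕ) : ℝ := sd X Y b i + sd X Y b j - sd X Y i j

theorem gm_symm (b i j : ℕ) : gm X Y b i j = gm X Y b j i := by unfold gm sd; ring

/-- all `3 x 3` minors of the Gram matrix vanish -/
theorem minor_zero (b i1 i2 i3 j1 j2 j3 : ℕ) :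
    gm X Y b i1 j1 * (gm X Y b i2 j2 * gm X Y b i3 j3 - gm X Y b i2 j3 * gm X Y b i3 j2) -
      gm X Y b i1 j2 * (gm X Y b i2 j1 * gm X Y b i3 j3 - gm X Y b i2 j3 * gm X Y b i3 j1) +
      gm X Y b i1 j3 * (gm X Y b i2 j1 * gm X Y b i3 j2 - gm X Y b i2 j2 * gm X Y b i3 j1) = 0 := by
  have e : ∀ i j, gm X Y b i j = 2 * ((X i - X b) * (X j - X b) + (Y i - Y b) * (Y j - Y b)) := by
    intro i j; unfold gm sd; ring
  simp only [e]
  ring

theorem tri_sd (i j k : ℕ) :
    tri (sd X Y i j) (sd X Y i k) (sd X Y j k) = 4 * ar X Y i j k ^ 2 := by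
  unfold tri sd ar; ring

theorem cm_sd (i j k l : ℕ) :
    cm (sd X Y i j) (sd X Y i k) (sd X Y i l) (sd X Y j k) (sd X Y j l) (sd X Y k l) = 0 := by
  unfold cm sd; ring

theorem pt_sd (i j k l : ℕ) :
    pt (sd X Y i j) (sd X Y i k) (sd X Y i l) (sd X Y j k) (sd X Y j l) (sd X Y k l) =
      - 4 * ci X Y i j k l ^ 2 := by
  unfold pt ci sd ar; ring

variable {X Y} {m : ℕ} (G : GP m X Y)

include G in
theorem GP.tri_pos {i j k : ℕ} (hi : i < m) (hj : j < m) (hk : k < m) (hij : i ≠ j) (hik : i ≠ k)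
    (hjk : j ≠ k) : 0 < tri (sd X Y i j) (sd X Y i k) (sd X Y j k) := by
  rw [tri_sd]
  have := G.nocol i j k hi hj hk hij hik hjk
  positivity

include G in
theorem GP.pt_neg {i j k l : ℕ} (hi : i < m) (hj : j < m) (hk : k < m) (hl : l < m) (hij : i ≠ j)
    (hik : i ≠ k) (hil : i ≠ l) (hjk : j ≠ k) (hjl : j ≠ l) (hkl : k ≠ l) :
    pt (sd X Y i j) (sd X Y i k) (sd X Y i l) (sd X Y j k) (sd X Y j l) (sd X Y k l) < 0 := by
  rw [pt_sd]
  have := G.nocirc i j k l hi hj hk hl hij hik hil hjk hjl hkl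
  have h2 : 0 < ci X Y i j k l ^ 2 := by positivity
  linarith

include G in
/-- a quadrangle with two pairs of equal opposite sides is a parallelogram -/
theorem GP.para {i j k l : ℕ} (hi : i < m) (hj : j < m) (hk : k < m) (hl : l < m) (hij : i ≠ j)
    (hik : i ≠ k) (hil : i ≠ l) (hjk : j ≠ k) (hjl : j ≠ l) (hkl : k ≠ l)
    (h1 : sd X Y i j = sd X Y k l) (h2 : sd X Y j k = sd X Y i l) :
    sd X Y i k + sd X Y j l = 2 * sd X Y i j + 2 * sd X Y j k := by
  have h3 := cm_sd X Y i j k l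
  have h4 := G.pt_neg hi hj hk hl hij hik hil hjk hjl hkl
  rw [← h1, ← h2] at h3 h4
  unfold cm at h3
  unfold pt at h4
  have h5 : (sd X Y i k + sd X Y j l - 2 * sd X Y i j - 2 * sd X Y j k) *
      ((sd X Y i j - sd X Y j k) ^ 2 - sd X Y i k * sd X Y j l) = 0 := by
    linear_combination h3
  rcases mul_eq_zero.1 h5 with h6 | h6
  · linarith
  · exfalso
    have h7 : sd X Y i k * sd X Y j l = (sd X Y i j - sd X Y j k) ^ 2 := by linarith
    rw [h7] at h4
    nlinarith

include G in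
/-- a point has at most three neighbours at a given distance -/
theorem GP.deg_le {i j k l n : ℕ} (hj : j < m) (hk : k < m) (hl : l < m) (hn : n < m)
    (hjk : j ≠ k) (hjl : j ≠ l) (hjn : j ≠ n) (hkl : k ≠ l) (hkn : k ≠ n) (hln : l ≠ n)
    (e1 : sd X Y i j = sd X Y i k) (e2 : sd X Y i j = sd X Y i l) (e3 : sd X Y i j = sd X Y i n) :
    False := by
  apply G.nocirc j k l n hj hk hl hn hjk hjl hjn hkl hkn hln
  unfold ci ar
  unfold sd at e1 e2 e3 ⊢
  linear_combination
    (((X l - X j) * (Y n - Y j) - (X n - X j) * (Y l - Y j))) * (-e1) +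
    (((X k - X j) * (Y n - Y j) - (X n - X j) * (Y k - Y j))) * e2 +
    (((X k - X j) * (Y l - Y j) - (X l - X j) * (Y k - Y j))) * (-e3)

include G in
/-- a pair of points has at most two apexes -/
theorem GP.apex_le {i j k l n : ℕ} (hi : i < m) (hj : j < m) (hk : k < m) (hl : l < m) (hn : n < m)
    (hij : i ≠ j) (hkl : k ≠ l) (hkn : k ≠ n) (hln : l ≠ n)
    (e1 : sd X Y i k = sd X Y j k) (e2 : sd X Y i l = sd X Y j l) (e3 : sd X Y i n = sd X Y j n) :
    False := by
  have hd : 0 < sd X Y i j := G.ne i j hi hj hij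
  apply G.nocol k l n hk hl hn hkl hkn hln
  have h4 : ar X Y k l n * sd X Y i j = 0 := by
    have a1 : (X l - X k) * (X i - X j) + (Y l - Y k) * (Y i - Y j) = 0 := by
      unfold sd at e1 e2
      linear_combination (1 / 2 : ℝ) * e1 - (1 / 2 : ℝ) * e2
    have a2 : (X n - X k) * (X i - X j) + (Y n - Y k) * (Y i - Y j) = 0 := by
      unfold sd at e1 e3
      linear_combination (1 / 2 : ℝ) * e1 - (1 / 2 : ℝ) * e3
    unfold ar sd
    linear_combination
      ((X i - X j) * (Y n - Y k) - (Y i - Y j) * (X n - X k)) * a1 +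
      ((Y i - Y j) * (X l - X k) - (X i - X j) * (Y l - Y k)) * a2
  exact (mul_eq_zero.1 h4).resolve_right hd.ne'

end facts

/-- fewer points -/
theorem GP.comp {m n : ℕ} {X Y : ℕ → ℝ} (G : GP n X Y) (p : ℕ → ℕ) (hp : ∀ i, i < m → p i < n)
    (hi : ∀ i j, i < m → j < m → p i = p j → i = j) :
    GP m (fun i => X (p i)) (fun i => Y (p i)) where
  nocol i j k h1 h2 h3 a b c := G.nocol (p i) (p j) (p k) (hp i h1) (hp j h2) (hp k h3)
    (fun h => a (hi _ _ h1 h2 h)) (fun h => b (hi _ _ h1 h3 h)) (fun h => c (hi _ _ h2 h3 h))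
  nocirc i j k l h1 h2 h3 h4 a b c d e f := G.nocirc (p i) (p j) (p k) (p l) (hp i h1) (hp j h2)
    (hp k h3) (hp l h4) (fun h => a (hi _ _ h1 h2 h)) (fun h => b (hi _ _ h1 h3 h))
    (fun h => c (hi _ _ h1 h4 h)) (fun h => d (hi _ _ h2 h3 h)) (fun h => e (hi _ _ h2 h4 h))
    (fun h => f (hi _ _ h3 h4 h))
  ne i j h1 h2 a := G.ne (p i) (p j) (hp i h1) (hp j h2) (fun h => a (hi _ _ h1 h2 h))

/-- the number of an edge with unordered ends -/
def ex (i j : ℕ) : ℕ := if i < j then eix i j else eix j i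

theorem ex_symm {i j : ℕ} (h : i ≠ j) : ex i j = ex j i := by
  unfold ex
  rcases lt_or_gt_of_ne h with h1 | h1
  · rw [if_pos h1, if_neg (by omega)]
  · rw [if_neg (by omega), if_pos h1]

theorem Sat.ex {m P : ℕ} {X Y x : ℕ → ℝ} (h : Sat m P X Y x) {i j : ℕ} (hi : i < m) (hj : j < m)
    (hij : i ≠ j) (h15 : dg P (ex i j) ≠ 15) : sd X Y i j = x (dg P (CR.ex i j)) := by
  unfold CR.ex at h15 ⊢
  rcases lt_or_gt_of_ne hij with h1 | h1
  · rw [if_pos h1] at h15 ⊢
    exact h i j h1 hj h15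
  · rw [if_neg (by omega)] at h15 ⊢
    rw [sd_symm]
    exact h j i h1 hi h15

/-- **embedding of patterns**: the points of `N` go to points of `P` by `p`, the classes by `f`;
the classes `< k'` of `N` go injectively to classes `< k` of `P`. -/
theorem Real.emb {m k P m' k' N : ℕ} (h : Real m k P) (p f : ℕ → ℕ) (hp : ∀ i, i < m' → p i < m)
    (hi : ∀ i j, i < m' → j < m' → p i = p j → i = j)
    (hf : ∀ c, c < k' → f c < k) (hf2 : ∀ c d, c < k' → d < k' → f c = f d → c = d)
    (hN : ∀ i j, i < j → j < m' → dg N (eix i j) ≠ 15 →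
      dg P (ex (p i) (p j)) = f (dg N (eix i j)) ∧ f (dg N (eix i j)) ≠ 15) : Real m' k' N := by
  obtain ⟨X, Y, x, G, hx, hd, hS⟩ := h
  refine ⟨fun i => X (p i), fun i => Y (p i), fun c => x (f c), G.comp p hp hi, fun c => hx _,
    fun c d hc hd' h => hf2 c d hc hd' (hd _ _ (hf c hc) (hf d hd') h), ?_⟩
  intro i j hij hj h15
  obtain ⟨h1, h2⟩ := hN i j hij hj h15
  have hne : p i ≠ p j := fun h => by have := hi i j (by omega) hj h; omega
  have := hS.ex (hp i (by omega)) (hp j hj) hne (by rw [h1]; exact h2)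
  rw [h1] at this
  exact this

end CR
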