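import Pool.Agent.Lib.MP_6f5d36_co.Occ
import Pool.Agent.Lib.MP_6f5d36_co.Real

set_option autoImplicit false

/-!
# MP_6f5d36_co : an occurrence of a pattern realizes it by points in general position

`CR.Realk m k P` is the form in which the certificates are sound: the labels `< k` have pairwise
different values, the other labels have only positive values.
-/

namespace CR

/-- the pattern `P` of `m` points (3 bits for every edge) is realizable in general position, the labels
`0, ..., k-1` having pairwise different values -/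
def Realk (m k P : ℕ) : Prop :=
  ∃ X Y x : ℕ → ℝ, GP m X Y ∧ (∀ c, 0 < x c) ∧ (∀ c d, c < k → d < k → x c = x d → c = d) ∧
    ∀ i j, i < j → j < m → sd X Y i j = x (lab P i j)

theorem Realk.mono {m k k' P : ℕ} (h : Realk m k P) (hk : k' ≤ k) : Realk m k' P := by
  obtain ⟨X, Y, x, h1, h2, h3, h4⟩ := h
  exact ⟨X, Y, x, h1, h2, fun c d hc hd => h3 c d (by omega) (by omega), h4⟩

theorem Conf.gp (F : Conf 9) (m : ℕ) (f : ℕ → Fin 9)
    (hf : ∀ i j, i < m → j < m → f i = f j → i = j) :
    GP m (fun i => F.x (f i)) (fun i => F.y (f i)) where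
  nocol i j k hi hj hk hij hik hjk := F.nocol (f i) (f j) (f k) (fun h => hij (hf _ _ hi hj h))
    (fun h => hik (hf _ _ hi hk h)) (fun h => hjk (hf _ _ hj hk h))
  nocirc i j k l hi hj hk hl a b c d e u := F.nocirc (f i) (f j) (f k) (f l)
    (fun h => a (hf _ _ hi hj h)) (fun h => b (hf _ _ hi hk h)) (fun h => c (hf _ _ hi hl h))
    (fun h => d (hf _ _ hj hk h)) (fun h => e (hf _ _ hj hl h)) (fun h => u (hf _ _ hk hl h))
  ne i j hi hj a := by
    have h := F.dist (f i) (f j) (fun h => a (hf _ _ hi hj h))
    unfold sq at h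
    unfold sd
    rw [h]
    exact F.pos _

/-- an occurrence realizes the pattern, all labels having different values -/
theorem Occ.real {F : Conf 9} {m : ℕ} {f : ℕ → Fin 9} {g : ℕ → Fin 8} {P : ℕ}
    (h : Occ F m f g P) : Realk m 8 P := by
  refine ⟨fun i => F.x (f i), fun i => F.y (f i), fun c => F.D (g c), F.gp m f h.inj,
    fun c => F.pos _, fun c d hc hd hcd => h.ginj c d hc hd (F.inj hcd), ?_⟩
  intro i j hij hj
  have hne : f i ≠ f j := fun he => by have := h.inj i j (by omega) hj he; omega
  have h1 := F.dist (f i) (f j) hne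
  unfold sq at h1
  unfold sd
  rw [h1, h.col i j hij hj]

/-- the version in which one label (the label `k`) stands for the unknown values of some edges which
all have the same value, or of one edge only -/
theorem Occ.realk {F : Conf 9} {m k : ℕ} {f : ℕ → Fin 9} {g : ℕ → Fin 8} {P : ℕ} (v : Fin 8)
    (hi : ∀ i j, i < m → j < m → f i = f j → i = j) (hk : k < 8)
    (hg : ∀ a b, a < k → b < k → g a = g b → a = b)
    (h1 : ∀ i j, i < j → j < m → lab P i j ≠ k → F.c (f i) (f j) = g (lab P i j))
    (h2 : ∀ i j, i < j → j < m → lab P i j = k → F.c (f i) (f j) = v) : Realk m k P := by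
  refine ⟨fun i => F.x (f i), fun i => F.y (f i), fun c => F.D (if c = k then v else g c),
    F.gp m f hi, fun c => F.pos _, fun c d hc hd hcd => ?_, ?_⟩
  · have h3 := F.inj hcd
    rw [if_neg (by omega), if_neg (by omega)] at h3
    exact hg c d hc hd h3
  · intro i j hij hj
    have hne : f i ≠ f j := fun he => by have := hi i j (by omega) hj he; omega
    have h3 := F.dist (f i) (f j) hne
    unfold sq at h3
    unfold sd
    rw [h3]
    show F.D (F.c (f i) (f j)) = F.D (if lab P i j = k then v else g (lab P i j))
    by_cases h4 : lab P i j = k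
    · rw [h2 i j hij hj h4, if_pos h4]
    · rw [h1 i j hij hj h4, if_neg h4]

end CR
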