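import Pool.Agent.Lib.MP_6f5d36_co.CertG7
import Pool.Agent.Lib.MP_6f5d36_co.CertS
import Pool.Agent.Lib.MP_6f5d36_co.KerD
import Pool.Agent.Lib.MP_6f5d36_co.OccReal

set_option autoImplicit false
set_option linter.all false

/-!
# MP_6f5d36_co : soundness of the kernel checker
-/

namespace CR
namespace Ker

open Finset

section

variable {q : ℕ} {w : Fin q → ℕ} {b F : ℕ} {x : Fin q → ℝ} {XL : List ℕ}

/-- the values of the variables -/
structure XOK (w : Fin q → ℕ) (b : ℕ) (XL : List ℕ) : Prop where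
  lt : ∀ c (h : c < q), lget XL c = 2 ^ (b * w ⟨c, h⟩)
  ge : ∀ c, q ≤ c → lget XL c = 0

theorem XOK.sv (hX : XOK w b XL) (hw : ∀ c, w c ≤ F) (c : ℕ) (h : c < q) :
    SV w b (b * F) x (lget XL c) (x ⟨c, h⟩) := by
  rw [hX.lt c h]; exact var_ok hw _

theorem XOK.all (hX : XOK w b XL) (hw : ∀ c, w c ≤ F) (c : ℕ) :
    ∃ v, Inv w b (b * F) x 1 1 (lget XL c) v ∧ lget XL c ≤ 2 ^ (b * F) ∧
      ∀ h : c < q, v = x ⟨c, h⟩ := by
  by_cases h : c < q
  · exact ⟨x ⟨c, h⟩, (hX.sv hw c h).1, (hX.sv (x := x) hw c h).2, fun _ => rfl⟩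
  · refine ⟨0, ?_, ?_, fun h' => absurd h' h⟩
    · rw [hX.ge c (by omega)]; exact Inv.zero 1 1
    · rw [hX.ge c (by omega)]; exact Nat.zero_le _

theorem mem_lget {L : List ℕ} {a : ℕ} (h : a ∈ L) : ∃ k, a = lget L k := by
  obtain ⟨k, hk, h2⟩ := List.mem_iff_getElem.1 h
  refine ⟨k, ?_⟩
  rw [lget_getD, List.getD_eq_getElem?_getD, List.getElem?_eq_getElem hk, h2]
  rfl

theorem XOK.m1 (hX : XOK w b XL) (hw : ∀ c, w c ≤ F) :
    ∀ a ∈ XL, ∃ u, True ∧ Inv w b (b * F) x 1 1 a u ∧ a ≤ 2 ^ (2 * (b * F) + 8) := by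
  intro a ha
  obtain ⟨k, rfl⟩ := mem_lget ha
  obtain ⟨v, h1, h2, _⟩ := hX.all (x := x) hw k
  exact ⟨v, trivial, h1, h2.trans (pow_le (by omega))⟩

/-- the values of the edges -/
theorem se_ok {m n : ℕ} {K : ℕ} {E : List ℕ} {f : ℕ → ℕ} {X Y : ℕ → ℝ}
    (hE : E = (List.range n).map f) (hn : ∀ j, j < m → ∀ i, i < j → eo i j < n)
    (h : ∀ i j, i < j → j < m → SV w b K x (f (eo i j)) (sd X Y i j)) :
    ∀ i j, i < m → j < m → SV w b K x (se E i j) (sd X Y i j) := by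
  have key : ∀ i j, i < j → j < m → SV w b K x
      (lget E (Nat.add (Nat.div (Nat.mul j (Nat.sub j 1)) 2) i)) (sd X Y i j) := by
    intro i j hij hj
    have e : lget E (Nat.add (Nat.div (Nat.mul j (Nat.sub j 1)) 2) i) = f (eo i j) := by
      rw [hE]; exact lget_range f (hn j hj i hij)
    rw [e]; exact h i j hij hj
  intro i j hi hj
  rcases Nat.lt_trichotomy i j with h1 | h1 | h1
  · have e : se E i j = lget E (Nat.add (Nat.div (Nat.mul j (Nat.sub j 1)) 2) i) := by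
      unfold se
      have e1 : Nat.beq i j = false := by
        rcases h3 : Nat.beq i j with _ | _
        · rfl
        · exact absurd (Nat.eq_of_beq_eq_true h3) (by omega)
      have e2 : Nat.ble i j = true := Nat.ble_eq_true_of_le (by omega)
      rw [e1, e2]
    rw [e]; exact key i j h1 hj
  · subst h1
    have e : se E i i = 0 := by
      unfold se
      have e1 : Nat.beq i i = true := Nat.beq_refl i
      rw [e1]
    rw [e, sd_self]; exact SV.zero
  · have e : se E i j = lget E (Nat.add (Nat.div (Nat.mul i (Nat.sub i 1)) 2) j) := by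
      unfold se
      have e1 : Nat.beq i j = false := by
        rcases h3 : Nat.beq i j with _ | _
        · rfl
        · exact absurd (Nat.eq_of_beq_eq_true h3) (by omega)
      have e2 : Nat.ble i j = false := by
        rcases h3 : Nat.ble i j with _ | _
        · rfl
        · exact absurd (Nat.le_of_ble_eq_true h3) (by omega)
      rw [e1, e2]
    rw [e, sd_symm]; exact key j i h1 hi

end

theorem band_false_iff {a b : Bool} : band a b = true → a = true ∧ b = true := band_true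

theorem w6_le : ∀ c, w6 c ≤ 136 := by decide
theorem w7_le : ∀ c, w7 c ≤ 247 := by decide
theorem w8_le : ∀ c, w8 c ≤ 388 := by decide

/-- what the theorems on environments assume: points and values realizing the pattern -/
structure Sit (m q k P : ℕ) (X Y xs : ℕ → ℝ) : Prop where
  gp : GP m X Y
  pos : ∀ c, 0 < xs c
  inj : ∀ c d, c < k → d < k → xs c = xs d → c = d
  sd : ∀ i j, i < j → j < m → sd X Y i j = xs (lab P i j)
  lt : ∀ i j, i < j → j < m → lab P i j < q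

theorem Sit.edge {m q k P : ℕ} {X Y xs : ℕ → ℝ} (S : Sit m q k P X Y xs) {w : Fin q → ℕ} {b F : ℕ}
    {XL : List ℕ} (hX : XOK w b XL) (hw : ∀ c, w c ≤ F) {i j : ℕ} (hij : i < j) (hj : j < m) :
    SV w b (b * F) (fun c : Fin q => xs c) (sv XL P (3 * eo i j)) (CR.sd X Y i j) := by
  rw [S.sd i j hij hj, sv_eqS]
  exact hX.sv (x := fun c : Fin q => xs c) hw (lab P i j) (S.lt i j hij hj)

theorem X6_ok (b : ℕ) : XOK w6 b (X6 b) where
  lt c h := by
    interval_cases c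
    · show 1 = 2 ^ (b * 0); simp
    · exact shl (b * 2)
    · exact shl (b * 11)
    · exact shl (b * 26)
    · exact shl (b * 42)
    · exact shl (b * 45)
  ge c h := lget_zero (by exact h)

theorem X7_ok (b : ℕ) : XOK w7 b (X7 b) where
  lt c h := by
    interval_cases c
    · show 1 = 2 ^ (b * 0); simp
    · exact shl (b * 1)
    · exact shl (b * 7)
    · exact shl (b * 50)
    · exact shl (b * 59)
    · exact shl (b * 78)
    · exact shl (b * 82)
  ge c h := lget_zero (by exact h)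

theorem X8_ok (b : ℕ) : XOK w8 b (X8 b) where
  lt c h := by
    interval_cases c
    · show 1 = 2 ^ (b * 0); simp
    · exact shl (b * 2)
    · exact shl (b * 5)
    · exact shl (b * 34)
    · exact shl (b * 74)
    · exact shl (b * 107)
    · exact shl (b * 120)
    · exact shl (b * 129)
  ge c h := lget_zero (by exact h)

theorem env6_eq (b P : ℕ) : env6 b P = env6b (2 ^ (b * 136) - 1) (2 ^ (b * 136)) (2 ^ (2 * (b * 136) + 4))
    (2 ^ (2 * (b * 136) + 300)) (2 ^ (4 * (b * 136) + 400)) (2 ^ (b - 1)) (maskF b 136) (X6 b)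
    (M6 (lget (X6 b) 0) (lget (X6 b) 1) (lget (X6 b) 2) (lget (X6 b) 3) (lget (X6 b) 4) (lget (X6 b) 5))
    (S6 (2 ^ (b * 136)) (2 ^ (2 * (b * 136) + 4)) (lget (X6 b) 0) (lget (X6 b) 1) (lget (X6 b) 2) (lget (X6 b) 3) (lget (X6 b) 4) (lget (X6 b) 5))
    (sv (X6 b) P 0) (sv (X6 b) P 3) (sv (X6 b) P 6) (sv (X6 b) P 9) (sv (X6 b) P 12) (sv (X6 b) P 15) (sv (X6 b) P 18) (sv (X6 b) P 21) (sv (X6 b) P 24) (sv (X6 b) P 27) (sv (X6 b) P 30) (sv (X6 b) P 33) (sv (X6 b) P 36) (sv (X6 b) P 39) (sv (X6 b) P 42) := by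
  unfold env6 env6a maskF
  simp only [shl]
  rfl

theorem eo_lt6 : ∀ j, j < 6 → ∀ i, i < j → eo i j < 15 := by decide

theorem env7_eq (b P : ℕ) : env7 b P = env7b (2 ^ (b * 247) - 1) (2 ^ (b * 247)) (2 ^ (2 * (b * 247) + 4))
    (2 ^ (2 * (b * 247) + 300)) (2 ^ (4 * (b * 247) + 400)) (2 ^ (b - 1)) (maskF b 247) (X7 b)
    (M7 (lget (X7 b) 0) (lget (X7 b) 1) (lget (X7 b) 2) (lget (X7 b) 3) (lget (X7 b) 4) (lget (X7 b) 5) (lget (X7 b) 6))
    (S7 (2 ^ (b * 247)) (2 ^ (2 * (b * 247) + 4)) (lget (X7 b) 0) (lget (X7 b) 1) (lget (X7 b) 2) (lget (X7 b) 3) (lget (X7 b) 4) (lget (X7 b) 5) (lget (X7 b) 6))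
    (sv (X7 b) P 0) (sv (X7 b) P 3) (sv (X7 b) P 6) (sv (X7 b) P 9) (sv (X7 b) P 12) (sv (X7 b) P 15) (sv (X7 b) P 18) (sv (X7 b) P 21) (sv (X7 b) P 24) (sv (X7 b) P 27) (sv (X7 b) P 30) (sv (X7 b) P 33) (sv (X7 b) P 36) (sv (X7 b) P 39) (sv (X7 b) P 42) (sv (X7 b) P 45) (sv (X7 b) P 48) (sv (X7 b) P 51) (sv (X7 b) P 54) (sv (X7 b) P 57) (sv (X7 b) P 60) := by
  unfold env7 env7a maskF
  simp only [shl]
  rfl

theorem eo_lt7 : ∀ j, j < 7 → ∀ i, i < j → eo i j < 21 := by decide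

theorem env8_eq (b P k : ℕ) : env8 b P k = env8b (2 ^ (b * 388) - 1) (2 ^ (b * 388)) (2 ^ (2 * (b * 388) + 4))
    (2 ^ (2 * (b * 388) + 300)) (2 ^ (4 * (b * 388) + 400)) (2 ^ (b - 1)) (maskF b 388) k (X8 b)
    (M8 (lget (X8 b) 0) (lget (X8 b) 1) (lget (X8 b) 2) (lget (X8 b) 3) (lget (X8 b) 4) (lget (X8 b) 5) (lget (X8 b) 6) (lget (X8 b) 7))
    (Bool.rec (motive := fun _ => List ℕ) (S7 (2 ^ (b * 388)) (2 ^ (2 * (b * 388) + 4)) (lget (X8 b) 0) (lget (X8 b) 1) (lget (X8 b) 2) (lget (X8 b) 3) (lget (X8 b) 4) (lget (X8 b) 5) (lget (X8 b) 6))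
      (S8 (2 ^ (b * 388)) (2 ^ (2 * (b * 388) + 4)) (lget (X8 b) 0) (lget (X8 b) 1) (lget (X8 b) 2) (lget (X8 b) 3) (lget (X8 b) 4) (lget (X8 b) 5) (lget (X8 b) 6) (lget (X8 b) 7)) (Nat.beq k 8))
    (sv (X8 b) P 0) (sv (X8 b) P 3) (sv (X8 b) P 6) (sv (X8 b) P 9) (sv (X8 b) P 12) (sv (X8 b) P 15) (sv (X8 b) P 18) (sv (X8 b) P 21) (sv (X8 b) P 24) (sv (X8 b) P 27) (sv (X8 b) P 30) (sv (X8 b) P 33) (sv (X8 b) P 36) (sv (X8 b) P 39) (sv (X8 b) P 42) (sv (X8 b) P 45) (sv (X8 b) P 48) (sv (X8 b) P 51) (sv (X8 b) P 54) (sv (X8 b) P 57) (sv (X8 b) P 60) (sv (X8 b) P 63) (sv (X8 b) P 66) (sv (X8 b) P 69) (sv (X8 b) P 72) (sv (X8 b) P 75) (sv (X8 b) P 78) (sv (X8 b) P 81) := by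
  unfold env8 env8a maskF
  simp only [shl]
  rfl

theorem eo_lt8 : ∀ j, j < 8 → ∀ i, i < j → eo i j < 28 := by decide

theorem env9_eq (b P k : ℕ) : env9 b P k = env9b (2 ^ (b * 388) - 1) (2 ^ (b * 388)) (2 ^ (2 * (b * 388) + 4))
    (2 ^ (2 * (b * 388) + 300)) (2 ^ (4 * (b * 388) + 400)) (2 ^ (b - 1)) (maskF b 388) k (X8 b)
    (M8 (lget (X8 b) 0) (lget (X8 b) 1) (lget (X8 b) 2) (lget (X8 b) 3) (lget (X8 b) 4) (lget (X8 b) 5) (lget (X8 b) 6) (lget (X8 b) 7))
    (Bool.rec (motive := fun _ => List ℕ) (S7 (2 ^ (b * 388)) (2 ^ (2 * (b * 388) + 4)) (lget (X8 b) 0) (lget (X8 b) 1) (lget (X8 b) 2) (lget (X8 b) 3) (lget (X8 b) 4) (lget (X8 b) 5) (lget (X8 b) 6))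
      (S8 (2 ^ (b * 388)) (2 ^ (2 * (b * 388) + 4)) (lget (X8 b) 0) (lget (X8 b) 1) (lget (X8 b) 2) (lget (X8 b) 3) (lget (X8 b) 4) (lget (X8 b) 5) (lget (X8 b) 6) (lget (X8 b) 7)) (Nat.beq k 8))
    (sv (X8 b) P 0) (sv (X8 b) P 3) (sv (X8 b) P 6) (sv (X8 b) P 9) (sv (X8 b) P 12) (sv (X8 b) P 15) (sv (X8 b) P 18) (sv (X8 b) P 21) (sv (X8 b) P 24) (sv (X8 b) P 27) (sv (X8 b) P 30) (sv (X8 b) P 33) (sv (X8 b) P 36) (sv (X8 b) P 39) (sv (X8 b) P 42) (sv (X8 b) P 45) (sv (X8 b) P 48) (sv (X8 b) P 51) (sv (X8 b) P 54) (sv (X8 b) P 57) (sv (X8 b) P 60) (sv (X8 b) P 63) (sv (X8 b) P 66) (sv (X8 b) P 69) (sv (X8 b) P 72) (sv (X8 b) P 75) (sv (X8 b) P 78) (sv (X8 b) P 81) (sv (X8 b) P 84) (sv (X8 b) P 87) (sv (X8 b) P 90) (sv (X8 b) P 93) (sv (X8 b) P 96) (sv (X8 b) P 99) (sv (X8 b) P 102) (sv (X8 b) P 105) := by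
  unfold env9 env9a maskF
  simp only [shl]
  rfl

theorem eo_lt9 : ∀ j, j < 9 → ∀ i, i < j → eo i j < 36 := by decide

theorem env6_ok {X Y xs : ℕ → ℝ} {P : ℕ} (S : Sit 6 6 6 P X Y xs)
    (b : ℕ) (hb : 1 ≤ b) : EnvOK w6 b 136 (fun c => xs c) (env6 b P) := by
  rw [env6_eq]
  have hX := X6_ok b
  have hx : ∀ c, c < 6 → SV w6 b (b * 136) (fun c : Fin 6 => xs c) (lget (X6 b) c) (xs c) :=
    fun c h => hX.sv (x := fun c : Fin 6 => xs c) w6_le c h
  have he : ∀ i j, i < 6 → j < 6 → SV w6 b (b * 136) (fun c : Fin 6 => xs c)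
      (se [sv (X6 b) P 0, sv (X6 b) P 3, sv (X6 b) P 6, sv (X6 b) P 9, sv (X6 b) P 12, sv (X6 b) P 15, sv (X6 b) P 18, sv (X6 b) P 21, sv (X6 b) P 24, sv (X6 b) P 27, sv (X6 b) P 30, sv (X6 b) P 33, sv (X6 b) P 36, sv (X6 b) P 39, sv (X6 b) P 42] i j)
      (CR.sd X Y i j) :=
    se_ok (f := fun e => sv (X6 b) P (3 * e)) (n := 15) rfl eo_lt6
      (fun i j hij hj => S.edge hX w6_le hij hj)
  have e01 := S.edge hX w6_le (i := 0) (j := 1) (by decide) (by decide)
  have e02 := S.edge hX w6_le (i := 0) (j := 2) (by decide) (by decide)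
  have e12 := S.edge hX w6_le (i := 1) (j := 2) (by decide) (by decide)
  have e03 := S.edge hX w6_le (i := 0) (j := 3) (by decide) (by decide)
  have e13 := S.edge hX w6_le (i := 1) (j := 3) (by decide) (by decide)
  have e23 := S.edge hX w6_le (i := 2) (j := 3) (by decide) (by decide)
  have e04 := S.edge hX w6_le (i := 0) (j := 4) (by decide) (by decide)
  have e14 := S.edge hX w6_le (i := 1) (j := 4) (by decide) (by decide)
  have e24 := S.edge hX w6_le (i := 2) (j := 4) (by decide) (by decide)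
  have e34 := S.edge hX w6_le (i := 3) (j := 4) (by decide) (by decide)
  have e05 := S.edge hX w6_le (i := 0) (j := 5) (by decide) (by decide)
  have e15 := S.edge hX w6_le (i := 1) (j := 5) (by decide) (by decide)
  have e25 := S.edge hX w6_le (i := 2) (j := 5) (by decide) (by decide)
  have e35 := S.edge hX w6_le (i := 3) (j := 5) (by decide) (by decide)
  have e45 := S.edge hX w6_le (i := 4) (j := 5) (by decide) (by decide)
  exact {
    wt := wt6
    hb := hb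
    hx := fun c => S.pos c
    MK := rfl
    Z1 := rfl
    ZB := rfl
    ZC := rfl
    HB := rfl
    MA := rfl
    hq := le_refl _
    hk := le_refl _
    XL := hX.all w6_le
    dist := fun c d hc hd hcd hdk h => by
      have hdk' : d < 6 := hdk
      have := S.inj c d (by omega) hdk' h
      omega
    L0 := G6_ok e01 e02 e12 e03 e13 e23 e04 e14 e24 e34 e05 e15 e25 e35 e45
    L1 := H6_ok S.gp e01 e02 e12 e03 e13 e23 e04 e14 e24 e34 e05 e15 e25 e35 e45
    L2 := S6_ok hx (fun c d hcd hd h => by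
      have := S.inj c d (by omega) hd h
      omega)
    M2 := M6_ok hx
    M1 := hX.m1 w6_le
    D0 := direct0 he
    D1 := direct1 he S.gp
    D2 := direct2 he S.gp }

theorem env7_ok {X Y xs : ℕ → ℝ} {P : ℕ} (S : Sit 7 7 7 P X Y xs)
    (b : ℕ) (hb : 1 ≤ b) : EnvOK w7 b 247 (fun c => xs c) (env7 b P) := by
  rw [env7_eq]
  have hX := X7_ok b
  have hx : ∀ c, c < 7 → SV w7 b (b * 247) (fun c : Fin 7 => xs c) (lget (X7 b) c) (xs c) :=
    fun c h => hX.sv (x := fun c : Fin 7 => xs c) w7_le c h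
  have he : ∀ i j, i < 7 → j < 7 → SV w7 b (b * 247) (fun c : Fin 7 => xs c)
      (se [sv (X7 b) P 0, sv (X7 b) P 3, sv (X7 b) P 6, sv (X7 b) P 9, sv (X7 b) P 12, sv (X7 b) P 15, sv (X7 b) P 18, sv (X7 b) P 21, sv (X7 b) P 24, sv (X7 b) P 27, sv (X7 b) P 30, sv (X7 b) P 33, sv (X7 b) P 36, sv (X7 b) P 39, sv (X7 b) P 42, sv (X7 b) P 45, sv (X7 b) P 48, sv (X7 b) P 51, sv (X7 b) P 54, sv (X7 b) P 57, sv (X7 b) P 60] i j)
      (CR.sd X Y i j) :=
    se_ok (f := fun e => sv (X7 b) P (3 * e)) (n := 21) rfl eo_lt7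
      (fun i j hij hj => S.edge hX w7_le hij hj)
  have e01 := S.edge hX w7_le (i := 0) (j := 1) (by decide) (by decide)
  have e02 := S.edge hX w7_le (i := 0) (j := 2) (by decide) (by decide)
  have e12 := S.edge hX w7_le (i := 1) (j := 2) (by decide) (by decide)
  have e03 := S.edge hX w7_le (i := 0) (j := 3) (by decide) (by decide)
  have e13 := S.edge hX w7_le (i := 1) (j := 3) (by decide) (by decide)
  have e23 := S.edge hX w7_le (i := 2) (j := 3) (by decide) (by decide)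
  have e04 := S.edge hX w7_le (i := 0) (j := 4) (by decide) (by decide)
  have e14 := S.edge hX w7_le (i := 1) (j := 4) (by decide) (by decide)
  have e24 := S.edge hX w7_le (i := 2) (j := 4) (by decide) (by decide)
  have e34 := S.edge hX w7_le (i := 3) (j := 4) (by decide) (by decide)
  have e05 := S.edge hX w7_le (i := 0) (j := 5) (by decide) (by decide)
  have e15 := S.edge hX w7_le (i := 1) (j := 5) (by decide) (by decide)
  have e25 := S.edge hX w7_le (i := 2) (j := 5) (by decide) (by decide)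
  have e35 := S.edge hX w7_le (i := 3) (j := 5) (by decide) (by decide)
  have e45 := S.edge hX w7_le (i := 4) (j := 5) (by decide) (by decide)
  have e06 := S.edge hX w7_le (i := 0) (j := 6) (by decide) (by decide)
  have e16 := S.edge hX w7_le (i := 1) (j := 6) (by decide) (by decide)
  have e26 := S.edge hX w7_le (i := 2) (j := 6) (by decide) (by decide)
  have e36 := S.edge hX w7_le (i := 3) (j := 6) (by decide) (by decide)
  have e46 := S.edge hX w7_le (i := 4) (j := 6) (by decide) (by decide)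
  have e56 := S.edge hX w7_le (i := 5) (j := 6) (by decide) (by decide)
  exact {
    wt := wt7
    hb := hb
    hx := fun c => S.pos c
    MK := rfl
    Z1 := rfl
    ZB := rfl
    ZC := rfl
    HB := rfl
    MA := rfl
    hq := le_refl _
    hk := le_refl _
    XL := hX.all w7_le
    dist := fun c d hc hd hcd hdk h => by
      have hdk' : d < 7 := hdk
      have := S.inj c d (by omega) hdk' h
      omega
    L0 := G7_ok e01 e02 e12 e03 e13 e23 e04 e14 e24 e34 e05 e15 e25 e35 e45 e06 e16 e26 e36 e46 e56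
    L1 := H7_ok S.gp e01 e02 e12 e03 e13 e23 e04 e14 e24 e34 e05 e15 e25 e35 e45 e06 e16 e26 e36 e46 e56
    L2 := S7_ok hx (fun c d hcd hd h => by
      have := S.inj c d (by omega) hd h
      omega)
    M2 := M7_ok hx
    M1 := hX.m1 w7_le
    D0 := direct0 he
    D1 := direct1 he S.gp
    D2 := direct2 he S.gp }

theorem env8_ok {X Y xs : ℕ → ℝ} {P k : ℕ} (S : Sit 8 8 k P X Y xs) (hk7 : 7 ≤ k) (hk8 : k ≤ 8)
    (b : ℕ) (hb : 1 ≤ b) : EnvOK w8 b 388 (fun c => xs c) (env8 b P k) := by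
  rw [env8_eq]
  have hX := X8_ok b
  have hx : ∀ c, c < 8 → SV w8 b (b * 388) (fun c : Fin 8 => xs c) (lget (X8 b) c) (xs c) :=
    fun c h => hX.sv (x := fun c : Fin 8 => xs c) w8_le c h
  have he : ∀ i j, i < 8 → j < 8 → SV w8 b (b * 388) (fun c : Fin 8 => xs c)
      (se [sv (X8 b) P 0, sv (X8 b) P 3, sv (X8 b) P 6, sv (X8 b) P 9, sv (X8 b) P 12, sv (X8 b) P 15, sv (X8 b) P 18, sv (X8 b) P 21, sv (X8 b) P 24, sv (X8 b) P 27, sv (X8 b) P 30, sv (X8 b) P 33, sv (X8 b) P 36, sv (X8 b) P 39, sv (X8 b) P 42, sv (X8 b) P 45, sv (X8 b) P 48, sv (X8 b) P 51, sv (X8 b) P 54, sv (X8 b) P 57, sv (X8 b) P 60, sv (X8 b) P 63, sv (X8 b) P 66, sv (X8 b) P 69, sv (X8 b) P 72, sv (X8 b) P 75, sv (X8 b) P 78, sv (X8 b) P 81] i j)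
      (CR.sd X Y i j) :=
    se_ok (f := fun e => sv (X8 b) P (3 * e)) (n := 28) rfl eo_lt8
      (fun i j hij hj => S.edge hX w8_le hij hj)
  exact {
    wt := wt8
    hb := hb
    hx := fun c => S.pos c
    MK := rfl
    Z1 := rfl
    ZB := rfl
    ZC := rfl
    HB := rfl
    MA := rfl
    hq := le_refl _
    hk := hk8
    XL := hX.all w8_le
    dist := fun c d hc hd hcd hdk h => by
      have hdk' : d < k := hdk
      have := S.inj c d (by omega) hdk' h
      omega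
    L0 := fun a ha => absurd ha List.not_mem_nil
    L1 := fun a ha => absurd ha List.not_mem_nil
    L2 := by
      have hn : ∀ c d, c < d → d < k → xs c ≠ xs d := fun c d hcd hd h => by
        have := S.inj c d (by omega) hd h
        omega
      rcases h3 : Nat.beq k 8 with _ | _
      · exact S7_ok (fun c hc => hx c (by omega)) (fun c d hcd hd => hn c d hcd (by omega))
      · have hk : k = 8 := Nat.eq_of_beq_eq_true h3
        exact S8_ok hx (fun c d hcd hd => hn c d hcd (by omega))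
    M2 := M8_ok hx
    M1 := hX.m1 w8_le
    D0 := direct0 he
    D1 := direct1 he S.gp
    D2 := direct2 he S.gp }

theorem env9_ok {X Y xs : ℕ → ℝ} {P k : ℕ} (S : Sit 9 8 k P X Y xs) (hk7 : 7 ≤ k) (hk8 : k ≤ 8)
    (b : ℕ) (hb : 1 ≤ b) : EnvOK w8 b 388 (fun c => xs c) (env9 b P k) := by
  rw [env9_eq]
  have hX := X8_ok b
  have hx : ∀ c, c < 8 → SV w8 b (b * 388) (fun c : Fin 8 => xs c) (lget (X8 b) c) (xs c) :=
    fun c h => hX.sv (x := fun c : Fin 8 => xs c) w8_le c h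
  have he : ∀ i j, i < 9 → j < 9 → SV w8 b (b * 388) (fun c : Fin 8 => xs c)
      (se [sv (X8 b) P 0, sv (X8 b) P 3, sv (X8 b) P 6, sv (X8 b) P 9, sv (X8 b) P 12, sv (X8 b) P 15, sv (X8 b) P 18, sv (X8 b) P 21, sv (X8 b) P 24, sv (X8 b) P 27, sv (X8 b) P 30, sv (X8 b) P 33, sv (X8 b) P 36, sv (X8 b) P 39, sv (X8 b) P 42, sv (X8 b) P 45, sv (X8 b) P 48, sv (X8 b) P 51, sv (X8 b) P 54, sv (X8 b) P 57, sv (X8 b) P 60, sv (X8 b) P 63, sv (X8 b) P 66, sv (X8 b) P 69, sv (X8 b) P 72, sv (X8 b) P 75, sv (X8 b) P 78, sv (X8 b) P 81, sv (X8 b) P 84, sv (X8 b) P 87, sv (X8 b) P 90, sv (X8 b) P 93, sv (X8 b) P 96, sv (X8 b) P 99, sv (X8 b) P 102, sv (X8 b) P 105] i j)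
      (CR.sd X Y i j) :=
    se_ok (f := fun e => sv (X8 b) P (3 * e)) (n := 36) rfl eo_lt9
      (fun i j hij hj => S.edge hX w8_le hij hj)
  exact {
    wt := wt8
    hb := hb
    hx := fun c => S.pos c
    MK := rfl
    Z1 := rfl
    ZB := rfl
    ZC := rfl
    HB := rfl
    MA := rfl
    hq := le_refl _
    hk := hk8
    XL := hX.all w8_le
    dist := fun c d hc hd hcd hdk h => by
      have hdk' : d < k := hdk
      have := S.inj c d (by omega) hdk' h
      omega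
    L0 := fun a ha => absurd ha List.not_mem_nil
    L1 := fun a ha => absurd ha List.not_mem_nil
    L2 := by
      have hn : ∀ c d, c < d → d < k → xs c ≠ xs d := fun c d hcd hd h => by
        have := S.inj c d (by omega) hd h
        omega
      rcases h3 : Nat.beq k 8 with _ | _
      · exact S7_ok (fun c hc => hx c (by omega)) (fun c d hcd hd => hn c d hcd (by omega))
      · have hk : k = 8 := Nat.eq_of_beq_eq_true h3
        exact S8_ok hx (fun c d hcd hd => hn c d hcd (by omega))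
    M2 := M8_ok hx
    M1 := hX.m1 w8_le
    D0 := direct0 he
    D1 := direct1 he S.gp
    D2 := direct2 he S.gp }

end Ker


theorem no_steps {q : ℕ} {w : Fin q → ℕ} {b F : ℕ} {x : Fin q → ℝ} {e : Ker.Env} (he : Ker.EnvOK w b F x e)
    {C : ℕ} (h : Ker.steps e 16 [] [] 0 C = true) : False :=
  Ker.steps_false he 16 [] [] 0 C (fun a ha => absurd ha List.not_mem_nil)
    (fun a ha => absurd ha List.not_mem_nil) h

/-- **soundness of the certificates for 6 points and 6 labels** -/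
theorem cert6_sound {P C : ℕ} (h : Ker.cert6 P C = true) : ¬ Realk 6 6 P := by
  rintro ⟨X, Y, x, h1, h2, h3, h4⟩
  obtain ⟨h5, h6⟩ := Ker.band_true h
  exact no_steps (Ker.env6_ok ⟨h1, h2, h3, h4, fun i j hij hj =>
    Ker.dig6_true h5 _ (Ker.eo_lt6 j hj i hij)⟩ _ (by
      show 1 ≤ 8 + _
      omega)) h6

/-- **soundness of the certificates for 7 points and 7 labels** -/
theorem cert7_sound {P C : ℕ} (h : Ker.cert7 P C = true) : ¬ Realk 7 7 P := by
  rintro ⟨X, Y, x, h1, h2, h3, h4⟩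
  obtain ⟨h5, h6⟩ := Ker.band_true h
  exact no_steps (Ker.env7_ok ⟨h1, h2, h3, h4, fun i j hij hj =>
    Ker.dig7_true h5 _ (Ker.eo_lt7 j hj i hij)⟩ _ (by
      show 1 ≤ 8 + _
      omega)) h6

/-- **soundness of the certificates for 8 points and eight labels, `k` of them different** -/
theorem cert8_sound {k P C : ℕ} (h : Ker.cert8 k P C = true) : ¬ Realk 8 k P := by
  rintro ⟨X, Y, x, h1, h2, h3, h4⟩
  obtain ⟨h5, h6⟩ := Ker.band_true h
  obtain ⟨h7, h8⟩ := Ker.band_true h5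
  exact no_steps (Ker.env8_ok ⟨h1, h2, h3, h4, fun i j _ _ => lab_lt P i j⟩
    (Nat.le_of_ble_eq_true h7) (Nat.le_of_ble_eq_true h8) _ (by
      show 1 ≤ 8 + _
      omega)) h6

/-- **soundness of the certificates for 9 points and eight labels, `k` of them different** -/
theorem cert9_sound {k P C : ℕ} (h : Ker.cert9 k P C = true) : ¬ Realk 9 k P := by
  rintro ⟨X, Y, x, h1, h2, h3, h4⟩
  obtain ⟨h5, h6⟩ := Ker.band_true h
  obtain ⟨h7, h8⟩ := Ker.band_true h5
  exact no_steps (Ker.env9_ok ⟨h1, h2, h3, h4, fun i j _ _ => lab_lt P i j⟩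
    (Nat.le_of_ble_eq_true h7) (Nat.le_of_ble_eq_true h8) _ (by
      show 1 ≤ 8 + _
      omega)) h6

end CR
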