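import Mathlib

set_option autoImplicit false

/-!
# MP_6f5d36_co : polynomials in the colour values and their values at the Kronecker point

`CR.Inv w b K x d N a v` : there is a homogeneous integer polynomial of degree `d`, the sum of the
absolute values of its coefficients is at most `N`, its value at `x_c = 2 ^ (b w_c)` is congruent to
`a` modulo `2 ^ K`, its value at the real point `x` is `v`.
`CR.Inv.nonneg`, `CR.Inv.zero_of` : the final tests.
-/

namespace CR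

open MvPolynomial

/-- digits of a number which is congruent to a sum with small coefficients -/
theorem digit_eq (b : ℕ) (hb : 1 ≤ b) : ∀ (F : ℕ) (f : ℕ → ℤ) (R : ℕ),
    (∀ j, j < F → |f j| < 2 ^ (b - 1)) → (∀ j, j < F → R / 2 ^ (b * j) % 2 ^ b < 2 ^ (b - 1)) →
    ((R : ℤ) ≡ ∑ j ∈ Finset.range F, f j * 2 ^ (b * j) [ZMOD 2 ^ (b * F)]) →
    ∀ j, j < F → f j = ((R / 2 ^ (b * j) % 2 ^ b : ℕ) : ℤ)
  | 0, _, _, _, _, _, j, hj => absurd hj (by omega)
  | F + 1, f, R, hf, hR, h, j, hj => by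
    have hb2 : (2 : ℤ) ^ b = 2 * 2 ^ (b - 1) := by
      rw [← pow_succ']; congr 1; omega
    have hbn : (2 : ℕ) ^ b = 2 * 2 ^ (b - 1) := by
      rw [← pow_succ']; congr 1; omega
    have hsum : ∑ j ∈ Finset.range (F + 1), f j * 2 ^ (b * j) =
        f 0 + 2 ^ b * ∑ j ∈ Finset.range F, f (j + 1) * 2 ^ (b * j) := by
      rw [Finset.sum_range_succ', Finset.mul_sum, add_comm]
      congr 1
      · simp
      · apply Finset.sum_congr rfl
        intro i _
        rw [show b * (i + 1) = b + b * i by ring, pow_add]; ring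
    rw [hsum] at h
    have hR0 : R % 2 ^ b < 2 ^ (b - 1) := by simpa using hR 0 (by omega)
    have hf0 := hf 0 (by omega)
    have hpow : (2 : ℤ) ^ (b * (F + 1)) = 2 ^ b * 2 ^ (b * F) := by
      rw [← pow_add]; congr 1; ring
    have hdiv : (R : ℤ) = (R % 2 ^ b : ℕ) + 2 ^ b * (R / 2 ^ b : ℕ) := by
      have := Nat.mod_add_div R (2 ^ b)
      exact_mod_cast this.symm
    -- the lowest digit
    have h0 : f 0 = ((R % 2 ^ b : ℕ) : ℤ) := by
      obtain ⟨t, ht⟩ := h.dvd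
      rw [hpow, hdiv] at ht
      have h1 : f 0 - ((R % 2 ^ b : ℕ) : ℤ) = 2 ^ b * (2 ^ (b * F) * t + (R / 2 ^ b : ℕ) -
          ∑ j ∈ Finset.range F, f (j + 1) * 2 ^ (b * j)) := by linear_combination ht
      have h2 : |f 0 - ((R % 2 ^ b : ℕ) : ℤ)| < 2 ^ b := by
        have h3 : ((R % 2 ^ b : ℕ) : ℤ) < 2 ^ (b - 1) := by exact_mod_cast hR0
        have h4 : (0 : ℤ) ≤ ((R % 2 ^ b : ℕ) : ℤ) := by positivity
        rw [abs_lt] at hf0 ⊢
        constructor <;> linarith [hf0.1, hf0.2]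
      have h5 : f 0 - ((R % 2 ^ b : ℕ) : ℤ) = 0 :=
        Int.eq_zero_of_abs_lt_dvd ⟨_, h1⟩ h2
      linarith
    rcases j with _ | j
    · simpa using h0
    · have ih := digit_eq b hb F (fun j => f (j + 1)) (R / 2 ^ b)
        (fun j hj => hf (j + 1) (by omega))
        (fun j hj => by
          have := hR (j + 1) (by omega)
          rwa [show b * (j + 1) = b + b * j by ring, pow_add, ← Nat.div_div_eq_div_mul] at this)
        (by
          apply Int.ModEq.mul_left_cancel' (c := 2 ^ b) (by positivity)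
          rw [← hpow]
          have h6 : (R : ℤ) - f 0 ≡ (f 0 + 2 ^ b * ∑ j ∈ Finset.range F, f (j + 1) * 2 ^ (b * j)) -
              f 0 [ZMOD 2 ^ (b * (F + 1))] := h.sub_right _
          have e1 : (R : ℤ) - f 0 = 2 ^ b * ((R / 2 ^ b : ℕ) : ℤ) := by rw [h0]; linarith
          have e2 : (f 0 + 2 ^ b * ∑ j ∈ Finset.range F, f (j + 1) * 2 ^ (b * j)) - f 0 =
              2 ^ b * ∑ j ∈ Finset.range F, f (j + 1) * 2 ^ (b * j) := by ring
          rwa [e1, e2] at h6)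
        j (by omega)
      rw [ih, show b * (j + 1) = b + b * j by ring, pow_add, ← Nat.div_div_eq_div_mul]

/-- weights which are good in degree three -/
structure Wt {q : ℕ} (w : Fin q → ℕ) (F : ℕ) : Prop where
  inj : ∀ f g : Fin q → ℕ, ∑ i, f i = 3 → ∑ i, g i = 3 →
    ∑ i, w i * f i = ∑ i, w i * g i → f = g
  lt : ∀ f : Fin q → ℕ, ∑ i, f i = 3 → ∑ i, w i * f i < F

section inv

variable {q : ℕ} (w : Fin q → ℕ) (b K : ℕ) (x : Fin q → ℝ)

/-- the Kronecker point -/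
def kp (c : Fin q) : ℤ := 2 ^ (b * w c)

/-- see the header -/
def Inv (d N a : ℕ) (v : ℝ) : Prop :=
  ∃ p Q : MvPolynomial (Fin q) ℤ, p.IsHomogeneous d ∧ (∀ m, |p.coeff m| ≤ Q.coeff m) ∧
    eval (fun _ => (1 : ℤ)) Q ≤ N ∧ (a : ℤ) ≡ eval (kp w b) p [ZMOD 2 ^ K] ∧ aeval x p = v

variable {w b K x}

theorem Inv.var (c : Fin q) : Inv w b K x 1 1 (2 ^ (b * w c)) (x c) := by
  refine ⟨X c, X c, isHomogeneous_X _ _, fun m => ?_, by simp, ?_, by simp⟩
  · rw [coeff_X]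
    split_ifs <;> simp
  · simp [kp, Int.ModEq.refl]

theorem Inv.zero (d N : ℕ) : Inv w b K x d N 0 0 :=
  ⟨0, 0, isHomogeneous_zero _ _ _, fun m => by simp, by simp, by simp [Int.ModEq.refl], by simp⟩

theorem Inv.mono {d N N' a : ℕ} {v : ℝ} (h : Inv w b K x d N a v) (hN : N ≤ N') :
    Inv w b K x d N' a v := by
  obtain ⟨p, Q, h1, h2, h3, h4, h5⟩ := h
  exact ⟨p, Q, h1, h2, h3.trans (by exact_mod_cast hN), h4, h5⟩

theorem Inv.add {d N N' a a' : ℕ} {v v' : ℝ} (h : Inv w b K x d N a v)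
    (h' : Inv w b K x d N' a' v') : Inv w b K x d (N + N') (a + a') (v + v') := by
  obtain ⟨p, Q, h1, h2, h3, h4, h5⟩ := h
  obtain ⟨p', Q', h1', h2', h3', h4', h5'⟩ := h'
  refine ⟨p + p', Q + Q', h1.add h1', fun m => ?_, ?_, ?_, by simp [h5, h5']⟩
  · rw [coeff_add, coeff_add]
    exact (abs_add_le _ _).trans (add_le_add (h2 m) (h2' m))
  · rw [map_add]; push_cast; exact add_le_add h3 h3'
  · rw [map_add]; push_cast; exact h4.add h4'

theorem coeff_maj_mul {p Q p' Q' : MvPolynomial (Fin q) ℤ} (h : ∀ m, |p.coeff m| ≤ Q.coeff m)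
    (h' : ∀ m, |p'.coeff m| ≤ Q'.coeff m) (m : Fin q →₀ ℕ) :
    |(p * p').coeff m| ≤ (Q * Q').coeff m := by
  classical
  rw [coeff_mul, coeff_mul]
  refine (Finset.abs_sum_le_sum_abs _ _).trans (Finset.sum_le_sum fun i _ => ?_)
  rw [abs_mul]
  exact mul_le_mul (h _) (h' _) (abs_nonneg _) ((abs_nonneg _).trans (h _))

theorem eval_one_nonneg {Q : MvPolynomial (Fin q) ℤ} (h : ∀ m, 0 ≤ Q.coeff m) :
    0 ≤ eval (fun _ => (1 : ℤ)) Q := by
  rw [eval_eq]
  exact Finset.sum_nonneg fun m _ => by simpa using h m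

theorem coeff_le_eval_one {Q : MvPolynomial (Fin q) ℤ} (h : ∀ m, 0 ≤ Q.coeff m)
    (m : Fin q →₀ ℕ) : Q.coeff m ≤ eval (fun _ => (1 : ℤ)) Q := by
  rw [eval_eq]
  by_cases hm : m ∈ Q.support
  · refine le_trans (by simp) (Finset.single_le_sum (f := fun d => coeff d Q * ∏ i ∈ d.support,
      (1 : ℤ) ^ d i) (fun d _ => by simpa using h d) hm)
  · rw [notMem_support_iff.1 hm]
    exact Finset.sum_nonneg fun m _ => by simpa using h m

theorem Inv.mul {d d' N N' a a' : ℕ} {v v' : ℝ} (h : Inv w b K x d N a v)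
    (h' : Inv w b K x d' N' a' v') : Inv w b K x (d + d') (N * N') (a * a') (v * v') := by
  obtain ⟨p, Q, h1, h2, h3, h4, h5⟩ := h
  obtain ⟨p', Q', h1', h2', h3', h4', h5'⟩ := h'
  have hQ : ∀ m, 0 ≤ Q.coeff m := fun m => (abs_nonneg _).trans (h2 m)
  have hQ' : ∀ m, 0 ≤ Q'.coeff m := fun m => (abs_nonneg _).trans (h2' m)
  refine ⟨p * p', Q * Q', h1.mul h1', coeff_maj_mul h2 h2', ?_, ?_, by simp [h5, h5']⟩
  · rw [map_mul]; push_cast
    exact mul_le_mul h3 h3' (eval_one_nonneg hQ') (by positivity)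
  · rw [map_mul]; push_cast; exact h4.mul h4'

/-- multiples -/
theorem Inv.smul {d N a : ℕ} {v : ℝ} (c : ℕ) (h : Inv w b K x d N a v) :
    Inv w b K x d (c * N) (c * a) (c * v) := by
  obtain ⟨p, Q, h1, h2, h3, h4, h5⟩ := h
  refine ⟨C (c : ℤ) * p, C (c : ℤ) * Q, ?_, fun m => ?_, ?_, ?_, by simp [h5]⟩
  · simpa using (isHomogeneous_C (Fin q) (c : ℤ)).mul h1
  · rw [coeff_C_mul, coeff_C_mul, abs_mul, Nat.abs_cast]
    exact mul_le_mul_of_nonneg_left (h2 m) (by positivity)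
  · rw [map_mul, eval_C]; push_cast; exact mul_le_mul_of_nonneg_left h3 (by positivity)
  · rw [map_mul, eval_C]; push_cast; exact h4.mul_left _

theorem Inv.neg {d N a Z : ℕ} {v : ℝ} (h : Inv w b K x d N a v) (ha : a ≤ Z) (hZ : 2 ^ K ∣ Z) :
    Inv w b K x d N (Z - a) (-v) := by
  obtain ⟨p, Q, h1, h2, h3, h4, h5⟩ := h
  refine ⟨-p, Q, h1.neg, fun m => by rw [coeff_neg, abs_neg]; exact h2 m, h3, ?_, by simp [h5]⟩
  rw [map_neg, Nat.cast_sub ha]
  have h6 : ((Z : ℕ) : ℤ) ≡ 0 [ZMOD 2 ^ K] :=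
    (Int.modEq_zero_iff_dvd).2 (by exact_mod_cast hZ)
  simpa using h6.sub h4

theorem Inv.land {d N a : ℕ} {v : ℝ} (h : Inv w b K x d N a v) :
    Inv w b K x d N (Nat.land a (2 ^ K - 1)) v := by
  obtain ⟨p, Q, h1, h2, h3, h4, h5⟩ := h
  refine ⟨p, Q, h1, h2, h3, ?_, h5⟩
  have h6 : Nat.land a (2 ^ K - 1) = a % 2 ^ K := Nat.and_two_pow_sub_one_eq_mod a K
  rw [h6]
  refine Int.ModEq.trans ?_ h4
  push_cast
  exact Int.mod_modEq _ _

/-- the value at the Kronecker point -/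
theorem eval_kp (p : MvPolynomial (Fin q) ℤ) :
    eval (kp w b) p = ∑ m ∈ p.support, p.coeff m * 2 ^ (b * ∑ i, w i * m i) := by
  rw [eval_eq']
  apply Finset.sum_congr rfl
  intro m _
  congr 1
  rw [Finset.mul_sum, ← Finset.prod_pow_eq_pow_sum]
  apply Finset.prod_congr rfl
  intro i _
  unfold kp
  rw [← pow_mul]; congr 1; ring

/-- the coefficients are the digits -/
theorem coeff_eq_digit {F : ℕ} (hw : Wt w F) (hb : 1 ≤ b) {p : MvPolynomial (Fin q) ℤ} {R : ℕ}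
    (hp : p.IsHomogeneous 3) (hc : ∀ m, |p.coeff m| < 2 ^ (b - 1))
    (hR : ∀ j, j < F → R / 2 ^ (b * j) % 2 ^ b < 2 ^ (b - 1))
    (h : (R : ℤ) ≡ eval (kp w b) p [ZMOD 2 ^ (b * F)]) :
    (∀ m ∈ p.support, p.coeff m = ((R / 2 ^ (b * ∑ i, w i * m i) % 2 ^ b : ℕ) : ℤ)) ∧
    (∀ j, j < F → R / 2 ^ (b * j) % 2 ^ b ≠ 0 → ∃ m ∈ p.support, ∑ i, w i * m i = j) := by
  classical
  have hdeg : ∀ m ∈ p.support, ∑ i, m i = 3 := by
    intro m hm
    have h1 := hp (mem_support_iff.1 hm)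
    rw [← h1, Finsupp.weight_apply, Finsupp.sum_fintype _ _ (by simp)]
    simp
  set f : ℕ → ℤ := fun j => ∑ m ∈ p.support.filter (fun m => ∑ i, w i * m i = j), p.coeff m
    with hfdef
  have hlt : ∀ m ∈ p.support, ∑ i, w i * m i ∈ Finset.range F := fun m hm =>
    Finset.mem_range.2 (hw.lt m (hdeg m hm))
  have huniq : ∀ m ∈ p.support, f (∑ i, w i * m i) = p.coeff m := by
    intro m hm
    have h1 : p.support.filter (fun m' => ∑ i, w i * m' i = ∑ i, w i * m i) = {m} := by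
      ext m'
      simp only [Finset.mem_filter, Finset.mem_singleton]
      constructor
      · rintro ⟨h2, h3⟩
        have h4 := hw.inj (⇑m') (⇑m) (hdeg m' h2) (hdeg m hm) h3
        exact DFunLike.coe_injective h4
      · rintro rfl
        exact ⟨hm, rfl⟩
    simp only [hfdef]
    rw [h1, Finset.sum_singleton]
  have hfj : ∀ j, f j = 0 ∨ ∃ m ∈ p.support, ∑ i, w i * m i = j ∧ f j = p.coeff m := by
    intro j
    by_cases hj : ∃ m ∈ p.support, ∑ i, w i * m i = j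
    · obtain ⟨m, hm, hmj⟩ := hj
      exact Or.inr ⟨m, hm, hmj, by rw [← hmj]; exact huniq m hm⟩
    · left
      simp only [hfdef]
      apply Finset.sum_eq_zero
      intro m hm
      rw [Finset.mem_filter] at hm
      exact absurd ⟨m, hm.1, hm.2⟩ hj
  have hsum : eval (kp w b) p = ∑ j ∈ Finset.range F, f j * 2 ^ (b * j) := by
    rw [eval_kp, ← Finset.sum_fiberwise_of_maps_to hlt]
    apply Finset.sum_congr rfl
    intro j _
    simp only [hfdef]
    rw [Finset.sum_mul]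
    apply Finset.sum_congr rfl
    intro m hm
    rw [(Finset.mem_filter.1 hm).2]
  rw [hsum] at h
  have hmain := digit_eq b hb F f R (fun j _ => by
    rcases hfj j with h0 | ⟨m, _, _, h0⟩
    · rw [h0]; simp
    · rw [h0]; exact hc m) hR h
  refine ⟨fun m hm => ?_, fun j hj hne => ?_⟩
  · rw [← huniq m hm]
    exact hmain _ (Finset.mem_range.1 (hlt m hm))
  · rcases hfj j with h0 | ⟨m, hm, hmj, _⟩
    · have := hmain j hj
      rw [h0] at this
      exact absurd (by exact_mod_cast this.symm) hne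
    · exact ⟨m, hm, hmj⟩

theorem Inv.lt {d N a : ℕ} {v : ℝ} (h : Inv w b K x d N a v) (hN : N < 2 ^ (b - 1)) :
    ∃ p : MvPolynomial (Fin q) ℤ, p.IsHomogeneous d ∧ (∀ m, |p.coeff m| < 2 ^ (b - 1)) ∧
      (a : ℤ) ≡ eval (kp w b) p [ZMOD 2 ^ K] ∧ aeval x p = v := by
  obtain ⟨p, Q, h1, h2, h3, h4, h5⟩ := h
  have hQ : ∀ m, 0 ≤ Q.coeff m := fun m => (abs_nonneg _).trans (h2 m)
  refine ⟨p, h1, fun m => ?_, h4, h5⟩
  exact ((h2 m).trans ((coeff_le_eval_one hQ m).trans h3)).trans_lt (by exact_mod_cast hN)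

/-- **final test**: all digits are small -/
theorem Inv.nonneg {F N a : ℕ} {v : ℝ} (hw : Wt w F) (hb : 1 ≤ b)
    (h : Inv w b (b * F) x 3 N a v) (hN : N < 2 ^ (b - 1))
    (hR : ∀ j, j < F → a / 2 ^ (b * j) % 2 ^ b < 2 ^ (b - 1)) (hx : ∀ c, 0 < x c) :
    0 ≤ v ∧ ((∃ j, j < F ∧ a / 2 ^ (b * j) % 2 ^ b ≠ 0) → 0 < v) := by
  obtain ⟨p, hp, hc, hcong, hv⟩ := h.lt hN
  obtain ⟨h1, h2⟩ := coeff_eq_digit hw hb hp hc hR hcong
  have hval : v = ∑ m ∈ p.support, ((p.coeff m : ℤ) : ℝ) * ∏ i, x i ^ m i := by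
    rw [← hv, aeval_def, eval₂_eq']
    simp
  have hnn : ∀ m ∈ p.support, (0 : ℝ) ≤ ((p.coeff m : ℤ) : ℝ) * ∏ i, x i ^ m i := by
    intro m hm
    have h3 : (0 : ℤ) ≤ p.coeff m := by rw [h1 m hm]; positivity
    have h4 : (0 : ℝ) ≤ ((p.coeff m : ℤ) : ℝ) := by exact_mod_cast h3
    exact mul_nonneg h4 (Finset.prod_nonneg fun i _ => (pow_pos (hx i) _).le)
  refine ⟨by rw [hval]; exact Finset.sum_nonneg hnn, ?_⟩
  rintro ⟨j, hj, hne⟩
  obtain ⟨m, hm, _⟩ := h2 j hj hne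
  rw [hval]
  refine Finset.sum_pos' hnn ⟨m, hm, ?_⟩
  have h3 : (0 : ℤ) ≤ p.coeff m := by rw [h1 m hm]; positivity
  have h4 : p.coeff m ≠ 0 := mem_support_iff.1 hm
  have h5 : (0 : ℝ) < ((p.coeff m : ℤ) : ℝ) := by exact_mod_cast lt_of_le_of_ne h3 (Ne.symm h4)
  exact mul_pos h5 (Finset.prod_pos fun i _ => pow_pos (hx i) _)

/-- **zero test** -/
theorem Inv.zero_of {F N a : ℕ} {v : ℝ} (hw : Wt w F) (hb : 1 ≤ b)
    (h : Inv w b (b * F) x 3 N a v) (hN : N < 2 ^ (b - 1)) (ha : a = 0) : v = 0 := by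
  subst ha
  obtain ⟨p, hp, hc, hcong, hv⟩ := h.lt hN
  have hpos : 0 < 2 ^ (b - 1) := by positivity
  obtain ⟨h1, -⟩ := coeff_eq_digit (R := 0) hw hb hp hc (fun j _ => by simp) hcong
  have hz : p = 0 := by
    by_contra hne
    obtain ⟨m, hm⟩ := support_nonempty.2 hne
    have := h1 m hm
    simp only [Nat.zero_div, Nat.zero_mod, Nat.cast_zero] at this
    exact mem_support_iff.1 hm this
  rw [← hv, hz, map_zero]

end inv

end CR
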