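import Pool.Agent.Lib.MP_6f5d36_co.Ker
import Pool.Agent.Lib.MP_6f5d36_co.Kron
import Pool.Agent.Lib.MP_6f5d36_co.OccReal

set_option autoImplicit false

/-!
# MP_6f5d36_co : soundness of the loops of the kernel checker
-/

namespace CR
namespace Ker

open Finset

theorem band_true {a b : Bool} (h : band a b = true) : a = true ∧ b = true := by
  cases a <;> cases b <;> simp_all [band]

theorem bor_true {a b : Bool} (h : bor a b = true) : a = true ∨ b = true := by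
  cases a <;> cases b <;> simp_all [bor]

theorem lt'_true {m i : ℕ} (h : lt' m i = true) : i < m := Nat.le_of_ble_eq_true h

theorem ble_true {m i : ℕ} (h : Nat.ble i m = true) : i ≤ m := Nat.le_of_ble_eq_true h

theorem beq_true {m i : ℕ} (h : Nat.beq i m = true) : i = m := Nat.eq_of_beq_eq_true h

theorem land_mask (a k : ℕ) : Nat.land a (Nat.sub (Nat.shiftLeft 1 k) 1) = a % 2 ^ k := by
  have h : Nat.sub (Nat.shiftLeft 1 k) 1 = 2 ^ k - 1 := by
    show (1 <<< k) - 1 = 2 ^ k - 1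
    rw [Nat.shiftLeft_eq, one_mul]
  rw [h]
  exact Nat.and_two_pow_sub_one_eq_mod a k

theorem dropk_true : ∀ (G : List ℕ) (g : ℕ) (f : ℕ → List ℕ → Bool), dropk G g f = true →
    ∃ h T, h ∈ G ∧ (∀ a ∈ T, a ∈ G) ∧ f h T = true
  | [], g, f, H => absurd H (by simp [dropk])
  | h :: t, 0, f, H => ⟨h, t, by simp, fun a ha => by simp [ha], H⟩
  | h :: t, g + 1, f, H => by
    obtain ⟨h', T, h1, h2, h3⟩ := dropk_true t g f H
    exact ⟨h', T, by simp [h1], fun a ha => by simp [h2 a ha], h3⟩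

section

variable {q : ℕ} {w : Fin q → ℕ} {b K : ℕ} {x : Fin q → ℝ}

/-- a term of a loop -/
theorem tm_inv {d N h mag sg W : ℕ} {u : ℝ} (hu : Inv w b K x d N h u) (hh : h ≤ 2 ^ (2 * K + 8))
    (hmag : mag ≤ W) (hW : W ≤ 2 ^ 256) :
    ∃ u', Inv w b K x d (W * N) (tm (2 ^ (2 * K + 300)) mag h sg) u' ∧
      ((sg = 0 ∧ u' = mag * u) ∨ (sg ≠ 0 ∧ u' = -(mag * u))) ∧
      tm (2 ^ (2 * K + 300)) mag h sg ≤ 2 ^ (2 * K + 300) := by
  have h1 : mag * h ≤ 2 ^ (2 * K + 300) := by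
    calc mag * h ≤ 2 ^ 256 * 2 ^ (2 * K + 8) := Nat.mul_le_mul (hmag.trans hW) hh
      _ = 2 ^ (2 * K + 264) := by rw [← pow_add]; congr 1; ring
      _ ≤ 2 ^ (2 * K + 300) := Nat.pow_le_pow_right (by norm_num) (by omega)
  have h2 : Inv w b K x d (W * N) (mag * h) (mag * u) :=
    (hu.smul mag).mono (Nat.mul_le_mul_right _ hmag)
  rcases sg with _ | sg
  · exact ⟨mag * u, h2, Or.inl ⟨rfl, rfl⟩, h1⟩
  · refine ⟨-(mag * u), h2.neg h1 ?_, Or.inr ⟨by omega, rfl⟩, Nat.sub_le _ _⟩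
    exact Nat.pow_dvd_pow 2 (by omega)

/-- the values of the elements of a list and the signed sums -/
structure Mode (sb : ℕ) (U : ℝ → Prop) (R : ℕ → ℝ → Prop) : Prop where
  zero : R 0 0
  plus : ∀ n v u (m : ℕ), 1 ≤ m → R n v → U u → R (n + 1) (v + m * u)
  minus : sb ≠ 0 → ∀ n v u (m : ℕ), 1 ≤ m → R n v → U u → R (n + 1) (v + -(m * u))

theorem mode_zero : Mode 1 (fun u => u = 0) (fun _ v => v = 0) where
  zero := rfl
  plus n v u m _ h1 h2 := by simp [h1, h2]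
  minus _ n v u m _ h1 h2 := by simp [h1, h2]

theorem mode_any : Mode 1 (fun _ => True) (fun _ _ => True) where
  zero := trivial
  plus _ _ _ _ _ _ _ := trivial
  minus _ _ _ _ _ _ _ _ := trivial

/-- sums of negative numbers -/
def Neg (n : ℕ) (v : ℝ) : Prop := v ≤ 0 ∧ (n = 0 → v = 0) ∧ (1 ≤ n → v < 0)

theorem mode_neg : Mode 0 (fun u => u < 0) Neg where
  zero := ⟨le_refl _, fun _ => rfl, fun h => absurd h (by norm_num)⟩
  plus n v u m hm h1 h2 := by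
    have h3 : (m : ℝ) * u < 0 := mul_neg_of_pos_of_neg (by exact_mod_cast hm) h2
    exact ⟨by linarith [h1.1], fun h => absurd h (by omega), fun _ => by linarith [h1.1]⟩
  minus h := absurd rfl h

/-- `n` terms of a list -/
theorem loop_true {d N gw ww sb : ℕ} {U : ℝ → Prop} {R : ℕ → ℝ → Prop} (hM : Mode sb U R)
    (hsb : sb = 0 ∨ sb = 1) (hww : ww ≤ 255) (k : ℕ → ℕ → Bool) :
    ∀ (n : ℕ) (G : List ℕ) (C acc N0 n0 : ℕ) (v : ℝ),
    (∀ a ∈ G, ∃ u, U u ∧ Inv w b K x d N a u ∧ a ≤ 2 ^ (2 * K + 8)) →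
    Inv w b K x d N0 acc v → R n0 v →
    loop (2 ^ (2 * K + 300)) sb gw (Nat.succ gw) (Nat.sub (Nat.shiftLeft 1 gw) 1)
      (Nat.add (Nat.succ gw) ww) (Nat.sub (Nat.shiftLeft 1 (Nat.add (Nat.succ gw) ww)) 1)
      k n G C acc = true →
    ∃ acc' C' v', k acc' C' = true ∧ Inv w b K x d (N0 + n * (2 ^ ww * N)) acc' v' ∧
      R (n0 + n) v' ∧ acc' ≤ acc + n * 2 ^ (2 * K + 300)
  | 0, G, C, acc, N0, n0, v, _, hI, hR, H => ⟨acc, C, v, H, by simpa using hI, hR, by omega⟩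
  | n + 1, G, C, acc, N0, n0, v, hG, hI, hR, H => by
    set t := Nat.land C (Nat.sub (Nat.shiftLeft 1 (Nat.add (Nat.succ gw) ww)) 1) with ht
    have H2 : dropk G (Nat.land t (Nat.sub (Nat.shiftLeft 1 gw) 1)) (fun h T =>
        loop (2 ^ (2 * K + 300)) sb gw (Nat.succ gw) (Nat.sub (Nat.shiftLeft 1 gw) 1)
          (Nat.add (Nat.succ gw) ww) (Nat.sub (Nat.shiftLeft 1 (Nat.add (Nat.succ gw) ww)) 1)
          k n T (Nat.shiftRight C (Nat.add (Nat.succ gw) ww))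
          (Nat.add acc (tm (2 ^ (2 * K + 300)) (Nat.succ (Nat.shiftRight t (Nat.succ gw))) h
            (Nat.land (Nat.shiftRight t gw) sb)))) = true := H
    obtain ⟨h, T, h1, h2, h3⟩ := dropk_true _ _ _ H2
    obtain ⟨u, hu1, hu2, hu3⟩ := hG h h1
    have htlt : t < 2 ^ (gw + 1 + ww) := by
      rw [ht, land_mask]
      exact Nat.mod_lt _ (by positivity)
    have hmag : Nat.succ (Nat.shiftRight t (Nat.succ gw)) ≤ 2 ^ ww := by
      have h4 : Nat.shiftRight t (Nat.succ gw) = t / 2 ^ (gw + 1) := Nat.shiftRight_eq_div_pow _ _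
      rw [h4]
      apply Nat.succ_le_of_lt
      apply Nat.div_lt_of_lt_mul
      rwa [← pow_add]
    have hW : 2 ^ ww ≤ 2 ^ 256 := Nat.pow_le_pow_right (by norm_num) (by omega)
    obtain ⟨u', hv1, hv2, hv3⟩ := tm_inv (sg := Nat.land (Nat.shiftRight t gw) sb) hu2 hu3 hmag hW
    have hI2 := hI.add hv1
    have hR2 : R (n0 + 1) (v + u') := by
      rcases hv2 with ⟨_, rfl⟩ | ⟨hsg, rfl⟩
      · exact hM.plus _ _ _ _ (by omega) hR hu1
      · refine hM.minus ?_ _ _ _ _ (by omega) hR hu1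
        rintro rfl
        apply hsg
        exact Nat.and_zero _
    obtain ⟨acc', C', v', k1, k2, k3, k4⟩ := loop_true hM hsb hww k n T _ _ _ _ _
      (fun a ha => hG a (h2 a ha)) hI2 hR2 h3
    refine ⟨acc', C', v', k1, ?_, ?_, ?_⟩
    · have e : N0 + 2 ^ ww * N + n * (2 ^ ww * N) = N0 + (n + 1) * (2 ^ ww * N) := by ring
      rwa [e] at k2
    · have e : n0 + 1 + n = n0 + (n + 1) := by omega
      rwa [e] at k3
    · have k4' : acc' ≤ acc + tm (2 ^ (2 * K + 300)) (Nat.succ (Nat.shiftRight t (Nat.succ gw))) h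
          (Nat.land (Nat.shiftRight t gw) sb) + n * 2 ^ (2 * K + 300) := k4
      calc acc' ≤ _ := k4'
        _ ≤ acc + 2 ^ (2 * K + 300) + n * 2 ^ (2 * K + 300) := by omega
        _ = acc + (n + 1) * 2 ^ (2 * K + 300) := by ring

theorem loopw_true {d N gw ww sb : ℕ} {U : ℝ → Prop} {R : ℕ → ℝ → Prop} (hM : Mode sb U R)
    (hsb : sb = 0 ∨ sb = 1) (hww : ww ≤ 255) (k : ℕ → ℕ → Bool) (n : ℕ) (G : List ℕ) (C : ℕ)
    (hG : ∀ a ∈ G, ∃ u, U u ∧ Inv w b K x d N a u ∧ a ≤ 2 ^ (2 * K + 8))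
    (H : loopw (2 ^ (2 * K + 300)) sb gw ww k n G C = true) :
    ∃ acc' C' v', k acc' C' = true ∧ Inv w b K x d (n * (2 ^ ww * N)) acc' v' ∧
      R n v' ∧ acc' ≤ n * 2 ^ (2 * K + 300) := by
  obtain ⟨acc', C', v', h1, h2, h3, h4⟩ := loop_true hM hsb hww k n G C 0 0 0 0 hG
    (Inv.zero d 0) hM.zero H
  exact ⟨acc', C', v', h1, by simpa using h2, by simpa using h3, by simpa using h4⟩

/-- direct terms -/
def DTrue (w : Fin q → ℕ) (b K : ℕ) (x : Fin q → ℝ) (d N i : ℕ) (R : ℕ → ℝ → Prop)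
    (T : ℕ → ℕ → (ℕ → Bool) → Bool) : Prop :=
  ∀ (acc t ww : ℕ) (k : ℕ → Bool) (N0 n0 : ℕ) (v : ℝ), ww ≤ 255 → t < 2 ^ (i + ww) →
    Inv w b K x d N0 acc v → R n0 v → T acc t k = true →
    ∃ acc' v', k acc' = true ∧ Inv w b K x d (N0 + 2 ^ ww * N) acc' v' ∧ R (n0 + 1) v'

theorem loopd_true {d N i ww : ℕ} {R : ℕ → ℝ → Prop} {T : ℕ → ℕ → (ℕ → Bool) → Bool}
    (hT : DTrue w b K x d N i R T) (hww : ww ≤ 255) (k : ℕ → ℕ → Bool) :
    ∀ (n C acc N0 n0 : ℕ) (v : ℝ), Inv w b K x d N0 acc v → R n0 v →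
    loopd T (Nat.add i ww) (Nat.sub (Nat.shiftLeft 1 (Nat.add i ww)) 1) k n C acc = true →
    ∃ acc' C' v', k acc' C' = true ∧ Inv w b K x d (N0 + n * (2 ^ ww * N)) acc' v' ∧
      R (n0 + n) v'
  | 0, C, acc, N0, n0, v, hI, hR, H => ⟨acc, C, v, H, by simpa using hI, hR⟩
  | n + 1, C, acc, N0, n0, v, hI, hR, H => by
    have H2 : T acc (Nat.land C (Nat.sub (Nat.shiftLeft 1 (Nat.add i ww)) 1))
      (fun acc' => loopd T (Nat.add i ww) (Nat.sub (Nat.shiftLeft 1 (Nat.add i ww)) 1) k n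
        (Nat.shiftRight C (Nat.add i ww)) acc') = true := H
    have htlt : Nat.land C (Nat.sub (Nat.shiftLeft 1 (Nat.add i ww)) 1) < 2 ^ (i + ww) := by
      rw [land_mask]
      exact Nat.mod_lt _ (by positivity)
    obtain ⟨acc', v', h1, h2, h3⟩ := hT _ _ _ _ _ _ _ hww htlt hI hR H2
    obtain ⟨acc'', C'', v'', k1, k2, k3⟩ := loopd_true hT hww k n _ _ _ _ _ h2 h3 h1
    refine ⟨acc'', C'', v'', k1, ?_, ?_⟩
    · have e : N0 + 2 ^ ww * N + n * (2 ^ ww * N) = N0 + (n + 1) * (2 ^ ww * N) := by ring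
      rwa [e] at k2
    · have e : n0 + 1 + n = n0 + (n + 1) := by omega
      rwa [e] at k3

/-- what is known about the running total -/
def Tot (w : Fin q → ℕ) (b K : ℕ) (x : Fin q → ℝ) (tot bd pos : ℕ) : Prop :=
  ∃ v, Inv w b K x 3 bd tot v ∧ Neg pos v

theorem hw_le {C : ℕ} (h : ℕ) (hh : h = Nat.land C 536870911) : hw h ≤ 255 := by
  subst hh
  have h1 : Nat.land C 536870911 < 2 ^ 29 := by
    have : Nat.land C 536870911 = C % 2 ^ 29 := Nat.and_two_pow_sub_one_eq_mod C 29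
    rw [this]; exact Nat.mod_lt _ (by norm_num)
  have h2 : hw (Nat.land C 536870911) = Nat.land C 536870911 / 2 ^ 21 :=
    Nat.shiftRight_eq_div_pow _ _
  rw [h2]
  omega

theorem Neg.add {n m : ℕ} {u v : ℝ} (h1 : Neg n u) (h2 : Neg m v) : Neg (n + m) (u + v) := by
  refine ⟨by linarith [h1.1, h2.1], fun h => ?_, fun h => ?_⟩
  · rw [h1.2.1 (by omega), h2.2.1 (by omega), add_zero]
  · rcases Nat.eq_zero_or_pos n with h3 | h3
    · linarith [h1.1, h2.2.2 (by omega)]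
    · linarith [h1.2.2 h3, h2.1]

theorem Neg.mul {n : ℕ} {u c : ℝ} (h1 : Neg n u) (hc : 0 < c) : Neg n (u * c) :=
  ⟨mul_nonpos_of_nonpos_of_nonneg h1.1 hc.le, fun h => by rw [h1.2.1 h, zero_mul],
    fun h => mul_neg_of_neg_of_pos (h1.2.2 h) hc⟩

/-- a section of zero forms -/
theorem secL_zero {d d' N h f V C tot bd pos : ℕ} {c : ℝ} {L : List ℕ}
    {k : ℕ → ℕ → ℕ → ℕ → Bool} (hww : hw h ≤ 255)
    (hL : ∀ a ∈ L, Inv w b K x d N a 0 ∧ a ≤ 2 ^ (2 * K + 8)) (hN : N ≤ f)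
    (hV : Inv w b K x d' 1 V c) (hd : d + d' = 3) (hT : Tot w b K x tot bd pos)
    (H : secL (2 ^ (2 * K + 300)) k tot C bd pos h 1 f 0 V L = true) :
    ∃ tot' C' bd' pos', k tot' C' bd' pos' = true ∧ Tot w b K x tot' bd' pos' := by
  obtain ⟨acc, C', v', h1, h2, h3, -⟩ := loopw_true mode_zero (Or.inr rfl) hww _ _ _ _
    (fun a ha => ⟨0, rfl, hL a ha⟩) H
  refine ⟨_, _, _, _, h1, ?_⟩
  obtain ⟨v, hv1, hv2⟩ := hT
  have h4 := (hv1.add (by have := h2.mul hV; rwa [hd] at this))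
  refine ⟨_, h4.mono ?_, ?_⟩
  · show bd + hn h * (2 ^ hw h * N) * 1 ≤ bd + f * (hn h <<< hw h)
    rw [Nat.shiftLeft_eq, mul_one]
    calc bd + hn h * (2 ^ hw h * N) ≤ bd + hn h * (2 ^ hw h * f) := by gcongr
      _ = bd + f * (hn h * 2 ^ hw h) := by ring
  · have e : Nat.add pos (Nat.mul 0 (hn h)) = pos := by
      show pos + 0 * hn h = pos
      simp
    rw [e]
    have h3' : v' = 0 := h3
    rw [h3', zero_mul, add_zero]
    exact hv2

/-- a section of negative forms -/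
theorem secL_neg {d d' N h f V C tot bd pos : ℕ} {c : ℝ} {L : List ℕ}
    {k : ℕ → ℕ → ℕ → ℕ → Bool} (hww : hw h ≤ 255)
    (hL : ∀ a ∈ L, ∃ u, u < 0 ∧ Inv w b K x d N a u ∧ a ≤ 2 ^ (2 * K + 8)) (hN : N ≤ f)
    (hV : Inv w b K x d' 1 V c) (hc : 0 < c) (hd : d + d' = 3) (hT : Tot w b K x tot bd pos)
    (H : secL (2 ^ (2 * K + 300)) k tot C bd pos h 0 f 1 V L = true) :
    ∃ tot' C' bd' pos', k tot' C' bd' pos' = true ∧ Tot w b K x tot' bd' pos' := by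
  obtain ⟨acc, C', v', h1, h2, h3, -⟩ := loopw_true mode_neg (Or.inl rfl) hww _ _ _ _ hL H
  refine ⟨_, _, _, _, h1, ?_⟩
  obtain ⟨v, hv1, hv2⟩ := hT
  have h4 := (hv1.add (by have := h2.mul hV; rwa [hd] at this))
  refine ⟨_, h4.mono ?_, ?_⟩
  · show bd + hn h * (2 ^ hw h * N) * 1 ≤ bd + f * (hn h <<< hw h)
    rw [Nat.shiftLeft_eq, mul_one]
    calc bd + hn h * (2 ^ hw h * N) ≤ bd + hn h * (2 ^ hw h * f) := by gcongr
      _ = bd + f * (hn h * 2 ^ hw h) := by ring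
  · have e : Nat.add pos (Nat.mul 1 (hn h)) = pos + hn h := by
      show pos + 1 * hn h = pos + hn h
      simp
    rw [e]
    exact hv2.add (h3.mul hc)

/-- a section of direct zero forms -/
theorem secD_zero {d d' N i h f V C tot bd pos : ℕ} {c : ℝ}
    {T : ℕ → ℕ → (ℕ → Bool) → Bool} {k : ℕ → ℕ → ℕ → ℕ → Bool} (hww : hw h ≤ 255)
    (hDT : DTrue w b K x d N i (fun _ v => v = 0) T) (hN : N ≤ f)
    (hV : Inv w b K x d' 1 V c) (hd : d + d' = 3) (hT : Tot w b K x tot bd pos)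
    (H : secD T k tot C bd pos h f 0 V i = true) :
    ∃ tot' C' bd' pos', k tot' C' bd' pos' = true ∧ Tot w b K x tot' bd' pos' := by
  obtain ⟨acc, C', v', h1, h2, h3⟩ := loopd_true hDT hww _ _ _ _ 0 0 0 (Inv.zero d 0) rfl H
  refine ⟨_, _, _, _, h1, ?_⟩
  obtain ⟨v, hv1, hv2⟩ := hT
  have h4 := (hv1.add (by have := h2.mul hV; rwa [hd] at this))
  refine ⟨_, h4.mono ?_, ?_⟩
  · show bd + (0 + hn h * (2 ^ hw h * N)) * 1 ≤ bd + f * (hn h <<< hw h)
    rw [Nat.shiftLeft_eq, mul_one, zero_add]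
    calc bd + hn h * (2 ^ hw h * N) ≤ bd + hn h * (2 ^ hw h * f) := by gcongr
      _ = bd + f * (hn h * 2 ^ hw h) := by ring
  · have e : Nat.add pos (Nat.mul 0 (hn h)) = pos := by
      show pos + 0 * hn h = pos
      simp
    rw [e]
    have h3' : v' = 0 := h3
    rw [h3', zero_mul, add_zero]
    exact hv2

/-- a section of direct negative forms -/
theorem secD_neg {d d' N i h f V C tot bd pos : ℕ} {c : ℝ}
    {T : ℕ → ℕ → (ℕ → Bool) → Bool} {k : ℕ → ℕ → ℕ → ℕ → Bool} (hww : hw h ≤ 255)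
    (hDT : DTrue w b K x d N i Neg T) (hN : N ≤ f)
    (hV : Inv w b K x d' 1 V c) (hc : 0 < c) (hd : d + d' = 3) (hT : Tot w b K x tot bd pos)
    (H : secD T k tot C bd pos h f 1 V i = true) :
    ∃ tot' C' bd' pos', k tot' C' bd' pos' = true ∧ Tot w b K x tot' bd' pos' := by
  obtain ⟨acc, C', v', h1, h2, h3⟩ := loopd_true hDT hww _ _ _ _ 0 0 0 (Inv.zero d 0)
    mode_neg.zero H
  refine ⟨_, _, _, _, h1, ?_⟩
  obtain ⟨v, hv1, hv2⟩ := hT
  have h4 := (hv1.add (by have := h2.mul hV; rwa [hd] at this))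
  refine ⟨_, h4.mono ?_, ?_⟩
  · show bd + (0 + hn h * (2 ^ hw h * N)) * 1 ≤ bd + f * (hn h <<< hw h)
    rw [Nat.shiftLeft_eq, mul_one, zero_add]
    calc bd + hn h * (2 ^ hw h * N) ≤ bd + hn h * (2 ^ hw h * f) := by gcongr
      _ = bd + f * (hn h * 2 ^ hw h) := by ring
  · have e : Nat.add pos (Nat.mul 1 (hn h)) = pos + hn h := by
      show pos + 1 * hn h = pos + hn h
      simp
    rw [e]
    rw [zero_add] at h3
    exact hv2.add (h3.mul hc)

end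

end Ker
end CR
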