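import Pool.Agent.Lib.MP_6f5d36_co.CertA

set_option autoImplicit false

/-!
# MP_6f5d36_co : soundness of the sections and steps of the kernel checker
-/

namespace CR
namespace Ker

open Finset

/-- the test mask -/
def maskF (b F : ℕ) : ℕ := (2 ^ (b * F) - 1) / (2 ^ b - 1) * 2 ^ (b - 1)

theorem geo_div (b F : ℕ) (hb : 1 ≤ b) :
    (2 ^ (b * F) - 1) / (2 ^ b - 1) = ∑ j ∈ range F, (2 ^ b) ^ j := by
  have h2 : 2 ≤ 2 ^ b := by
    calc 2 = 2 ^ 1 := by norm_num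
      _ ≤ 2 ^ b := Nat.pow_le_pow_right (by norm_num) hb
  rw [pow_mul, Nat.geomSum_eq h2]

theorem maskF_succ (b F : ℕ) (hb : 1 ≤ b) :
    maskF b (F + 1) = 2 ^ (b - 1) + 2 ^ b * maskF b F := by
  unfold maskF
  rw [geo_div b _ hb, geo_div b _ hb, Finset.sum_range_succ', Finset.sum_mul, add_mul,
    Finset.sum_mul, Finset.mul_sum]
  rw [pow_zero, one_mul, add_comm]
  congr 1
  apply Finset.sum_congr rfl
  intro i _
  ring

theorem testBit_maskF (b : ℕ) (hb : 1 ≤ b) : ∀ (F j : ℕ), j < F →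
    Nat.testBit (maskF b F) (b * j + (b - 1)) = true
  | 0, j, h => absurd h (by omega)
  | F + 1, 0, _ => by
    rw [maskF_succ b F hb, mul_zero, zero_add]
    have h1 : (2 : ℕ) ^ b = 2 ^ (b - 1) * 2 := by
      rw [← pow_succ]; congr 1; omega
    have h2 : 2 ^ (b - 1) + 2 ^ b * maskF b F = 2 ^ (b - 1) * (1 + 2 * maskF b F) := by
      rw [h1]; ring
    rw [h2, Nat.testBit_eq_decide_div_mod_eq, Nat.mul_div_cancel_left _ (by positivity)]
    simp
  | F + 1, j + 1, h => by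
    have h1 := testBit_maskF b hb F j (by omega)
    rw [maskF_succ b F hb]
    have h2 : b * (j + 1) + (b - 1) = (b * j + (b - 1)) + b := by ring
    rw [h2, Nat.testBit_add]
    have h3 : (2 ^ (b - 1) + 2 ^ b * maskF b F) / 2 ^ b = maskF b F := by
      rw [Nat.add_mul_div_left _ _ (by positivity),
        Nat.div_eq_of_lt, zero_add]
      exact Nat.pow_lt_pow_right (by norm_num) (by omega)
    rw [h3]
    exact h1

theorem digit_small (b F R : ℕ) (hb : 1 ≤ b) (h : Nat.land R (maskF b F) = 0) (j : ℕ)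
    (hj : j < F) : R / 2 ^ (b * j) % 2 ^ b < 2 ^ (b - 1) := by
  have h1 : Nat.testBit (Nat.land R (maskF b F)) (b * j + (b - 1)) = false := by
    rw [h]; exact Nat.zero_testBit _
  have h1' : Nat.testBit (R &&& maskF b F) (b * j + (b - 1)) = false := h1
  rw [Nat.testBit_and, testBit_maskF b hb F j hj, Bool.and_true] at h1'
  by_contra h2
  push Not at h2
  set d := R / 2 ^ (b * j) % 2 ^ b with hd
  have h3 : d < 2 ^ b := Nat.mod_lt _ (by positivity)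
  have h4 : Nat.testBit d (b - 1) = true := by
    rw [Nat.testBit_eq_decide_div_mod_eq]
    have h5 : (2 : ℕ) ^ b = 2 ^ (b - 1) * 2 := by
      rw [← pow_succ]; congr 1; omega
    have h6 : d / 2 ^ (b - 1) = 1 := by
      apply Nat.div_eq_of_lt_le
      · simpa using h2
      · rw [h5] at h3; omega
    rw [h6]; simp
  rw [hd, Nat.testBit_mod_two_pow, Nat.testBit_div_two_pow] at h4
  rw [add_comm] at h1'
  simp [h1'] at h4

/-- what an environment has to satisfy -/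
structure EnvOK {q : ℕ} (w : Fin q → ℕ) (b F : ℕ) (x : Fin q → ℝ) (e : Env) : Prop where
  wt : Wt w F
  hb : 1 ≤ b
  hx : ∀ c, 0 < x c
  MK : e.MK = 2 ^ (b * F) - 1
  Z1 : e.Z1 = 2 ^ (b * F)
  ZB : e.ZB = 2 ^ (2 * (b * F) + 300)
  ZC : e.ZC = 2 ^ (4 * (b * F) + 400)
  HB : e.HB = 2 ^ (b - 1)
  MA : e.MA = maskF b F
  hq : e.q ≤ q
  hk : e.k ≤ q
  XL : ∀ c, ∃ v, Inv w b (b * F) x 1 1 (lget e.XL c) v ∧ lget e.XL c ≤ 2 ^ (b * F) ∧
    ∀ h : c < q, v = x ⟨c, h⟩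
  dist : ∀ c d (hc : c < q) (hd : d < q), c < d → d < e.k → x ⟨c, hc⟩ ≠ x ⟨d, hd⟩
  L0 : ∀ a ∈ e.L0, Inv w b (b * F) x 3 162 a 0 ∧ a ≤ 2 ^ (2 * (b * F) + 8)
  L1 : ∀ a ∈ e.L1, ∃ u, u < 0 ∧ Inv w b (b * F) x 2 13 a u ∧ a ≤ 2 ^ (2 * (b * F) + 8)
  L2 : ∀ a ∈ e.L2, ∃ u, u < 0 ∧ Inv w b (b * F) x 2 4 a u ∧ a ≤ 2 ^ (2 * (b * F) + 8)
  M2 : ∀ a ∈ e.M2, ∃ u, True ∧ Inv w b (b * F) x 2 1 a u ∧ a ≤ 2 ^ (2 * (b * F) + 8)
  M1 : ∀ a ∈ e.XL, ∃ u, True ∧ Inv w b (b * F) x 1 1 a u ∧ a ≤ 2 ^ (2 * (b * F) + 8)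
  D0 : DTrue w b (b * F) x 3 162 29 (fun _ v => v = 0) (dterm e.MK e.Z1 e.Z2 e.ZB e.m e.E)
  D1 : DTrue w b (b * F) x 2 13 12 Neg (hterm e.Z1 e.Z2 e.m e.E)
  D2 : ∀ t k, t < 2 ^ 12 → hterm e.Z1 e.Z2 e.m e.E 0 t k = true →
    ∃ G u, k G = true ∧ u < 0 ∧ Inv w b (b * F) x 2 13 G u ∧ G ≤ 2 ^ (2 * (b * F) + 8)

section

variable {q : ℕ} {w : Fin q → ℕ} {b F : ℕ} {x : Fin q → ℝ} {e : Env}

theorem Tot.zero (K : ℕ) : Tot w b K x 0 0 0 := ⟨0, Inv.zero 3 0, mode_neg.zero⟩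

/-- the quadratic and linear zero forms -/
def GOK (w : Fin q → ℕ) (b K : ℕ) (x : Fin q → ℝ) (d N : ℕ) (L : List ℕ) : Prop :=
  ∀ a ∈ L, Inv w b K x d N a 0 ∧ a ≤ 2 ^ (2 * K + 8)

theorem GOK.mono {K d N N' : ℕ} {L : List ℕ} (h : GOK w b K x d N L) (hN : N ≤ N') :
    GOK w b K x d N' L := fun a ha => ⟨(h a ha).1.mono hN, (h a ha).2⟩

theorem sect_true (he : EnvOK w b F x e) {gQ gL : List ℕ} {N : ℕ}
    (hQ : GOK w b (b * F) x 2 N gQ) (hL : GOK w b (b * F) x 1 N gL)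
    {k : ℕ → ℕ → ℕ → ℕ → Bool} {tot C bd pos h : ℕ} (hww : hw h ≤ 255)
    (hT : Tot w b (b * F) x tot bd pos) (H : sect e gQ gL N k tot C bd pos h = true) :
    ∃ tot' C' bd' pos', k tot' C' bd' pos' = true ∧ Tot w b (b * F) x tot' bd' pos' := by
  unfold sect at H
  rw [he.ZB] at H
  have hone : Inv w b (b * F) x 0 1 1 1 := by
    refine ⟨1, 1, MvPolynomial.isHomogeneous_one _ _, fun m => ?_, by simp, by simp [Int.ModEq.refl],
      by simp⟩
    rw [MvPolynomial.coeff_one]; split_ifs <;> simp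
  have hV : ∀ c, lt' e.q c = true → ∃ v, Inv w b (b * F) x 1 1 (lget e.XL c) v ∧ 0 < v := by
    intro c hc
    obtain ⟨v, h1, _, h3⟩ := he.XL c
    have h4 := lt'_true hc
    exact ⟨v, h1, by rw [h3 (lt_of_lt_of_le h4 he.hq)]; exact he.hx _⟩
  generalize Nat.land h 7 = kd at H
  rcases kd with _ | _ | _ | _ | _ | _ | kd
  · exact secL_zero hww he.L0 le_rfl hone rfl hT H
  · obtain ⟨H1, H2⟩ := band_true H
    obtain ⟨v, h1, h2⟩ := hV _ H1
    exact secL_neg hww he.L1 le_rfl h1 h2 rfl hT H2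
  · obtain ⟨H1, H2⟩ := band_true H
    obtain ⟨v, h1, h2⟩ := hV _ H1
    exact secL_neg hww he.L2 le_rfl h1 h2 rfl hT H2
  · obtain ⟨v, h1, -, -⟩ := he.XL (ha h)
    exact secL_zero hww hQ le_rfl h1 rfl hT H
  · obtain ⟨v, h1, -, -⟩ := he.XL (ha h)
    obtain ⟨v', h1', -, -⟩ := he.XL (hb h)
    exact secL_zero (d' := 2) hww hL le_rfl (h1.mul h1') rfl hT H
  · have hD0 := he.D0
    rw [he.ZB] at hD0
    exact secD_zero (N := 162) (d := 3) (d' := 0) (i := 29) hww hD0 (Nat.le_refl _) hone rfl hT H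
  · obtain ⟨H1, H2⟩ := band_true H
    obtain ⟨v, h1, h2⟩ := hV _ H1
    exact secD_neg hww he.D1 le_rfl h1 h2 rfl hT H2

theorem secs_true (he : EnvOK w b F x e) {gQ gL : List ℕ} {N : ℕ}
    (hQ : GOK w b (b * F) x 2 N gQ) (hL : GOK w b (b * F) x 1 N gL)
    {k : ℕ → ℕ → ℕ → ℕ → Bool} : ∀ (n tot C bd pos : ℕ),
    Tot w b (b * F) x tot bd pos → secs e gQ gL N k n tot C bd pos = true →
    ∃ tot' C' bd' pos', k tot' C' bd' pos' = true ∧ Tot w b (b * F) x tot' bd' pos'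
  | 0, tot, C, bd, pos, hT, H => ⟨tot, C, bd, pos, H, hT⟩
  | n + 1, tot, C, bd, pos, hT, H => by
    have H' : sect e gQ gL N (secs e gQ gL N k n) tot C bd pos (Nat.land C 536870911) = true := H
    obtain ⟨tot', C', bd', pos', h1, h2⟩ := sect_true he hQ hL (hw_le _ rfl) hT H'
    exact secs_true he hQ hL n tot' C' bd' pos' h2 h1

theorem fin_false (he : EnvOK w b F x e) {tot bd pos : ℕ} (hT : Tot w b (b * F) x tot bd pos)
    (H : fin e tot bd pos = true) : False := by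
  unfold fin at H
  obtain ⟨H1, H2⟩ := band_true H
  obtain ⟨H2, H3⟩ := band_true H2
  obtain ⟨v, hv1, hv2⟩ := hT
  rw [he.HB] at H1
  rw [he.MK] at H2 H3
  rw [he.MA] at H2
  have h1 := hv1.land
  set R := Nat.land tot (2 ^ (b * F) - 1) with hR
  have hRlt : R < 2 ^ (b * F) := by
    rw [hR]
    have : Nat.land tot (2 ^ (b * F) - 1) = tot % 2 ^ (b * F) :=
      Nat.and_two_pow_sub_one_eq_mod _ _
    rw [this]
    exact Nat.mod_lt _ (by positivity)
  have h2 := digit_small b F R he.hb (beq_true H2)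
  obtain ⟨h3, h4⟩ := h1.nonneg he.wt he.hb (lt'_true H1) h2 he.hx
  rcases bor_true H3 with H4 | H4
  · linarith [hv2.2.2 (ble_true H4)]
  · have h5 : R ≠ 0 := by have := ble_true H4; omega
    have h6 : ∃ j, j < F ∧ R / 2 ^ (b * j) % 2 ^ b ≠ 0 := by
      by_contra h7
      push Not at h7
      apply h5
      -- all digits vanish
      have h8 : ∀ j, j ≤ F → R % 2 ^ (b * j) = 0 := by
        intro j
        induction j with
        | zero => intro _; rw [mul_zero, pow_zero, Nat.mod_one]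
        | succ j ih =>
          intro hj
          have h9 := ih (by omega)
          have h10 := h7 j (by omega)
          rw [mul_add, mul_one, pow_add, Nat.mod_mul, h9, h10, mul_zero, zero_add]
      have h11 := h8 F le_rfl
      rwa [Nat.mod_eq_of_lt hRlt] at h11
    linarith [h4 h6, hv2.1]

theorem tw_le {C : ℕ} (h : ℕ) (hh : h = Nat.land C 8589934591) : tw h ≤ 255 := by
  subst hh
  have h1 : Nat.land C 8589934591 < 2 ^ 33 := by
    have : Nat.land C 8589934591 = C % 2 ^ 33 := Nat.and_two_pow_sub_one_eq_mod C 33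
    rw [this]; exact Nat.mod_lt _ (by norm_num)
  have h2 : tw (Nat.land C 8589934591) = Nat.land C 8589934591 / 2 ^ 25 :=
    Nat.shiftRight_eq_div_pow _ _
  rw [h2]
  omega

theorem tn_le (h : ℕ) : tn h ≤ 63 := by
  have : tn h = Nat.shiftRight h 15 % 2 ^ 6 := Nat.and_two_pow_sub_one_eq_mod _ 6
  rw [this]
  omega

/-- a saturation target -/
theorem sat_true (he : EnvOK w b F x e) {d1 d2 : ℕ} (hd : d1 + d2 = 3)
    {k : ℕ → ℕ → ℕ → Bool} {tot C bd h Fv : ℕ} {L : List ℕ} {f : ℝ} (hww : tw h ≤ 255)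
    (hL : ∀ a ∈ L, ∃ u, True ∧ Inv w b (b * F) x d2 1 a u ∧ a ≤ 2 ^ (2 * (b * F) + 8))
    (hF : Inv w b (b * F) x d1 13 Fv f) (hFb : Fv ≤ 2 ^ (2 * (b * F) + 8)) (hf : f ≠ 0)
    (hT : Inv w b (b * F) x 3 bd tot 0) (H : sat e k tot C bd h Fv L = true) :
    ∃ G C' n, k G C' n = true ∧ Inv w b (b * F) x d2 n G 0 ∧ G ≤ 2 ^ (2 * (b * F) + 8) := by
  unfold sat at H
  rw [he.ZB] at H
  obtain ⟨G, C', g, h1, h2, -, h4⟩ := loopw_true mode_any (Or.inr rfl) hww _ _ _ _ hL H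
  obtain ⟨H1, H2⟩ := band_true h1
  obtain ⟨H2, H3⟩ := band_true H2
  rw [he.HB] at H1
  rw [he.ZC, he.MK] at H2
  have e1 : Nat.shiftLeft (tn h) (tw h) = tn h * 2 ^ tw h := Nat.shiftLeft_eq _ _
  have hGn : Inv w b (b * F) x d2 (Nat.shiftLeft (tn h) (tw h)) G g := by
    rw [e1]
    exact h2.mono (by rw [mul_one])
  -- the product
  have hFG : Inv w b (b * F) x 3 (13 * Nat.shiftLeft (tn h) (tw h)) (Fv * G) (f * g) := by
    have := hF.mul hGn
    rwa [hd] at this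
  have hle : Fv * G ≤ 2 ^ (4 * (b * F) + 400) := by
    calc Fv * G ≤ 2 ^ (2 * (b * F) + 8) * (63 * 2 ^ (2 * (b * F) + 300)) :=
          Nat.mul_le_mul hFb (h4.trans (Nat.mul_le_mul_right _ (tn_le h)))
      _ ≤ 2 ^ (2 * (b * F) + 8) * (2 ^ 6 * 2 ^ (2 * (b * F) + 300)) :=
          Nat.mul_le_mul_left _ (Nat.mul_le_mul_right _ (by norm_num : 63 ≤ 2 ^ 6))
      _ = 2 ^ (4 * (b * F) + 314) := by
          have e3 : 2 * (b * F) + 8 + (6 + (2 * (b * F) + 300)) = 4 * (b * F) + 314 := by omega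
          rw [← pow_add, ← pow_add, e3]
      _ ≤ 2 ^ (4 * (b * F) + 400) := Nat.pow_le_pow_right (by norm_num) (by omega)
  have hneg := hFG.neg hle (Nat.pow_dvd_pow 2 (by omega))
  have hsum := hT.add hneg
  have h5 := hsum.land.zero_of he.wt he.hb (lt'_true H1) (beq_true H2)
  have h6 : g = 0 := by
    have : f * g = 0 := by linarith
    exact (mul_eq_zero.1 this).resolve_left hf
  refine ⟨_, _, _, H3, ?_, ?_⟩
  · rw [he.MK]
    rw [h6] at hGn
    exact hGn.land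
  · rw [he.MK]
    have : Nat.land G (2 ^ (b * F) - 1) = G % 2 ^ (b * F) :=
      Nat.and_two_pow_sub_one_eq_mod _ _
    rw [this]
    exact (Nat.mod_lt _ (by positivity)).le.trans (Nat.pow_le_pow_right (by norm_num) (by omega))

theorem inv_mod (he : EnvOK w b F x e) (c : ℕ) : lget e.XL c ≤ 2 ^ (2 * (b * F) + 8) := by
  obtain ⟨v, -, h2, -⟩ := he.XL c
  exact h2.trans (Nat.pow_le_pow_right (by norm_num) (by omega))

theorem tgt_true (he : EnvOK w b F x e) {ih : List ℕ → List ℕ → ℕ → ℕ → Bool}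
    {gQ gL : List ℕ} {N tot C bd pos h : ℕ} (hww : tw h ≤ 255)
    (hQ : GOK w b (b * F) x 2 N gQ) (hL : GOK w b (b * F) x 1 N gL)
    (hT : Tot w b (b * F) x tot bd pos) (H : tgt e ih gQ gL N tot C bd pos h = true) :
    ∃ gQ' gL' N' C', ih gQ' gL' N' C' = true ∧ GOK w b (b * F) x 2 N' gQ' ∧
      GOK w b (b * F) x 1 N' gL' := by
  unfold tgt at H
  generalize Nat.land h 7 = kd at H
  rcases kd with _ | kd
  · exact absurd H (fun H => fin_false he hT H)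
  obtain ⟨H0, H⟩ := band_true H
  have hpos := beq_true H0
  obtain ⟨v, hv1, hv2⟩ := hT
  rw [hv2.2.1 hpos] at hv1
  -- the new lists
  have newQ : ∀ {G n : ℕ}, Inv w b (b * F) x 2 n G 0 → G ≤ 2 ^ (2 * (b * F) + 8) →
      GOK w b (b * F) x 2 (Nat.add N n) (G :: gQ) ∧ GOK w b (b * F) x 1 (Nat.add N n) gL := by
    intro G n h1 h2
    refine ⟨fun a ha => ?_, hL.mono (Nat.le_add_right _ _)⟩
    rcases List.mem_cons.1 ha with rfl | ha
    · exact ⟨h1.mono (Nat.le_add_left _ _), h2⟩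
    · exact ⟨(hQ a ha).1.mono (Nat.le_add_right _ _), (hQ a ha).2⟩
  have newL : ∀ {G n : ℕ}, Inv w b (b * F) x 1 n G 0 → G ≤ 2 ^ (2 * (b * F) + 8) →
      GOK w b (b * F) x 2 (Nat.add N n) gQ ∧ GOK w b (b * F) x 1 (Nat.add N n) (G :: gL) := by
    intro G n h1 h2
    refine ⟨hQ.mono (Nat.le_add_right _ _), fun a ha => ?_⟩
    rcases List.mem_cons.1 ha with rfl | ha
    · exact ⟨h1.mono (Nat.le_add_left _ _), h2⟩
    · exact ⟨(hL a ha).1.mono (Nat.le_add_right _ _), (hL a ha).2⟩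
  rcases kd with _ | _ | _ | kd
  · -- x_a
    obtain ⟨H1, H2⟩ := band_true H
    obtain ⟨u, hu1, hu2, hu3⟩ := he.XL (ha h)
    have hu4 := hu3 (lt_of_lt_of_le (lt'_true H1) he.hq)
    obtain ⟨G, C', n, h1, h2, h3⟩ := sat_true he (d1 := 1) (d2 := 2) rfl hww he.M2
      (hu1.mono (by norm_num)) (inv_mod he _) (by rw [hu4]; exact (he.hx _).ne') hv1 H2
    exact ⟨_, _, _, _, h1, (newQ h2 h3).1, (newQ h2 h3).2⟩
  · -- x_a + x_b
    obtain ⟨H1, H2⟩ := band_true H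
    obtain ⟨H1, H1'⟩ := band_true H1
    obtain ⟨u, hu1, hu2, hu3⟩ := he.XL (ha h)
    obtain ⟨u', hu1', hu2', hu3'⟩ := he.XL (hb h)
    have hu4 := hu3 (lt_of_lt_of_le (lt'_true H1) he.hq)
    have hu4' := hu3' (lt_of_lt_of_le (lt'_true H1') he.hq)
    have hbd : Nat.add (lget e.XL (ha h)) (lget e.XL (hb h)) ≤ 2 ^ (2 * (b * F) + 8) := by
      calc lget e.XL (ha h) + lget e.XL (hb h) ≤ 2 ^ (b * F) + 2 ^ (b * F) := by omega
        _ = 2 ^ (b * F + 1) := by rw [pow_succ]; ring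
        _ ≤ _ := Nat.pow_le_pow_right (by norm_num) (by omega)
    obtain ⟨G, C', n, h1, h2, h3⟩ := sat_true he (d1 := 1) (d2 := 2) rfl hww he.M2
      ((hu1.add hu1').mono (by norm_num)) hbd
      (by rw [hu4, hu4']; exact (add_pos (he.hx _) (he.hx _)).ne') hv1 H2
    exact ⟨_, _, _, _, h1, (newQ h2 h3).1, (newQ h2 h3).2⟩
  · -- x_a - x_b
    obtain ⟨H1, H2⟩ := band_true H
    obtain ⟨H1, H1'⟩ := band_true H1
    obtain ⟨H1', H1''⟩ := band_true H1'
    obtain ⟨u, hu1, hu2, hu3⟩ := he.XL (ha h)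
    obtain ⟨u', hu1', hu2', hu3'⟩ := he.XL (hb h)
    have hu4 := hu3 (lt_of_lt_of_le (lt'_true H1) he.hk)
    have hu4' := hu3' (lt_of_lt_of_le (lt'_true H1') he.hk)
    have hneg := hu1'.neg hu2' (dvd_refl _)
    have hbd : Nat.add (lget e.XL (ha h)) (Nat.sub (2 ^ (b * F)) (lget e.XL (hb h))) ≤
        2 ^ (2 * (b * F) + 8) := by
      calc lget e.XL (ha h) + (2 ^ (b * F) - lget e.XL (hb h)) ≤ 2 ^ (b * F) + 2 ^ (b * F) := by
            omega
        _ = 2 ^ (b * F + 1) := by rw [pow_succ]; ring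
        _ ≤ _ := Nat.pow_le_pow_right (by norm_num) (by omega)
    rw [he.Z1] at H2
    obtain ⟨G, C', n, h1, h2, h3⟩ := sat_true he (d1 := 1) (d2 := 2) rfl hww he.M2
      ((hu1.add hneg).mono (by norm_num)) hbd
      (by
        rw [hu4, hu4']
        intro h0
        exact he.dist _ _ _ _ (lt'_true H1'') (lt'_true H1') (by linarith)) hv1 H2
    exact ⟨_, _, _, _, h1, (newQ h2 h3).1, (newQ h2 h3).2⟩
  · -- Heron
    have ht : Nat.land (Nat.shiftRight h 3) 4095 < 2 ^ 12 := by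
      have : Nat.land (Nat.shiftRight h 3) 4095 = Nat.shiftRight h 3 % 2 ^ 12 :=
        Nat.and_two_pow_sub_one_eq_mod _ 12
      rw [this]; exact Nat.mod_lt _ (by norm_num)
    obtain ⟨Fv, u, h1, h2, h3, h4⟩ := he.D2 _ _ ht H
    obtain ⟨G, C', n, k1, k2, k3⟩ := sat_true he (d1 := 2) (d2 := 1) rfl hww he.M1
      h3 h4 h2.ne hv1 h1
    exact ⟨_, _, _, _, k1, (newL k2 k3).1, (newL k2 k3).2⟩

/-- **soundness of the steps** -/
theorem steps_false (he : EnvOK w b F x e) : ∀ (n : ℕ) (gQ gL : List ℕ) (N C : ℕ),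
    GOK w b (b * F) x 2 N gQ → GOK w b (b * F) x 1 N gL → steps e n gQ gL N C = true → False
  | 0, _, _, _, _, _, _, H => absurd H (by simp [steps])
  | n + 1, gQ, gL, N, C, hQ, hL, H => by
    have H' : secs e gQ gL N
      (fun tot C' bd pos => tgt e (steps e n) gQ gL N tot C' bd pos (Nat.land C' 8589934591))
      (Nat.land C 63) 0 (Nat.shiftRight C 6) 0 0 = true := H
    obtain ⟨tot, C', bd, pos, h1, h2⟩ := secs_true he hQ hL _ _ _ _ _ (Tot.zero _) H'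
    obtain ⟨gQ', gL', N', C'', k1, k2, k3⟩ := tgt_true he (tw_le _ rfl) hQ hL h2 h1
    exact steps_false he n gQ' gL' N' C'' k2 k3 k1

end

end Ker
end CR
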