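import Pool.Agent.Lib.MP_6f5d36_co.CertB

set_option autoImplicit false

/-!
# MP_6f5d36_co : the elementary operations of the kernel checker, the weights
-/

namespace CR
namespace Ker

open Finset

section

variable {q : ℕ} {w : Fin q → ℕ} {b K : ℕ} {x : Fin q → ℝ}

/-- a value of degree one with coefficient sum at most three -/
def MV (w : Fin q → ℕ) (b K : ℕ) (x : Fin q → ℝ) (a : ℕ) (v : ℝ) : Prop :=
  Inv w b K x 1 3 a v ∧ a ≤ 2 ^ (K + 2)

/-- a value of degree one with coefficient sum at most one -/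
def SV (w : Fin q → ℕ) (b K : ℕ) (x : Fin q → ℝ) (a : ℕ) (v : ℝ) : Prop :=
  Inv w b K x 1 1 a v ∧ a ≤ 2 ^ K

/-- a `2 x 2` minor -/
def QV (w : Fin q → ℕ) (b K : ℕ) (x : Fin q → ℝ) (a : ℕ) (v : ℝ) : Prop :=
  Inv w b K x 2 18 a v ∧ a ≤ 2 ^ K

/-- a zero form of degree three -/
def ZV (w : Fin q → ℕ) (b K : ℕ) (x : Fin q → ℝ) (a : ℕ) : Prop :=
  Inv w b K x 3 162 a 0 ∧ a ≤ 2 ^ (2 * K + 8)

/-- a negative form of degree two -/
def HV (w : Fin q → ℕ) (b K : ℕ) (x : Fin q → ℝ) (N a : ℕ) : Prop :=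
  ∃ u, u < 0 ∧ Inv w b K x 2 N a u ∧ a ≤ 2 ^ (2 * K + 8)

theorem pow_le {a c : ℕ} (h : a ≤ c) : 2 ^ a ≤ 2 ^ c := Nat.pow_le_pow_right (by norm_num) h

theorem mf_inv {s t r : ℕ} {u v z : ℝ} (h1 : SV w b K x s u) (h2 : SV w b K x t v)
    (h3 : SV w b K x r z) : MV w b K x (mf (2 ^ K) s t r) (u + v - z) := by
  constructor
  · have := (h1.1.add h2.1).add (h3.1.neg h3.2 (dvd_refl _))
    rw [← sub_eq_add_neg] at this
    exact this
  · show s + t + (2 ^ K - r) ≤ 2 ^ (K + 2)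
    have h4 := h1.2
    have h5 := h2.2
    rw [pow_add]
    omega

theorem two_inv {s : ℕ} {u : ℝ} (h1 : SV w b K x s u) : MV w b K x (Nat.mul 2 s) (2 * u) := by
  constructor
  · exact (h1.1.smul 2).mono (by norm_num)
  · show 2 * s ≤ 2 ^ (K + 2)
    have h4 := h1.2
    rw [pow_add]
    omega

theorem mul_bd {a c m n : ℕ} (h1 : a ≤ 2 ^ m) (h2 : c ≤ 2 ^ n) : a * c ≤ 2 ^ (m + n) := by
  rw [pow_add]; exact Nat.mul_le_mul h1 h2

theorem land_bd (a : ℕ) : Nat.land a (2 ^ K - 1) ≤ 2 ^ K := by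
  have : Nat.land a (2 ^ K - 1) = a % 2 ^ K := Nat.and_two_pow_sub_one_eq_mod _ _
  rw [this]
  exact (Nat.mod_lt _ (by positivity)).le

theorem qf_inv {a c d e : ℕ} {u v y z : ℝ} (h1 : MV w b K x a u) (h2 : MV w b K x c v)
    (h3 : MV w b K x d y) (h4 : MV w b K x e z) :
    QV w b K x (qf (2 ^ K - 1) (2 ^ (2 * K + 4)) a c d e) (u * v - y * z) := by
  constructor
  · have h5 := (h3.1.mul h4.1).neg (Z := 2 ^ (2 * K + 4))
      (by
        have := mul_bd h3.2 h4.2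
        rwa [show K + 2 + (K + 2) = 2 * K + 4 by ring] at this)
      (Nat.pow_dvd_pow 2 (by omega))
    have h6 := ((h1.1.mul h2.1).add h5).land
    rw [← sub_eq_add_neg] at h6
    exact h6
  · exact land_bd _

theorem df_inv {a c d e f g : ℕ} {u v y p r s : ℝ} (h1 : MV w b K x a u) (h2 : MV w b K x c v)
    (h3 : MV w b K x d y) (h4 : QV w b K x e p) (h5 : QV w b K x f r) (h6 : QV w b K x g s)
    (h : u * p - v * r + y * s = 0) : ZV w b K x (df (2 ^ K) a c d e f g) := by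
  constructor
  · have h7 := ((h1.1.mul h4.1).add (h2.1.mul (h5.1.neg h5.2 (dvd_refl _)))).add (h3.1.mul h6.1)
    have e1 : u * p + v * -r + y * s = 0 := by linarith
    rw [e1] at h7
    exact h7
  · show a * e + c * (2 ^ K - f) + d * g ≤ 2 ^ (2 * K + 8)
    have h8 := mul_bd h1.2 h4.2
    have h9 := mul_bd h2.2 (show 2 ^ K - f ≤ 2 ^ K from Nat.sub_le _ _)
    have h10 := mul_bd h3.2 h6.2
    have e2 : 2 ^ (2 * K + 8) = 64 * 2 ^ (K + 2 + K) := by
      rw [show 2 * K + 8 = 6 + (K + 2 + K) by ring, pow_add]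
      norm_num
    rw [e2]
    omega

theorem nh_inv {s a c : ℕ} {u v z : ℝ} (h1 : MV w b K x s z) (h2 : SV w b K x a u)
    (h3 : SV w b K x c v) (hneg : z * z - 4 * (u * v) < 0) :
    HV w b K x 13 (nh (2 ^ (2 * K + 4)) s a c) := by
  refine ⟨_, hneg, ?_, ?_⟩
  · have h4 := ((h2.1.mul h3.1).smul 4).neg (Z := 2 ^ (2 * K + 4))
      (by
        have := mul_bd h2.2 h3.2
        have e2 : 2 ^ (2 * K + 4) = 16 * 2 ^ (K + K) := by
          rw [show 2 * K + 4 = 4 + (K + K) by ring, pow_add]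
          norm_num
        rw [e2]; omega)
      (Nat.pow_dvd_pow 2 (by omega))
    have h5 := (h1.1.mul h1.1).add h4
    have e : z * z + -(((4 : ℕ) : ℝ) * (u * v)) = z * z - 4 * (u * v) := by push_cast; ring
    rw [e] at h5
    exact h5
  · show s * s + (2 ^ (2 * K + 4) - 4 * (a * c)) ≤ 2 ^ (2 * K + 8)
    have h6 := mul_bd h1.2 h1.2
    rw [show K + 2 + (K + 2) = 2 * K + 4 by ring] at h6
    have e2 : 2 ^ (2 * K + 8) = 16 * 2 ^ (2 * K + 4) := by
      rw [show 2 * K + 8 = 4 + (2 * K + 4) by ring, pow_add]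
      norm_num
    rw [e2]
    omega

theorem ns_inv {a c : ℕ} {u v : ℝ} (h2 : SV w b K x a u) (h3 : SV w b K x c v) (hne : u ≠ v) :
    HV w b K x 4 (ns (2 ^ (2 * K + 4)) (Nat.add a (Nat.sub (2 ^ K) c))) := by
  have h1 := h2.1.add (h3.1.neg h3.2 (dvd_refl _))
  have hb1 : a + (2 ^ K - c) ≤ 2 ^ (K + 1) := by
    have := h2.2
    rw [pow_succ]
    omega
  refine ⟨-((u + -v) * (u + -v)), ?_, ?_, ?_⟩
  · have h4 : 0 < (u + -v) * (u + -v) := by
      have : u + -v ≠ 0 := fun h => hne (by linarith)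
      exact mul_self_pos.2 this
    linarith
  · have h5 := (h1.mul h1).neg (Z := 2 ^ (2 * K + 4))
      ((mul_bd hb1 hb1).trans (pow_le (by omega))) (Nat.pow_dvd_pow 2 (by omega))
    exact h5
  · show 2 ^ (2 * K + 4) - _ ≤ 2 ^ (2 * K + 8)
    exact (Nat.sub_le _ _).trans (pow_le (by omega))

theorem pp_inv {a c : ℕ} {u v : ℝ} (h2 : SV w b K x a u) (h3 : SV w b K x c v) :
    ∃ z, True ∧ Inv w b K x 2 1 (Nat.mul a c) z ∧ Nat.mul a c ≤ 2 ^ (2 * K + 8) :=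
  ⟨u * v, trivial, h2.1.mul h3.1, (mul_bd h2.2 h3.2).trans (pow_le (by omega))⟩

theorem SV.zero : SV w b K x 0 0 := ⟨Inv.zero 1 1, Nat.zero_le _⟩

/-- a function whose `3 x 3` minors vanish -/
structure Rk2 (g : ℕ → ℕ → ℝ) : Prop where
  symm : ∀ i j, g i j = g j i
  minor : ∀ i1 i2 i3 j1 j2 j3, g i1 j1 * (g i2 j2 * g i3 j3 - g i2 j3 * g i3 j2) -
      g i1 j2 * (g i2 j1 * g i3 j3 - g i2 j3 * g i3 j1) +
      g i1 j3 * (g i2 j1 * g i3 j2 - g i2 j2 * g i3 j1) = 0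

/-- an entry of the Gram matrix -/
def ME (w : Fin q → ℕ) (b K : ℕ) (x : Fin q → ℝ) (g : ℕ → ℕ → ℝ) (i j a : ℕ) : Prop :=
  MV w b K x a (g i j)

/-- a `2 x 2` minor with rows `i k` and columns `j l` -/
def QE (w : Fin q → ℕ) (b K : ℕ) (x : Fin q → ℝ) (g : ℕ → ℕ → ℝ) (i k j l a : ℕ) : Prop :=
  QV w b K x a (g i j * g k l - g i l * g k j)

variable {g : ℕ → ℕ → ℝ}

theorem ME.s (hg : Rk2 g) {i j a : ℕ} (h : ME w b K x g i j a) : ME w b K x g j i a := by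
  unfold ME at *; rw [hg.symm j i]; exact h

theorem QE.t (hg : Rk2 g) {i k j l a : ℕ} (h : QE w b K x g i k j l a) :
    QE w b K x g j l i k a := by
  unfold QE at *
  have e : g j i * g l k - g j k * g l i = g i j * g k l - g i l * g k j := by
    rw [hg.symm j i, hg.symm l k, hg.symm j k, hg.symm l i]; ring
  rw [e]; exact h

theorem mkQ {i k j l a c d e : ℕ} (h1 : ME w b K x g i j a) (h2 : ME w b K x g k l c)
    (h3 : ME w b K x g i l d) (h4 : ME w b K x g k j e) :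
    QE w b K x g i k j l (qf (2 ^ K - 1) (2 ^ (2 * K + 4)) a c d e) :=
  qf_inv h1 h2 h3 h4

theorem mkD (hg : Rk2 g) {i1 i2 i3 j1 j2 j3 a c d p r s : ℕ} (h1 : ME w b K x g i1 j1 a)
    (h2 : ME w b K x g i1 j2 c) (h3 : ME w b K x g i1 j3 d)
    (h4 : QE w b K x g i2 i3 j2 j3 p) (h5 : QE w b K x g i2 i3 j1 j3 r)
    (h6 : QE w b K x g i2 i3 j1 j2 s) : ZV w b K x (df (2 ^ K) a c d p r s) :=
  df_inv h1 h2 h3 h4 h5 h6 (hg.minor i1 i2 i3 j1 j2 j3)

end

/-! ### the weights -/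

theorem wt_of {q : ℕ} (w : Fin q → ℕ) (F : ℕ)
    (h : ((List.Nat.antidiagonalTuple q 3).map (fun f => ∑ i, w i * f i)).Nodup)
    (h2 : ∀ f ∈ List.Nat.antidiagonalTuple q 3, ∑ i, w i * f i < F) : Wt w F where
  inj _ _ hf hg hfg := List.inj_on_of_nodup_map h (List.Nat.mem_antidiagonalTuple.2 hf)
    (List.Nat.mem_antidiagonalTuple.2 hg) hfg
  lt f hf := h2 f (List.Nat.mem_antidiagonalTuple.2 hf)

def w6 : Fin 6 → ℕ := ![0, 2, 11, 26, 42, 45]
def w7 : Fin 7 → ℕ := ![0, 1, 7, 50, 59, 78, 82]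
def w8 : Fin 8 → ℕ := ![0, 2, 5, 34, 74, 107, 120, 129]

theorem wt6 : Wt w6 136 := wt_of _ _ (by decide +kernel) (by decide +kernel)
theorem wt7 : Wt w7 247 := wt_of _ _ (by decide +kernel) (by decide +kernel)
theorem wt8 : Wt w8 388 := wt_of _ _ (by decide +kernel) (by decide +kernel)

end Ker
end CR
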