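import Pool.Agent.Lib.MP_6f5d36_co.CertC

set_option autoImplicit false
set_option linter.all false

/-!
# MP_6f5d36_co : the lists of minors and Heron forms of 6 points
-/

namespace CR
namespace Ker

open Finset

section

variable {q : ℕ} {w : Fin q → ℕ} {b K : ℕ} {x : Fin q → ℝ} {g : ℕ → ℕ → ℝ}

/-- the Gram matrix with base point `0` -/
def gg (X Y : ℕ → ℝ) (i j : ℕ) : ℝ := gm X Y 0 (i + 1) (j + 1)

theorem rk_gm (X Y : ℕ → ℝ) (c : ℕ) : Rk2 (gm X Y c) where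
  symm i j := gm_symm X Y c i j
  minor i1 i2 i3 j1 j2 j3 := minor_zero X Y c i1 i2 i3 j1 j2 j3

theorem rk_gg (X Y : ℕ → ℝ) : Rk2 (gg X Y) where
  symm i j := gm_symm X Y 0 _ _
  minor i1 i2 i3 j1 j2 j3 := minor_zero X Y 0 _ _ _ _ _ _

theorem me_diag {X Y : ℕ → ℝ} {i s : ℕ} (h : SV w b K x s (sd X Y 0 (i + 1))) :
    ME w b K x (gg X Y) i i (Nat.mul 2 s) := by
  have h1 := two_inv h
  have e : gg X Y i i = 2 * sd X Y 0 (i + 1) := by
    unfold gg gm; rw [sd_self]; ring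
  unfold ME
  rw [e]; exact h1

theorem _root_.CR.GP.heron {m : ℕ} {X Y : ℕ → ℝ} (G : GP m X Y) {i j k : ℕ} (hij : i < j) (hjk : j < k)
    (hk : k < m) : (sd X Y i j + sd X Y i k - sd X Y j k) * (sd X Y i j + sd X Y i k - sd X Y j k) -
      4 * (sd X Y i j * sd X Y i k) < 0 := by
  have h := G.tri_pos (i := i) (j := j) (k := k) (by omega) (by omega) hk (by omega) (by omega)
    (by omega)
  unfold tri at h
  nlinarith

theorem g5b_ok (hg : Rk2 g)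
    {m00 m01 m02 m03 m04 m11 m12 m13 m14 m22 m23 m24 q0112 q0113 q0114 q0212 q0213 q0214 q0223
    q0224 q0312 q0313 q0314 q0323 q0324 q0334 q0412 q0413 q0414 q0423 q0424 q0434 q1212 q1213
    q1214 q1223 q1224 q1234 q1313 q1314 q1323 q1324 q1334 q1414 q1423 q1424 q1434 q2323 q2324
    q2334 q2424 q2434 q3434 : ℕ}
    (h00 : ME w b K x g 0 0 m00)
    (h01 : ME w b K x g 0 1 m01)
    (h02 : ME w b K x g 0 2 m02)
    (h03 : ME w b K x g 0 3 m03)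
    (h04 : ME w b K x g 0 4 m04)
    (h11 : ME w b K x g 1 1 m11)
    (h12 : ME w b K x g 1 2 m12)
    (h13 : ME w b K x g 1 3 m13)
    (h14 : ME w b K x g 1 4 m14)
    (h22 : ME w b K x g 2 2 m22)
    (h23 : ME w b K x g 2 3 m23)
    (h24 : ME w b K x g 2 4 m24)
    (k0112 : QE w b K x g 0 1 1 2 q0112)
    (k0113 : QE w b K x g 0 1 1 3 q0113)
    (k0114 : QE w b K x g 0 1 1 4 q0114)
    (k0212 : QE w b K x g 0 2 1 2 q0212)
    (k0213 : QE w b K x g 0 2 1 3 q0213)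
    (k0214 : QE w b K x g 0 2 1 4 q0214)
    (k0223 : QE w b K x g 0 2 2 3 q0223)
    (k0224 : QE w b K x g 0 2 2 4 q0224)
    (k0312 : QE w b K x g 0 3 1 2 q0312)
    (k0313 : QE w b K x g 0 3 1 3 q0313)
    (k0314 : QE w b K x g 0 3 1 4 q0314)
    (k0323 : QE w b K x g 0 3 2 3 q0323)
    (k0324 : QE w b K x g 0 3 2 4 q0324)
    (k0334 : QE w b K x g 0 3 3 4 q0334)
    (k0412 : QE w b K x g 0 4 1 2 q0412)
    (k0413 : QE w b K x g 0 4 1 3 q0413)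
    (k0414 : QE w b K x g 0 4 1 4 q0414)
    (k0423 : QE w b K x g 0 4 2 3 q0423)
    (k0424 : QE w b K x g 0 4 2 4 q0424)
    (k0434 : QE w b K x g 0 4 3 4 q0434)
    (k1212 : QE w b K x g 1 2 1 2 q1212)
    (k1213 : QE w b K x g 1 2 1 3 q1213)
    (k1214 : QE w b K x g 1 2 1 4 q1214)
    (k1223 : QE w b K x g 1 2 2 3 q1223)
    (k1224 : QE w b K x g 1 2 2 4 q1224)
    (k1234 : QE w b K x g 1 2 3 4 q1234)
    (k1313 : QE w b K x g 1 3 1 3 q1313)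
    (k1314 : QE w b K x g 1 3 1 4 q1314)
    (k1323 : QE w b K x g 1 3 2 3 q1323)
    (k1324 : QE w b K x g 1 3 2 4 q1324)
    (k1334 : QE w b K x g 1 3 3 4 q1334)
    (k1414 : QE w b K x g 1 4 1 4 q1414)
    (k1423 : QE w b K x g 1 4 2 3 q1423)
    (k1424 : QE w b K x g 1 4 2 4 q1424)
    (k1434 : QE w b K x g 1 4 3 4 q1434)
    (k2323 : QE w b K x g 2 3 2 3 q2323)
    (k2324 : QE w b K x g 2 3 2 4 q2324)
    (k2334 : QE w b K x g 2 3 3 4 q2334)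
    (k2424 : QE w b K x g 2 4 2 4 q2424)
    (k2434 : QE w b K x g 2 4 3 4 q2434)
    (k3434 : QE w b K x g 3 4 3 4 q3434) :
    ∀ a ∈ g5b (2 ^ K)
      m00 m01 m02 m03 m04 m11 m12 m13 m14 m22 m23 m24 q0112 q0113 q0114 q0212 q0213 q0214 q0223
      q0224 q0312 q0313 q0314 q0323 q0324 q0334 q0412 q0413 q0414 q0423 q0424 q0434 q1212 q1213
      q1214 q1223 q1224 q1234 q1313 q1314 q1323 q1324 q1334 q1414 q1423 q1424 q1434 q2323 q2324
      q2334 q2424 q2434 q3434,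
      ZV w b K x a := by
  unfold g5b
  refine List.forall_mem_cons.2 ⟨mkD hg h00 h01 h02 k1212 (k0212.t hg) (k0112.t hg), ?_⟩
  refine List.forall_mem_cons.2 ⟨mkD hg h00 h01 h03 k1213 (k0312.t hg) (k0112.t hg), ?_⟩
  refine List.forall_mem_cons.2 ⟨mkD hg h00 h01 h04 k1214 (k0412.t hg) (k0112.t hg), ?_⟩
  refine List.forall_mem_cons.2 ⟨mkD hg h00 h02 h03 k1223 (k0312.t hg) (k0212.t hg), ?_⟩
  refine List.forall_mem_cons.2 ⟨mkD hg h00 h02 h04 k1224 (k0412.t hg) (k0212.t hg), ?_⟩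
  refine List.forall_mem_cons.2 ⟨mkD hg h00 h03 h04 k1234 (k0412.t hg) (k0312.t hg), ?_⟩
  refine List.forall_mem_cons.2 ⟨mkD hg h01 h02 h03 k1223 k1213 k1212, ?_⟩
  refine List.forall_mem_cons.2 ⟨mkD hg h01 h02 h04 k1224 k1214 k1212, ?_⟩
  refine List.forall_mem_cons.2 ⟨mkD hg h01 h03 h04 k1234 k1214 k1213, ?_⟩
  refine List.forall_mem_cons.2 ⟨mkD hg h02 h03 h04 k1234 k1224 k1223, ?_⟩
  refine List.forall_mem_cons.2 ⟨mkD hg h00 h01 h03 k1313 (k0313.t hg) (k0113.t hg), ?_⟩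
  refine List.forall_mem_cons.2 ⟨mkD hg h00 h01 h04 k1314 (k0413.t hg) (k0113.t hg), ?_⟩
  refine List.forall_mem_cons.2 ⟨mkD hg h00 h02 h03 k1323 (k0313.t hg) (k0213.t hg), ?_⟩
  refine List.forall_mem_cons.2 ⟨mkD hg h00 h02 h04 k1324 (k0413.t hg) (k0213.t hg), ?_⟩
  refine List.forall_mem_cons.2 ⟨mkD hg h00 h03 h04 k1334 (k0413.t hg) (k0313.t hg), ?_⟩
  refine List.forall_mem_cons.2 ⟨mkD hg h01 h02 h03 k1323 k1313 (k1213.t hg), ?_⟩
  refine List.forall_mem_cons.2 ⟨mkD hg h01 h02 h04 k1324 k1314 (k1213.t hg), ?_⟩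
  refine List.forall_mem_cons.2 ⟨mkD hg h01 h03 h04 k1334 k1314 k1313, ?_⟩
  refine List.forall_mem_cons.2 ⟨mkD hg h02 h03 h04 k1334 k1324 k1323, ?_⟩
  refine List.forall_mem_cons.2 ⟨mkD hg h00 h01 h04 k1414 (k0414.t hg) (k0114.t hg), ?_⟩
  refine List.forall_mem_cons.2 ⟨mkD hg h00 h02 h03 k1423 (k0314.t hg) (k0214.t hg), ?_⟩
  refine List.forall_mem_cons.2 ⟨mkD hg h00 h02 h04 k1424 (k0414.t hg) (k0214.t hg), ?_⟩
  refine List.forall_mem_cons.2 ⟨mkD hg h00 h03 h04 k1434 (k0414.t hg) (k0314.t hg), ?_⟩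
  refine List.forall_mem_cons.2 ⟨mkD hg h01 h02 h03 k1423 (k1314.t hg) (k1214.t hg), ?_⟩
  refine List.forall_mem_cons.2 ⟨mkD hg h01 h02 h04 k1424 k1414 (k1214.t hg), ?_⟩
  refine List.forall_mem_cons.2 ⟨mkD hg h01 h03 h04 k1434 k1414 (k1314.t hg), ?_⟩
  refine List.forall_mem_cons.2 ⟨mkD hg h02 h03 h04 k1434 k1424 k1423, ?_⟩
  refine List.forall_mem_cons.2 ⟨mkD hg h00 h02 h03 k2323 (k0323.t hg) (k0223.t hg), ?_⟩
  refine List.forall_mem_cons.2 ⟨mkD hg h00 h02 h04 k2324 (k0423.t hg) (k0223.t hg), ?_⟩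
  refine List.forall_mem_cons.2 ⟨mkD hg h00 h03 h04 k2334 (k0423.t hg) (k0323.t hg), ?_⟩
  refine List.forall_mem_cons.2 ⟨mkD hg h01 h02 h03 k2323 (k1323.t hg) (k1223.t hg), ?_⟩
  refine List.forall_mem_cons.2 ⟨mkD hg h01 h02 h04 k2324 (k1423.t hg) (k1223.t hg), ?_⟩
  refine List.forall_mem_cons.2 ⟨mkD hg h01 h03 h04 k2334 (k1423.t hg) (k1323.t hg), ?_⟩
  refine List.forall_mem_cons.2 ⟨mkD hg h02 h03 h04 k2334 k2324 k2323, ?_⟩
  refine List.forall_mem_cons.2 ⟨mkD hg h00 h02 h04 k2424 (k0424.t hg) (k0224.t hg), ?_⟩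
  refine List.forall_mem_cons.2 ⟨mkD hg h00 h03 h04 k2434 (k0424.t hg) (k0324.t hg), ?_⟩
  refine List.forall_mem_cons.2 ⟨mkD hg h01 h02 h03 (k2324.t hg) (k1324.t hg) (k1224.t hg), ?_⟩
  refine List.forall_mem_cons.2 ⟨mkD hg h01 h02 h04 k2424 (k1424.t hg) (k1224.t hg), ?_⟩
  refine List.forall_mem_cons.2 ⟨mkD hg h01 h03 h04 k2434 (k1424.t hg) (k1324.t hg), ?_⟩
  refine List.forall_mem_cons.2 ⟨mkD hg h02 h03 h04 k2434 k2424 (k2324.t hg), ?_⟩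
  refine List.forall_mem_cons.2 ⟨mkD hg h00 h03 h04 k3434 (k0434.t hg) (k0334.t hg), ?_⟩
  refine List.forall_mem_cons.2 ⟨mkD hg h01 h02 h03 (k2334.t hg) (k1334.t hg) (k1234.t hg), ?_⟩
  refine List.forall_mem_cons.2 ⟨mkD hg h01 h02 h04 (k2434.t hg) (k1434.t hg) (k1234.t hg), ?_⟩
  refine List.forall_mem_cons.2 ⟨mkD hg h01 h03 h04 k3434 (k1434.t hg) (k1334.t hg), ?_⟩
  refine List.forall_mem_cons.2 ⟨mkD hg h02 h03 h04 k3434 (k2434.t hg) (k2334.t hg), ?_⟩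
  refine List.forall_mem_cons.2 ⟨mkD hg h11 h12 h13 k2323 (k1323.t hg) (k1223.t hg), ?_⟩
  refine List.forall_mem_cons.2 ⟨mkD hg h11 h12 h14 k2324 (k1423.t hg) (k1223.t hg), ?_⟩
  refine List.forall_mem_cons.2 ⟨mkD hg h11 h13 h14 k2334 (k1423.t hg) (k1323.t hg), ?_⟩
  refine List.forall_mem_cons.2 ⟨mkD hg h12 h13 h14 k2334 k2324 k2323, ?_⟩
  refine List.forall_mem_cons.2 ⟨mkD hg h11 h12 h14 k2424 (k1424.t hg) (k1224.t hg), ?_⟩
  refine List.forall_mem_cons.2 ⟨mkD hg h11 h13 h14 k2434 (k1424.t hg) (k1324.t hg), ?_⟩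
  refine List.forall_mem_cons.2 ⟨mkD hg h12 h13 h14 k2434 k2424 (k2324.t hg), ?_⟩
  refine List.forall_mem_cons.2 ⟨mkD hg h11 h13 h14 k3434 (k1434.t hg) (k1334.t hg), ?_⟩
  refine List.forall_mem_cons.2 ⟨mkD hg h12 h13 h14 k3434 (k2434.t hg) (k2334.t hg), ?_⟩
  refine List.forall_mem_cons.2 ⟨mkD hg h22 h23 h24 k3434 (k2434.t hg) (k2334.t hg), ?_⟩
  exact List.forall_mem_nil _

theorem g5_ok (hg : Rk2 g)
    {m00 m01 m02 m03 m04 m11 m12 m13 m14 m22 m23 m24 m33 m34 m44 : ℕ}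
    (h00 : ME w b K x g 0 0 m00)
    (h01 : ME w b K x g 0 1 m01)
    (h02 : ME w b K x g 0 2 m02)
    (h03 : ME w b K x g 0 3 m03)
    (h04 : ME w b K x g 0 4 m04)
    (h11 : ME w b K x g 1 1 m11)
    (h12 : ME w b K x g 1 2 m12)
    (h13 : ME w b K x g 1 3 m13)
    (h14 : ME w b K x g 1 4 m14)
    (h22 : ME w b K x g 2 2 m22)
    (h23 : ME w b K x g 2 3 m23)
    (h24 : ME w b K x g 2 4 m24)
    (h33 : ME w b K x g 3 3 m33)
    (h34 : ME w b K x g 3 4 m34)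
    (h44 : ME w b K x g 4 4 m44) :
    ∀ a ∈ g5 (2 ^ K - 1) (2 ^ K) (2 ^ (2 * K + 4))
      m00 m01 m02 m03 m04 m11 m12 m13 m14 m22 m23 m24 m33 m34 m44,
      ZV w b K x a :=
  g5b_ok hg h00 h01 h02 h03 h04 h11 h12 h13 h14 h22 h23 h24
    (mkQ h01 h12 h02 h11)
    (mkQ h01 h13 h03 h11)
    (mkQ h01 h14 h04 h11)
    (mkQ h01 h22 h02 (h12.s hg))
    (mkQ h01 h23 h03 (h12.s hg))
    (mkQ h01 h24 h04 (h12.s hg))
    (mkQ h02 h23 h03 h22)
    (mkQ h02 h24 h04 h22)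
    (mkQ h01 (h23.s hg) h02 (h13.s hg))
    (mkQ h01 h33 h03 (h13.s hg))
    (mkQ h01 h34 h04 (h13.s hg))
    (mkQ h02 h33 h03 (h23.s hg))
    (mkQ h02 h34 h04 (h23.s hg))
    (mkQ h03 h34 h04 h33)
    (mkQ h01 (h24.s hg) h02 (h14.s hg))
    (mkQ h01 (h34.s hg) h03 (h14.s hg))
    (mkQ h01 h44 h04 (h14.s hg))
    (mkQ h02 (h34.s hg) h03 (h24.s hg))
    (mkQ h02 h44 h04 (h24.s hg))
    (mkQ h03 h44 h04 (h34.s hg))
    (mkQ h11 h22 h12 (h12.s hg))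
    (mkQ h11 h23 h13 (h12.s hg))
    (mkQ h11 h24 h14 (h12.s hg))
    (mkQ h12 h23 h13 h22)
    (mkQ h12 h24 h14 h22)
    (mkQ h13 h24 h14 h23)
    (mkQ h11 h33 h13 (h13.s hg))
    (mkQ h11 h34 h14 (h13.s hg))
    (mkQ h12 h33 h13 (h23.s hg))
    (mkQ h12 h34 h14 (h23.s hg))
    (mkQ h13 h34 h14 h33)
    (mkQ h11 h44 h14 (h14.s hg))
    (mkQ h12 (h34.s hg) h13 (h24.s hg))
    (mkQ h12 h44 h14 (h24.s hg))
    (mkQ h13 h44 h14 (h34.s hg))
    (mkQ h22 h33 h23 (h23.s hg))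
    (mkQ h22 h34 h24 (h23.s hg))
    (mkQ h23 h34 h24 h33)
    (mkQ h22 h44 h24 (h24.s hg))
    (mkQ h23 h44 h24 (h34.s hg))
    (mkQ h33 h44 h34 (h34.s hg))

theorem G6_ok {X Y : ℕ → ℝ}
    {s01 s02 s12 s03 s13 s23 s04 s14 s24 s34 s05 s15 s25 s35 s45 : ℕ}
    (e01 : SV w b K x s01 (sd X Y 0 1))
    (e02 : SV w b K x s02 (sd X Y 0 2))
    (e12 : SV w b K x s12 (sd X Y 1 2))
    (e03 : SV w b K x s03 (sd X Y 0 3))
    (e13 : SV w b K x s13 (sd X Y 1 3))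
    (e23 : SV w b K x s23 (sd X Y 2 3))
    (e04 : SV w b K x s04 (sd X Y 0 4))
    (e14 : SV w b K x s14 (sd X Y 1 4))
    (e24 : SV w b K x s24 (sd X Y 2 4))
    (e34 : SV w b K x s34 (sd X Y 3 4))
    (e05 : SV w b K x s05 (sd X Y 0 5))
    (e15 : SV w b K x s15 (sd X Y 1 5))
    (e25 : SV w b K x s25 (sd X Y 2 5))
    (e35 : SV w b K x s35 (sd X Y 3 5))
    (e45 : SV w b K x s45 (sd X Y 4 5)) :
    ∀ a ∈ G6 (2 ^ K - 1) (2 ^ K) (2 ^ (2 * K + 4))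
      s01 s02 s12 s03 s13 s23 s04 s14 s24 s34 s05 s15 s25 s35 s45,
      ZV w b K x a :=
  g5_ok (rk_gg X Y)
    (me_diag e01)
    (mf_inv e01 e02 e12)
    (mf_inv e01 e03 e13)
    (mf_inv e01 e04 e14)
    (mf_inv e01 e05 e15)
    (me_diag e02)
    (mf_inv e02 e03 e23)
    (mf_inv e02 e04 e24)
    (mf_inv e02 e05 e25)
    (me_diag e03)
    (mf_inv e03 e04 e34)
    (mf_inv e03 e05 e35)
    (me_diag e04)
    (mf_inv e04 e05 e45)
    (me_diag e05)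

theorem H6_ok {X Y : ℕ → ℝ} (G : GP 6 X Y)
    {s01 s02 s12 s03 s13 s23 s04 s14 s24 s34 s05 s15 s25 s35 s45 : ℕ}
    (e01 : SV w b K x s01 (sd X Y 0 1))
    (e02 : SV w b K x s02 (sd X Y 0 2))
    (e12 : SV w b K x s12 (sd X Y 1 2))
    (e03 : SV w b K x s03 (sd X Y 0 3))
    (e13 : SV w b K x s13 (sd X Y 1 3))
    (e23 : SV w b K x s23 (sd X Y 2 3))
    (e04 : SV w b K x s04 (sd X Y 0 4))
    (e14 : SV w b K x s14 (sd X Y 1 4))
    (e24 : SV w b K x s24 (sd X Y 2 4))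
    (e34 : SV w b K x s34 (sd X Y 3 4))
    (e05 : SV w b K x s05 (sd X Y 0 5))
    (e15 : SV w b K x s15 (sd X Y 1 5))
    (e25 : SV w b K x s25 (sd X Y 2 5))
    (e35 : SV w b K x s35 (sd X Y 3 5))
    (e45 : SV w b K x s45 (sd X Y 4 5)) :
    ∀ a ∈ H6 (2 ^ K) (2 ^ (2 * K + 4))
      s01 s02 s12 s03 s13 s23 s04 s14 s24 s34 s05 s15 s25 s35 s45,
      HV w b K x 13 a := by
  unfold H6
  refine List.forall_mem_cons.2 ⟨nh_inv (mf_inv e01 e02 e12) e01 e02 (G.heron (i := 0) (j := 1) (k := 2) (by decide) (by decide) (by decide)), ?_⟩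
  refine List.forall_mem_cons.2 ⟨nh_inv (mf_inv e01 e03 e13) e01 e03 (G.heron (i := 0) (j := 1) (k := 3) (by decide) (by decide) (by decide)), ?_⟩
  refine List.forall_mem_cons.2 ⟨nh_inv (mf_inv e01 e04 e14) e01 e04 (G.heron (i := 0) (j := 1) (k := 4) (by decide) (by decide) (by decide)), ?_⟩
  refine List.forall_mem_cons.2 ⟨nh_inv (mf_inv e01 e05 e15) e01 e05 (G.heron (i := 0) (j := 1) (k := 5) (by decide) (by decide) (by decide)), ?_⟩
  refine List.forall_mem_cons.2 ⟨nh_inv (mf_inv e02 e03 e23) e02 e03 (G.heron (i := 0) (j := 2) (k := 3) (by decide) (by decide) (by decide)), ?_⟩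
  refine List.forall_mem_cons.2 ⟨nh_inv (mf_inv e02 e04 e24) e02 e04 (G.heron (i := 0) (j := 2) (k := 4) (by decide) (by decide) (by decide)), ?_⟩
  refine List.forall_mem_cons.2 ⟨nh_inv (mf_inv e02 e05 e25) e02 e05 (G.heron (i := 0) (j := 2) (k := 5) (by decide) (by decide) (by decide)), ?_⟩
  refine List.forall_mem_cons.2 ⟨nh_inv (mf_inv e03 e04 e34) e03 e04 (G.heron (i := 0) (j := 3) (k := 4) (by decide) (by decide) (by decide)), ?_⟩
  refine List.forall_mem_cons.2 ⟨nh_inv (mf_inv e03 e05 e35) e03 e05 (G.heron (i := 0) (j := 3) (k := 5) (by decide) (by decide) (by decide)), ?_⟩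
  refine List.forall_mem_cons.2 ⟨nh_inv (mf_inv e04 e05 e45) e04 e05 (G.heron (i := 0) (j := 4) (k := 5) (by decide) (by decide) (by decide)), ?_⟩
  refine List.forall_mem_cons.2 ⟨nh_inv (mf_inv e12 e13 e23) e12 e13 (G.heron (i := 1) (j := 2) (k := 3) (by decide) (by decide) (by decide)), ?_⟩
  refine List.forall_mem_cons.2 ⟨nh_inv (mf_inv e12 e14 e24) e12 e14 (G.heron (i := 1) (j := 2) (k := 4) (by decide) (by decide) (by decide)), ?_⟩
  refine List.forall_mem_cons.2 ⟨nh_inv (mf_inv e12 e15 e25) e12 e15 (G.heron (i := 1) (j := 2) (k := 5) (by decide) (by decide) (by decide)), ?_⟩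
  refine List.forall_mem_cons.2 ⟨nh_inv (mf_inv e13 e14 e34) e13 e14 (G.heron (i := 1) (j := 3) (k := 4) (by decide) (by decide) (by decide)), ?_⟩
  refine List.forall_mem_cons.2 ⟨nh_inv (mf_inv e13 e15 e35) e13 e15 (G.heron (i := 1) (j := 3) (k := 5) (by decide) (by decide) (by decide)), ?_⟩
  refine List.forall_mem_cons.2 ⟨nh_inv (mf_inv e14 e15 e45) e14 e15 (G.heron (i := 1) (j := 4) (k := 5) (by decide) (by decide) (by decide)), ?_⟩
  refine List.forall_mem_cons.2 ⟨nh_inv (mf_inv e23 e24 e34) e23 e24 (G.heron (i := 2) (j := 3) (k := 4) (by decide) (by decide) (by decide)), ?_⟩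
  refine List.forall_mem_cons.2 ⟨nh_inv (mf_inv e23 e25 e35) e23 e25 (G.heron (i := 2) (j := 3) (k := 5) (by decide) (by decide) (by decide)), ?_⟩
  refine List.forall_mem_cons.2 ⟨nh_inv (mf_inv e24 e25 e45) e24 e25 (G.heron (i := 2) (j := 4) (k := 5) (by decide) (by decide) (by decide)), ?_⟩
  refine List.forall_mem_cons.2 ⟨nh_inv (mf_inv e34 e35 e45) e34 e35 (G.heron (i := 3) (j := 4) (k := 5) (by decide) (by decide) (by decide)), ?_⟩
  exact List.forall_mem_nil _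

end

end Ker
end CR
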