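import Pool.Agent.Lib.MP_6f5d36_co.CertG6

set_option autoImplicit false
set_option linter.all false

/-!
# MP_6f5d36_co : the lists of minors and Heron forms of 7 points
-/

namespace CR
namespace Ker

open Finset

section

variable {q : ℕ} {w : Fin q → ℕ} {b K : ℕ} {x : Fin q → ℝ} {g : ℕ → ℕ → ℝ}

theorem g6b_ok (hg : Rk2 g)
    {m00 m01 m02 m03 m04 m05 m11 m12 m13 m14 m15 m22 m23 m24 m25 m33 m34 m35 q0112 q0113 q0114
    q0115 q0212 q0213 q0214 q0215 q0223 q0224 q0225 q0312 q0313 q0314 q0315 q0323 q0324 q0325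
    q0334 q0335 q0412 q0413 q0414 q0415 q0423 q0424 q0425 q0434 q0435 q0445 q0512 q0513 q0514
    q0515 q0523 q0524 q0525 q0534 q0535 q0545 q1212 q1213 q1214 q1215 q1223 q1224 q1225 q1234
    q1235 q1245 q1313 q1314 q1315 q1323 q1324 q1325 q1334 q1335 q1345 q1414 q1415 q1423 q1424
    q1425 q1434 q1435 q1445 q1515 q1523 q1524 q1525 q1534 q1535 q1545 q2323 q2324 q2325 q2334
    q2335 q2345 q2424 q2425 q2434 q2435 q2445 q2525 q2534 q2535 q2545 q3434 q3435 q3445 q3535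
    q3545 q4545 : ℕ}
    (h00 : ME w b K x g 0 0 m00)
    (h01 : ME w b K x g 0 1 m01)
    (h02 : ME w b K x g 0 2 m02)
    (h03 : ME w b K x g 0 3 m03)
    (h04 : ME w b K x g 0 4 m04)
    (h05 : ME w b K x g 0 5 m05)
    (h11 : ME w b K x g 1 1 m11)
    (h12 : ME w b K x g 1 2 m12)
    (h13 : ME w b K x g 1 3 m13)
    (h14 : ME w b K x g 1 4 m14)
    (h15 : ME w b K x g 1 5 m15)
    (h22 : ME w b K x g 2 2 m22)
    (h23 : ME w b K x g 2 3 m23)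
    (h24 : ME w b K x g 2 4 m24)
    (h25 : ME w b K x g 2 5 m25)
    (h33 : ME w b K x g 3 3 m33)
    (h34 : ME w b K x g 3 4 m34)
    (h35 : ME w b K x g 3 5 m35)
    (k0112 : QE w b K x g 0 1 1 2 q0112)
    (k0113 : QE w b K x g 0 1 1 3 q0113)
    (k0114 : QE w b K x g 0 1 1 4 q0114)
    (k0115 : QE w b K x g 0 1 1 5 q0115)
    (k0212 : QE w b K x g 0 2 1 2 q0212)
    (k0213 : QE w b K x g 0 2 1 3 q0213)
    (k0214 : QE w b K x g 0 2 1 4 q0214)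
    (k0215 : QE w b K x g 0 2 1 5 q0215)
    (k0223 : QE w b K x g 0 2 2 3 q0223)
    (k0224 : QE w b K x g 0 2 2 4 q0224)
    (k0225 : QE w b K x g 0 2 2 5 q0225)
    (k0312 : QE w b K x g 0 3 1 2 q0312)
    (k0313 : QE w b K x g 0 3 1 3 q0313)
    (k0314 : QE w b K x g 0 3 1 4 q0314)
    (k0315 : QE w b K x g 0 3 1 5 q0315)
    (k0323 : QE w b K x g 0 3 2 3 q0323)
    (k0324 : QE w b K x g 0 3 2 4 q0324)
    (k0325 : QE w b K x g 0 3 2 5 q0325)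
    (k0334 : QE w b K x g 0 3 3 4 q0334)
    (k0335 : QE w b K x g 0 3 3 5 q0335)
    (k0412 : QE w b K x g 0 4 1 2 q0412)
    (k0413 : QE w b K x g 0 4 1 3 q0413)
    (k0414 : QE w b K x g 0 4 1 4 q0414)
    (k0415 : QE w b K x g 0 4 1 5 q0415)
    (k0423 : QE w b K x g 0 4 2 3 q0423)
    (k0424 : QE w b K x g 0 4 2 4 q0424)
    (k0425 : QE w b K x g 0 4 2 5 q0425)
    (k0434 : QE w b K x g 0 4 3 4 q0434)
    (k0435 : QE w b K x g 0 4 3 5 q0435)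
    (k0445 : QE w b K x g 0 4 4 5 q0445)
    (k0512 : QE w b K x g 0 5 1 2 q0512)
    (k0513 : QE w b K x g 0 5 1 3 q0513)
    (k0514 : QE w b K x g 0 5 1 4 q0514)
    (k0515 : QE w b K x g 0 5 1 5 q0515)
    (k0523 : QE w b K x g 0 5 2 3 q0523)
    (k0524 : QE w b K x g 0 5 2 4 q0524)
    (k0525 : QE w b K x g 0 5 2 5 q0525)
    (k0534 : QE w b K x g 0 5 3 4 q0534)
    (k0535 : QE w b K x g 0 5 3 5 q0535)
    (k0545 : QE w b K x g 0 5 4 5 q0545)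
    (k1212 : QE w b K x g 1 2 1 2 q1212)
    (k1213 : QE w b K x g 1 2 1 3 q1213)
    (k1214 : QE w b K x g 1 2 1 4 q1214)
    (k1215 : QE w b K x g 1 2 1 5 q1215)
    (k1223 : QE w b K x g 1 2 2 3 q1223)
    (k1224 : QE w b K x g 1 2 2 4 q1224)
    (k1225 : QE w b K x g 1 2 2 5 q1225)
    (k1234 : QE w b K x g 1 2 3 4 q1234)
    (k1235 : QE w b K x g 1 2 3 5 q1235)
    (k1245 : QE w b K x g 1 2 4 5 q1245)
    (k1313 : QE w b K x g 1 3 1 3 q1313)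
    (k1314 : QE w b K x g 1 3 1 4 q1314)
    (k1315 : QE w b K x g 1 3 1 5 q1315)
    (k1323 : QE w b K x g 1 3 2 3 q1323)
    (k1324 : QE w b K x g 1 3 2 4 q1324)
    (k1325 : QE w b K x g 1 3 2 5 q1325)
    (k1334 : QE w b K x g 1 3 3 4 q1334)
    (k1335 : QE w b K x g 1 3 3 5 q1335)
    (k1345 : QE w b K x g 1 3 4 5 q1345)
    (k1414 : QE w b K x g 1 4 1 4 q1414)
    (k1415 : QE w b K x g 1 4 1 5 q1415)
    (k1423 : QE w b K x g 1 4 2 3 q1423)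
    (k1424 : QE w b K x g 1 4 2 4 q1424)
    (k1425 : QE w b K x g 1 4 2 5 q1425)
    (k1434 : QE w b K x g 1 4 3 4 q1434)
    (k1435 : QE w b K x g 1 4 3 5 q1435)
    (k1445 : QE w b K x g 1 4 4 5 q1445)
    (k1515 : QE w b K x g 1 5 1 5 q1515)
    (k1523 : QE w b K x g 1 5 2 3 q1523)
    (k1524 : QE w b K x g 1 5 2 4 q1524)
    (k1525 : QE w b K x g 1 5 2 5 q1525)
    (k1534 : QE w b K x g 1 5 3 4 q1534)
    (k1535 : QE w b K x g 1 5 3 5 q1535)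
    (k1545 : QE w b K x g 1 5 4 5 q1545)
    (k2323 : QE w b K x g 2 3 2 3 q2323)
    (k2324 : QE w b K x g 2 3 2 4 q2324)
    (k2325 : QE w b K x g 2 3 2 5 q2325)
    (k2334 : QE w b K x g 2 3 3 4 q2334)
    (k2335 : QE w b K x g 2 3 3 5 q2335)
    (k2345 : QE w b K x g 2 3 4 5 q2345)
    (k2424 : QE w b K x g 2 4 2 4 q2424)
    (k2425 : QE w b K x g 2 4 2 5 q2425)
    (k2434 : QE w b K x g 2 4 3 4 q2434)
    (k2435 : QE w b K x g 2 4 3 5 q2435)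
    (k2445 : QE w b K x g 2 4 4 5 q2445)
    (k2525 : QE w b K x g 2 5 2 5 q2525)
    (k2534 : QE w b K x g 2 5 3 4 q2534)
    (k2535 : QE w b K x g 2 5 3 5 q2535)
    (k2545 : QE w b K x g 2 5 4 5 q2545)
    (k3434 : QE w b K x g 3 4 3 4 q3434)
    (k3435 : QE w b K x g 3 4 3 5 q3435)
    (k3445 : QE w b K x g 3 4 4 5 q3445)
    (k3535 : QE w b K x g 3 5 3 5 q3535)
    (k3545 : QE w b K x g 3 5 4 5 q3545)
    (k4545 : QE w b K x g 4 5 4 5 q4545) :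
    ∀ a ∈ g6b (2 ^ K)
      m00 m01 m02 m03 m04 m05 m11 m12 m13 m14 m15 m22 m23 m24 m25 m33 m34 m35 q0112 q0113 q0114
      q0115 q0212 q0213 q0214 q0215 q0223 q0224 q0225 q0312 q0313 q0314 q0315 q0323 q0324 q0325
      q0334 q0335 q0412 q0413 q0414 q0415 q0423 q0424 q0425 q0434 q0435 q0445 q0512 q0513 q0514
      q0515 q0523 q0524 q0525 q0534 q0535 q0545 q1212 q1213 q1214 q1215 q1223 q1224 q1225 q1234
      q1235 q1245 q1313 q1314 q1315 q1323 q1324 q1325 q1334 q1335 q1345 q1414 q1415 q1423 q1424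
      q1425 q1434 q1435 q1445 q1515 q1523 q1524 q1525 q1534 q1535 q1545 q2323 q2324 q2325 q2334
      q2335 q2345 q2424 q2425 q2434 q2435 q2445 q2525 q2534 q2535 q2545 q3434 q3435 q3445 q3535
      q3545 q4545,
      ZV w b K x a := by
  unfold g6b
  refine List.forall_mem_cons.2 ⟨mkD hg h00 h01 h02 k1212 (k0212.t hg) (k0112.t hg), ?_⟩
  refine List.forall_mem_cons.2 ⟨mkD hg h00 h01 h03 k1213 (k0312.t hg) (k0112.t hg), ?_⟩
  refine List.forall_mem_cons.2 ⟨mkD hg h00 h01 h04 k1214 (k0412.t hg) (k0112.t hg), ?_⟩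
  refine List.forall_mem_cons.2 ⟨mkD hg h00 h01 h05 k1215 (k0512.t hg) (k0112.t hg), ?_⟩
  refine List.forall_mem_cons.2 ⟨mkD hg h00 h02 h03 k1223 (k0312.t hg) (k0212.t hg), ?_⟩
  refine List.forall_mem_cons.2 ⟨mkD hg h00 h02 h04 k1224 (k0412.t hg) (k0212.t hg), ?_⟩
  refine List.forall_mem_cons.2 ⟨mkD hg h00 h02 h05 k1225 (k0512.t hg) (k0212.t hg), ?_⟩
  refine List.forall_mem_cons.2 ⟨mkD hg h00 h03 h04 k1234 (k0412.t hg) (k0312.t hg), ?_⟩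
  refine List.forall_mem_cons.2 ⟨mkD hg h00 h03 h05 k1235 (k0512.t hg) (k0312.t hg), ?_⟩
  refine List.forall_mem_cons.2 ⟨mkD hg h00 h04 h05 k1245 (k0512.t hg) (k0412.t hg), ?_⟩
  refine List.forall_mem_cons.2 ⟨mkD hg h01 h02 h03 k1223 k1213 k1212, ?_⟩
  refine List.forall_mem_cons.2 ⟨mkD hg h01 h02 h04 k1224 k1214 k1212, ?_⟩
  refine List.forall_mem_cons.2 ⟨mkD hg h01 h02 h05 k1225 k1215 k1212, ?_⟩
  refine List.forall_mem_cons.2 ⟨mkD hg h01 h03 h04 k1234 k1214 k1213, ?_⟩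
  refine List.forall_mem_cons.2 ⟨mkD hg h01 h03 h05 k1235 k1215 k1213, ?_⟩
  refine List.forall_mem_cons.2 ⟨mkD hg h01 h04 h05 k1245 k1215 k1214, ?_⟩
  refine List.forall_mem_cons.2 ⟨mkD hg h02 h03 h04 k1234 k1224 k1223, ?_⟩
  refine List.forall_mem_cons.2 ⟨mkD hg h02 h03 h05 k1235 k1225 k1223, ?_⟩
  refine List.forall_mem_cons.2 ⟨mkD hg h02 h04 h05 k1245 k1225 k1224, ?_⟩
  refine List.forall_mem_cons.2 ⟨mkD hg h03 h04 h05 k1245 k1235 k1234, ?_⟩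
  refine List.forall_mem_cons.2 ⟨mkD hg h00 h01 h03 k1313 (k0313.t hg) (k0113.t hg), ?_⟩
  refine List.forall_mem_cons.2 ⟨mkD hg h00 h01 h04 k1314 (k0413.t hg) (k0113.t hg), ?_⟩
  refine List.forall_mem_cons.2 ⟨mkD hg h00 h01 h05 k1315 (k0513.t hg) (k0113.t hg), ?_⟩
  refine List.forall_mem_cons.2 ⟨mkD hg h00 h02 h03 k1323 (k0313.t hg) (k0213.t hg), ?_⟩
  refine List.forall_mem_cons.2 ⟨mkD hg h00 h02 h04 k1324 (k0413.t hg) (k0213.t hg), ?_⟩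
  refine List.forall_mem_cons.2 ⟨mkD hg h00 h02 h05 k1325 (k0513.t hg) (k0213.t hg), ?_⟩
  refine List.forall_mem_cons.2 ⟨mkD hg h00 h03 h04 k1334 (k0413.t hg) (k0313.t hg), ?_⟩
  refine List.forall_mem_cons.2 ⟨mkD hg h00 h03 h05 k1335 (k0513.t hg) (k0313.t hg), ?_⟩
  refine List.forall_mem_cons.2 ⟨mkD hg h00 h04 h05 k1345 (k0513.t hg) (k0413.t hg), ?_⟩
  refine List.forall_mem_cons.2 ⟨mkD hg h01 h02 h03 k1323 k1313 (k1213.t hg), ?_⟩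
  refine List.forall_mem_cons.2 ⟨mkD hg h01 h02 h04 k1324 k1314 (k1213.t hg), ?_⟩
  refine List.forall_mem_cons.2 ⟨mkD hg h01 h02 h05 k1325 k1315 (k1213.t hg), ?_⟩
  refine List.forall_mem_cons.2 ⟨mkD hg h01 h03 h04 k1334 k1314 k1313, ?_⟩
  refine List.forall_mem_cons.2 ⟨mkD hg h01 h03 h05 k1335 k1315 k1313, ?_⟩
  refine List.forall_mem_cons.2 ⟨mkD hg h01 h04 h05 k1345 k1315 k1314, ?_⟩
  refine List.forall_mem_cons.2 ⟨mkD hg h02 h03 h04 k1334 k1324 k1323, ?_⟩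
  refine List.forall_mem_cons.2 ⟨mkD hg h02 h03 h05 k1335 k1325 k1323, ?_⟩
  refine List.forall_mem_cons.2 ⟨mkD hg h02 h04 h05 k1345 k1325 k1324, ?_⟩
  refine List.forall_mem_cons.2 ⟨mkD hg h03 h04 h05 k1345 k1335 k1334, ?_⟩
  refine List.forall_mem_cons.2 ⟨mkD hg h00 h01 h04 k1414 (k0414.t hg) (k0114.t hg), ?_⟩
  refine List.forall_mem_cons.2 ⟨mkD hg h00 h01 h05 k1415 (k0514.t hg) (k0114.t hg), ?_⟩
  refine List.forall_mem_cons.2 ⟨mkD hg h00 h02 h03 k1423 (k0314.t hg) (k0214.t hg), ?_⟩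
  refine List.forall_mem_cons.2 ⟨mkD hg h00 h02 h04 k1424 (k0414.t hg) (k0214.t hg), ?_⟩
  refine List.forall_mem_cons.2 ⟨mkD hg h00 h02 h05 k1425 (k0514.t hg) (k0214.t hg), ?_⟩
  refine List.forall_mem_cons.2 ⟨mkD hg h00 h03 h04 k1434 (k0414.t hg) (k0314.t hg), ?_⟩
  refine List.forall_mem_cons.2 ⟨mkD hg h00 h03 h05 k1435 (k0514.t hg) (k0314.t hg), ?_⟩
  refine List.forall_mem_cons.2 ⟨mkD hg h00 h04 h05 k1445 (k0514.t hg) (k0414.t hg), ?_⟩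
  refine List.forall_mem_cons.2 ⟨mkD hg h01 h02 h03 k1423 (k1314.t hg) (k1214.t hg), ?_⟩
  refine List.forall_mem_cons.2 ⟨mkD hg h01 h02 h04 k1424 k1414 (k1214.t hg), ?_⟩
  refine List.forall_mem_cons.2 ⟨mkD hg h01 h02 h05 k1425 k1415 (k1214.t hg), ?_⟩
  refine List.forall_mem_cons.2 ⟨mkD hg h01 h03 h04 k1434 k1414 (k1314.t hg), ?_⟩
  refine List.forall_mem_cons.2 ⟨mkD hg h01 h03 h05 k1435 k1415 (k1314.t hg), ?_⟩
  refine List.forall_mem_cons.2 ⟨mkD hg h01 h04 h05 k1445 k1415 k1414, ?_⟩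
  refine List.forall_mem_cons.2 ⟨mkD hg h02 h03 h04 k1434 k1424 k1423, ?_⟩
  refine List.forall_mem_cons.2 ⟨mkD hg h02 h03 h05 k1435 k1425 k1423, ?_⟩
  refine List.forall_mem_cons.2 ⟨mkD hg h02 h04 h05 k1445 k1425 k1424, ?_⟩
  refine List.forall_mem_cons.2 ⟨mkD hg h03 h04 h05 k1445 k1435 k1434, ?_⟩
  refine List.forall_mem_cons.2 ⟨mkD hg h00 h01 h05 k1515 (k0515.t hg) (k0115.t hg), ?_⟩
  refine List.forall_mem_cons.2 ⟨mkD hg h00 h02 h03 k1523 (k0315.t hg) (k0215.t hg), ?_⟩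
  refine List.forall_mem_cons.2 ⟨mkD hg h00 h02 h04 k1524 (k0415.t hg) (k0215.t hg), ?_⟩
  refine List.forall_mem_cons.2 ⟨mkD hg h00 h02 h05 k1525 (k0515.t hg) (k0215.t hg), ?_⟩
  refine List.forall_mem_cons.2 ⟨mkD hg h00 h03 h04 k1534 (k0415.t hg) (k0315.t hg), ?_⟩
  refine List.forall_mem_cons.2 ⟨mkD hg h00 h03 h05 k1535 (k0515.t hg) (k0315.t hg), ?_⟩
  refine List.forall_mem_cons.2 ⟨mkD hg h00 h04 h05 k1545 (k0515.t hg) (k0415.t hg), ?_⟩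
  refine List.forall_mem_cons.2 ⟨mkD hg h01 h02 h03 k1523 (k1315.t hg) (k1215.t hg), ?_⟩
  refine List.forall_mem_cons.2 ⟨mkD hg h01 h02 h04 k1524 (k1415.t hg) (k1215.t hg), ?_⟩
  refine List.forall_mem_cons.2 ⟨mkD hg h01 h02 h05 k1525 k1515 (k1215.t hg), ?_⟩
  refine List.forall_mem_cons.2 ⟨mkD hg h01 h03 h04 k1534 (k1415.t hg) (k1315.t hg), ?_⟩
  refine List.forall_mem_cons.2 ⟨mkD hg h01 h03 h05 k1535 k1515 (k1315.t hg), ?_⟩
  refine List.forall_mem_cons.2 ⟨mkD hg h01 h04 h05 k1545 k1515 (k1415.t hg), ?_⟩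
  refine List.forall_mem_cons.2 ⟨mkD hg h02 h03 h04 k1534 k1524 k1523, ?_⟩
  refine List.forall_mem_cons.2 ⟨mkD hg h02 h03 h05 k1535 k1525 k1523, ?_⟩
  refine List.forall_mem_cons.2 ⟨mkD hg h02 h04 h05 k1545 k1525 k1524, ?_⟩
  refine List.forall_mem_cons.2 ⟨mkD hg h03 h04 h05 k1545 k1535 k1534, ?_⟩
  refine List.forall_mem_cons.2 ⟨mkD hg h00 h02 h03 k2323 (k0323.t hg) (k0223.t hg), ?_⟩
  refine List.forall_mem_cons.2 ⟨mkD hg h00 h02 h04 k2324 (k0423.t hg) (k0223.t hg), ?_⟩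
  refine List.forall_mem_cons.2 ⟨mkD hg h00 h02 h05 k2325 (k0523.t hg) (k0223.t hg), ?_⟩
  refine List.forall_mem_cons.2 ⟨mkD hg h00 h03 h04 k2334 (k0423.t hg) (k0323.t hg), ?_⟩
  refine List.forall_mem_cons.2 ⟨mkD hg h00 h03 h05 k2335 (k0523.t hg) (k0323.t hg), ?_⟩
  refine List.forall_mem_cons.2 ⟨mkD hg h00 h04 h05 k2345 (k0523.t hg) (k0423.t hg), ?_⟩
  refine List.forall_mem_cons.2 ⟨mkD hg h01 h02 h03 k2323 (k1323.t hg) (k1223.t hg), ?_⟩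
  refine List.forall_mem_cons.2 ⟨mkD hg h01 h02 h04 k2324 (k1423.t hg) (k1223.t hg), ?_⟩
  refine List.forall_mem_cons.2 ⟨mkD hg h01 h02 h05 k2325 (k1523.t hg) (k1223.t hg), ?_⟩
  refine List.forall_mem_cons.2 ⟨mkD hg h01 h03 h04 k2334 (k1423.t hg) (k1323.t hg), ?_⟩
  refine List.forall_mem_cons.2 ⟨mkD hg h01 h03 h05 k2335 (k1523.t hg) (k1323.t hg), ?_⟩
  refine List.forall_mem_cons.2 ⟨mkD hg h01 h04 h05 k2345 (k1523.t hg) (k1423.t hg), ?_⟩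
  refine List.forall_mem_cons.2 ⟨mkD hg h02 h03 h04 k2334 k2324 k2323, ?_⟩
  refine List.forall_mem_cons.2 ⟨mkD hg h02 h03 h05 k2335 k2325 k2323, ?_⟩
  refine List.forall_mem_cons.2 ⟨mkD hg h02 h04 h05 k2345 k2325 k2324, ?_⟩
  refine List.forall_mem_cons.2 ⟨mkD hg h03 h04 h05 k2345 k2335 k2334, ?_⟩
  refine List.forall_mem_cons.2 ⟨mkD hg h00 h02 h04 k2424 (k0424.t hg) (k0224.t hg), ?_⟩
  refine List.forall_mem_cons.2 ⟨mkD hg h00 h02 h05 k2425 (k0524.t hg) (k0224.t hg), ?_⟩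
  refine List.forall_mem_cons.2 ⟨mkD hg h00 h03 h04 k2434 (k0424.t hg) (k0324.t hg), ?_⟩
  refine List.forall_mem_cons.2 ⟨mkD hg h00 h03 h05 k2435 (k0524.t hg) (k0324.t hg), ?_⟩
  refine List.forall_mem_cons.2 ⟨mkD hg h00 h04 h05 k2445 (k0524.t hg) (k0424.t hg), ?_⟩
  refine List.forall_mem_cons.2 ⟨mkD hg h01 h02 h03 (k2324.t hg) (k1324.t hg) (k1224.t hg), ?_⟩
  refine List.forall_mem_cons.2 ⟨mkD hg h01 h02 h04 k2424 (k1424.t hg) (k1224.t hg), ?_⟩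
  refine List.forall_mem_cons.2 ⟨mkD hg h01 h02 h05 k2425 (k1524.t hg) (k1224.t hg), ?_⟩
  refine List.forall_mem_cons.2 ⟨mkD hg h01 h03 h04 k2434 (k1424.t hg) (k1324.t hg), ?_⟩
  refine List.forall_mem_cons.2 ⟨mkD hg h01 h03 h05 k2435 (k1524.t hg) (k1324.t hg), ?_⟩
  refine List.forall_mem_cons.2 ⟨mkD hg h01 h04 h05 k2445 (k1524.t hg) (k1424.t hg), ?_⟩
  refine List.forall_mem_cons.2 ⟨mkD hg h02 h03 h04 k2434 k2424 (k2324.t hg), ?_⟩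
  refine List.forall_mem_cons.2 ⟨mkD hg h02 h03 h05 k2435 k2425 (k2324.t hg), ?_⟩
  refine List.forall_mem_cons.2 ⟨mkD hg h02 h04 h05 k2445 k2425 k2424, ?_⟩
  refine List.forall_mem_cons.2 ⟨mkD hg h03 h04 h05 k2445 k2435 k2434, ?_⟩
  refine List.forall_mem_cons.2 ⟨mkD hg h00 h02 h05 k2525 (k0525.t hg) (k0225.t hg), ?_⟩
  refine List.forall_mem_cons.2 ⟨mkD hg h00 h03 h04 k2534 (k0425.t hg) (k0325.t hg), ?_⟩
  refine List.forall_mem_cons.2 ⟨mkD hg h00 h03 h05 k2535 (k0525.t hg) (k0325.t hg), ?_⟩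
  refine List.forall_mem_cons.2 ⟨mkD hg h00 h04 h05 k2545 (k0525.t hg) (k0425.t hg), ?_⟩
  refine List.forall_mem_cons.2 ⟨mkD hg h01 h02 h03 (k2325.t hg) (k1325.t hg) (k1225.t hg), ?_⟩
  refine List.forall_mem_cons.2 ⟨mkD hg h01 h02 h04 (k2425.t hg) (k1425.t hg) (k1225.t hg), ?_⟩
  refine List.forall_mem_cons.2 ⟨mkD hg h01 h02 h05 k2525 (k1525.t hg) (k1225.t hg), ?_⟩
  refine List.forall_mem_cons.2 ⟨mkD hg h01 h03 h04 k2534 (k1425.t hg) (k1325.t hg), ?_⟩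
  refine List.forall_mem_cons.2 ⟨mkD hg h01 h03 h05 k2535 (k1525.t hg) (k1325.t hg), ?_⟩
  refine List.forall_mem_cons.2 ⟨mkD hg h01 h04 h05 k2545 (k1525.t hg) (k1425.t hg), ?_⟩
  refine List.forall_mem_cons.2 ⟨mkD hg h02 h03 h04 k2534 (k2425.t hg) (k2325.t hg), ?_⟩
  refine List.forall_mem_cons.2 ⟨mkD hg h02 h03 h05 k2535 k2525 (k2325.t hg), ?_⟩
  refine List.forall_mem_cons.2 ⟨mkD hg h02 h04 h05 k2545 k2525 (k2425.t hg), ?_⟩
  refine List.forall_mem_cons.2 ⟨mkD hg h03 h04 h05 k2545 k2535 k2534, ?_⟩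
  refine List.forall_mem_cons.2 ⟨mkD hg h00 h03 h04 k3434 (k0434.t hg) (k0334.t hg), ?_⟩
  refine List.forall_mem_cons.2 ⟨mkD hg h00 h03 h05 k3435 (k0534.t hg) (k0334.t hg), ?_⟩
  refine List.forall_mem_cons.2 ⟨mkD hg h00 h04 h05 k3445 (k0534.t hg) (k0434.t hg), ?_⟩
  refine List.forall_mem_cons.2 ⟨mkD hg h01 h02 h03 (k2334.t hg) (k1334.t hg) (k1234.t hg), ?_⟩
  refine List.forall_mem_cons.2 ⟨mkD hg h01 h02 h04 (k2434.t hg) (k1434.t hg) (k1234.t hg), ?_⟩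
  refine List.forall_mem_cons.2 ⟨mkD hg h01 h02 h05 (k2534.t hg) (k1534.t hg) (k1234.t hg), ?_⟩
  refine List.forall_mem_cons.2 ⟨mkD hg h01 h03 h04 k3434 (k1434.t hg) (k1334.t hg), ?_⟩
  refine List.forall_mem_cons.2 ⟨mkD hg h01 h03 h05 k3435 (k1534.t hg) (k1334.t hg), ?_⟩
  refine List.forall_mem_cons.2 ⟨mkD hg h01 h04 h05 k3445 (k1534.t hg) (k1434.t hg), ?_⟩
  refine List.forall_mem_cons.2 ⟨mkD hg h02 h03 h04 k3434 (k2434.t hg) (k2334.t hg), ?_⟩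
  refine List.forall_mem_cons.2 ⟨mkD hg h02 h03 h05 k3435 (k2534.t hg) (k2334.t hg), ?_⟩
  refine List.forall_mem_cons.2 ⟨mkD hg h02 h04 h05 k3445 (k2534.t hg) (k2434.t hg), ?_⟩
  refine List.forall_mem_cons.2 ⟨mkD hg h03 h04 h05 k3445 k3435 k3434, ?_⟩
  refine List.forall_mem_cons.2 ⟨mkD hg h00 h03 h05 k3535 (k0535.t hg) (k0335.t hg), ?_⟩
  refine List.forall_mem_cons.2 ⟨mkD hg h00 h04 h05 k3545 (k0535.t hg) (k0435.t hg), ?_⟩
  refine List.forall_mem_cons.2 ⟨mkD hg h01 h02 h03 (k2335.t hg) (k1335.t hg) (k1235.t hg), ?_⟩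
  refine List.forall_mem_cons.2 ⟨mkD hg h01 h02 h04 (k2435.t hg) (k1435.t hg) (k1235.t hg), ?_⟩
  refine List.forall_mem_cons.2 ⟨mkD hg h01 h02 h05 (k2535.t hg) (k1535.t hg) (k1235.t hg), ?_⟩
  refine List.forall_mem_cons.2 ⟨mkD hg h01 h03 h04 (k3435.t hg) (k1435.t hg) (k1335.t hg), ?_⟩
  refine List.forall_mem_cons.2 ⟨mkD hg h01 h03 h05 k3535 (k1535.t hg) (k1335.t hg), ?_⟩
  refine List.forall_mem_cons.2 ⟨mkD hg h01 h04 h05 k3545 (k1535.t hg) (k1435.t hg), ?_⟩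
  refine List.forall_mem_cons.2 ⟨mkD hg h02 h03 h04 (k3435.t hg) (k2435.t hg) (k2335.t hg), ?_⟩
  refine List.forall_mem_cons.2 ⟨mkD hg h02 h03 h05 k3535 (k2535.t hg) (k2335.t hg), ?_⟩
  refine List.forall_mem_cons.2 ⟨mkD hg h02 h04 h05 k3545 (k2535.t hg) (k2435.t hg), ?_⟩
  refine List.forall_mem_cons.2 ⟨mkD hg h03 h04 h05 k3545 k3535 (k3435.t hg), ?_⟩
  refine List.forall_mem_cons.2 ⟨mkD hg h00 h04 h05 k4545 (k0545.t hg) (k0445.t hg), ?_⟩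
  refine List.forall_mem_cons.2 ⟨mkD hg h01 h02 h03 (k2345.t hg) (k1345.t hg) (k1245.t hg), ?_⟩
  refine List.forall_mem_cons.2 ⟨mkD hg h01 h02 h04 (k2445.t hg) (k1445.t hg) (k1245.t hg), ?_⟩
  refine List.forall_mem_cons.2 ⟨mkD hg h01 h02 h05 (k2545.t hg) (k1545.t hg) (k1245.t hg), ?_⟩
  refine List.forall_mem_cons.2 ⟨mkD hg h01 h03 h04 (k3445.t hg) (k1445.t hg) (k1345.t hg), ?_⟩
  refine List.forall_mem_cons.2 ⟨mkD hg h01 h03 h05 (k3545.t hg) (k1545.t hg) (k1345.t hg), ?_⟩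
  refine List.forall_mem_cons.2 ⟨mkD hg h01 h04 h05 k4545 (k1545.t hg) (k1445.t hg), ?_⟩
  refine List.forall_mem_cons.2 ⟨mkD hg h02 h03 h04 (k3445.t hg) (k2445.t hg) (k2345.t hg), ?_⟩
  refine List.forall_mem_cons.2 ⟨mkD hg h02 h03 h05 (k3545.t hg) (k2545.t hg) (k2345.t hg), ?_⟩
  refine List.forall_mem_cons.2 ⟨mkD hg h02 h04 h05 k4545 (k2545.t hg) (k2445.t hg), ?_⟩
  refine List.forall_mem_cons.2 ⟨mkD hg h03 h04 h05 k4545 (k3545.t hg) (k3445.t hg), ?_⟩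
  refine List.forall_mem_cons.2 ⟨mkD hg h11 h12 h13 k2323 (k1323.t hg) (k1223.t hg), ?_⟩
  refine List.forall_mem_cons.2 ⟨mkD hg h11 h12 h14 k2324 (k1423.t hg) (k1223.t hg), ?_⟩
  refine List.forall_mem_cons.2 ⟨mkD hg h11 h12 h15 k2325 (k1523.t hg) (k1223.t hg), ?_⟩
  refine List.forall_mem_cons.2 ⟨mkD hg h11 h13 h14 k2334 (k1423.t hg) (k1323.t hg), ?_⟩
  refine List.forall_mem_cons.2 ⟨mkD hg h11 h13 h15 k2335 (k1523.t hg) (k1323.t hg), ?_⟩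
  refine List.forall_mem_cons.2 ⟨mkD hg h11 h14 h15 k2345 (k1523.t hg) (k1423.t hg), ?_⟩
  refine List.forall_mem_cons.2 ⟨mkD hg h12 h13 h14 k2334 k2324 k2323, ?_⟩
  refine List.forall_mem_cons.2 ⟨mkD hg h12 h13 h15 k2335 k2325 k2323, ?_⟩
  refine List.forall_mem_cons.2 ⟨mkD hg h12 h14 h15 k2345 k2325 k2324, ?_⟩
  refine List.forall_mem_cons.2 ⟨mkD hg h13 h14 h15 k2345 k2335 k2334, ?_⟩
  refine List.forall_mem_cons.2 ⟨mkD hg h11 h12 h14 k2424 (k1424.t hg) (k1224.t hg), ?_⟩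
  refine List.forall_mem_cons.2 ⟨mkD hg h11 h12 h15 k2425 (k1524.t hg) (k1224.t hg), ?_⟩
  refine List.forall_mem_cons.2 ⟨mkD hg h11 h13 h14 k2434 (k1424.t hg) (k1324.t hg), ?_⟩
  refine List.forall_mem_cons.2 ⟨mkD hg h11 h13 h15 k2435 (k1524.t hg) (k1324.t hg), ?_⟩
  refine List.forall_mem_cons.2 ⟨mkD hg h11 h14 h15 k2445 (k1524.t hg) (k1424.t hg), ?_⟩
  refine List.forall_mem_cons.2 ⟨mkD hg h12 h13 h14 k2434 k2424 (k2324.t hg), ?_⟩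
  refine List.forall_mem_cons.2 ⟨mkD hg h12 h13 h15 k2435 k2425 (k2324.t hg), ?_⟩
  refine List.forall_mem_cons.2 ⟨mkD hg h12 h14 h15 k2445 k2425 k2424, ?_⟩
  refine List.forall_mem_cons.2 ⟨mkD hg h13 h14 h15 k2445 k2435 k2434, ?_⟩
  refine List.forall_mem_cons.2 ⟨mkD hg h11 h12 h15 k2525 (k1525.t hg) (k1225.t hg), ?_⟩
  refine List.forall_mem_cons.2 ⟨mkD hg h11 h13 h14 k2534 (k1425.t hg) (k1325.t hg), ?_⟩
  refine List.forall_mem_cons.2 ⟨mkD hg h11 h13 h15 k2535 (k1525.t hg) (k1325.t hg), ?_⟩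
  refine List.forall_mem_cons.2 ⟨mkD hg h11 h14 h15 k2545 (k1525.t hg) (k1425.t hg), ?_⟩
  refine List.forall_mem_cons.2 ⟨mkD hg h12 h13 h14 k2534 (k2425.t hg) (k2325.t hg), ?_⟩
  refine List.forall_mem_cons.2 ⟨mkD hg h12 h13 h15 k2535 k2525 (k2325.t hg), ?_⟩
  refine List.forall_mem_cons.2 ⟨mkD hg h12 h14 h15 k2545 k2525 (k2425.t hg), ?_⟩
  refine List.forall_mem_cons.2 ⟨mkD hg h13 h14 h15 k2545 k2535 k2534, ?_⟩
  refine List.forall_mem_cons.2 ⟨mkD hg h11 h13 h14 k3434 (k1434.t hg) (k1334.t hg), ?_⟩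
  refine List.forall_mem_cons.2 ⟨mkD hg h11 h13 h15 k3435 (k1534.t hg) (k1334.t hg), ?_⟩
  refine List.forall_mem_cons.2 ⟨mkD hg h11 h14 h15 k3445 (k1534.t hg) (k1434.t hg), ?_⟩
  refine List.forall_mem_cons.2 ⟨mkD hg h12 h13 h14 k3434 (k2434.t hg) (k2334.t hg), ?_⟩
  refine List.forall_mem_cons.2 ⟨mkD hg h12 h13 h15 k3435 (k2534.t hg) (k2334.t hg), ?_⟩
  refine List.forall_mem_cons.2 ⟨mkD hg h12 h14 h15 k3445 (k2534.t hg) (k2434.t hg), ?_⟩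
  refine List.forall_mem_cons.2 ⟨mkD hg h13 h14 h15 k3445 k3435 k3434, ?_⟩
  refine List.forall_mem_cons.2 ⟨mkD hg h11 h13 h15 k3535 (k1535.t hg) (k1335.t hg), ?_⟩
  refine List.forall_mem_cons.2 ⟨mkD hg h11 h14 h15 k3545 (k1535.t hg) (k1435.t hg), ?_⟩
  refine List.forall_mem_cons.2 ⟨mkD hg h12 h13 h14 (k3435.t hg) (k2435.t hg) (k2335.t hg), ?_⟩
  refine List.forall_mem_cons.2 ⟨mkD hg h12 h13 h15 k3535 (k2535.t hg) (k2335.t hg), ?_⟩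
  refine List.forall_mem_cons.2 ⟨mkD hg h12 h14 h15 k3545 (k2535.t hg) (k2435.t hg), ?_⟩
  refine List.forall_mem_cons.2 ⟨mkD hg h13 h14 h15 k3545 k3535 (k3435.t hg), ?_⟩
  refine List.forall_mem_cons.2 ⟨mkD hg h11 h14 h15 k4545 (k1545.t hg) (k1445.t hg), ?_⟩
  refine List.forall_mem_cons.2 ⟨mkD hg h12 h13 h14 (k3445.t hg) (k2445.t hg) (k2345.t hg), ?_⟩
  refine List.forall_mem_cons.2 ⟨mkD hg h12 h13 h15 (k3545.t hg) (k2545.t hg) (k2345.t hg), ?_⟩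
  refine List.forall_mem_cons.2 ⟨mkD hg h12 h14 h15 k4545 (k2545.t hg) (k2445.t hg), ?_⟩
  refine List.forall_mem_cons.2 ⟨mkD hg h13 h14 h15 k4545 (k3545.t hg) (k3445.t hg), ?_⟩
  refine List.forall_mem_cons.2 ⟨mkD hg h22 h23 h24 k3434 (k2434.t hg) (k2334.t hg), ?_⟩
  refine List.forall_mem_cons.2 ⟨mkD hg h22 h23 h25 k3435 (k2534.t hg) (k2334.t hg), ?_⟩
  refine List.forall_mem_cons.2 ⟨mkD hg h22 h24 h25 k3445 (k2534.t hg) (k2434.t hg), ?_⟩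
  refine List.forall_mem_cons.2 ⟨mkD hg h23 h24 h25 k3445 k3435 k3434, ?_⟩
  refine List.forall_mem_cons.2 ⟨mkD hg h22 h23 h25 k3535 (k2535.t hg) (k2335.t hg), ?_⟩
  refine List.forall_mem_cons.2 ⟨mkD hg h22 h24 h25 k3545 (k2535.t hg) (k2435.t hg), ?_⟩
  refine List.forall_mem_cons.2 ⟨mkD hg h23 h24 h25 k3545 k3535 (k3435.t hg), ?_⟩
  refine List.forall_mem_cons.2 ⟨mkD hg h22 h24 h25 k4545 (k2545.t hg) (k2445.t hg), ?_⟩
  refine List.forall_mem_cons.2 ⟨mkD hg h23 h24 h25 k4545 (k3545.t hg) (k3445.t hg), ?_⟩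
  refine List.forall_mem_cons.2 ⟨mkD hg h33 h34 h35 k4545 (k3545.t hg) (k3445.t hg), ?_⟩
  exact List.forall_mem_nil _

theorem g6_ok (hg : Rk2 g)
    {m00 m01 m02 m03 m04 m05 m11 m12 m13 m14 m15 m22 m23 m24 m25 m33 m34 m35 m44 m45 m55 : ℕ}
    (h00 : ME w b K x g 0 0 m00)
    (h01 : ME w b K x g 0 1 m01)
    (h02 : ME w b K x g 0 2 m02)
    (h03 : ME w b K x g 0 3 m03)
    (h04 : ME w b K x g 0 4 m04)
    (h05 : ME w b K x g 0 5 m05)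
    (h11 : ME w b K x g 1 1 m11)
    (h12 : ME w b K x g 1 2 m12)
    (h13 : ME w b K x g 1 3 m13)
    (h14 : ME w b K x g 1 4 m14)
    (h15 : ME w b K x g 1 5 m15)
    (h22 : ME w b K x g 2 2 m22)
    (h23 : ME w b K x g 2 3 m23)
    (h24 : ME w b K x g 2 4 m24)
    (h25 : ME w b K x g 2 5 m25)
    (h33 : ME w b K x g 3 3 m33)
    (h34 : ME w b K x g 3 4 m34)
    (h35 : ME w b K x g 3 5 m35)
    (h44 : ME w b K x g 4 4 m44)
    (h45 : ME w b K x g 4 5 m45)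
    (h55 : ME w b K x g 5 5 m55) :
    ∀ a ∈ g6 (2 ^ K - 1) (2 ^ K) (2 ^ (2 * K + 4))
      m00 m01 m02 m03 m04 m05 m11 m12 m13 m14 m15 m22 m23 m24 m25 m33 m34 m35 m44 m45 m55,
      ZV w b K x a :=
  g6b_ok hg h00 h01 h02 h03 h04 h05 h11 h12 h13 h14 h15 h22 h23 h24 h25 h33 h34 h35
    (mkQ h01 h12 h02 h11)
    (mkQ h01 h13 h03 h11)
    (mkQ h01 h14 h04 h11)
    (mkQ h01 h15 h05 h11)
    (mkQ h01 h22 h02 (h12.s hg))
    (mkQ h01 h23 h03 (h12.s hg))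
    (mkQ h01 h24 h04 (h12.s hg))
    (mkQ h01 h25 h05 (h12.s hg))
    (mkQ h02 h23 h03 h22)
    (mkQ h02 h24 h04 h22)
    (mkQ h02 h25 h05 h22)
    (mkQ h01 (h23.s hg) h02 (h13.s hg))
    (mkQ h01 h33 h03 (h13.s hg))
    (mkQ h01 h34 h04 (h13.s hg))
    (mkQ h01 h35 h05 (h13.s hg))
    (mkQ h02 h33 h03 (h23.s hg))
    (mkQ h02 h34 h04 (h23.s hg))
    (mkQ h02 h35 h05 (h23.s hg))
    (mkQ h03 h34 h04 h33)
    (mkQ h03 h35 h05 h33)
    (mkQ h01 (h24.s hg) h02 (h14.s hg))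
    (mkQ h01 (h34.s hg) h03 (h14.s hg))
    (mkQ h01 h44 h04 (h14.s hg))
    (mkQ h01 h45 h05 (h14.s hg))
    (mkQ h02 (h34.s hg) h03 (h24.s hg))
    (mkQ h02 h44 h04 (h24.s hg))
    (mkQ h02 h45 h05 (h24.s hg))
    (mkQ h03 h44 h04 (h34.s hg))
    (mkQ h03 h45 h05 (h34.s hg))
    (mkQ h04 h45 h05 h44)
    (mkQ h01 (h25.s hg) h02 (h15.s hg))
    (mkQ h01 (h35.s hg) h03 (h15.s hg))
    (mkQ h01 (h45.s hg) h04 (h15.s hg))
    (mkQ h01 h55 h05 (h15.s hg))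
    (mkQ h02 (h35.s hg) h03 (h25.s hg))
    (mkQ h02 (h45.s hg) h04 (h25.s hg))
    (mkQ h02 h55 h05 (h25.s hg))
    (mkQ h03 (h45.s hg) h04 (h35.s hg))
    (mkQ h03 h55 h05 (h35.s hg))
    (mkQ h04 h55 h05 (h45.s hg))
    (mkQ h11 h22 h12 (h12.s hg))
    (mkQ h11 h23 h13 (h12.s hg))
    (mkQ h11 h24 h14 (h12.s hg))
    (mkQ h11 h25 h15 (h12.s hg))
    (mkQ h12 h23 h13 h22)
    (mkQ h12 h24 h14 h22)
    (mkQ h12 h25 h15 h22)
    (mkQ h13 h24 h14 h23)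
    (mkQ h13 h25 h15 h23)
    (mkQ h14 h25 h15 h24)
    (mkQ h11 h33 h13 (h13.s hg))
    (mkQ h11 h34 h14 (h13.s hg))
    (mkQ h11 h35 h15 (h13.s hg))
    (mkQ h12 h33 h13 (h23.s hg))
    (mkQ h12 h34 h14 (h23.s hg))
    (mkQ h12 h35 h15 (h23.s hg))
    (mkQ h13 h34 h14 h33)
    (mkQ h13 h35 h15 h33)
    (mkQ h14 h35 h15 h34)
    (mkQ h11 h44 h14 (h14.s hg))
    (mkQ h11 h45 h15 (h14.s hg))
    (mkQ h12 (h34.s hg) h13 (h24.s hg))
    (mkQ h12 h44 h14 (h24.s hg))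
    (mkQ h12 h45 h15 (h24.s hg))
    (mkQ h13 h44 h14 (h34.s hg))
    (mkQ h13 h45 h15 (h34.s hg))
    (mkQ h14 h45 h15 h44)
    (mkQ h11 h55 h15 (h15.s hg))
    (mkQ h12 (h35.s hg) h13 (h25.s hg))
    (mkQ h12 (h45.s hg) h14 (h25.s hg))
    (mkQ h12 h55 h15 (h25.s hg))
    (mkQ h13 (h45.s hg) h14 (h35.s hg))
    (mkQ h13 h55 h15 (h35.s hg))
    (mkQ h14 h55 h15 (h45.s hg))
    (mkQ h22 h33 h23 (h23.s hg))
    (mkQ h22 h34 h24 (h23.s hg))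
    (mkQ h22 h35 h25 (h23.s hg))
    (mkQ h23 h34 h24 h33)
    (mkQ h23 h35 h25 h33)
    (mkQ h24 h35 h25 h34)
    (mkQ h22 h44 h24 (h24.s hg))
    (mkQ h22 h45 h25 (h24.s hg))
    (mkQ h23 h44 h24 (h34.s hg))
    (mkQ h23 h45 h25 (h34.s hg))
    (mkQ h24 h45 h25 h44)
    (mkQ h22 h55 h25 (h25.s hg))
    (mkQ h23 (h45.s hg) h24 (h35.s hg))
    (mkQ h23 h55 h25 (h35.s hg))
    (mkQ h24 h55 h25 (h45.s hg))
    (mkQ h33 h44 h34 (h34.s hg))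
    (mkQ h33 h45 h35 (h34.s hg))
    (mkQ h34 h45 h35 h44)
    (mkQ h33 h55 h35 (h35.s hg))
    (mkQ h34 h55 h35 (h45.s hg))
    (mkQ h44 h55 h45 (h45.s hg))

theorem G7_ok {X Y : ℕ → ℝ}
    {s01 s02 s12 s03 s13 s23 s04 s14 s24 s34 s05 s15 s25 s35 s45 s06 s16 s26 s36 s46 s56 : ℕ}
    (e01 : SV w b K x s01 (sd X Y 0 1))
    (e02 : SV w b K x s02 (sd X Y 0 2))
    (e12 : SV w b K x s12 (sd X Y 1 2))
    (e03 : SV w b K x s03 (sd X Y 0 3))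
    (e13 : SV w b K x s13 (sd X Y 1 3))
    (e23 : SV w b K x s23 (sd X Y 2 3))
    (e04 : SV w b K x s04 (sd X Y 0 4))
    (e14 : SV w b K x s14 (sd X Y 1 4))
    (e24 : SV w b K x s24 (sd X Y 2 4))
    (e34 : SV w b K x s34 (sd X Y 3 4))
    (e05 : SV w b K x s05 (sd X Y 0 5))
    (e15 : SV w b K x s15 (sd X Y 1 5))
    (e25 : SV w b K x s25 (sd X Y 2 5))
    (e35 : SV w b K x s35 (sd X Y 3 5))
    (e45 : SV w b K x s45 (sd X Y 4 5))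
    (e06 : SV w b K x s06 (sd X Y 0 6))
    (e16 : SV w b K x s16 (sd X Y 1 6))
    (e26 : SV w b K x s26 (sd X Y 2 6))
    (e36 : SV w b K x s36 (sd X Y 3 6))
    (e46 : SV w b K x s46 (sd X Y 4 6))
    (e56 : SV w b K x s56 (sd X Y 5 6)) :
    ∀ a ∈ G7 (2 ^ K - 1) (2 ^ K) (2 ^ (2 * K + 4))
      s01 s02 s12 s03 s13 s23 s04 s14 s24 s34 s05 s15 s25 s35 s45 s06 s16 s26 s36 s46 s56,
      ZV w b K x a :=
  g6_ok (rk_gg X Y)
    (me_diag e01)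
    (mf_inv e01 e02 e12)
    (mf_inv e01 e03 e13)
    (mf_inv e01 e04 e14)
    (mf_inv e01 e05 e15)
    (mf_inv e01 e06 e16)
    (me_diag e02)
    (mf_inv e02 e03 e23)
    (mf_inv e02 e04 e24)
    (mf_inv e02 e05 e25)
    (mf_inv e02 e06 e26)
    (me_diag e03)
    (mf_inv e03 e04 e34)
    (mf_inv e03 e05 e35)
    (mf_inv e03 e06 e36)
    (me_diag e04)
    (mf_inv e04 e05 e45)
    (mf_inv e04 e06 e46)
    (me_diag e05)
    (mf_inv e05 e06 e56)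
    (me_diag e06)

theorem H7_ok {X Y : ℕ → ℝ} (G : GP 7 X Y)
    {s01 s02 s12 s03 s13 s23 s04 s14 s24 s34 s05 s15 s25 s35 s45 s06 s16 s26 s36 s46 s56 : ℕ}
    (e01 : SV w b K x s01 (sd X Y 0 1))
    (e02 : SV w b K x s02 (sd X Y 0 2))
    (e12 : SV w b K x s12 (sd X Y 1 2))
    (e03 : SV w b K x s03 (sd X Y 0 3))
    (e13 : SV w b K x s13 (sd X Y 1 3))
    (e23 : SV w b K x s23 (sd X Y 2 3))
    (e04 : SV w b K x s04 (sd X Y 0 4))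
    (e14 : SV w b K x s14 (sd X Y 1 4))
    (e24 : SV w b K x s24 (sd X Y 2 4))
    (e34 : SV w b K x s34 (sd X Y 3 4))
    (e05 : SV w b K x s05 (sd X Y 0 5))
    (e15 : SV w b K x s15 (sd X Y 1 5))
    (e25 : SV w b K x s25 (sd X Y 2 5))
    (e35 : SV w b K x s35 (sd X Y 3 5))
    (e45 : SV w b K x s45 (sd X Y 4 5))
    (e06 : SV w b K x s06 (sd X Y 0 6))
    (e16 : SV w b K x s16 (sd X Y 1 6))
    (e26 : SV w b K x s26 (sd X Y 2 6))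
    (e36 : SV w b K x s36 (sd X Y 3 6))
    (e46 : SV w b K x s46 (sd X Y 4 6))
    (e56 : SV w b K x s56 (sd X Y 5 6)) :
    ∀ a ∈ H7 (2 ^ K) (2 ^ (2 * K + 4))
      s01 s02 s12 s03 s13 s23 s04 s14 s24 s34 s05 s15 s25 s35 s45 s06 s16 s26 s36 s46 s56,
      HV w b K x 13 a := by
  unfold H7
  refine List.forall_mem_cons.2 ⟨nh_inv (mf_inv e01 e02 e12) e01 e02 (G.heron (i := 0) (j := 1) (k := 2) (by decide) (by decide) (by decide)), ?_⟩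
  refine List.forall_mem_cons.2 ⟨nh_inv (mf_inv e01 e03 e13) e01 e03 (G.heron (i := 0) (j := 1) (k := 3) (by decide) (by decide) (by decide)), ?_⟩
  refine List.forall_mem_cons.2 ⟨nh_inv (mf_inv e01 e04 e14) e01 e04 (G.heron (i := 0) (j := 1) (k := 4) (by decide) (by decide) (by decide)), ?_⟩
  refine List.forall_mem_cons.2 ⟨nh_inv (mf_inv e01 e05 e15) e01 e05 (G.heron (i := 0) (j := 1) (k := 5) (by decide) (by decide) (by decide)), ?_⟩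
  refine List.forall_mem_cons.2 ⟨nh_inv (mf_inv e01 e06 e16) e01 e06 (G.heron (i := 0) (j := 1) (k := 6) (by decide) (by decide) (by decide)), ?_⟩
  refine List.forall_mem_cons.2 ⟨nh_inv (mf_inv e02 e03 e23) e02 e03 (G.heron (i := 0) (j := 2) (k := 3) (by decide) (by decide) (by decide)), ?_⟩
  refine List.forall_mem_cons.2 ⟨nh_inv (mf_inv e02 e04 e24) e02 e04 (G.heron (i := 0) (j := 2) (k := 4) (by decide) (by decide) (by decide)), ?_⟩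
  refine List.forall_mem_cons.2 ⟨nh_inv (mf_inv e02 e05 e25) e02 e05 (G.heron (i := 0) (j := 2) (k := 5) (by decide) (by decide) (by decide)), ?_⟩
  refine List.forall_mem_cons.2 ⟨nh_inv (mf_inv e02 e06 e26) e02 e06 (G.heron (i := 0) (j := 2) (k := 6) (by decide) (by decide) (by decide)), ?_⟩
  refine List.forall_mem_cons.2 ⟨nh_inv (mf_inv e03 e04 e34) e03 e04 (G.heron (i := 0) (j := 3) (k := 4) (by decide) (by decide) (by decide)), ?_⟩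
  refine List.forall_mem_cons.2 ⟨nh_inv (mf_inv e03 e05 e35) e03 e05 (G.heron (i := 0) (j := 3) (k := 5) (by decide) (by decide) (by decide)), ?_⟩
  refine List.forall_mem_cons.2 ⟨nh_inv (mf_inv e03 e06 e36) e03 e06 (G.heron (i := 0) (j := 3) (k := 6) (by decide) (by decide) (by decide)), ?_⟩
  refine List.forall_mem_cons.2 ⟨nh_inv (mf_inv e04 e05 e45) e04 e05 (G.heron (i := 0) (j := 4) (k := 5) (by decide) (by decide) (by decide)), ?_⟩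
  refine List.forall_mem_cons.2 ⟨nh_inv (mf_inv e04 e06 e46) e04 e06 (G.heron (i := 0) (j := 4) (k := 6) (by decide) (by decide) (by decide)), ?_⟩
  refine List.forall_mem_cons.2 ⟨nh_inv (mf_inv e05 e06 e56) e05 e06 (G.heron (i := 0) (j := 5) (k := 6) (by decide) (by decide) (by decide)), ?_⟩
  refine List.forall_mem_cons.2 ⟨nh_inv (mf_inv e12 e13 e23) e12 e13 (G.heron (i := 1) (j := 2) (k := 3) (by decide) (by decide) (by decide)), ?_⟩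
  refine List.forall_mem_cons.2 ⟨nh_inv (mf_inv e12 e14 e24) e12 e14 (G.heron (i := 1) (j := 2) (k := 4) (by decide) (by decide) (by decide)), ?_⟩
  refine List.forall_mem_cons.2 ⟨nh_inv (mf_inv e12 e15 e25) e12 e15 (G.heron (i := 1) (j := 2) (k := 5) (by decide) (by decide) (by decide)), ?_⟩
  refine List.forall_mem_cons.2 ⟨nh_inv (mf_inv e12 e16 e26) e12 e16 (G.heron (i := 1) (j := 2) (k := 6) (by decide) (by decide) (by decide)), ?_⟩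
  refine List.forall_mem_cons.2 ⟨nh_inv (mf_inv e13 e14 e34) e13 e14 (G.heron (i := 1) (j := 3) (k := 4) (by decide) (by decide) (by decide)), ?_⟩
  refine List.forall_mem_cons.2 ⟨nh_inv (mf_inv e13 e15 e35) e13 e15 (G.heron (i := 1) (j := 3) (k := 5) (by decide) (by decide) (by decide)), ?_⟩
  refine List.forall_mem_cons.2 ⟨nh_inv (mf_inv e13 e16 e36) e13 e16 (G.heron (i := 1) (j := 3) (k := 6) (by decide) (by decide) (by decide)), ?_⟩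
  refine List.forall_mem_cons.2 ⟨nh_inv (mf_inv e14 e15 e45) e14 e15 (G.heron (i := 1) (j := 4) (k := 5) (by decide) (by decide) (by decide)), ?_⟩
  refine List.forall_mem_cons.2 ⟨nh_inv (mf_inv e14 e16 e46) e14 e16 (G.heron (i := 1) (j := 4) (k := 6) (by decide) (by decide) (by decide)), ?_⟩
  refine List.forall_mem_cons.2 ⟨nh_inv (mf_inv e15 e16 e56) e15 e16 (G.heron (i := 1) (j := 5) (k := 6) (by decide) (by decide) (by decide)), ?_⟩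
  refine List.forall_mem_cons.2 ⟨nh_inv (mf_inv e23 e24 e34) e23 e24 (G.heron (i := 2) (j := 3) (k := 4) (by decide) (by decide) (by decide)), ?_⟩
  refine List.forall_mem_cons.2 ⟨nh_inv (mf_inv e23 e25 e35) e23 e25 (G.heron (i := 2) (j := 3) (k := 5) (by decide) (by decide) (by decide)), ?_⟩
  refine List.forall_mem_cons.2 ⟨nh_inv (mf_inv e23 e26 e36) e23 e26 (G.heron (i := 2) (j := 3) (k := 6) (by decide) (by decide) (by decide)), ?_⟩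
  refine List.forall_mem_cons.2 ⟨nh_inv (mf_inv e24 e25 e45) e24 e25 (G.heron (i := 2) (j := 4) (k := 5) (by decide) (by decide) (by decide)), ?_⟩
  refine List.forall_mem_cons.2 ⟨nh_inv (mf_inv e24 e26 e46) e24 e26 (G.heron (i := 2) (j := 4) (k := 6) (by decide) (by decide) (by decide)), ?_⟩
  refine List.forall_mem_cons.2 ⟨nh_inv (mf_inv e25 e26 e56) e25 e26 (G.heron (i := 2) (j := 5) (k := 6) (by decide) (by decide) (by decide)), ?_⟩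
  refine List.forall_mem_cons.2 ⟨nh_inv (mf_inv e34 e35 e45) e34 e35 (G.heron (i := 3) (j := 4) (k := 5) (by decide) (by decide) (by decide)), ?_⟩
  refine List.forall_mem_cons.2 ⟨nh_inv (mf_inv e34 e36 e46) e34 e36 (G.heron (i := 3) (j := 4) (k := 6) (by decide) (by decide) (by decide)), ?_⟩
  refine List.forall_mem_cons.2 ⟨nh_inv (mf_inv e35 e36 e56) e35 e36 (G.heron (i := 3) (j := 5) (k := 6) (by decide) (by decide) (by decide)), ?_⟩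
  refine List.forall_mem_cons.2 ⟨nh_inv (mf_inv e45 e46 e56) e45 e46 (G.heron (i := 4) (j := 5) (k := 6) (by decide) (by decide) (by decide)), ?_⟩
  exact List.forall_mem_nil _

end

end Ker
end CR
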