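import Pool.Agent.Lib.MP_6f5d36_co.Ker

/-!
# MP_6f5d36_co : lists of certificates for levels 8 and 9
-/

set_option autoImplicit false

namespace CR

namespace L9

/-- all the certificates of the list (pattern of eight points, certificate) are accepted -/
noncomputable def certs (k : Nat) (L : List (Nat × Nat)) : Bool :=
  List.rec (motive := fun _ => Bool) true (fun a _ ih => Ker.band (Ker.cert8 k a.1 a.2) ih) L

end L9

end CR
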