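import Pool.Agent.Lib.MP_6f5d36_co.Level9
import Pool.Agent.Lib.MP_6f5d36_co.Level9Data

set_option autoImplicit false

/-!
# MP_6f5d36_co : the certificate lists used in levels 8 and 9
-/

namespace CR

namespace L9

theorem band_eq {a b : Bool} (h : Ker.band a b = true) : a = true ∧ b = true := by
  cases a
  · simp [Ker.band] at h
  · exact ⟨rfl, h⟩

/-- the checker for eight points is sound (proved in the module on certificates) -/
def Sound8 : Prop := ∀ k P C, Ker.cert8 k P C = true → ¬ Realk 8 k P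

theorem certs_sound (h8 : Sound8) {k : ℕ} : ∀ (L : List (ℕ × ℕ)), certs k L = true →
    ∀ a ∈ L, ¬ Realk 8 k a.1
  | [], _, a, ha => by simp at ha
  | b :: L, h, a, ha => by
    have h1 : Ker.band (Ker.cert8 k b.1 b.2) (certs k L) = true := h
    obtain ⟨h2, h3⟩ := band_eq h1
    rcases List.mem_cons.1 ha with rfl | ha
    · exact h8 _ _ _ h2
    · exact certs_sound h8 L h3 a ha

/-- element number `j` of the list has the first component `P` -/
def look1 : List (ℕ × ℕ) → ℕ → ℕ → Bool
  | [], _, _ => false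
  | a :: _, 0, P => Nat.beq a.1 P
  | _ :: L, j + 1, P => look1 L j P

/-- element number `j` of the list number `i` has the first component `P` -/
def look2 : List (List (ℕ × ℕ)) → ℕ → ℕ → ℕ → Bool
  | [], _, _, _ => false
  | L :: _, 0, j, P => look1 L j P
  | _ :: LL, i + 1, j, P => look2 LL i j P

/-- the pattern `P` of eight points is element number `c % 16` of the list number `c / 16` -/
def okd (LL : List (List (ℕ × ℕ))) (m P c : ℕ) : Bool :=
  Nat.beq m 8 && look2 LL (c / 16) (c % 16) P

theorem look1_spec : ∀ (L : List (ℕ × ℕ)) (j P : ℕ), look1 L j P = true → ∃ a ∈ L, a.1 = P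
  | [], _, _, h => by simp [look1] at h
  | a :: L, 0, P, h => by
    rw [look1, Nat.beq_eq] at h
    exact ⟨a, by simp, h⟩
  | _ :: L, j + 1, P, h => by
    rw [look1] at h
    obtain ⟨a, ha, h1⟩ := look1_spec L j P h
    exact ⟨a, by simp [ha], h1⟩

theorem look2_spec : ∀ (LL : List (List (ℕ × ℕ))) (i j P : ℕ), look2 LL i j P = true →
    ∃ L ∈ LL, ∃ a ∈ L, a.1 = P
  | [], _, _, _, h => by simp [look2] at h
  | L :: LL, 0, j, P, h => by
    rw [look2] at h
    exact ⟨L, by simp, look1_spec L j P h⟩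
  | _ :: LL, i + 1, j, P, h => by
    rw [look2] at h
    obtain ⟨L, hL, h1⟩ := look2_spec LL i j P h
    exact ⟨L, by simp [hL], h1⟩

/-- all the lists are accepted -/
def AllC (k : ℕ) : List (List (ℕ × ℕ)) → Prop
  | [] => True
  | L :: LL => certs k L = true ∧ AllC k LL

theorem AllC.mem {k : ℕ} : ∀ (LL : List (List (ℕ × ℕ))), AllC k LL → ∀ L ∈ LL, certs k L = true
  | [], _, L, h => by simp at h
  | L' :: LL, h, L, hL => by
    rcases List.mem_cons.1 hL with rfl | h1
    · exact h.1
    · exact AllC.mem LL h.2 L h1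

theorem okd_sound (h8 : Sound8) {k : ℕ} {LL : List (List (ℕ × ℕ))} (h : AllC k LL) (m P C : ℕ)
    (hc : okd LL m P C = true) : ¬ Realk m k P := by
  unfold okd at hc
  simp only [Bool.and_eq_true, Nat.beq_eq] at hc
  obtain ⟨h1, h2⟩ := hc
  obtain ⟨L, hL, a, ha, rfl⟩ := look2_spec _ _ _ _ h2
  rw [h1]
  exact certs_sound h8 L (AllC.mem LL h L hL) a ha

/-- the entries of a list of lists -/
def wl : List (List ℕ) → ℕ → List ℕ
  | [], _ => []
  | a :: _, 0 => a
  | _ :: l, n + 1 => wl l n

end L9

end CR
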