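import Pool.Agent.Lib.MP_6f5d36_co.L6.Tab0
import Pool.Agent.Lib.MP_6f5d36_co.L6.Tab1
import Pool.Agent.Lib.MP_6f5d36_co.L6.Tab2
import Pool.Agent.Lib.MP_6f5d36_co.L6.Tab3

/-!
# MP_6f5d36_co : the tables of level 6 once more, without Mathlib

`T5 j` : the types of five points; `E6 j` : the allowed sixth points (the same as `L6.T5`, `L6.E6`).
-/

set_option autoImplicit false
set_option maxRecDepth 100000

noncomputable section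

namespace CR.Tab

/-- binary trees -/
inductive Tr (α : Type) : Type where
  | lf (a : α) : Tr α
  | nd (l r : Tr α) : Tr α

/-- the entry number `i` (the lowest bit of `i` decides at the root) -/
def Tr.get {α : Type} (t : Tr α) : Nat → α :=
  Tr.rec (motive := fun _ => Nat → α) (fun a _ => a)
    (fun _ _ gl gr i => cond (Nat.beq (Nat.land i 1) 0) (gl (Nat.shiftRight i 1))
      (gr (Nat.shiftRight i 1))) t

/-- the types of five points, 30 bits each -/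
def TT : Nat :=
  0x2989a240b136510298d844056168800585a040b1a24000aae344056344801d89a24036268800585a200ac468901d8d1200aa344802889844056268802c2d1000a8468902c65100036344001d8d1000b1968902c8d1000b6344802c4d1000b1a68802c698440b1a44802d91a240aa365100db1a240b1168800589a200aa38d10298d1200b1b44000d71a240b1944802d91844016365100589a240b194890058d1200a234090058d844022c61100d898440ae340902c690240b1940901d89a2000ac65100531a240b1b44102a8d8440b016810058d100036268902c4d104096c68902c45a240a2365222c29a2402ac61102c31a240aa3409021b18440b1a48900d8d1200b1a20000d8e3440b1b40900571a240ad468902a31a24094468901d31a040b1b01100d91a240b1a441025b18440aac61102d51a24094c6890254e3440b1c68902551a24096268901d8d2240b0b441005519440a6340902a8d1040a9c68902c51a240b2268902b89a240b2340902b8d120075c68900d31a240aa268902571a240b0a6880058e34405616890298d1240a8c68100d4e3440b4c689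02811a24096261102c6d2240b0344102c651040b2c611029b1844016168902c691240a04681010b1844054468902c09a240b6340902a71a040a23441005b1a240b4468102ab19440a94651015b1a240acc68900511a240b1268901d8d1240a238d2229918440b1b61101d51a240b0b4890298d1040b1a2480258d100056468902d11a240a2268902c85a04036361102b8d1040ad46510258d8440b6261102c31a040a8468102c65a040b03440003963440ae461102c69a240b1344902c71a04034c68102c45a040ae361101d89844076468901d11a240b034890058d1240b194490258d9440aec61102d31a040ac468102c8d1040ae265102c8d1240ae344902a8d1240a23449015b19440aa461102c8d8440aa261102d71a240b1b44902c51944046c61102c898440ae261102d89a24056268902d91a04034468902c8994408ec61102d71a040a9468901531a24096344901d919440ae465102b8d144066c611029898440b0344902c4e3440b136d102c6d1440b1a01101d8d844074c68902d8d1240a44681000b1844094c68101cb19440b6265102c29844056344901585a04036168102c11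a040b0968102585a040b2365102b31a040b5465101d89944031968802169a20086268900425a0408c244102149a2401134490220d124011168102311a24062268900485a0405194490216512404c468902211a24071a68901a8d12002626890210d124088468101c49a24081344901211a2407226890142d100091a4480220d224030c68900a89a24070b44000445a20050344901c65024071944800c6d10002a461101c71a24085a44901469120072344000c8d100081a6890228d02403194400028d12008d12400018d124031344001c68044032268902169a24011a4490208d024011940901405a04046461100089a2407026890238d12408d12000216d02408c940901c45a20051a2400188d024002340902065104088b4400226d84408d144002305a0408d46890234502401196810206910408cb4400146510008a361100211a2408d144901c31a04081a4090234910401194400236510000a268901189a24070348902449a24046344802328900081b4090216502408c944002229a2408d344901011a0408d16810216d104071a61101465a2402046810246d100085a2000088e34889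0a61101c69024070968101465120011b4400042d100091a68902309a2404234090146502408d940900a8d12008d268900465224091940901a31a04031a68801c69120051b44002429a2407196890118d024030a6880138d120071944002065100089940900911a0403016810226d104081b4410222d104012344001c4d10008da61102328044089a6890098d024089c68101c05a0408534410038d12006634480234890002a36110226d12406a340900c6902408834410234d100085344002308900011a68900469120071a24000468900066361102269844040468900489a2408d148900271a24031a68902009a2407116890246d12408034410244d100030344001c2d224089a4090232510408da4480046512008ca68900a11a04089968102205a0408ca4410044d100006361100a89844071468900a11a24051a40902169104085a4480242d100031a2400200d124089b40902349024031968102369024089c6890230922404234490208d104071948901c8d12408d944901a11a0404446810218d10404634410108d104031a4480212d100026261102011a240903489024690240804681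02265104071b44002465100089a2000218d844070a6890246d224012344900c31a04052168101c45a0408916810234d10405234490188d12408c468100c85a0406634410204d10408d94410236d10008e261102331a24042268902369a2400a34490244d124048c6810088d10405134400040d100085944001c65124028c68101911a0408d144102365120088a61100889a2408ca4890046d12408c34410038d12406a34490198d12407034490232d104011a24801489a2402e26890216d12408da4490234912408c244901a8d10406234410202d10408d12480218984404cc68901c69224071a44902069124091944902445a0408a344102269104085944102068800072261102251a24070c6890226512403116810238d10408934410210d10408c14400232984408a34490008d124051b4490230d12408da44101c51944091b4510246912408c968102225a04051a2480199184408e26890240d12408cc68102425a04066261101469a2408d248902111a04091968102269124071968101389a2408cb48901469124088c68101465a0404e34490208d12407134490224d124050968101331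a0404e465100969a20048344001845100049944001265120061344901a0912400c968100345a0400896810190d12404594090036502400d244901365124061344101b29224069a44901849124068940900b4d10004c968101909104061a44900245a04068b4400194502406916810016d12402194410022d10004c22400116880002c168101a0910402db4400192d100041a6890180d124021b4410080d104021a4410194480004c244901b4512406534410196510000ca2400004d124021344101a4910400db4400134d10004cb4400032d100044b44000b65100045b40901b45024049968100a45a04068968101a05a04045b44101a2d10406034410194510406894410116510000d224001b28900068a24001344900068124000868800068344901069024009940900b45a04060a44101809124041b4090106d104041344101b2d100009b44901a0d10404d944000308900021a68901b0922406c94400192510006914490134502406914090182d104069144101b4d10006d22400094d100044344101169104069944101b49124048968101969104065944101a4480004da4490106912406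9344101a69104069344901b09124069944900a2490002e58d1002ae34401538d100d8a3440ae28d10058db440b236d102c89b440b2301102c8d2240b1a20902c680240b6c68102c61a040b6344102c61104036168802c65a200b1b44802c6110002a38d10028e34402e28d10044db4408936d10025194408a36510028d94401136510224d94400a361100889844031a6110206984407230110246c04408da01100c71a24029c68900811a24066268900189a24010a68900465a24089968902345a2407234890200d224011a4890236922408d94890218d12407234090238d02408634090198d02402234090246d024011a4090216902408194090226882408d22090234482408da0090234802408d100900a71a04000468102485a04090168100405a04084168102005a0408986810248d10402634410008d104091b4410244d104090b4410240d104091a4410246510408c14410246110408984410216110408d044102321104051a68800469a20070a68800429a20071968801465a20011968802265a2008d168800b8d12004a34480098d12000634480146d120031b4480046d120089b448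0234912009194480226512008594480234512008c944800c6892008d22480248d100030b4400140d10008834400226510003184400046110008d04400232110008da24002340900091a2000234880008d02000234400000936d10024d944029b61100a69844021a61100a2984406ca01100169a24001a68901949a2400ca68900229a24060268900265a2406834890180d22400da4890032922406024890036522400d148901a4522400d34490130d12400434490100d12400da44901969124005a44901909124045944901345124025b4090086d024001b4090136902402da40900369024069a40900a69024065a40901169024025a40900169024061a40900869024001a40901b4902406524090184902404d940901a6502406594090016502404194090006502400d14090184502406c940901a6882406d220901b4482404d120901a44824061120901a2482404da00901b4802404d100901a44024068900900a65a04009968101305a0400c168101205a04028168100205a04064168101105a04004168101005a04020168100005a0402986810096d104001b4410114d10402534410004d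10406cb4410190d10402434410100d104000344101b69104025a44101869104041a4410006910406d244101949104061244101b29104068a44101b09104060244101b65104045944100965104061944101065104001944101b45104061144101b25104060944101b05104068144101905104060144101a61104025844101b41104069044101941104068844100169a20049968800a65a20009968800345a20049b44800a6d120009b4480136912002da44800369120065a44801169120025a4480016912006d24480134912002d244800349120065244801b6512004d94480036512006994480026512004594480016512006d14480134512000d144801a4512006514480132512000c944801a2512006d22480134892002d22480034892006922480134492000d124801a44920068924801b6d10000d34400194d100005344000b2d100028b4400092d100004b44000a0d100008344001b6510000d944001a6510002994400026510002594400016510006194400106510002194400006510006d14400134510002d14400034510006914400194510004c94400032510006894400130510002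c14400030510006814400134110002d04400034110006504400132110002c844001a2110006da2400136890002da2400036890004d224000b4890006922400132890002ca2400192890006c224000b0890006822400190890002d124000344900069124001a2490004d024000b4090000d024001a40900068824001a68800049a20000968800041a2000006880006d220001a4880006522000184880006d120001844800068920001b40800069020001940800061020001a20800068020001a24000068800000245224004244901009124021240900245024045140900145024041140900045024041120901224824040920901224024025244100849104001244101029104044244100909104040244100809104000244101145104025144101045104021144100045104040944101105104024144101005104020144100005104045044100941104025244800149120009144801145120005144801225120008944800a48920009224801244920009124801224920008924801124920049144000a451000091440011451000251440001451000211440000451000489440002251000449440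00125100048144000a05100008144000941100005044000a21100049224000a48900009224001228900028a24000228900044a24000128900028224000208900044224000108900049124000a44900009124001224900008924001124900048124000a04900008124001104900029024000240900048824000a209000088240011209000492200011488000252200010488000212200000488000491200011448000251200010448000211200000448000489200011248000409200012408000450200009408000210200000408000488200011208000408200011008000489000011240000448000011000000009209001249200049240009049000041240001209000249200008248000009200009208000208200000208000240200009240000248000009000000200000000000000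

/-- the type number `j` -/
def T5 (j : Nat) : Nat := Nat.land (Nat.shiftRight TT (Nat.mul 30 j)) 1073741823

/-- the tree of the tables of level 6 -/
def EE : Tr Nat :=
.nd (.nd (.nd (.nd (.nd (.nd (.nd (.nd (.nd (.nd (.nd (.lf 0) (.lf L6.E6_1024)) (.lf 0)) (.nd
(.lf 0) (.nd (.lf L6.E6_768) (.lf 0)))) (.nd (.nd (.nd (.lf 0) (.lf L6.E6_1152)) (.nd (.lf
L6.E6_640) (.lf 0))) (.nd (.lf 0) (.nd (.lf L6.E6_896) (.lf 0))))) (.nd (.nd (.nd (.nd (.lf 0)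
(.lf L6.E6_1088)) (.nd (.lf L6.E6_576) (.lf 0))) (.nd (.lf 0) (.nd (.lf L6.E6_832) (.lf 0))))
(.nd (.nd (.lf 0) (.nd (.lf L6.E6_704) (.lf 0))) (.nd (.lf 0) (.nd (.lf L6.E6_960) (.lf 0))))))
(.nd (.nd (.nd (.nd (.nd (.lf 0) (.lf L6.E6_1056)) (.nd (.lf L6.E6_544) (.lf 0))) (.nd (.lf 0)
(.nd (.lf L6.E6_800) (.lf 0)))) (.nd (.nd (.nd (.lf 0) (.lf L6.E6_1184)) (.nd (.lf L6.E6_672)
(.lf 0))) (.nd (.lf 0) (.nd (.lf L6.E6_928) (.lf 0))))) (.nd (.nd (.nd (.nd (.lf 0) (.lf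
L6.E6_1120)) (.nd (.lf L6.E6_608) (.lf 0))) (.nd (.lf 0) (.nd (.lf L6.E6_864) (.lf 0)))) (.nd
(.nd (.lf 0) (.nd (.lf L6.E6_736) (.lf 0))) (.nd (.lf 0) (.nd (.lf L6.E6_992) (.lf 0))))))) (.nd
(.nd (.nd (.nd (.nd (.nd (.lf 0) (.lf L6.E6_1040)) (.lf 0)) (.nd (.lf 0) (.nd (.lf L6.E6_784)
(.lf 0)))) (.nd (.nd (.nd (.lf 0) (.lf L6.E6_1168)) (.nd (.lf L6.E6_656) (.lf 0))) (.nd (.lf 0)
(.nd (.lf L6.E6_912) (.lf 0))))) (.nd (.nd (.nd (.nd (.lf 0) (.lf L6.E6_1104)) (.nd (.lf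
L6.E6_592) (.lf 0))) (.nd (.lf 0) (.nd (.lf L6.E6_848) (.lf 0)))) (.nd (.nd (.lf 0) (.nd (.lf
L6.E6_720) (.lf 0))) (.nd (.lf 0) (.nd (.lf L6.E6_976) (.lf 0)))))) (.nd (.nd (.nd (.nd (.nd
(.lf 0) (.lf L6.E6_1072)) (.nd (.lf L6.E6_560) (.lf 0))) (.nd (.lf 0) (.nd (.lf L6.E6_816) (.lf
0)))) (.nd (.nd (.nd (.lf 0) (.lf L6.E6_1200)) (.nd (.lf L6.E6_688) (.lf 0))) (.nd (.lf 0) (.nd
(.lf L6.E6_944) (.lf 0))))) (.nd (.nd (.nd (.nd (.lf 0) (.lf L6.E6_1136)) (.nd (.lf L6.E6_624)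
(.lf 0))) (.nd (.lf 0) (.nd (.lf L6.E6_880) (.lf 0)))) (.nd (.nd (.lf 0) (.nd (.lf L6.E6_752)
(.lf 0))) (.nd (.lf 0) (.nd (.lf L6.E6_1008) (.lf 0)))))))) (.nd (.nd (.nd (.nd (.nd (.nd (.nd
(.lf 0) (.lf L6.E6_1032)) (.lf 0)) (.nd (.lf 0) (.nd (.lf L6.E6_776) (.lf 0)))) (.nd (.nd (.nd
(.lf 0) (.lf L6.E6_1160)) (.nd (.lf L6.E6_648) (.lf 0))) (.nd (.lf 0) (.nd (.lf L6.E6_904) (.lf
0))))) (.nd (.nd (.nd (.nd (.lf 0) (.lf L6.E6_1096)) (.nd (.lf L6.E6_584) (.lf 0))) (.nd (.lf 0)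
(.nd (.lf L6.E6_840) (.lf 0)))) (.nd (.nd (.lf 0) (.nd (.lf L6.E6_712) (.lf 0))) (.nd (.lf 0)
(.nd (.lf L6.E6_968) (.lf 0)))))) (.nd (.nd (.nd (.nd (.nd (.lf 0) (.lf L6.E6_1064)) (.nd (.lf
L6.E6_552) (.lf 0))) (.nd (.lf 0) (.nd (.lf L6.E6_808) (.lf 0)))) (.nd (.nd (.nd (.lf 0) (.lf
L6.E6_1192)) (.nd (.lf L6.E6_680) (.lf 0))) (.nd (.lf 0) (.nd (.lf L6.E6_936) (.lf 0))))) (.nd
(.nd (.nd (.nd (.lf 0) (.lf L6.E6_1128)) (.nd (.lf L6.E6_616) (.lf 0))) (.nd (.lf 0) (.nd (.lf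
L6.E6_872) (.lf 0)))) (.nd (.nd (.lf 0) (.nd (.lf L6.E6_744) (.lf 0))) (.nd (.lf 0) (.nd (.lf
L6.E6_1000) (.lf 0))))))) (.nd (.nd (.nd (.nd (.nd (.nd (.lf 0) (.lf L6.E6_1048)) (.nd (.lf
L6.E6_536) (.lf 0))) (.nd (.lf 0) (.nd (.lf L6.E6_792) (.lf 0)))) (.nd (.nd (.nd (.lf 0) (.lf
L6.E6_1176)) (.nd (.lf L6.E6_664) (.lf 0))) (.nd (.lf 0) (.nd (.lf L6.E6_920) (.lf 0))))) (.nd
(.nd (.nd (.nd (.lf 0) (.lf L6.E6_1112)) (.nd (.lf L6.E6_600) (.lf 0))) (.nd (.lf 0) (.nd (.lf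
L6.E6_856) (.lf 0)))) (.nd (.nd (.lf 0) (.nd (.lf L6.E6_728) (.lf 0))) (.nd (.lf 0) (.nd (.lf
L6.E6_984) (.lf 0)))))) (.nd (.nd (.nd (.nd (.nd (.lf 0) (.lf L6.E6_1080)) (.nd (.lf L6.E6_568)
(.lf 0))) (.nd (.lf 0) (.nd (.lf L6.E6_824) (.lf 0)))) (.nd (.nd (.lf 0) (.nd (.lf L6.E6_696)
(.lf 0))) (.nd (.lf 0) (.nd (.lf L6.E6_952) (.lf 0))))) (.nd (.nd (.nd (.nd (.lf 0) (.lf
L6.E6_1144)) (.nd (.lf L6.E6_632) (.lf 0))) (.nd (.lf 0) (.nd (.lf L6.E6_888) (.lf 0)))) (.nd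
(.nd (.lf 0) (.nd (.lf L6.E6_760) (.lf 0))) (.nd (.lf 0) (.nd (.lf L6.E6_1016) (.lf 0)))))))))
(.nd (.nd (.nd (.nd (.nd (.nd (.nd (.nd (.lf 0) (.lf L6.E6_1028)) (.lf 0)) (.nd (.lf 0) (.nd
(.lf L6.E6_772) (.lf 0)))) (.nd (.nd (.nd (.lf 0) (.lf L6.E6_1156)) (.nd (.lf L6.E6_644) (.lf
0))) (.nd (.lf 0) (.nd (.lf L6.E6_900) (.lf 0))))) (.nd (.nd (.nd (.nd (.lf 0) (.lf L6.E6_1092))
(.nd (.lf L6.E6_580) (.lf 0))) (.nd (.lf 0) (.nd (.lf L6.E6_836) (.lf 0)))) (.nd (.nd (.lf 0)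
(.nd (.lf L6.E6_708) (.lf 0))) (.nd (.lf 0) (.nd (.lf L6.E6_964) (.lf 0)))))) (.nd (.nd (.nd
(.nd (.nd (.lf 0) (.lf L6.E6_1060)) (.nd (.lf L6.E6_548) (.lf 0))) (.nd (.lf 0) (.nd (.lf
L6.E6_804) (.lf 0)))) (.nd (.nd (.nd (.lf 0) (.lf L6.E6_1188)) (.nd (.lf L6.E6_676) (.lf 0)))
(.nd (.lf 0) (.nd (.lf L6.E6_932) (.lf 0))))) (.nd (.nd (.nd (.nd (.lf 0) (.lf L6.E6_1124)) (.nd
(.lf L6.E6_612) (.lf 0))) (.nd (.lf 0) (.nd (.lf L6.E6_868) (.lf 0)))) (.nd (.nd (.lf 0) (.nd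
(.lf L6.E6_740) (.lf 0))) (.nd (.lf 0) (.nd (.lf L6.E6_996) (.lf 0))))))) (.nd (.nd (.nd (.nd
(.nd (.nd (.lf 0) (.lf L6.E6_1044)) (.nd (.lf L6.E6_532) (.lf 0))) (.nd (.lf 0) (.nd (.lf
L6.E6_788) (.lf 0)))) (.nd (.nd (.nd (.lf 0) (.lf L6.E6_1172)) (.nd (.lf L6.E6_660) (.lf 0)))
(.nd (.lf 0) (.nd (.lf L6.E6_916) (.lf 0))))) (.nd (.nd (.nd (.nd (.lf 0) (.lf L6.E6_1108)) (.nd
(.lf L6.E6_596) (.lf 0))) (.nd (.lf 0) (.nd (.lf L6.E6_852) (.lf 0)))) (.nd (.nd (.lf 0) (.nd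
(.lf L6.E6_724) (.lf 0))) (.nd (.lf 0) (.nd (.lf L6.E6_980) (.lf 0)))))) (.nd (.nd (.nd (.nd
(.nd (.lf 0) (.lf L6.E6_1076)) (.nd (.lf L6.E6_564) (.lf 0))) (.nd (.lf 0) (.nd (.lf L6.E6_820)
(.lf 0)))) (.nd (.nd (.nd (.lf 0) (.lf L6.E6_1204)) (.nd (.lf L6.E6_692) (.lf 0))) (.nd (.lf 0)
(.nd (.lf L6.E6_948) (.lf 0))))) (.nd (.nd (.nd (.nd (.lf 0) (.lf L6.E6_1140)) (.nd (.lf
L6.E6_628) (.lf 0))) (.nd (.lf 0) (.nd (.lf L6.E6_884) (.lf 0)))) (.nd (.nd (.lf 0) (.nd (.lf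
L6.E6_756) (.lf 0))) (.nd (.lf 0) (.nd (.lf L6.E6_1012) (.lf 0)))))))) (.nd (.nd (.nd (.nd (.nd
(.nd (.nd (.lf 0) (.lf L6.E6_1036)) (.lf 0)) (.nd (.lf 0) (.nd (.lf L6.E6_780) (.lf 0)))) (.nd
(.nd (.nd (.lf 0) (.lf L6.E6_1164)) (.nd (.lf L6.E6_652) (.lf 0))) (.nd (.lf 0) (.nd (.lf
L6.E6_908) (.lf 0))))) (.nd (.nd (.nd (.nd (.lf 0) (.lf L6.E6_1100)) (.nd (.lf L6.E6_588) (.lf
0))) (.nd (.lf 0) (.nd (.lf L6.E6_844) (.lf 0)))) (.nd (.nd (.lf 0) (.nd (.lf L6.E6_716) (.lf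
0))) (.nd (.lf 0) (.nd (.lf L6.E6_972) (.lf 0)))))) (.nd (.nd (.nd (.nd (.nd (.lf 0) (.lf
L6.E6_1068)) (.nd (.lf L6.E6_556) (.lf 0))) (.nd (.lf 0) (.nd (.lf L6.E6_812) (.lf 0)))) (.nd
(.nd (.nd (.lf 0) (.lf L6.E6_1196)) (.nd (.lf L6.E6_684) (.lf 0))) (.nd (.lf 0) (.nd (.lf
L6.E6_940) (.lf 0))))) (.nd (.nd (.nd (.nd (.lf 0) (.lf L6.E6_1132)) (.nd (.lf L6.E6_620) (.lf
0))) (.nd (.lf 0) (.nd (.lf L6.E6_876) (.lf 0)))) (.nd (.nd (.lf 0) (.nd (.lf L6.E6_748) (.lf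
0))) (.nd (.lf 0) (.nd (.lf L6.E6_1004) (.lf 0))))))) (.nd (.nd (.nd (.nd (.nd (.nd (.lf 0) (.lf
L6.E6_1052)) (.nd (.lf L6.E6_540) (.lf 0))) (.nd (.lf 0) (.nd (.lf L6.E6_796) (.lf 0)))) (.nd
(.nd (.nd (.lf 0) (.lf L6.E6_1180)) (.nd (.lf L6.E6_668) (.lf 0))) (.nd (.lf 0) (.nd (.lf
L6.E6_924) (.lf 0))))) (.nd (.nd (.nd (.nd (.lf 0) (.lf L6.E6_1116)) (.nd (.lf L6.E6_604) (.lf
0))) (.nd (.lf 0) (.nd (.lf L6.E6_860) (.lf 0)))) (.nd (.nd (.lf 0) (.nd (.lf L6.E6_732) (.lf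
0))) (.nd (.lf 0) (.nd (.lf L6.E6_988) (.lf 0)))))) (.nd (.nd (.nd (.nd (.nd (.lf 0) (.lf
L6.E6_1084)) (.nd (.lf L6.E6_572) (.lf 0))) (.nd (.lf 0) (.nd (.lf L6.E6_828) (.lf 0)))) (.nd
(.nd (.lf 0) (.nd (.lf L6.E6_700) (.lf 0))) (.nd (.lf 0) (.nd (.lf L6.E6_956) (.lf 0))))) (.nd
(.nd (.nd (.nd (.lf 0) (.lf L6.E6_1148)) (.nd (.lf L6.E6_636) (.lf 0))) (.nd (.lf 0) (.nd (.lf
L6.E6_892) (.lf 0)))) (.nd (.nd (.lf 0) (.nd (.lf L6.E6_764) (.lf 0))) (.nd (.lf 0) (.nd (.lf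
L6.E6_1020) (.lf 0)))))))))) (.nd (.nd (.nd (.nd (.nd (.nd (.nd (.nd (.nd (.lf 0) (.lf
L6.E6_1026)) (.lf 0)) (.nd (.lf 0) (.nd (.lf L6.E6_770) (.lf 0)))) (.nd (.nd (.nd (.lf 0) (.lf
L6.E6_1154)) (.nd (.lf L6.E6_642) (.lf 0))) (.nd (.lf 0) (.nd (.lf L6.E6_898) (.lf 0))))) (.nd
(.nd (.nd (.nd (.lf 0) (.lf L6.E6_1090)) (.nd (.lf L6.E6_578) (.lf 0))) (.nd (.lf 0) (.nd (.lf
L6.E6_834) (.lf 0)))) (.nd (.nd (.lf 0) (.nd (.lf L6.E6_706) (.lf 0))) (.nd (.lf 0) (.nd (.lf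
L6.E6_962) (.lf 0)))))) (.nd (.nd (.nd (.nd (.nd (.lf 0) (.lf L6.E6_1058)) (.nd (.lf L6.E6_546)
(.lf 0))) (.nd (.lf 0) (.nd (.lf L6.E6_802) (.lf 0)))) (.nd (.nd (.nd (.lf 0) (.lf L6.E6_1186))
(.nd (.lf L6.E6_674) (.lf 0))) (.nd (.lf 0) (.nd (.lf L6.E6_930) (.lf 0))))) (.nd (.nd (.nd (.nd
(.lf 0) (.lf L6.E6_1122)) (.nd (.lf L6.E6_610) (.lf 0))) (.nd (.lf 0) (.nd (.lf L6.E6_866) (.lf
0)))) (.nd (.nd (.lf 0) (.nd (.lf L6.E6_738) (.lf 0))) (.nd (.lf 0) (.nd (.lf L6.E6_994) (.lf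
0))))))) (.nd (.nd (.nd (.nd (.nd (.nd (.lf 0) (.lf L6.E6_1042)) (.nd (.lf L6.E6_530) (.lf 0)))
(.nd (.lf 0) (.nd (.lf L6.E6_786) (.lf 0)))) (.nd (.nd (.nd (.lf 0) (.lf L6.E6_1170)) (.nd (.lf
L6.E6_658) (.lf 0))) (.nd (.lf 0) (.nd (.lf L6.E6_914) (.lf 0))))) (.nd (.nd (.nd (.nd (.lf 0)
(.lf L6.E6_1106)) (.nd (.lf L6.E6_594) (.lf 0))) (.nd (.lf 0) (.nd (.lf L6.E6_850) (.lf 0))))
(.nd (.nd (.lf 0) (.nd (.lf L6.E6_722) (.lf 0))) (.nd (.lf 0) (.nd (.lf L6.E6_978) (.lf 0))))))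
(.nd (.nd (.nd (.nd (.nd (.lf 0) (.lf L6.E6_1074)) (.nd (.lf L6.E6_562) (.lf 0))) (.nd (.lf 0)
(.nd (.lf L6.E6_818) (.lf 0)))) (.nd (.nd (.nd (.lf 0) (.lf L6.E6_1202)) (.nd (.lf L6.E6_690)
(.lf 0))) (.nd (.lf 0) (.nd (.lf L6.E6_946) (.lf 0))))) (.nd (.nd (.nd (.nd (.lf 0) (.lf
L6.E6_1138)) (.nd (.lf L6.E6_626) (.lf 0))) (.nd (.lf 0) (.nd (.lf L6.E6_882) (.lf 0)))) (.nd
(.nd (.lf 0) (.nd (.lf L6.E6_754) (.lf 0))) (.nd (.lf 0) (.nd (.lf L6.E6_1010) (.lf 0))))))))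
(.nd (.nd (.nd (.nd (.nd (.nd (.nd (.lf 0) (.lf L6.E6_1034)) (.lf 0)) (.nd (.lf 0) (.nd (.lf
L6.E6_778) (.lf 0)))) (.nd (.nd (.nd (.lf 0) (.lf L6.E6_1162)) (.nd (.lf L6.E6_650) (.lf 0)))
(.nd (.lf 0) (.nd (.lf L6.E6_906) (.lf 0))))) (.nd (.nd (.nd (.nd (.lf 0) (.lf L6.E6_1098)) (.nd
(.lf L6.E6_586) (.lf 0))) (.nd (.lf 0) (.nd (.lf L6.E6_842) (.lf 0)))) (.nd (.nd (.lf 0) (.nd
(.lf L6.E6_714) (.lf 0))) (.nd (.lf 0) (.nd (.lf L6.E6_970) (.lf 0)))))) (.nd (.nd (.nd (.nd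
(.nd (.lf 0) (.lf L6.E6_1066)) (.nd (.lf L6.E6_554) (.lf 0))) (.nd (.lf 0) (.nd (.lf L6.E6_810)
(.lf 0)))) (.nd (.nd (.nd (.lf 0) (.lf L6.E6_1194)) (.nd (.lf L6.E6_682) (.lf 0))) (.nd (.lf 0)
(.nd (.lf L6.E6_938) (.lf 0))))) (.nd (.nd (.nd (.nd (.lf 0) (.lf L6.E6_1130)) (.nd (.lf
L6.E6_618) (.lf 0))) (.nd (.lf 0) (.nd (.lf L6.E6_874) (.lf 0)))) (.nd (.nd (.lf 0) (.nd (.lf
L6.E6_746) (.lf 0))) (.nd (.lf 0) (.nd (.lf L6.E6_1002) (.lf 0))))))) (.nd (.nd (.nd (.nd (.nd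
(.nd (.lf 0) (.lf L6.E6_1050)) (.nd (.lf L6.E6_538) (.lf 0))) (.nd (.lf 0) (.nd (.lf L6.E6_794)
(.lf 0)))) (.nd (.nd (.nd (.lf 0) (.lf L6.E6_1178)) (.nd (.lf L6.E6_666) (.lf 0))) (.nd (.lf 0)
(.nd (.lf L6.E6_922) (.lf 0))))) (.nd (.nd (.nd (.nd (.lf 0) (.lf L6.E6_1114)) (.nd (.lf
L6.E6_602) (.lf 0))) (.nd (.lf 0) (.nd (.lf L6.E6_858) (.lf 0)))) (.nd (.nd (.lf 0) (.nd (.lf
L6.E6_730) (.lf 0))) (.nd (.lf 0) (.nd (.lf L6.E6_986) (.lf 0)))))) (.nd (.nd (.nd (.nd (.nd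
(.lf 0) (.lf L6.E6_1082)) (.nd (.lf L6.E6_570) (.lf 0))) (.nd (.lf 0) (.nd (.lf L6.E6_826) (.lf
0)))) (.nd (.nd (.lf 0) (.nd (.lf L6.E6_698) (.lf 0))) (.nd (.lf 0) (.nd (.lf L6.E6_954) (.lf
0))))) (.nd (.nd (.nd (.nd (.lf 0) (.lf L6.E6_1146)) (.nd (.lf L6.E6_634) (.lf 0))) (.nd (.lf 0)
(.nd (.lf L6.E6_890) (.lf 0)))) (.nd (.nd (.lf 0) (.nd (.lf L6.E6_762) (.lf 0))) (.nd (.lf 0)
(.nd (.lf L6.E6_1018) (.lf 0))))))))) (.nd (.nd (.nd (.nd (.nd (.nd (.nd (.nd (.lf 0) (.lf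
L6.E6_1030)) (.lf 0)) (.nd (.lf 0) (.nd (.lf L6.E6_774) (.lf 0)))) (.nd (.nd (.nd (.lf 0) (.lf
L6.E6_1158)) (.nd (.lf L6.E6_646) (.lf 0))) (.nd (.lf 0) (.nd (.lf L6.E6_902) (.lf 0))))) (.nd
(.nd (.nd (.nd (.lf 0) (.lf L6.E6_1094)) (.nd (.lf L6.E6_582) (.lf 0))) (.nd (.lf 0) (.nd (.lf
L6.E6_838) (.lf 0)))) (.nd (.nd (.lf 0) (.nd (.lf L6.E6_710) (.lf 0))) (.nd (.lf 0) (.nd (.lf
L6.E6_966) (.lf 0)))))) (.nd (.nd (.nd (.nd (.nd (.lf 0) (.lf L6.E6_1062)) (.nd (.lf L6.E6_550)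
(.lf 0))) (.nd (.lf 0) (.nd (.lf L6.E6_806) (.lf 0)))) (.nd (.nd (.nd (.lf 0) (.lf L6.E6_1190))
(.nd (.lf L6.E6_678) (.lf 0))) (.nd (.lf 0) (.nd (.lf L6.E6_934) (.lf 0))))) (.nd (.nd (.nd (.nd
(.lf 0) (.lf L6.E6_1126)) (.nd (.lf L6.E6_614) (.lf 0))) (.nd (.lf 0) (.nd (.lf L6.E6_870) (.lf
0)))) (.nd (.nd (.lf 0) (.nd (.lf L6.E6_742) (.lf 0))) (.nd (.lf 0) (.nd (.lf L6.E6_998) (.lf
0))))))) (.nd (.nd (.nd (.nd (.nd (.nd (.lf 0) (.lf L6.E6_1046)) (.nd (.lf L6.E6_534) (.lf 0)))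
(.nd (.lf 0) (.nd (.lf L6.E6_790) (.lf 0)))) (.nd (.nd (.nd (.lf 0) (.lf L6.E6_1174)) (.nd (.lf
L6.E6_662) (.lf 0))) (.nd (.lf 0) (.nd (.lf L6.E6_918) (.lf 0))))) (.nd (.nd (.nd (.nd (.lf 0)
(.lf L6.E6_1110)) (.nd (.lf L6.E6_598) (.lf 0))) (.nd (.lf 0) (.nd (.lf L6.E6_854) (.lf 0))))
(.nd (.nd (.lf 0) (.nd (.lf L6.E6_726) (.lf 0))) (.nd (.lf 0) (.nd (.lf L6.E6_982) (.lf 0))))))
(.nd (.nd (.nd (.nd (.nd (.lf 0) (.lf L6.E6_1078)) (.nd (.lf L6.E6_566) (.lf 0))) (.nd (.lf 0)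
(.nd (.lf L6.E6_822) (.lf 0)))) (.nd (.nd (.lf 0) (.nd (.lf L6.E6_694) (.lf 0))) (.nd (.lf 0)
(.nd (.lf L6.E6_950) (.lf 0))))) (.nd (.nd (.nd (.nd (.lf 0) (.lf L6.E6_1142)) (.nd (.lf
L6.E6_630) (.lf 0))) (.nd (.lf 0) (.nd (.lf L6.E6_886) (.lf 0)))) (.nd (.nd (.lf 0) (.nd (.lf
L6.E6_758) (.lf 0))) (.nd (.lf 0) (.nd (.lf L6.E6_1014) (.lf 0)))))))) (.nd (.nd (.nd (.nd (.nd
(.nd (.nd (.lf 0) (.lf L6.E6_1038)) (.nd (.lf L6.E6_526) (.lf 0))) (.nd (.lf 0) (.nd (.lf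
L6.E6_782) (.lf 0)))) (.nd (.nd (.nd (.lf 0) (.lf L6.E6_1166)) (.nd (.lf L6.E6_654) (.lf 0)))
(.nd (.lf 0) (.nd (.lf L6.E6_910) (.lf 0))))) (.nd (.nd (.nd (.nd (.lf 0) (.lf L6.E6_1102)) (.nd
(.lf L6.E6_590) (.lf 0))) (.nd (.lf 0) (.nd (.lf L6.E6_846) (.lf 0)))) (.nd (.nd (.lf 0) (.nd
(.lf L6.E6_718) (.lf 0))) (.nd (.lf 0) (.nd (.lf L6.E6_974) (.lf 0)))))) (.nd (.nd (.nd (.nd
(.nd (.lf 0) (.lf L6.E6_1070)) (.nd (.lf L6.E6_558) (.lf 0))) (.nd (.lf 0) (.nd (.lf L6.E6_814)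
(.lf 0)))) (.nd (.nd (.nd (.lf 0) (.lf L6.E6_1198)) (.nd (.lf L6.E6_686) (.lf 0))) (.nd (.lf 0)
(.nd (.lf L6.E6_942) (.lf 0))))) (.nd (.nd (.nd (.nd (.lf 0) (.lf L6.E6_1134)) (.nd (.lf
L6.E6_622) (.lf 0))) (.nd (.lf 0) (.nd (.lf L6.E6_878) (.lf 0)))) (.nd (.nd (.lf 0) (.nd (.lf
L6.E6_750) (.lf 0))) (.nd (.lf 0) (.nd (.lf L6.E6_1006) (.lf 0))))))) (.nd (.nd (.nd (.nd (.nd
(.nd (.lf 0) (.lf L6.E6_1054)) (.nd (.lf L6.E6_542) (.lf 0))) (.nd (.lf 0) (.nd (.lf L6.E6_798)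
(.lf 0)))) (.nd (.nd (.nd (.lf 0) (.lf L6.E6_1182)) (.nd (.lf L6.E6_670) (.lf 0))) (.nd (.lf 0)
(.nd (.lf L6.E6_926) (.lf 0))))) (.nd (.nd (.nd (.nd (.lf 0) (.lf L6.E6_1118)) (.nd (.lf
L6.E6_606) (.lf 0))) (.nd (.lf 0) (.nd (.lf L6.E6_862) (.lf 0)))) (.nd (.nd (.lf 0) (.nd (.lf
L6.E6_734) (.lf 0))) (.nd (.lf 0) (.nd (.lf L6.E6_990) (.lf 0)))))) (.nd (.nd (.nd (.nd (.nd
(.lf 0) (.lf L6.E6_1086)) (.nd (.lf L6.E6_574) (.lf 0))) (.nd (.lf 0) (.nd (.lf L6.E6_830) (.lf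
0)))) (.nd (.nd (.lf 0) (.nd (.lf L6.E6_702) (.lf 0))) (.nd (.lf 0) (.nd (.lf L6.E6_958) (.lf
0))))) (.nd (.nd (.nd (.nd (.lf 0) (.lf L6.E6_1150)) (.nd (.lf L6.E6_638) (.lf 0))) (.nd (.lf 0)
(.nd (.lf L6.E6_894) (.lf 0)))) (.nd (.nd (.lf 0) (.nd (.lf L6.E6_766) (.lf 0))) (.nd (.lf 0)
(.nd (.lf L6.E6_1022) (.lf 0))))))))))) (.nd (.nd (.nd (.nd (.nd (.nd (.nd (.nd (.nd (.nd (.lf
0) (.lf L6.E6_1025)) (.lf 0)) (.nd (.lf 0) (.nd (.lf L6.E6_769) (.lf 0)))) (.nd (.nd (.nd (.lf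
0) (.lf L6.E6_1153)) (.nd (.lf L6.E6_641) (.lf 0))) (.nd (.lf 0) (.nd (.lf L6.E6_897) (.lf
0))))) (.nd (.nd (.nd (.nd (.lf 0) (.lf L6.E6_1089)) (.nd (.lf L6.E6_577) (.lf 0))) (.nd (.lf 0)
(.nd (.lf L6.E6_833) (.lf 0)))) (.nd (.nd (.lf 0) (.nd (.lf L6.E6_705) (.lf 0))) (.nd (.lf 0)
(.nd (.lf L6.E6_961) (.lf 0)))))) (.nd (.nd (.nd (.nd (.nd (.lf 0) (.lf L6.E6_1057)) (.nd (.lf
L6.E6_545) (.lf 0))) (.nd (.lf 0) (.nd (.lf L6.E6_801) (.lf 0)))) (.nd (.nd (.nd (.lf 0) (.lf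
L6.E6_1185)) (.nd (.lf L6.E6_673) (.lf 0))) (.nd (.lf 0) (.nd (.lf L6.E6_929) (.lf 0))))) (.nd
(.nd (.nd (.nd (.lf 0) (.lf L6.E6_1121)) (.nd (.lf L6.E6_609) (.lf 0))) (.nd (.lf 0) (.nd (.lf
L6.E6_865) (.lf 0)))) (.nd (.nd (.lf 0) (.nd (.lf L6.E6_737) (.lf 0))) (.nd (.lf 0) (.nd (.lf
L6.E6_993) (.lf 0))))))) (.nd (.nd (.nd (.nd (.nd (.nd (.lf 0) (.lf L6.E6_1041)) (.lf 0)) (.nd
(.lf 0) (.nd (.lf L6.E6_785) (.lf 0)))) (.nd (.nd (.nd (.lf 0) (.lf L6.E6_1169)) (.nd (.lf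
L6.E6_657) (.lf 0))) (.nd (.lf 0) (.nd (.lf L6.E6_913) (.lf 0))))) (.nd (.nd (.nd (.nd (.lf 0)
(.lf L6.E6_1105)) (.nd (.lf L6.E6_593) (.lf 0))) (.nd (.lf 0) (.nd (.lf L6.E6_849) (.lf 0))))
(.nd (.nd (.lf 0) (.nd (.lf L6.E6_721) (.lf 0))) (.nd (.lf 0) (.nd (.lf L6.E6_977) (.lf 0))))))
(.nd (.nd (.nd (.nd (.nd (.lf 0) (.lf L6.E6_1073)) (.nd (.lf L6.E6_561) (.lf 0))) (.nd (.lf 0)
(.nd (.lf L6.E6_817) (.lf 0)))) (.nd (.nd (.nd (.lf 0) (.lf L6.E6_1201)) (.nd (.lf L6.E6_689)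
(.lf 0))) (.nd (.lf 0) (.nd (.lf L6.E6_945) (.lf 0))))) (.nd (.nd (.nd (.nd (.lf 0) (.lf
L6.E6_1137)) (.nd (.lf L6.E6_625) (.lf 0))) (.nd (.lf 0) (.nd (.lf L6.E6_881) (.lf 0)))) (.nd
(.nd (.lf 0) (.nd (.lf L6.E6_753) (.lf 0))) (.nd (.lf 0) (.nd (.lf L6.E6_1009) (.lf 0))))))))
(.nd (.nd (.nd (.nd (.nd (.nd (.nd (.lf 0) (.lf L6.E6_1033)) (.lf 0)) (.nd (.lf 0) (.nd (.lf
L6.E6_777) (.lf 0)))) (.nd (.nd (.nd (.lf 0) (.lf L6.E6_1161)) (.nd (.lf L6.E6_649) (.lf 0)))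
(.nd (.lf 0) (.nd (.lf L6.E6_905) (.lf 0))))) (.nd (.nd (.nd (.nd (.lf 0) (.lf L6.E6_1097)) (.nd
(.lf L6.E6_585) (.lf 0))) (.nd (.lf 0) (.nd (.lf L6.E6_841) (.lf 0)))) (.nd (.nd (.lf 0) (.nd
(.lf L6.E6_713) (.lf 0))) (.nd (.lf 0) (.nd (.lf L6.E6_969) (.lf 0)))))) (.nd (.nd (.nd (.nd
(.nd (.lf 0) (.lf L6.E6_1065)) (.nd (.lf L6.E6_553) (.lf 0))) (.nd (.lf 0) (.nd (.lf L6.E6_809)
(.lf 0)))) (.nd (.nd (.nd (.lf 0) (.lf L6.E6_1193)) (.nd (.lf L6.E6_681) (.lf 0))) (.nd (.lf 0)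
(.nd (.lf L6.E6_937) (.lf 0))))) (.nd (.nd (.nd (.nd (.lf 0) (.lf L6.E6_1129)) (.nd (.lf
L6.E6_617) (.lf 0))) (.nd (.lf 0) (.nd (.lf L6.E6_873) (.lf 0)))) (.nd (.nd (.lf 0) (.nd (.lf
L6.E6_745) (.lf 0))) (.nd (.lf 0) (.nd (.lf L6.E6_1001) (.lf 0))))))) (.nd (.nd (.nd (.nd (.nd
(.nd (.lf 0) (.lf L6.E6_1049)) (.nd (.lf L6.E6_537) (.lf 0))) (.nd (.lf 0) (.nd (.lf L6.E6_793)
(.lf 0)))) (.nd (.nd (.nd (.lf 0) (.lf L6.E6_1177)) (.nd (.lf L6.E6_665) (.lf 0))) (.nd (.lf 0)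
(.nd (.lf L6.E6_921) (.lf 0))))) (.nd (.nd (.nd (.nd (.lf 0) (.lf L6.E6_1113)) (.nd (.lf
L6.E6_601) (.lf 0))) (.nd (.lf 0) (.nd (.lf L6.E6_857) (.lf 0)))) (.nd (.nd (.lf 0) (.nd (.lf
L6.E6_729) (.lf 0))) (.nd (.lf 0) (.nd (.lf L6.E6_985) (.lf 0)))))) (.nd (.nd (.nd (.nd (.nd
(.lf 0) (.lf L6.E6_1081)) (.nd (.lf L6.E6_569) (.lf 0))) (.nd (.lf 0) (.nd (.lf L6.E6_825) (.lf
0)))) (.nd (.nd (.lf 0) (.nd (.lf L6.E6_697) (.lf 0))) (.nd (.lf 0) (.nd (.lf L6.E6_953) (.lf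
0))))) (.nd (.nd (.nd (.nd (.lf 0) (.lf L6.E6_1145)) (.nd (.lf L6.E6_633) (.lf 0))) (.nd (.lf 0)
(.nd (.lf L6.E6_889) (.lf 0)))) (.nd (.nd (.lf 0) (.nd (.lf L6.E6_761) (.lf 0))) (.nd (.lf 0)
(.nd (.lf L6.E6_1017) (.lf 0))))))))) (.nd (.nd (.nd (.nd (.nd (.nd (.nd (.nd (.lf 0) (.lf
L6.E6_1029)) (.lf 0)) (.nd (.lf 0) (.nd (.lf L6.E6_773) (.lf 0)))) (.nd (.nd (.nd (.lf 0) (.lf
L6.E6_1157)) (.nd (.lf L6.E6_645) (.lf 0))) (.nd (.lf 0) (.nd (.lf L6.E6_901) (.lf 0))))) (.nd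
(.nd (.nd (.nd (.lf 0) (.lf L6.E6_1093)) (.nd (.lf L6.E6_581) (.lf 0))) (.nd (.lf 0) (.nd (.lf
L6.E6_837) (.lf 0)))) (.nd (.nd (.lf 0) (.nd (.lf L6.E6_709) (.lf 0))) (.nd (.lf 0) (.nd (.lf
L6.E6_965) (.lf 0)))))) (.nd (.nd (.nd (.nd (.nd (.lf 0) (.lf L6.E6_1061)) (.nd (.lf L6.E6_549)
(.lf 0))) (.nd (.lf 0) (.nd (.lf L6.E6_805) (.lf 0)))) (.nd (.nd (.nd (.lf 0) (.lf L6.E6_1189))
(.nd (.lf L6.E6_677) (.lf 0))) (.nd (.lf 0) (.nd (.lf L6.E6_933) (.lf 0))))) (.nd (.nd (.nd (.nd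
(.lf 0) (.lf L6.E6_1125)) (.nd (.lf L6.E6_613) (.lf 0))) (.nd (.lf 0) (.nd (.lf L6.E6_869) (.lf
0)))) (.nd (.nd (.lf 0) (.nd (.lf L6.E6_741) (.lf 0))) (.nd (.lf 0) (.nd (.lf L6.E6_997) (.lf
0))))))) (.nd (.nd (.nd (.nd (.nd (.nd (.lf 0) (.lf L6.E6_1045)) (.nd (.lf L6.E6_533) (.lf 0)))
(.nd (.lf 0) (.nd (.lf L6.E6_789) (.lf 0)))) (.nd (.nd (.nd (.lf 0) (.lf L6.E6_1173)) (.nd (.lf
L6.E6_661) (.lf 0))) (.nd (.lf 0) (.nd (.lf L6.E6_917) (.lf 0))))) (.nd (.nd (.nd (.nd (.lf 0)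
(.lf L6.E6_1109)) (.nd (.lf L6.E6_597) (.lf 0))) (.nd (.lf 0) (.nd (.lf L6.E6_853) (.lf 0))))
(.nd (.nd (.lf 0) (.nd (.lf L6.E6_725) (.lf 0))) (.nd (.lf 0) (.nd (.lf L6.E6_981) (.lf 0))))))
(.nd (.nd (.nd (.nd (.nd (.lf 0) (.lf L6.E6_1077)) (.nd (.lf L6.E6_565) (.lf 0))) (.nd (.lf 0)
(.nd (.lf L6.E6_821) (.lf 0)))) (.nd (.nd (.lf 0) (.nd (.lf L6.E6_693) (.lf 0))) (.nd (.lf 0)
(.nd (.lf L6.E6_949) (.lf 0))))) (.nd (.nd (.nd (.nd (.lf 0) (.lf L6.E6_1141)) (.nd (.lf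
L6.E6_629) (.lf 0))) (.nd (.lf 0) (.nd (.lf L6.E6_885) (.lf 0)))) (.nd (.nd (.lf 0) (.nd (.lf
L6.E6_757) (.lf 0))) (.nd (.lf 0) (.nd (.lf L6.E6_1013) (.lf 0)))))))) (.nd (.nd (.nd (.nd (.nd
(.nd (.nd (.lf 0) (.lf L6.E6_1037)) (.lf 0)) (.nd (.lf 0) (.nd (.lf L6.E6_781) (.lf 0)))) (.nd
(.nd (.nd (.lf 0) (.lf L6.E6_1165)) (.nd (.lf L6.E6_653) (.lf 0))) (.nd (.lf 0) (.nd (.lf
L6.E6_909) (.lf 0))))) (.nd (.nd (.nd (.nd (.lf 0) (.lf L6.E6_1101)) (.nd (.lf L6.E6_589) (.lf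
0))) (.nd (.lf 0) (.nd (.lf L6.E6_845) (.lf 0)))) (.nd (.nd (.lf 0) (.nd (.lf L6.E6_717) (.lf
0))) (.nd (.lf 0) (.nd (.lf L6.E6_973) (.lf 0)))))) (.nd (.nd (.nd (.nd (.nd (.lf 0) (.lf
L6.E6_1069)) (.nd (.lf L6.E6_557) (.lf 0))) (.nd (.lf 0) (.nd (.lf L6.E6_813) (.lf 0)))) (.nd
(.nd (.nd (.lf 0) (.lf L6.E6_1197)) (.nd (.lf L6.E6_685) (.lf 0))) (.nd (.lf 0) (.nd (.lf
L6.E6_941) (.lf 0))))) (.nd (.nd (.nd (.nd (.lf 0) (.lf L6.E6_1133)) (.nd (.lf L6.E6_621) (.lf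
0))) (.nd (.lf 0) (.nd (.lf L6.E6_877) (.lf 0)))) (.nd (.nd (.lf 0) (.nd (.lf L6.E6_749) (.lf
0))) (.nd (.lf 0) (.nd (.lf L6.E6_1005) (.lf 0))))))) (.nd (.nd (.nd (.nd (.nd (.nd (.lf 0) (.lf
L6.E6_1053)) (.nd (.lf L6.E6_541) (.lf 0))) (.nd (.lf 0) (.nd (.lf L6.E6_797) (.lf 0)))) (.nd
(.nd (.nd (.lf 0) (.lf L6.E6_1181)) (.nd (.lf L6.E6_669) (.lf 0))) (.nd (.lf 0) (.nd (.lf
L6.E6_925) (.lf 0))))) (.nd (.nd (.nd (.nd (.lf 0) (.lf L6.E6_1117)) (.nd (.lf L6.E6_605) (.lf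
0))) (.nd (.lf 0) (.nd (.lf L6.E6_861) (.lf 0)))) (.nd (.nd (.lf 0) (.nd (.lf L6.E6_733) (.lf
0))) (.nd (.lf 0) (.nd (.lf L6.E6_989) (.lf 0)))))) (.nd (.nd (.nd (.nd (.nd (.lf 0) (.lf
L6.E6_1085)) (.nd (.lf L6.E6_573) (.lf 0))) (.nd (.lf 0) (.nd (.lf L6.E6_829) (.lf 0)))) (.nd
(.nd (.lf 0) (.nd (.lf L6.E6_701) (.lf 0))) (.nd (.lf 0) (.nd (.lf L6.E6_957) (.lf 0))))) (.nd
(.nd (.nd (.nd (.lf 0) (.lf L6.E6_1149)) (.nd (.lf L6.E6_637) (.lf 0))) (.nd (.lf 0) (.nd (.lf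
L6.E6_893) (.lf 0)))) (.nd (.nd (.lf 0) (.nd (.lf L6.E6_765) (.lf 0))) (.nd (.lf 0) (.nd (.lf
L6.E6_1021) (.lf 0)))))))))) (.nd (.nd (.nd (.nd (.nd (.nd (.nd (.nd (.nd (.lf 0) (.lf
L6.E6_1027)) (.lf 0)) (.nd (.lf 0) (.nd (.lf L6.E6_771) (.lf 0)))) (.nd (.nd (.nd (.lf 0) (.lf
L6.E6_1155)) (.nd (.lf L6.E6_643) (.lf 0))) (.nd (.lf 0) (.nd (.lf L6.E6_899) (.lf 0))))) (.nd
(.nd (.nd (.nd (.lf 0) (.lf L6.E6_1091)) (.nd (.lf L6.E6_579) (.lf 0))) (.nd (.lf 0) (.nd (.lf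
L6.E6_835) (.lf 0)))) (.nd (.nd (.lf 0) (.nd (.lf L6.E6_707) (.lf 0))) (.nd (.lf 0) (.nd (.lf
L6.E6_963) (.lf 0)))))) (.nd (.nd (.nd (.nd (.nd (.lf 0) (.lf L6.E6_1059)) (.nd (.lf L6.E6_547)
(.lf 0))) (.nd (.lf 0) (.nd (.lf L6.E6_803) (.lf 0)))) (.nd (.nd (.nd (.lf 0) (.lf L6.E6_1187))
(.nd (.lf L6.E6_675) (.lf 0))) (.nd (.lf 0) (.nd (.lf L6.E6_931) (.lf 0))))) (.nd (.nd (.nd (.nd
(.lf 0) (.lf L6.E6_1123)) (.nd (.lf L6.E6_611) (.lf 0))) (.nd (.lf 0) (.nd (.lf L6.E6_867) (.lf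
0)))) (.nd (.nd (.lf 0) (.nd (.lf L6.E6_739) (.lf 0))) (.nd (.lf 0) (.nd (.lf L6.E6_995) (.lf
0))))))) (.nd (.nd (.nd (.nd (.nd (.nd (.lf 0) (.lf L6.E6_1043)) (.nd (.lf L6.E6_531) (.lf 0)))
(.nd (.lf 0) (.nd (.lf L6.E6_787) (.lf 0)))) (.nd (.nd (.nd (.lf 0) (.lf L6.E6_1171)) (.nd (.lf
L6.E6_659) (.lf 0))) (.nd (.lf 0) (.nd (.lf L6.E6_915) (.lf 0))))) (.nd (.nd (.nd (.nd (.lf 0)
(.lf L6.E6_1107)) (.nd (.lf L6.E6_595) (.lf 0))) (.nd (.lf 0) (.nd (.lf L6.E6_851) (.lf 0))))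
(.nd (.nd (.lf 0) (.nd (.lf L6.E6_723) (.lf 0))) (.nd (.lf 0) (.nd (.lf L6.E6_979) (.lf 0))))))
(.nd (.nd (.nd (.nd (.nd (.lf 0) (.lf L6.E6_1075)) (.nd (.lf L6.E6_563) (.lf 0))) (.nd (.lf 0)
(.nd (.lf L6.E6_819) (.lf 0)))) (.nd (.nd (.nd (.lf 0) (.lf L6.E6_1203)) (.nd (.lf L6.E6_691)
(.lf 0))) (.nd (.lf 0) (.nd (.lf L6.E6_947) (.lf 0))))) (.nd (.nd (.nd (.nd (.lf 0) (.lf
L6.E6_1139)) (.nd (.lf L6.E6_627) (.lf 0))) (.nd (.lf 0) (.nd (.lf L6.E6_883) (.lf 0)))) (.nd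
(.nd (.lf 0) (.nd (.lf L6.E6_755) (.lf 0))) (.nd (.lf 0) (.nd (.lf L6.E6_1011) (.lf 0))))))))
(.nd (.nd (.nd (.nd (.nd (.nd (.nd (.lf 0) (.lf L6.E6_1035)) (.lf 0)) (.nd (.lf 0) (.nd (.lf
L6.E6_779) (.lf 0)))) (.nd (.nd (.nd (.lf 0) (.lf L6.E6_1163)) (.nd (.lf L6.E6_651) (.lf 0)))
(.nd (.lf 0) (.nd (.lf L6.E6_907) (.lf 0))))) (.nd (.nd (.nd (.nd (.lf 0) (.lf L6.E6_1099)) (.nd
(.lf L6.E6_587) (.lf 0))) (.nd (.lf 0) (.nd (.lf L6.E6_843) (.lf 0)))) (.nd (.nd (.lf 0) (.nd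
(.lf L6.E6_715) (.lf 0))) (.nd (.lf 0) (.nd (.lf L6.E6_971) (.lf 0)))))) (.nd (.nd (.nd (.nd
(.nd (.lf 0) (.lf L6.E6_1067)) (.nd (.lf L6.E6_555) (.lf 0))) (.nd (.lf 0) (.nd (.lf L6.E6_811)
(.lf 0)))) (.nd (.nd (.nd (.lf 0) (.lf L6.E6_1195)) (.nd (.lf L6.E6_683) (.lf 0))) (.nd (.lf 0)
(.nd (.lf L6.E6_939) (.lf 0))))) (.nd (.nd (.nd (.nd (.lf 0) (.lf L6.E6_1131)) (.nd (.lf
L6.E6_619) (.lf 0))) (.nd (.lf 0) (.nd (.lf L6.E6_875) (.lf 0)))) (.nd (.nd (.lf 0) (.nd (.lf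
L6.E6_747) (.lf 0))) (.nd (.lf 0) (.nd (.lf L6.E6_1003) (.lf 0))))))) (.nd (.nd (.nd (.nd (.nd
(.nd (.lf 0) (.lf L6.E6_1051)) (.nd (.lf L6.E6_539) (.lf 0))) (.nd (.lf 0) (.nd (.lf L6.E6_795)
(.lf 0)))) (.nd (.nd (.nd (.lf 0) (.lf L6.E6_1179)) (.nd (.lf L6.E6_667) (.lf 0))) (.nd (.lf 0)
(.nd (.lf L6.E6_923) (.lf 0))))) (.nd (.nd (.nd (.nd (.lf 0) (.lf L6.E6_1115)) (.nd (.lf
L6.E6_603) (.lf 0))) (.nd (.lf 0) (.nd (.lf L6.E6_859) (.lf 0)))) (.nd (.nd (.lf 0) (.nd (.lf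
L6.E6_731) (.lf 0))) (.nd (.lf 0) (.nd (.lf L6.E6_987) (.lf 0)))))) (.nd (.nd (.nd (.nd (.nd
(.lf 0) (.lf L6.E6_1083)) (.nd (.lf L6.E6_571) (.lf 0))) (.nd (.lf 0) (.nd (.lf L6.E6_827) (.lf
0)))) (.nd (.nd (.lf 0) (.nd (.lf L6.E6_699) (.lf 0))) (.nd (.lf 0) (.nd (.lf L6.E6_955) (.lf
0))))) (.nd (.nd (.nd (.nd (.lf 0) (.lf L6.E6_1147)) (.nd (.lf L6.E6_635) (.lf 0))) (.nd (.lf 0)
(.nd (.lf L6.E6_891) (.lf 0)))) (.nd (.nd (.lf 0) (.nd (.lf L6.E6_763) (.lf 0))) (.nd (.lf 0)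
(.nd (.lf L6.E6_1019) (.lf 0))))))))) (.nd (.nd (.nd (.nd (.nd (.nd (.nd (.nd (.lf 0) (.lf
L6.E6_1031)) (.lf 0)) (.nd (.lf 0) (.nd (.lf L6.E6_775) (.lf 0)))) (.nd (.nd (.nd (.lf 0) (.lf
L6.E6_1159)) (.nd (.lf L6.E6_647) (.lf 0))) (.nd (.lf 0) (.nd (.lf L6.E6_903) (.lf 0))))) (.nd
(.nd (.nd (.nd (.lf 0) (.lf L6.E6_1095)) (.nd (.lf L6.E6_583) (.lf 0))) (.nd (.lf 0) (.nd (.lf
L6.E6_839) (.lf 0)))) (.nd (.nd (.lf 0) (.nd (.lf L6.E6_711) (.lf 0))) (.nd (.lf 0) (.nd (.lf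
L6.E6_967) (.lf 0)))))) (.nd (.nd (.nd (.nd (.nd (.lf 0) (.lf L6.E6_1063)) (.nd (.lf L6.E6_551)
(.lf 0))) (.nd (.lf 0) (.nd (.lf L6.E6_807) (.lf 0)))) (.nd (.nd (.nd (.lf 0) (.lf L6.E6_1191))
(.nd (.lf L6.E6_679) (.lf 0))) (.nd (.lf 0) (.nd (.lf L6.E6_935) (.lf 0))))) (.nd (.nd (.nd (.nd
(.lf 0) (.lf L6.E6_1127)) (.nd (.lf L6.E6_615) (.lf 0))) (.nd (.lf 0) (.nd (.lf L6.E6_871) (.lf
0)))) (.nd (.nd (.lf 0) (.nd (.lf L6.E6_743) (.lf 0))) (.nd (.lf 0) (.nd (.lf L6.E6_999) (.lf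
0))))))) (.nd (.nd (.nd (.nd (.nd (.nd (.lf 0) (.lf L6.E6_1047)) (.nd (.lf L6.E6_535) (.lf 0)))
(.nd (.lf 0) (.nd (.lf L6.E6_791) (.lf 0)))) (.nd (.nd (.nd (.lf 0) (.lf L6.E6_1175)) (.nd (.lf
L6.E6_663) (.lf 0))) (.nd (.lf 0) (.nd (.lf L6.E6_919) (.lf 0))))) (.nd (.nd (.nd (.nd (.lf 0)
(.lf L6.E6_1111)) (.nd (.lf L6.E6_599) (.lf 0))) (.nd (.lf 0) (.nd (.lf L6.E6_855) (.lf 0))))
(.nd (.nd (.lf 0) (.nd (.lf L6.E6_727) (.lf 0))) (.nd (.lf 0) (.nd (.lf L6.E6_983) (.lf 0))))))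
(.nd (.nd (.nd (.nd (.nd (.lf 0) (.lf L6.E6_1079)) (.nd (.lf L6.E6_567) (.lf 0))) (.nd (.lf 0)
(.nd (.lf L6.E6_823) (.lf 0)))) (.nd (.nd (.lf 0) (.nd (.lf L6.E6_695) (.lf 0))) (.nd (.lf 0)
(.nd (.lf L6.E6_951) (.lf 0))))) (.nd (.nd (.nd (.nd (.lf 0) (.lf L6.E6_1143)) (.nd (.lf
L6.E6_631) (.lf 0))) (.nd (.lf 0) (.nd (.lf L6.E6_887) (.lf 0)))) (.nd (.nd (.lf 0) (.nd (.lf
L6.E6_759) (.lf 0))) (.nd (.lf 0) (.nd (.lf L6.E6_1015) (.lf 0)))))))) (.nd (.nd (.nd (.nd (.nd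
(.nd (.nd (.lf 0) (.lf L6.E6_1039)) (.lf 0)) (.nd (.lf 0) (.nd (.lf L6.E6_783) (.lf 0)))) (.nd
(.nd (.nd (.lf 0) (.lf L6.E6_1167)) (.nd (.lf L6.E6_655) (.lf 0))) (.nd (.lf 0) (.nd (.lf
L6.E6_911) (.lf 0))))) (.nd (.nd (.nd (.nd (.lf 0) (.lf L6.E6_1103)) (.nd (.lf L6.E6_591) (.lf
0))) (.nd (.lf 0) (.nd (.lf L6.E6_847) (.lf 0)))) (.nd (.nd (.lf 0) (.nd (.lf L6.E6_719) (.lf
0))) (.nd (.lf 0) (.nd (.lf L6.E6_975) (.lf 0)))))) (.nd (.nd (.nd (.nd (.nd (.lf 0) (.lf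
L6.E6_1071)) (.nd (.lf L6.E6_559) (.lf 0))) (.nd (.lf 0) (.nd (.lf L6.E6_815) (.lf 0)))) (.nd
(.nd (.nd (.lf 0) (.lf L6.E6_1199)) (.nd (.lf L6.E6_687) (.lf 0))) (.nd (.lf 0) (.nd (.lf
L6.E6_943) (.lf 0))))) (.nd (.nd (.nd (.nd (.lf 0) (.lf L6.E6_1135)) (.nd (.lf L6.E6_623) (.lf
0))) (.nd (.lf 0) (.nd (.lf L6.E6_879) (.lf 0)))) (.nd (.nd (.lf 0) (.nd (.lf L6.E6_751) (.lf
0))) (.nd (.lf 0) (.nd (.lf L6.E6_1007) (.lf 0))))))) (.nd (.nd (.nd (.nd (.nd (.nd (.lf 0) (.lf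
L6.E6_1055)) (.nd (.lf L6.E6_543) (.lf 0))) (.nd (.lf 0) (.nd (.lf L6.E6_799) (.lf 0)))) (.nd
(.nd (.nd (.lf 0) (.lf L6.E6_1183)) (.nd (.lf L6.E6_671) (.lf 0))) (.nd (.lf 0) (.nd (.lf
L6.E6_927) (.lf 0))))) (.nd (.nd (.nd (.nd (.lf 0) (.lf L6.E6_1119)) (.nd (.lf L6.E6_607) (.lf
0))) (.nd (.lf 0) (.nd (.lf L6.E6_863) (.lf 0)))) (.nd (.nd (.lf 0) (.nd (.lf L6.E6_735) (.lf
0))) (.nd (.lf 0) (.nd (.lf L6.E6_991) (.lf 0)))))) (.nd (.nd (.nd (.nd (.nd (.lf 0) (.lf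
L6.E6_1087)) (.nd (.lf L6.E6_575) (.lf 0))) (.nd (.lf 0) (.nd (.lf L6.E6_831) (.lf 0)))) (.nd
(.nd (.lf 0) (.nd (.lf L6.E6_703) (.lf 0))) (.nd (.lf 0) (.nd (.lf L6.E6_959) (.lf 0))))) (.nd
(.nd (.nd (.nd (.lf 0) (.lf L6.E6_1151)) (.nd (.lf L6.E6_639) (.lf 0))) (.nd (.lf 0) (.nd (.lf
L6.E6_895) (.lf 0)))) (.nd (.nd (.lf 0) (.nd (.lf L6.E6_767) (.lf 0))) (.nd (.lf 0) (.nd (.lf
L6.E6_1023) (.lf 0)))))))))))

/-- the allowed sixth points of the type `j` -/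
def E6 (j : Nat) : Nat := Tr.get EE j

end CR.Tab
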