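import Pool.Agent.Lib.MP_6f5d36_co.Struct2

set_option autoImplicit false

/-!
# MP_6f5d36_co : the frame in case II, with the colours of the bad edges (form asked for by helper54)
-/

namespace CR

/-- `f 8` is a point with at least two bad edges; either it has three of them (then `f 0, ..., f 7` have
no bad edge), or the third bad edge is `f 6 f 7`. -/
structure Frame2 (F : Conf 9) (f : ℕ → Fin 9) : Prop where
  inj : ∀ i j, i < 9 → j < 9 → f i = f j → i = j
  big : ∀ i j, i < j → j < 8 → ¬ (i = 6 ∧ j = 7) → 2 ≤ (F.c (f i) (f j)).val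
  alt : 2 ≤ (F.c (f 6) (f 7)).val ∨ ∃ a b, a < b ∧ b < 8 ∧
    (∀ i, i < 8 → i ≠ a → i ≠ b → 2 ≤ (F.c (f i) (f 8)).val) ∧
    ((F.c (f 6) (f 7) = 0 ∧ F.c (f a) (f 8) = 1 ∧ F.c (f b) (f 8) = 1) ∨
     (F.c (f 6) (f 7) = 1 ∧ F.c (f a) (f 8) = 0 ∧ F.c (f b) (f 8) = 1) ∨
     (F.c (f 6) (f 7) = 1 ∧ F.c (f a) (f 8) = 1 ∧ F.c (f b) (f 8) = 0))

/-- the pair in increasing order -/
def op (x y : Fin 9) : Fin 9 × Fin 9 := if x < y then (x, y) else (y, x)

theorem op_eq {x y u w : Fin 9} (h : op x y = op u w) : y = u ∨ y = w := by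
  unfold op at h
  split_ifs at h <;> simp only [Prod.mk.injEq] at h
  · exact Or.inr h.2
  · exact Or.inl h.2
  · exact Or.inl h.1
  · exact Or.inr h.1

/-- of three different bad edges one has the colour `0` and two have the colour `1` -/
theorem bad_colours (F : Conf 9) (x y u w s t : Fin 9) (hxy : x ≠ y) (huw : u ≠ w) (hst : s ≠ t)
    (b1 : (F.c x y).val < 2) (b2 : (F.c u w).val < 2) (b3 : (F.c s t).val < 2)
    (h12 : op x y ≠ op u w) (h13 : op x y ≠ op s t) (h23 : op u w ≠ op s t) :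
    ((F.c x y).val = 0 ∧ (F.c u w).val = 1 ∧ (F.c s t).val = 1) ∨
    ((F.c x y).val = 1 ∧ (F.c u w).val = 0 ∧ (F.c s t).val = 1) ∨
    ((F.c x y).val = 1 ∧ (F.c u w).val = 1 ∧ (F.c s t).val = 0) := by
  obtain ⟨p, p', r, r', t0, t', hp, hr, ht, hne, cp, cr, ct, hall⟩ := bad_pairs F
  have key : ∀ a b : Fin 9, a ≠ b → (F.c a b).val < 2 →
      ((F.c a b).val = 0 ∧ op a b = (p, p')) ∨ ((F.c a b).val = 1 ∧ op a b = (r, r')) ∨
        ((F.c a b).val = 1 ∧ op a b = (t0, t')) := by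
    intro a b hab hb
    rcases lt_or_gt_of_ne hab with h | h
    · have e : op a b = (a, b) := if_pos h
      rw [e]
      rcases hall a b h hb with ⟨rfl, rfl⟩ | ⟨rfl, rfl⟩ | ⟨rfl, rfl⟩
      · exact Or.inl ⟨cp, rfl⟩
      · exact Or.inr (Or.inl ⟨cr, rfl⟩)
      · exact Or.inr (Or.inr ⟨ct, rfl⟩)
    · have e : op a b = (b, a) := if_neg (not_lt.2 h.le)
      rw [e]
      rw [F.symm] at hb ⊢
      rcases hall b a h hb with ⟨rfl, rfl⟩ | ⟨rfl, rfl⟩ | ⟨rfl, rfl⟩
      · exact Or.inl ⟨cp, rfl⟩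
      · exact Or.inr (Or.inl ⟨cr, rfl⟩)
      · exact Or.inr (Or.inr ⟨ct, rfl⟩)
  rcases key x y hxy b1 with ⟨c1, e1⟩ | ⟨c1, e1⟩ | ⟨c1, e1⟩ <;>
    rcases key u w huw b2 with ⟨c2, e2⟩ | ⟨c2, e2⟩ | ⟨c2, e2⟩ <;>
    first
    | exact absurd (e1.trans e2.symm) h12
    | (rcases key s t hst b3 with ⟨c3, e3⟩ | ⟨c3, e3⟩ | ⟨c3, e3⟩ <;>
        first
        | exact absurd (e1.trans e3.symm) h13
        | exact absurd (e2.trans e3.symm) h23
        | exact Or.inl ⟨c1, c2, c3⟩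
        | exact Or.inr (Or.inl ⟨c1, c2, c3⟩)
        | exact Or.inr (Or.inr ⟨c1, c2, c3⟩))

theorem CasePath.frame2 {F : Conf 9} {f : ℕ → Fin 9} {a b : ℕ} (h : CasePath F f a b) :
    Frame2 F f := by
  obtain ⟨hinj, hab, hb, b67, ba, bb, hbig, hbig2⟩ := h
  refine ⟨hinj, hbig, Or.inr ⟨a, b, hab, hb, hbig2, ?_⟩⟩
  have n67 : f 6 ≠ f 7 := fun h => by have := hinj 6 7 (by norm_num) (by norm_num) h; omega
  have na : f a ≠ f 8 := fun h => by have := hinj a 8 (by omega) (by norm_num) h; omega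
  have nb : f b ≠ f 8 := fun h => by have := hinj b 8 (by omega) (by norm_num) h; omega
  have o1 : op (f 6) (f 7) ≠ op (f a) (f 8) := by
    intro h
    rcases op_eq h.symm with h1 | h1
    · have := hinj 8 6 (by norm_num) (by norm_num) h1; omega
    · have := hinj 8 7 (by norm_num) (by norm_num) h1; omega
  have o2 : op (f 6) (f 7) ≠ op (f b) (f 8) := by
    intro h
    rcases op_eq h.symm with h1 | h1
    · have := hinj 8 6 (by norm_num) (by norm_num) h1; omega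
    · have := hinj 8 7 (by norm_num) (by norm_num) h1; omega
  have o3 : op (f a) (f 8) ≠ op (f b) (f 8) := by
    intro h
    unfold op at h
    split_ifs at h <;> simp only [Prod.mk.injEq] at h
    · have := hinj a b (by omega) (by omega) h.1; omega
    · have := hinj 8 b (by omega) (by omega) h.2; omega
    · have := hinj 8 b (by omega) (by omega) h.1; omega
    · have := hinj a b (by omega) (by omega) h.2; omega
  rcases bad_colours F _ _ _ _ _ _ n67 na nb b67 ba bb o1 o2 o3 with h | h | h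
  · exact Or.inl ⟨Fin.ext h.1, Fin.ext h.2.1, Fin.ext h.2.2⟩
  · exact Or.inr (Or.inl ⟨Fin.ext h.1, Fin.ext h.2.1, Fin.ext h.2.2⟩)
  · exact Or.inr (Or.inr ⟨Fin.ext h.1, Fin.ext h.2.1, Fin.ext h.2.2⟩)

theorem CaseStar.frame2 {F : Conf 9} {f : ℕ → Fin 9} (h : CaseStar F f) : Frame2 F f :=
  ⟨h.1, fun i j hij hj _ => h.2 i j hij hj, Or.inl (h.2 6 7 (by norm_num) (by norm_num))⟩

/-- the two cases, with the frame in case II -/
theorem cases4 (F : Conf 9) : CaseI F ∨ ∃ f, Frame2 F f := by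
  rcases cases3 F with h | ⟨f, h⟩ | ⟨f, a, b, h⟩
  · exact Or.inl h
  · exact Or.inr ⟨f, h.frame2⟩
  · exact Or.inr ⟨f, h.frame2⟩

end CR
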