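import Pool.Agent.Lib.MP_6f5d36_co.Level9
import Pool.Agent.Lib.MP_6f5d36_co.Struct3

set_option autoImplicit false

/-!
# MP_6f5d36_co : the statements which the levels deliver to the final assembly

`reps k` (`k < nr`) are the codes of the six point patterns which may occur, in the order of the ranks.
* `CR.Rank6` : six points without bad edges have, in some order, one of the patterns `reps k`
  (levels 5 and 6);
* `CR.V7` : the conclusion of level 7 for one vertex `s` of `reps k` with the list `W` of star vectors;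
* `CR.Kill9` : the conclusion of levels 8 and 9 for one pattern;
* `CR.Die` : no configuration in case I has the minimal rank `k`.
-/

namespace CR

/-- the result of levels 5 and 6 -/
def Rank6 (nr : ℕ) (reps : ℕ → ℕ) : Prop :=
  ∀ (F : Conf 9) (f : ℕ → Fin 9), Big6 F f →
    ∃ (k : ℕ) (p : ℕ → ℕ) (g : ℕ → Fin 8), k < nr ∧ (∀ i, i < 6 → p i < 6) ∧
      (∀ i j, i < 6 → j < 6 → p i = p j → i = j) ∧ GoodG g ∧
      Occ F 6 (fun i => f (p i)) g (reps k)

/-- all labels of the representatives are big colours -/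
def RepLab (nr : ℕ) (reps : ℕ → ℕ) : Prop :=
  ∀ k, k < nr → ∀ i j, i < j → j < 6 → lab (reps k) i j < 6

/-- `k` is the minimal rank of an occurrence of a representative -/
def MinRank (nr : ℕ) (reps : ℕ → ℕ) (F : Conf 9) (k : ℕ) : Prop :=
  ∀ k' f' g', k' < nr → GoodG g' → Occ F 6 f' g' (reps k') → k ≤ k'

/-- the result of level 7 for the vertex `s` of `reps k` -/
def V7 (nr : ℕ) (reps : ℕ → ℕ) (k s : ℕ) (W : List ℕ) : Prop :=
  ∀ (F : Conf 9) (f : ℕ → Fin 9) (g : ℕ → Fin 8), Occ F 6 f g (reps k) → GoodG g →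
    MinRank nr reps F k → ∀ t, (∀ i, i < 6 → f i ≠ t) →
    (F.c (f s) t).val < 2 → (∀ i, i < 6 → i ≠ s → 2 ≤ (F.c (f i) t).val) →
    ∃ w ∈ W, L9.Star F f g s w t

/-- the result of levels 8 and 9 for one pattern `R` with the lists `W` -/
def Kill9 (R : ℕ) (W : ℕ → List ℕ) : Prop :=
  ∀ (F : Conf 9) (f : ℕ → Fin 9) (g : ℕ → Fin 8), (∀ i j, i < 9 → j < 9 → f i = f j → i = j) →
    Occ F 6 f g R → GoodG g → ∀ s1 s2 s3, s1 < 6 → s2 < 6 → s3 < 6 → s1 ≠ s2 → s1 ≠ s3 →
    s2 ≠ s3 → F.c (f s1) (f 6) = 1 → F.c (f s2) (f 7) = 1 → F.c (f s3) (f 8) = 0 →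
    (∃ w ∈ W s1, L9.Star F f g s1 w (f 6)) → (∃ w ∈ W s2, L9.Star F f g s2 w (f 7)) →
    (∃ w ∈ W s3, L9.Star F f g s3 w (f 8)) → False

/-- no configuration in case I has the minimal rank `k` -/
def Die (nr : ℕ) (reps : ℕ → ℕ) (k : ℕ) : Prop :=
  ∀ (F : Conf 9) (f : ℕ → Fin 9) (g : ℕ → Fin 8), (∀ i j, i < 9 → j < 9 → f i = f j → i = j) →
    Occ F 6 f g (reps k) → GoodG g → MinRank nr reps F k → ∀ s1 s2 s3, s1 < 6 → s2 < 6 → s3 < 6 →
    s1 ≠ s2 → s1 ≠ s3 → s2 ≠ s3 →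
    F.c (f s1) (f 6) = 1 → F.c (f s2) (f 7) = 1 → F.c (f s3) (f 8) = 0 →
    (∀ i, i < 6 → i ≠ s1 → 2 ≤ (F.c (f i) (f 6)).val) →
    (∀ i, i < 6 → i ≠ s2 → 2 ≤ (F.c (f i) (f 7)).val) →
    (∀ i, i < 6 → i ≠ s3 → 2 ≤ (F.c (f i) (f 8)).val) → False

theorem kill9_of_chk {ok ok7 : ℕ → ℕ → ℕ → Bool} (hok : ∀ m P C, ok m P C = true → ¬ Realk m 8 P)
    (hok7 : ∀ m P C, ok7 m P C = true → ¬ Realk m 7 P) {R : ℕ} {W : ℕ → List ℕ}
    {T : List (List L9.Tok)} (hT : L9.chk ok ok7 R W T = true) : Kill9 R W :=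
  fun _ _ _ hf hocc hg _ _ _ h1 h2 h3 h12 h13 h23 c1 c2 c3 w1 w2 w3 =>
    L9.level9 hok hok7 hT hf hocc hg h1 h2 h3 h12 h13 h23 c1 c2 c3 w1 w2 w3

/-- four of the six vertices have no star vector -/
theorem die_of_four {nr : ℕ} {reps : ℕ → ℕ} {k : ℕ} (S : List ℕ) (hS : S.Nodup)
    (hS6 : ∀ s ∈ S, s < 6) (hlen : 4 ≤ S.length) (h : ∀ s ∈ S, V7 nr reps k s []) :
    Die nr reps k := by
  classical
  intro F f g hf hocc hg hmin s1 s2 s3 h1 h2 h3 h12 h13 h23 c1 c2 c3 b1 b2 b3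
  have hne : ∀ j, 6 ≤ j → j < 9 → ∀ i, i < 6 → f i ≠ f j := fun j hj hj9 i hi he => by
    have := hf i j (by omega) hj9 he
    omega
  -- one of the three vertices is in `S`
  have hex : s1 ∈ S ∨ s2 ∈ S ∨ s3 ∈ S := by
    by_contra hn
    simp only [not_or] at hn
    have hsub : S.toFinset ∪ {s1, s2, s3} ⊆ Finset.range 6 := by
      intro x hx
      simp only [Finset.mem_union, List.mem_toFinset, Finset.mem_insert,
        Finset.mem_singleton] at hx
      rw [Finset.mem_range]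
      rcases hx with hx | rfl | rfl | rfl
      · exact hS6 x hx
      · exact h1
      · exact h2
      · exact h3
    have hdis : Disjoint S.toFinset {s1, s2, s3} := by
      rw [Finset.disjoint_left]
      intro x hx hx2
      rw [List.mem_toFinset] at hx
      simp only [Finset.mem_insert, Finset.mem_singleton] at hx2
      rcases hx2 with rfl | rfl | rfl
      · exact hn.1 hx
      · exact hn.2.1 hx
      · exact hn.2.2 hx
    have e1 := Finset.card_le_card hsub
    rw [Finset.card_union_of_disjoint hdis, List.toFinset_card_of_nodup hS, Finset.card_range,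
      Finset.card_eq_three.2 ⟨s1, s2, s3, h12, h13, h23, rfl⟩] at e1
    omega
  rcases hex with hm | hm | hm
  · obtain ⟨w, hw, -⟩ := h s1 hm F f g hocc hg hmin (f 6) (hne 6 (by norm_num) (by norm_num))
      (by rw [c1]; decide) b1
    simp at hw
  · obtain ⟨w, hw, -⟩ := h s2 hm F f g hocc hg hmin (f 7) (hne 7 (by norm_num) (by norm_num))
      (by rw [c2]; decide) b2
    simp at hw
  · obtain ⟨w, hw, -⟩ := h s3 hm F f g hocc hg hmin (f 8) (hne 8 (by norm_num) (by norm_num))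
      (by rw [c3]; decide) b3
    simp at hw

/-- all six vertices have lists of star vectors, and levels 8, 9 -/
theorem die_of_kill9 {nr : ℕ} {reps : ℕ → ℕ} {k : ℕ} {W : ℕ → List ℕ}
    (h : ∀ s, s < 6 → V7 nr reps k s (W s)) (h9 : Kill9 (reps k) W) : Die nr reps k := by
  intro F f g hf hocc hg hmin s1 s2 s3 h1 h2 h3 h12 h13 h23 c1 c2 c3 b1 b2 b3
  have hne : ∀ j, 6 ≤ j → j < 9 → ∀ i, i < 6 → f i ≠ f j := fun j hj hj9 i hi he => by
    have := hf i j (by omega) hj9 he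
    omega
  exact h9 F f g hf hocc hg s1 s2 s3 h1 h2 h3 h12 h13 h23 c1 c2 c3
    (h s1 h1 F f g hocc hg hmin (f 6) (hne 6 (by norm_num) (by norm_num))
      (by rw [c1]; decide) b1)
    (h s2 h2 F f g hocc hg hmin (f 7) (hne 7 (by norm_num) (by norm_num))
      (by rw [c2]; decide) b2)
    (h s3 h3 F f g hocc hg hmin (f 8) (hne 8 (by norm_num) (by norm_num))
      (by rw [c3]; decide) b3)

end CR
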