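import Pool.Agent.Lib.MP_6f5d36_co.Tab
import Pool.Agent.Lib.MP_6f5d36_co.FDefs

set_option autoImplicit false

/-!
# MP_6f5d36_co : the labels of the representatives are `0, ..., 5`
-/

namespace CR

/-- no octal digit (of 15) is `6` or `7` -/
def lt6 (x : ℕ) : Bool :=
  Nat.beq (Nat.land (Nat.land (Nat.shiftRight x 1) (Nat.shiftRight x 2)) 0x49249249249) 0

theorem lt6_sound {x : ℕ} (h : lt6 x = true) : ∀ e, e < 15 → od x e < 6 := by
  have h1 : ((x >>> 1) &&& (x >>> 2)) &&& 0x49249249249 = 0 := Nat.eq_of_beq_eq_true h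
  have hM : ∀ e, e < 15 → Nat.testBit 0x49249249249 (3 * e) = true := by decide
  intro e he
  by_contra hc
  have h7 : od x e = 6 ∨ od x e = 7 := by
    have := od_lt x e
    omega
  have hb : ∀ i, i < 3 → Nat.testBit (od x e) i = Nat.testBit x (3 * e + i) := by
    intro i hi
    have e1 : od x e = x / 2 ^ (3 * e) % 2 ^ 3 := by
      unfold od
      rw [pow_mul]
      norm_num
    rw [e1, Nat.testBit_mod_two_pow, Nat.testBit_div_two_pow]
    simp [hi, Nat.add_comm]
  have b1 : Nat.testBit x (3 * e + 1) = true := by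
    rw [← hb 1 (by norm_num)]
    rcases h7 with h | h <;> rw [h] <;> decide
  have b2 : Nat.testBit x (3 * e + 2) = true := by
    rw [← hb 2 (by norm_num)]
    rcases h7 with h | h <;> rw [h] <;> decide
  have h2 := congrArg (fun y => Nat.testBit y (3 * e)) h1
  simp only [Nat.testBit_and, Nat.testBit_shiftRight, Nat.zero_testBit] at h2
  rw [Nat.add_comm 1, Nat.add_comm 2, b1, b2, hM e he] at h2
  simp at h2

/-- all the numbers below `n` -/
noncomputable def allN (p : ℕ → Bool) (n : ℕ) : Bool :=
  Nat.rec true (fun k ih => cond (p k) ih false) n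

theorem allN_spec {p : ℕ → Bool} : ∀ {n : ℕ}, allN p n = true → ∀ k, k < n → p k = true := by
  intro n
  induction n with
  | zero => intro _ k hk; omega
  | succ n ih =>
    intro h k hk
    have h1 : allN p (n + 1) = cond (p n) (allN p n) false := rfl
    rw [h1] at h
    have h2 : p n = true := by
      by_contra hc
      rw [Bool.not_eq_true] at hc
      rw [hc] at h
      exact absurd h Bool.false_ne_true
    rw [h2] at h
    rcases Nat.lt_succ_iff_lt_or_eq.1 hk with h3 | h3
    · exact ih h k h3
    · rw [h3]; exact h2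

theorem rep_lt6 : allN (fun k => lt6 (Tab.reps k)) Tab.nr = true := by decide +kernel

theorem repLab : RepLab Tab.nr Tab.reps := by
  intro k hk i j hij hj
  have h1 := lt6_sound (allN_spec rep_lt6 k hk)
  have h2 : eo i j < 15 := by
    unfold eo
    interval_cases j <;> simp only [Nat.reduceSub, Nat.reduceMul, Nat.reduceDiv] <;> omega
  rw [lab_eq_od]
  exact h1 _ h2

end CR
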