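set_option autoImplicit false

/-!
# MP_6f5d36_co : the star vectors which level 7 leaves (data of helper59)

`CR.Tab.W k s` : the star vectors (six octal digits, the digit `s` is 6) for the vertex `s` of the
processed rank `k`.
-/

namespace CR.Tab

/-- entry number `k - 4439`: the six lists of the rank `k` (empty when `k` is a killed rank) -/
def WL : List (List (List Nat)) :=
  [[[20550], [], [], [], [58178], [211537]],
   [[39622], [], [22956], [40133], [], []],
   [[], [84595], [119178], [], [], [217922]],
   [[98838], [4723], [], [15370], [], []],
   [],
   [[70174], [8819], [], [23562], [], []],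
   [],
   [],
   [],
   [],
   [],
   [],
   [],
   [[], [118898], [14252], [142603], [], []],
   [],
   [[], [165425], [], [], [24773], [218629]],
   [],
   [[22286], [], [], [], [24773], [202281]],
   [],
   [],
   [],
   [],
   [],
   [[], [], [], [36133], [59586], [214786]],
   [],
   [[8230], [5300], [], [], [91170], []],
   [],
   [[], [100913], [], [], [59715], [217417]],
   [[], [170355], [8619], [], [], [211474]],
   [[], [35701], [], [], [57571], [209604]],
   [],
   [],
   [[], [109364], [180642], [], [], [215810]],
   [],
   [[], [4725], [], [15370], [], [217929]],
   [],
   [],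
   [[54558], [], [], [], [27217], [209745]],
   [],
   [[17518], [], [46508], [76834], [], []],
   [[39054], [], [], [113933], [189029], []],
   [[], [80243], [], [], [191235], [211474]],
   [],
   [],
   [],
   [[53510], [], [140188], [], [], [209426]],
   [],
   [[2190], [21681], [67970], [], [], []],
   [],
   [[], [119025], [18333], [], [25386], []],
   [[145710], [131313], [], [], [], [215715]],
   [],
   [],
   [],
   [[], [], [103827], [175265], [], [202466]],
   [],
   [],
   [],
   [],
   [[101006], [50928], [], [], [], [210708]],
   [[2262], [], [], [72868], [], [211028]],
   [],
   [[172254], [], [103844], [], [60138], []],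
   [],
   [],
   [],
   [[], [177713], [], [], [24773], [218629]],
   [],
   [[], [152757], [168856], [], [], [205123]],
   [],
   [[172390], [79732], [], [134378], [], []],
   [],
   [],
   [[], [55092], [], [], [124044], [213770]],
   [],
   [],
   [],
   [[120086], [], [5523], [11425], [], []],
   [],
   [[], [], [42900], [72941], [58457], []],
   [[], [], [], [48474], [125259], [211484]],
   [],
   [[2382], [152753], [], [73044], [], []],
   [[1358], [88756], [], [73002], [], []],
   [],
   [[2382], [152753], [], [73044], [], []],
   [[165214], [], [], [], [157201], [214594]],
   [],
   [[], [137457], [916], [40035], [], []],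
   [],
   [[], [], [], [44116], [191066], [217946]],
   [],
   [[], [], [], [40097], [191115], [218443]],
   [],
   [[43790], [181617], [], [], [189130], []],
   [],
   [],
   [[34470], [], [], [], [57472], [201744]],
   [[], [], [], [146465], [57472], [209665]],
   [],
   [[172390], [], [38309], [40075], [], []],
   [[], [], [22924], [117858], [], [215692]],
   [],
   [],
   [[], [4337], [176538], [], [90826], []],
   [[43790], [181617], [], [], [189130], []],
   [[11022], [17777], [176538], [], [], []],
   [],
   [[], [], [71065], [179434], [125530], []],
   [[111758], [], [4513], [48156], [], []],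
   [],
   [[108758], [], [164261], [113820], [], []],
   [],
   [[111750], [], [4513], [15388], [], []],
   [],
   [[135470], [8434], [], [52483], [], []],
   [[8390], [], [], [68948], [157482], []],
   [[], [], [], [76899], [191042], [215569]],
   [],
   [[], [], [140202, 72101], [76908], [], [207619]],
   [],
   [],
   [[103622], [], [12683], [], [], [205507]],
   [],
   [[174694], [], [], [7300], [], [209745]],
   [],
   [],
   [],
   [[170022], [118897], [52107], [], [], []],
   [],
   [[], [], [], [11347], [26707, 91165], [213779]],
   [[], [], [86428], [], [25427], [207443]],
   [],
   [[], [181809], [], [138588], [188649], []],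
   [[70470], [153201], [], [], [], [206987, 218629]],
   [[], [136753], [51074], [], [], [214242]],
   [[], [146035], [], [], [156000], [218898]],
   [[], [], [182146], [154898], [], [218629]],
   [],
   [],
   [[], [], [42908], [72917], [57997], []],
   [[41166], [141940], [], [], [57864, 25434], []],
   [],
   [[32982], [4850, 131378], [], [], [], [205505]],
   [[170766, 108334], [38193], [37802], [], [], []],
   [[], [], [], [187482], [157250], [214545]],
   [],
   [[], [], [84363], [], [58643], [201744, 202915]],
   [[116910], [119089, 74547], [], [150787], [], []],
   [[], [], [], [48474, 171371], [125131], [211484]],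
   [],
   [[1310], [84147, 69939], [], [], [], [210149]],
   [],
   [],
   [[], [], [34688], [], [58384, 60075], [209024]],
   [[], [], [], [187482], [157250], [210449]],
   [],
   [[], [2931], [], [], [191185], [214149, 213093]],
   [],
   [[107654, 137422], [], [930], [7260], [], []],
   [],
   [[38038, 68262], [11124], [], [3305], [], []],
   [[], [], [], [11490, 167148], [124259], [211612]],
   [[], [5297, 11124], [], [], [25353], [205409]],
   [[], [], [], [187482], [157250], [198161]],
   [],
   [[], [], [84363], [], [58643], [201744, 202915]],
   [],
   [[76118], [], [], [80924], [25165], []],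
   [[38510], [], [], [52483], [25741], []],
   [[76118], [], [], [80924], [25101], []],
   [[], [], [], [11347, 134236], [58635], [202905]],
   [[], [], [], [11490, 167148], [124259], [211612]],
   [[], [], [104833, 105345], [], [58501], [207443]],
   [],
   [[], [69873], [111002], [], [58946, 189130], []],
   [[], [38448], [], [146713, 105571], [], [217292]],
   [],
   [[185478], [142131], [], [], [], [210498]],
   [[], [], [165292], [], [59409, 191060], [209756]],
   [[51870], [], [45466], [], [91714], []],
   [[], [], [], [187716], [90394], [213706, 206931]],
   [[185478], [142131], [], [], [], [210498]],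
   [[], [], [103833], [187531, 44116], [91914], []],
   [[], [], [13721, 132492], [], [92369], [206602]],
   [[], [], [], [150813], [58897], [218690]],
   [[14430, 104678], [41139], [], [], [], [205859]],
   [],
   [],
   [],
   [],
   [[32902], [], [], [7499], [], [219777, 210153]],
   [[], [], [], [101716], [156953, 190625], [213514]],
   [],
   [[119110], [14003, 184565], [147861], [], [], []],
   [],
   [],
   [[], [], [], [187491, 146652], [157268], [201889]],
   [[148998], [], [], [19747], [], [201425]],
   [[], [169520], [], [], [91275, 190293], [214890]],
   [],
   [],
   [],
   [[], [], [117163, 38804], [142562], [], [211612]],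
   [[183062, 80030], [], [140706], [40148], [], []],
   [[50958, 178782], [103153], [], [76899], [], []],
   [[], [], [42368], [7457], [], [197714, 213260]],
   [[138014], [153393], [], [138525], [157481], []],
   [[120038], [], [], [56459, 11603], [], [217612]],
   [],
   [],
   [[], [], [166804, 22933], [23644], [], [203025]],
   [],
   [[173926], [170354], [], [175457], [190810], []],
   [[119830], [180465], [72604], [], [189993], []],
   [],
   [[2350], [], [15268], [], [60098, 60099], []],
   [[], [], [], [101393], [59522], [200864]],
   [],
   [[], [12658], [], [], [190986], [207555]],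
   [[116766], [143667], [177037], [121961], [], []],
   [],
   [[], [5300], [], [15378], [], [205658, 218243]],
   [],
   [[], [79220], [], [183315], [], [211474]],
   [[], [88178], [], [175330], [58410], [211474]],
   [[88670], [], [], [56355], [], [201564]],
   [[41294], [86257], [17821], [], [25386], []],
   [],
   [],
   [],
   [],
   [],
   [[], [176306], [1933], [], [158362], []],
   [[], [176434], [1933], [], [190498], []],
   [[], [12402], [], [], [91170], [205635]],
   [[], [176434], [1933], [], [125596], []],
   [[121358], [176497], [86952], [175173], [], []],
   [],
   [],
   [],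
   [[], [143730], [], [], [157853], [213674]],
   [[107534], [78001], [], [], [59546], [202003]],
   [[41294], [119089], [14245], [], [25322], []],
   [[], [], [140693], [89218], [], [207107]],
   [],
   [],
   [[], [143730], [], [52418], [157853], [213667]],
   [[], [117364], [151947], [], [], [217923]],
   [[34126], [6961], [75658], [150753], [], []],
   [],
   [],
   [],
   [],
   [[187166], [144241], [13697], [], [], [207384]],
   [],
   [],
   [],
   [[], [], [84396], [101739], [], [209056, 213633]],
   [[], [], [177564], [72897, 118059], [191001], []],
   [[79054, 79566, 80590], [], [], [81100], [], [213338]],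
   [],
   [[47710], [], [], [118059, 48221], [25101], []],
   [[47198], [], [], [113868], [], [196962]],
   [[47710], [], [], [118059, 48221], [25165], []],
   [[117086], [], [4513], [44131, 52323], [], []],
   [],
   [[170318, 104622, 116526], [76017], [], [76907], [], []],
   [[], [], [], [183394], [124555], [215692]],
   [[137446], [], [49562], [], [], [210498, 198749]],
   [[115494], [], [], [], [57368], [202432, 202883, 215115]],
   [],
   [[137446], [], [49562], [], [], [210498]],
   [[68262], [], [181121], [68773], [], [213825]],
   [[109158], [], [22426, 22946, 111018], [], [], [217930]],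
   [[132694], [], [21907, 22947, 99741], [101533], [], []],
   [[13102], [], [113548], [], [60099], [200936]],
   [[47710], [], [], [], [58881, 58883, 155852], [200929]],
   [[], [], [174976], [], [92522, 25811, 188589], [198362]],
   [[149262, 22182], [], [], [150787, 175203], [], [196962]],
   [],
   [],
   [[], [], [], [7321, 134307], [90906], [217802, 206931]],
   [[67430, 1646], [], [140707], [], [], [214594, 209242]],
   [[120838, 14430, 79966, 178270], [], [], [23788], [], [211037]],
   [[], [], [101259], [11490, 167148], [124259], [211612]],
   [[], [], [185242, 46988], [109651], [58058], [202905]],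
   [[], [], [100779], [134369, 11466], [124171], [211097]],
   [[], [], [51089, 186260], [142562], [123667], [211100]],
   [[], [], [185739, 50595], [105625], [90826], [206931]],
   [[], [], [103833], [187531, 44116], [91914], [205459]],
   [[], [], [103833], [187531, 146572], [91914], [205523]],
   [[], [121460], [151947], [35883], [123241], [209603]],
   [[1838], [], [15260], [], [60099], [200936]],
   [[], [176434, 132468], [1933], [], [190498, 158364], []],
   [[], [], [146316], [118100], [59715], [207619]],
   [[], [145589], [8619], [89123], [], [211490]],
   [[], [1139], [139691], [], [157853], []],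
   [[], [], [174493], [122114], [91170, 124450], []],
   [[], [], [8587, 8619], [], [124675], [209426, 211474]],
   [[], [1141], [], [56339], [], [201562]],
   [],
   [],
   [[], [], [133025, 10122], [], [125067, 189212], [210201, 217747]],
   [[112646], [], [], [15580], [189201], [203114, 218252, 211037]],
   [[79966, 178270], [], [], [], [25361, 188756], [218252]],
   [],
   [[145414, 21070], [], [], [167125, 167133], [], [213770]],
   [[32878], [], [], [72937, 105705], [], [213770, 196962]],
   [[116230], [8371, 9907], [], [48221], [], [209178]],
   [],
   [],
   [[], [], [152971, 181667], [36003, 122012], [157908, 125596], []],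
   [[], [], [181643, 152972], [171169, 15500], [], [203425, 215138]],
   [[165382, 43222], [], [105372], [15691], [], [206353, 215269]],
   [[43222], [], [22421], [175340], [], [206353]],
   [[], [141042], [], [187716], [123171], [201812, 201813]],
   [[], [72372], [18321, 173962], [56529, 171220], [], [206666]],
   [[180430], [37105, 2355], [], [72930, 142499], [], [217802]],
   [[], [75506, 108274, 173810], [], [167273, 187396], [90397], []],
   [[51286], [], [], [68844, 138469], [191261, 157925], []],
   [[165982], [54067], [105345, 148899], [], [], []],
   [[55302, 170334, 174430], [], [], [35948], [156753], []],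
   [[], [69873], [], [109739], [], [218625, 213706, 218627, 218629]],
   [[53534], [], [], [3331], [123669], [213706, 217802]],
   [],
   [],
   [[], [119985], [119690], [], [90858], [201961]],
   [],
   [],
   [],
   [],
   [[47198], [], [], [109739], [], [200937, 209242]],
   [[], [], [], [85290, 101580, 48284, 134309], [90922, 156771], [209564]],
   [[], [], [79257, 117163, 112532], [142562], [123667], [211612]],
   [],
   [[], [], [13721, 152995, 18859], [179356, 101612], [], [206410, 211612]],
   [[], [], [120203, 14221], [171161, 101539], [124235], [203417]],
   [[], [], [119706, 178060], [56545, 175187, 68779, 101468], [60129, 123738], []],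
   [[], [], [166801, 136611, 51605, 182677], [85290, 48284, 134309], [90922], []],
   [],
   [[182998, 34406, 113006], [], [], [56403, 134380, 118045], [], [200929, 217802]],
   [[], [], [169369, 54178], [7329, 121995, 15565], [125579], [202073, 207444]],
   [[], [], [169369, 33693], [7329, 121995, 15565], [], [202073, 206932]],
   [[116230, 181766], [4337], [], [109731, 175267], [90826], []],
   [[112854, 121046, 112734, 178270], [], [], [], [189955], [218627]],
   [[], [], [87436, 99229], [11348, 146637], [122970], [205331]],
   [[132710], [], [12698], [179292, 101612], [123594], [218627]],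
   [[], [], [169369, 54178, 18858, 33693], [7329], [125579], [207444]],
   [],
   [],
   [[33878], [67314], [88458, 152979], [7521, 19755], [191115], [209244, 213261]],
   []]

/-- the six lists of the rank `k` (no lists for killed ranks) -/
def WT (k : Nat) : List (List Nat) := cond (Nat.ble 4439 k) (WL.getD (Nat.sub k 4439) []) []

/-- the star vectors for the vertex `s` of the rank `k` -/
def W (k s : Nat) : List Nat := (WT k).getD s []

/-- the processed ranks -/
def PR : List Nat := [4439, 4440, 4441, 4442, 4444, 4452, 4454, 4456, 4462, 4464, 4466, 4467,
  4468, 4471, 4473, 4476, 4478, 4479, 4480, 4484, 4486, 4488, 4489, 4493, 4498, 4499, 4501, 4505,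
  4507, 4509, 4512, 4516, 4518, 4519, 4521, 4522, 4524, 4525, 4527, 4529, 4531, 4533, 4536, 4537,
  4539, 4540, 4543, 4544, 4545, 4547, 4548, 4550, 4552, 4554, 4555, 4556, 4558, 4561, 4563, 4567,
  4569, 4570, 4572, 4573, 4574, 4575, 4576, 4579, 4580, 4582, 4583, 4584, 4586, 4587, 4588, 4590,
  4593, 4594, 4596, 4598, 4600, 4601, 4602, 4603, 4605, 4607, 4608, 4609, 4610, 4611, 4612, 4614,
  4615, 4617, 4618, 4619, 4620, 4621, 4622, 4623, 4624, 4625, 4630, 4631, 4633, 4636, 4637, 4638,
  4642, 4643, 4644, 4645, 4646, 4647, 4650, 4652, 4653, 4655, 4656, 4658, 4659, 4661, 4663, 4664,
  4665, 4666, 4672, 4673, 4674, 4675, 4676, 4680, 4681, 4682, 4683, 4686, 4687, 4688, 4693, 4697,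
  4698, 4699, 4701, 4702, 4703, 4704, 4706, 4707, 4708, 4709, 4711, 4712, 4713, 4714, 4715, 4716,
  4717, 4718, 4721, 4722, 4723, 4724, 4725, 4726, 4727, 4728, 4729, 4730, 4731, 4732, 4733, 4734,
  4735, 4736, 4737, 4738, 4739, 4742, 4743, 4744, 4746, 4747, 4748, 4751, 4752, 4753, 4754, 4755,
  4756, 4757, 4758, 4759, 4760, 4761, 4762, 4763, 4766, 4771, 4772, 4773, 4775, 4776, 4777, 4778,
  4780, 4781, 4782, 4783, 4784, 4785, 4786, 4787, 4790]

end CR.Tab
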