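import Pool.Agent.Lib.MP_6f5d36_co.Base

set_option autoImplicit false

/-!
# MP_6f5d36_co : facts on configurations in terms of the squared distances

`CR.tri a b c` : four times the squared area of a triangle (positive for three points of a
configuration); `CR.cm` : the Cayley-Menger cubic of four points (zero); `CR.pt` : the determinant
of the squared distances of four points (negative).
-/

namespace CR

/-- four times the squared area of a triangle with squared sides `a, b, c`, times four -/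
def tri (a b c : ℝ) : ℝ := 2 * a * b + 2 * b * c + 2 * c * a - a ^ 2 - b ^ 2 - c ^ 2

/-- the Cayley-Menger cubic of four points with squared distances
`a = 12, b = 13, c = 14, d = 23, e = 24, f = 34` -/
def cm (a b c d e f : ℝ) : ℝ :=
  a * f * (b + c + d + e - a - f) + b * e * (a + c + d + f - b - e) +
    c * d * (a + b + e + f - c - d) - a * b * d - a * c * e - b * c * f - d * e * f

/-- the determinant of the matrix of squared distances of four points -/
def pt (a b c d e f : ℝ) : ℝ :=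
  (a * f) ^ 2 + (b * e) ^ 2 + (c * d) ^ 2 - 2 * (a * f) * (b * e) - 2 * (a * f) * (c * d) -
    2 * (b * e) * (c * d)

theorem tri_eq {n : ℕ} (x y : Fin n → ℝ) (i j k : Fin n) :
    tri (sq x y i j) (sq x y i k) (sq x y j k) = 4 * area x y i j k ^ 2 := by
  unfold tri sq area; ring

theorem cm_eq {n : ℕ} (x y : Fin n → ℝ) (i j k l : Fin n) :
    cm (sq x y i j) (sq x y i k) (sq x y i l) (sq x y j k) (sq x y j l) (sq x y k l) = 0 := by
  unfold cm sq; ring

theorem pt_eq {n : ℕ} (x y : Fin n → ℝ) (i j k l : Fin n) :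
    pt (sq x y i j) (sq x y i k) (sq x y i l) (sq x y j k) (sq x y j l) (sq x y k l) =
      - 4 * circ x y i j k l ^ 2 := by
  unfold pt circ sq area; ring

variable {n : ℕ} (F : Conf n)

namespace Conf

/-- the squared distance of two points, through their colour -/
def s (i j : Fin n) : ℝ := F.D (F.c i j)

theorem s_symm (i j : Fin n) : F.s i j = F.s j i := by
  unfold s; rw [F.symm]

theorem s_pos (i j : Fin n) : 0 < F.s i j := F.pos _

theorem s_eq (i j : Fin n) (h : i ≠ j) : sq F.x F.y i j = F.s i j := F.dist i j h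

theorem s_inj (i j k l : Fin n) : F.s i j = F.s k l ↔ F.c i j = F.c k l :=
  ⟨fun h => F.inj h, fun h => by unfold s; rw [h]⟩

theorem tri_pos (i j k : Fin n) (hij : i ≠ j) (hik : i ≠ k) (hjk : j ≠ k) :
    0 < tri (F.s i j) (F.s i k) (F.s j k) := by
  rw [← F.s_eq i j hij, ← F.s_eq i k hik, ← F.s_eq j k hjk, tri_eq]
  have := F.nocol i j k hij hik hjk
  positivity

theorem cm_zero (i j k l : Fin n) (hij : i ≠ j) (hik : i ≠ k) (hil : i ≠ l) (hjk : j ≠ k)
    (hjl : j ≠ l) (hkl : k ≠ l) :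
    cm (F.s i j) (F.s i k) (F.s i l) (F.s j k) (F.s j l) (F.s k l) = 0 := by
  rw [← F.s_eq i j hij, ← F.s_eq i k hik, ← F.s_eq i l hil, ← F.s_eq j k hjk, ← F.s_eq j l hjl,
    ← F.s_eq k l hkl, cm_eq]

theorem pt_neg (i j k l : Fin n) (hij : i ≠ j) (hik : i ≠ k) (hil : i ≠ l) (hjk : j ≠ k)
    (hjl : j ≠ l) (hkl : k ≠ l) :
    pt (F.s i j) (F.s i k) (F.s i l) (F.s j k) (F.s j l) (F.s k l) < 0 := by
  rw [← F.s_eq i j hij, ← F.s_eq i k hik, ← F.s_eq i l hil, ← F.s_eq j k hjk, ← F.s_eq j l hjl,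
    ← F.s_eq k l hkl, pt_eq]
  have := F.nocirc i j k l hij hik hil hjk hjl hkl
  have h2 : 0 < circ F.x F.y i j k l ^ 2 := by positivity
  linarith

/-- a quadrangle with two pairs of equal opposite sides is a parallelogram -/
theorem para (i j k l : Fin n) (hij : i ≠ j) (hik : i ≠ k) (hil : i ≠ l) (hjk : j ≠ k)
    (hjl : j ≠ l) (hkl : k ≠ l) (h1 : F.s i j = F.s k l) (h2 : F.s j k = F.s i l) :
    F.s i k + F.s j l = 2 * F.s i j + 2 * F.s j k := by
  have h3 := F.cm_zero i j k l hij hik hil hjk hjl hkl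
  have h4 := F.pt_neg i j k l hij hik hil hjk hjl hkl
  rw [← h1, ← h2] at h3 h4
  unfold cm at h3
  unfold pt at h4
  have h5 : (F.s i k + F.s j l - 2 * F.s i j - 2 * F.s j k) *
      ((F.s i j - F.s j k) ^ 2 - F.s i k * F.s j l) = 0 := by
    linear_combination h3
  rcases mul_eq_zero.1 h5 with h6 | h6
  · linarith
  · exfalso
    have h7 : F.s i k * F.s j l = (F.s i j - F.s j k) ^ 2 := by linarith
    rw [h7] at h4
    nlinarith

/-- a point has at most three neighbours in each colour -/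
theorem deg_le (i j k l m : Fin n) (hij : i ≠ j) (hik : i ≠ k) (hil : i ≠ l) (him : i ≠ m)
    (hjk : j ≠ k) (hjl : j ≠ l) (hjm : j ≠ m) (hkl : k ≠ l) (hkm : k ≠ m) (hlm : l ≠ m)
    (h1 : F.c i j = F.c i k) (h2 : F.c i j = F.c i l) (h3 : F.c i j = F.c i m) : False := by
  have e1 : sq F.x F.y i j = sq F.x F.y i k := by rw [F.dist i j hij, F.dist i k hik, h1]
  have e2 : sq F.x F.y i j = sq F.x F.y i l := by rw [F.dist i j hij, F.dist i l hil, h2]
  have e3 : sq F.x F.y i j = sq F.x F.y i m := by rw [F.dist i j hij, F.dist i m him, h3]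
  apply F.nocirc j k l m hjk hjl hjm hkl hkm hlm
  unfold circ area
  unfold sq at e1 e2 e3 ⊢
  linear_combination
    (((F.x l - F.x j) * (F.y m - F.y j) - (F.x m - F.x j) * (F.y l - F.y j))) * (-e1) +
    (((F.x k - F.x j) * (F.y m - F.y j) - (F.x m - F.x j) * (F.y k - F.y j))) * e2 +
    (((F.x k - F.x j) * (F.y l - F.y j) - (F.x l - F.x j) * (F.y k - F.y j))) * (-e3)

/-- a pair of points has at most two apexes -/
theorem apex_le (i j k l m : Fin n) (hij : i ≠ j) (hik : i ≠ k) (hil : i ≠ l) (him : i ≠ m)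
    (hjk : j ≠ k) (hjl : j ≠ l) (hjm : j ≠ m) (hkl : k ≠ l) (hkm : k ≠ m) (hlm : l ≠ m)
    (h1 : F.c i k = F.c j k) (h2 : F.c i l = F.c j l) (h3 : F.c i m = F.c j m) : False := by
  have e1 : sq F.x F.y i k = sq F.x F.y j k := by rw [F.dist i k hik, F.dist j k hjk, h1]
  have e2 : sq F.x F.y i l = sq F.x F.y j l := by rw [F.dist i l hil, F.dist j l hjl, h2]
  have e3 : sq F.x F.y i m = sq F.x F.y j m := by rw [F.dist i m him, F.dist j m hjm, h3]
  have hd : 0 < sq F.x F.y i j := by rw [F.dist i j hij]; exact F.pos _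
  apply F.nocol k l m hkl hkm hlm
  have h4 : area F.x F.y k l m * sq F.x F.y i j = 0 := by
    have a1 : (F.x l - F.x k) * (F.x i - F.x j) + (F.y l - F.y k) * (F.y i - F.y j) = 0 := by
      unfold sq at e1 e2
      linear_combination (1 / 2 : ℝ) * e1 - (1 / 2 : ℝ) * e2
    have a2 : (F.x m - F.x k) * (F.x i - F.x j) + (F.y m - F.y k) * (F.y i - F.y j) = 0 := by
      unfold sq at e1 e3
      linear_combination (1 / 2 : ℝ) * e1 - (1 / 2 : ℝ) * e3
    unfold area sq
    linear_combination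
      ((F.x i - F.x j) * (F.y m - F.y k) - (F.y i - F.y j) * (F.x m - F.x k)) * a1 +
      ((F.y i - F.y j) * (F.x l - F.x k) - (F.x i - F.x j) * (F.y l - F.y k)) * a2
  exact (mul_eq_zero.1 h4).resolve_right hd.ne'

end Conf

end CR
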