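import Pool.Agent.Lib.MP_6f5d36_co.FDefs2

set_option autoImplicit false

/-!
# MP_6f5d36_co : case (ii), the assembly

`CR.no_frame2` : there is no configuration in case (ii), from the results of the levels.
-/

namespace CR

/-- an injective map of `0, ..., 5` is surjective -/
theorem surj6 {p : ℕ → ℕ} (hp : ∀ i, i < 6 → p i < 6)
    (hp2 : ∀ i j, i < 6 → j < 6 → p i = p j → i = j) : ∀ a, a < 6 → ∃ i, i < 6 ∧ p i = a := by
  intro a ha
  let φ : Fin 6 → Fin 6 := fun i => ⟨p i.val, hp _ i.isLt⟩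
  have hφ : Function.Injective φ := fun i j h => by
    apply Fin.ext
    exact hp2 _ _ i.isLt j.isLt (Fin.mk.inj_iff.1 h)
  obtain ⟨i, hi⟩ := Finite.injective_iff_surjective.1 hφ ⟨a, ha⟩
  exact ⟨i.val, i.isLt, Fin.mk.inj_iff.1 hi⟩

/-- the map of the nine points -/
def ext6 (p : ℕ → ℕ) (i : ℕ) : ℕ := if i < 6 then p i else i

theorem Frame2.perm {F : Conf 9} {f : ℕ → Fin 9} (h : Frame2 F f) {p : ℕ → ℕ}
    (hp : ∀ i, i < 6 → p i < 6) (hp2 : ∀ i j, i < 6 → j < 6 → p i = p j → i = j) :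
    Frame2 F (fun i => f (ext6 p i)) := by
  have q6 : ext6 p 6 = 6 := by simp [ext6]
  have q7 : ext6 p 7 = 7 := by simp [ext6]
  have q8 : ext6 p 8 = 8 := by simp [ext6]
  have qlt : ∀ m, 6 ≤ m → ∀ i, i < m → ext6 p i < m := fun m hm i hi => by
    unfold ext6
    split_ifs with h1
    · have := hp i h1
      omega
    · exact hi
  have qge : ∀ i, 6 ≤ ext6 p i → ext6 p i = i := fun i hi => by
    unfold ext6 at hi ⊢
    split_ifs at hi ⊢ with h1
    · have := hp i h1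
      omega
    · rfl
  have qinj : ∀ i j, ext6 p i = ext6 p j → i = j := fun i j hij => by
    unfold ext6 at hij
    split_ifs at hij with h1 h2 h2
    · exact hp2 i j h1 h2 hij
    · have := hp i h1
      omega
    · have := hp j h2
      omega
    · exact hij
  have qsur : ∀ m, 6 ≤ m → ∀ a, a < m → ∃ i, i < m ∧ ext6 p i = a := fun m hm a ha => by
    rcases Nat.lt_or_ge a 6 with h1 | h1
    · obtain ⟨i, hi, he⟩ := surj6 hp hp2 a h1
      exact ⟨i, by omega, by rw [ext6, if_pos hi, he]⟩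
    · exact ⟨a, ha, by rw [ext6, if_neg (by omega)]⟩
  have big' : ∀ i j, i ≠ j → i < 8 → j < 8 → ¬ (i = 6 ∧ j = 7) → ¬ (i = 7 ∧ j = 6) →
      2 ≤ (F.c (f i) (f j)).val := by
    intro i j hij hi hj h1 h2
    rcases Nat.lt_or_gt_of_ne hij with h3 | h3
    · exact h.big i j h3 hj h1
    · rw [F.symm]
      exact h.big j i h3 hi (fun h4 => h2 ⟨h4.2, h4.1⟩)
  refine ⟨fun i j hi hj he => ?_, fun i j hij hj hne => ?_, ?_⟩
  · exact qinj i j (h.inj _ _ (qlt 9 (by norm_num) i hi) (qlt 9 (by norm_num) j hj) he)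
  · refine big' _ _ (fun he => ?_) (qlt 8 (by norm_num) i (by omega)) (qlt 8 (by norm_num) j hj)
      (fun he => ?_) (fun he => ?_)
    · have := qinj i j he
      omega
    · have h1 := qge i (by omega)
      have h2 := qge j (by omega)
      exact hne ⟨by omega, by omega⟩
    · have h1 := qge i (by omega)
      have h2 := qge j (by omega)
      omega
  · show 2 ≤ (F.c (f (ext6 p 6)) (f (ext6 p 7))).val ∨ ∃ a b, a < b ∧ b < 8 ∧
      (∀ i, i < 8 → i ≠ a → i ≠ b → 2 ≤ (F.c (f (ext6 p i)) (f (ext6 p 8))).val) ∧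
      ((F.c (f (ext6 p 6)) (f (ext6 p 7)) = 0 ∧ F.c (f (ext6 p a)) (f (ext6 p 8)) = 1 ∧
          F.c (f (ext6 p b)) (f (ext6 p 8)) = 1) ∨
       (F.c (f (ext6 p 6)) (f (ext6 p 7)) = 1 ∧ F.c (f (ext6 p a)) (f (ext6 p 8)) = 0 ∧
          F.c (f (ext6 p b)) (f (ext6 p 8)) = 1) ∨
       (F.c (f (ext6 p 6)) (f (ext6 p 7)) = 1 ∧ F.c (f (ext6 p a)) (f (ext6 p 8)) = 1 ∧
          F.c (f (ext6 p b)) (f (ext6 p 8)) = 0))
    rw [q6, q7, q8]
    rcases h.alt with h1 | ⟨a, b, hab, hb, hbig, hc⟩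
    · exact Or.inl h1
    · right
      obtain ⟨a', ha', ea⟩ := qsur 8 (by norm_num) a (by omega)
      obtain ⟨b', hb', eb⟩ := qsur 8 (by norm_num) b hb
      have hne : a' ≠ b' := fun he => by
        rw [he, eb] at ea
        omega
      have hb8 : ∀ i, i < 8 → i ≠ a' → i ≠ b' → 2 ≤ (F.c (f (ext6 p i)) (f 8)).val :=
        fun i hi h1 h2 => hbig _ (qlt 8 (by norm_num) i hi) (fun he => h1 (qinj _ _ (he.trans ea.symm)))
          (fun he => h2 (qinj _ _ (he.trans eb.symm)))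
      rcases Nat.lt_or_gt_of_ne hne with h1 | h1
      · exact ⟨a', b', h1, hb', hb8, by rw [ea, eb]; exact hc⟩
      · refine ⟨b', a', h1, ha', fun i hi h2 h3 => hb8 i hi h3 h2, ?_⟩
        rw [ea, eb]
        rcases hc with ⟨c1, c2, c3⟩ | ⟨c1, c2, c3⟩ | ⟨c1, c2, c3⟩
        · exact Or.inl ⟨c1, c3, c2⟩
        · exact Or.inr (Or.inr ⟨c1, c3, c2⟩)
        · exact Or.inr (Or.inl ⟨c1, c3, c2⟩)

theorem Frame2.big6 {F : Conf 9} {f : ℕ → Fin 9} (h : Frame2 F f) : Big6 F f :=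
  ⟨fun i j hi hj he => h.inj i j (by omega) (by omega) he, fun i j hij hj =>
    h.big i j hij (by omega) (by omega)⟩

/-- **there is no configuration in case (ii)**, from the results of the levels -/
theorem no_frame2 {nr : ℕ} {reps : ℕ → ℕ} (h6 : Rank6 nr reps) {E : ℕ → List ℕ}
    (h7 : ∀ k, k < nr → V7c (reps k) (E k))
    (h8 : ∀ k, k < nr → E k ≠ [] → Kill2 (reps k) (E k)) (F : Conf 9) (f : ℕ → Fin 9) :
    ¬ Frame2 F f := by
  intro h
  obtain ⟨k, p, g, hk, hp, hp2, hg, hocc⟩ := h6 F f h.big6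
  have hF := h.perm hp hp2
  have eo : ∀ i, i < 6 → f (ext6 p i) = f (p i) := fun i hi => by rw [ext6, if_pos hi]
  have hocc' : Occ F 6 (fun i => f (ext6 p i)) g (reps k) := by
    refine ⟨fun i j hi hj he => hF.inj i j (by omega) (by omega) he, hocc.ginj,
      fun i j hij hj => ?_⟩
    show F.c (f (ext6 p i)) (f (ext6 p j)) = _
    rw [eo i (by omega), eo j hj]
    exact hocc.col i j hij hj
  have hb : ∀ t, 6 ≤ t → t < 8 → ∃ w ∈ E k, Star2 F (fun i => f (ext6 p i)) g w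
      (f (ext6 p t)) := fun t ht ht8 =>
    h7 k hk F _ g hocc' hg _ (fun i hi he => by
      have := hF.inj i t (by omega) (by omega) he
      omega) (fun i hi => hF.big i t (by omega) (by omega) (by omega))
  have hE : E k ≠ [] := fun he => by
    obtain ⟨w, hw, -⟩ := hb 6 (by norm_num) (by norm_num)
    rw [he] at hw
    simp at hw
  exact h8 k hk hE F _ g hF hocc' hg (hb 6 (by norm_num) (by norm_num))
    (hb 7 (by norm_num) (by norm_num))

end CR
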