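import Pool.Agent.Lib.MP_6f5d36_co.Occ

set_option autoImplicit false

/-!
# MP_6f5d36_co : the three bad edges

The colour `0` is used by one pair, the colour `1` by two pairs; these three pairs are the bad edges.
`CR.CaseI` : the bad edges are disjoint. Otherwise (`CR.CaseII`) there are seven points without bad
edges.
-/

namespace CR

/-- the bad edges are disjoint: `p p'` has the colour `0`, `r r'` and `t t'` have the colour `1` -/
def CaseI (F : Conf 9) : Prop :=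
  ∃ p p' r r' t t' : Fin 9, p ≠ p' ∧ r ≠ r' ∧ t ≠ t' ∧
    p ≠ r ∧ p ≠ r' ∧ p ≠ t ∧ p ≠ t' ∧ p' ≠ r ∧ p' ≠ r' ∧ p' ≠ t ∧ p' ≠ t' ∧
    r ≠ t ∧ r ≠ t' ∧ r' ≠ t ∧ r' ≠ t' ∧
    (F.c p p').val = 0 ∧ (F.c r r').val = 1 ∧ (F.c t t').val = 1 ∧
    ∀ x y, x ≠ y → (F.c x y).val < 2 →
      (x = p ∧ y = p') ∨ (x = p' ∧ y = p) ∨ (x = r ∧ y = r') ∨ (x = r' ∧ y = r) ∨
      (x = t ∧ y = t') ∨ (x = t' ∧ y = t)

/-- seven points without bad edges -/
def CaseII (F : Conf 9) : Prop :=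
  ∃ f : ℕ → Fin 9, (∀ i j, i < 7 → j < 7 → f i = f j → i = j) ∧
    ∀ i j, i < j → j < 7 → 2 ≤ (F.c (f i) (f j)).val

/-- six points without bad edges -/
def Big6 (F : Conf 9) (f : ℕ → Fin 9) : Prop :=
  (∀ i j, i < 6 → j < 6 → f i = f j → i = j) ∧
    ∀ i j, i < j → j < 6 → 2 ≤ (F.c (f i) (f j)).val

/-- enumeration of the complement of a small set -/
theorem exists_enum (A : Finset (Fin 9)) (n : ℕ) (h : A.card + n ≤ 9) :
    ∃ f : ℕ → Fin 9, (∀ i j, i < n → j < n → f i = f j → i = j) ∧ ∀ i, i < n → f i ∉ A := by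
  classical
  have h1 : n ≤ (Finset.univ \ A).card := by
    rw [Finset.card_sdiff]
    simp only [Finset.card_univ, Fintype.card_fin]
    have : (A ∩ Finset.univ).card = A.card := by rw [Finset.inter_univ]
    omega
  obtain ⟨B, hB, hBc⟩ := Finset.exists_subset_card_eq h1
  have e : Fin n ≃ B := (Fintype.equivFinOfCardEq (by simp [hBc])).symm
  refine ⟨fun i => if h : i < n then (e ⟨i, h⟩ : Fin 9) else 0, ?_, ?_⟩
  · intro i j hi hj hij
    simp only [hi, hj, dif_pos] at hij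
    have := e.injective (Subtype.ext hij)
    exact Fin.mk.inj_iff.1 this
  · intro i hi
    simp only [hi, dif_pos]
    have := hB (e ⟨i, hi⟩).2
    exact (Finset.mem_sdiff.1 this).2

/-- a set of at most two points which meets all the bad edges gives case II -/
theorem caseII_of_cover (F : Conf 9) (u v : Fin 9)
    (h : ∀ x y, x ≠ y → (F.c x y).val < 2 → x = u ∨ y = u ∨ x = v ∨ y = v) : CaseII F := by
  classical
  have h1 : ({u, v} : Finset (Fin 9)).card + 7 ≤ 9 := by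
    have := Finset.card_le_two (a := u) (b := v)
    omega
  obtain ⟨f, hf1, hf2⟩ := exists_enum {u, v} 7 h1
  refine ⟨f, hf1, fun i j hij hj => ?_⟩
  by_contra hc
  have hne : f i ≠ f j := fun he => by have := hf1 i j (by omega) hj he; omega
  have hi := hf2 i (by omega)
  have hj2 := hf2 j hj
  simp only [Finset.mem_insert, Finset.mem_singleton, not_or] at hi hj2
  rcases h _ _ hne (by omega) with h2 | h2 | h2 | h2
  · exact hi.1 h2
  · exact hj2.1 h2
  · exact hi.2 h2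
  · exact hj2.2 h2

/-- the bad pairs -/
theorem bad_pairs (F : Conf 9) :
    ∃ p p' r r' t t' : Fin 9, p < p' ∧ r < r' ∧ t < t' ∧ ¬ (r = t ∧ r' = t') ∧
    (F.c p p').val = 0 ∧ (F.c r r').val = 1 ∧ (F.c t t').val = 1 ∧
    ∀ x y, x < y → (F.c x y).val < 2 →
      (x = p ∧ y = p') ∨ (x = r ∧ y = r') ∨ (x = t ∧ y = t') := by
  classical
  have h0 := F.count ⟨0, by norm_num⟩
  have h1 := F.count ⟨1, by norm_num⟩
  simp only [Nat.reduceAdd, zero_add] at h0 h1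
  obtain ⟨a, ha⟩ := Finset.card_eq_one.1 h0
  obtain ⟨b, b', hb, hb2⟩ := Finset.card_eq_two.1 h1
  have m0 : ∀ x y, x < y → ((F.c x y).val = 0 ↔ (x, y) = a) := by
    intro x y hxy
    have := Finset.ext_iff.1 ha (x, y)
    simp only [Finset.mem_filter, Finset.mem_univ, true_and, Finset.mem_singleton] at this
    rw [← this, Fin.ext_iff]
    simp [hxy]
  have m1 : ∀ x y, x < y → ((F.c x y).val = 1 ↔ (x, y) = b ∨ (x, y) = b') := by
    intro x y hxy
    have := Finset.ext_iff.1 hb2 (x, y)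
    simp only [Finset.mem_filter, Finset.mem_univ, true_and, Finset.mem_insert,
      Finset.mem_singleton] at this
    rw [← this, Fin.ext_iff]
    simp [hxy]
  have l0 : a.1 < a.2 := by
    have := Finset.ext_iff.1 ha a
    simp only [Finset.mem_filter, Finset.mem_univ, true_and, Finset.mem_singleton, iff_true] at this
    exact this.1
  have l1 : b.1 < b.2 ∧ b'.1 < b'.2 := by
    have e1 := Finset.ext_iff.1 hb2 b
    have e2 := Finset.ext_iff.1 hb2 b'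
    simp only [Finset.mem_filter, Finset.mem_univ, true_and, Finset.mem_insert,
      Finset.mem_singleton, true_or, or_true, iff_true] at e1 e2
    exact ⟨e1.1, e2.1⟩
  refine ⟨a.1, a.2, b.1, b.2, b'.1, b'.2, l0, l1.1, l1.2, ?_, ?_, ?_, ?_, ?_⟩
  · rintro ⟨e1, e2⟩
    exact hb (Prod.ext e1 e2)
  · exact (m0 _ _ l0).2 rfl
  · exact (m1 _ _ l1.1).2 (Or.inl rfl)
  · exact (m1 _ _ l1.2).2 (Or.inr rfl)
  · intro x y hxy hc
    have h2 : (F.c x y).val = 0 ∨ (F.c x y).val = 1 := by omega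
    rcases h2 with h2 | h2
    · left
      have := (m0 x y hxy).1 h2
      rw [← this]
      exact ⟨rfl, rfl⟩
    · right
      rcases (m1 x y hxy).1 h2 with h3 | h3
      · left; rw [← h3]; exact ⟨rfl, rfl⟩
      · right; rw [← h3]; exact ⟨rfl, rfl⟩

/-- the two cases -/
theorem cases (F : Conf 9) : CaseI F ∨ CaseII F := by
  obtain ⟨p, p', r, r', t, t', hp, hr, ht, hne, cp, cr, ct, hall⟩ := bad_pairs F
  have hall2 : ∀ x y, x ≠ y → (F.c x y).val < 2 →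
      (x = p ∧ y = p') ∨ (x = p' ∧ y = p) ∨ (x = r ∧ y = r') ∨ (x = r' ∧ y = r) ∨
      (x = t ∧ y = t') ∨ (x = t' ∧ y = t) := by
    intro x y hxy hc
    rcases lt_or_gt_of_ne hxy with h | h
    · rcases hall x y h hc with h1 | h1 | h1
      · exact Or.inl h1
      · exact Or.inr (Or.inr (Or.inl h1))
      · exact Or.inr (Or.inr (Or.inr (Or.inr (Or.inl h1))))
    · rw [F.symm] at hc
      rcases hall y x h hc with h1 | h1 | h1
      · exact Or.inr (Or.inl h1.symm)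
      · exact Or.inr (Or.inr (Or.inr (Or.inl h1.symm)))
      · exact Or.inr (Or.inr (Or.inr (Or.inr (Or.inr h1.symm))))
  by_cases hd : p ≠ r ∧ p ≠ r' ∧ p ≠ t ∧ p ≠ t' ∧ p' ≠ r ∧ p' ≠ r' ∧ p' ≠ t ∧ p' ≠ t' ∧
    r ≠ t ∧ r ≠ t' ∧ r' ≠ t ∧ r' ≠ t'
  · left
    obtain ⟨d1, d2, d3, d4, d5, d6, d7, d8, d9, d10, d11, d12⟩ := hd
    exact ⟨p, p', r, r', t, t', hp.ne, hr.ne, ht.ne, d1, d2, d3, d4, d5, d6, d7, d8, d9, d10, d11,
      d12, cp, cr, ct, hall2⟩
  · right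
    -- a common point `u` of two of the edges and a point `v` of the third
    have key : ∃ u v : Fin 9, (p = u ∨ p' = u ∨ p = v ∨ p' = v) ∧
        (r = u ∨ r' = u ∨ r = v ∨ r' = v) ∧ (t = u ∨ t' = u ∨ t = v ∨ t' = v) := by
      by_contra hk
      apply hd
      refine ⟨?_, ?_, ?_, ?_, ?_, ?_, ?_, ?_, ?_, ?_, ?_, ?_⟩
      · intro h; exact hk ⟨p, t, by simp, by simp [h], by simp⟩
      · intro h; exact hk ⟨p, t, by simp, by simp [h], by simp⟩
      · intro h; exact hk ⟨p, r, by simp, by simp, by simp [h]⟩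
      · intro h; exact hk ⟨p, r, by simp, by simp, by simp [h]⟩
      · intro h; exact hk ⟨p', t, by simp, by simp [h], by simp⟩
      · intro h; exact hk ⟨p', t, by simp, by simp [h], by simp⟩
      · intro h; exact hk ⟨p', r, by simp, by simp, by simp [h]⟩
      · intro h; exact hk ⟨p', r, by simp, by simp, by simp [h]⟩
      · intro h; exact hk ⟨r, p, by simp, by simp, by simp [h]⟩
      · intro h; exact hk ⟨r, p, by simp, by simp, by simp [h]⟩
      · intro h; exact hk ⟨r', p, by simp, by simp, by simp [h]⟩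
      · intro h; exact hk ⟨r', p, by simp, by simp, by simp [h]⟩
    obtain ⟨u, v, k1, k2, k3⟩ := key
    apply caseII_of_cover F u v
    intro x y hxy hc
    rcases hall2 x y hxy hc with ⟨rfl, rfl⟩ | ⟨rfl, rfl⟩ | ⟨rfl, rfl⟩ | ⟨rfl, rfl⟩ | ⟨rfl, rfl⟩ |
      ⟨rfl, rfl⟩
    · exact k1
    · rcases k1 with k | k | k | k
      · exact Or.inr (Or.inl k)
      · exact Or.inl k
      · exact Or.inr (Or.inr (Or.inr k))
      · exact Or.inr (Or.inr (Or.inl k))
    · exact k2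
    · rcases k2 with k | k | k | k
      · exact Or.inr (Or.inl k)
      · exact Or.inl k
      · exact Or.inr (Or.inr (Or.inr k))
      · exact Or.inr (Or.inr (Or.inl k))
    · exact k3
    · rcases k3 with k | k | k | k
      · exact Or.inr (Or.inl k)
      · exact Or.inl k
      · exact Or.inr (Or.inr (Or.inr k))
      · exact Or.inr (Or.inr (Or.inl k))

/-- in case I there are six points without bad edges -/
theorem CaseI.big6 {F : Conf 9} (h : CaseI F) : ∃ f, Big6 F f := by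
  classical
  obtain ⟨p, p', r, r', t, t', n1, n2, n3, d1, d2, d3, d4, d5, d6, d7, d8, d9, d10, d11, d12,
    c1, c2, c3, hall⟩ := h
  obtain ⟨f, hf1, hf2⟩ := exists_enum {p, r, t} 6 (by
    have := Finset.card_le_three (a := p) (b := r) (c := t)
    omega)
  refine ⟨f, hf1, fun i j hij hj => ?_⟩
  by_contra hc
  have hne : f i ≠ f j := fun he => by have := hf1 i j (by omega) hj he; omega
  have hi := hf2 i (by omega)
  have hj2 := hf2 j hj
  simp only [Finset.mem_insert, Finset.mem_singleton, not_or] at hi hj2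
  rcases hall _ _ hne (by omega) with h2 | h2 | h2 | h2 | h2 | h2
  · exact hi.1 h2.1
  · exact hj2.1 h2.2
  · exact hi.2.1 h2.1
  · exact hj2.2.1 h2.2
  · exact hi.2.2 h2.1
  · exact hj2.2.2 h2.2

/-- **the frame of six points without bad edges in case I**: the three other points `t1, t2, t3`
are joined to different points `f s1, f s2, f s3` by the bad edges (colours `1, 1, 0`), all other
edges are not bad. -/
structure Frame (F : Conf 9) (f : ℕ → Fin 9) (s1 s2 s3 : ℕ) (t1 t2 t3 : Fin 9) : Prop where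
  s1_lt : s1 < 6
  s2_lt : s2 < 6
  s3_lt : s3 < 6
  s12 : s1 < s2
  s13 : s1 ≠ s3
  s23 : s2 ≠ s3
  t12 : t1 ≠ t2
  t13 : t1 ≠ t3
  t23 : t2 ≠ t3
  t1_ne : ∀ i, i < 6 → f i ≠ t1
  t2_ne : ∀ i, i < 6 → f i ≠ t2
  t3_ne : ∀ i, i < 6 → f i ≠ t3
  c1 : (F.c (f s1) t1).val = 1
  c2 : (F.c (f s2) t2).val = 1
  c3 : (F.c (f s3) t3).val = 0
  b1 : ∀ i, i < 6 → i ≠ s1 → 2 ≤ (F.c (f i) t1).val
  b2 : ∀ i, i < 6 → i ≠ s2 → 2 ≤ (F.c (f i) t2).val
  b3 : ∀ i, i < 6 → i ≠ s3 → 2 ≤ (F.c (f i) t3).val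
  b12 : 2 ≤ (F.c t1 t2).val
  b13 : 2 ≤ (F.c t1 t3).val
  b23 : 2 ≤ (F.c t2 t3).val

/-- one end of each bad edge is a point of the six, the other end is outside -/
theorem CaseI.frame {F : Conf 9} (h : CaseI F) {f : ℕ → Fin 9} (hf : Big6 F f) :
    ∃ s1 s2 s3 t1 t2 t3, Frame F f s1 s2 s3 t1 t2 t3 := by
  classical
  obtain ⟨p, p', r, r', t, t', n1, n2, n3, d1, d2, d3, d4, d5, d6, d7, d8, d9, d10, d11, d12,
    c1, c2, c3, hall⟩ := h
  set S : Finset (Fin 9) := (Finset.range 6).image f with hS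
  have hScard : S.card = 6 := by
    rw [hS, Finset.card_image_of_injOn, Finset.card_range]
    intro i hi j hj hij
    exact hf.1 i j (by simpa using hi) (by simpa using hj) hij
  have hbig : ∀ x ∈ S, ∀ y ∈ S, x ≠ y → 2 ≤ (F.c x y).val := by
    intro x hx y hy hxy
    obtain ⟨i, hi, rfl⟩ := Finset.mem_image.1 hx
    obtain ⟨j, hj, rfl⟩ := Finset.mem_image.1 hy
    rw [Finset.mem_range] at hi hj
    have hij : i ≠ j := fun h => hxy (by rw [h])
    rcases lt_or_gt_of_ne hij with h1 | h1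
    · exact hf.2 i j h1 hj
    · rw [F.symm]; exact hf.2 j i h1 hi
  -- the choice in one pair
  have choice : ∀ a b : Fin 9, a ≠ b → (F.c a b).val < 2 →
      ∃ x y, ((x = a ∧ y = b) ∨ (x = b ∧ y = a)) ∧ y ∉ S := by
    intro a b hab hc
    by_cases hb : b ∈ S
    · refine ⟨b, a, Or.inr ⟨rfl, rfl⟩, fun ha => ?_⟩
      have := hbig a ha b hb hab
      omega
    · exact ⟨a, b, Or.inl ⟨rfl, rfl⟩, hb⟩
  obtain ⟨x3, y3, e3, o3⟩ := choice p p' n1 (by omega)
  obtain ⟨x1, y1, e1, o1⟩ := choice r r' n2 (by omega)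
  obtain ⟨x2, y2, e2, o2⟩ := choice t t' n3 (by omega)
  have cc3 : (F.c x3 y3).val = 0 := by
    rcases e3 with ⟨rfl, rfl⟩ | ⟨rfl, rfl⟩
    · exact c1
    · rw [F.symm]; exact c1
  have cc1 : (F.c x1 y1).val = 1 := by
    rcases e1 with ⟨rfl, rfl⟩ | ⟨rfl, rfl⟩
    · exact c2
    · rw [F.symm]; exact c2
  have cc2 : (F.c x2 y2).val = 1 := by
    rcases e2 with ⟨rfl, rfl⟩ | ⟨rfl, rfl⟩
    · exact c3
    · rw [F.symm]; exact c3
  -- all the points are different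
  have D : x1 ≠ y1 ∧ x2 ≠ y2 ∧ x3 ≠ y3 ∧ x1 ≠ x2 ∧ x1 ≠ y2 ∧ y1 ≠ x2 ∧ y1 ≠ y2 ∧
      x1 ≠ x3 ∧ x1 ≠ y3 ∧ y1 ≠ x3 ∧ y1 ≠ y3 ∧ x2 ≠ x3 ∧ x2 ≠ y3 ∧ y2 ≠ x3 ∧ y2 ≠ y3 := by
    rcases e1 with ⟨rfl, rfl⟩ | ⟨rfl, rfl⟩ <;> rcases e2 with ⟨rfl, rfl⟩ | ⟨rfl, rfl⟩ <;>
      rcases e3 with ⟨rfl, rfl⟩ | ⟨rfl, rfl⟩
    · exact ⟨n2, n3, n1, d9, d10, d11, d12, d1.symm, d5.symm, d2.symm, d6.symm, d3.symm, d7.symm,
        d4.symm, d8.symm⟩
    · exact ⟨n2, n3, n1.symm, d9, d10, d11, d12, d5.symm, d1.symm, d6.symm, d2.symm, d7.symm,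
        d3.symm, d8.symm, d4.symm⟩
    · exact ⟨n2, n3.symm, n1, d10, d9, d12, d11, d1.symm, d5.symm, d2.symm, d6.symm, d4.symm,
        d8.symm, d3.symm, d7.symm⟩
    · exact ⟨n2, n3.symm, n1.symm, d10, d9, d12, d11, d5.symm, d1.symm, d6.symm, d2.symm, d8.symm,
        d4.symm, d7.symm, d3.symm⟩
    · exact ⟨n2.symm, n3, n1, d11, d12, d9, d10, d2.symm, d6.symm, d1.symm, d5.symm, d3.symm,
        d7.symm, d4.symm, d8.symm⟩
    · exact ⟨n2.symm, n3, n1.symm, d11, d12, d9, d10, d6.symm, d2.symm, d5.symm, d1.symm, d7.symm,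
        d3.symm, d8.symm, d4.symm⟩
    · exact ⟨n2.symm, n3.symm, n1, d12, d11, d10, d9, d2.symm, d6.symm, d1.symm, d5.symm, d4.symm,
        d8.symm, d3.symm, d7.symm⟩
    · exact ⟨n2.symm, n3.symm, n1.symm, d12, d11, d10, d9, d6.symm, d2.symm, d5.symm, d1.symm,
        d8.symm, d4.symm, d7.symm, d3.symm⟩
  obtain ⟨D1, D2, D3, D4, D5, D6, D7, D8, D9, D10, D11, D12, D13, D14, D15⟩ := D
  have hT : Finset.univ \ S = {y1, y2, y3} := by
    symm
    apply Finset.eq_of_subset_of_card_le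
    · intro z hz
      simp only [Finset.mem_insert, Finset.mem_singleton] at hz
      simp only [Finset.mem_sdiff, Finset.mem_univ, true_and]
      rcases hz with rfl | rfl | rfl
      · exact o1
      · exact o2
      · exact o3
    · rw [Finset.card_sdiff]
      have h3 : ({y1, y2, y3} : Finset (Fin 9)).card = 3 := by
        rw [Finset.card_eq_three]
        exact ⟨y1, y2, y3, D7, D11, D15, rfl⟩
      rw [h3, Finset.inter_univ, hScard]
      simp
  have inS : ∀ z, z ≠ y1 → z ≠ y2 → z ≠ y3 → z ∈ S := by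
    intro z h1 h2 h3
    by_contra hz
    have : z ∈ Finset.univ \ S := by simp [hz]
    rw [hT] at this
    simp only [Finset.mem_insert, Finset.mem_singleton] at this
    rcases this with h | h | h
    · exact h1 h
    · exact h2 h
    · exact h3 h
  obtain ⟨s1, hs1, rfl⟩ := Finset.mem_image.1 (inS x1 D1 D5 D9)
  obtain ⟨s2, hs2, rfl⟩ := Finset.mem_image.1 (inS x2 D6.symm D2 D13)
  obtain ⟨s3, hs3, rfl⟩ := Finset.mem_image.1 (inS x3 D10.symm D14.symm D3)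
  rw [Finset.mem_range] at hs1 hs2 hs3
  have q1 : ∀ x y, (x = r ∧ y = r') ∨ (x = r' ∧ y = r) →
      (x = f s1 ∧ y = y1) ∨ (x = y1 ∧ y = f s1) := by
    intro x y h
    rcases e1 with ⟨a1, a2⟩ | ⟨a1, a2⟩
    · rw [a1, a2]; exact h
    · rw [a1, a2]; exact h.symm
  have q2 : ∀ x y, (x = t ∧ y = t') ∨ (x = t' ∧ y = t) →
      (x = f s2 ∧ y = y2) ∨ (x = y2 ∧ y = f s2) := by
    intro x y h
    rcases e2 with ⟨a1, a2⟩ | ⟨a1, a2⟩
    · rw [a1, a2]; exact h
    · rw [a1, a2]; exact h.symm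
  have q3 : ∀ x y, (x = p ∧ y = p') ∨ (x = p' ∧ y = p) →
      (x = f s3 ∧ y = y3) ∨ (x = y3 ∧ y = f s3) := by
    intro x y h
    rcases e3 with ⟨a1, a2⟩ | ⟨a1, a2⟩
    · rw [a1, a2]; exact h
    · rw [a1, a2]; exact h.symm
  have big : ∀ x y, x ≠ y →
      ¬ ((x = f s1 ∧ y = y1) ∨ (x = y1 ∧ y = f s1)) →
      ¬ ((x = f s2 ∧ y = y2) ∨ (x = y2 ∧ y = f s2)) →
      ¬ ((x = f s3 ∧ y = y3) ∨ (x = y3 ∧ y = f s3)) → 2 ≤ (F.c x y).val := by
    intro x y hxy hn1 hn2 hn3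
    by_contra hc
    rcases hall x y hxy (by omega) with h | h | h | h | h | h
    · exact hn3 (q3 x y (Or.inl h))
    · exact hn3 (q3 x y (Or.inr h))
    · exact hn1 (q1 x y (Or.inl h))
    · exact hn1 (q1 x y (Or.inr h))
    · exact hn2 (q2 x y (Or.inl h))
    · exact hn2 (q2 x y (Or.inr h))
  have oS : ∀ i, i < 6 → f i ≠ y1 ∧ f i ≠ y2 ∧ f i ≠ y3 := by
    intro i hi
    have hi' : f i ∈ S := Finset.mem_image_of_mem _ (Finset.mem_range.2 hi)
    exact ⟨fun h => o1 (h ▸ hi'), fun h => o2 (h ▸ hi'), fun h => o3 (h ▸ hi')⟩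
  have hfi : ∀ i j, i < 6 → j < 6 → i ≠ j → f i ≠ f j := fun i j hi hj hij h =>
    hij (hf.1 i j hi hj h)
  have B1 : ∀ i, i < 6 → i ≠ s1 → 2 ≤ (F.c (f i) y1).val := by
    intro i hi hne
    apply big _ _ (oS i hi).1
    · rintro (⟨h, -⟩ | ⟨h, -⟩)
      · exact hfi i s1 hi hs1 hne h
      · exact (oS i hi).1 h
    · rintro (⟨-, h⟩ | ⟨h, -⟩)
      · exact D7 h
      · exact (oS i hi).2.1 h
    · rintro (⟨-, h⟩ | ⟨h, -⟩)
      · exact D11 h
      · exact (oS i hi).2.2 h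
  have B2 : ∀ i, i < 6 → i ≠ s2 → 2 ≤ (F.c (f i) y2).val := by
    intro i hi hne
    apply big _ _ (oS i hi).2.1
    · rintro (⟨-, h⟩ | ⟨h, -⟩)
      · exact D7 h.symm
      · exact (oS i hi).1 h
    · rintro (⟨h, -⟩ | ⟨h, -⟩)
      · exact hfi i s2 hi hs2 hne h
      · exact (oS i hi).2.1 h
    · rintro (⟨-, h⟩ | ⟨h, -⟩)
      · exact D15 h
      · exact (oS i hi).2.2 h
  have B3 : ∀ i, i < 6 → i ≠ s3 → 2 ≤ (F.c (f i) y3).val := by
    intro i hi hne
    apply big _ _ (oS i hi).2.2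
    · rintro (⟨-, h⟩ | ⟨h, -⟩)
      · exact D11 h.symm
      · exact (oS i hi).1 h
    · rintro (⟨-, h⟩ | ⟨h, -⟩)
      · exact D15 h.symm
      · exact (oS i hi).2.1 h
    · rintro (⟨h, -⟩ | ⟨h, -⟩)
      · exact hfi i s3 hi hs3 hne h
      · exact (oS i hi).2.2 h
  have B12 : 2 ≤ (F.c y1 y2).val := by
    apply big _ _ D7
    · rintro (⟨h, -⟩ | ⟨-, h⟩)
      · exact (oS s1 hs1).1 h.symm
      · exact (oS s1 hs1).2.1 h.symm
    · rintro (⟨h, -⟩ | ⟨-, h⟩)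
      · exact (oS s2 hs2).1 h.symm
      · exact (oS s2 hs2).2.1 h.symm
    · rintro (⟨h, -⟩ | ⟨-, h⟩)
      · exact (oS s3 hs3).1 h.symm
      · exact (oS s3 hs3).2.1 h.symm
  have B13 : 2 ≤ (F.c y1 y3).val := by
    apply big _ _ D11
    · rintro (⟨h, -⟩ | ⟨-, h⟩)
      · exact (oS s1 hs1).1 h.symm
      · exact (oS s1 hs1).2.2 h.symm
    · rintro (⟨h, -⟩ | ⟨-, h⟩)
      · exact (oS s2 hs2).1 h.symm
      · exact (oS s2 hs2).2.2 h.symm
    · rintro (⟨h, -⟩ | ⟨-, h⟩)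
      · exact (oS s3 hs3).1 h.symm
      · exact (oS s3 hs3).2.2 h.symm
  have B23 : 2 ≤ (F.c y2 y3).val := by
    apply big _ _ D15
    · rintro (⟨h, -⟩ | ⟨-, h⟩)
      · exact (oS s1 hs1).2.1 h.symm
      · exact (oS s1 hs1).2.2 h.symm
    · rintro (⟨h, -⟩ | ⟨-, h⟩)
      · exact (oS s2 hs2).2.1 h.symm
      · exact (oS s2 hs2).2.2 h.symm
    · rintro (⟨h, -⟩ | ⟨-, h⟩)
      · exact (oS s3 hs3).2.1 h.symm
      · exact (oS s3 hs3).2.2 h.symm
  have E12 : s1 ≠ s2 := fun h => D4 (by rw [h])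
  have E13 : s1 ≠ s3 := fun h => D8 (by rw [h])
  have E23 : s2 ≠ s3 := fun h => D12 (by rw [h])
  rcases lt_or_gt_of_ne E12 with hlt | hlt
  · exact ⟨s1, s2, s3, y1, y2, y3, hs1, hs2, hs3, hlt, E13, E23, D7, D11, D15,
      fun i hi => (oS i hi).1, fun i hi => (oS i hi).2.1, fun i hi => (oS i hi).2.2,
      cc1, cc2, cc3, B1, B2, B3, B12, B13, B23⟩
  · exact ⟨s2, s1, s3, y2, y1, y3, hs2, hs1, hs3, hlt, E23, E13, D7.symm, D15, D11,
      fun i hi => (oS i hi).2.1, fun i hi => (oS i hi).1, fun i hi => (oS i hi).2.2,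
      cc2, cc1, cc3, B2, B1, B3, by rw [F.symm]; exact B12, B23, B13⟩

end CR
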