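import Pool.Agent.Lib.MP_6f5d36_co.Main7
import Pool.Agent.Lib.MP_6f5d36_co.L6.Main
import Pool.Agent.Lib.MP_6f5d36_co.L6.E5

/-!
# MP_6f5d36_co : levels 5, 6 and 7 without hypotheses
-/

set_option autoImplicit false

namespace CR.L7

theorem e6h : E6H := fun _ _ _ _ _ _ h2 hg ho => L6.e6' h2 (fun _ => hg) ho

theorem e5h : E5H := fun F f g P i hi hg ho hP => L6.e5 F f g P i hi hg ho hP

theorem l6h : L6H := by
  intro F f hf
  obtain ⟨j, u, p, g, h1, h2, h3, h4, -, h5, -, h6⟩ := L6.L6 hf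
  exact ⟨j, u, p, g, h1, h2, h3, h4, h5, h6⟩

/-- the tables of five and six points -/
theorem tabF_all (F : Conf 9) : TabF F Tab.T5 Tab.E6 Tab.T4 Tab.E5 := tabF e6h e5h F

/-- every six points without bad edges have a rank -/
theorem rank6_all : Rank6 Tab.nr Tab.reps := rank6 e6h e5h l6h

/-- **level 7** -/
theorem level7 (k : ℕ) (hk : k < Tab.nr) :
    Kil Tab.nr Tab.reps k ∨ Pro Tab.nr Tab.reps Tab.W k := kil_or_pro e6h e5h k hk

end CR.L7
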