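import Pool.Agent.Lib.MP_6f5d36_co.FDefs

set_option autoImplicit false

/-!
# MP_6f5d36_co : the final assembly, relative to the results of the levels
-/

namespace CR

/-- there is no configuration in case I -/
theorem no_caseI (nr : ℕ) (reps : ℕ → ℕ) (h6 : Rank6 nr reps) (hlab : RepLab nr reps)
    (h : ∀ k, k < nr → Die nr reps k) (F : Conf 9) : ¬ CaseI F := by
  classical
  intro hI
  -- the minimal rank
  have hex : ∃ k, ∃ f' g', k < nr ∧ GoodG g' ∧ Occ F 6 f' g' (reps k) := by
    obtain ⟨f, hf⟩ := hI.big6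
    obtain ⟨k, p, g', hk, -, -, hg, ho⟩ := h6 F f hf
    exact ⟨k, _, g', hk, hg, ho⟩
  set k := Nat.find hex with hk
  obtain ⟨f, g, hkn, hg, hocc⟩ := Nat.find_spec hex
  rw [← hk] at hkn hocc
  have hmin : MinRank nr reps F k := fun k' f' g' hk' hg' ho' =>
    Nat.find_min' hex ⟨f', g', hk', hg', ho'⟩
  have hbig : Big6 F f := by
    refine ⟨hocc.inj, fun i j hij hj => ?_⟩
    rw [hocc.col i j hij hj]
    exact hg _ (hlab k hkn i j hij hj)
  obtain ⟨s1, s2, s3, t1, t2, t3, fr⟩ := hI.frame hbig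
  -- the frame of all the points
  set f' : ℕ → Fin 9 := fun i => if i < 6 then f i else if i = 6 then t1 else if i = 7 then t2
    else t3 with hf'
  have e6 : f' 6 = t1 := rfl
  have e7 : f' 7 = t2 := rfl
  have e8 : f' 8 = t3 := rfl
  have eo : ∀ i, i < 6 → f' i = f i := fun i hi => by simp only [hf', if_pos hi]
  have hinj : ∀ i j, i < 9 → j < 9 → f' i = f' j → i = j := by
    have aux : ∀ i j, i < j → j < 9 → f' i ≠ f' j := by
      intro i j hij hj
      rcases Nat.lt_or_ge j 6 with h | h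
      · rw [eo i (by omega), eo j h]
        intro he
        have := hocc.inj i j (by omega) h he
        omega
      · rcases Nat.lt_or_ge i 6 with h' | h'
        · rw [eo i h']
          have : j = 6 ∨ j = 7 ∨ j = 8 := by omega
          rcases this with rfl | rfl | rfl
          · rw [e6]; exact fr.t1_ne i h'
          · rw [e7]; exact fr.t2_ne i h'
          · rw [e8]; exact fr.t3_ne i h'
        · have : (i = 6 ∧ j = 7) ∨ (i = 6 ∧ j = 8) ∨ (i = 7 ∧ j = 8) := by omega
          rcases this with ⟨rfl, rfl⟩ | ⟨rfl, rfl⟩ | ⟨rfl, rfl⟩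
          · rw [e6, e7]; exact fr.t12
          · rw [e6, e8]; exact fr.t13
          · rw [e7, e8]; exact fr.t23
    intro i j hi hj he
    by_contra hne
    rcases lt_or_gt_of_ne hne with h | h
    · exact aux i j h hj he
    · exact aux j i h hi he.symm
  have hocc' : Occ F 6 f' g (reps k) := by
    refine ⟨fun i j hi hj => hinj i j (by omega) (by omega), hocc.ginj, fun i j hij hj => ?_⟩
    rw [eo i (by omega), eo j hj]
    exact hocc.col i j hij hj
  refine h k hkn F f' g hinj hocc' hg hmin s1 s2 s3 fr.s1_lt fr.s2_lt fr.s3_lt (ne_of_lt fr.s12)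
    fr.s13 fr.s23 ?_ ?_ ?_ ?_ ?_ ?_
  · rw [eo s1 fr.s1_lt, e6]; exact Fin.ext fr.c1
  · rw [eo s2 fr.s2_lt, e7]; exact Fin.ext fr.c2
  · rw [eo s3 fr.s3_lt, e8]; exact Fin.ext fr.c3
  · intro i hi his; rw [eo i hi, e6]; exact fr.b1 i hi his
  · intro i hi his; rw [eo i hi, e7]; exact fr.b2 i hi his
  · intro i hi his; rw [eo i hi, e8]; exact fr.b3 i hi his

/-- there is no configuration -/
theorem no_conf (nr : ℕ) (reps : ℕ → ℕ) (h6 : Rank6 nr reps) (hlab : RepLab nr reps)
    (h : ∀ k, k < nr → Die nr reps k) (hII : ∀ (F : Conf 9) (f : ℕ → Fin 9), ¬ Frame2 F f) :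
    IsEmpty (Conf 9) :=
  ⟨fun F => (cases4 F).elim (no_caseI nr reps h6 hlab h F) (fun ⟨f, hf⟩ => hII F f hf)⟩

end CR
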