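import Pool.Agent.Lib.MP_6f5d36_co.Level7b

set_option autoImplicit false

/-!
# MP_6f5d36_co : the checker of level 7, third part: the ranks
-/

namespace CR.L7

/-- three different vertices are not all bad -/
def Kil (nr : ℕ) (reps : ℕ → ℕ) (k : ℕ) : Prop :=
  ∀ s1 s2 s3, s1 < 6 → s2 < 6 → s3 < 6 → s1 ≠ s2 → s1 ≠ s3 → s2 ≠ s3 →
    V7 nr reps k s1 [] ∨ V7 nr reps k s2 [] ∨ V7 nr reps k s3 []

/-- the stars of all six vertices are in the lists -/
def Pro (nr : ℕ) (reps : ℕ → ℕ) (W : ℕ → ℕ → List ℕ) (k : ℕ) : Prop :=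
  ∀ s, s < 6 → V7 nr reps k s (W k s)

/-- vertices which are equivalent under an automorphism -/
theorem V7.aut {nr : ℕ} {reps : ℕ → ℕ} (hlab : ∀ r, r < nr → ∀ t, t < 15 → od (reps r) t < 6)
    {k s : ℕ} (hk : k < nr) (hs : s < 6) {p : ℕ} (hp : Pm 6 p)
    (hn : nrm (reps k) p EL6 0 0 0 = reps k) (h : V7 nr reps k s []) :
    V7 nr reps k (dg3 p s) [] := by
  intro F f g ho hg hmin t hft hbad hbig
  exfalso
  obtain ⟨⟨g', ho'⟩, -⟩ := ho.nrm (by norm_num) edgeList6 p hp.lt hp.inj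
  rw [hn] at ho'
  have hl6 : ∀ i j, i < j → j < 6 → lab (reps k) i j < 6 := by
    intro i j hij hj
    rw [lab_eq_od]
    apply hlab k hk
    unfold eo
    interval_cases j <;> omega
  have hbig6 : ∀ i j, i < 6 → j < 6 → i ≠ j → 2 ≤ (F.c (f i) (f j)).val := by
    intro i j hi hj hij
    rw [ho.col' hi hj hij]
    apply hg
    unfold labs
    split_ifs with hlt
    · exact hl6 i j hlt hj
    · exact hl6 j i (by omega) hi
  obtain ⟨g'', ho'', hg''⟩ := ho'.big hl6 (fun i j hij hj => by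
    apply hbig6 _ _ (hp.lt i (by omega)) (hp.lt j hj)
    intro he
    have := hp.inj i j (by omega) hj he
    omega)
  obtain ⟨X, hX, -⟩ := h F _ g'' ho'' hg'' hmin t (fun i hi => hft _ (hp.lt i hi)) hbad
    (fun i hi his => hbig _ (hp.lt i hi) (fun he => his (hp.inj i s hi hs he)))
  exact absurd hX List.not_mem_nil

theorem pop4_aux : ∀ m : Fin 64, pop4 m.val = true → ∀ s1 s2 s3 : Fin 6,
    s1 ≠ s2 → s1 ≠ s3 → s2 ≠ s3 → m.val.testBit s1.val = true ∨ m.val.testBit s2.val = true ∨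
      m.val.testBit s3.val = true := by
  decide +kernel

theorem pop4_spec (m : ℕ) (hm : m < 64) (h : pop4 m = true) (s1 : ℕ) (h1 : s1 < 6) (s2 : ℕ)
    (h2 : s2 < 6) (s3 : ℕ) (h3 : s3 < 6) (h12 : s1 ≠ s2) (h13 : s1 ≠ s3) (h23 : s2 ≠ s3) :
    m.testBit s1 = true ∨ m.testBit s2 = true ∨ m.testBit s3 = true :=
  pop4_aux ⟨m, hm⟩ h ⟨s1, h1⟩ ⟨s2, h2⟩ ⟨s3, h3⟩ (fun h => h12 (Fin.mk.inj_iff.1 h))
    (fun h => h13 (Fin.mk.inj_iff.1 h)) (fun h => h23 (Fin.mk.inj_iff.1 h))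

section ranks

variable {nr : ℕ} {T5 E6 T4 E5 reps : ℕ → ℕ} {RT : ℕ → List ℕ} {ok : ℕ → ℕ → Bool}
  {W : ℕ → ℕ → List ℕ}

theorem itemL_sound (hF : ∀ F, TabF F T5 E6 T4 E5) (hok : ∀ P C, ok P C = true → ¬ Realk 7 8 P)
    (hlab : ∀ r, r < nr → ∀ t, t < 15 → od (reps r) t < 6)
    (hrt : ∀ j, 526 ≤ j → j ≤ 1204 → rtOK nr T5 E6 reps j (RT j) = true)
    {k s : ℕ} (hk : k < nr) {Ws I : List ℕ} (h : itemL T5 E6 T4 E5 reps RT ok k s Ws I = true) :
    V7 nr reps k s Ws ∧ (I ≠ [] ∧ s = dg3 (hdI I) 5) := by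
  cases I with
  | nil => exact absurd h Bool.false_ne_true
  | cons a C =>
    obtain ⟨h1, h⟩ := cond_and h
    obtain ⟨h2, h⟩ := cond_and h
    refine ⟨item_sound hF hok hlab hk (by have := Nat.le_of_ble_eq_true h2; omega)
      (hrt _ (Nat.le_of_ble_eq_true h1)
      (Nat.le_of_ble_eq_true h2)) h, by simp, ?_⟩
    obtain ⟨-, h⟩ := cond_and h
    obtain ⟨-, h⟩ := cond_and h
    obtain ⟨-, h⟩ := cond_and h
    obtain ⟨h4, -⟩ := cond_and h
    have h5 : dg3 (a &&& 262143) 5 = s := Nat.eq_of_beq_eq_true h4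
    rw [← h5]
    have e : a &&& 262143 = a % 8 ^ 6 := Nat.and_two_pow_sub_one_eq_mod _ 18
    rw [e, dg3_eq, dg3_eq, od_mod, if_pos (by norm_num)]
    rfl

theorem itsK_sound (hF : ∀ F, TabF F T5 E6 T4 E5) (hok : ∀ P C, ok P C = true → ¬ Realk 7 8 P)
    (hlab : ∀ r, r < nr → ∀ t, t < 15 → od (reps r) t < 6)
    (hrt : ∀ j, 526 ≤ j → j ≤ 1204 → rtOK nr T5 E6 reps j (RT j) = true)
    {k : ℕ} (hk : k < nr) {r : ℕ → Bool} : ∀ (L : List (List ℕ)) (m : ℕ),
      (∀ s, m.testBit s = true → s < 6 ∧ V7 nr reps k s []) →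
      itsK T5 E6 T4 E5 reps RT ok k L m r = true →
      ∃ m', (∀ s, m'.testBit s = true → s < 6 ∧ V7 nr reps k s []) ∧ r m' = true
  | [], m, hm, h => ⟨m, hm, h⟩
  | I :: L, m, hm, h => by
    obtain ⟨h1, h2⟩ := cond_and (a := itemL T5 E6 T4 E5 reps RT ok k (vxI I) [] I)
      (b := itsK T5 E6 T4 E5 reps RT ok k L (Nat.lor m (Nat.shiftLeft 1 (vxI I))) r) h
    have h3 := (itemL_sound hF hok hlab hrt hk h1).1
    -- the vertex is less than six
    have h4 : vxI I < 6 := by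
      cases I with
      | nil => exact absurd h1 Bool.false_ne_true
      | cons a C =>
        obtain ⟨-, h1⟩ := cond_and h1
        obtain ⟨-, h1⟩ := cond_and h1
        obtain ⟨h5, -⟩ := cond_and h1
        have h6 := (isP6_pm h5).lt 5 (by norm_num)
        have e : a &&& 262143 = a % 8 ^ 6 := Nat.and_two_pow_sub_one_eq_mod _ 18
        have h7 : dg3 (a &&& 262143) 5 < 6 := h6
        rw [e, dg3_eq, od_mod, if_pos (by norm_num), ← dg3_eq] at h7
        exact h7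
    apply itsK_sound hF hok hlab hrt hk L _ _ h2
    intro s hs
    have hs' : (m ||| 1 <<< vxI I).testBit s = true := hs
    rw [Nat.testBit_or, Bool.or_eq_true, Nat.one_shiftLeft, Nat.testBit_two_pow,
      decide_eq_true_eq] at hs'
    rcases hs' with hs' | hs'
    · exact hm s hs'
    · rw [← hs']
      exact ⟨h4, h3⟩

theorem dersK_sound (hlab : ∀ r, r < nr → ∀ t, t < 15 → od (reps r) t < 6)
    {k : ℕ} (hk : k < nr) {r : ℕ → Bool} {m0 : ℕ}
    (hm0 : ∀ s, m0.testBit s = true → s < 6 ∧ V7 nr reps k s []) : ∀ (L : List ℕ) (m : ℕ),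
      (∀ s, m.testBit s = true → s < 6 ∧ V7 nr reps k s []) →
      dersK (reps k) m0 L m r = true →
      ∃ m', (∀ s, m'.testBit s = true → s < 6 ∧ V7 nr reps k s []) ∧ r m' = true
  | [], m, hm, h => ⟨m, hm, h⟩
  | d :: L, m, hm, h => by
    obtain ⟨h1, h⟩ := cond_and h
    obtain ⟨h2, h⟩ := cond_and h
    obtain ⟨h3, h⟩ := cond_and h
    rw [tb_eq] at h3
    obtain ⟨hs, hv⟩ := hm0 _ h3
    have hp := isP6_pm h1
    apply dersK_sound hlab hk hm0 L _ _ h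
    intro s hs2
    have hs' : (m ||| 1 <<< (dgs d (Nat.shiftRight d 18))).testBit s = true := hs2
    rw [Nat.testBit_or, Bool.or_eq_true, Nat.one_shiftLeft, Nat.testBit_two_pow,
      decide_eq_true_eq] at hs'
    rcases hs' with hs' | hs'
    · exact hm s hs'
    · rw [← hs']
      exact ⟨hp.lt _ hs, hv.aut hlab hk hs hp (Nat.eq_of_beq_eq_true h2)⟩

theorem itsP_sound (hF : ∀ F, TabF F T5 E6 T4 E5) (hok : ∀ P C, ok P C = true → ¬ Realk 7 8 P)
    (hlab : ∀ r, r < nr → ∀ t, t < 15 → od (reps r) t < 6)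
    (hrt : ∀ j, 526 ≤ j → j ≤ 1204 → rtOK nr T5 E6 reps j (RT j) = true)
    {k : ℕ} (hk : k < nr) : ∀ (L : List (List ℕ)) (s0 : ℕ),
      itsP T5 E6 T4 E5 reps RT ok (W k) k L s0 = true →
      s0 ≤ 6 ∧ ∀ s, s0 ≤ s → s < 6 → V7 nr reps k s (W k s)
  | [], s0, h => by
    have h1 : s0 = 6 := Nat.eq_of_beq_eq_true h
    exact ⟨by omega, fun s h2 h3 => by omega⟩
  | I :: L, s0, h => by
    obtain ⟨h1, h2⟩ := cond_and (a := itemL T5 E6 T4 E5 reps RT ok k s0 (W k s0) I)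
      (b := itsP T5 E6 T4 E5 reps RT ok (W k) k L (Nat.succ s0)) h
    have h3 := (itemL_sound hF hok hlab hrt hk h1).1
    obtain ⟨h4, h5⟩ := itsP_sound hF hok hlab hrt hk L _ h2
    refine ⟨by omega, fun s h6 h7 => ?_⟩
    rcases Nat.eq_or_lt_of_le h6 with rfl | h8
    · exact h3
    · exact h5 s h8 h7

theorem testBit_lt64 {m : ℕ} (h : ∀ s, m.testBit s = true → s < 6) : m < 64 := by
  by_contra h1
  have h2 : 2 ^ 6 ≤ m := by
    norm_num
    omega
  obtain ⟨i, hi, hb⟩ := Nat.exists_ge_and_testBit_of_ge_two_pow h2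
  have := h i hb
  omega

theorem rkOK_sound (hF : ∀ F, TabF F T5 E6 T4 E5) (hok : ∀ P C, ok P C = true → ¬ Realk 7 8 P)
    (hlab : ∀ r, r < nr → ∀ t, t < 15 → od (reps r) t < 6)
    (hrt : ∀ j, 526 ≤ j → j ≤ 1204 → rtOK nr T5 E6 reps j (RT j) = true)
    {k : ℕ} (hk : k < nr) {R : Rk} (h : rkOK T5 E6 T4 E5 reps RT ok W k R = true) :
    Kil nr reps k ∨ (4439 ≤ k ∧ Pro nr reps W k) := by
  cases R with
  | kil I D =>
    left
    obtain ⟨m, hm, h⟩ := itsK_sound (r := fun m => dersK (reps k) m D m pop4)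
      hF hok hlab hrt hk I 0 (fun s hs => by
      rw [Nat.zero_testBit] at hs
      exact absurd hs Bool.false_ne_true) h
    obtain ⟨m', hm', h⟩ := dersK_sound hlab hk hm D m hm h
    intro s1 s2 s3 h1 h2 h3 h12 h13 h23
    rcases pop4_spec m' (testBit_lt64 fun s hs => (hm' s hs).1) h s1 h1 s2 h2 s3 h3 h12 h13 h23
      with hb | hb | hb
    · exact Or.inl (hm' _ hb).2
    · exact Or.inr (Or.inl (hm' _ hb).2)
    · exact Or.inr (Or.inr (hm' _ hb).2)
  | pro I =>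
    right
    obtain ⟨h0, h⟩ := cond_and h
    refine ⟨Nat.le_of_ble_eq_true h0, ?_⟩
    intro s hs
    exact (itsP_sound hF hok hlab hrt hk I 0 h).2 s (Nat.zero_le _) hs

/-- **the check of consecutive ranks** -/
theorem rksOK_sound (hF : ∀ F, TabF F T5 E6 T4 E5) (hok : ∀ P C, ok P C = true → ¬ Realk 7 8 P)
    (hlab : ∀ r, r < nr → ∀ t, t < 15 → od (reps r) t < 6)
    (hrt : ∀ j, 526 ≤ j → j ≤ 1204 → rtOK nr T5 E6 reps j (RT j) = true) :
    ∀ (L : List Rk) (a : ℕ), a + L.length ≤ nr →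
      rksOK T5 E6 T4 E5 reps RT ok W L a = true →
      ∀ k, a ≤ k → k < a + L.length → Kil nr reps k ∨ (4439 ≤ k ∧ Pro nr reps W k)
  | [], a, _, _, k, h1, h2 => by
    simp only [List.length_nil, Nat.add_zero] at h2
    omega
  | R :: L, a, hl, h, k, h1, h2 => by
    obtain ⟨h3, h4⟩ := cond_and (a := rkOK T5 E6 T4 E5 reps RT ok W a R)
      (b := rksOK T5 E6 T4 E5 reps RT ok W L (Nat.succ a)) h
    simp only [List.length_cons] at hl h2
    rcases Nat.eq_or_lt_of_le h1 with rfl | h5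
    · exact rkOK_sound hF hok hlab hrt (by omega) h3
    · exact rksOK_sound hF hok hlab hrt L (a + 1) (by omega) h4 k h5 (by omega)

end ranks

end CR.L7
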