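import Pool.Agent.Lib.MP_6f5d36_co.Final
import Pool.Agent.Lib.MP_6f5d36_co.Level7c
import Pool.Agent.Lib.MP_6f5d36_co.RepOK
import Pool.Agent.Lib.MP_6f5d36_co.WTab

set_option autoImplicit false

/-!
# MP_6f5d36_co : from level 7 and levels 8, 9 to `Die`

`CR.die_of_kil`, `CR.die_of_pro` and `CR.die_all` : if level 7 is finished for every rank of
`Tab.reps` and levels 8, 9 for the ranks in `Tab.PR`, then there is no configuration in case I.
-/

namespace CR

theorem l7_of {nr : ℕ} {reps : ℕ → ℕ} {k s : ℕ} {W : List ℕ} (h : L7.V7 nr reps k s W) :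
    V7 nr reps k s W := h

/-- a killed rank -/
theorem die_of_kil {nr : ℕ} {reps : ℕ → ℕ} {k : ℕ} (h : L7.Kil nr reps k) : Die nr reps k := by
  intro F f g hf hocc hg hmin s1 s2 s3 h1 h2 h3 h12 h13 h23 c1 c2 c3 b1 b2 b3
  have hne : ∀ j, 6 ≤ j → j < 9 → ∀ i, i < 6 → f i ≠ f j := fun j hj hj9 i hi he => by
    have := hf i j (by omega) hj9 he
    omega
  rcases h s1 s2 s3 h1 h2 h3 h12 h13 h23 with h | h | h
  · obtain ⟨w, hw, -⟩ := h F f g hocc hg hmin (f 6) (hne 6 (by norm_num) (by norm_num))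
      (by rw [c1]; decide) b1
    simp at hw
  · obtain ⟨w, hw, -⟩ := h F f g hocc hg hmin (f 7) (hne 7 (by norm_num) (by norm_num))
      (by rw [c2]; decide) b2
    simp at hw
  · obtain ⟨w, hw, -⟩ := h F f g hocc hg hmin (f 8) (hne 8 (by norm_num) (by norm_num))
      (by rw [c3]; decide) b3
    simp at hw

/-- a processed rank with a list of star vectors for every vertex -/
theorem die_of_pro {nr : ℕ} {reps : ℕ → ℕ} {k : ℕ} {W : ℕ → ℕ → List ℕ}
    (h : L7.Pro nr reps W k) (h9 : Kill9 (reps k) (W k)) : Die nr reps k :=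
  die_of_kill9 (fun s hs => h s hs) h9

/-- a processed rank without star vectors -/
theorem die_of_pro_nil {nr : ℕ} {reps : ℕ → ℕ} {k : ℕ} {W : ℕ → ℕ → List ℕ}
    (h : L7.Pro nr reps W k) (h0 : ∀ s, s < 6 → W k s = []) : Die nr reps k :=
  die_of_kil fun s1 _ _ h1 _ _ _ _ _ => Or.inl ((h0 s1 h1) ▸ h s1 h1)

namespace Tab

/-- the entries of the list of lists which are not empty have numbers in `PR` -/
def wok (k : ℕ) : Bool := (WT k).isEmpty || PR.any (Nat.beq k)

theorem wok_all : allN (fun i => wok (Nat.add 4439 i)) 353 = true := by decide +kernel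

theorem WT_nil {k : ℕ} (hk : k < nr) (h : k ∉ PR) (s : ℕ) : W k s = [] := by
  have h1 : WT k = [] := by
    rcases Nat.lt_or_ge k 4439 with h1 | h1
    · have : Nat.ble 4439 k = false := by
        rw [← Bool.not_eq_true, Nat.ble_eq]
        omega
      rw [WT, this]
      rfl
    · have h2 := allN_spec wok_all (k - 4439) (by simp only [nr] at hk; omega)
      have h3 : Nat.add 4439 (k - 4439) = k := by
        rw [Nat.add_eq]
        omega
      simp only [h3, wok, Bool.or_eq_true, List.isEmpty_iff, List.any_eq_true] at h2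
      rcases h2 with h2 | ⟨x, hx, h2⟩
      · exact h2
      · exact absurd (Nat.eq_of_beq_eq_true h2 ▸ hx) h
  rw [W, h1]
  rfl

end Tab

/-- level 7 for all the ranks and levels 8, 9 for the ranks in `PR` -/
theorem die_all (h7 : ∀ k, k < Tab.nr → L7.Kil Tab.nr Tab.reps k ∨ L7.Pro Tab.nr Tab.reps Tab.W k)
    (h9 : ∀ k ∈ Tab.PR, Kill9 (Tab.reps k) (Tab.W k)) (k : ℕ) (hk : k < Tab.nr) :
    Die Tab.nr Tab.reps k := by
  rcases h7 k hk with h | h
  · exact die_of_kil h
  · by_cases hp : k ∈ Tab.PR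
    · exact die_of_pro h (h9 k hp)
    · exact die_of_pro_nil h fun s _ => Tab.WT_nil hk hp s

/-- **there is no configuration on nine points**, from the results of the levels -/
theorem no_conf_tab (h6 : Rank6 Tab.nr Tab.reps)
    (h7 : ∀ k, k < Tab.nr → L7.Kil Tab.nr Tab.reps k ∨ L7.Pro Tab.nr Tab.reps Tab.W k)
    (h9 : ∀ k ∈ Tab.PR, Kill9 (Tab.reps k) (Tab.W k))
    (hII : ∀ (F : Conf 9) (f : ℕ → Fin 9), ¬ Frame2 F f) : IsEmpty (Conf 9) :=
  no_conf Tab.nr Tab.reps h6 repLab (die_all h7 h9) hII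

end CR
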