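import Pool.Agent.Lib.MP_6f5d36_co.Link7
import Pool.Agent.Lib.MP_6f5d36_co.Cert

set_option autoImplicit false

/-!
# MP_6f5d36_co : level 7, from the kernel checks of ranges of ranks to the conclusion
-/

namespace CR.L7

/-- level 7 for the ranks `a, ..., b - 1` -/
def RK (a b : ℕ) : Prop :=
  (∀ F, TabF F Tab.T5 Tab.E6 Tab.T4 Tab.E5) → ∀ k, a ≤ k → k < b →
    Kil Tab.nr Tab.reps k ∨ (4439 ≤ k ∧ Pro Tab.nr Tab.reps Tab.W k)

theorem RK.trans {a b c : ℕ} (h1 : RK a b) (h2 : RK b c) : RK a c := by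
  intro hF k ha hc
  rcases Nat.lt_or_ge k b with h | h
  · exact h1 hF k ha h
  · exact h2 hF k h hc

theorem ok7 (P C : ℕ) (h : Ker.cert7 P C = true) : ¬ Realk 7 8 P := fun hr =>
  cert7_sound h (hr.mono (by norm_num))

theorem rk_of {L : List Rk} {a b : ℕ}
    (h : rksOK Tab.T5 Tab.E6 Tab.T4 Tab.E5 Tab.reps Tab.RT Ker.cert7 Tab.W L a = true)
    (hb : a + L.length = b) (hn : b ≤ 4792) : RK a b := by
  intro hF k h1 h2
  exact rksOK_sound (nr := Tab.nr) hF ok7 reps_lab rt_ok L a (by rw [hb]; exact hn) h k h1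
    (by rw [hb]; exact h2)

end CR.L7
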