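

/-!
# MP_6f5d36_co : the kernel checker for positivity certificates of degree three

Every polynomial in the values `x_c` of the colours is represented by its value modulo `2 ^ K` at the
Kronecker point `x_c = 2 ^ (b * weight c)`.
-/

set_option autoImplicit false
set_option linter.all false

namespace CR
namespace Ker

noncomputable section

/-- `a b - c d` -/
def qf (MK Z2 a b c d : Nat) : Nat := Nat.land (Nat.add (Nat.mul a b) (Nat.sub Z2 (Nat.mul c d))) MK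

/-- `a p - b q + c r` -/
def df (Z1 a b c p q r : Nat) : Nat :=
  Nat.add (Nat.add (Nat.mul a p) (Nat.mul b (Nat.sub Z1 q))) (Nat.mul c r)

/-- `u + v - w` -/
def mf (Z1 u v w : Nat) : Nat := Nat.add (Nat.add u v) (Nat.sub Z1 w)

/-- `s ^ 2 - 4 a b` (minus the Heron form if `s = a + b - c`) -/
def nh (Z2 s a b : Nat) : Nat := Nat.add (Nat.mul s s) (Nat.sub Z2 (Nat.mul 4 (Nat.mul a b)))

/-- `- s ^ 2` -/
def ns (Z2 s : Nat) : Nat := Nat.sub Z2 (Nat.mul s s)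

/-- element number `k` of a list -/
def lget (L : List Nat) : Nat → Nat :=
  List.rec (motive := fun _ => Nat → Nat) (fun _ => 0)
    (fun h _ ih k => Nat.rec (motive := fun _ => Nat) h (fun k' _ => ih k') k) L

/-- the value of edge number `e / 3` -/
def sv (XL : List Nat) (P e : Nat) : Nat := lget XL (Nat.land (Nat.shiftRight P e) 7)

/-- the minors of a symmetric matrix of size 5, from the `2 x 2` minors -/
def g5b (Z1 m00 m01 m02 m03 m04 m11 m12 m13 m14 m22 m23 m24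
    q0112 q0113 q0114 q0212 q0213 q0214 q0223 q0224 q0312 q0313 q0314 q0323 q0324 q0334 q0412 q0413 q0414 q0423 q0424 q0434 q1212 q1213 q1214 q1223 q1224 q1234 q1313 q1314 q1323 q1324 q1334 q1414 q1423 q1424 q1434 q2323 q2324 q2334 q2424 q2434 q3434 : Nat) : List Nat :=
  [df Z1 m00 m01 m02 q1212 q0212 q0112,
   df Z1 m00 m01 m03 q1213 q0312 q0112,
   df Z1 m00 m01 m04 q1214 q0412 q0112,
   df Z1 m00 m02 m03 q1223 q0312 q0212,
   df Z1 m00 m02 m04 q1224 q0412 q0212,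
   df Z1 m00 m03 m04 q1234 q0412 q0312,
   df Z1 m01 m02 m03 q1223 q1213 q1212,
   df Z1 m01 m02 m04 q1224 q1214 q1212,
   df Z1 m01 m03 m04 q1234 q1214 q1213,
   df Z1 m02 m03 m04 q1234 q1224 q1223,
   df Z1 m00 m01 m03 q1313 q0313 q0113,
   df Z1 m00 m01 m04 q1314 q0413 q0113,
   df Z1 m00 m02 m03 q1323 q0313 q0213,
   df Z1 m00 m02 m04 q1324 q0413 q0213,
   df Z1 m00 m03 m04 q1334 q0413 q0313,
   df Z1 m01 m02 m03 q1323 q1313 q1213,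
   df Z1 m01 m02 m04 q1324 q1314 q1213,
   df Z1 m01 m03 m04 q1334 q1314 q1313,
   df Z1 m02 m03 m04 q1334 q1324 q1323,
   df Z1 m00 m01 m04 q1414 q0414 q0114,
   df Z1 m00 m02 m03 q1423 q0314 q0214,
   df Z1 m00 m02 m04 q1424 q0414 q0214,
   df Z1 m00 m03 m04 q1434 q0414 q0314,
   df Z1 m01 m02 m03 q1423 q1314 q1214,
   df Z1 m01 m02 m04 q1424 q1414 q1214,
   df Z1 m01 m03 m04 q1434 q1414 q1314,
   df Z1 m02 m03 m04 q1434 q1424 q1423,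
   df Z1 m00 m02 m03 q2323 q0323 q0223,
   df Z1 m00 m02 m04 q2324 q0423 q0223,
   df Z1 m00 m03 m04 q2334 q0423 q0323,
   df Z1 m01 m02 m03 q2323 q1323 q1223,
   df Z1 m01 m02 m04 q2324 q1423 q1223,
   df Z1 m01 m03 m04 q2334 q1423 q1323,
   df Z1 m02 m03 m04 q2334 q2324 q2323,
   df Z1 m00 m02 m04 q2424 q0424 q0224,
   df Z1 m00 m03 m04 q2434 q0424 q0324,
   df Z1 m01 m02 m03 q2324 q1324 q1224,
   df Z1 m01 m02 m04 q2424 q1424 q1224,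
   df Z1 m01 m03 m04 q2434 q1424 q1324,
   df Z1 m02 m03 m04 q2434 q2424 q2324,
   df Z1 m00 m03 m04 q3434 q0434 q0334,
   df Z1 m01 m02 m03 q2334 q1334 q1234,
   df Z1 m01 m02 m04 q2434 q1434 q1234,
   df Z1 m01 m03 m04 q3434 q1434 q1334,
   df Z1 m02 m03 m04 q3434 q2434 q2334,
   df Z1 m11 m12 m13 q2323 q1323 q1223,
   df Z1 m11 m12 m14 q2324 q1423 q1223,
   df Z1 m11 m13 m14 q2334 q1423 q1323,
   df Z1 m12 m13 m14 q2334 q2324 q2323,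
   df Z1 m11 m12 m14 q2424 q1424 q1224,
   df Z1 m11 m13 m14 q2434 q1424 q1324,
   df Z1 m12 m13 m14 q2434 q2424 q2324,
   df Z1 m11 m13 m14 q3434 q1434 q1334,
   df Z1 m12 m13 m14 q3434 q2434 q2334,
   df Z1 m22 m23 m24 q3434 q2434 q2334]

/-- the minors of a symmetric matrix of size 5 -/
def g5 (MK Z1 Z2 m00 m01 m02 m03 m04 m11 m12 m13 m14 m22 m23 m24 m33 m34 m44 : Nat) : List Nat :=
  g5b Z1 m00 m01 m02 m03 m04 m11 m12 m13 m14 m22 m23 m24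
    (qf MK Z2 m01 m12 m02 m11)
    (qf MK Z2 m01 m13 m03 m11)
    (qf MK Z2 m01 m14 m04 m11)
    (qf MK Z2 m01 m22 m02 m12)
    (qf MK Z2 m01 m23 m03 m12)
    (qf MK Z2 m01 m24 m04 m12)
    (qf MK Z2 m02 m23 m03 m22)
    (qf MK Z2 m02 m24 m04 m22)
    (qf MK Z2 m01 m23 m02 m13)
    (qf MK Z2 m01 m33 m03 m13)
    (qf MK Z2 m01 m34 m04 m13)
    (qf MK Z2 m02 m33 m03 m23)
    (qf MK Z2 m02 m34 m04 m23)
    (qf MK Z2 m03 m34 m04 m33)
    (qf MK Z2 m01 m24 m02 m14)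
    (qf MK Z2 m01 m34 m03 m14)
    (qf MK Z2 m01 m44 m04 m14)
    (qf MK Z2 m02 m34 m03 m24)
    (qf MK Z2 m02 m44 m04 m24)
    (qf MK Z2 m03 m44 m04 m34)
    (qf MK Z2 m11 m22 m12 m12)
    (qf MK Z2 m11 m23 m13 m12)
    (qf MK Z2 m11 m24 m14 m12)
    (qf MK Z2 m12 m23 m13 m22)
    (qf MK Z2 m12 m24 m14 m22)
    (qf MK Z2 m13 m24 m14 m23)
    (qf MK Z2 m11 m33 m13 m13)
    (qf MK Z2 m11 m34 m14 m13)
    (qf MK Z2 m12 m33 m13 m23)
    (qf MK Z2 m12 m34 m14 m23)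
    (qf MK Z2 m13 m34 m14 m33)
    (qf MK Z2 m11 m44 m14 m14)
    (qf MK Z2 m12 m34 m13 m24)
    (qf MK Z2 m12 m44 m14 m24)
    (qf MK Z2 m13 m44 m14 m34)
    (qf MK Z2 m22 m33 m23 m23)
    (qf MK Z2 m22 m34 m24 m23)
    (qf MK Z2 m23 m34 m24 m33)
    (qf MK Z2 m22 m44 m24 m24)
    (qf MK Z2 m23 m44 m24 m34)
    (qf MK Z2 m33 m44 m34 m34)

/-- the minors of the Gram matrix of 6 points -/
def G6 (MK Z1 Z2 s01 s02 s12 s03 s13 s23 s04 s14 s24 s34 s05 s15 s25 s35 s45 : Nat) : List Nat :=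
  g5 MK Z1 Z2
    (Nat.mul 2 s01)
    (mf Z1 s01 s02 s12)
    (mf Z1 s01 s03 s13)
    (mf Z1 s01 s04 s14)
    (mf Z1 s01 s05 s15)
    (Nat.mul 2 s02)
    (mf Z1 s02 s03 s23)
    (mf Z1 s02 s04 s24)
    (mf Z1 s02 s05 s25)
    (Nat.mul 2 s03)
    (mf Z1 s03 s04 s34)
    (mf Z1 s03 s05 s35)
    (Nat.mul 2 s04)
    (mf Z1 s04 s05 s45)
    (Nat.mul 2 s05)

/-- minus the Heron forms of the triangles of 6 points -/
def H6 (Z1 Z2 s01 s02 s12 s03 s13 s23 s04 s14 s24 s34 s05 s15 s25 s35 s45 : Nat) : List Nat :=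
  [nh Z2 (mf Z1 s01 s02 s12) s01 s02,
   nh Z2 (mf Z1 s01 s03 s13) s01 s03,
   nh Z2 (mf Z1 s01 s04 s14) s01 s04,
   nh Z2 (mf Z1 s01 s05 s15) s01 s05,
   nh Z2 (mf Z1 s02 s03 s23) s02 s03,
   nh Z2 (mf Z1 s02 s04 s24) s02 s04,
   nh Z2 (mf Z1 s02 s05 s25) s02 s05,
   nh Z2 (mf Z1 s03 s04 s34) s03 s04,
   nh Z2 (mf Z1 s03 s05 s35) s03 s05,
   nh Z2 (mf Z1 s04 s05 s45) s04 s05,
   nh Z2 (mf Z1 s12 s13 s23) s12 s13,
   nh Z2 (mf Z1 s12 s14 s24) s12 s14,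
   nh Z2 (mf Z1 s12 s15 s25) s12 s15,
   nh Z2 (mf Z1 s13 s14 s34) s13 s14,
   nh Z2 (mf Z1 s13 s15 s35) s13 s15,
   nh Z2 (mf Z1 s14 s15 s45) s14 s15,
   nh Z2 (mf Z1 s23 s24 s34) s23 s24,
   nh Z2 (mf Z1 s23 s25 s35) s23 s25,
   nh Z2 (mf Z1 s24 s25 s45) s24 s25,
   nh Z2 (mf Z1 s34 s35 s45) s34 s35]

/-- the minors of a symmetric matrix of size 6, from the `2 x 2` minors -/
def g6b (Z1 m00 m01 m02 m03 m04 m05 m11 m12 m13 m14 m15 m22 m23 m24 m25 m33 m34 m35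
    q0112 q0113 q0114 q0115 q0212 q0213 q0214 q0215 q0223 q0224 q0225 q0312 q0313 q0314 q0315 q0323 q0324 q0325 q0334 q0335 q0412 q0413 q0414 q0415 q0423 q0424 q0425 q0434 q0435 q0445 q0512 q0513 q0514 q0515 q0523 q0524 q0525 q0534 q0535 q0545 q1212 q1213 q1214 q1215 q1223 q1224 q1225 q1234 q1235 q1245 q1313 q1314 q1315 q1323 q1324 q1325 q1334 q1335 q1345 q1414 q1415 q1423 q1424 q1425 q1434 q1435 q1445 q1515 q1523 q1524 q1525 q1534 q1535 q1545 q2323 q2324 q2325 q2334 q2335 q2345 q2424 q2425 q2434 q2435 q2445 q2525 q2534 q2535 q2545 q3434 q3435 q3445 q3535 q3545 q4545 : Nat) : List Nat :=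
  [df Z1 m00 m01 m02 q1212 q0212 q0112,
   df Z1 m00 m01 m03 q1213 q0312 q0112,
   df Z1 m00 m01 m04 q1214 q0412 q0112,
   df Z1 m00 m01 m05 q1215 q0512 q0112,
   df Z1 m00 m02 m03 q1223 q0312 q0212,
   df Z1 m00 m02 m04 q1224 q0412 q0212,
   df Z1 m00 m02 m05 q1225 q0512 q0212,
   df Z1 m00 m03 m04 q1234 q0412 q0312,
   df Z1 m00 m03 m05 q1235 q0512 q0312,
   df Z1 m00 m04 m05 q1245 q0512 q0412,
   df Z1 m01 m02 m03 q1223 q1213 q1212,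
   df Z1 m01 m02 m04 q1224 q1214 q1212,
   df Z1 m01 m02 m05 q1225 q1215 q1212,
   df Z1 m01 m03 m04 q1234 q1214 q1213,
   df Z1 m01 m03 m05 q1235 q1215 q1213,
   df Z1 m01 m04 m05 q1245 q1215 q1214,
   df Z1 m02 m03 m04 q1234 q1224 q1223,
   df Z1 m02 m03 m05 q1235 q1225 q1223,
   df Z1 m02 m04 m05 q1245 q1225 q1224,
   df Z1 m03 m04 m05 q1245 q1235 q1234,
   df Z1 m00 m01 m03 q1313 q0313 q0113,
   df Z1 m00 m01 m04 q1314 q0413 q0113,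
   df Z1 m00 m01 m05 q1315 q0513 q0113,
   df Z1 m00 m02 m03 q1323 q0313 q0213,
   df Z1 m00 m02 m04 q1324 q0413 q0213,
   df Z1 m00 m02 m05 q1325 q0513 q0213,
   df Z1 m00 m03 m04 q1334 q0413 q0313,
   df Z1 m00 m03 m05 q1335 q0513 q0313,
   df Z1 m00 m04 m05 q1345 q0513 q0413,
   df Z1 m01 m02 m03 q1323 q1313 q1213,
   df Z1 m01 m02 m04 q1324 q1314 q1213,
   df Z1 m01 m02 m05 q1325 q1315 q1213,
   df Z1 m01 m03 m04 q1334 q1314 q1313,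
   df Z1 m01 m03 m05 q1335 q1315 q1313,
   df Z1 m01 m04 m05 q1345 q1315 q1314,
   df Z1 m02 m03 m04 q1334 q1324 q1323,
   df Z1 m02 m03 m05 q1335 q1325 q1323,
   df Z1 m02 m04 m05 q1345 q1325 q1324,
   df Z1 m03 m04 m05 q1345 q1335 q1334,
   df Z1 m00 m01 m04 q1414 q0414 q0114,
   df Z1 m00 m01 m05 q1415 q0514 q0114,
   df Z1 m00 m02 m03 q1423 q0314 q0214,
   df Z1 m00 m02 m04 q1424 q0414 q0214,
   df Z1 m00 m02 m05 q1425 q0514 q0214,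
   df Z1 m00 m03 m04 q1434 q0414 q0314,
   df Z1 m00 m03 m05 q1435 q0514 q0314,
   df Z1 m00 m04 m05 q1445 q0514 q0414,
   df Z1 m01 m02 m03 q1423 q1314 q1214,
   df Z1 m01 m02 m04 q1424 q1414 q1214,
   df Z1 m01 m02 m05 q1425 q1415 q1214,
   df Z1 m01 m03 m04 q1434 q1414 q1314,
   df Z1 m01 m03 m05 q1435 q1415 q1314,
   df Z1 m01 m04 m05 q1445 q1415 q1414,
   df Z1 m02 m03 m04 q1434 q1424 q1423,
   df Z1 m02 m03 m05 q1435 q1425 q1423,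
   df Z1 m02 m04 m05 q1445 q1425 q1424,
   df Z1 m03 m04 m05 q1445 q1435 q1434,
   df Z1 m00 m01 m05 q1515 q0515 q0115,
   df Z1 m00 m02 m03 q1523 q0315 q0215,
   df Z1 m00 m02 m04 q1524 q0415 q0215,
   df Z1 m00 m02 m05 q1525 q0515 q0215,
   df Z1 m00 m03 m04 q1534 q0415 q0315,
   df Z1 m00 m03 m05 q1535 q0515 q0315,
   df Z1 m00 m04 m05 q1545 q0515 q0415,
   df Z1 m01 m02 m03 q1523 q1315 q1215,
   df Z1 m01 m02 m04 q1524 q1415 q1215,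
   df Z1 m01 m02 m05 q1525 q1515 q1215,
   df Z1 m01 m03 m04 q1534 q1415 q1315,
   df Z1 m01 m03 m05 q1535 q1515 q1315,
   df Z1 m01 m04 m05 q1545 q1515 q1415,
   df Z1 m02 m03 m04 q1534 q1524 q1523,
   df Z1 m02 m03 m05 q1535 q1525 q1523,
   df Z1 m02 m04 m05 q1545 q1525 q1524,
   df Z1 m03 m04 m05 q1545 q1535 q1534,
   df Z1 m00 m02 m03 q2323 q0323 q0223,
   df Z1 m00 m02 m04 q2324 q0423 q0223,
   df Z1 m00 m02 m05 q2325 q0523 q0223,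
   df Z1 m00 m03 m04 q2334 q0423 q0323,
   df Z1 m00 m03 m05 q2335 q0523 q0323,
   df Z1 m00 m04 m05 q2345 q0523 q0423,
   df Z1 m01 m02 m03 q2323 q1323 q1223,
   df Z1 m01 m02 m04 q2324 q1423 q1223,
   df Z1 m01 m02 m05 q2325 q1523 q1223,
   df Z1 m01 m03 m04 q2334 q1423 q1323,
   df Z1 m01 m03 m05 q2335 q1523 q1323,
   df Z1 m01 m04 m05 q2345 q1523 q1423,
   df Z1 m02 m03 m04 q2334 q2324 q2323,
   df Z1 m02 m03 m05 q2335 q2325 q2323,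
   df Z1 m02 m04 m05 q2345 q2325 q2324,
   df Z1 m03 m04 m05 q2345 q2335 q2334,
   df Z1 m00 m02 m04 q2424 q0424 q0224,
   df Z1 m00 m02 m05 q2425 q0524 q0224,
   df Z1 m00 m03 m04 q2434 q0424 q0324,
   df Z1 m00 m03 m05 q2435 q0524 q0324,
   df Z1 m00 m04 m05 q2445 q0524 q0424,
   df Z1 m01 m02 m03 q2324 q1324 q1224,
   df Z1 m01 m02 m04 q2424 q1424 q1224,
   df Z1 m01 m02 m05 q2425 q1524 q1224,
   df Z1 m01 m03 m04 q2434 q1424 q1324,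
   df Z1 m01 m03 m05 q2435 q1524 q1324,
   df Z1 m01 m04 m05 q2445 q1524 q1424,
   df Z1 m02 m03 m04 q2434 q2424 q2324,
   df Z1 m02 m03 m05 q2435 q2425 q2324,
   df Z1 m02 m04 m05 q2445 q2425 q2424,
   df Z1 m03 m04 m05 q2445 q2435 q2434,
   df Z1 m00 m02 m05 q2525 q0525 q0225,
   df Z1 m00 m03 m04 q2534 q0425 q0325,
   df Z1 m00 m03 m05 q2535 q0525 q0325,
   df Z1 m00 m04 m05 q2545 q0525 q0425,
   df Z1 m01 m02 m03 q2325 q1325 q1225,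
   df Z1 m01 m02 m04 q2425 q1425 q1225,
   df Z1 m01 m02 m05 q2525 q1525 q1225,
   df Z1 m01 m03 m04 q2534 q1425 q1325,
   df Z1 m01 m03 m05 q2535 q1525 q1325,
   df Z1 m01 m04 m05 q2545 q1525 q1425,
   df Z1 m02 m03 m04 q2534 q2425 q2325,
   df Z1 m02 m03 m05 q2535 q2525 q2325,
   df Z1 m02 m04 m05 q2545 q2525 q2425,
   df Z1 m03 m04 m05 q2545 q2535 q2534,
   df Z1 m00 m03 m04 q3434 q0434 q0334,
   df Z1 m00 m03 m05 q3435 q0534 q0334,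
   df Z1 m00 m04 m05 q3445 q0534 q0434,
   df Z1 m01 m02 m03 q2334 q1334 q1234,
   df Z1 m01 m02 m04 q2434 q1434 q1234,
   df Z1 m01 m02 m05 q2534 q1534 q1234,
   df Z1 m01 m03 m04 q3434 q1434 q1334,
   df Z1 m01 m03 m05 q3435 q1534 q1334,
   df Z1 m01 m04 m05 q3445 q1534 q1434,
   df Z1 m02 m03 m04 q3434 q2434 q2334,
   df Z1 m02 m03 m05 q3435 q2534 q2334,
   df Z1 m02 m04 m05 q3445 q2534 q2434,
   df Z1 m03 m04 m05 q3445 q3435 q3434,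
   df Z1 m00 m03 m05 q3535 q0535 q0335,
   df Z1 m00 m04 m05 q3545 q0535 q0435,
   df Z1 m01 m02 m03 q2335 q1335 q1235,
   df Z1 m01 m02 m04 q2435 q1435 q1235,
   df Z1 m01 m02 m05 q2535 q1535 q1235,
   df Z1 m01 m03 m04 q3435 q1435 q1335,
   df Z1 m01 m03 m05 q3535 q1535 q1335,
   df Z1 m01 m04 m05 q3545 q1535 q1435,
   df Z1 m02 m03 m04 q3435 q2435 q2335,
   df Z1 m02 m03 m05 q3535 q2535 q2335,
   df Z1 m02 m04 m05 q3545 q2535 q2435,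
   df Z1 m03 m04 m05 q3545 q3535 q3435,
   df Z1 m00 m04 m05 q4545 q0545 q0445,
   df Z1 m01 m02 m03 q2345 q1345 q1245,
   df Z1 m01 m02 m04 q2445 q1445 q1245,
   df Z1 m01 m02 m05 q2545 q1545 q1245,
   df Z1 m01 m03 m04 q3445 q1445 q1345,
   df Z1 m01 m03 m05 q3545 q1545 q1345,
   df Z1 m01 m04 m05 q4545 q1545 q1445,
   df Z1 m02 m03 m04 q3445 q2445 q2345,
   df Z1 m02 m03 m05 q3545 q2545 q2345,
   df Z1 m02 m04 m05 q4545 q2545 q2445,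
   df Z1 m03 m04 m05 q4545 q3545 q3445,
   df Z1 m11 m12 m13 q2323 q1323 q1223,
   df Z1 m11 m12 m14 q2324 q1423 q1223,
   df Z1 m11 m12 m15 q2325 q1523 q1223,
   df Z1 m11 m13 m14 q2334 q1423 q1323,
   df Z1 m11 m13 m15 q2335 q1523 q1323,
   df Z1 m11 m14 m15 q2345 q1523 q1423,
   df Z1 m12 m13 m14 q2334 q2324 q2323,
   df Z1 m12 m13 m15 q2335 q2325 q2323,
   df Z1 m12 m14 m15 q2345 q2325 q2324,
   df Z1 m13 m14 m15 q2345 q2335 q2334,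
   df Z1 m11 m12 m14 q2424 q1424 q1224,
   df Z1 m11 m12 m15 q2425 q1524 q1224,
   df Z1 m11 m13 m14 q2434 q1424 q1324,
   df Z1 m11 m13 m15 q2435 q1524 q1324,
   df Z1 m11 m14 m15 q2445 q1524 q1424,
   df Z1 m12 m13 m14 q2434 q2424 q2324,
   df Z1 m12 m13 m15 q2435 q2425 q2324,
   df Z1 m12 m14 m15 q2445 q2425 q2424,
   df Z1 m13 m14 m15 q2445 q2435 q2434,
   df Z1 m11 m12 m15 q2525 q1525 q1225,
   df Z1 m11 m13 m14 q2534 q1425 q1325,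
   df Z1 m11 m13 m15 q2535 q1525 q1325,
   df Z1 m11 m14 m15 q2545 q1525 q1425,
   df Z1 m12 m13 m14 q2534 q2425 q2325,
   df Z1 m12 m13 m15 q2535 q2525 q2325,
   df Z1 m12 m14 m15 q2545 q2525 q2425,
   df Z1 m13 m14 m15 q2545 q2535 q2534,
   df Z1 m11 m13 m14 q3434 q1434 q1334,
   df Z1 m11 m13 m15 q3435 q1534 q1334,
   df Z1 m11 m14 m15 q3445 q1534 q1434,
   df Z1 m12 m13 m14 q3434 q2434 q2334,
   df Z1 m12 m13 m15 q3435 q2534 q2334,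
   df Z1 m12 m14 m15 q3445 q2534 q2434,
   df Z1 m13 m14 m15 q3445 q3435 q3434,
   df Z1 m11 m13 m15 q3535 q1535 q1335,
   df Z1 m11 m14 m15 q3545 q1535 q1435,
   df Z1 m12 m13 m14 q3435 q2435 q2335,
   df Z1 m12 m13 m15 q3535 q2535 q2335,
   df Z1 m12 m14 m15 q3545 q2535 q2435,
   df Z1 m13 m14 m15 q3545 q3535 q3435,
   df Z1 m11 m14 m15 q4545 q1545 q1445,
   df Z1 m12 m13 m14 q3445 q2445 q2345,
   df Z1 m12 m13 m15 q3545 q2545 q2345,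
   df Z1 m12 m14 m15 q4545 q2545 q2445,
   df Z1 m13 m14 m15 q4545 q3545 q3445,
   df Z1 m22 m23 m24 q3434 q2434 q2334,
   df Z1 m22 m23 m25 q3435 q2534 q2334,
   df Z1 m22 m24 m25 q3445 q2534 q2434,
   df Z1 m23 m24 m25 q3445 q3435 q3434,
   df Z1 m22 m23 m25 q3535 q2535 q2335,
   df Z1 m22 m24 m25 q3545 q2535 q2435,
   df Z1 m23 m24 m25 q3545 q3535 q3435,
   df Z1 m22 m24 m25 q4545 q2545 q2445,
   df Z1 m23 m24 m25 q4545 q3545 q3445,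
   df Z1 m33 m34 m35 q4545 q3545 q3445]

/-- the minors of a symmetric matrix of size 6 -/
def g6 (MK Z1 Z2 m00 m01 m02 m03 m04 m05 m11 m12 m13 m14 m15 m22 m23 m24 m25 m33 m34 m35 m44 m45 m55 : Nat) : List Nat :=
  g6b Z1 m00 m01 m02 m03 m04 m05 m11 m12 m13 m14 m15 m22 m23 m24 m25 m33 m34 m35
    (qf MK Z2 m01 m12 m02 m11)
    (qf MK Z2 m01 m13 m03 m11)
    (qf MK Z2 m01 m14 m04 m11)
    (qf MK Z2 m01 m15 m05 m11)
    (qf MK Z2 m01 m22 m02 m12)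
    (qf MK Z2 m01 m23 m03 m12)
    (qf MK Z2 m01 m24 m04 m12)
    (qf MK Z2 m01 m25 m05 m12)
    (qf MK Z2 m02 m23 m03 m22)
    (qf MK Z2 m02 m24 m04 m22)
    (qf MK Z2 m02 m25 m05 m22)
    (qf MK Z2 m01 m23 m02 m13)
    (qf MK Z2 m01 m33 m03 m13)
    (qf MK Z2 m01 m34 m04 m13)
    (qf MK Z2 m01 m35 m05 m13)
    (qf MK Z2 m02 m33 m03 m23)
    (qf MK Z2 m02 m34 m04 m23)
    (qf MK Z2 m02 m35 m05 m23)
    (qf MK Z2 m03 m34 m04 m33)
    (qf MK Z2 m03 m35 m05 m33)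
    (qf MK Z2 m01 m24 m02 m14)
    (qf MK Z2 m01 m34 m03 m14)
    (qf MK Z2 m01 m44 m04 m14)
    (qf MK Z2 m01 m45 m05 m14)
    (qf MK Z2 m02 m34 m03 m24)
    (qf MK Z2 m02 m44 m04 m24)
    (qf MK Z2 m02 m45 m05 m24)
    (qf MK Z2 m03 m44 m04 m34)
    (qf MK Z2 m03 m45 m05 m34)
    (qf MK Z2 m04 m45 m05 m44)
    (qf MK Z2 m01 m25 m02 m15)
    (qf MK Z2 m01 m35 m03 m15)
    (qf MK Z2 m01 m45 m04 m15)
    (qf MK Z2 m01 m55 m05 m15)
    (qf MK Z2 m02 m35 m03 m25)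
    (qf MK Z2 m02 m45 m04 m25)
    (qf MK Z2 m02 m55 m05 m25)
    (qf MK Z2 m03 m45 m04 m35)
    (qf MK Z2 m03 m55 m05 m35)
    (qf MK Z2 m04 m55 m05 m45)
    (qf MK Z2 m11 m22 m12 m12)
    (qf MK Z2 m11 m23 m13 m12)
    (qf MK Z2 m11 m24 m14 m12)
    (qf MK Z2 m11 m25 m15 m12)
    (qf MK Z2 m12 m23 m13 m22)
    (qf MK Z2 m12 m24 m14 m22)
    (qf MK Z2 m12 m25 m15 m22)
    (qf MK Z2 m13 m24 m14 m23)
    (qf MK Z2 m13 m25 m15 m23)
    (qf MK Z2 m14 m25 m15 m24)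
    (qf MK Z2 m11 m33 m13 m13)
    (qf MK Z2 m11 m34 m14 m13)
    (qf MK Z2 m11 m35 m15 m13)
    (qf MK Z2 m12 m33 m13 m23)
    (qf MK Z2 m12 m34 m14 m23)
    (qf MK Z2 m12 m35 m15 m23)
    (qf MK Z2 m13 m34 m14 m33)
    (qf MK Z2 m13 m35 m15 m33)
    (qf MK Z2 m14 m35 m15 m34)
    (qf MK Z2 m11 m44 m14 m14)
    (qf MK Z2 m11 m45 m15 m14)
    (qf MK Z2 m12 m34 m13 m24)
    (qf MK Z2 m12 m44 m14 m24)
    (qf MK Z2 m12 m45 m15 m24)
    (qf MK Z2 m13 m44 m14 m34)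
    (qf MK Z2 m13 m45 m15 m34)
    (qf MK Z2 m14 m45 m15 m44)
    (qf MK Z2 m11 m55 m15 m15)
    (qf MK Z2 m12 m35 m13 m25)
    (qf MK Z2 m12 m45 m14 m25)
    (qf MK Z2 m12 m55 m15 m25)
    (qf MK Z2 m13 m45 m14 m35)
    (qf MK Z2 m13 m55 m15 m35)
    (qf MK Z2 m14 m55 m15 m45)
    (qf MK Z2 m22 m33 m23 m23)
    (qf MK Z2 m22 m34 m24 m23)
    (qf MK Z2 m22 m35 m25 m23)
    (qf MK Z2 m23 m34 m24 m33)
    (qf MK Z2 m23 m35 m25 m33)
    (qf MK Z2 m24 m35 m25 m34)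
    (qf MK Z2 m22 m44 m24 m24)
    (qf MK Z2 m22 m45 m25 m24)
    (qf MK Z2 m23 m44 m24 m34)
    (qf MK Z2 m23 m45 m25 m34)
    (qf MK Z2 m24 m45 m25 m44)
    (qf MK Z2 m22 m55 m25 m25)
    (qf MK Z2 m23 m45 m24 m35)
    (qf MK Z2 m23 m55 m25 m35)
    (qf MK Z2 m24 m55 m25 m45)
    (qf MK Z2 m33 m44 m34 m34)
    (qf MK Z2 m33 m45 m35 m34)
    (qf MK Z2 m34 m45 m35 m44)
    (qf MK Z2 m33 m55 m35 m35)
    (qf MK Z2 m34 m55 m35 m45)
    (qf MK Z2 m44 m55 m45 m45)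

/-- the minors of the Gram matrix of 7 points -/
def G7 (MK Z1 Z2 s01 s02 s12 s03 s13 s23 s04 s14 s24 s34 s05 s15 s25 s35 s45 s06 s16 s26 s36 s46 s56 : Nat) : List Nat :=
  g6 MK Z1 Z2
    (Nat.mul 2 s01)
    (mf Z1 s01 s02 s12)
    (mf Z1 s01 s03 s13)
    (mf Z1 s01 s04 s14)
    (mf Z1 s01 s05 s15)
    (mf Z1 s01 s06 s16)
    (Nat.mul 2 s02)
    (mf Z1 s02 s03 s23)
    (mf Z1 s02 s04 s24)
    (mf Z1 s02 s05 s25)
    (mf Z1 s02 s06 s26)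
    (Nat.mul 2 s03)
    (mf Z1 s03 s04 s34)
    (mf Z1 s03 s05 s35)
    (mf Z1 s03 s06 s36)
    (Nat.mul 2 s04)
    (mf Z1 s04 s05 s45)
    (mf Z1 s04 s06 s46)
    (Nat.mul 2 s05)
    (mf Z1 s05 s06 s56)
    (Nat.mul 2 s06)

/-- minus the Heron forms of the triangles of 7 points -/
def H7 (Z1 Z2 s01 s02 s12 s03 s13 s23 s04 s14 s24 s34 s05 s15 s25 s35 s45 s06 s16 s26 s36 s46 s56 : Nat) : List Nat :=
  [nh Z2 (mf Z1 s01 s02 s12) s01 s02,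
   nh Z2 (mf Z1 s01 s03 s13) s01 s03,
   nh Z2 (mf Z1 s01 s04 s14) s01 s04,
   nh Z2 (mf Z1 s01 s05 s15) s01 s05,
   nh Z2 (mf Z1 s01 s06 s16) s01 s06,
   nh Z2 (mf Z1 s02 s03 s23) s02 s03,
   nh Z2 (mf Z1 s02 s04 s24) s02 s04,
   nh Z2 (mf Z1 s02 s05 s25) s02 s05,
   nh Z2 (mf Z1 s02 s06 s26) s02 s06,
   nh Z2 (mf Z1 s03 s04 s34) s03 s04,
   nh Z2 (mf Z1 s03 s05 s35) s03 s05,
   nh Z2 (mf Z1 s03 s06 s36) s03 s06,
   nh Z2 (mf Z1 s04 s05 s45) s04 s05,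
   nh Z2 (mf Z1 s04 s06 s46) s04 s06,
   nh Z2 (mf Z1 s05 s06 s56) s05 s06,
   nh Z2 (mf Z1 s12 s13 s23) s12 s13,
   nh Z2 (mf Z1 s12 s14 s24) s12 s14,
   nh Z2 (mf Z1 s12 s15 s25) s12 s15,
   nh Z2 (mf Z1 s12 s16 s26) s12 s16,
   nh Z2 (mf Z1 s13 s14 s34) s13 s14,
   nh Z2 (mf Z1 s13 s15 s35) s13 s15,
   nh Z2 (mf Z1 s13 s16 s36) s13 s16,
   nh Z2 (mf Z1 s14 s15 s45) s14 s15,
   nh Z2 (mf Z1 s14 s16 s46) s14 s16,
   nh Z2 (mf Z1 s15 s16 s56) s15 s16,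
   nh Z2 (mf Z1 s23 s24 s34) s23 s24,
   nh Z2 (mf Z1 s23 s25 s35) s23 s25,
   nh Z2 (mf Z1 s23 s26 s36) s23 s26,
   nh Z2 (mf Z1 s24 s25 s45) s24 s25,
   nh Z2 (mf Z1 s24 s26 s46) s24 s26,
   nh Z2 (mf Z1 s25 s26 s56) s25 s26,
   nh Z2 (mf Z1 s34 s35 s45) s34 s35,
   nh Z2 (mf Z1 s34 s36 s46) s34 s36,
   nh Z2 (mf Z1 s35 s36 s56) s35 s36,
   nh Z2 (mf Z1 s45 s46 s56) s45 s46]

/-- the values of the 6 variables -/
def X6 (b : Nat) : List Nat :=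
  [1, Nat.shiftLeft 1 (Nat.mul b 2), Nat.shiftLeft 1 (Nat.mul b 11), Nat.shiftLeft 1 (Nat.mul b 26), Nat.shiftLeft 1 (Nat.mul b 42), Nat.shiftLeft 1 (Nat.mul b 45)]

def S6 (Z1 Z2 x0 x1 x2 x3 x4 x5 : Nat) : List Nat :=
  [ns Z2 (Nat.add x0 (Nat.sub Z1 x1)),
   ns Z2 (Nat.add x0 (Nat.sub Z1 x2)),
   ns Z2 (Nat.add x1 (Nat.sub Z1 x2)),
   ns Z2 (Nat.add x0 (Nat.sub Z1 x3)),
   ns Z2 (Nat.add x1 (Nat.sub Z1 x3)),
   ns Z2 (Nat.add x2 (Nat.sub Z1 x3)),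
   ns Z2 (Nat.add x0 (Nat.sub Z1 x4)),
   ns Z2 (Nat.add x1 (Nat.sub Z1 x4)),
   ns Z2 (Nat.add x2 (Nat.sub Z1 x4)),
   ns Z2 (Nat.add x3 (Nat.sub Z1 x4)),
   ns Z2 (Nat.add x0 (Nat.sub Z1 x5)),
   ns Z2 (Nat.add x1 (Nat.sub Z1 x5)),
   ns Z2 (Nat.add x2 (Nat.sub Z1 x5)),
   ns Z2 (Nat.add x3 (Nat.sub Z1 x5)),
   ns Z2 (Nat.add x4 (Nat.sub Z1 x5))]

def M6 (x0 x1 x2 x3 x4 x5 : Nat) : List Nat :=
  [Nat.mul x0 x0,
   Nat.mul x0 x1,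
   Nat.mul x1 x1,
   Nat.mul x0 x2,
   Nat.mul x1 x2,
   Nat.mul x2 x2,
   Nat.mul x0 x3,
   Nat.mul x1 x3,
   Nat.mul x2 x3,
   Nat.mul x3 x3,
   Nat.mul x0 x4,
   Nat.mul x1 x4,
   Nat.mul x2 x4,
   Nat.mul x3 x4,
   Nat.mul x4 x4,
   Nat.mul x0 x5,
   Nat.mul x1 x5,
   Nat.mul x2 x5,
   Nat.mul x3 x5,
   Nat.mul x4 x5,
   Nat.mul x5 x5]

/-- the values of the 7 variables -/
def X7 (b : Nat) : List Nat :=
  [1, Nat.shiftLeft 1 (Nat.mul b 1), Nat.shiftLeft 1 (Nat.mul b 7), Nat.shiftLeft 1 (Nat.mul b 50), Nat.shiftLeft 1 (Nat.mul b 59), Nat.shiftLeft 1 (Nat.mul b 78), Nat.shiftLeft 1 (Nat.mul b 82)]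

def S7 (Z1 Z2 x0 x1 x2 x3 x4 x5 x6 : Nat) : List Nat :=
  [ns Z2 (Nat.add x0 (Nat.sub Z1 x1)),
   ns Z2 (Nat.add x0 (Nat.sub Z1 x2)),
   ns Z2 (Nat.add x1 (Nat.sub Z1 x2)),
   ns Z2 (Nat.add x0 (Nat.sub Z1 x3)),
   ns Z2 (Nat.add x1 (Nat.sub Z1 x3)),
   ns Z2 (Nat.add x2 (Nat.sub Z1 x3)),
   ns Z2 (Nat.add x0 (Nat.sub Z1 x4)),
   ns Z2 (Nat.add x1 (Nat.sub Z1 x4)),
   ns Z2 (Nat.add x2 (Nat.sub Z1 x4)),
   ns Z2 (Nat.add x3 (Nat.sub Z1 x4)),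
   ns Z2 (Nat.add x0 (Nat.sub Z1 x5)),
   ns Z2 (Nat.add x1 (Nat.sub Z1 x5)),
   ns Z2 (Nat.add x2 (Nat.sub Z1 x5)),
   ns Z2 (Nat.add x3 (Nat.sub Z1 x5)),
   ns Z2 (Nat.add x4 (Nat.sub Z1 x5)),
   ns Z2 (Nat.add x0 (Nat.sub Z1 x6)),
   ns Z2 (Nat.add x1 (Nat.sub Z1 x6)),
   ns Z2 (Nat.add x2 (Nat.sub Z1 x6)),
   ns Z2 (Nat.add x3 (Nat.sub Z1 x6)),
   ns Z2 (Nat.add x4 (Nat.sub Z1 x6)),
   ns Z2 (Nat.add x5 (Nat.sub Z1 x6))]

def M7 (x0 x1 x2 x3 x4 x5 x6 : Nat) : List Nat :=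
  [Nat.mul x0 x0,
   Nat.mul x0 x1,
   Nat.mul x1 x1,
   Nat.mul x0 x2,
   Nat.mul x1 x2,
   Nat.mul x2 x2,
   Nat.mul x0 x3,
   Nat.mul x1 x3,
   Nat.mul x2 x3,
   Nat.mul x3 x3,
   Nat.mul x0 x4,
   Nat.mul x1 x4,
   Nat.mul x2 x4,
   Nat.mul x3 x4,
   Nat.mul x4 x4,
   Nat.mul x0 x5,
   Nat.mul x1 x5,
   Nat.mul x2 x5,
   Nat.mul x3 x5,
   Nat.mul x4 x5,
   Nat.mul x5 x5,
   Nat.mul x0 x6,
   Nat.mul x1 x6,
   Nat.mul x2 x6,
   Nat.mul x3 x6,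
   Nat.mul x4 x6,
   Nat.mul x5 x6,
   Nat.mul x6 x6]

/-- the values of the 8 variables -/
def X8 (b : Nat) : List Nat :=
  [1, Nat.shiftLeft 1 (Nat.mul b 2), Nat.shiftLeft 1 (Nat.mul b 5), Nat.shiftLeft 1 (Nat.mul b 34), Nat.shiftLeft 1 (Nat.mul b 74), Nat.shiftLeft 1 (Nat.mul b 107), Nat.shiftLeft 1 (Nat.mul b 120), Nat.shiftLeft 1 (Nat.mul b 129)]

def S8 (Z1 Z2 x0 x1 x2 x3 x4 x5 x6 x7 : Nat) : List Nat :=
  [ns Z2 (Nat.add x0 (Nat.sub Z1 x1)),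
   ns Z2 (Nat.add x0 (Nat.sub Z1 x2)),
   ns Z2 (Nat.add x1 (Nat.sub Z1 x2)),
   ns Z2 (Nat.add x0 (Nat.sub Z1 x3)),
   ns Z2 (Nat.add x1 (Nat.sub Z1 x3)),
   ns Z2 (Nat.add x2 (Nat.sub Z1 x3)),
   ns Z2 (Nat.add x0 (Nat.sub Z1 x4)),
   ns Z2 (Nat.add x1 (Nat.sub Z1 x4)),
   ns Z2 (Nat.add x2 (Nat.sub Z1 x4)),
   ns Z2 (Nat.add x3 (Nat.sub Z1 x4)),
   ns Z2 (Nat.add x0 (Nat.sub Z1 x5)),
   ns Z2 (Nat.add x1 (Nat.sub Z1 x5)),
   ns Z2 (Nat.add x2 (Nat.sub Z1 x5)),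
   ns Z2 (Nat.add x3 (Nat.sub Z1 x5)),
   ns Z2 (Nat.add x4 (Nat.sub Z1 x5)),
   ns Z2 (Nat.add x0 (Nat.sub Z1 x6)),
   ns Z2 (Nat.add x1 (Nat.sub Z1 x6)),
   ns Z2 (Nat.add x2 (Nat.sub Z1 x6)),
   ns Z2 (Nat.add x3 (Nat.sub Z1 x6)),
   ns Z2 (Nat.add x4 (Nat.sub Z1 x6)),
   ns Z2 (Nat.add x5 (Nat.sub Z1 x6)),
   ns Z2 (Nat.add x0 (Nat.sub Z1 x7)),
   ns Z2 (Nat.add x1 (Nat.sub Z1 x7)),
   ns Z2 (Nat.add x2 (Nat.sub Z1 x7)),
   ns Z2 (Nat.add x3 (Nat.sub Z1 x7)),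
   ns Z2 (Nat.add x4 (Nat.sub Z1 x7)),
   ns Z2 (Nat.add x5 (Nat.sub Z1 x7)),
   ns Z2 (Nat.add x6 (Nat.sub Z1 x7))]

def M8 (x0 x1 x2 x3 x4 x5 x6 x7 : Nat) : List Nat :=
  [Nat.mul x0 x0,
   Nat.mul x0 x1,
   Nat.mul x1 x1,
   Nat.mul x0 x2,
   Nat.mul x1 x2,
   Nat.mul x2 x2,
   Nat.mul x0 x3,
   Nat.mul x1 x3,
   Nat.mul x2 x3,
   Nat.mul x3 x3,
   Nat.mul x0 x4,
   Nat.mul x1 x4,
   Nat.mul x2 x4,
   Nat.mul x3 x4,
   Nat.mul x4 x4,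
   Nat.mul x0 x5,
   Nat.mul x1 x5,
   Nat.mul x2 x5,
   Nat.mul x3 x5,
   Nat.mul x4 x5,
   Nat.mul x5 x5,
   Nat.mul x0 x6,
   Nat.mul x1 x6,
   Nat.mul x2 x6,
   Nat.mul x3 x6,
   Nat.mul x4 x6,
   Nat.mul x5 x6,
   Nat.mul x6 x6,
   Nat.mul x0 x7,
   Nat.mul x1 x7,
   Nat.mul x2 x7,
   Nat.mul x3 x7,
   Nat.mul x4 x7,
   Nat.mul x5 x7,
   Nat.mul x6 x7,
   Nat.mul x7 x7]


/-- drop `g` elements -/
def dropk (G : List Nat) : Nat → (Nat → List Nat → Bool) → Bool :=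
  List.rec (motive := fun _ => Nat → (Nat → List Nat → Bool) → Bool) (fun _ _ => false)
    (fun h t ih g f => Nat.rec (motive := fun _ => Bool) (f h t) (fun g' _ => ih g' f) g) G

/-- a signed multiple -/
def tm (ZB mag h sg : Nat) : Nat :=
  Nat.rec (motive := fun _ => Nat) (Nat.mul mag h) (fun _ _ => Nat.sub ZB (Nat.mul mag h)) sg

/-- one term -/
def term (ZB sb gw gw1 GM : Nat) (G : List Nat) (acc t : Nat) (k : List Nat → Nat → Bool) : Bool :=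
  dropk G (Nat.land t GM) (fun h T => k T (Nat.add acc
    (tm ZB (Nat.succ (Nat.shiftRight t gw1)) h (Nat.land (Nat.shiftRight t gw) sb))))

/-- `n` terms from the list `G` -/
def loop (ZB sb gw gw1 GM tw TM : Nat) (k : Nat → Nat → Bool) (n : Nat) : List Nat → Nat → Nat → Bool :=
  Nat.rec (motive := fun _ => List Nat → Nat → Nat → Bool) (fun _ C acc => k acc C)
    (fun _ ih G C acc => term ZB sb gw gw1 GM G acc (Nat.land C TM)
      (fun T acc' => ih T (Nat.shiftRight C tw) acc')) n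

/-- a loop with the widths `gw` (gaps) and `w` (absolute values) -/
def loopw (ZB sb gw w : Nat) (k : Nat → Nat → Bool) (n : Nat) (G : List Nat) (C : Nat) : Bool :=
  loop ZB sb gw (Nat.succ gw) (Nat.sub (Nat.shiftLeft 1 gw) 1) (Nat.add (Nat.succ gw) w)
    (Nat.sub (Nat.shiftLeft 1 (Nat.add (Nat.succ gw) w)) 1) k n G C 0

/-- value of the edge `i j` -/
def se (E : List Nat) (i j : Nat) : Nat :=
  Bool.rec (motive := fun _ => Nat)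
    (Bool.rec (motive := fun _ => Nat)
      (lget E (Nat.add (Nat.div (Nat.mul i (Nat.sub i 1)) 2) j))
      (lget E (Nat.add (Nat.div (Nat.mul j (Nat.sub j 1)) 2) i)) (Nat.ble i j)) 0 (Nat.beq i j)

def me (Z1 : Nat) (E : List Nat) (b i j : Nat) : Nat := mf Z1 (se E b i) (se E b j) (se E i j)

/-- a minor of the Gram matrix with base point `b` -/
def dmin (MK Z1 Z2 : Nat) (E : List Nat) (b i1 i2 i3 j1 j2 j3 : Nat) : Nat :=
  df Z1 (me Z1 E b i1 j1) (me Z1 E b i1 j2) (me Z1 E b i1 j3)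
    (qf MK Z2 (me Z1 E b i2 j2) (me Z1 E b i3 j3) (me Z1 E b i2 j3) (me Z1 E b i3 j2))
    (qf MK Z2 (me Z1 E b i2 j1) (me Z1 E b i3 j3) (me Z1 E b i2 j3) (me Z1 E b i3 j1))
    (qf MK Z2 (me Z1 E b i2 j1) (me Z1 E b i3 j2) (me Z1 E b i2 j2) (me Z1 E b i3 j1))

/-- digit number `i` (4 bits) -/
def hx (t i : Nat) : Nat := Nat.land (Nat.shiftRight t (Nat.mul 4 i)) 15

def band (a b : Bool) : Bool := Bool.rec (motive := fun _ => Bool) false b a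

def bor (a b : Bool) : Bool := Bool.rec (motive := fun _ => Bool) b true a

def lt' (m i : Nat) : Bool := Nat.ble (Nat.succ i) m

/-- direct minors: 28 bits for the base point, rows, columns, then sign, absolute value -/
def dterm (MK Z1 Z2 ZB m : Nat) (E : List Nat) (acc t : Nat) (k : Nat → Bool) : Bool :=
  band (band (lt' m (hx t 0)) (band (band (lt' m (hx t 1)) (band (lt' m (hx t 2)) (lt' m (hx t 3))))
    (band (lt' m (hx t 4)) (band (lt' m (hx t 5)) (lt' m (hx t 6))))))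
    (k (Nat.add acc (tm ZB (Nat.succ (Nat.shiftRight t 29))
      (dmin MK Z1 Z2 E (hx t 0) (hx t 1) (hx t 2) (hx t 3) (hx t 4) (hx t 5) (hx t 6))
      (Nat.land (Nat.shiftRight t 28) 1))))

/-- direct Heron forms: 12 bits for the points, then absolute value -/
def hterm (Z1 Z2 m : Nat) (E : List Nat) (acc t : Nat) (k : Nat → Bool) : Bool :=
  band (band (band (lt' m (hx t 0)) (band (lt' m (hx t 1)) (lt' m (hx t 2))))
    (band (lt' (hx t 1) (hx t 0)) (lt' (hx t 2) (hx t 1))))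
    (k (Nat.add acc (Nat.mul (Nat.succ (Nat.shiftRight t 12))
      (nh Z2 (me Z1 E (hx t 0) (hx t 1) (hx t 2)) (se E (hx t 0) (hx t 1)) (se E (hx t 0) (hx t 2))))))

/-- loop of direct terms -/
def loopd (T : Nat → Nat → (Nat → Bool) → Bool) (tw TM : Nat) (k : Nat → Nat → Bool) (n : Nat) :
    Nat → Nat → Bool :=
  Nat.rec (motive := fun _ => Nat → Nat → Bool) (fun C acc => k acc C)
    (fun _ ih C acc => T acc (Nat.land C TM) (fun acc' => ih (Nat.shiftRight C tw) acc')) n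

/-- the data of a pattern -/
structure Env where
  MK : Nat
  ZC : Nat
  HB : Nat
  MA : Nat
  k : Nat
  q : Nat
  Z1 : Nat
  Z2 : Nat
  ZB : Nat
  m : Nat
  E : List Nat
  XL : List Nat
  L0 : List Nat
  L1 : List Nat
  L2 : List Nat
  M2 : List Nat

/-- the fields of a section header: number of terms, gap width, width of the absolute values -/
def hn (h : Nat) : Nat := Nat.land (Nat.shiftRight h 9) 255
def hg (h : Nat) : Nat := Nat.land (Nat.shiftRight h 17) 15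
def hw (h : Nat) : Nat := Nat.shiftRight h 21
def ha (h : Nat) : Nat := Nat.land (Nat.shiftRight h 3) 7
def hb (h : Nat) : Nat := Nat.land (Nat.shiftRight h 6) 7

/-- a section with terms from the list `L`; `k total C bound pos` -/
def secL (ZB : Nat) (k : Nat → Nat → Nat → Nat → Bool) (tot C bd pos h sb f pz V : Nat)
    (L : List Nat) : Bool :=
  loopw ZB sb (hg h) (hw h)
    (fun acc C' => k (Nat.add tot (Nat.mul acc V)) C'
      (Nat.add bd (Nat.mul f (Nat.shiftLeft (hn h) (hw h)))) (Nat.add pos (Nat.mul pz (hn h))))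
    (hn h) L (Nat.shiftRight C 29)

/-- a section with direct terms with `i` bits of indices -/
def secD (T : Nat → Nat → (Nat → Bool) → Bool) (k : Nat → Nat → Nat → Nat → Bool)
    (tot C bd pos h f pz V i : Nat) : Bool :=
  loopd T (Nat.add i (hw h)) (Nat.sub (Nat.shiftLeft 1 (Nat.add i (hw h))) 1)
    (fun acc C' => k (Nat.add tot (Nat.mul acc V)) C'
      (Nat.add bd (Nat.mul f (Nat.shiftLeft (hn h) (hw h)))) (Nat.add pos (Nat.mul pz (hn h))))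
    (hn h) (Nat.shiftRight C 29) 0

/-- one section -/
def sect (e : Env) (gQ gL : List Nat) (N : Nat) (k : Nat → Nat → Nat → Nat → Bool)
    (tot C bd pos h : Nat) : Bool :=
  Nat.rec (motive := fun _ => Bool)
    -- 0: minors
    (secL e.ZB k tot C bd pos h 1 162 0 1 e.L0)
    (fun k1 _ => Nat.rec (motive := fun _ => Bool)
      -- 1: Heron
      (band (lt' e.q (ha h)) (secL e.ZB k tot C bd pos h 0 13 1 (lget e.XL (ha h)) e.L1))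
      (fun k2 _ => Nat.rec (motive := fun _ => Bool)
        -- 2: squares
        (band (lt' e.q (ha h)) (secL e.ZB k tot C bd pos h 0 4 1 (lget e.XL (ha h)) e.L2))
        (fun k3 _ => Nat.rec (motive := fun _ => Bool)
          -- 3: quadratic zero forms
          (secL e.ZB k tot C bd pos h 1 N 0 (lget e.XL (ha h)) gQ)
          (fun k4 _ => Nat.rec (motive := fun _ => Bool)
            -- 4: linear zero forms
            (secL e.ZB k tot C bd pos h 1 N 0 (Nat.mul (lget e.XL (ha h)) (lget e.XL (hb h))) gL)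
            (fun k5 _ => Nat.rec (motive := fun _ => Bool)
              -- 5: direct minors
              (secD (dterm e.MK e.Z1 e.Z2 e.ZB e.m e.E) k tot C bd pos h 162 0 1 29)
              -- 6: direct Heron forms
              (fun _ _ => band (lt' e.q (ha h))
                (secD (hterm e.Z1 e.Z2 e.m e.E) k tot C bd pos h 13 1 (lget e.XL (ha h)) 12))
              k5) k4) k3) k2) k1)
    (Nat.land h 7)

/-- `n` sections -/
def secs (e : Env) (gQ gL : List Nat) (N : Nat) (k : Nat → Nat → Nat → Nat → Bool) (n : Nat) :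
    Nat → Nat → Nat → Nat → Bool :=
  Nat.rec (motive := fun _ => Nat → Nat → Nat → Nat → Bool) k
    (fun _ ih tot C bd pos => sect e gQ gL N ih tot C bd pos (Nat.land C 536870911)) n

/-- the final test -/
def fin (e : Env) (tot bd pos : Nat) : Bool :=
  band (Nat.ble (Nat.succ bd) e.HB) (band (Nat.beq (Nat.land (Nat.land tot e.MK) e.MA) 0)
    (bor (Nat.ble 1 pos) (Nat.ble 1 (Nat.land tot e.MK))))

/-- the fields of a target header -/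
def tn (h : Nat) : Nat := Nat.land (Nat.shiftRight h 15) 63
def tg (h : Nat) : Nat := Nat.land (Nat.shiftRight h 21) 15
def tw (h : Nat) : Nat := Nat.shiftRight h 25

/-- the zero form `g` with `f g = total` -/
def sat (e : Env) (k : Nat → Nat → Nat → Bool) (tot C bd h F : Nat) (L : List Nat) : Bool :=
  loopw e.ZB 1 (tg h) (tw h)
    (fun G C' => band (Nat.ble (Nat.succ (Nat.add bd (Nat.mul 13 (Nat.shiftLeft (tn h) (tw h))))) e.HB)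
      (band (Nat.beq (Nat.land (Nat.add tot (Nat.sub e.ZC (Nat.mul F G))) e.MK) 0)
        (k (Nat.land G e.MK) C' (Nat.shiftLeft (tn h) (tw h)))))
    (tn h) L (Nat.shiftRight C 33)

/-- the target of a step -/
def tgt (e : Env) (ih : List Nat → List Nat → Nat → Nat → Bool) (gQ gL : List Nat)
    (N tot C bd pos h : Nat) : Bool :=
  Nat.rec (motive := fun _ => Bool)
    (fin e tot bd pos)
    (fun t1 _ => band (Nat.beq pos 0) (Nat.rec (motive := fun _ => Bool)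
      (band (lt' e.q (ha h)) (sat e (fun G C' n => ih (G :: gQ) gL (Nat.add N n) C') tot C bd h
        (lget e.XL (ha h)) e.M2))
      (fun t2 _ => Nat.rec (motive := fun _ => Bool)
        (band (band (lt' e.q (ha h)) (lt' e.q (hb h)))
          (sat e (fun G C' n => ih (G :: gQ) gL (Nat.add N n) C') tot C bd h
            (Nat.add (lget e.XL (ha h)) (lget e.XL (hb h))) e.M2))
        (fun t3 _ => Nat.rec (motive := fun _ => Bool)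
          (band (band (lt' e.k (ha h)) (band (lt' e.k (hb h)) (lt' (hb h) (ha h))))
            (sat e (fun G C' n => ih (G :: gQ) gL (Nat.add N n) C') tot C bd h
              (Nat.add (lget e.XL (ha h)) (Nat.sub e.Z1 (lget e.XL (hb h)))) e.M2))
          (fun _ _ => hterm e.Z1 e.Z2 e.m e.E 0 (Nat.land (Nat.shiftRight h 3) 4095)
            (fun F => sat e (fun G C' n => ih gQ (G :: gL) (Nat.add N n) C') tot C bd h F e.XL))
          t3) t2) t1))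
    (Nat.land h 7)

/-- `n` steps -/
def steps (e : Env) (n : Nat) : List Nat → List Nat → Nat → Nat → Bool :=
  Nat.rec (motive := fun _ => List Nat → List Nat → Nat → Nat → Bool) (fun _ _ _ _ => false)
    (fun _ ih gQ gL N C => secs e gQ gL N
      (fun tot C' bd pos => tgt e ih gQ gL N tot C' bd pos (Nat.land C' 8589934591))
      (Nat.land C 63) 0 (Nat.shiftRight C 6) 0 0) n


/-- digit test: all labels are smaller than 6 -/
def dig6 (P : Nat) : Bool :=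
  (Nat.beq (Nat.land (Nat.land P (Nat.shiftRight P 1))
    10052677739666) 0)

def env6b (MK Z1 Z2 ZB ZC HB MA : Nat) (XL M2 L2 : List Nat)
    (s01 s02 s12 s03 s13 s23 s04 s14 s24 s34 s05 s15 s25 s35 s45 : Nat) : Env where
  MK := MK
  Z1 := Z1
  Z2 := Z2
  ZB := ZB
  ZC := ZC
  HB := HB
  MA := MA
  m := 6
  k := 6
  q := 6
  E := [s01, s02, s12, s03, s13, s23, s04, s14, s24, s34, s05, s15, s25, s35, s45]
  XL := XL
  L0 := G6 MK Z1 Z2 s01 s02 s12 s03 s13 s23 s04 s14 s24 s34 s05 s15 s25 s35 s45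
  L1 := H6 Z1 Z2 s01 s02 s12 s03 s13 s23 s04 s14 s24 s34 s05 s15 s25 s35 s45
  L2 := L2
  M2 := M2

def env6a (b K P Z1 Z2 : Nat) (XL : List Nat) : Env :=
  env6b (Nat.sub (Nat.shiftLeft 1 K) 1) Z1 Z2 (Nat.shiftLeft 1 (Nat.add (Nat.mul 2 K) 300))
    (Nat.shiftLeft 1 (Nat.add (Nat.mul 4 K) 400)) (Nat.shiftLeft 1 (Nat.sub b 1))
    (Nat.mul (Nat.div (Nat.sub (Nat.shiftLeft 1 K) 1) (Nat.sub (Nat.shiftLeft 1 b) 1)) (Nat.shiftLeft 1 (Nat.sub b 1)))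
    XL (M6 (lget XL 0) (lget XL 1) (lget XL 2) (lget XL 3) (lget XL 4) (lget XL 5)) (S6 Z1 Z2 (lget XL 0) (lget XL 1) (lget XL 2) (lget XL 3) (lget XL 4) (lget XL 5))
    (sv XL P 0) (sv XL P 3) (sv XL P 6) (sv XL P 9) (sv XL P 12) (sv XL P 15) (sv XL P 18) (sv XL P 21) (sv XL P 24) (sv XL P 27) (sv XL P 30) (sv XL P 33) (sv XL P 36) (sv XL P 39) (sv XL P 42)

def env6 (b P : Nat) : Env :=
  env6a b (Nat.mul b 136) P (Nat.shiftLeft 1 (Nat.mul b 136)) (Nat.shiftLeft 1 (Nat.add (Nat.mul 2 (Nat.mul b 136)) 4)) (X6 b)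

/-- **the checker** for 6 points and 6 labels -/
def cert6 (P C : Nat) : Bool :=
  band (dig6 P) (steps (env6 (Nat.add 8 (Nat.land C 511)) P) 16 [] [] 0 (Nat.shiftRight C 9))


/-- digit test: all labels are smaller than 7 -/
def dig7 (P : Nat) : Bool :=
  (Nat.beq (Nat.land (Nat.land (Nat.land P (Nat.shiftRight P 1)) (Nat.shiftRight P 2))
    1317624576693539401) 0)

def env7b (MK Z1 Z2 ZB ZC HB MA : Nat) (XL M2 L2 : List Nat)
    (s01 s02 s12 s03 s13 s23 s04 s14 s24 s34 s05 s15 s25 s35 s45 s06 s16 s26 s36 s46 s56 : Nat) : Env where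
  MK := MK
  Z1 := Z1
  Z2 := Z2
  ZB := ZB
  ZC := ZC
  HB := HB
  MA := MA
  m := 7
  k := 7
  q := 7
  E := [s01, s02, s12, s03, s13, s23, s04, s14, s24, s34, s05, s15, s25, s35, s45, s06, s16, s26, s36, s46, s56]
  XL := XL
  L0 := G7 MK Z1 Z2 s01 s02 s12 s03 s13 s23 s04 s14 s24 s34 s05 s15 s25 s35 s45 s06 s16 s26 s36 s46 s56
  L1 := H7 Z1 Z2 s01 s02 s12 s03 s13 s23 s04 s14 s24 s34 s05 s15 s25 s35 s45 s06 s16 s26 s36 s46 s56
  L2 := L2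
  M2 := M2

def env7a (b K P Z1 Z2 : Nat) (XL : List Nat) : Env :=
  env7b (Nat.sub (Nat.shiftLeft 1 K) 1) Z1 Z2 (Nat.shiftLeft 1 (Nat.add (Nat.mul 2 K) 300))
    (Nat.shiftLeft 1 (Nat.add (Nat.mul 4 K) 400)) (Nat.shiftLeft 1 (Nat.sub b 1))
    (Nat.mul (Nat.div (Nat.sub (Nat.shiftLeft 1 K) 1) (Nat.sub (Nat.shiftLeft 1 b) 1)) (Nat.shiftLeft 1 (Nat.sub b 1)))
    XL (M7 (lget XL 0) (lget XL 1) (lget XL 2) (lget XL 3) (lget XL 4) (lget XL 5) (lget XL 6)) (S7 Z1 Z2 (lget XL 0) (lget XL 1) (lget XL 2) (lget XL 3) (lget XL 4) (lget XL 5) (lget XL 6))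
    (sv XL P 0) (sv XL P 3) (sv XL P 6) (sv XL P 9) (sv XL P 12) (sv XL P 15) (sv XL P 18) (sv XL P 21) (sv XL P 24) (sv XL P 27) (sv XL P 30) (sv XL P 33) (sv XL P 36) (sv XL P 39) (sv XL P 42) (sv XL P 45) (sv XL P 48) (sv XL P 51) (sv XL P 54) (sv XL P 57) (sv XL P 60)

def env7 (b P : Nat) : Env :=
  env7a b (Nat.mul b 247) P (Nat.shiftLeft 1 (Nat.mul b 247)) (Nat.shiftLeft 1 (Nat.add (Nat.mul 2 (Nat.mul b 247)) 4)) (X7 b)

/-- **the checker** for 7 points and 7 labels -/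
def cert7 (P C : Nat) : Bool :=
  band (dig7 P) (steps (env7 (Nat.add 8 (Nat.land C 511)) P) 16 [] [] 0 (Nat.shiftRight C 9))


def env8b (MK Z1 Z2 ZB ZC HB MA k : Nat) (XL M2 L2 : List Nat)
    (s01 s02 s12 s03 s13 s23 s04 s14 s24 s34 s05 s15 s25 s35 s45 s06 s16 s26 s36 s46 s56 s07 s17 s27 s37 s47 s57 s67 : Nat) : Env where
  MK := MK
  Z1 := Z1
  Z2 := Z2
  ZB := ZB
  ZC := ZC
  HB := HB
  MA := MA
  m := 8
  k := k
  q := 8
  E := [s01, s02, s12, s03, s13, s23, s04, s14, s24, s34, s05, s15, s25, s35, s45, s06, s16, s26, s36, s46, s56, s07, s17, s27, s37, s47, s57, s67]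
  XL := XL
  L0 := []
  L1 := []
  L2 := L2
  M2 := M2

/-- `k` = number of labels with different values, 7 or 8 -/
def env8a (b K P Z1 Z2 k : Nat) (XL : List Nat) : Env :=
  env8b (Nat.sub (Nat.shiftLeft 1 K) 1) Z1 Z2 (Nat.shiftLeft 1 (Nat.add (Nat.mul 2 K) 300))
    (Nat.shiftLeft 1 (Nat.add (Nat.mul 4 K) 400)) (Nat.shiftLeft 1 (Nat.sub b 1))
    (Nat.mul (Nat.div (Nat.sub (Nat.shiftLeft 1 K) 1) (Nat.sub (Nat.shiftLeft 1 b) 1)) (Nat.shiftLeft 1 (Nat.sub b 1)))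
    k XL (M8 (lget XL 0) (lget XL 1) (lget XL 2) (lget XL 3) (lget XL 4) (lget XL 5) (lget XL 6) (lget XL 7))
    (Bool.rec (motive := fun _ => List Nat) (S7 Z1 Z2 (lget XL 0) (lget XL 1) (lget XL 2) (lget XL 3) (lget XL 4) (lget XL 5) (lget XL 6))
      (S8 Z1 Z2 (lget XL 0) (lget XL 1) (lget XL 2) (lget XL 3) (lget XL 4) (lget XL 5) (lget XL 6) (lget XL 7)) (Nat.beq k 8))
    (sv XL P 0) (sv XL P 3) (sv XL P 6) (sv XL P 9) (sv XL P 12) (sv XL P 15) (sv XL P 18) (sv XL P 21) (sv XL P 24) (sv XL P 27) (sv XL P 30) (sv XL P 33) (sv XL P 36) (sv XL P 39) (sv XL P 42) (sv XL P 45) (sv XL P 48) (sv XL P 51) (sv XL P 54) (sv XL P 57) (sv XL P 60) (sv XL P 63) (sv XL P 66) (sv XL P 69) (sv XL P 72) (sv XL P 75) (sv XL P 78) (sv XL P 81)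

def env8 (b P k : Nat) : Env :=
  env8a b (Nat.mul b 388) P (Nat.shiftLeft 1 (Nat.mul b 388)) (Nat.shiftLeft 1 (Nat.add (Nat.mul 2 (Nat.mul b 388)) 4)) k (X8 b)

/-- **the checker** for 8 points and 8 labels, of which the first `k` are different; `k` = 7 or 8 -/
def cert8 (k P C : Nat) : Bool :=
  band (band (Nat.ble 7 k) (Nat.ble k 8))
    (steps (env8 (Nat.add 8 (Nat.land C 511)) P k) 16 [] [] 0 (Nat.shiftRight C 9))


def env9b (MK Z1 Z2 ZB ZC HB MA k : Nat) (XL M2 L2 : List Nat)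
    (s01 s02 s12 s03 s13 s23 s04 s14 s24 s34 s05 s15 s25 s35 s45 s06 s16 s26 s36 s46 s56 s07 s17 s27 s37 s47 s57 s67 s08 s18 s28 s38 s48 s58 s68 s78 : Nat) : Env where
  MK := MK
  Z1 := Z1
  Z2 := Z2
  ZB := ZB
  ZC := ZC
  HB := HB
  MA := MA
  m := 9
  k := k
  q := 8
  E := [s01, s02, s12, s03, s13, s23, s04, s14, s24, s34, s05, s15, s25, s35, s45, s06, s16, s26, s36, s46, s56, s07, s17, s27, s37, s47, s57, s67, s08, s18, s28, s38, s48, s58, s68, s78]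
  XL := XL
  L0 := []
  L1 := []
  L2 := L2
  M2 := M2

/-- `k` = number of labels with different values, 7 or 8 -/
def env9a (b K P Z1 Z2 k : Nat) (XL : List Nat) : Env :=
  env9b (Nat.sub (Nat.shiftLeft 1 K) 1) Z1 Z2 (Nat.shiftLeft 1 (Nat.add (Nat.mul 2 K) 300))
    (Nat.shiftLeft 1 (Nat.add (Nat.mul 4 K) 400)) (Nat.shiftLeft 1 (Nat.sub b 1))
    (Nat.mul (Nat.div (Nat.sub (Nat.shiftLeft 1 K) 1) (Nat.sub (Nat.shiftLeft 1 b) 1)) (Nat.shiftLeft 1 (Nat.sub b 1)))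
    k XL (M8 (lget XL 0) (lget XL 1) (lget XL 2) (lget XL 3) (lget XL 4) (lget XL 5) (lget XL 6) (lget XL 7))
    (Bool.rec (motive := fun _ => List Nat) (S7 Z1 Z2 (lget XL 0) (lget XL 1) (lget XL 2) (lget XL 3) (lget XL 4) (lget XL 5) (lget XL 6))
      (S8 Z1 Z2 (lget XL 0) (lget XL 1) (lget XL 2) (lget XL 3) (lget XL 4) (lget XL 5) (lget XL 6) (lget XL 7)) (Nat.beq k 8))
    (sv XL P 0) (sv XL P 3) (sv XL P 6) (sv XL P 9) (sv XL P 12) (sv XL P 15) (sv XL P 18) (sv XL P 21) (sv XL P 24) (sv XL P 27) (sv XL P 30) (sv XL P 33) (sv XL P 36) (sv XL P 39) (sv XL P 42) (sv XL P 45) (sv XL P 48) (sv XL P 51) (sv XL P 54) (sv XL P 57) (sv XL P 60) (sv XL P 63) (sv XL P 66) (sv XL P 69) (sv XL P 72) (sv XL P 75) (sv XL P 78) (sv XL P 81) (sv XL P 84) (sv XL P 87) (sv XL P 90) (sv XL P 93) (sv XL P 96) (sv XL P 99) (sv XL P 102) (sv XL P 105)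

def env9 (b P k : Nat) : Env :=
  env9a b (Nat.mul b 388) P (Nat.shiftLeft 1 (Nat.mul b 388)) (Nat.shiftLeft 1 (Nat.add (Nat.mul 2 (Nat.mul b 388)) 4)) k (X8 b)

/-- **the checker** for 9 points and 8 labels, of which the first `k` are different; `k` = 7 or 8 -/
def cert9 (k P C : Nat) : Bool :=
  band (band (Nat.ble 7 k) (Nat.ble k 8))
    (steps (env9 (Nat.add 8 (Nat.land C 511)) P k) 16 [] [] 0 (Nat.shiftRight C 9))

end

end Ker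
end CR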