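

/-!
# MP_6f5d36_co : the definitions of the checker of level 7 (for the kernel)

Normal forms of parts of patterns, the table of the sixth points, the reasons, the walk, the ranks.
The soundness is in `Pat.lean`, `Level7.lean`, `Level7b.lean`, `Level7c.lean`.
-/

set_option autoImplicit false
set_option linter.all false

namespace CR

/-- symmetric table of (three times) the positions of the edges -/
def SYM : Nat :=
  0x696663605d5a5754000000000000006900514e4b4845423f000000000000006651003c393633302d00000000000000634e3c002a2724211e00000000000000604b392a001b181512000000000000005d4836271b000f0c09000000000000005a453324180f0006030000000000000057423021150c06000000000000000000543f2d1e1209030000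

/-- the label of the edge between the points `a`, `b` -/
def sl (P a b : Nat) : Nat :=
  Nat.land (Nat.shiftRight P (Nat.land (Nat.shiftRight SYM
    (Nat.add (Nat.mul 128 a) (Nat.mul 8 b))) 127)) 7

/-- the label of the edge with the description `q = 3 i + 32 (3 j) + 1024 (3 e)` for the
vertices given by the octal digits of `h` -/
def el (P h q : Nat) : Nat :=
  sl P (Nat.land (Nat.shiftRight h (Nat.land q 31)) 7)
    (Nat.land (Nat.shiftRight h (Nat.land (Nat.shiftRight q 5) 31)) 7)

/-- normal form (labels in the order of the first occurrence) of the pattern on the vertices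
given by `h`, for the edges in the list -/
noncomputable def nrm (P h : Nat) (L : List Nat) : Nat → Nat → Nat → Nat :=
  List.rec (motive := fun _ => Nat → Nat → Nat → Nat) (fun _ _ o => o)
    (fun q _ ih M c o =>
      cond (Nat.beq (Nat.land (Nat.shiftRight M (Nat.mul 4 (el P h q))) 15) 0)
        (ih (Nat.lor M (Nat.shiftLeft (Nat.succ c) (Nat.mul 4 (el P h q)))) (Nat.succ c)
          (Nat.lor o (Nat.shiftLeft c (Nat.shiftRight q 10))))
        (ih M c (Nat.lor o (Nat.shiftLeft
          (Nat.pred (Nat.land (Nat.shiftRight M (Nat.mul 4 (el P h q))) 15))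
          (Nat.shiftRight q 10))))) L

def EL4 : List Nat := [96, 3264, 6339, 9504, 12579, 15654]
def EL5 : List Nat := [96, 3264, 6339, 9504, 12579, 15654, 18816, 21891, 24966, 28041]
def EL6 : List Nat := [96, 3264, 6339, 9504, 12579, 15654, 18816, 21891, 24966, 28041, 31200, 34275,
  37350, 40425, 43500]

namespace L7

/-- the six octal digits are a permutation of `0, ..., 5` -/
def isP6 (w : Nat) : Bool :=
  Nat.beq (Nat.lor (Nat.lor (Nat.lor (Nat.lor (Nat.lor
    (Nat.shiftLeft 1 (Nat.land w 7))
    (Nat.shiftLeft 1 (Nat.land (Nat.shiftRight w 3) 7)))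
    (Nat.shiftLeft 1 (Nat.land (Nat.shiftRight w 6) 7)))
    (Nat.shiftLeft 1 (Nat.land (Nat.shiftRight w 9) 7)))
    (Nat.shiftLeft 1 (Nat.land (Nat.shiftRight w 12) 7)))
    (Nat.shiftLeft 1 (Nat.land (Nat.shiftRight w 15) 7))) 63

/-- the seven octal digits are a permutation of `0, ..., 6` -/
def isP7 (w : Nat) : Bool :=
  Nat.beq (Nat.lor (Nat.lor (Nat.lor (Nat.lor (Nat.lor (Nat.lor
    (Nat.shiftLeft 1 (Nat.land w 7))
    (Nat.shiftLeft 1 (Nat.land (Nat.shiftRight w 3) 7)))
    (Nat.shiftLeft 1 (Nat.land (Nat.shiftRight w 6) 7)))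
    (Nat.shiftLeft 1 (Nat.land (Nat.shiftRight w 9) 7)))
    (Nat.shiftLeft 1 (Nat.land (Nat.shiftRight w 12) 7)))
    (Nat.shiftLeft 1 (Nat.land (Nat.shiftRight w 15) 7)))
    (Nat.shiftLeft 1 (Nat.land (Nat.shiftRight w 18) 7))) 127

/-- the fifteen digits are less than six -/
def lt6 (N : Nat) : Bool := Nat.beq (Nat.land (Nat.land N (Nat.shiftLeft N 1)) 0o444444444444444) 0

/-- the ten digits are less than seven -/
def lt7 (N : Nat) : Bool :=
  Nat.beq (Nat.land (Nat.land N (Nat.shiftRight N 1)) (Nat.land (Nat.shiftRight N 2) 0o1111111111)) 0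

/-- growth check : the number of admissible labels at the end, or `0` -/
noncomputable def grb (n : Nat) : Nat → Nat → Nat :=
  Nat.rec (motive := fun _ => Nat → Nat → Nat) (fun K u => cond (Nat.beq u 0) K 0)
    (fun _ ih K u => cond (Nat.ble K (Nat.land u 7)) 0
      (ih (cond (Nat.beq (Nat.succ (Nat.land u 7)) K) (cond (Nat.ble 6 K) K (Nat.succ K)) K)
        (Nat.shiftRight u 3))) n

/-- the bits of the vectors of the list -/
noncomputable def rtC (RT : List Nat) : Nat :=
  List.rec (motive := fun _ => Nat) 0
    (fun e _ ih => Nat.lor (Nat.shiftLeft 1 (Nat.land e 32767)) ih) RT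

/-- the label `sigma` of the lowest digit -/
def dq (σ v : Nat) : Nat := Nat.land (Nat.shiftRight σ (Nat.mul 3 (Nat.mod v 8))) 7

/-- change of the labels of a vector with five digits -/
def map5 (σ v : Nat) : Nat :=
  Nat.add (dq σ v) (Nat.mul 8 (Nat.add (dq σ (Nat.div v 8)) (Nat.mul 8
    (Nat.add (dq σ (Nat.div (Nat.div v 8) 8)) (Nat.mul 8
      (Nat.add (dq σ (Nat.div (Nat.div (Nat.div v 8) 8) 8)) (Nat.mul 8
        (dq σ (Nat.div (Nat.div (Nat.div (Nat.div v 8) 8) 8) 8)))))))))

/-- the bit of `C` -/
def tb (C v : Nat) : Bool := Nat.beq (Nat.land (Nat.shiftRight C v) 1) 1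

/-- the labels of `T` are fixed by the permutations of the unused labels -/
def okK (T K : Nat) : Bool :=
  cond (Nat.ble 6 K) true
    (cond (Nat.beq (Nat.land T 0o4444444444) 0)
      (cond (Nat.beq K 5) true
        (cond (Nat.beq K 4) (Nat.beq (Nat.land (Nat.land T (Nat.shiftRight T 1)) 0o1111111111) 0)
          false)) false)

/-- closure under the permutations of the unused labels -/
def clo (K C v : Nat) : Bool :=
  cond (Nat.ble 6 K) true
    (cond (tb C (map5 0o76453210 v)) (cond (Nat.ble 5 K) true (tb C (map5 0o76534210 v))) false)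

/-- check of one entry -/
noncomputable def rtEnt (nr : Nat) (reps : Nat → Nat) (T K C e : Nat) : Bool :=
  cond (isP6 (Nat.shiftRight e 15))
    (cond (Nat.beq (nrm (Nat.add T (Nat.shiftLeft (Nat.land e 32767) 30)) (Nat.shiftRight e 15)
      EL6 0 0 0) (reps (Nat.shiftRight e 33)))
      (cond (Nat.ble (Nat.succ (Nat.shiftRight e 33)) nr) (clo K C (Nat.land e 32767)) false)
      false) false

/-- check of a property of all entries -/
noncomputable def allb (p : Nat → Bool) (L : List Nat) : Bool :=
  List.rec (motive := fun _ => Bool) true (fun e _ ih => cond (p e) ih false) L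

/-- check of the list of the sixth points of one type -/
noncomputable def rtOK (nr : Nat) (T5 E6 reps : Nat → Nat) (j : Nat) (RT : List Nat) : Bool :=
  cond (Nat.beq (grb 10 1 (T5 j)) 0) false
    (cond (okK (T5 j) (grb 10 1 (T5 j)))
      (cond (Nat.beq (Nat.land (E6 j) (rtC RT)) (E6 j))
        (allb (rtEnt nr reps (T5 j) (grb 10 1 (T5 j)) (rtC RT)) RT) false) false)

/-- the check of the lists of `n` consecutive types -/
noncomputable def rtAll (nr : Nat) (T5 E6 reps : Nat → Nat) (RT : Nat → List Nat) (n : Nat) :
    Nat → Bool :=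
  Nat.rec (motive := fun _ => Nat → Bool) (fun _ => true)
    (fun _ ih j => cond (rtOK nr T5 E6 reps j (RT j)) (ih (Nat.succ j)) false) n

/-- the five points `w` have a pattern which is not allowed -/
noncomputable def k5ok (T4 E5 : Nat → Nat) (P w i : Nat) : Bool :=
  cond (Nat.ble i 20) (cond (isP7 w)
    (cond (Nat.beq (Nat.land (nrm P w EL5 0 0 0) 262143) (T4 i))
      (cond (lt7 (nrm P w EL5 0 0 0))
        (cond (tb (E5 i) (Nat.shiftRight (nrm P w EL5 0 0 0) 18)) false true) false) false)
    false) false

/-- the six points `w` have a pattern which is not allowed -/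
noncomputable def k6ok (T5 E6 : Nat → Nat) (P w j : Nat) : Bool :=
  cond (Nat.ble j 1204) (cond (isP7 w)
    (cond (Nat.beq (Nat.land (nrm P w EL6 0 0 0) 1073741823) (T5 j))
      (cond (lt6 (nrm P w EL6 0 0 0))
        (cond (tb (E6 j) (Nat.shiftRight (nrm P w EL6 0 0 0) 30)) false true) false) false)
    false) false

/-- the number of the first `n` digits which are equal to `a` -/
noncomputable def cnt (a n : Nat) : Nat → Nat :=
  Nat.rec (motive := fun _ => Nat → Nat) (fun _ => 0)
    (fun _ ih P => cond (Nat.beq (Nat.land P 7) a)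
      (Nat.succ (ih (Nat.shiftRight P 3))) (ih (Nat.shiftRight P 3))) n

/-- one or zero -/
def b2 (b : Bool) : Nat := cond b 1 0

/-- more than `9 - x` of the labels `0, ..., 5` have at least `x` edges -/
noncomputable def szok (P x : Nat) : Bool :=
  cond (Nat.ble 1 x) (cond (Nat.ble x 9)
    (Nat.ble 10 (Nat.add x (Nat.add (Nat.add (Nat.add (Nat.add (Nat.add
      (b2 (Nat.ble x (cnt 0 20 P))) (b2 (Nat.ble x (cnt 1 20 P))))
      (b2 (Nat.ble x (cnt 2 20 P)))) (b2 (Nat.ble x (cnt 3 20 P))))
      (b2 (Nat.ble x (cnt 4 20 P)))) (b2 (Nat.ble x (cnt 5 20 P)))))) false) false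

/-- the label `sigma x` -/
def dgs (σ x : Nat) : Nat := Nat.land (Nat.shiftRight σ (Nat.mul 3 x)) 7

/-- the vector (in the frame of the item) of the star code `X` (in the frame of the six points) -/
def conv (σ w X : Nat) : Nat :=
  Nat.add (dgs σ (dgs X (dgs w 0))) (Nat.mul 8
    (Nat.add (dgs σ (dgs X (dgs w 1))) (Nat.mul 8
      (Nat.add (dgs σ (dgs X (dgs w 2))) (Nat.mul 8
        (Nat.add (dgs σ (dgs X (dgs w 3))) (Nat.mul 8 (dgs σ (dgs X (dgs w 4))))))))))

/-- the vector `v` comes from a star code of the list -/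
noncomputable def memX (σ w v : Nat) (W : List Nat) : Bool :=
  List.rec (motive := fun _ => Bool) false
    (fun X _ ih => cond (Nat.beq (conv σ w X) v) true ih) W

/-- the pattern on seven points of the entry `e` -/
def PP (B e : Nat) : Nat := Nat.add B (Nat.shiftLeft (Nat.land e 32767) 45)

/-- the reasons different from certificates -/
noncomputable def rsn (T5 E6 T4 E5 : Nat → Nat) (σ w : Nat) (W : List Nat) (P v H : Nat) : Bool :=
  cond (Nat.beq (Nat.land H 7) 2)
    (k6ok T5 E6 P (Nat.land (Nat.shiftRight H 3) 0o7777777) (Nat.land (Nat.shiftRight H 24) 2047))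
    (cond (Nat.beq (Nat.land H 7) 1)
      (k5ok T4 E5 P (Nat.land (Nat.shiftRight H 3) 0o7777777) (Nat.land (Nat.shiftRight H 24) 31))
      (cond (Nat.beq (Nat.land H 7) 4) (memX σ w v W)
        (cond (Nat.beq (Nat.land H 7) 0) (szok P (Nat.land (Nat.shiftRight H 3) 15)) false)))

/-- the walk over the entries of rank at least `k` -/
noncomputable def walk (T5 E6 T4 E5 : Nat → Nat) (ok : Nat → Nat → Bool) (k B σ w : Nat)
    (W : List Nat) (RT : List Nat) : Nat → List Nat → Bool :=
  List.rec (motive := fun _ => Nat → List Nat → Bool) (fun _ _ => true)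
    (fun e _ ih H C =>
      cond (Nat.ble k (Nat.shiftRight e 33))
        (cond (Nat.beq (Nat.land H 7) 3)
          (List.rec (motive := fun _ => Bool) false
            (fun c C' _ => cond (ok (PP B e) c) (ih (Nat.shiftRight H 36) C') false) C)
          (cond (rsn T5 E6 T4 E5 σ w W (PP B e) (Nat.land e 32767) H)
            (ih (Nat.shiftRight H 36) C) false))
        (ih H C)) RT

/-- the labels `sigma` of the edges in the list -/
noncomputable def mpc (P σ h : Nat) (L : List Nat) : Nat → Nat :=
  List.rec (motive := fun _ => Nat → Nat) (fun o => o) (fun q _ ih o =>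
    ih (Nat.lor o (Nat.shiftLeft (dgs σ (el P h q)) (Nat.shiftRight q 10)))) L

/-- the check of one item: `w` = order of the six points (`w 5 = s`), `sigma` = labels, `j` = type of
the first five, `H` = reasons, `C` = certificates, `W` = allowed star codes -/
noncomputable def item (T5 E6 T4 E5 reps : Nat → Nat) (RT : Nat → List Nat)
    (ok : Nat → Nat → Bool) (k s w σ j H : Nat) (C W : List Nat) : Bool :=
  cond (isP6 w) (cond (isP6 σ) (cond (Nat.beq (Nat.shiftRight σ 18) 62)
    (cond (Nat.beq (dgs w 5) s)
      (cond (Nat.beq (Nat.land (mpc (reps k) σ w EL6 0) 1073741823) (T5 j))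
        (walk T5 E6 T4 E5 ok k (Nat.add (mpc (reps k) σ w EL6 0) 6917529027641081856) σ w W (RT j)
          H C) false) false) false) false) false

/-! ### Ranks -/

/-- an item as a list: head = `w + sigma 2^18 + j 2^36 + H 2^47`, tail = certificates;
`Wf` = lists of the vertices -/
noncomputable def itemL (T5 E6 T4 E5 reps : Nat → Nat) (RT : Nat → List Nat)
    (ok : Nat → Nat → Bool) (k s : Nat) (W I : List Nat) : Bool :=
  List.rec (motive := fun _ => Bool) false (fun h C _ =>
    cond (Nat.ble 526 (Nat.land (Nat.shiftRight h 36) 2047))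
      (cond (Nat.ble (Nat.land (Nat.shiftRight h 36) 2047) 1204)
        (item T5 E6 T4 E5 reps RT ok k s (Nat.land h 262143)
          (Nat.add (Nat.land (Nat.shiftRight h 18) 262143) 16252928)
          (Nat.land (Nat.shiftRight h 36) 2047) (Nat.shiftRight h 47) C W) false) false) I

/-- the head of an item -/
noncomputable def hdI (I : List Nat) : Nat := List.rec (motive := fun _ => Nat) 0 (fun h _ _ => h) I

/-- the vertex of the item -/
noncomputable def vxI (I : List Nat) : Nat := Nat.land (Nat.shiftRight (hdI I) 15) 7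

/-- all the items are correct with empty lists; the mask of their vertices is accumulated and given
to the continuation -/
noncomputable def itsK (T5 E6 T4 E5 reps : Nat → Nat) (RT : Nat → List Nat)
    (ok : Nat → Nat → Bool) (k : Nat) (L : List (List Nat)) : Nat → (Nat → Bool) → Bool :=
  List.rec (motive := fun _ => Nat → (Nat → Bool) → Bool) (fun m r => r m)
    (fun I _ ih m r => cond (itemL T5 E6 T4 E5 reps RT ok k (vxI I) [] I)
      (ih (Nat.lor m (Nat.shiftLeft 1 (vxI I))) r) false) L

/-- the derived vertices: `d = p + 2^18 s`, `p` an automorphism; `m0` = mask of the direct vertices -/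
noncomputable def dersK (R m0 : Nat) (L : List Nat) : Nat → (Nat → Bool) → Bool :=
  List.rec (motive := fun _ => Nat → (Nat → Bool) → Bool) (fun m r => r m)
    (fun d _ ih m r => cond (isP6 d)
      (cond (Nat.beq (nrm R d EL6 0 0 0) R)
        (cond (tb m0 (Nat.shiftRight d 18))
          (ih (Nat.lor m (Nat.shiftLeft 1 (dgs d (Nat.shiftRight d 18)))) r) false) false) false) L

/-- at least four of the six bits -/
def pop4 (m : Nat) : Bool :=
  Nat.ble 4 (Nat.add (Nat.add (Nat.add (Nat.add (Nat.add
    (Nat.land m 1) (Nat.land (Nat.shiftRight m 1) 1)) (Nat.land (Nat.shiftRight m 2) 1))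
    (Nat.land (Nat.shiftRight m 3) 1)) (Nat.land (Nat.shiftRight m 4) 1))
    (Nat.land (Nat.shiftRight m 5) 1))

/-- the items of a processed rank, for the vertices `s, s + 1, ..., 5` -/
noncomputable def itsP (T5 E6 T4 E5 reps : Nat → Nat) (RT : Nat → List Nat)
    (ok : Nat → Nat → Bool) (Wk : Nat → List Nat) (k : Nat) (L : List (List Nat)) : Nat → Bool :=
  List.rec (motive := fun _ => Nat → Bool) (fun s => Nat.beq s 6)
    (fun I _ ih s => cond (itemL T5 E6 T4 E5 reps RT ok k s (Wk s) I) (ih (Nat.succ s)) false) L

/-- the data of one rank -/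
inductive Rk where
  /-- a killed rank: items of direct vertices, derived vertices -/
  | kil (I : List (List Nat)) (D : List Nat) : Rk
  /-- a processed rank: the items of the six vertices -/
  | pro (I : List (List Nat)) : Rk

/-- the check of the data of the rank `k` (the processed ranks are at least 4439) -/
noncomputable def rkOK (T5 E6 T4 E5 reps : Nat → Nat) (RT : Nat → List Nat)
    (ok : Nat → Nat → Bool) (W : Nat → Nat → List Nat) (k : Nat) (R : Rk) : Bool :=
  Rk.rec (motive := fun _ => Bool)
    (fun I D => itsK T5 E6 T4 E5 reps RT ok k I 0 (fun m => dersK (reps k) m D m pop4))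
    (fun I => cond (Nat.ble 4439 k) (itsP T5 E6 T4 E5 reps RT ok (W k) k I 0) false) R

/-- the check of consecutive ranks -/
noncomputable def rksOK (T5 E6 T4 E5 reps : Nat → Nat) (RT : Nat → List Nat)
    (ok : Nat → Nat → Bool) (W : Nat → Nat → List Nat) (L : List Rk) : Nat → Bool :=
  List.rec (motive := fun _ => Nat → Bool) (fun _ => true)
    (fun R _ ih k => cond (rkOK T5 E6 T4 E5 reps RT ok W k R) (ih (Nat.succ k)) false) L

end L7

end CR
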