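import Pool.Agent.Lib.MP_6f5d36_co.Ker

/-!
# MP_6f5d36_co : certificates for seven points with a free edge, in six variables

The edge `5 6` has a label which occurs nowhere else. Only minors and Heron forms which do not contain
this edge are used, so that all forms are polynomials in the values of the labels `0, .., 5`.
-/

set_option autoImplicit false
set_option linter.all false

namespace CR
namespace Ker

noncomputable section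

/-- the minors without the entry `4 5` of a symmetric matrix of size 6, from the `2 x 2` minors -/
def g7eb (Z1 m00 m01 m02 m03 m04 m05 m11 m12 m13 m14 m15 m22 m23 m24 m25
    q0112 q0113 q0114 q0115 q0212 q0213 q0214 q0215 q0223 q0224 q0225 q0312 q0313 q0314 q0315
    q0323 q0324 q0325 q0334 q0335 q0412 q0413 q0414 q0423 q0424 q0434 q0512 q0513 q0515 q0523
    q0525 q0535 q1212 q1213 q1214 q1215 q1223 q1224 q1225 q1234 q1235 q1245 q1313 q1314 q1315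
    q1323 q1324 q1325 q1334 q1335 q1345 q1414 q1423 q1424 q1434 q1515 q1523 q1525 q1535 q2323
    q2324 q2325 q2334 q2335 q2345 q2424 q2434 q2525 q2535 q3434 q3535 : Nat) : List Nat :=
  [df Z1 m00 m01 m02 q1212 q0212 q0112,
   df Z1 m00 m01 m03 q1213 q0312 q0112,
   df Z1 m00 m01 m04 q1214 q0412 q0112,
   df Z1 m00 m01 m05 q1215 q0512 q0112,
   df Z1 m00 m02 m03 q1223 q0312 q0212,
   df Z1 m00 m02 m04 q1224 q0412 q0212,
   df Z1 m00 m02 m05 q1225 q0512 q0212,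
   df Z1 m00 m03 m04 q1234 q0412 q0312,
   df Z1 m00 m03 m05 q1235 q0512 q0312,
   df Z1 m00 m04 m05 q1245 q0512 q0412,
   df Z1 m01 m02 m03 q1223 q1213 q1212,
   df Z1 m01 m02 m04 q1224 q1214 q1212,
   df Z1 m01 m02 m05 q1225 q1215 q1212,
   df Z1 m01 m03 m04 q1234 q1214 q1213,
   df Z1 m01 m03 m05 q1235 q1215 q1213,
   df Z1 m01 m04 m05 q1245 q1215 q1214,
   df Z1 m02 m03 m04 q1234 q1224 q1223,
   df Z1 m02 m03 m05 q1235 q1225 q1223,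
   df Z1 m02 m04 m05 q1245 q1225 q1224,
   df Z1 m03 m04 m05 q1245 q1235 q1234,
   df Z1 m00 m01 m03 q1313 q0313 q0113,
   df Z1 m00 m01 m04 q1314 q0413 q0113,
   df Z1 m00 m01 m05 q1315 q0513 q0113,
   df Z1 m00 m02 m03 q1323 q0313 q0213,
   df Z1 m00 m02 m04 q1324 q0413 q0213,
   df Z1 m00 m02 m05 q1325 q0513 q0213,
   df Z1 m00 m03 m04 q1334 q0413 q0313,
   df Z1 m00 m03 m05 q1335 q0513 q0313,
   df Z1 m00 m04 m05 q1345 q0513 q0413,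
   df Z1 m01 m02 m03 q1323 q1313 q1213,
   df Z1 m01 m02 m04 q1324 q1314 q1213,
   df Z1 m01 m02 m05 q1325 q1315 q1213,
   df Z1 m01 m03 m04 q1334 q1314 q1313,
   df Z1 m01 m03 m05 q1335 q1315 q1313,
   df Z1 m01 m04 m05 q1345 q1315 q1314,
   df Z1 m02 m03 m04 q1334 q1324 q1323,
   df Z1 m02 m03 m05 q1335 q1325 q1323,
   df Z1 m02 m04 m05 q1345 q1325 q1324,
   df Z1 m03 m04 m05 q1345 q1335 q1334,
   df Z1 m00 m01 m04 q1414 q0414 q0114,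
   df Z1 m00 m02 m03 q1423 q0314 q0214,
   df Z1 m00 m02 m04 q1424 q0414 q0214,
   df Z1 m00 m03 m04 q1434 q0414 q0314,
   df Z1 m01 m02 m03 q1423 q1314 q1214,
   df Z1 m01 m02 m04 q1424 q1414 q1214,
   df Z1 m01 m03 m04 q1434 q1414 q1314,
   df Z1 m02 m03 m04 q1434 q1424 q1423,
   df Z1 m00 m01 m05 q1515 q0515 q0115,
   df Z1 m00 m02 m03 q1523 q0315 q0215,
   df Z1 m00 m02 m05 q1525 q0515 q0215,
   df Z1 m00 m03 m05 q1535 q0515 q0315,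
   df Z1 m01 m02 m03 q1523 q1315 q1215,
   df Z1 m01 m02 m05 q1525 q1515 q1215,
   df Z1 m01 m03 m05 q1535 q1515 q1315,
   df Z1 m02 m03 m05 q1535 q1525 q1523,
   df Z1 m00 m02 m03 q2323 q0323 q0223,
   df Z1 m00 m02 m04 q2324 q0423 q0223,
   df Z1 m00 m02 m05 q2325 q0523 q0223,
   df Z1 m00 m03 m04 q2334 q0423 q0323,
   df Z1 m00 m03 m05 q2335 q0523 q0323,
   df Z1 m00 m04 m05 q2345 q0523 q0423,
   df Z1 m01 m02 m03 q2323 q1323 q1223,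
   df Z1 m01 m02 m04 q2324 q1423 q1223,
   df Z1 m01 m02 m05 q2325 q1523 q1223,
   df Z1 m01 m03 m04 q2334 q1423 q1323,
   df Z1 m01 m03 m05 q2335 q1523 q1323,
   df Z1 m01 m04 m05 q2345 q1523 q1423,
   df Z1 m02 m03 m04 q2334 q2324 q2323,
   df Z1 m02 m03 m05 q2335 q2325 q2323,
   df Z1 m02 m04 m05 q2345 q2325 q2324,
   df Z1 m03 m04 m05 q2345 q2335 q2334,
   df Z1 m00 m02 m04 q2424 q0424 q0224,
   df Z1 m00 m03 m04 q2434 q0424 q0324,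
   df Z1 m01 m02 m03 q2324 q1324 q1224,
   df Z1 m01 m02 m04 q2424 q1424 q1224,
   df Z1 m01 m03 m04 q2434 q1424 q1324,
   df Z1 m02 m03 m04 q2434 q2424 q2324,
   df Z1 m00 m02 m05 q2525 q0525 q0225,
   df Z1 m00 m03 m05 q2535 q0525 q0325,
   df Z1 m01 m02 m03 q2325 q1325 q1225,
   df Z1 m01 m02 m05 q2525 q1525 q1225,
   df Z1 m01 m03 m05 q2535 q1525 q1325,
   df Z1 m02 m03 m05 q2535 q2525 q2325,
   df Z1 m00 m03 m04 q3434 q0434 q0334,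
   df Z1 m01 m02 m03 q2334 q1334 q1234,
   df Z1 m01 m02 m04 q2434 q1434 q1234,
   df Z1 m01 m03 m04 q3434 q1434 q1334,
   df Z1 m02 m03 m04 q3434 q2434 q2334,
   df Z1 m00 m03 m05 q3535 q0535 q0335,
   df Z1 m01 m02 m03 q2335 q1335 q1235,
   df Z1 m01 m02 m05 q2535 q1535 q1235,
   df Z1 m01 m03 m05 q3535 q1535 q1335,
   df Z1 m02 m03 m05 q3535 q2535 q2335,
   df Z1 m01 m02 m03 q2345 q1345 q1245,
   df Z1 m11 m12 m13 q2323 q1323 q1223,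
   df Z1 m11 m12 m14 q2324 q1423 q1223,
   df Z1 m11 m12 m15 q2325 q1523 q1223,
   df Z1 m11 m13 m14 q2334 q1423 q1323,
   df Z1 m11 m13 m15 q2335 q1523 q1323,
   df Z1 m11 m14 m15 q2345 q1523 q1423,
   df Z1 m12 m13 m14 q2334 q2324 q2323,
   df Z1 m12 m13 m15 q2335 q2325 q2323,
   df Z1 m12 m14 m15 q2345 q2325 q2324,
   df Z1 m13 m14 m15 q2345 q2335 q2334,
   df Z1 m11 m12 m14 q2424 q1424 q1224,
   df Z1 m11 m13 m14 q2434 q1424 q1324,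
   df Z1 m12 m13 m14 q2434 q2424 q2324,
   df Z1 m11 m12 m15 q2525 q1525 q1225,
   df Z1 m11 m13 m15 q2535 q1525 q1325,
   df Z1 m12 m13 m15 q2535 q2525 q2325,
   df Z1 m11 m13 m14 q3434 q1434 q1334,
   df Z1 m12 m13 m14 q3434 q2434 q2334,
   df Z1 m11 m13 m15 q3535 q1535 q1335,
   df Z1 m12 m13 m15 q3535 q2535 q2335,
   df Z1 m22 m23 m24 q3434 q2434 q2334,
   df Z1 m22 m23 m25 q3535 q2535 q2335]

/-- the minors without the entry `4 5` of a symmetric matrix of size 6 -/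
def g7e (MK Z1 Z2 m00 m01 m02 m03 m04 m05 m11 m12 m13 m14 m15 m22 m23 m24 m25 m33 m34 m35 m44 m55 : Nat) : List Nat :=
  g7eb Z1 m00 m01 m02 m03 m04 m05 m11 m12 m13 m14 m15 m22 m23 m24 m25
    (qf MK Z2 m01 m12 m02 m11)
    (qf MK Z2 m01 m13 m03 m11)
    (qf MK Z2 m01 m14 m04 m11)
    (qf MK Z2 m01 m15 m05 m11)
    (qf MK Z2 m01 m22 m02 m12)
    (qf MK Z2 m01 m23 m03 m12)
    (qf MK Z2 m01 m24 m04 m12)
    (qf MK Z2 m01 m25 m05 m12)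
    (qf MK Z2 m02 m23 m03 m22)
    (qf MK Z2 m02 m24 m04 m22)
    (qf MK Z2 m02 m25 m05 m22)
    (qf MK Z2 m01 m23 m02 m13)
    (qf MK Z2 m01 m33 m03 m13)
    (qf MK Z2 m01 m34 m04 m13)
    (qf MK Z2 m01 m35 m05 m13)
    (qf MK Z2 m02 m33 m03 m23)
    (qf MK Z2 m02 m34 m04 m23)
    (qf MK Z2 m02 m35 m05 m23)
    (qf MK Z2 m03 m34 m04 m33)
    (qf MK Z2 m03 m35 m05 m33)
    (qf MK Z2 m01 m24 m02 m14)
    (qf MK Z2 m01 m34 m03 m14)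
    (qf MK Z2 m01 m44 m04 m14)
    (qf MK Z2 m02 m34 m03 m24)
    (qf MK Z2 m02 m44 m04 m24)
    (qf MK Z2 m03 m44 m04 m34)
    (qf MK Z2 m01 m25 m02 m15)
    (qf MK Z2 m01 m35 m03 m15)
    (qf MK Z2 m01 m55 m05 m15)
    (qf MK Z2 m02 m35 m03 m25)
    (qf MK Z2 m02 m55 m05 m25)
    (qf MK Z2 m03 m55 m05 m35)
    (qf MK Z2 m11 m22 m12 m12)
    (qf MK Z2 m11 m23 m13 m12)
    (qf MK Z2 m11 m24 m14 m12)
    (qf MK Z2 m11 m25 m15 m12)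
    (qf MK Z2 m12 m23 m13 m22)
    (qf MK Z2 m12 m24 m14 m22)
    (qf MK Z2 m12 m25 m15 m22)
    (qf MK Z2 m13 m24 m14 m23)
    (qf MK Z2 m13 m25 m15 m23)
    (qf MK Z2 m14 m25 m15 m24)
    (qf MK Z2 m11 m33 m13 m13)
    (qf MK Z2 m11 m34 m14 m13)
    (qf MK Z2 m11 m35 m15 m13)
    (qf MK Z2 m12 m33 m13 m23)
    (qf MK Z2 m12 m34 m14 m23)
    (qf MK Z2 m12 m35 m15 m23)
    (qf MK Z2 m13 m34 m14 m33)
    (qf MK Z2 m13 m35 m15 m33)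
    (qf MK Z2 m14 m35 m15 m34)
    (qf MK Z2 m11 m44 m14 m14)
    (qf MK Z2 m12 m34 m13 m24)
    (qf MK Z2 m12 m44 m14 m24)
    (qf MK Z2 m13 m44 m14 m34)
    (qf MK Z2 m11 m55 m15 m15)
    (qf MK Z2 m12 m35 m13 m25)
    (qf MK Z2 m12 m55 m15 m25)
    (qf MK Z2 m13 m55 m15 m35)
    (qf MK Z2 m22 m33 m23 m23)
    (qf MK Z2 m22 m34 m24 m23)
    (qf MK Z2 m22 m35 m25 m23)
    (qf MK Z2 m23 m34 m24 m33)
    (qf MK Z2 m23 m35 m25 m33)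
    (qf MK Z2 m24 m35 m25 m34)
    (qf MK Z2 m22 m44 m24 m24)
    (qf MK Z2 m23 m44 m24 m34)
    (qf MK Z2 m22 m55 m25 m25)
    (qf MK Z2 m23 m55 m25 m35)
    (qf MK Z2 m33 m44 m34 m34)
    (qf MK Z2 m33 m55 m35 m35)

/-- the minors without the edge `5 6` of the Gram matrix of 7 points -/
def G7e (MK Z1 Z2 s01 s02 s12 s03 s13 s23 s04 s14 s24 s34 s05 s15 s25 s35 s45 s06 s16 s26 s36 s46 : Nat) : List Nat :=
  g7e MK Z1 Z2
    (Nat.mul 2 s01)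
    (mf Z1 s01 s02 s12)
    (mf Z1 s01 s03 s13)
    (mf Z1 s01 s04 s14)
    (mf Z1 s01 s05 s15)
    (mf Z1 s01 s06 s16)
    (Nat.mul 2 s02)
    (mf Z1 s02 s03 s23)
    (mf Z1 s02 s04 s24)
    (mf Z1 s02 s05 s25)
    (mf Z1 s02 s06 s26)
    (Nat.mul 2 s03)
    (mf Z1 s03 s04 s34)
    (mf Z1 s03 s05 s35)
    (mf Z1 s03 s06 s36)
    (Nat.mul 2 s04)
    (mf Z1 s04 s05 s45)
    (mf Z1 s04 s06 s46)
    (Nat.mul 2 s05)
    (Nat.mul 2 s06)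

/-- minus the Heron forms of the triangles of 7 points without the edge `5 6` -/
def H7e (Z1 Z2 s01 s02 s12 s03 s13 s23 s04 s14 s24 s34 s05 s15 s25 s35 s45 s06 s16 s26 s36 s46 : Nat) : List Nat :=
  [nh Z2 (mf Z1 s01 s02 s12) s01 s02,
   nh Z2 (mf Z1 s01 s03 s13) s01 s03,
   nh Z2 (mf Z1 s01 s04 s14) s01 s04,
   nh Z2 (mf Z1 s01 s05 s15) s01 s05,
   nh Z2 (mf Z1 s01 s06 s16) s01 s06,
   nh Z2 (mf Z1 s02 s03 s23) s02 s03,
   nh Z2 (mf Z1 s02 s04 s24) s02 s04,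
   nh Z2 (mf Z1 s02 s05 s25) s02 s05,
   nh Z2 (mf Z1 s02 s06 s26) s02 s06,
   nh Z2 (mf Z1 s03 s04 s34) s03 s04,
   nh Z2 (mf Z1 s03 s05 s35) s03 s05,
   nh Z2 (mf Z1 s03 s06 s36) s03 s06,
   nh Z2 (mf Z1 s04 s05 s45) s04 s05,
   nh Z2 (mf Z1 s04 s06 s46) s04 s06,
   nh Z2 (mf Z1 s12 s13 s23) s12 s13,
   nh Z2 (mf Z1 s12 s14 s24) s12 s14,
   nh Z2 (mf Z1 s12 s15 s25) s12 s15,
   nh Z2 (mf Z1 s12 s16 s26) s12 s16,
   nh Z2 (mf Z1 s13 s14 s34) s13 s14,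
   nh Z2 (mf Z1 s13 s15 s35) s13 s15,
   nh Z2 (mf Z1 s13 s16 s36) s13 s16,
   nh Z2 (mf Z1 s14 s15 s45) s14 s15,
   nh Z2 (mf Z1 s14 s16 s46) s14 s16,
   nh Z2 (mf Z1 s23 s24 s34) s23 s24,
   nh Z2 (mf Z1 s23 s25 s35) s23 s25,
   nh Z2 (mf Z1 s23 s26 s36) s23 s26,
   nh Z2 (mf Z1 s24 s25 s45) s24 s25,
   nh Z2 (mf Z1 s24 s26 s46) s24 s26,
   nh Z2 (mf Z1 s34 s35 s45) s34 s35,
   nh Z2 (mf Z1 s34 s36 s46) s34 s36]

/-- digit test: the first 20 labels are smaller than 6 -/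
def dig7e (P : Nat) : Bool :=
  Nat.beq (Nat.land (Nat.land P (Nat.shiftRight P 1)) 329406144173384850) 0

def env7eb (MK Z1 Z2 ZB ZC HB MA : Nat) (XL M2 L2 : List Nat)
    (s01 s02 s12 s03 s13 s23 s04 s14 s24 s34 s05 s15 s25 s35 s45 s06 s16 s26 s36 s46 : Nat) : Env where
  MK := MK
  Z1 := Z1
  Z2 := Z2
  ZB := ZB
  ZC := ZC
  HB := HB
  MA := MA
  m := 6
  k := 6
  q := 6
  E := [s01, s02, s12, s03, s13, s23, s04, s14, s24, s34, s05, s15, s25, s35, s45]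
  XL := XL
  L0 := G7e MK Z1 Z2 s01 s02 s12 s03 s13 s23 s04 s14 s24 s34 s05 s15 s25 s35 s45 s06 s16 s26 s36 s46
  L1 := H7e Z1 Z2 s01 s02 s12 s03 s13 s23 s04 s14 s24 s34 s05 s15 s25 s35 s45 s06 s16 s26 s36 s46
  L2 := L2
  M2 := M2

def env7ea (b K P Z1 Z2 : Nat) (XL : List Nat) : Env :=
  env7eb (Nat.sub (Nat.shiftLeft 1 K) 1) Z1 Z2 (Nat.shiftLeft 1 (Nat.add (Nat.mul 2 K) 300))
    (Nat.shiftLeft 1 (Nat.add (Nat.mul 4 K) 400)) (Nat.shiftLeft 1 (Nat.sub b 1))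
    (Nat.mul (Nat.div (Nat.sub (Nat.shiftLeft 1 K) 1) (Nat.sub (Nat.shiftLeft 1 b) 1)) (Nat.shiftLeft 1 (Nat.sub b 1)))
    XL (M6 (lget XL 0) (lget XL 1) (lget XL 2) (lget XL 3) (lget XL 4) (lget XL 5)) (S6 Z1 Z2 (lget XL 0) (lget XL 1) (lget XL 2) (lget XL 3) (lget XL 4) (lget XL 5))
    (sv XL P 0) (sv XL P 3) (sv XL P 6) (sv XL P 9) (sv XL P 12) (sv XL P 15) (sv XL P 18) (sv XL P 21) (sv XL P 24) (sv XL P 27) (sv XL P 30) (sv XL P 33) (sv XL P 36) (sv XL P 39) (sv XL P 42) (sv XL P 45) (sv XL P 48) (sv XL P 51) (sv XL P 54) (sv XL P 57)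

def env7e (b P : Nat) : Env :=
  env7ea b (Nat.mul b 136) P (Nat.shiftLeft 1 (Nat.mul b 136)) (Nat.shiftLeft 1 (Nat.add (Nat.mul 2 (Nat.mul b 136)) 4)) (X6 b)

/-- **the checker** for 7 points, 6 labels and the free edge `5 6` -/
def cert7e (P C : Nat) : Bool :=
  band (dig7e P) (steps (env7e (Nat.add 8 (Nat.land C 511)) P) 16 [] [] 0 (Nat.shiftRight C 9))

end

end Ker
end CR
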