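import Pool.Agent.Lib.MP_6f5d36_co.KerD

set_option autoImplicit false

/-!
# MP_6f5d36_co : the digits of a pattern in the kernel checker, the edge lists
-/

namespace CR
namespace Ker

theorem land7_shift (P e : ℕ) : Nat.land (Nat.shiftRight P (3 * e)) 7 = od P e := by
  have h1 : Nat.land (Nat.shiftRight P (3 * e)) 7 = Nat.shiftRight P (3 * e) % 2 ^ 3 :=
    Nat.and_two_pow_sub_one_eq_mod _ 3
  have h2 : Nat.shiftRight P (3 * e) = P / 2 ^ (3 * e) := Nat.shiftRight_eq_div_pow _ _
  rw [h1, h2, pow_mul]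
  rfl

theorem sv_eq (XL : List ℕ) (P e : ℕ) : sv XL P (3 * e) = lget XL (od P e) := by
  unfold sv
  rw [land7_shift]

theorem testBit_od (P e i : ℕ) (hi : i < 3) : Nat.testBit (od P e) i = Nat.testBit P (3 * e + i) := by
  have h1 : od P e = P / 2 ^ (3 * e) % 2 ^ 3 := by
    unfold od
    rw [pow_mul]
    norm_num
  rw [h1, Nat.testBit_mod_two_pow, Nat.testBit_div_two_pow]
  simp [hi, add_comm]

theorem dig6_od {P : ℕ} (h : dig6 P = true) : ∀ e, e < 15 → od P e < 6 := by
  intro e he
  have h1 : Nat.land (Nat.land P (Nat.shiftRight P 1)) 10052677739666 = 0 := beq_true h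
  have h2 : ((P &&& (P >>> 1)) &&& 10052677739666) = 0 := h1
  have h3 : Nat.testBit ((P &&& (P >>> 1)) &&& 10052677739666) (3 * e + 1) = false := by
    rw [h2]; exact Nat.zero_testBit _
  have h4 : Nat.testBit 10052677739666 (3 * e + 1) = true := by
    interval_cases e <;> decide
  rw [Nat.testBit_and, Nat.testBit_and, Nat.testBit_shiftRight, h4, Bool.and_true] at h3
  have h5 : 1 + (3 * e + 1) = 3 * e + 2 := by omega
  rw [h5, ← testBit_od P e 1 (by omega), ← testBit_od P e 2 (by omega)] at h3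
  have h6 := od_lt P e
  revert h3
  generalize od P e = d at h6 ⊢
  interval_cases d <;> decide

theorem dig7_od {P : ℕ} (h : dig7 P = true) : ∀ e, e < 21 → od P e < 7 := by
  intro e he
  have h1 : Nat.land (Nat.land (Nat.land P (Nat.shiftRight P 1)) (Nat.shiftRight P 2))
    1317624576693539401 = 0 := beq_true h
  have h2 : (((P &&& (P >>> 1)) &&& (P >>> 2)) &&& 1317624576693539401) = 0 := h1
  have h3 : Nat.testBit (((P &&& (P >>> 1)) &&& (P >>> 2)) &&& 1317624576693539401) (3 * e) =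
    false := by
    rw [h2]; exact Nat.zero_testBit _
  have h4 : Nat.testBit 1317624576693539401 (3 * e) = true := by
    interval_cases e <;> decide
  rw [Nat.testBit_and, Nat.testBit_and, Nat.testBit_and, Nat.testBit_shiftRight,
    Nat.testBit_shiftRight, h4, Bool.and_true] at h3
  have h5 : 1 + 3 * e = 3 * e + 1 := by omega
  have h6 : 2 + 3 * e = 3 * e + 2 := by omega
  have h0 := testBit_od P e 0 (by omega)
  rw [add_zero] at h0
  rw [h5, h6, ← h0, ← testBit_od P e 1 (by omega), ← testBit_od P e 2 (by omega)] at h3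
  have h7 := od_lt P e
  revert h3
  generalize od P e = d at h7 ⊢
  interval_cases d <;> decide

/-- the list of the values of `n` edges -/
noncomputable def EL (XL : List ℕ) (P n : ℕ) : List ℕ := (List.range n).map fun e => sv XL P (3 * e)

theorem lget_map (f : ℕ → ℕ) : ∀ (L : List ℕ) (n : ℕ) (h : n < L.length),
    lget (L.map f) n = f (L[n])
  | [], n, h => absurd h (by simp)
  | a :: L, 0, _ => rfl
  | a :: L, n + 1, h => by
    have h1 : n < L.length := by simpa using h
    exact lget_map f L n h1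

theorem lget_EL (XL : List ℕ) (P : ℕ) {n e : ℕ} (h : e < n) :
    lget (EL XL P n) e = lget XL (od P e) := by
  unfold EL
  rw [lget_map _ _ _ (by simpa using h), List.getElem_range, sv_eq]

theorem env6a_E (b K P Z1 Z2 : ℕ) (XL : List ℕ) : (env6a b K P Z1 Z2 XL).E = EL XL P 15 := rfl

theorem env7a_E (b K P Z1 Z2 : ℕ) (XL : List ℕ) : (env7a b K P Z1 Z2 XL).E = EL XL P 21 := rfl

theorem env8a_E (b K P Z1 Z2 k : ℕ) (XL : List ℕ) : (env8a b K P Z1 Z2 k XL).E = EL XL P 28 := rfl

theorem env9a_E (b K P Z1 Z2 k : ℕ) (XL : List ℕ) : (env9a b K P Z1 Z2 k XL).E = EL XL P 36 := rfl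

/-- the edge number is less than the number of edges -/
theorem eix_lt {i j m : ℕ} (hij : i < j) (hj : j < m) : j * (j - 1) / 2 + i < m * (m - 1) / 2 := by
  have h1 : j * (j - 1) / 2 + i < (j + 1) * (j + 1 - 1) / 2 := by
    have e1 : (j + 1) * (j + 1 - 1) = j * (j - 1) + 2 * j := by
      rw [Nat.add_sub_cancel]
      rcases j with _ | j
      · simp
      · rw [Nat.add_sub_cancel]; ring
    rw [e1, Nat.add_mul_div_left _ _ (by norm_num)]
    omega
  have h2 : (j + 1) * (j + 1 - 1) ≤ m * (m - 1) := Nat.mul_le_mul (by omega) (by omega)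
  have h3 : (j + 1) * (j + 1 - 1) / 2 ≤ m * (m - 1) / 2 := Nat.div_le_div_right h2
  omega

section

variable {q : ℕ} {w : Fin q → ℕ} {b K : ℕ} {x : Fin q → ℝ} {m : ℕ} {X Y : ℕ → ℝ}

/-- the values of the edges in the list `EL` -/
theorem EL_inv {XL : List ℕ} {P : ℕ} {x' : ℕ → ℝ}
    (hX : ∀ c, c < q → SV w b K x (lget XL c) (x' c))
    (hP : ∀ i j, i < j → j < m → lab P i j < q)
    (hS : ∀ i j, i < j → j < m → sd X Y i j = x' (lab P i j)) {i j : ℕ} (hi : i < m)
    (hj : j < m) : SV w b K x (se (EL XL P (m * (m - 1) / 2)) i j) (sd X Y i j) := by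
  refine se_of_lget (fun i j hij hj => ?_) hi hj
  rw [lget_EL XL P (eix_lt hij hj), hS i j hij hj]
  exact hX _ (hP i j hij hj)

end

theorem lab6 {P : ℕ} (h : dig6 P = true) : ∀ i j, i < j → j < 6 → lab P i j < 6 := fun _ _ hij hj =>
  dig6_od h _ (eix_lt (m := 6) hij hj)

theorem lab7 {P : ℕ} (h : dig7 P = true) : ∀ i j, i < j → j < 7 → lab P i j < 7 := fun _ _ hij hj =>
  dig7_od h _ (eix_lt (m := 7) hij hj)

end Ker
end CR
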