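import Pool.Agent.Lib.MP_6f5d36_co.Facts

set_option autoImplicit false

/-!
# MP_6f5d36_co : occurrences of patterns in a configuration of nine points

Pattern code (helper71): 3 bits per edge, the edge `i < j` is at position `j (j-1) / 2 + i`.
`CR.Occ F m f g P`: the points `f 0, ..., f (m-1)` of `F` are different and the edge `f i, f j` has
the colour `g (lab P i j)`, where `g` is a bijection from the 8 labels to the 8 colours.
-/

namespace CR

/-- the number of the edge `i < j` -/
def eo (i j : ℕ) : ℕ := j * (j - 1) / 2 + i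

/-- the octal digit number `e` -/
def od (P e : ℕ) : ℕ := P / 8 ^ e % 8

/-- the label of the edge `i < j` in the pattern `P` -/
def lab (P i j : ℕ) : ℕ := P / 8 ^ (j * (j - 1) / 2 + i) % 8

/-- the same for an edge with unordered ends -/
def labs (P i j : ℕ) : ℕ := if i < j then lab P i j else lab P j i

theorem lab_eq_od (P i j : ℕ) : lab P i j = od P (eo i j) := rfl

theorem od_lt (P e : ℕ) : od P e < 8 := Nat.mod_lt _ (by norm_num)

theorem lab_lt (P i j : ℕ) : lab P i j < 8 := Nat.mod_lt _ (by norm_num)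

/-- an occurrence of the exact pattern `P` on the points `f 0, ..., f (m-1)` -/
structure Occ (F : Conf 9) (m : ℕ) (f : ℕ → Fin 9) (g : ℕ → Fin 8) (P : ℕ) : Prop where
  inj : ∀ i j, i < m → j < m → f i = f j → i = j
  ginj : ∀ a b, a < 8 → b < 8 → g a = g b → a = b
  col : ∀ i j, i < j → j < m → F.c (f i) (f j) = g (lab P i j)

/-- the labels `0, ..., 5` are the six big colours -/
def GoodG (g : ℕ → Fin 8) : Prop := ∀ a, a < 6 → 2 ≤ (g a).val

namespace Occ

variable {F : Conf 9} {m : ℕ} {f : ℕ → Fin 9} {g : ℕ → Fin 8} {P : ℕ}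

theorem col' (h : Occ F m f g P) {i j : ℕ} (hi : i < m) (hj : j < m) (hij : i ≠ j) :
    F.c (f i) (f j) = g (labs P i j) := by
  unfold labs
  rcases lt_or_gt_of_ne hij with h1 | h1
  · rw [if_pos h1]; exact h.col i j h1 hj
  · rw [if_neg (by omega), F.symm]; exact h.col j i h1 hi

/-- **change of points and labels**: the points of `N` go to the points of `P` by `p`, the labels
by the injection `q` of the 8 labels. -/
theorem emb (h : Occ F m f g P) {m' N : ℕ} (p q : ℕ → ℕ) (hp : ∀ i, i < m' → p i < m)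
    (hi : ∀ i j, i < m' → j < m' → p i = p j → i = j)
    (hq : ∀ a, a < 8 → q a < 8) (hq2 : ∀ a b, a < 8 → b < 8 → q a = q b → a = b)
    (hN : ∀ i j, i < j → j < m' → labs P (p i) (p j) = q (lab N i j)) :
    Occ F m' (fun i => f (p i)) (fun a => g (q a)) N where
  inj i j h1 h2 h3 := hi i j h1 h2 (h.inj _ _ (hp i h1) (hp j h2) h3)
  ginj a b h1 h2 h3 := hq2 a b h1 h2 (h.ginj _ _ (hq a h1) (hq b h2) h3)
  col i j h1 h2 := by
    have hne : p i ≠ p j := fun h3 => by have := hi i j (by omega) h2 h3; omega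
    show F.c (f (p i)) (f (p j)) = g (q (lab N i j))
    rw [h.col' (hp i (by omega)) (hp j h2) hne, hN i j h1 h2]

/-- fewer points -/
theorem mono (h : Occ F m f g P) {m' : ℕ} (hm : m' ≤ m) : Occ F m' f g P where
  inj i j h1 h2 h3 := h.inj i j (by omega) (by omega) h3
  ginj := h.ginj
  col i j h1 h2 := h.col i j h1 (by omega)

/-- only the labels matter -/
theorem congr (h : Occ F m f g P) {N : ℕ} (hN : ∀ i j, i < j → j < m → lab N i j = lab P i j) :
    Occ F m f g N where
  inj := h.inj
  ginj := h.ginj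
  col i j h1 h2 := by rw [hN i j h1 h2]; exact h.col i j h1 h2

end Occ

/-- Growth form of `n` octal digits (from the low end): `K` = number of admissible labels of the next
digit = `min 6 (number of labels used so far + 1)`. -/
def gro : ℕ → ℕ → ℕ → Prop
  | 0, _, u => u = 0
  | n + 1, K, u => u % 8 < K ∧ gro n (if u % 8 + 1 = K ∧ K < 6 then K + 1 else K) (u / 8)

/-- the number of admissible labels after `n` digits -/
def groK : ℕ → ℕ → ℕ → ℕ
  | 0, K, _ => K
  | n + 1, K, u => groK n (if u % 8 + 1 = K ∧ K < 6 then K + 1 else K) (u / 8)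

theorem gro_lt : ∀ (n K u : ℕ), gro n K u → u < 8 ^ n
  | 0, K, u, h => by simp only [gro] at h; simp [h]
  | n + 1, K, u, h => by
    have := gro_lt n _ _ h.2
    rw [pow_succ]; omega

/-- splitting of growth strings -/
theorem gro_split : ∀ (a b K u v : ℕ), u < 8 ^ a →
    (gro (a + b) K (u + v * 8 ^ a) ↔ gro a K u ∧ gro b (groK a K u) v)
  | 0, b, K, u, v, h => by
    simp only [pow_zero, Nat.lt_one_iff] at h
    simp [h, gro, groK]
  | a + 1, b, K, u, v, h => by
    have e0 : u + v * 8 ^ (a + 1) = u + 8 * (v * 8 ^ a) := by ring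
    have e1 : (u + v * 8 ^ (a + 1)) % 8 = u % 8 := by rw [e0]; omega
    have e2 : (u + v * 8 ^ (a + 1)) / 8 = u / 8 + v * 8 ^ a := by rw [e0]; omega
    have e3 : a + 1 + b = (a + b) + 1 := by omega
    rw [e3]
    simp only [gro, groK, e1, e2]
    rw [gro_split a b _ (u / 8) v (by rw [pow_succ] at h; omega)]
    exact and_assoc.symm

end CR
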