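import Pool.Agent.Lib.MP_6f5d36_co.Pat

set_option autoImplicit false

/-!
# MP_6f5d36_co : the checker of level 7

Everything is parametrised by the tables (`T5`, `E6`: five points and the allowed sixth points;
`T4`, `E5`: four points and the allowed fifth points; `reps`: six point patterns by rank) and by the
certificate checker.
-/

namespace CR.L7

/-! ### Permutations given by octal digits -/

/-- the bits of the digits -/
def bits (w : ℕ) : ℕ → ℕ
  | 0 => 0
  | n + 1 => bits w n ||| 1 <<< dg3 w n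

theorem testBit_bits (w : ℕ) : ∀ n a, (bits w n).testBit a = true ↔ ∃ i, i < n ∧ dg3 w i = a
  | 0, a => by simp [bits]
  | n + 1, a => by
    rw [bits, Nat.testBit_or, Bool.or_eq_true, testBit_bits w n a, Nat.one_shiftLeft,
      Nat.testBit_two_pow, decide_eq_true_eq]
    constructor
    · rintro (⟨i, h1, h2⟩ | h)
      · exact ⟨i, by omega, h2⟩
      · exact ⟨n, by omega, h⟩
    · rintro ⟨i, h1, h2⟩
      by_cases h3 : i = n
      · right; rw [← h3, h2]
      · left; exact ⟨i, by omega, h2⟩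

/-- the first `n` digits are a permutation -/
structure Pm (n w : ℕ) : Prop where
  lt : ∀ i, i < n → dg3 w i < n
  surj : ∀ a, a < n → ∃ i, i < n ∧ dg3 w i = a
  inj : ∀ i j, i < n → j < n → dg3 w i = dg3 w j → i = j

theorem Pm.of {n w : ℕ} (h1 : bits w n = 2 ^ n - 1) : Pm n w := by
  have h2 : ∀ a, a < n → ∃ i, i < n ∧ dg3 w i = a := by
    intro a ha
    rw [← testBit_bits, h1, Nat.testBit_two_pow_sub_one]
    exact decide_eq_true ha
  have h3 : ∀ i, i < n → dg3 w i < n := by
    intro i hi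
    have h4 : (bits w n).testBit (dg3 w i) = true := (testBit_bits w n _).2 ⟨i, hi, rfl⟩
    rw [h1, Nat.testBit_two_pow_sub_one] at h4
    exact of_decide_eq_true h4
  refine ⟨h3, h2, ?_⟩
  have h5 : Function.Surjective (fun i : Fin n => (⟨dg3 w i.val, h3 _ i.isLt⟩ : Fin n)) := by
    intro a
    obtain ⟨i, hi, h⟩ := h2 a.val a.isLt
    exact ⟨⟨i, hi⟩, Fin.ext h⟩
  have h6 := Finite.injective_iff_surjective.2 h5
  intro i j hi hj hij
  have := @h6 ⟨i, hi⟩ ⟨j, hj⟩ (Fin.ext hij)
  exact Fin.mk.inj_iff.1 this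

theorem isP6_pm {w : ℕ} (h : isP6 w = true) : Pm 6 w := by
  apply Pm.of
  have e : isP6 w = Nat.beq (bits w 6) 63 := by
    unfold isP6 bits bits bits bits bits bits bits
    rw [Nat.zero_or]
    rfl
  rw [e] at h
  exact Nat.eq_of_beq_eq_true h

theorem isP7_pm {w : ℕ} (h : isP7 w = true) : Pm 7 w := by
  apply Pm.of
  have e : isP7 w = Nat.beq (bits w 7) 127 := by
    unfold isP7 bits bits bits bits bits bits bits bits
    rw [Nat.zero_or]
    rfl
  rw [e] at h
  exact Nat.eq_of_beq_eq_true h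

/-! ### Digits of sums -/

theorem od_add (a b n e : ℕ) (ha : a < 8 ^ n) :
    od (a + b * 8 ^ n) e = if e < n then od a e else od b (e - n) := by
  unfold od
  split_ifs with h
  · obtain ⟨d, rfl⟩ := Nat.exists_eq_add_of_lt h
    have h1 : a + b * 8 ^ (e + d + 1) = a + b * 8 ^ d * 8 * 8 ^ e := by ring
    rw [h1, Nat.add_mul_div_right _ _ (by positivity), Nat.add_mul_mod_self_right]
  · obtain ⟨d, rfl⟩ := Nat.exists_eq_add_of_le (Nat.not_lt.1 h)
    have h1 : n + d - n = d := by omega
    rw [h1, pow_add, ← Nat.div_div_eq_div_mul, Nat.add_mul_div_right _ _ (by positivity),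
      Nat.div_eq_of_lt ha, Nat.zero_add]

theorem od_mod (a n e : ℕ) : od (a % 8 ^ n) e = if e < n then od a e else 0 := by
  split_ifs with h
  · conv_rhs => rw [← Nat.mod_add_div a (8 ^ n), Nat.mul_comm]
    rw [od_add _ _ _ _ (Nat.mod_lt _ (by positivity)), if_pos h]
  · unfold od
    have h1 : a % 8 ^ n < 8 ^ e := lt_of_lt_of_le (Nat.mod_lt _ (by positivity))
      (Nat.pow_le_pow_right (by norm_num) (Nat.not_lt.1 h))
    rw [Nat.div_eq_of_lt h1]

theorem od_div (a n e : ℕ) : od (a / 8 ^ n) e = od a (n + e) := by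
  unfold od
  rw [Nat.div_div_eq_div_mul, ← pow_add]

theorem od_zero (e : ℕ) : od 0 e = 0 := by simp [od]

theorem od_big (a n e : ℕ) (ha : a < 8 ^ n) (h : n ≤ e) : od a e = 0 := by
  have h1 := od_mod a n e
  rw [Nat.mod_eq_of_lt ha, if_neg (by omega)] at h1
  exact h1

/-- numbers are determined by their digits -/
theorem od_ext : ∀ (n a b : ℕ), a < 8 ^ n → b < 8 ^ n → (∀ e, e < n → od a e = od b e) → a = b
  | 0, a, b, ha, hb, _ => by simp at ha hb; omega
  | n + 1, a, b, ha, hb, h => by
    have h0 := h 0 (by omega)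
    simp only [od, pow_zero, Nat.div_one] at h0
    have h1 := od_ext n (a / 8) (b / 8) (by rw [pow_succ] at ha; omega)
      (by rw [pow_succ] at hb; omega) (by
        intro e he
        have h2 := h (e + 1) (by omega)
        simp only [od, pow_succ'] at h2
        unfold od
        rw [Nat.div_div_eq_div_mul, Nat.div_div_eq_div_mul]
        exact h2)
    omega

theorem lt_of_od (a n : ℕ) (h : ∀ e, n ≤ e → od a e = 0) : a < 8 ^ n := by
  by_contra h1
  have h1 := Nat.not_lt.1 h1
  have h2 : a < 8 ^ (a + 1) := (Nat.lt_pow_self (by norm_num : 1 < 8)).trans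
    (Nat.pow_lt_pow_right (by norm_num) (by omega))
  have h3 : a = a % 8 ^ n := by
    apply od_ext (a + 1 + n) a (a % 8 ^ n)
    · exact lt_of_lt_of_le h2 (Nat.pow_le_pow_right (by norm_num) (by omega))
    · exact lt_of_lt_of_le (Nat.mod_lt _ (by positivity))
        (Nat.pow_le_pow_right (by norm_num) (by omega))
    · intro e _
      rw [od_mod]
      split_ifs with h4
      · rfl
      · exact h e (by omega)
  have h4 : a % 8 ^ n < 8 ^ n := Nat.mod_lt _ (by positivity)
  omega


/-! ### Labels less than six -/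

theorem lt6_of_mask (N mask m : ℕ) (hm : ∀ t, t < m → mask.testBit (3 * t + 2) = true)
    (h : Nat.land (Nat.land N (Nat.shiftLeft N 1)) mask = 0) : ∀ t, t < m → od N t < 6 := by
  intro t ht
  have h1 : ((N &&& N <<< 1) &&& mask).testBit (3 * t + 2) = false := by
    have : (N &&& N <<< 1) &&& mask = 0 := h
    rw [this, Nat.zero_testBit]
  rw [Nat.testBit_and, hm t ht, Bool.and_true, Nat.testBit_and, Nat.testBit_shiftLeft] at h1
  have e1 : decide (3 * t + 2 ≥ 1) = true := decide_eq_true (by omega)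
  have e2 : 3 * t + 2 - 1 = 3 * t + 1 := by omega
  rw [e1, Bool.true_and, e2] at h1
  have h2 : ∀ i, i < 3 → (od N t).testBit i = N.testBit (3 * t + i) := by
    intro i hi
    rw [← dg3_eq]
    unfold dg3
    rw [Nat.testBit_and, Nat.testBit_shiftRight]
    have : (7 : ℕ).testBit i = true := by
      interval_cases i <;> rfl
    rw [this, Bool.and_true]
  have h3 := od_lt N t
  rw [← h2 2 (by norm_num), ← h2 1 (by norm_num)] at h1
  revert h1 h3
  generalize od N t = d
  intro h1 h3
  interval_cases d <;> first | omega | exact absurd h1 (by decide)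

def m15 : ℕ := 0o444444444444444

theorem m15_bit : ∀ t, t < 15 → m15.testBit (3 * t + 2) = true := by decide +kernel

theorem lt6_spec {N : ℕ} (h : lt6 N = true) : ∀ t, t < 15 → od N t < 6 :=
  lt6_of_mask N m15 15 m15_bit (Nat.eq_of_beq_eq_true h)

/-! ### Growth -/

/-- growth form with `B` labels -/
def grn (B : ℕ) : ℕ → ℕ → ℕ → Prop
  | 0, _, u => u = 0
  | n + 1, K, u => u % 8 < K ∧ grn B n (if u % 8 + 1 = K ∧ K < B then K + 1 else K) (u / 8)

theorem grn_six : ∀ n K u, grn 6 n K u ↔ gro n K u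
  | 0, K, u => Iff.rfl
  | n + 1, K, u => by
    unfold grn gro
    rw [grn_six n]

theorem nrm_gro (P h : ℕ) : ∀ (L : List ℕ) (M c o e0 : ℕ),
    (∀ t, ∀ ht : t < L.length, L[t] >>> 10 = 3 * (e0 + t)) → WF M c →
    (∀ k, k < c → ∃ l, dg4 M l = k + 1) → (∀ q ∈ L, el P h q < 8) →
    ∃ R, nrm P h L M c o = o ||| R <<< (3 * e0) ∧ R < 8 ^ L.length ∧
      ∀ B, (∀ t, t < L.length → od R t < B) → c ≤ B → grn B L.length (min B (c + 1)) R := by
  intro L
  induction L with
  | nil =>
    intro M c o e0 _ _ _ _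
    exact ⟨0, by simp [nrm_nil], by simp, fun B _ _ => rfl⟩
  | cons q L ih =>
    intro M c o e0 hq hM hs hel
    have hq0 : q >>> 10 = 3 * e0 := by
      have := hq 0 (by simp)
      simpa using this
    have hq' : ∀ t, ∀ ht : t < L.length, L[t] >>> 10 = 3 * (e0 + 1 + t) := by
      intro t ht
      have := hq (t + 1) (by simpa using ht)
      simp only [List.getElem_cons_succ] at this
      rw [this]
      ring
    have hel' : ∀ q ∈ L, el P h q < 8 := fun r hr => hel r (List.mem_cons_of_mem _ hr)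
    have hl8 : el P h q < 8 := hel q List.mem_cons_self
    have key : ∀ d R, d < 8 → (o ||| d <<< (3 * e0)) ||| R <<< (3 * (e0 + 1)) =
        o ||| (R * 8 + d) <<< (3 * e0) := by
      intro d R hd
      have e1 : 3 * (e0 + 1) = 3 + 3 * e0 := by ring
      have e2 : R * 8 + d = R <<< 3 ||| d := by
        rw [← Nat.shiftLeft_add_eq_or_of_lt (by simpa using hd), Nat.shiftLeft_eq]
      rw [e1, Nat.shiftLeft_add, Nat.lor_assoc, ← Nat.shiftLeft_or_distrib, e2,
        Nat.lor_comm d]
    rw [nrm_cons]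
    by_cases h1 : dg4 M (el P h q) = 0
    · rw [if_pos h1, hq0]
      have hM1 : ∀ l, dg4 (M ||| (c + 1) <<< (4 * el P h q)) l =
          if el P h q = l then c + 1 else dg4 M l := by
        intro l
        rw [dg4_or, dg4_shift _ _ _ (by have := hM.c_lt hs; omega)]
        by_cases hl : el P h q = l
        · rw [if_pos hl, if_pos hl, ← hl, h1, Nat.zero_or]
        · rw [if_neg hl, if_neg hl, Nat.or_zero]
      have hs1 : ∀ k, k < c + 1 → ∃ l, dg4 (M ||| (c + 1) <<< (4 * el P h q)) l = k + 1 := by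
        intro k hk
        by_cases hkc : k = c
        · exact ⟨el P h q, by rw [hM1, if_pos rfl, hkc]⟩
        · obtain ⟨l, hl⟩ := hs k (by omega)
          refine ⟨l, ?_⟩
          rw [hM1, if_neg, hl]
          rintro rfl
          rw [h1] at hl
          omega
      have hWF1 : WF (M ||| (c + 1) <<< (4 * el P h q)) (c + 1) := by
        refine ⟨?_, ?_, ?_⟩
        · intro l
          rw [hM1]
          split_ifs
          · exact le_rfl
          · exact (hM.le l).trans (Nat.le_succ c)
        · intro l l' hl hll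
          rw [hM1] at hl
          rw [hM1, hM1] at hll
          by_cases e1 : el P h q = l
          · by_cases e2 : el P h q = l'
            · rw [← e1, e2]
            · rw [if_pos e1, if_neg e2] at hll
              have := hM.le l'
              omega
          · rw [if_neg e1] at hl hll
            by_cases e2 : el P h q = l'
            · rw [if_pos e2] at hll
              have := hM.le l
              omega
            · rw [if_neg e2] at hll
              exact hM.inj l l' hl hll
        · intro l hl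
          rw [hM1] at hl
          by_cases e1 : el P h q = l
          · rw [← e1]; exact hl8
          · rw [if_neg e1] at hl
            exact hM.lt l hl
      have hc7 : c < 8 := by
        have := hWF1.c_lt hs1
        omega
      obtain ⟨R, a1, a2, a3⟩ := ih (M ||| (c + 1) <<< (4 * el P h q)) (c + 1)
        (o ||| c <<< (3 * e0)) (e0 + 1) hq' hWF1 hs1 hel'
      refine ⟨R * 8 + c, by rw [a1, key c R hc7], ?_, ?_⟩
      · rw [List.length_cons, pow_succ]
        omega
      · intro B hB hcB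
        have d0 : (R * 8 + c) % 8 = c := by omega
        have d1 : (R * 8 + c) / 8 = R := by omega
        have hod : ∀ t, od (R * 8 + c) (t + 1) = od R t := by
          intro t
          unfold od
          rw [pow_succ', ← Nat.div_div_eq_div_mul, d1]
        have hc : c < B := by
          have := hB 0 (by simp)
          simp only [od, pow_zero, Nat.div_one, d0] at this
          exact this
        have h5 := a3 B (fun t ht => by
          have := hB (t + 1) (by simpa using ht)
          rw [hod] at this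
          exact this) (by omega)
        show (R * 8 + c) % 8 < min B (c + 1) ∧ grn B L.length _ ((R * 8 + c) / 8)
        rw [d0, d1]
        refine ⟨by omega, ?_⟩
        have h6 : (if c + 1 = min B (c + 1) ∧ min B (c + 1) < B then min B (c + 1) + 1
            else min B (c + 1)) = min B (c + 1 + 1) := by
          split_ifs <;> omega
        rw [h6]
        exact h5
    · rw [if_neg h1, hq0]
      have hx8 : dg4 M (el P h q) - 1 < 8 := by
        have := hM.le (el P h q)
        have := hM.c_lt hs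
        omega
      obtain ⟨R, a1, a2, a3⟩ := ih M c
        (o ||| (dg4 M (el P h q) - 1) <<< (3 * e0)) (e0 + 1) hq' hM hs hel'
      have hdc : dg4 M (el P h q) - 1 < c := by
        have := hM.le (el P h q)
        omega
      generalize dg4 M (el P h q) - 1 = d at *
      refine ⟨R * 8 + d, by rw [a1, key d R hx8], ?_, ?_⟩
      · rw [List.length_cons, pow_succ]
        omega
      · intro B hB hcB
        have d0 : (R * 8 + d) % 8 = d := by omega
        have d1 : (R * 8 + d) / 8 = R := by omega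
        have hod : ∀ t, od (R * 8 + d) (t + 1) = od R t := by
          intro t
          unfold od
          rw [pow_succ', ← Nat.div_div_eq_div_mul, d1]
        have h5 := a3 B (fun t ht => by
          have := hB (t + 1) (by simpa using ht)
          rw [hod] at this
          exact this) hcB
        show (R * 8 + d) % 8 < min B (c + 1) ∧ grn B L.length _ ((R * 8 + d) / 8)
        rw [d0, d1]
        refine ⟨by omega, ?_⟩
        have h6 : (if d + 1 = min B (c + 1) ∧ min B (c + 1) < B then min B (c + 1) + 1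
            else min B (c + 1)) = min B (c + 1) := by
          split_ifs <;> omega
        rw [h6]
        exact h5

/-- everything on the normal form of a part of an occurring pattern -/
theorem _root_.CR.Occ.nrm' {F : Conf 9} {n : ℕ} {f : ℕ → Fin 9} {g : ℕ → Fin 8} {P : ℕ}
    (ho : Occ F n f g P) (hn : n ≤ 9) {m : ℕ} {L : List ℕ} (hL : EdgeList m L) (h : ℕ)
    (hd : ∀ i, i < m → dg3 h i < n) (hinj : ∀ i j, i < m → j < m → dg3 h i = dg3 h j → i = j) :
    (∃ g', Occ F m (fun i => f (dg3 h i)) g' (CR.nrm P h L 0 0 0)) ∧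
      (∀ B, 1 ≤ B → (∀ t, t < L.length → od (CR.nrm P h L 0 0 0) t < B) →
        grn B L.length 1 (CR.nrm P h L 0 0 0)) := by
  refine ⟨(ho.nrm hn hL h hd hinj).1, ?_⟩
  have hel : ∀ q i j, i < m → j < m → i ≠ j → q &&& 31 = 3 * i → (q >>> 5) &&& 31 = 3 * j →
      el P h q = labs P (dg3 h i) (dg3 h j) := by
    intro q i j hi hj hij e1 e2
    rw [← sl_eq P _ _ (by have := hd i hi; omega) (by have := hd j hj; omega)
      (fun e => hij (hinj i j hi hj e))]
    show sl P ((h >>> (q &&& 31)) &&& 7) ((h >>> ((q >>> 5) &&& 31)) &&& 7) = _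
    rw [e1, e2]
    rfl
  obtain ⟨R, a1, a2, a3⟩ := nrm_gro P h L 0 0 0 0
    (fun t ht => by rw [hL.shift t ht, Nat.zero_add]) WF.zero (fun k hk => absurd hk (by omega))
    (fun q hq => by
      obtain ⟨i, j, hij, hj, e1, e2⟩ := hL.bound q hq
      rw [hel q i j (by omega) hj (by omega) e1 e2]
      exact labs_lt _ _ _)
  have e : CR.nrm P h L 0 0 0 = R := by
    rw [a1]
    simp
  intro B hB hlt
  rw [e] at hlt ⊢
  have := a3 B hlt (Nat.zero_le _)
  rw [Nat.zero_add, min_eq_right hB] at this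
  exact this


/-! ### Relabelling -/

/-- a permutation of the labels -/
theorem _root_.CR.Occ.relab {F : Conf 9} {m : ℕ} {f : ℕ → Fin 9} {g : ℕ → Fin 8} {P N : ℕ}
    (ho : Occ F m f g P) (q : ℕ → ℕ) (hq : ∀ a, a < 8 → q a < 8)
    (hq2 : ∀ a b, a < 8 → b < 8 → q a = q b → a = b)
    (hN : ∀ i j, i < j → j < m → lab P i j = q (lab N i j)) : Occ F m f (fun a => g (q a)) N where
  inj := ho.inj
  ginj a b ha hb h := hq2 a b ha hb (ho.ginj _ _ (hq a ha) (hq b hb) h)
  col i j hij hj := by
    show F.c (f i) (f j) = g (q (lab N i j))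
    rw [ho.col i j hij hj, hN i j hij hj]

/-- the transposition of two labels -/
def swl (a b x : ℕ) : ℕ := if x = a then b else if x = b then a else x

theorem swl_swl (a b x : ℕ) : swl a b (swl a b x) = x := by
  unfold swl
  split_ifs <;> omega

theorem swl_lt {a b x n : ℕ} (ha : a < n) (hb : b < n) (hx : x < n) : swl a b x < n := by
  unfold swl
  split_ifs <;> omega

theorem swl_fix {a b x : ℕ} (ha : x ≠ a) (hb : x ≠ b) : swl a b x = x := by
  unfold swl
  rw [if_neg ha, if_neg hb]

/-- change of the first `n` digits -/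
def mq (q : ℕ → ℕ) : ℕ → ℕ → ℕ
  | 0, _ => 0
  | n + 1, v => q (v % 8) + 8 * mq q n (v / 8)

theorem mq_lt (q : ℕ → ℕ) : ∀ n v, (∀ i, i < n → q (od v i) < 8) → mq q n v < 8 ^ n
  | 0, v, _ => by simp [mq]
  | n + 1, v, h => by
    have h0 := h 0 (by omega)
    simp only [od, pow_zero, Nat.div_one] at h0
    have h1 := mq_lt q n (v / 8) (fun i hi => by
      have h2 := h (i + 1) (by omega)
      rw [show i + 1 = 1 + i from Nat.add_comm _ _, ← od_div, pow_one] at h2
      exact h2)
    unfold mq
    rw [pow_succ]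
    omega

theorem od_mq (q : ℕ → ℕ) : ∀ n v, (∀ i, i < n → q (od v i) < 8) →
    ∀ i, i < n → od (mq q n v) i = q (od v i)
  | 0, v, _, i, hi => absurd hi (Nat.not_lt_zero i)
  | n + 1, v, h, i, hi => by
    have h0 := h 0 (by omega)
    simp only [od, pow_zero, Nat.div_one] at h0
    have ih := od_mq q n (v / 8) (fun i hi => by
      have h2 := h (i + 1) (by omega)
      rw [show i + 1 = 1 + i from Nat.add_comm _ _, ← od_div, pow_one] at h2
      exact h2)
    unfold mq
    rcases Nat.eq_zero_or_pos i with rfl | h1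
    · simp only [od, pow_zero, Nat.div_one]
      omega
    · obtain ⟨j, rfl⟩ := Nat.exists_eq_add_of_le h1
      have e1 : od (q (v % 8) + 8 * mq q n (v / 8)) (1 + j) = od (mq q n (v / 8)) j := by
        rw [← od_div, pow_one]
        congr 1
        omega
      rw [e1, ih j (by omega)]
      congr 1
      have e2 := od_div v 1 j
      rw [pow_one] at e2
      exact e2

theorem mq_congr (q q' : ℕ → ℕ) : ∀ n v, (∀ i, i < n → q (od v i) = q' (od v i)) →
    mq q n v = mq q' n v
  | 0, v, _ => rfl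
  | n + 1, v, h => by
    have h0 := h 0 (by omega)
    simp only [od, pow_zero, Nat.div_one] at h0
    unfold mq
    rw [h0, mq_congr q q' n (v / 8) (fun i hi => by
      have h2 := h (i + 1) (by omega)
      rw [show i + 1 = 1 + i from Nat.add_comm _ _, ← od_div, pow_one] at h2
      exact h2)]

theorem mq_swl_swl (a b : ℕ) (ha : a < 8) (hb : b < 8) (n v : ℕ) (hv : v < 8 ^ n) :
    mq (swl a b) n (mq (swl a b) n v) = v := by
  have h1 : ∀ v, ∀ i, i < n → swl a b (od v i) < 8 := fun v i _ => swl_lt ha hb (od_lt v i)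
  apply od_ext n _ _ (mq_lt _ _ _ (h1 _)) hv
  intro e he
  rw [od_mq _ _ _ (h1 _) e he, od_mq _ _ _ (h1 _) e he, swl_swl]

/-- all growth conditions are empty when six labels are in use -/
theorem gro_all : ∀ n v, v < 8 ^ n → (∀ i, i < n → od v i < 6) → gro n 6 v
  | 0, v, h, _ => by simpa [gro] using h
  | n + 1, v, h, hv => by
    have h0 := hv 0 (by omega)
    simp only [od, pow_zero, Nat.div_one] at h0
    refine ⟨h0, ?_⟩
    rw [if_neg (by omega)]
    apply gro_all n
    · rw [pow_succ] at h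
      omega
    · intro i hi
      have h2 := hv (i + 1) (by omega)
      rw [show i + 1 = 1 + i from Nat.add_comm _ _, ← od_div, pow_one] at h2
      exact h2

theorem tail_digits {n v : ℕ} (h : v < 8 ^ (n + 1)) (hv : ∀ i, i < n + 1 → od v i < 6) :
    v % 8 < 6 ∧ v / 8 < 8 ^ n ∧ ∀ i, i < n → od (v / 8) i < 6 := by
  have h0 := hv 0 (by omega)
  simp only [od, pow_zero, Nat.div_one] at h0
  refine ⟨h0, ?_, ?_⟩
  · rw [pow_succ] at h
    omega
  · intro i hi
    have h2 := hv (i + 1) (by omega)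
    rw [show i + 1 = 1 + i from Nat.add_comm _ _, ← od_div, pow_one] at h2
    exact h2

theorem mq_digits {a b n v : ℕ} (ha : a < 6) (hb : b < 6) (hv : ∀ i, i < n → od v i < 6) :
    mq (swl a b) n v < 8 ^ n ∧ ∀ i, i < n → od (mq (swl a b) n v) i < 6 := by
  have h1 : ∀ i, i < n → swl a b (od v i) < 8 := fun i _ =>
    swl_lt (by omega) (by omega) (od_lt v i)
  refine ⟨mq_lt _ _ _ h1, ?_⟩
  intro i hi
  rw [od_mq _ _ _ h1 i hi]
  exact swl_lt ha hb (hv i hi)

theorem gro5 : ∀ n v, v < 8 ^ n → (∀ i, i < n → od v i < 6) →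
    gro n 5 v ∨ gro n 5 (mq (swl 4 5) n v)
  | 0, v, h, _ => Or.inl (by simpa [gro] using h)
  | n + 1, v, h, hv => by
    obtain ⟨h0, h1, h2⟩ := tail_digits h hv
    have e : mq (swl 4 5) (n + 1) v = swl 4 5 (v % 8) + 8 * mq (swl 4 5) n (v / 8) := rfl
    have hs : swl 4 5 (v % 8) < 6 := swl_lt (by norm_num) (by norm_num) h0
    have e1 : mq (swl 4 5) (n + 1) v % 8 = swl 4 5 (v % 8) := by rw [e]; omega
    have e2 : mq (swl 4 5) (n + 1) v / 8 = mq (swl 4 5) n (v / 8) := by rw [e]; omega
    unfold gro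
    rw [e1, e2]
    by_cases c4 : v % 8 = 4
    · left
      refine ⟨by omega, ?_⟩
      rw [if_pos (by omega)]
      exact gro_all n _ h1 h2
    · by_cases c5 : v % 8 = 5
      · right
        have e3 : swl 4 5 (v % 8) = 4 := by rw [c5]; rfl
        rw [e3]
        refine ⟨by omega, ?_⟩
        rw [if_pos (by omega)]
        obtain ⟨h3, h4⟩ := mq_digits (a := 4) (b := 5) (by norm_num) (by norm_num) h2
        exact gro_all n _ h3 h4
      · have e3 : swl 4 5 (v % 8) = v % 8 := swl_fix c4 c5
        rw [e3, if_neg (by omega)]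
        rcases gro5 n (v / 8) h1 h2 with h3 | h3
        · exact Or.inl ⟨by omega, h3⟩
        · exact Or.inr ⟨by omega, h3⟩

theorem gro4 : ∀ n v, v < 8 ^ n → (∀ i, i < n → od v i < 6) →
    gro n 4 v ∨ gro n 4 (mq (swl 4 5) n v) ∨ gro n 4 (mq (swl 3 4) n v) ∨
      gro n 4 (mq (swl 4 5) n (mq (swl 3 4) n v)) ∨ gro n 4 (mq (swl 3 4) n (mq (swl 4 5) n v)) ∨
      gro n 4 (mq (swl 4 5) n (mq (swl 3 4) n (mq (swl 4 5) n v)))
  | 0, v, h, _ => Or.inl (by simpa [gro] using h)
  | n + 1, v, h, hv => by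
    obtain ⟨h0, h1, h2⟩ := tail_digits h hv
    have key : ∀ a b x, a < 6 → b < 6 → x % 8 < 6 →
        mq (swl a b) (n + 1) x % 8 = swl a b (x % 8) ∧
        mq (swl a b) (n + 1) x / 8 = mq (swl a b) n (x / 8) := by
      intro a b x ha hb hx
      have e : mq (swl a b) (n + 1) x = swl a b (x % 8) + 8 * mq (swl a b) n (x / 8) := rfl
      have hs : swl a b (x % 8) < 6 := swl_lt ha hb hx
      constructor <;> rw [e] <;> omega
    obtain ⟨a1, a2⟩ := key 4 5 v (by norm_num) (by norm_num) h0
    obtain ⟨b1, b2⟩ := key 3 4 v (by norm_num) (by norm_num) h0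
    obtain ⟨c1, c2⟩ := key 4 5 (mq (swl 3 4) (n + 1) v) (by norm_num) (by norm_num)
      (by rw [b1]; exact swl_lt (by norm_num) (by norm_num) h0)
    obtain ⟨d1, d2⟩ := key 3 4 (mq (swl 4 5) (n + 1) v) (by norm_num) (by norm_num)
      (by rw [a1]; exact swl_lt (by norm_num) (by norm_num) h0)
    have hl : swl 3 4 (swl 4 5 (v % 8)) < 6 :=
      swl_lt (by norm_num) (by norm_num) (swl_lt (by norm_num) (by norm_num) h0)
    obtain ⟨f1, f2⟩ := key 4 5 (mq (swl 3 4) (n + 1) (mq (swl 4 5) (n + 1) v)) (by norm_num)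
      (by norm_num) (by rw [d1, a1]; exact hl)
    unfold gro
    rw [f1, f2, c1, c2, d1, d2, a1, a2, b1, b2]
    rcases Nat.lt_or_ge (v % 8) 3 with c | c
    · have e1 : swl 4 5 (v % 8) = v % 8 := swl_fix (by omega) (by omega)
      have e2 : swl 3 4 (v % 8) = v % 8 := swl_fix (by omega) (by omega)
      simp only [e1, e2]
      rw [if_neg (by omega)]
      rcases gro4 n (v / 8) h1 h2 with h3 | h3 | h3 | h3 | h3 | h3
      · exact Or.inl ⟨by omega, h3⟩
      · exact Or.inr (Or.inl ⟨by omega, h3⟩)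
      · exact Or.inr (Or.inr (Or.inl ⟨by omega, h3⟩))
      · exact Or.inr (Or.inr (Or.inr (Or.inl ⟨by omega, h3⟩)))
      · exact Or.inr (Or.inr (Or.inr (Or.inr (Or.inl ⟨by omega, h3⟩))))
      · exact Or.inr (Or.inr (Or.inr (Or.inr (Or.inr ⟨by omega, h3⟩))))
    · have c' : v % 8 = 3 ∨ v % 8 = 4 ∨ v % 8 = 5 := by omega
      have s1 : swl 4 5 3 = 3 := rfl
      have s2 : swl 4 5 4 = 5 := rfl
      have s3 : swl 4 5 5 = 4 := rfl
      have s4 : swl 3 4 3 = 4 := rfl
      have s5 : swl 3 4 4 = 3 := rfl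
      have s6 : swl 3 4 5 = 5 := rfl
      rcases c' with c | c | c
      · rw [c]
        simp only [s1, s2, s4]
        rcases gro5 n (v / 8) h1 h2 with h3 | h3
        · left
          exact ⟨by omega, by rw [if_pos (by decide)]; exact h3⟩
        · right; left
          exact ⟨by omega, by rw [if_pos (by decide)]; exact h3⟩
      · rw [c]
        simp only [s1, s2, s3, s5, s6]
        obtain ⟨h4, h5⟩ := mq_digits (a := 3) (b := 4) (by norm_num) (by norm_num) h2
        rcases gro5 n _ h4 h5 with h3 | h3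
        · right; right; left
          exact ⟨by omega, by rw [if_pos (by decide)]; exact h3⟩
        · right; right; right; left
          exact ⟨by omega, by rw [if_pos (by decide)]; exact h3⟩
      · rw [c]
        simp only [s1, s3, s5, s6]
        obtain ⟨h4, h5⟩ := mq_digits (a := 4) (b := 5) (by norm_num) (by norm_num) h2
        obtain ⟨h6, h7⟩ := mq_digits (a := 3) (b := 4) (by norm_num) (by norm_num) h5
        rcases gro5 n _ h6 h7 with h3 | h3
        · right; right; right; right; left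
          exact ⟨by omega, by rw [if_pos (by decide)]; exact h3⟩
        · right; right; right; right; right
          exact ⟨by omega, by rw [if_pos (by decide)]; exact h3⟩


/-! ### The tables -/

/-- the facts on the tables of levels 5 and 6, for one configuration -/
structure TabF (F : Conf 9) (T5 E6 T4 E5 : ℕ → ℕ) : Prop where
  e6 : ∀ f g P j, j < 1205 → gro 15 1 P → Occ F 6 f g P → P % 8 ^ 10 = T5 j →
    (E6 j).testBit (P / 8 ^ 10) = true
  e5 : ∀ f g P i, i < 21 → grn 7 10 1 P → Occ F 5 f g P → P % 8 ^ 6 = T4 i →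
    (E5 i).testBit (P / 8 ^ 6) = true

theorem grb_zero (K u : ℕ) : grb 0 K u = if u = 0 then K else 0 := by
  show cond (Nat.beq u 0) K 0 = _
  rcases Nat.eq_zero_or_pos u with rfl | h
  · rfl
  · obtain ⟨n, rfl⟩ := Nat.exists_eq_succ_of_ne_zero (Nat.pos_iff_ne_zero.1 h)
    rfl

theorem grb_succ (n K u : ℕ) : grb (n + 1) K u = if u % 8 < K then
    grb n (if u % 8 + 1 = K ∧ K < 6 then K + 1 else K) (u / 8) else 0 := by
  have h0 : grb (n + 1) K u = cond (Nat.ble K (u &&& 7)) 0
      (grb n (cond (Nat.beq (Nat.succ (u &&& 7)) K) (cond (Nat.ble 6 K) K (Nat.succ K)) K)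
        (u >>> 3)) := rfl
  have e1 : u &&& 7 = u % 8 := Nat.and_two_pow_sub_one_eq_mod _ 3
  have e2 : u >>> 3 = u / 8 := by rw [Nat.shiftRight_eq_div_pow]
  rw [h0, e1, e2]
  by_cases h1 : u % 8 < K
  · have h2 : Nat.ble K (u % 8) = false := by
      rw [← Bool.not_eq_true, Nat.ble_eq]
      omega
    rw [if_pos h1, h2, cond_false]
    congr 1
    by_cases h3 : u % 8 + 1 = K
    · have h4 : Nat.beq (Nat.succ (u % 8)) K = true := by rw [Nat.beq_eq]; exact h3
      rw [h4, cond_true]
      by_cases h5 : K < 6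
      · have h6 : Nat.ble 6 K = false := by
          rw [← Bool.not_eq_true, Nat.ble_eq]
          omega
        rw [if_pos ⟨h3, h5⟩, h6, cond_false]
      · have h6 : Nat.ble 6 K = true := by rw [Nat.ble_eq]; omega
        rw [if_neg (fun h => h5 h.2), h6, cond_true]
    · have h4 : Nat.beq (Nat.succ (u % 8)) K = false := by
        rw [← Bool.not_eq_true, Nat.beq_eq]
        exact h3
      rw [h4, cond_false, if_neg (fun h => h3 h.1)]
  · have h2 : Nat.ble K (u % 8) = true := by rw [Nat.ble_eq]; omega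
    rw [if_neg h1, h2, cond_true]

theorem grb_spec : ∀ n K u, grb n K u ≠ 0 → gro n K u ∧ groK n K u = grb n K u
  | 0, K, u, h => by
    rw [grb_zero] at h ⊢
    split_ifs at h ⊢ with h1
    · exact ⟨h1, rfl⟩
    · exact absurd rfl h
  | n + 1, K, u, h => by
    rw [grb_succ] at h ⊢
    by_cases h1 : u % 8 < K
    · rw [if_pos h1] at h ⊢
      obtain ⟨h2, h3⟩ := grb_spec n _ _ h
      exact ⟨⟨h1, h2⟩, h3⟩
    · rw [if_neg h1] at h
      exact absurd rfl h

theorem rtC_cons (e : ℕ) (RT : List ℕ) : rtC (e :: RT) = 1 <<< (e &&& 32767) ||| rtC RT := rfl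

theorem rtC_spec : ∀ (RT : List ℕ) (v : ℕ), (rtC RT).testBit v = true → ∃ e ∈ RT, e &&& 32767 = v
  | [], v, h => by
    have : rtC [] = 0 := rfl
    rw [this, Nat.zero_testBit] at h
    exact absurd h (by decide)
  | e :: RT, v, h => by
    rw [rtC_cons, Nat.testBit_or, Bool.or_eq_true, Nat.one_shiftLeft, Nat.testBit_two_pow,
      decide_eq_true_eq] at h
    rcases h with h | h
    · exact ⟨e, List.mem_cons_self, h⟩
    · obtain ⟨e', h1, h2⟩ := rtC_spec RT v h
      exact ⟨e', List.mem_cons_of_mem _ h1, h2⟩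

theorem map5_eq (σ v : ℕ) : map5 σ v = mq (dg3 σ) 5 v := by
  unfold mq mq mq mq mq mq
  rfl

theorem tb_eq (C v : ℕ) : tb C v = C.testBit v := by
  unfold tb Nat.testBit
  have e : Nat.land (Nat.shiftRight C v) 1 = (C >>> v) &&& 1 := rfl
  rw [e, Nat.and_comm 1, Nat.and_one_is_mod]
  rcases Nat.mod_two_eq_zero_or_one (C >>> v) with h | h <;> rw [h] <;> rfl

theorem cond_and {a b : Bool} (h : cond a b false = true) : a = true ∧ b = true := by
  cases a
  · exact absurd h Bool.false_ne_true
  · exact ⟨rfl, h⟩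

theorem allb_spec (p : ℕ → Bool) : ∀ L, allb p L = true → ∀ e ∈ L, p e = true
  | [], _, e, he => absurd he List.not_mem_nil
  | a :: L, h, e, he => by
    obtain ⟨h1, h2⟩ := cond_and (a := p a) (b := allb p L) h
    rcases List.mem_cons.1 he with rfl | he
    · exact h1
    · exact allb_spec p L h2 e he

theorem cond_or {a b : Bool} (h : cond a true b = true) : a = true ∨ b = true := by
  cases a
  · exact Or.inr h
  · exact Or.inl rfl

theorem mask_digit (T m : ℕ) (hm : ∀ t, t < 10 → m.testBit (3 * t + 2) = true)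
    (h : Nat.land T m = 0) : ∀ t, t < 10 → od T t < 4 := by
  intro t ht
  have h1 : (T &&& m).testBit (3 * t + 2) = false := by
    have : T &&& m = 0 := h
    rw [this, Nat.zero_testBit]
  rw [Nat.testBit_and, hm t ht, Bool.and_true] at h1
  have h2 : (od T t).testBit 2 = T.testBit (3 * t + 2) := by
    rw [← dg3_eq]
    unfold dg3
    rw [Nat.testBit_and, Nat.testBit_shiftRight]
    have : (7 : ℕ).testBit 2 = true := rfl
    rw [this, Bool.and_true]
  have h3 := od_lt T t
  rw [← h2] at h1
  revert h1 h3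
  generalize od T t = d
  intro h1 h3
  interval_cases d <;> first | omega | exact absurd h1 (by decide)

theorem mask_digit3 (T m : ℕ) (hm : ∀ t, t < 10 → m.testBit (3 * t) = true)
    (h : Nat.land (Nat.land T (Nat.shiftRight T 1)) m = 0) : ∀ t, t < 10 → od T t ≠ 3 := by
  intro t ht
  have h1 : ((T &&& T >>> 1) &&& m).testBit (3 * t) = false := by
    have : (T &&& T >>> 1) &&& m = 0 := h
    rw [this, Nat.zero_testBit]
  rw [Nat.testBit_and, hm t ht, Bool.and_true, Nat.testBit_and, Nat.testBit_shiftRight] at h1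
  have h2 : ∀ i, i < 3 → (od T t).testBit i = T.testBit (3 * t + i) := by
    intro i hi
    rw [← dg3_eq]
    unfold dg3
    rw [Nat.testBit_and, Nat.testBit_shiftRight]
    have : (7 : ℕ).testBit i = true := by
      interval_cases i <;> rfl
    rw [this, Bool.and_true]
  intro h3
  have e0 := h2 0 (by norm_num)
  have e1 := h2 1 (by norm_num)
  rw [h3] at e0 e1
  rw [Nat.add_zero] at e0
  rw [Nat.add_comm] at e1
  rw [← e0, ← e1] at h1
  exact absurd h1 (by decide)

theorem okK_spec {T K : ℕ} (h : okK T K = true) :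
    6 ≤ K ∨ (K = 5 ∧ ∀ t, t < 10 → od T t < 4) ∨ (K = 4 ∧ ∀ t, t < 10 → od T t < 3) := by
  unfold okK at h
  rcases cond_or h with h | h
  · exact Or.inl (Nat.le_of_ble_eq_true h)
  · obtain ⟨h1, h2⟩ := cond_and h
    have h3 := mask_digit T 0o4444444444 (by decide) (Nat.eq_of_beq_eq_true h1)
    rcases cond_or h2 with h | h
    · exact Or.inr (Or.inl ⟨Nat.eq_of_beq_eq_true h, h3⟩)
    · obtain ⟨h4, h5⟩ := cond_and h
      refine Or.inr (Or.inr ⟨Nat.eq_of_beq_eq_true h4, ?_⟩)
      have h6 := mask_digit3 T 0o1111111111 (by decide) (Nat.eq_of_beq_eq_true h5)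
      intro t ht
      have := h3 t ht
      have := h6 t ht
      omega


theorem rtAll_spec {nr : ℕ} {T5 E6 reps : ℕ → ℕ} {RT : ℕ → List ℕ} : ∀ (n a : ℕ),
    rtAll nr T5 E6 reps RT n a = true → ∀ j, a ≤ j → j < a + n →
      rtOK nr T5 E6 reps j (RT j) = true
  | 0, a, _, j, h1, h2 => by omega
  | n + 1, a, h, j, h1, h2 => by
    obtain ⟨h3, h4⟩ := cond_and (a := rtOK nr T5 E6 reps a (RT a))
      (b := rtAll nr T5 E6 reps RT n (Nat.succ a)) h
    rcases Nat.eq_or_lt_of_le h1 with rfl | h5
    · exact h3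
    · exact rtAll_spec n (a + 1) h4 j h5 (by omega)

theorem s45 : ∀ x, x < 8 → dg3 0o76453210 x = swl 4 5 x := by decide

theorem s34 : ∀ x, x < 8 → dg3 0o76534210 x = swl 3 4 x := by decide

theorem map5_s45 (v : ℕ) : map5 0o76453210 v = mq (swl 4 5) 5 v := by
  rw [map5_eq]
  exact mq_congr _ _ _ _ (fun i _ => s45 _ (od_lt _ _))

theorem map5_s34 (v : ℕ) : map5 0o76534210 v = mq (swl 3 4) 5 v := by
  rw [map5_eq]
  exact mq_congr _ _ _ _ (fun i _ => s34 _ (od_lt _ _))

/-- the labelled pattern after a transposition of two labels which are not used by `T` -/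
theorem _root_.CR.Occ.swap {F : Conf 9} {f : ℕ → Fin 9} {g : ℕ → Fin 8} {T v a b : ℕ} (ha : a < 6) (hb : b < 6)
    (hT : T < 8 ^ 10) (hab : ∀ t, t < 10 → od T t ≠ a ∧ od T t ≠ b)
    (ho : Occ F 6 f g (T + v * 8 ^ 10)) :
    Occ F 6 f (fun x => g (swl a b x)) (T + mq (swl a b) 5 v * 8 ^ 10) := by
  apply ho.relab (swl a b) (fun x hx => swl_lt (by omega) (by omega) hx)
    (fun x y _ _ h => by
      have := congrArg (swl a b) h
      rwa [swl_swl, swl_swl] at this)
  intro i j hij hj
  have hq : ∀ i, i < 5 → swl a b (od v i) < 8 := fun i _ => swl_lt (by omega) (by omega) (od_lt v i)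
  have he : eo i j < 15 := by
    unfold eo
    interval_cases j <;> omega
  rw [lab_eq_od, lab_eq_od, od_add _ _ _ _ hT, od_add _ _ _ _ hT]
  split_ifs with h
  · obtain ⟨h1, h2⟩ := hab _ h
    rw [swl_fix h1 h2]
  · rw [od_mq _ _ _ hq _ (by omega), swl_swl]

/-- **completeness of the list of the sixth points** -/
theorem rt_complete {F : Conf 9} {nr : ℕ} {T5 E6 T4 E5 reps : ℕ → ℕ}
    (hF : TabF F T5 E6 T4 E5) {j : ℕ} (hj : j < 1205) {RT : List ℕ}
    (h : rtOK nr T5 E6 reps j RT = true) {f : ℕ → Fin 9} {g : ℕ → Fin 8} {v : ℕ}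
    (hv : v < 8 ^ 5) (hd : ∀ i, i < 5 → od v i < 6) (ho : Occ F 6 f g (T5 j + v * 8 ^ 10)) :
    T5 j < 8 ^ 10 ∧ ∃ e ∈ RT, e &&& 32767 = v ∧ Pm 6 (e >>> 15) ∧ e >>> 33 < nr ∧
      nrm (T5 j + v * 8 ^ 10) (e >>> 15) EL6 0 0 0 = reps (e >>> 33) := by
  unfold rtOK at h
  have hK : grb 10 1 (T5 j) ≠ 0 := by
    intro h0
    rw [h0] at h
    exact absurd h Bool.false_ne_true
  have hK' : Nat.beq (grb 10 1 (T5 j)) 0 = false := by
    rw [← Bool.not_eq_true]
    exact fun h0 => hK (Nat.eq_of_beq_eq_true h0)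
  rw [hK', cond_false] at h
  obtain ⟨h1, h⟩ := cond_and h
  obtain ⟨h2, h3⟩ := cond_and h
  obtain ⟨hg1, hg2⟩ := grb_spec 10 1 (T5 j) hK
  set T := T5 j with hT
  set K := grb 10 1 T with hKd
  have hT8 : T < 8 ^ 10 := gro_lt _ _ _ hg1
  refine ⟨hT8, ?_⟩
  -- the bits of `E6` are bits of the list
  have hE : ∀ u, (E6 j).testBit u = true → (rtC RT).testBit u = true := by
    intro u hu
    have h4 : E6 j &&& rtC RT = E6 j := Nat.eq_of_beq_eq_true h2
    rw [← h4, Nat.testBit_and, Bool.and_eq_true] at hu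
    exact hu.2
  -- growth forms are in the list
  have hgr : ∀ g' u, gro 5 K u → Occ F 6 f g' (T + u * 8 ^ 10) → (rtC RT).testBit u = true := by
    intro g' u hu ho'
    apply hE
    have h4 : gro 15 1 (T + u * 8 ^ 10) := by
      rw [show 15 = 10 + 5 from rfl, gro_split 10 5 1 T u hT8, hg2]
      exact ⟨hg1, hu⟩
    have h5 := hF.e6 f g' _ j hj h4 ho' (by rw [Nat.add_mul_mod_self_right, Nat.mod_eq_of_lt hT8])
    rw [Nat.add_mul_div_right _ _ (by positivity), Nat.div_eq_of_lt hT8, Nat.zero_add] at h5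
    exact h5
  -- closure
  have hcl : ∀ u, (rtC RT).testBit u = true → clo K (rtC RT) u = true := by
    intro u hu
    obtain ⟨e, he, rfl⟩ := rtC_spec RT u hu
    have h4 := allb_spec _ RT h3 e he
    unfold rtEnt at h4
    exact (cond_and (cond_and (cond_and h4).2).2).2
  suffices hb : (rtC RT).testBit v = true by
    obtain ⟨e, he, hev⟩ := rtC_spec RT v hb
    have h4 := allb_spec _ RT h3 e he
    unfold rtEnt at h4
    obtain ⟨h5, h4⟩ := cond_and h4
    obtain ⟨h6, h4⟩ := cond_and h4
    refine ⟨e, he, hev, isP6_pm h5, Nat.le_of_ble_eq_true (cond_and h4).1, ?_⟩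
    have h7 : nrm (T + (e &&& 32767) <<< 30) (e >>> 15) EL6 0 0 0 = reps (e >>> 33) :=
      Nat.eq_of_beq_eq_true h6
    rw [hev, Nat.shiftLeft_eq] at h7
    exact h7
  have hc6 : ∀ k, K = k → K < 6 → ∀ u, (rtC RT).testBit u = true →
      (rtC RT).testBit (mq (swl 4 5) 5 u) = true ∧
      (K < 5 → (rtC RT).testBit (mq (swl 3 4) 5 u) = true) := by
    intro k _ hk6 u hu
    have h4 := hcl u hu
    unfold clo at h4
    rcases cond_or h4 with h5 | h5
    · exact absurd (Nat.le_of_ble_eq_true h5) (by omega)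
    · obtain ⟨h6, h7⟩ := cond_and h5
      rw [tb_eq, map5_s45] at h6
      refine ⟨h6, ?_⟩
      intro hk5
      rcases cond_or h7 with h8 | h8
      · exact absurd (Nat.le_of_ble_eq_true h8) (by omega)
      · rw [tb_eq, map5_s34] at h8
        exact h8
  rcases okK_spec h1 with hk | ⟨hk, hk2⟩ | ⟨hk, hk2⟩
  · -- all labels are used
    have hk6 : ∀ n K u, gro n 6 u → 6 ≤ K → gro n K u := by
      intro n
      induction n with
      | zero => intro K u h _; exact h
      | succ n ih =>
        intro K u h hK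
        obtain ⟨a, b⟩ := h
        rw [if_neg (by omega)] at b
        refine ⟨by omega, ?_⟩
        rw [if_neg (by omega)]
        exact ih K _ b hK
    exact hgr g v (hk6 5 K v (gro_all 5 v hv hd) hk) ho
  · have hcl5 : ∀ u, (rtC RT).testBit u = true → (rtC RT).testBit (mq (swl 4 5) 5 u) = true :=
      fun u hu => (hc6 K rfl (by omega) u hu).1
    have hfix : ∀ t, t < 10 → od T t ≠ 4 ∧ od T t ≠ 5 := fun t ht => by
      have := hk2 t ht
      omega
    rw [hk] at hgr
    rcases gro5 5 v hv hd with h4 | h4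
    · exact hgr g v h4 ho
    · have h5 := hcl5 _ (hgr _ _ h4 (ho.swap (by norm_num) (by norm_num) hT8 hfix))
      rwa [mq_swl_swl 4 5 (by norm_num) (by norm_num) 5 v hv] at h5
  · have hcl5 : ∀ u, (rtC RT).testBit u = true → (rtC RT).testBit (mq (swl 4 5) 5 u) = true :=
      fun u hu => (hc6 K rfl (by omega) u hu).1
    have hcl4 : ∀ u, (rtC RT).testBit u = true → (rtC RT).testBit (mq (swl 3 4) 5 u) = true :=
      fun u hu => (hc6 K rfl (by omega) u hu).2 (by omega)
    have hfix5 : ∀ t, t < 10 → od T t ≠ 4 ∧ od T t ≠ 5 := fun t ht => by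
      have := hk2 t ht
      omega
    have hfix4 : ∀ t, t < 10 → od T t ≠ 3 ∧ od T t ≠ 4 := fun t ht => by
      have := hk2 t ht
      omega
    rw [hk] at hgr
    obtain ⟨v5, d5⟩ := mq_digits (a := 4) (b := 5) (by norm_num) (by norm_num) hd
    obtain ⟨v4, d4⟩ := mq_digits (a := 3) (b := 4) (by norm_num) (by norm_num) hd
    obtain ⟨v54, d54⟩ := mq_digits (a := 4) (b := 5) (by norm_num) (by norm_num) d4
    obtain ⟨v45, d45⟩ := mq_digits (a := 3) (b := 4) (by norm_num) (by norm_num) d5
    have o5 := ho.swap (a := 4) (b := 5) (by norm_num) (by norm_num) hT8 hfix5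
    have o4 := ho.swap (a := 3) (b := 4) (by norm_num) (by norm_num) hT8 hfix4
    have o54 := o4.swap (a := 4) (b := 5) (by norm_num) (by norm_num) hT8 hfix5
    have o45 := o5.swap (a := 3) (b := 4) (by norm_num) (by norm_num) hT8 hfix4
    have o545 := o45.swap (a := 4) (b := 5) (by norm_num) (by norm_num) hT8 hfix5
    have i5 : ∀ u, u < 8 ^ 5 → mq (swl 4 5) 5 (mq (swl 4 5) 5 u) = u := fun u hu =>
      mq_swl_swl 4 5 (by norm_num) (by norm_num) 5 u hu
    have i4 : ∀ u, u < 8 ^ 5 → mq (swl 3 4) 5 (mq (swl 3 4) 5 u) = u := fun u hu =>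
      mq_swl_swl 3 4 (by norm_num) (by norm_num) 5 u hu
    rcases gro4 5 v hv hd with h4 | h4 | h4 | h4 | h4 | h4
    · exact hgr g v h4 ho
    · have h5 := hcl5 _ (hgr _ _ h4 o5)
      rwa [i5 v hv] at h5
    · have h5 := hcl4 _ (hgr _ _ h4 o4)
      rwa [i4 v hv] at h5
    · have h5 := hcl5 _ (hgr _ _ h4 o54)
      rw [i5 _ v4] at h5
      have h6 := hcl4 _ h5
      rwa [i4 v hv] at h6
    · have h5 := hcl4 _ (hgr _ _ h4 o45)
      rw [i4 _ v5] at h5
      have h6 := hcl5 _ h5
      rwa [i5 v hv] at h6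
    · have h5 := hcl5 _ (hgr _ _ h4 o545)
      rw [i5 _ v45] at h5
      have h6 := hcl4 _ h5
      rw [i4 _ v5] at h6
      have h7 := hcl5 _ h6
      rwa [i5 v hv] at h7

end CR.L7
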