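import Pool.Agent.Lib.MP_6f5d36_co.Level7c
import Pool.Agent.Lib.MP_6f5d36_co.RepOK
import Pool.Agent.Lib.MP_6f5d36_co.L6.Types
import Pool.Agent.Lib.MP_6f5d36_co.RTab
import Pool.Agent.Lib.MP_6f5d36_co.D7.R0
import Pool.Agent.Lib.MP_6f5d36_co.D7.R1
import Pool.Agent.Lib.MP_6f5d36_co.D7.R2
import Pool.Agent.Lib.MP_6f5d36_co.D7.R3
import Pool.Agent.Lib.MP_6f5d36_co.D7.R4
import Pool.Agent.Lib.MP_6f5d36_co.D7.R5
import Pool.Agent.Lib.MP_6f5d36_co.D7.R6

set_option autoImplicit false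

/-!
# MP_6f5d36_co : level 7, link with the tables of level 6; the ranks exist
-/

namespace CR.L7

theorem TT_eq : Tab.TT = L6.TT := by decide +kernel

theorem T5_eq (j : ℕ) : Tab.T5 j = L6.T5 j := by
  show Nat.land (Nat.shiftRight Tab.TT (Nat.mul 30 j)) 1073741823 =
    Nat.land (Nat.shiftRight L6.TT (Nat.mul 30 j)) 1073741823
  rw [TT_eq]

theorem E6_aux : CR.allN (fun j => Nat.beq (Tab.E6 j) (L6.E6 j)) 1205 = true := by
  decide +kernel

theorem E6_eq (j : ℕ) (hj : j < 1205) : Tab.E6 j = L6.E6 j :=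
  Nat.eq_of_beq_eq_true (CR.allN_spec E6_aux j hj)

/-- the lists of the sixth points are right -/
theorem rt_ok (j : ℕ) (h1 : 526 ≤ j) (h2 : j ≤ 1204) :
    rtOK Tab.nr Tab.T5 Tab.E6 Tab.reps j (Tab.RT j) = true := by
  rcases Nat.lt_or_ge j 634 with h | h
  · exact rtAll_spec _ _ D7.rt_526 j h1 h
  rcases Nat.lt_or_ge j 643 with h' | h'
  · exact rtAll_spec _ _ D7.rt_634 j h h'
  rcases Nat.lt_or_ge j 786 with h | h
  · exact rtAll_spec _ _ D7.rt_643 j h' h
  rcases Nat.lt_or_ge j 860 with h' | h'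
  · exact rtAll_spec _ _ D7.rt_786 j h h'
  rcases Nat.lt_or_ge j 915 with h | h
  · exact rtAll_spec _ _ D7.rt_860 j h' h
  rcases Nat.lt_or_ge j 957 with h' | h'
  · exact rtAll_spec _ _ D7.rt_915 j h h'
  rcases Nat.lt_or_ge j 976 with h | h
  · exact rtAll_spec _ _ D7.rt_957 j h' h
  rcases Nat.lt_or_ge j 1054 with h' | h'
  · exact rtAll_spec _ _ D7.rt_976 j h h'
  rcases Nat.lt_or_ge j 1109 with h | h
  · exact rtAll_spec _ _ D7.rt_1054 j h' h
  rcases Nat.lt_or_ge j 1151 with h' | h'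
  · exact rtAll_spec _ _ D7.rt_1109 j h h'
  rcases Nat.lt_or_ge j 1180 with h | h
  · exact rtAll_spec _ _ D7.rt_1151 j h' h
  rcases Nat.lt_or_ge j 1201 with h' | h'
  · exact rtAll_spec _ _ D7.rt_1180 j h h'
  · exact rtAll_spec _ _ D7.rt_1201 j h' (by omega)

/-- the labels of the representatives -/
theorem reps_lab (r : ℕ) (hr : r < Tab.nr) (t : ℕ) (ht : t < 15) : od (Tab.reps r) t < 6 :=
  CR.lt6_sound (CR.allN_spec CR.rep_lt6 r hr) t ht

/-- the conclusion of level 6 -/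
def E6H : Prop := ∀ (F : Conf 9) (f : ℕ → Fin 9) (g : ℕ → Fin 8) (j u : ℕ), 526 ≤ j → j < 1205 →
  gro 5 (L6.KK j) u → Occ F 6 f g (L6.T5 j + u * 8 ^ 10) → (L6.E6 j).testBit u = true

/-- the conclusion of level 5, seven labels -/
def E5H : Prop := ∀ (F : Conf 9) (f : ℕ → Fin 9) (g : ℕ → Fin 8) (P i : ℕ), i < 21 →
  grn 7 10 1 P → Occ F 5 f g P → P % 8 ^ 6 = Tab.T4 i → (Tab.E5 i).testBit (P / 8 ^ 6) = true

/-- the conclusion of level 6 : six points without bad edges -/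
def L6H : Prop := ∀ (F : Conf 9) (f : ℕ → Fin 9), Big6 F f →
  ∃ (j u : ℕ) (p : ℕ → ℕ) (g : ℕ → Fin 8), 526 ≤ j ∧ j < 1205 ∧ (∀ i, i < 6 → p i < 6) ∧
    (∀ i j, i < 6 → j < 6 → p i = p j → i = j) ∧ gro 5 (L6.KK j) u ∧
    Occ F 6 (fun i => f (p i)) g (L6.T5 j + u * 8 ^ 10)

theorem tabF (h6 : E6H) (h5 : E5H) (F : Conf 9) : TabF F Tab.T5 Tab.E6 Tab.T4 Tab.E5 where
  e6 := by
    intro f g P j hj hg ho hP
    have hT := L6.T5_lt j
    have hP2 : P = L6.T5 j + P / 8 ^ 10 * 8 ^ 10 := by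
      have h1 := Nat.mod_add_div P (8 ^ 10)
      rw [hP, T5_eq] at h1
      rw [Nat.mul_comm]
      exact h1.symm
    rcases Nat.lt_or_ge j 526 with h526 | h526
    · exfalso
      apply L6.T5_dead j h526 F f g
      apply (ho.mono (m' := 5) (by norm_num)).congr
      intro a b hab hb
      rw [lab_eq_od, lab_eq_od, hP2, od_add _ _ _ _ hT, if_pos]
      unfold eo
      interval_cases b <;> omega
    · rw [hP2] at hg ho
      have h1 := (gro_split 10 5 1 (L6.T5 j) (P / 8 ^ 10) hT).1 hg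
      rw [L6.T5_groK j h526 hj] at h1
      rw [E6_eq j hj]
      exact h6 F f g j _ h526 hj h1.2 ho
  e5 := fun f g P i hi hg ho hP => h5 F f g P i hi hg ho hP

theorem gro_dig : ∀ (n K u : ℕ), K ≤ 6 → gro n K u → ∀ i, i < n → od u i < 6
  | 0, _, _, _, _, i, hi => absurd hi (Nat.not_lt_zero i)
  | n + 1, K, u, hK, h, i, hi => by
    obtain ⟨h1, h2⟩ := h
    rcases Nat.eq_zero_or_pos i with rfl | h3
    · unfold od
      rw [pow_zero, Nat.div_one]
      omega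
    · obtain ⟨d, rfl⟩ := Nat.exists_eq_add_of_le h3
      rw [← od_div, pow_one]
      exact gro_dig n _ (u / 8) (by split_ifs <;> omega) h2 d (by omega)

/-- **six points without bad edges have a rank** -/
theorem rank6 (h6 : E6H) (h5 : E5H) (hL : L6H) : Rank6 Tab.nr Tab.reps := by
  intro F f hf
  obtain ⟨j, u, p, g, h1, h2, hp, hp2, hg, ho⟩ := hL F f hf
  have hu8 := gro_lt _ _ _ hg
  have hud := gro_dig 5 _ u (L6.KK_le j) hg
  rw [← T5_eq] at ho
  obtain ⟨-, e, he, hev, pp, hr, hn⟩ := rt_complete (tabF h6 h5 F) h2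
    (rt_ok j h1 (by omega)) hu8 hud ho
  obtain ⟨⟨g', ho'⟩, -⟩ := ho.nrm (by norm_num) edgeList6 (e >>> 15) pp.lt pp.inj
  rw [hn] at ho'
  have hp' : ∀ i, i < 6 → p (dg3 (e >>> 15) i) < 6 := fun i hi => hp _ (pp.lt i hi)
  have hp2' : ∀ i j, i < 6 → j < 6 → p (dg3 (e >>> 15) i) = p (dg3 (e >>> 15) j) → i = j :=
    fun i j hi hj h => pp.inj i j hi hj (hp2 _ _ (pp.lt i hi) (pp.lt j hj) h)
  have hbig : ∀ i j, i < 6 → j < 6 → i ≠ j → 2 ≤ (F.c (f i) (f j)).val := by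
    intro i j hi hj hij
    rcases Nat.lt_or_gt_of_ne hij with h | h
    · exact hf.2 i j h hj
    · rw [F.symm]
      exact hf.2 j i h hi
  obtain ⟨g'', ho'', hg''⟩ := ho'.big (fun i j hij hj => by
    rw [lab_eq_od]
    apply reps_lab _ hr
    unfold eo
    interval_cases j <;> omega) (fun i j hij hj => by
    apply hbig _ _ (hp' i (by omega)) (hp' j hj)
    intro he
    have := hp2' i j (by omega) hj he
    omega)
  exact ⟨e >>> 33, fun i => p (dg3 (e >>> 15) i), g'', hr, hp', hp2', hg'', ho''⟩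

/-- the consequence for one rank -/
theorem die_of_kil {k : ℕ} (h : Kil Tab.nr Tab.reps k) : Die Tab.nr Tab.reps k := by
  intro F f g hf ho hg hmin s1 s2 s3 h1 h2 h3 h12 h13 h23 c1 c2 c3 b1 b2 b3
  rcases h s1 s2 s3 h1 h2 h3 h12 h13 h23 with hV | hV | hV
  · obtain ⟨X, hX, -⟩ := hV F f g ho hg hmin (f 6)
      (fun i hi he => by have := hf i 6 (by omega) (by norm_num) he; omega)
      (by rw [c1]; norm_num) b1
    exact absurd hX List.not_mem_nil
  · obtain ⟨X, hX, -⟩ := hV F f g ho hg hmin (f 7)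
      (fun i hi he => by have := hf i 7 (by omega) (by norm_num) he; omega)
      (by rw [c2]; norm_num) b2
    exact absurd hX List.not_mem_nil
  · obtain ⟨X, hX, -⟩ := hV F f g ho hg hmin (f 8)
      (fun i hi he => by have := hf i 8 (by omega) (by norm_num) he; omega)
      (by rw [c3]; norm_num) b3
    exact absurd hX List.not_mem_nil

theorem die_of_pro {k : ℕ} (h : Pro Tab.nr Tab.reps Tab.W k)
    (h9 : Kill9 (Tab.reps k) (Tab.W k)) : Die Tab.nr Tab.reps k :=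
  die_of_kill9 (fun s hs => h s hs) h9

end CR.L7
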