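import Pool.Agent.Lib.MP_6f5d36_co.Level7
import Pool.Agent.Lib.MP_6f5d36_co.OccReal

set_option autoImplicit false

/-!
# MP_6f5d36_co : the checker of level 7, second part: the reasons and the items

A `K7` minus an edge is a pattern `P` on seven points: `0, ..., 4` have the type `T5 j`, the point
`5` is the removed vertex `s`, the point `6` is its partner `t`, the edge `56` has the label `6`.
-/

namespace CR.L7

/-! ### Part of a pattern on five and six points -/

theorem lt7_spec {N : ℕ} (h : lt7 N = true) : ∀ t, t < 10 → od N t < 7 := by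
  intro t ht
  have h1 : ((N &&& N >>> 1) &&& (N >>> 2 &&& 0o1111111111)).testBit (3 * t) = false := by
    have : (N &&& N >>> 1) &&& (N >>> 2 &&& 0o1111111111) = 0 := Nat.eq_of_beq_eq_true h
    rw [this, Nat.zero_testBit]
  have hm' : ∀ t, t < 10 → (0o1111111111 : ℕ).testBit (3 * t) = true := by decide
  have hm := hm' t ht
  rw [Nat.testBit_and, Nat.testBit_and, Nat.testBit_and, hm, Bool.and_true,
    Nat.testBit_shiftRight, Nat.testBit_shiftRight] at h1
  have h2 : ∀ i, i < 3 → (od N t).testBit i = N.testBit (3 * t + i) := by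
    intro i hi
    rw [← dg3_eq]
    unfold dg3
    rw [Nat.testBit_and, Nat.testBit_shiftRight]
    have : (7 : ℕ).testBit i = true := by
      interval_cases i <;> rfl
    rw [this, Bool.and_true]
  have h3 := od_lt N t
  have e0 := h2 0 (by norm_num)
  have e1 := h2 1 (by norm_num)
  have e2 := h2 2 (by norm_num)
  rw [Nat.add_zero] at e0
  rw [Nat.add_comm] at e1 e2
  rw [← e0, ← e1, ← e2] at h1
  revert h1 h3
  generalize od N t = d
  intro h1 h3
  by_contra h4
  have h5 : d = 7 := by omega
  rw [h5] at h1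
  exact absurd h1 (by decide)

theorem cond_not {a : Bool} (h : cond a false true = true) : a = false := by
  cases a
  · rfl
  · exact absurd h Bool.false_ne_true

theorem k5ok_sound {F : Conf 9} {T5 E6 T4 E5 : ℕ → ℕ} (hF : TabF F T5 E6 T4 E5) {P w i : ℕ}
    (h : k5ok T4 E5 P w i = true) {f : ℕ → Fin 9} {g : ℕ → Fin 8} (ho : Occ F 7 f g P) :
    False := by
  obtain ⟨h0, h⟩ := cond_and h
  obtain ⟨h1, h⟩ := cond_and h
  obtain ⟨h2, h⟩ := cond_and h
  obtain ⟨h3, h⟩ := cond_and h
  have h4 := cond_not h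
  have hp := isP7_pm h1
  obtain ⟨⟨g', ho'⟩, hg⟩ := ho.nrm' (by norm_num) edgeList5 w (fun i hi => hp.lt i (by omega))
    (fun i j hi hj => hp.inj i j (by omega) (by omega))
  have h5 := hF.e5 _ _ _ i (by have := Nat.le_of_ble_eq_true h0; omega) (hg 7 (by norm_num) (fun t ht => lt7_spec h3 t ht)) ho' (by
    have h6 := Nat.eq_of_beq_eq_true h2
    rw [← h6]
    exact (Nat.and_two_pow_sub_one_eq_mod _ 18).symm)
  rw [tb_eq] at h4
  have e : Nat.shiftRight (nrm P w EL5 0 0 0) 18 = nrm P w EL5 0 0 0 / 8 ^ 6 :=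
    Nat.shiftRight_eq_div_pow _ _
  rw [e] at h4
  rw [h4] at h5
  exact absurd h5 Bool.false_ne_true

theorem k6ok_sound {F : Conf 9} {T5 E6 T4 E5 : ℕ → ℕ} (hF : TabF F T5 E6 T4 E5) {P w j : ℕ}
    (h : k6ok T5 E6 P w j = true) {f : ℕ → Fin 9} {g : ℕ → Fin 8} (ho : Occ F 7 f g P) :
    False := by
  obtain ⟨h0, h⟩ := cond_and h
  obtain ⟨h1, h⟩ := cond_and h
  obtain ⟨h2, h⟩ := cond_and h
  obtain ⟨h3, h⟩ := cond_and h
  have h4 := cond_not h
  have hp := isP7_pm h1
  obtain ⟨⟨g', ho'⟩, hg⟩ := ho.nrm' (by norm_num) edgeList6 w (fun i hi => hp.lt i (by omega))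
    (fun i j hi hj => hp.inj i j (by omega) (by omega))
  have h5 := hF.e6 _ _ _ j (by have := Nat.le_of_ble_eq_true h0; omega) ((grn_six _ _ _).1 (hg 6 (by norm_num)
    (fun t ht => lt6_spec h3 t ht))) ho' (by
    have h6 := Nat.eq_of_beq_eq_true h2
    rw [← h6]
    exact (Nat.and_two_pow_sub_one_eq_mod _ 30).symm)
  rw [tb_eq] at h4
  have e : Nat.shiftRight (nrm P w EL6 0 0 0) 30 = nrm P w EL6 0 0 0 / 8 ^ 10 :=
    Nat.shiftRight_eq_div_pow _ _
  rw [e] at h4
  rw [h4] at h5
  exact absurd h5 Bool.false_ne_true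

/-! ### Sizes of the classes -/

/-- the larger end of the edge number `e` -/
def eJ (e : ℕ) : ℕ :=
  if e < 1 then 1 else if e < 3 then 2 else if e < 6 then 3 else if e < 10 then 4 else
  if e < 15 then 5 else 6

/-- the smaller end of the edge number `e` -/
def eI (e : ℕ) : ℕ := e - eJ e * (eJ e - 1) / 2

theorem e_spec2 : ∀ e < 21, eI e < eJ e ∧ eJ e < 7 ∧ eo (eI e) (eJ e) = e := by
  decide

theorem cnt_succ (a n P : ℕ) : cnt a (n + 1) P =
    if od P 0 = a then cnt a n (P / 8) + 1 else cnt a n (P / 8) := by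
  have h0 : cnt a (n + 1) P = cond (Nat.beq (P &&& 7) a) (Nat.succ (cnt a n (P >>> 3)))
    (cnt a n (P >>> 3)) := rfl
  have e1 : P &&& 7 = od P 0 := by
    unfold od
    rw [pow_zero, Nat.div_one]
    exact Nat.and_two_pow_sub_one_eq_mod _ 3
  have e2 : P >>> 3 = P / 8 := by rw [Nat.shiftRight_eq_div_pow]
  rw [h0, e1, e2]
  by_cases h : od P 0 = a
  · have h1 : Nat.beq (od P 0) a = true := by rw [Nat.beq_eq]; exact h
    rw [if_pos h, h1]
    rfl
  · have h1 : Nat.beq (od P 0) a = false := by
      rw [← Bool.not_eq_true, Nat.beq_eq]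
      exact h
    rw [if_neg h, h1]
    rfl

theorem cnt_eq (a : ℕ) : ∀ n P,
    cnt a n P = ((Finset.range n).filter (fun e => od P e = a)).card
  | 0, P => by
    have : cnt a 0 P = 0 := rfl
    simp [this]
  | n + 1, P => by
    rw [cnt_succ, cnt_eq a n (P / 8)]
    have h1 : ((Finset.range (n + 1)).filter (fun e => od P e = a)).card =
        (if od P 0 = a then 1 else 0) +
        ((Finset.range n).filter (fun e => od (P / 8) e = a)).card := by
      rw [Finset.card_filter, Finset.card_filter, Finset.sum_range_succ', Nat.add_comm]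
      congr 1
      apply Finset.sum_congr rfl
      intro e _
      have h2 := od_div P 1 e
      rw [pow_one, Nat.add_comm] at h2
      rw [h2]
    rw [h1]
    split_ifs <;> omega

theorem occ_card_le {F : Conf 9} {f : ℕ → Fin 9} {g : ℕ → Fin 8} {P : ℕ} (H : Occ F 7 f g P)
    {n a : ℕ} (hn : n ≤ 21) :
    ((Finset.range n).filter (fun e => od P e = a)).card ≤ (g a).val + 1 := by
  have h1 := F.count (g a)
  have hne' : ∀ {i j}, i < 7 → j < 7 → i ≠ j → f i ≠ f j := fun hi hj h h2 =>
    h (H.inj _ _ hi hj h2)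
  rw [← h1]
  apply Finset.card_le_card_of_injOn
    (fun e => (min (f (eI e)) (f (eJ e)), max (f (eI e)) (f (eJ e))))
  · intro e he
    rw [Finset.mem_coe, Finset.mem_filter, Finset.mem_range] at he
    obtain ⟨h2, h3, h4⟩ := e_spec2 e (by omega)
    have hne : f (eI e) ≠ f (eJ e) := hne' (by omega) h3 (by omega)
    rw [Finset.mem_coe, Finset.mem_filter]
    refine ⟨Finset.mem_univ _, ?_, ?_⟩
    · exact min_lt_max.2 hne
    · have h5 := H.col (eI e) (eJ e) h2 h3
      rw [lab_eq_od, h4, he.2] at h5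
      show F.c (min (f (eI e)) (f (eJ e))) (max (f (eI e)) (f (eJ e))) = g a
      rcases le_total (f (eI e)) (f (eJ e)) with h6 | h6
      · rw [min_eq_left h6, max_eq_right h6]; exact h5
      · rw [min_eq_right h6, max_eq_left h6, F.symm]; exact h5
  · intro e he e' he' hee
    rw [Finset.mem_coe, Finset.mem_filter, Finset.mem_range] at he he'
    obtain ⟨h2, h3, h4⟩ := e_spec2 e (by omega)
    obtain ⟨h2', h3', h4'⟩ := e_spec2 e' (by omega)
    simp only [Prod.mk.injEq] at hee
    obtain ⟨h5, h6⟩ := hee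
    have key : (f (eI e) = f (eI e') ∧ f (eJ e) = f (eJ e')) ∨
        (f (eI e) = f (eJ e') ∧ f (eJ e) = f (eI e')) := by
      rcases le_total (f (eI e)) (f (eJ e)) with h7 | h7 <;>
      rcases le_total (f (eI e')) (f (eJ e')) with h8 | h8
      · rw [min_eq_left h7, min_eq_left h8] at h5
        rw [max_eq_right h7, max_eq_right h8] at h6
        exact Or.inl ⟨h5, h6⟩
      · rw [min_eq_left h7, min_eq_right h8] at h5
        rw [max_eq_right h7, max_eq_left h8] at h6
        exact Or.inr ⟨h5, h6⟩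
      · rw [min_eq_right h7, min_eq_left h8] at h5
        rw [max_eq_left h7, max_eq_right h8] at h6
        exact Or.inr ⟨h6, h5⟩
      · rw [min_eq_right h7, min_eq_right h8] at h5
        rw [max_eq_left h7, max_eq_left h8] at h6
        exact Or.inl ⟨h6, h5⟩
    rcases key with ⟨h7, h8⟩ | ⟨h7, h8⟩
    · have a1 := H.inj _ _ (by omega) (by omega) h7
      have a2 := H.inj _ _ h3 h3' h8
      rw [← h4, ← h4', a1, a2]
    · have a1 := H.inj _ _ (by omega) h3' h7
      have a2 := H.inj _ _ h3 (by omega) h8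
      omega

theorem szok_sound {F : Conf 9} {f : ℕ → Fin 9} {g : ℕ → Fin 8} {P x : ℕ} (H : Occ F 7 f g P)
    (h : szok P x = true) : False := by
  obtain ⟨h1, h⟩ := cond_and h
  obtain ⟨h2, h⟩ := cond_and h
  have hx1 := Nat.le_of_ble_eq_true h1
  have hx9 := Nat.le_of_ble_eq_true h2
  have hh := Nat.le_of_ble_eq_true h
  have hh' : 10 ≤ x + (b2 (Nat.ble x (cnt 0 20 P)) + b2 (Nat.ble x (cnt 1 20 P)) +
      b2 (Nat.ble x (cnt 2 20 P)) + b2 (Nat.ble x (cnt 3 20 P)) + b2 (Nat.ble x (cnt 4 20 P)) +
      b2 (Nat.ble x (cnt 5 20 P))) := hh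
  have hb : ∀ a, b2 (Nat.ble x (cnt a 20 P)) ≤ if x ≤ (g a).val + 1 then 1 else 0 := by
    intro a
    unfold b2
    by_cases h1 : x ≤ cnt a 20 P
    · have h2 := occ_card_le H (n := 20) (a := a) (by norm_num)
      rw [← cnt_eq] at h2
      rw [if_pos (by omega)]
      cases Nat.ble x (cnt a 20 P) <;> simp
    · have h2 : Nat.ble x (cnt a 20 P) = false := by
        rw [← Bool.not_eq_true, Nat.ble_eq]; exact h1
      rw [h2]
      simp
  have h2 : (∑ a ∈ Finset.range 6, if x ≤ (g a).val + 1 then 1 else 0) ≤ 9 - x := by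
    rw [← Finset.card_filter]
    have h3 : ((Finset.range 6).filter (fun a => x ≤ (g a).val + 1)).card ≤
        ((Finset.Icc (x - 1) 7)).card := by
      apply Finset.card_le_card_of_injOn (fun a => (g a).val)
      · intro a ha
        rw [Finset.mem_coe, Finset.mem_filter, Finset.mem_range] at ha
        rw [Finset.mem_coe, Finset.mem_Icc]
        have := (g a).isLt
        simp only
        omega
      · intro a ha b hb' hab
        rw [Finset.mem_coe, Finset.mem_filter, Finset.mem_range] at ha hb'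
        exact H.ginj a b (by omega) (by omega) (Fin.ext hab)
    rw [Nat.card_Icc] at h3
    omega
  simp only [Finset.sum_range_succ, Finset.sum_range_zero] at h2
  have := hb 0
  have := hb 1
  have := hb 2
  have := hb 3
  have := hb 4
  have := hb 5
  omega


/-! ### The walk over the sixth points -/

theorem conv_spec (σ w X : ℕ) : ∀ i, i < 5 → od (conv σ w X) i = dg3 σ (dg3 X (dg3 w i)) := by
  have h : ∀ i, dgs σ (dgs X (dgs w i)) < 8 := fun i => dg3_lt _ _
  have h0 := h 0
  have h1 := h 1
  have h2 := h 2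
  have h3 := h 3
  have h4 := h 4
  have e : conv σ w X = dgs σ (dgs X (dgs w 0)) + 8 * (dgs σ (dgs X (dgs w 1)) + 8 *
    (dgs σ (dgs X (dgs w 2)) + 8 * (dgs σ (dgs X (dgs w 3)) +
      8 * dgs σ (dgs X (dgs w 4))))) := rfl
  intro i hi
  show od (conv σ w X) i = dgs σ (dgs X (dgs w i))
  rw [e]
  unfold od
  interval_cases i
  · norm_num; omega
  · norm_num; omega
  · norm_num; omega
  · norm_num; omega
  · norm_num; omega

theorem memX_spec (σ w v : ℕ) : ∀ W, memX σ w v W = true → ∃ X ∈ W, conv σ w X = v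
  | [], h => absurd h Bool.false_ne_true
  | X :: W, h => by
    rcases cond_or (a := Nat.beq (conv σ w X) v) (b := memX σ w v W) h with h | h
    · exact ⟨X, List.mem_cons_self, Nat.eq_of_beq_eq_true h⟩
    · obtain ⟨Y, h1, h2⟩ := memX_spec σ w v W h
      exact ⟨Y, List.mem_cons_of_mem _ h1, h2⟩

theorem cond_split {a b c : Bool} (h : cond a b c = true) :
    (a = true ∧ b = true) ∨ (a = false ∧ c = true) := by
  cases a
  · exact Or.inr ⟨rfl, h⟩
  · exact Or.inl ⟨rfl, h⟩

theorem rsn_sound {F : Conf 9} {T5 E6 T4 E5 : ℕ → ℕ} (hF : TabF F T5 E6 T4 E5) {σ w : ℕ}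
    {W : List ℕ} {P v H : ℕ} (h : rsn T5 E6 T4 E5 σ w W P v H = true) :
    (∀ f g, ¬ Occ F 7 f g P) ∨ ∃ X ∈ W, conv σ w X = v := by
  unfold rsn at h
  rcases cond_split h with ⟨-, h⟩ | ⟨-, h⟩
  · exact Or.inl fun f g ho => k6ok_sound hF h ho
  rcases cond_split h with ⟨-, h⟩ | ⟨-, h⟩
  · exact Or.inl fun f g ho => k5ok_sound hF h ho
  rcases cond_split h with ⟨-, h⟩ | ⟨-, h⟩
  · exact Or.inr (memX_spec σ w v W h)
  · exact Or.inl fun f g ho => szok_sound ho (cond_and h).2

theorem walk_sound {F : Conf 9} {T5 E6 T4 E5 : ℕ → ℕ} (hF : TabF F T5 E6 T4 E5)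
    {ok : ℕ → ℕ → Bool} (hok : ∀ P C, ok P C = true → ¬ Realk 7 8 P) {k B σ w : ℕ} {W : List ℕ} :
    ∀ (RT : List ℕ) (H : ℕ) (C : List ℕ), walk T5 E6 T4 E5 ok k B σ w W RT H C = true →
      ∀ e ∈ RT, k ≤ e >>> 33 →
        (∀ f g, ¬ Occ F 7 f g (PP B e)) ∨ ∃ X ∈ W, conv σ w X = e &&& 32767
  | [], _, _, _, e, he, _ => absurd he List.not_mem_nil
  | a :: RT, H, C, h, e, he, hk => by
    have h0 : walk T5 E6 T4 E5 ok k B σ w W (a :: RT) H C =
      cond (Nat.ble k (Nat.shiftRight a 33))
        (cond (Nat.beq (Nat.land H 7) 3)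
          (List.rec (motive := fun _ => Bool) false
            (fun c C' _ => cond (ok (PP B a) c)
              (walk T5 E6 T4 E5 ok k B σ w W RT (Nat.shiftRight H 36) C') false) C)
          (cond (rsn T5 E6 T4 E5 σ w W (PP B a) (Nat.land a 32767) H)
            (walk T5 E6 T4 E5 ok k B σ w W RT (Nat.shiftRight H 36) C) false))
        (walk T5 E6 T4 E5 ok k B σ w W RT H C) := rfl
    rw [h0] at h
    rcases cond_split h with ⟨h1, h⟩ | ⟨h1, h⟩
    · rcases cond_split h with ⟨h2, h⟩ | ⟨h2, h⟩
      · cases C with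
        | nil => exact absurd h Bool.false_ne_true
        | cons c C' =>
          obtain ⟨h3, h4⟩ := cond_and h
          rcases List.mem_cons.1 he with rfl | he
          · exact Or.inl fun f g ho => hok _ _ h3 ho.real
          · exact walk_sound hF hok RT _ _ h4 e he hk
      · obtain ⟨h3, h4⟩ := cond_and h
        rcases List.mem_cons.1 he with rfl | he
        · exact rsn_sound hF h3
        · exact walk_sound hF hok RT _ _ h4 e he hk
    · rcases List.mem_cons.1 he with rfl | he
      · have : Nat.ble k (Nat.shiftRight e 33) = true := Nat.ble_eq_true_of_le hk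
        rw [this] at h1
        exact absurd h1.symm Bool.false_ne_true
      · exact walk_sound hF hok RT _ _ h e he hk

/-! ### The items -/

theorem mpc_spec (P σ h : ℕ) : ∀ (L : List ℕ) (o e0 : ℕ),
    (∀ t, ∀ ht : t < L.length, L[t] >>> 10 = 3 * (e0 + t)) → (∀ e, e0 ≤ e → dg3 o e = 0) →
    (∀ e, e < e0 → dg3 (mpc P σ h L o) e = dg3 o e) ∧
    (∀ e, e0 + L.length ≤ e → dg3 (mpc P σ h L o) e = 0) ∧
    ∀ t, ∀ ht : t < L.length, dg3 (mpc P σ h L o) (e0 + t) = dg3 σ (el P h L[t]) := by
  intro L
  induction L with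
  | nil =>
    intro o e0 _ ho
    refine ⟨fun _ _ => rfl, fun e he => ho e (by simpa using he), ?_⟩
    intro t ht
    simp at ht
  | cons q L ih =>
    intro o e0 hq ho
    have hq0 : q >>> 10 = 3 * e0 := by
      have := hq 0 (by simp)
      simpa using this
    have hq' : ∀ t, ∀ ht : t < L.length, L[t] >>> 10 = 3 * (e0 + 1 + t) := by
      intro t ht
      have := hq (t + 1) (by simpa using ht)
      simp only [List.getElem_cons_succ] at this
      rw [this]
      ring
    have h0 : mpc P σ h (q :: L) o =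
        mpc P σ h L (o ||| (dg3 σ (el P h q)) <<< (q >>> 10)) := rfl
    have ho1 : ∀ e, dg3 (o ||| dg3 σ (el P h q) <<< (3 * e0)) e =
        dg3 o e ||| dg3 (dg3 σ (el P h q) <<< (3 * e0)) e := fun e => dg3_or _ _ _
    obtain ⟨a1, a2, a3⟩ := ih (o ||| dg3 σ (el P h q) <<< (3 * e0)) (e0 + 1) hq' (by
      intro e he
      rw [ho1, ho e (by omega), dg3_shift _ _ _ (dg3_lt _ _), if_neg (by omega), Nat.zero_or])
    rw [h0, hq0]
    refine ⟨?_, ?_, ?_⟩
    · intro e he
      rw [a1 e (by omega), ho1, dg3_shift _ _ _ (dg3_lt _ _), if_neg (by omega), Nat.or_zero]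
    · intro e he
      exact a2 e (by simp only [List.length_cons] at he; omega)
    · intro t ht
      cases t with
      | zero =>
        simp only [List.getElem_cons_zero, Nat.add_zero]
        rw [a1 e0 (by omega), ho1, ho e0 le_rfl, dg3_shift _ _ _ (dg3_lt _ _), if_pos rfl,
          Nat.zero_or]
      | succ t =>
        simp only [List.getElem_cons_succ]
        have ht' : t < L.length := by simpa using ht
        have := a3 t ht'
        rw [← this]
        congr 1
        ring

/-- `k` is the minimal rank of an occurrence of a representative -/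
def MinRank (nr : ℕ) (reps : ℕ → ℕ) (F : Conf 9) (k : ℕ) : Prop :=
  ∀ k' f' g', k' < nr → GoodG g' → Occ F 6 f' g' (reps k') → k ≤ k'

/-- **the statement of level 7** for the vertex `s` of the pattern of rank `k`: for the partner `t` of
this vertex the star is in the list `W` -/
def V7 (nr : ℕ) (reps : ℕ → ℕ) (k s : ℕ) (W : List ℕ) : Prop :=
  ∀ (F : Conf 9) (f : ℕ → Fin 9) (g : ℕ → Fin 8), Occ F 6 f g (reps k) → GoodG g →
    MinRank nr reps F k → ∀ t, (∀ i, i < 6 → f i ≠ t) → (F.c (f s) t).val < 2 →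
    (∀ i, i < 6 → i ≠ s → 2 ≤ (F.c (f i) t).val) →
    ∃ X ∈ W, ∀ i, i < 6 → i ≠ s → F.c (f i) t = g (od X i)

theorem goodG_surj {g : ℕ → Fin 8} (hg : GoodG g)
    (hi : ∀ a b, a < 8 → b < 8 → g a = g b → a = b) (c : Fin 8) (hc : 2 ≤ c.val) :
    ∃ a, a < 6 ∧ g a = c := by
  classical
  have h1 : (Finset.range 6).image g ⊆ Finset.univ.filter fun c : Fin 8 => 2 ≤ c.val := by
    intro x hx
    obtain ⟨a, ha, rfl⟩ := Finset.mem_image.1 hx
    exact Finset.mem_filter.2 ⟨Finset.mem_univ _, hg a (Finset.mem_range.1 ha)⟩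
  have h2 : ((Finset.range 6).image g).card = 6 := by
    rw [Finset.card_image_of_injOn, Finset.card_range]
    intro a ha b hb hab
    have ha' := Finset.mem_range.1 (Finset.mem_coe.1 ha)
    have hb' := Finset.mem_range.1 (Finset.mem_coe.1 hb)
    exact hi a b (by omega) (by omega) hab
  have h3 : (Finset.univ.filter fun c : Fin 8 => 2 ≤ c.val).card = 6 := by decide
  have h4 := Finset.eq_of_subset_of_card_le h1 (by rw [h2, h3])
  have h5 : c ∈ (Finset.range 6).image g := by
    rw [h4]
    exact Finset.mem_filter.2 ⟨Finset.mem_univ _, hc⟩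
  obtain ⟨a, ha, h⟩ := Finset.mem_image.1 h5
  exact ⟨a, Finset.mem_range.1 ha, h⟩

/-- the number with given digits -/
def mk (a : ℕ → ℕ) : ℕ → ℕ
  | 0 => 0
  | n + 1 => a 0 + 8 * mk (fun i => a (i + 1)) n

theorem od_mk : ∀ (n : ℕ) (a : ℕ → ℕ), (∀ i, i < n → a i < 8) →
    mk a n < 8 ^ n ∧ ∀ i, i < n → od (mk a n) i = a i
  | 0, a, _ => ⟨by simp [mk], fun i hi => absurd hi (Nat.not_lt_zero i)⟩
  | n + 1, a, h => by
    obtain ⟨h1, h2⟩ := od_mk n (fun i => a (i + 1)) (fun i hi => h (i + 1) (by omega))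
    have h0 := h 0 (by omega)
    unfold mk
    constructor
    · rw [pow_succ]
      omega
    · intro i hi
      rcases Nat.eq_zero_or_pos i with rfl | h3
      · unfold od
        rw [pow_zero, Nat.div_one]
        omega
      · obtain ⟨d, rfl⟩ := Nat.exists_eq_add_of_le h3
        have e : od (a 0 + 8 * mk (fun i => a (i + 1)) n) (1 + d) =
            od (mk (fun i => a (i + 1)) n) d := by
          rw [← od_div, pow_one]
          congr 1
          omega
        rw [e, h2 d (by omega), Nat.add_comm 1 d]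

/-- the check of an item proves the statement of level 7 for the vertex -/
theorem item_sound {nr : ℕ} {T5 E6 T4 E5 reps : ℕ → ℕ} {RT : ℕ → List ℕ} {ok : ℕ → ℕ → Bool}
    (hF : ∀ F, TabF F T5 E6 T4 E5) (hok : ∀ P C, ok P C = true → ¬ Realk 7 8 P)
    (hlab : ∀ r, r < nr → ∀ t, t < 15 → od (reps r) t < 6) {k s w σ j H : ℕ} {C W : List ℕ}
    (hk : k < nr) (hj : j < 1205) (hrt : rtOK nr T5 E6 reps j (RT j) = true)
    (h : item T5 E6 T4 E5 reps RT ok k s w σ j H C W = true) : V7 nr reps k s W := by
  obtain ⟨h1, h⟩ := cond_and h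
  obtain ⟨h2, h⟩ := cond_and h
  obtain ⟨h3, h⟩ := cond_and h
  obtain ⟨h4, h⟩ := cond_and h
  obtain ⟨h5, h⟩ := cond_and h
  have pw := isP6_pm h1
  have pσ := isP6_pm h2
  have hσ : σ >>> 18 = 62 := Nat.eq_of_beq_eq_true h3
  have hs : dg3 w 5 = s := Nat.eq_of_beq_eq_true h4
  have hN5 := Nat.eq_of_beq_eq_true h5
  set N := mpc (reps k) σ w EL6 0 with hN
  have σ6 : dg3 σ 6 = 6 := by
    unfold dg3
    rw [show 3 * 6 = 18 from rfl, hσ]
    rfl
  have σ7 : dg3 σ 7 = 7 := by
    unfold dg3
    rw [show 3 * 7 = 18 + 3 from rfl, Nat.shiftRight_add, hσ]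
    rfl
  -- the permutation of the labels
  have σlt : ∀ a, a < 8 → dg3 σ a < 8 := fun a _ => dg3_lt _ _
  have σlt6 : ∀ a, a < 6 → dg3 σ a < 6 := pσ.lt
  have σinj : ∀ a b, a < 8 → b < 8 → dg3 σ a = dg3 σ b → a = b := by
    intro a b ha hb hab
    rcases Nat.lt_or_ge a 6 with ha6 | ha6
    · have l1 := σlt6 a ha6
      rcases Nat.lt_or_ge b 6 with hb6 | hb6
      · exact pσ.inj a b ha6 hb6 hab
      · have hb' : b = 6 ∨ b = 7 := by omega
        rcases hb' with rfl | rfl <;> omega
    · have ha' : a = 6 ∨ a = 7 := by omega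
      rcases Nat.lt_or_ge b 6 with hb6 | hb6
      · have l1 := σlt6 b hb6
        rcases ha' with rfl | rfl <;> omega
      · have hb' : b = 6 ∨ b = 7 := by omega
        rcases ha' with rfl | rfl <;> rcases hb' with rfl | rfl <;> omega
  have σsurj : ∀ b, b < 8 → ∃ a, a < 8 ∧ dg3 σ a = b := by
    intro b hb
    rcases Nat.lt_or_ge b 6 with hb6 | hb6
    · obtain ⟨a, ha, h⟩ := pσ.surj b hb6
      exact ⟨a, by omega, h⟩
    · have hb' : b = 6 ∨ b = 7 := by omega
      rcases hb' with rfl | rfl
      · exact ⟨6, by norm_num, σ6⟩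
      · exact ⟨7, by norm_num, σ7⟩
  choose! τ τlt τσ using σsurj
  have στ : ∀ a, a < 8 → τ (dg3 σ a) = a := fun a ha =>
    σinj _ _ (τlt _ (σlt a ha)) ha (τσ _ (σlt a ha))
  have τinj : ∀ a b, a < 8 → b < 8 → τ a = τ b → a = b := by
    intro a b ha hb hab
    rw [← τσ a ha, ← τσ b hb, hab]
  intro F f g ho hg hmin t hft hbad hbig
  -- all edges of the six points are big
  have hbig6 : ∀ i j, i < 6 → j < 6 → i ≠ j → 2 ≤ (F.c (f i) (f j)).val := by
    intro i j hi hj hij
    rw [ho.col' hi hj hij]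
    apply hg
    unfold labs
    have key : ∀ i j, i < j → j < 6 → lab (reps k) i j < 6 := by
      intro i j hij hj
      rw [lab_eq_od]
      apply hlab k hk
      unfold eo
      interval_cases j <;> omega
    split_ifs with hlt
    · exact key i j hlt hj
    · exact key j i (by omega) hi
  -- the labelling with the colour of the bad edge at the label 6
  set c0 := F.c (f s) t with hc0
  set c1 : Fin 8 := if c0 = 0 then 1 else 0 with hc1
  have hc01 : c0 ≠ c1 ∧ c1.val < 2 := by
    have h01 : c0 = 0 ∨ c0 = 1 := by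
      have : c0.val = 0 ∨ c0.val = 1 := by omega
      rcases this with h | h
      · exact Or.inl (Fin.ext h)
      · exact Or.inr (Fin.ext h)
    rcases h01 with h | h
    · rw [hc1, h, if_pos rfl]; exact ⟨by decide, by decide⟩
    · rw [hc1, h, if_neg (by decide)]; exact ⟨by decide, by decide⟩
  set g0 : ℕ → Fin 8 := fun a => if a = 6 then c0 else if a = 7 then c1 else g a with hg0
  have g06 : g0 6 = c0 := rfl
  have g07 : g0 7 = c1 := rfl
  have g0lt : ∀ a, a < 6 → g0 a = g a := fun a ha => by
    show (if a = 6 then c0 else if a = 7 then c1 else g a) = g a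
    rw [if_neg (by omega), if_neg (by omega)]
  have g0inj : ∀ a b, a < 8 → b < 8 → g0 a = g0 b → a = b := by
    have aux : ∀ a b, a < b → b < 8 → g0 a ≠ g0 b := by
      intro a b hab hb he
      rcases Nat.lt_or_ge a 6 with ha6 | ha6
      · have l1 := hg a ha6
        rw [g0lt a ha6] at he
        rcases Nat.lt_or_ge b 6 with hb6 | hb6
        · rw [g0lt b hb6] at he
          have := ho.ginj a b (by omega) (by omega) he
          omega
        · have hb' : b = 6 ∨ b = 7 := by omega
          rcases hb' with rfl | rfl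
          · rw [g06] at he; rw [he] at l1; omega
          · rw [g07] at he; rw [he] at l1; omega
      · have e1 : a = 6 := by omega
        have e2 : b = 7 := by omega
        rw [e1, e2, g06, g07] at he
        exact hc01.1 he
    intro a b ha hb hab
    by_contra hne
    rcases Nat.lt_or_gt_of_ne hne with h | h
    · exact aux a b h hb hab
    · exact aux b a h ha hab.symm
  -- the labels of the star
  have hstar : ∀ i, i < 5 → ∃ a, a < 6 ∧ g a = F.c (f (dg3 w i)) t := by
    intro i hi
    apply goodG_surj hg ho.ginj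
    apply hbig _ (pw.lt i (by omega))
    intro he
    have := pw.inj i 5 (by omega) (by norm_num) (by rw [he, hs])
    omega
  choose! a alt ag using hstar
  set v := mk (fun i => dg3 σ (a i)) 5 with hv
  obtain ⟨v8, vd⟩ := od_mk 5 (fun i => dg3 σ (a i)) (fun i hi => dg3_lt _ _)
  rw [← hv] at v8 vd
  have vd6 : ∀ i, i < 5 → od v i < 6 := fun i hi => by
    rw [vd i hi]
    exact σlt6 _ (alt i hi)
  -- the digits of N
  obtain ⟨-, N2, N3⟩ := mpc_spec (reps k) σ w EL6 0 0
    (fun t ht => by rw [edgeList6.shift t ht, Nat.zero_add]) (fun e _ => dg3_zero e)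
  rw [← hN] at N2 N3
  have N8 : N < 8 ^ 15 := lt_of_od N 15 (fun e he => by
    rw [← dg3_eq]
    exact N2 e (by simpa [EL6] using he))
  have Nlab : ∀ i j, i < j → j < 6 →
      od N (eo i j) = dg3 σ (labs (reps k) (dg3 w i) (dg3 w j)) := by
    intro i j hij hj
    obtain ⟨ht, e1, e2⟩ := edgeList6.edge j hj i hij
    have h6 := N3 (eo i j) ht
    rw [Nat.zero_add, dg3_eq] at h6
    rw [h6]
    congr 1
    have hne : dg3 w i ≠ dg3 w j := fun he => by
      have := pw.inj i j (by omega) hj he
      omega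
    rw [← sl_eq (reps k) _ _ (by have := pw.lt i (by omega); omega)
      (by have := pw.lt j hj; omega) hne]
    show sl (reps k) ((w >>> (EL6[eo i j] &&& 31)) &&& 7)
      ((w >>> ((EL6[eo i j] >>> 5) &&& 31)) &&& 7) = _
    rw [e1, e2]
    rfl
  have hlabs8 : ∀ i j, labs (reps k) i j < 8 := fun i j => labs_lt _ _ _
  have hlabs6 : ∀ i j, i < 6 → j < 6 → i ≠ j → labs (reps k) i j < 6 := by
    intro i j hi hj hij
    unfold labs
    have key : ∀ i j, i < j → j < 6 → lab (reps k) i j < 6 := by
      intro i j hij hj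
      rw [lab_eq_od]
      apply hlab k hk
      unfold eo
      interval_cases j <;> omega
    split_ifs with hlt
    · exact key i j hlt hj
    · exact key j i (by omega) hi
  have Ncol : ∀ i j, i < j → j < 6 →
      F.c (f (dg3 w i)) (f (dg3 w j)) = g0 (τ (od N (eo i j))) := by
    intro i j hij hj
    have hne : dg3 w i ≠ dg3 w j := fun he => by
      have := pw.inj i j (by omega) hj he
      omega
    rw [Nlab i j hij hj, στ _ (hlabs8 _ _),
      g0lt _ (hlabs6 _ _ (pw.lt i (by omega)) (pw.lt j hj) hne),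
      ho.col' (pw.lt i (by omega)) (pw.lt j hj) hne]
  have vcol : ∀ i, i < 5 → F.c (f (dg3 w i)) t = g0 (τ (od v i)) := by
    intro i hi
    rw [vd i hi, στ _ (by have := alt i hi; omega), g0lt _ (alt i hi), ag i hi]
  have T5N : N % 8 ^ 10 = T5 j := by
    rw [← hN5]
    exact (Nat.and_two_pow_sub_one_eq_mod _ 30).symm
  have T58 : T5 j < 8 ^ 10 := by
    rw [← T5N]
    exact Nat.mod_lt _ (by positivity)
  -- the six points with t
  set f2 : ℕ → Fin 9 := fun i => if i = 5 then t else f (dg3 w i) with hf2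
  have f25 : f2 5 = t := rfl
  have f2lt : ∀ i, i ≠ 5 → f2 i = f (dg3 w i) := fun i hi => if_neg hi
  have hw5 : ∀ i, i < 5 → dg3 w i ≠ s := fun i hi he => by
    have := pw.inj i 5 (by omega) (by norm_num) (by rw [he, hs])
    omega
  have ho2 : Occ F 6 f2 (fun b => g0 (τ b)) (T5 j + v * 8 ^ 10) := by
    refine ⟨?_, ?_, ?_⟩
    · have aux : ∀ i j, i < j → j < 6 → f2 i ≠ f2 j := by
        intro i j hij hj he
        rw [f2lt i (by omega)] at he
        rcases Nat.lt_or_ge j 5 with hj5 | hj5
        · rw [f2lt j (by omega)] at he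
          have := pw.inj i j (by omega) hj
            (ho.inj _ _ (pw.lt i (by omega)) (pw.lt j hj) he)
          omega
        · have e5 : j = 5 := by omega
          rw [e5, f25] at he
          exact hft _ (pw.lt i (by omega)) he
      intro i j hi hj he
      by_contra hne
      rcases Nat.lt_or_gt_of_ne hne with h | h
      · exact aux i j h hj he
      · exact aux j i h hi he.symm
    · intro b b' hb hb' he
      exact τinj b b' hb hb' (g0inj _ _ (τlt b hb) (τlt b' hb') he)
    · intro i j hij hj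
      show F.c (f2 i) (f2 j) = g0 (τ (lab (T5 _ + v * 8 ^ 10) i j))
      rw [lab_eq_od, od_add _ _ _ _ T58, f2lt i (by omega)]
      rcases Nat.lt_or_ge j 5 with hj5 | hj5
      · have he : eo i j < 10 := by
          unfold eo
          interval_cases j <;> omega
        rw [if_pos he, f2lt j (by omega), ← T5N, od_mod, if_pos he]
        exact Ncol i j hij hj
      · have e5 : j = 5 := by omega
        subst e5
        have he : eo i 5 = 10 + i := rfl
        rw [he, if_neg (by omega), f25, show 10 + i - 10 = i by omega]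
        exact vcol i (by omega)
  obtain ⟨-, e, heRT, hev, pp, hern, henrm⟩ := rt_complete (hF F) hj hrt v8 vd6 ho2
  -- the rank of these six points
  have hrank : k ≤ e >>> 33 := by
    obtain ⟨⟨g', ho'⟩, -⟩ := ho2.nrm (by norm_num) edgeList6 (e >>> 15) pp.lt pp.inj
    rw [henrm] at ho'
    have hb2 : ∀ i j, i < 6 → j < 6 → i ≠ j → 2 ≤ (F.c (f2 i) (f2 j)).val := by
      have aux : ∀ i j, i < j → j < 6 → 2 ≤ (F.c (f2 i) (f2 j)).val := by
        intro i j hij hj
        rw [f2lt i (by omega)]
        rcases Nat.lt_or_ge j 5 with hj5 | hj5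
        · rw [f2lt j (by omega)]
          exact hbig6 _ _ (pw.lt i (by omega)) (pw.lt j hj) (fun he => by
            have := pw.inj i j (by omega) hj he
            omega)
        · have e5 : j = 5 := by omega
          rw [e5, f25]
          exact hbig _ (pw.lt i (by omega)) (hw5 i (by omega))
      intro i j hi hj hij
      rcases Nat.lt_or_gt_of_ne hij with h | h
      · exact aux i j h hj
      · rw [F.symm]
        exact aux j i h hi
    obtain ⟨g'', ho'', hg''⟩ := ho'.big (fun i j hij hj => by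
        rw [lab_eq_od]
        apply hlab _ hern
        unfold eo
        interval_cases j <;> omega) (fun i j hij hj => by
        apply hb2 _ _ (pp.lt i (by omega)) (pp.lt j hj)
        intro he
        have := pp.inj i j (by omega) hj he
        omega)
    exact hmin _ _ _ hern hg'' ho''
  -- the seven points
  set f3 : ℕ → Fin 9 := fun i => if i = 6 then t else f (dg3 w i) with hf3
  have f36 : f3 6 = t := rfl
  have f3lt : ∀ i, i ≠ 6 → f3 i = f (dg3 w i) := fun i hi => if_neg hi
  have hPP : PP (Nat.add N 6917529027641081856) e = N + (v + 6 * 8 ^ 5) * 8 ^ 15 := by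
    show (N + 6917529027641081856) + (e &&& 32767) <<< 45 = _
    rw [hev, Nat.shiftLeft_eq]
    ring
  have ho3 : Occ F 7 f3 (fun b => g0 (τ b)) (PP (Nat.add N 6917529027641081856) e) := by
    rw [hPP]
    refine ⟨?_, ?_, ?_⟩
    · have aux : ∀ i j, i < j → j < 7 → f3 i ≠ f3 j := by
        intro i j hij hj he
        rw [f3lt i (by omega)] at he
        rcases Nat.lt_or_ge j 6 with hj6 | hj6
        · rw [f3lt j (by omega)] at he
          have := pw.inj i j (by omega) hj6
            (ho.inj _ _ (pw.lt i (by omega)) (pw.lt j hj6) he)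
          omega
        · have e6 : j = 6 := by omega
          rw [e6, f36] at he
          exact hft _ (pw.lt i (by omega)) he
      intro i j hi hj he
      by_contra hne
      rcases Nat.lt_or_gt_of_ne hne with h | h
      · exact aux i j h hj he
      · exact aux j i h hi he.symm
    · intro b b' hb hb' he
      exact τinj b b' hb hb' (g0inj _ _ (τlt b hb) (τlt b' hb') he)
    · intro i j hij hj
      show F.c (f3 i) (f3 j) = g0 (τ (lab (N + (v + 6 * 8 ^ 5) * 8 ^ 15) i j))
      rw [lab_eq_od, od_add _ _ _ _ N8, f3lt i (by omega)]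
      rcases Nat.lt_or_ge j 6 with hj6 | hj6
      · have he : eo i j < 15 := by
          unfold eo
          interval_cases j <;> omega
        rw [if_pos he, f3lt j (by omega)]
        exact Ncol i j hij hj6
      · have e6 : j = 6 := by omega
        subst e6
        have he : eo i 6 = 15 + i := rfl
        rw [he, if_neg (by omega), f36, show 15 + i - 15 = i by omega, od_add _ _ _ _ v8]
        rcases Nat.lt_or_ge i 5 with hi5 | hi5
        · rw [if_pos hi5]
          exact vcol i hi5
        · have e5 : i = 5 := by omega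
          subst e5
          rw [if_neg (by omega), hs]
          have e66 : od 6 (5 - 5) = 6 := rfl
          have τ6 : τ 6 = 6 := by
            have := στ 6 (by norm_num)
            rwa [σ6] at this
          rw [e66, τ6]
          exact g06.symm
  rcases walk_sound (hF F) hok (RT j) H C h e heRT hrank with h6 | ⟨X, hX, hXv⟩
  · exact absurd ho3 (h6 _ _)
  · refine ⟨X, hX, ?_⟩
    intro i hi his
    obtain ⟨b, hb, hbi⟩ := pw.surj i hi
    have hb5 : b < 5 := by
      by_contra hh
      have : b = 5 := by omega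
      rw [this, hs] at hbi
      exact his hbi.symm
    have h7 := conv_spec σ w X b hb5
    rw [hXv, hev, vd b hb5, hbi] at h7
    have h8 := σinj _ _ (by have := alt b hb5; omega) (dg3_lt X i) h7
    rw [← hbi, ← ag b hb5, h8, dg3_eq, hbi]

end CR.L7
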