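import Pool.Agent.Lib.MP_6f5d36_co.Link7
import Pool.Agent.Lib.MP_6f5d36_co.VP7

set_option autoImplicit false
set_option maxRecDepth 100000

/-!
# MP_6f5d36_co : the fast checker of level 7 is correct
-/

namespace CR.F7

open CR.L7

/-! ### The tables of the arrangements and of the permutations of the labels -/

/-- the arrangement number `n` -/
def vp (n : ℕ) : ℕ := Nat.land (Nat.shiftRight VPT (Nat.mul 21 n)) 2097151

/-- three times the position of the edge with the description `q` -/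
def sy (h q : ℕ) : ℕ :=
  Nat.land (Nat.shiftRight SYM (Nat.add
    (Nat.mul 128 (Nat.land (Nat.shiftRight h (Nat.land q 31)) 7))
    (Nat.mul 8 (Nat.land (Nat.shiftRight h (Nat.land (Nat.shiftRight q 5) 31)) 7)))) 127

noncomputable def fchk (V h : ℕ) (L : List ℕ) : Bool :=
  List.rec (motive := fun _ => Bool) true (fun q _ ih =>
    cond (Nat.beq (Nat.land (Nat.shiftRight V (Nat.mul 2 (Nat.shiftRight q 10))) 63) (sy h q))
      ih false) L

theorem fchk_spec (V h : ℕ) : ∀ L, fchk V h L = true → ∀ q ∈ L,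
    (V >>> (2 * (q >>> 10))) &&& 63 = sy h q
  | [], _, q, hq => absurd hq List.not_mem_nil
  | a :: L, h1, q, hq => by
    obtain ⟨h2, h3⟩ := cond_and (a := Nat.beq (Nat.land (Nat.shiftRight V (Nat.mul 2
      (Nat.shiftRight a 10))) 63) (sy h a)) (b := fchk V h L) h1
    rcases List.mem_cons.1 hq with rfl | hq
    · exact Nat.eq_of_beq_eq_true h2
    · exact fchk_spec V h L h3 q hq

noncomputable def vchk (n : ℕ) : Bool := cond (isP7 (vp n)) (fchk (vt n) (vp n) EL6) false

noncomputable def schk (m : ℕ) : Bool :=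
  cond (isP7 (st m)) (Nat.beq (Nat.shiftRight (st m) 21) 7) false

noncomputable def vcks (a : ℕ) : Bool := CR.allN (fun b => vchk (Nat.add (Nat.mul 60 a) b)) 60

noncomputable def scks (a : ℕ) : Bool := CR.allN (fun b => schk (Nat.add (Nat.mul 60 a) b)) 60

theorem vchk_all : CR.allN vcks 60 = true := by decide +kernel

theorem schk_all : CR.allN scks 84 = true := by decide +kernel

theorem vchk_ok (n : ℕ) (hn : n < 3600) : vchk n = true := by
  have h1 := CR.allN_spec vchk_all (n / 60) (by omega)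
  have h2 := CR.allN_spec h1 (n % 60) (Nat.mod_lt _ (by norm_num))
  have h3 : Nat.add (Nat.mul 60 (n / 60)) (n % 60) = n := Nat.div_add_mod n 60
  simp only [h3] at h2
  exact h2

theorem schk_ok (m : ℕ) (hm : m < 5040) : schk m = true := by
  have h1 := CR.allN_spec schk_all (m / 60) (by omega)
  have h2 := CR.allN_spec h1 (m % 60) (Nat.mod_lt _ (by norm_num))
  have h3 : Nat.add (Nat.mul 60 (m / 60)) (m % 60) = m := Nat.div_add_mod m 60
  simp only [h3] at h2
  exact h2

/-! ### The new pattern -/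

theorem lb_eq {P s V h q : ℕ} (hV : (V >>> (2 * (q >>> 10))) &&& 63 = sy h q) :
    lb P s (V >>> (2 * (q >>> 10))) = dg3 s (el P h q) := by
  show dg3 s ((P >>> ((V >>> (2 * (q >>> 10))) &&& 63)) &&& 7) = _
  rw [hV]
  rfl

theorem mc6_eq (P s V : ℕ) : mc6 P s V = mk (fun e => lb P s (V >>> (6 * e))) 15 := rfl

theorem mc5_eq (P s V : ℕ) : mc5 P s V = mk (fun e => lb P s (V >>> (6 * e))) 10 := rfl

theorem lb_lt (P s p : ℕ) : lb P s p < 8 := dg3_lt _ _

/-- the labels -/
theorem st_perm {m : ℕ} (hm : m < 5040) :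
    (∀ a b, a < 8 → b < 8 → dg3 (st m) a = dg3 (st m) b → a = b) := by
  obtain ⟨h1, h2⟩ := cond_and (schk_ok m hm)
  have hp := isP7_pm h1
  have h7 : dg3 (st m) 7 = 7 := by
    have h3 : (st m) >>> 21 = 7 := Nat.eq_of_beq_eq_true h2
    unfold dg3
    rw [show 3 * 7 = 21 from rfl, h3]
    rfl
  intro a b ha hb hab
  rcases Nat.lt_or_ge a 7 with ha7 | ha7
  · rcases Nat.lt_or_ge b 7 with hb7 | hb7
    · exact hp.inj a b ha7 hb7 hab
    · have e : b = 7 := by omega
      rw [e, h7] at hab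
      have := hp.lt a ha7
      omega
  · have e : a = 7 := by omega
    rcases Nat.lt_or_ge b 7 with hb7 | hb7
    · rw [e, h7] at hab
      have := hp.lt b hb7
      omega
    · omega

/-- the inverse of an injection of the eight labels -/
theorem inv8 (q : ℕ → ℕ) (hq : ∀ a, a < 8 → q a < 8)
    (hi : ∀ a b, a < 8 → b < 8 → q a = q b → a = b) :
    ∃ τ : ℕ → ℕ, (∀ b, b < 8 → τ b < 8) ∧ (∀ a b, a < 8 → b < 8 → τ a = τ b → a = b) ∧
      ∀ a, a < 8 → τ (q a) = a := by
  have hs : ∀ b, b < 8 → ∃ a, a < 8 ∧ q a = b := by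
    intro b hb
    have h1 : Function.Injective (fun a : Fin 8 => (⟨q a.val, hq a.val a.isLt⟩ : Fin 8)) := by
      intro x y hxy
      exact Fin.ext (hi _ _ x.isLt y.isLt (Fin.mk.inj_iff.1 hxy))
    obtain ⟨a, ha⟩ := (Finite.injective_iff_surjective.1 h1) ⟨b, hb⟩
    exact ⟨a.val, a.isLt, Fin.mk.inj_iff.1 ha⟩
  choose! τ τlt τσ using hs
  refine ⟨τ, τlt, ?_, ?_⟩
  · intro a b ha hb hab
    rw [← τσ a ha, ← τσ b hb, hab]
  · intro a ha
    exact hi _ _ (τlt _ (hq a ha)) ha (τσ _ (hq a ha))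

/-- the new pattern occurs -/
theorem new_occ {F : Conf 9} {n m k K : ℕ} {L : List ℕ} (hL : EdgeList k L) (hk : k ≤ 6)
    (hLs : ∀ q ∈ L, q ∈ EL6) (hn : n < 3600) (hm : m < 5040) {f : ℕ → Fin 9} {g : ℕ → Fin 8}
    {P : ℕ} (ho : Occ F 7 f g P) (hK : L.length = K) :
    mk (fun e => lb P (st m) (vt n >>> (6 * e))) K < 8 ^ K ∧
    ∃ g', Occ F k (fun i => f (dg3 (vp n) i)) g'
      (mk (fun e => lb P (st m) (vt n >>> (6 * e))) K) := by
  obtain ⟨h1, h2⟩ := cond_and (vchk_ok n hn)
  have hp := isP7_pm h1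
  have hf := fchk_spec _ _ _ h2
  obtain ⟨q8, qd⟩ := od_mk K (fun e => lb P (st m) (vt n >>> (6 * e))) (fun i _ => lb_lt _ _ _)
  refine ⟨q8, ?_⟩
  obtain ⟨τ, τlt, τinj, τq⟩ := inv8 (dg3 (st m)) (fun a _ => dg3_lt _ _) (st_perm hm)
  refine ⟨_, ho.emb (dg3 (vp n)) τ (fun i hi => hp.lt i (by omega))
    (fun i j hi hj => hp.inj i j (by omega) (by omega)) τlt τinj ?_⟩
  intro i j hij hj
  obtain ⟨ht, e1, e2⟩ := hL.edge j hj i hij
  have h3 := hL.shift (eo i j) ht
  have h4 := hf L[eo i j] (hLs _ (List.getElem_mem ht))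
  have h5 := lb_eq (P := P) (s := st m) h4
  rw [lab_eq_od, qd (eo i j) (by rw [← hK]; exact ht)]
  show _ = τ (lb P (st m) (vt n >>> (6 * eo i j)))
  have h6 : 2 * (L[eo i j] >>> 10) = 6 * eo i j := by
    rw [h3]
    ring
  rw [h6] at h5
  rw [h5]
  have hne : dg3 (vp n) i ≠ dg3 (vp n) j := fun he => by
    have := hp.inj i j (by omega) (by omega) he
    omega
  have h7 : el P (vp n) L[eo i j] = labs P (dg3 (vp n) i) (dg3 (vp n) j) := by
    rw [← sl_eq P _ _ (by have := hp.lt i (by omega); omega)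
      (by have := hp.lt j (by omega); omega) hne]
    show sl P ((vp n >>> (L[eo i j] &&& 31)) &&& 7)
      ((vp n >>> ((L[eo i j] >>> 5) &&& 31)) &&& 7) = _
    rw [e1, e2]
    rfl
  rw [h7, τq _ (labs_lt _ _ _)]

/-! ### The vectors which are not allowed -/

theorem G_eq (j : ℕ) : (cond (Nat.ble 643 j) G6 (cond (Nat.ble 527 j) G5 G4)) = L6.GG j := by
  have h4 : G4 = L6.GM4 := by decide +kernel
  have h5 : G5 = L6.GM5 := by decide +kernel
  have h6 : G6 = L6.GM6 := by decide +kernel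
  unfold L6.GG
  cases Nat.ble 643 j
  · cases Nat.ble 527 j
    · exact h4
    · exact h5
  · exact h6

theorem ON_aux : Nat.beq ON L6.ONES = true := by decide +kernel

theorem NG_spec {j u : ℕ} (hj : j < 1205) (h : (NG j).testBit u = true) :
    gro 5 (L6.KK j) u ∧ (Tab.E6 j).testBit u = false := by
  have h1 : ((cond (Nat.ble 643 j) G6 (cond (Nat.ble 527 j) G5 G4)) &&&
    (Tab.E6 j ^^^ ON)).testBit u = true := h
  have h3 : ON = L6.ONES := Nat.eq_of_beq_eq_true ON_aux
  rw [G_eq, h3, E6_eq j hj] at h1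
  rw [E6_eq j hj]
  exact L6.NN_spec j u h1

/-- growth with seven labels -/
noncomputable def grb7 (n : ℕ) : ℕ → ℕ → Bool :=
  Nat.rec (motive := fun _ => ℕ → ℕ → Bool) (fun _ u => Nat.beq u 0)
    (fun _ ih K u => cond (Nat.ble K (Nat.land u 7)) false
      (ih (cond (Nat.beq (Nat.succ (Nat.land u 7)) K) (cond (Nat.ble 7 K) K (Nat.succ K)) K)
        (Nat.shiftRight u 3))) n

theorem grb7_spec : ∀ n K u, grb7 n K u = true → grn 7 n K u
  | 0, K, u, h => Nat.eq_of_beq_eq_true h
  | n + 1, K, u, h => by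
    have h0 : grb7 (n + 1) K u = cond (Nat.ble K (u &&& 7)) false
      (grb7 n (cond (Nat.beq (Nat.succ (u &&& 7)) K) (cond (Nat.ble 7 K) K (Nat.succ K)) K)
        (u >>> 3)) := rfl
    have e1 : u &&& 7 = u % 8 := Nat.and_two_pow_sub_one_eq_mod _ 3
    have e2 : u >>> 3 = u / 8 := by rw [Nat.shiftRight_eq_div_pow]
    rw [h0, e1, e2] at h
    rcases cond_split h with ⟨-, h⟩ | ⟨h1, h⟩
    · exact absurd h Bool.false_ne_true
    · have h2 : ¬ K ≤ u % 8 := by
        intro h3
        rw [Nat.ble_eq_true_of_le h3] at h1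
        exact absurd h1.symm Bool.false_ne_true
      refine ⟨by omega, ?_⟩
      have h3 := grb7_spec n _ _ h
      have h4 : (cond (Nat.beq (Nat.succ (u % 8)) K) (cond (Nat.ble 7 K) K (Nat.succ K)) K) =
          if u % 8 + 1 = K ∧ K < 7 then K + 1 else K := by
        by_cases h5 : u % 8 + 1 = K
        · have h6 : Nat.beq (Nat.succ (u % 8)) K = true := by rw [Nat.beq_eq]; exact h5
          rw [h6]
          by_cases h7 : K < 7
          · have h8 : Nat.ble 7 K = false := by
              rw [← Bool.not_eq_true, Nat.ble_eq]; omega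
            rw [h8, if_pos ⟨h5, h7⟩]
            rfl
          · have h8 : Nat.ble 7 K = true := by rw [Nat.ble_eq]; omega
            rw [h8, if_neg (fun h9 => h7 h9.2)]
            rfl
        · have h6 : Nat.beq (Nat.succ (u % 8)) K = false := by
            rw [← Bool.not_eq_true, Nat.beq_eq]; exact h5
          rw [h6, if_neg (fun h9 => h5 h9.1)]
          rfl
      rw [← h4]
      exact h3

noncomputable def n5chk (i : ℕ) : Bool :=
  CR.allN (fun a => CR.allN (fun b => cond (tb (N5 i) (Nat.add (Nat.mul 64 a) b))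
    (cond (grb7 10 1 (Nat.add (Tab.T4 i) (Nat.shiftLeft (Nat.add (Nat.mul 64 a) b) 18)))
      (cond (tb (Tab.E5 i) (Nat.add (Nat.mul 64 a) b)) false true) false) true) 64) 64

theorem n5_all : CR.allN n5chk 21 = true := by decide +kernel

theorem land_bit (a n v : ℕ) (h : (Nat.land a (Nat.pred (Nat.pow 2 n))).testBit v = true) :
    v < n := by
  have h1 : (a &&& (2 ^ n - 1)).testBit v = true := h
  rw [Nat.testBit_and, Bool.and_eq_true, Nat.testBit_two_pow_sub_one, decide_eq_true_eq] at h1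
  exact h1.2

theorem N5_spec {i v : ℕ} (hi : i < 21) (h : (N5 i).testBit v = true) :
    grn 7 10 1 (Tab.T4 i + v * 8 ^ 6) ∧ (Tab.E5 i).testBit v = false := by
  have hv : v < 4096 := land_bit _ 4096 v h
  have h1 := CR.allN_spec n5_all i hi
  have h2 := CR.allN_spec h1 (v / 64) (by omega)
  have h3 := CR.allN_spec h2 (v % 64) (Nat.mod_lt _ (by norm_num))
  have h4 : Nat.add (Nat.mul 64 (v / 64)) (v % 64) = v := Nat.div_add_mod v 64
  simp only [h4] at h3
  rw [tb_eq, h] at h3
  obtain ⟨h5, h6⟩ := cond_and h3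
  constructor
  · have h7 := grb7_spec _ _ _ h5
    have e : Nat.add (Tab.T4 i) (Nat.shiftLeft v 18) = Tab.T4 i + v * 8 ^ 6 := by
      show Tab.T4 i + v <<< 18 = _
      rw [Nat.shiftLeft_eq]
      norm_num
    rw [e] at h7
    exact h7
  · rw [tb_eq] at h6
    exact cond_not h6

/-! ### The reasons -/

theorem EL5_sub : ∀ q ∈ EL5, q ∈ EL6 := by decide

theorem T4_lt (i : ℕ) (hi : i < 21) : Tab.T4 i < 8 ^ 6 := by
  have h : ∀ i, i < 21 → Tab.T4 i < 8 ^ 6 := by decide +kernel
  exact h i hi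

theorem k5ok_sound {F : Conf 9} (hF : TabF F Tab.T5 Tab.E6 Tab.T4 Tab.E5) {P n m i : ℕ}
    (h : k5ok P n m i = true) {f : ℕ → Fin 9} {g : ℕ → Fin 8} (ho : Occ F 7 f g P) :
    False := by
  obtain ⟨h0, h⟩ := cond_and h
  obtain ⟨h1, h⟩ := cond_and h
  obtain ⟨h2, h⟩ := cond_and h
  obtain ⟨h3, h4⟩ := cond_and h
  have hi : i < 21 := by have := Nat.le_of_ble_eq_true h0; omega
  rw [mc5_eq] at h3 h4
  obtain ⟨q8, g', ho'⟩ := new_occ edgeList5 (by norm_num) EL5_sub
    (by have := Nat.le_of_ble_eq_true h1; omega : n < 3600)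
    (by have := Nat.le_of_ble_eq_true h2; omega : m < 5040) ho rfl
  have h3' : (mk (fun e => lb P (st m) (vt n >>> (6 * e))) 10) % 8 ^ 6 = Tab.T4 i := by
    rw [← Nat.eq_of_beq_eq_true h3]
    exact (Nat.and_two_pow_sub_one_eq_mod _ 18).symm
  rw [tb_eq] at h4
  have e : Nat.shiftRight (mk (fun e => lb P (st m) (vt n >>> (6 * e))) 10) 18 =
      mk (fun e => lb P (st m) (vt n >>> (6 * e))) 10 / 8 ^ 6 := Nat.shiftRight_eq_div_pow _ _
  rw [e] at h4
  obtain ⟨h5, h6⟩ := N5_spec hi h4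
  have h7 : Tab.T4 i + (mk (fun e => lb P (st m) (vt n >>> (6 * e))) 10) / 8 ^ 6 * 8 ^ 6 =
      mk (fun e => lb P (st m) (vt n >>> (6 * e))) 10 := by
    rw [← h3', Nat.mul_comm]
    exact Nat.mod_add_div _ _
  rw [h7] at h5
  have h8 := hF.e5 _ _ _ i hi h5 ho' h3'
  rw [h6] at h8
  exact absurd h8 Bool.false_ne_true

theorem k6ok_sound {F : Conf 9} (hF : TabF F Tab.T5 Tab.E6 Tab.T4 Tab.E5) {P n m j : ℕ}
    (h : k6ok P n m j = true) {f : ℕ → Fin 9} {g : ℕ → Fin 8} (ho : Occ F 7 f g P) :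
    False := by
  obtain ⟨h00, h⟩ := cond_and h
  obtain ⟨h0, h⟩ := cond_and h
  obtain ⟨h1, h⟩ := cond_and h
  obtain ⟨h2, h⟩ := cond_and h
  obtain ⟨h3, h4⟩ := cond_and h
  have hj0 : 526 ≤ j := Nat.le_of_ble_eq_true h00
  have hj : j < 1205 := by have := Nat.le_of_ble_eq_true h0; omega
  rw [mc6_eq] at h3 h4
  obtain ⟨q8, g', ho'⟩ := new_occ edgeList6 (by norm_num) (fun q hq => hq)
    (by have := Nat.le_of_ble_eq_true h1; omega : n < 3600)
    (by have := Nat.le_of_ble_eq_true h2; omega : m < 5040) ho rfl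
  have h3' : (mk (fun e => lb P (st m) (vt n >>> (6 * e))) 15) % 8 ^ 10 = Tab.T5 j := by
    rw [← Nat.eq_of_beq_eq_true h3]
    exact (Nat.and_two_pow_sub_one_eq_mod _ 30).symm
  rw [tb_eq] at h4
  have e : Nat.shiftRight (mk (fun e => lb P (st m) (vt n >>> (6 * e))) 15) 30 =
      mk (fun e => lb P (st m) (vt n >>> (6 * e))) 15 / 8 ^ 10 := Nat.shiftRight_eq_div_pow _ _
  rw [e] at h4
  obtain ⟨h5, h6⟩ := NG_spec hj h4
  have h7 : Tab.T5 j + (mk (fun e => lb P (st m) (vt n >>> (6 * e))) 15) / 8 ^ 10 * 8 ^ 10 =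
      mk (fun e => lb P (st m) (vt n >>> (6 * e))) 15 := by
    rw [← h3', Nat.mul_comm]
    exact Nat.mod_add_div _ _
  have h8 : gro 15 1 (mk (fun e => lb P (st m) (vt n >>> (6 * e))) 15) := by
    rw [← h7, T5_eq]
    refine (gro_split 10 5 1 (L6.T5 j) _ (L6.T5_lt j)).2 ⟨L6.T5_gro j hj, ?_⟩
    rw [L6.T5_groK j hj0 hj]
    exact h5
  have h9 := hF.e6 _ _ _ j hj h8 ho' h3'
  rw [h6] at h9
  exact absurd h9 Bool.false_ne_true

theorem rsn_sound {F : Conf 9} (hF : TabF F Tab.T5 Tab.E6 Tab.T4 Tab.E5) {σ w : ℕ}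
    {W : List ℕ} {P v H : ℕ} (h : rsn σ w W P v H = true) :
    (∀ f g, ¬ Occ F 7 f g P) ∨ ∃ X ∈ W, conv σ w X = v := by
  unfold rsn at h
  rcases cond_split h with ⟨-, h⟩ | ⟨-, h⟩
  · exact Or.inl fun f g ho => k5ok_sound hF h ho
  rcases cond_split h with ⟨-, h⟩ | ⟨-, h⟩
  · exact Or.inl fun f g ho => k6ok_sound hF h ho
  rcases cond_split h with ⟨-, h⟩ | ⟨-, h⟩
  · exact Or.inr (memX_spec σ w v W h)
  · exact Or.inl fun f g ho => szok_sound ho (cond_and h).2

theorem walk_sound {F : Conf 9} (hF : TabF F Tab.T5 Tab.E6 Tab.T4 Tab.E5)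
    {ok : ℕ → ℕ → Bool} (hok : ∀ P C, ok P C = true → ¬ Realk 7 8 P) {k B σ w : ℕ} {W : List ℕ} :
    ∀ (RT : List ℕ) (H : ℕ) (C : List ℕ), walk ok k B σ w W RT H C = true →
      ∀ e ∈ RT, k ≤ e >>> 33 →
        (∀ f g, ¬ Occ F 7 f g (PP B e)) ∨ ∃ X ∈ W, conv σ w X = e &&& 32767
  | [], _, _, _, e, he, _ => absurd he List.not_mem_nil
  | a :: RT, H, C, h, e, he, hk => by
    have h0 : walk ok k B σ w W (a :: RT) H C =
      cond (Nat.ble k (Nat.shiftRight a 33))
        (cond (Nat.beq (Nat.land H 7) 3)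
          (List.rec (motive := fun _ => Bool) false
            (fun c C' _ => cond (ok (PP B a) c)
              (walk ok k B σ w W RT (Nat.shiftRight H 40) C') false) C)
          (cond (rsn σ w W (PP B a) (Nat.land a 32767) (Nat.land H 1099511627775))
            (walk ok k B σ w W RT (Nat.shiftRight H 40) C) false))
        (walk ok k B σ w W RT H C) := rfl
    rw [h0] at h
    rcases cond_split h with ⟨h1, h⟩ | ⟨h1, h⟩
    · rcases cond_split h with ⟨h2, h⟩ | ⟨h2, h⟩
      · cases C with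
        | nil => exact absurd h Bool.false_ne_true
        | cons c C' =>
          obtain ⟨h3, h4⟩ := cond_and h
          rcases List.mem_cons.1 he with rfl | he
          · exact Or.inl fun f g ho => hok _ _ h3 ho.real
          · exact walk_sound hF hok RT _ _ h4 e he hk
      · obtain ⟨h3, h4⟩ := cond_and h
        rcases List.mem_cons.1 he with rfl | he
        · exact rsn_sound hF h3
        · exact walk_sound hF hok RT _ _ h4 e he hk
    · rcases List.mem_cons.1 he with rfl | he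
      · have : Nat.ble k (Nat.shiftRight e 33) = true := Nat.ble_eq_true_of_le hk
        rw [this] at h1
        exact absurd h1.symm Bool.false_ne_true
      · exact walk_sound hF hok RT _ _ h e he hk

/-- the check of an item proves the statement of level 7 for the vertex -/
theorem item_sound {RT : ℕ → List ℕ} {ok : ℕ → ℕ → Bool}
    (hF : ∀ F, TabF F Tab.T5 Tab.E6 Tab.T4 Tab.E5) (hok : ∀ P C, ok P C = true → ¬ Realk 7 8 P)
    (hlab : ∀ r, r < Tab.nr → ∀ t, t < 15 → od (Tab.reps r) t < 6) {k s w σ j H : ℕ}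
    {C W : List ℕ} (hk : k < Tab.nr) (hj : j < 1205)
    (hrt : rtOK Tab.nr Tab.T5 Tab.E6 Tab.reps j (RT j) = true)
    (h : item RT ok k s w σ j H C W = true) : V7 Tab.nr Tab.reps k s W := by
  obtain ⟨h1, h⟩ := cond_and h
  obtain ⟨h2, h⟩ := cond_and h
  obtain ⟨h3, h⟩ := cond_and h
  obtain ⟨h4, h⟩ := cond_and h
  obtain ⟨h5, h⟩ := cond_and h
  have pw := isP6_pm h1
  have pσ := isP6_pm h2
  have hσ : σ >>> 18 = 62 := Nat.eq_of_beq_eq_true h3
  have hs : dg3 w 5 = s := Nat.eq_of_beq_eq_true h4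
  have hN5 := Nat.eq_of_beq_eq_true h5
  set N := mpc (Tab.reps k) σ w EL6 0 with hN
  have σ6 : dg3 σ 6 = 6 := by
    unfold dg3
    rw [show 3 * 6 = 18 from rfl, hσ]
    rfl
  have σ7 : dg3 σ 7 = 7 := by
    unfold dg3
    rw [show 3 * 7 = 18 + 3 from rfl, Nat.shiftRight_add, hσ]
    rfl
  -- the permutation of the labels
  have σlt : ∀ a, a < 8 → dg3 σ a < 8 := fun a _ => dg3_lt _ _
  have σlt6 : ∀ a, a < 6 → dg3 σ a < 6 := pσ.lt
  have σinj : ∀ a b, a < 8 → b < 8 → dg3 σ a = dg3 σ b → a = b := by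
    intro a b ha hb hab
    rcases Nat.lt_or_ge a 6 with ha6 | ha6
    · have l1 := σlt6 a ha6
      rcases Nat.lt_or_ge b 6 with hb6 | hb6
      · exact pσ.inj a b ha6 hb6 hab
      · have hb' : b = 6 ∨ b = 7 := by omega
        rcases hb' with rfl | rfl <;> omega
    · have ha' : a = 6 ∨ a = 7 := by omega
      rcases Nat.lt_or_ge b 6 with hb6 | hb6
      · have l1 := σlt6 b hb6
        rcases ha' with rfl | rfl <;> omega
      · have hb' : b = 6 ∨ b = 7 := by omega
        rcases ha' with rfl | rfl <;> rcases hb' with rfl | rfl <;> omega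
  have σsurj : ∀ b, b < 8 → ∃ a, a < 8 ∧ dg3 σ a = b := by
    intro b hb
    rcases Nat.lt_or_ge b 6 with hb6 | hb6
    · obtain ⟨a, ha, h⟩ := pσ.surj b hb6
      exact ⟨a, by omega, h⟩
    · have hb' : b = 6 ∨ b = 7 := by omega
      rcases hb' with rfl | rfl
      · exact ⟨6, by norm_num, σ6⟩
      · exact ⟨7, by norm_num, σ7⟩
  choose! τ τlt τσ using σsurj
  have στ : ∀ a, a < 8 → τ (dg3 σ a) = a := fun a ha =>
    σinj _ _ (τlt _ (σlt a ha)) ha (τσ _ (σlt a ha))
  have τinj : ∀ a b, a < 8 → b < 8 → τ a = τ b → a = b := by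
    intro a b ha hb hab
    rw [← τσ a ha, ← τσ b hb, hab]
  intro F f g ho hg hmin t hft hbad hbig
  -- all edges of the six points are big
  have hbig6 : ∀ i j, i < 6 → j < 6 → i ≠ j → 2 ≤ (F.c (f i) (f j)).val := by
    intro i j hi hj hij
    rw [ho.col' hi hj hij]
    apply hg
    unfold labs
    have key : ∀ i j, i < j → j < 6 → lab (Tab.reps k) i j < 6 := by
      intro i j hij hj
      rw [lab_eq_od]
      apply hlab k hk
      unfold eo
      interval_cases j <;> omega
    split_ifs with hlt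
    · exact key i j hlt hj
    · exact key j i (by omega) hi
  -- the labelling with the colour of the bad edge at the label 6
  set c0 := F.c (f s) t with hc0
  set c1 : Fin 8 := if c0 = 0 then 1 else 0 with hc1
  have hc01 : c0 ≠ c1 ∧ c1.val < 2 := by
    have h01 : c0 = 0 ∨ c0 = 1 := by
      have : c0.val = 0 ∨ c0.val = 1 := by omega
      rcases this with h | h
      · exact Or.inl (Fin.ext h)
      · exact Or.inr (Fin.ext h)
    rcases h01 with h | h
    · rw [hc1, h, if_pos rfl]; exact ⟨by decide, by decide⟩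
    · rw [hc1, h, if_neg (by decide)]; exact ⟨by decide, by decide⟩
  set g0 : ℕ → Fin 8 := fun a => if a = 6 then c0 else if a = 7 then c1 else g a with hg0
  have g06 : g0 6 = c0 := rfl
  have g07 : g0 7 = c1 := rfl
  have g0lt : ∀ a, a < 6 → g0 a = g a := fun a ha => by
    show (if a = 6 then c0 else if a = 7 then c1 else g a) = g a
    rw [if_neg (by omega), if_neg (by omega)]
  have g0inj : ∀ a b, a < 8 → b < 8 → g0 a = g0 b → a = b := by
    have aux : ∀ a b, a < b → b < 8 → g0 a ≠ g0 b := by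
      intro a b hab hb he
      rcases Nat.lt_or_ge a 6 with ha6 | ha6
      · have l1 := hg a ha6
        rw [g0lt a ha6] at he
        rcases Nat.lt_or_ge b 6 with hb6 | hb6
        · rw [g0lt b hb6] at he
          have := ho.ginj a b (by omega) (by omega) he
          omega
        · have hb' : b = 6 ∨ b = 7 := by omega
          rcases hb' with rfl | rfl
          · rw [g06] at he; rw [he] at l1; omega
          · rw [g07] at he; rw [he] at l1; omega
      · have e1 : a = 6 := by omega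
        have e2 : b = 7 := by omega
        rw [e1, e2, g06, g07] at he
        exact hc01.1 he
    intro a b ha hb hab
    by_contra hne
    rcases Nat.lt_or_gt_of_ne hne with h | h
    · exact aux a b h hb hab
    · exact aux b a h ha hab.symm
  -- the labels of the star
  have hstar : ∀ i, i < 5 → ∃ a, a < 6 ∧ g a = F.c (f (dg3 w i)) t := by
    intro i hi
    apply goodG_surj hg ho.ginj
    apply hbig _ (pw.lt i (by omega))
    intro he
    have := pw.inj i 5 (by omega) (by norm_num) (by rw [he, hs])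
    omega
  choose! a alt ag using hstar
  set v := mk (fun i => dg3 σ (a i)) 5 with hv
  obtain ⟨v8, vd⟩ := od_mk 5 (fun i => dg3 σ (a i)) (fun i hi => dg3_lt _ _)
  rw [← hv] at v8 vd
  have vd6 : ∀ i, i < 5 → od v i < 6 := fun i hi => by
    rw [vd i hi]
    exact σlt6 _ (alt i hi)
  -- the digits of N
  obtain ⟨-, N2, N3⟩ := mpc_spec (Tab.reps k) σ w EL6 0 0
    (fun t ht => by rw [edgeList6.shift t ht, Nat.zero_add]) (fun e _ => dg3_zero e)
  rw [← hN] at N2 N3
  have N8 : N < 8 ^ 15 := lt_of_od N 15 (fun e he => by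
    rw [← dg3_eq]
    exact N2 e (by simpa [EL6] using he))
  have Nlab : ∀ i j, i < j → j < 6 →
      od N (eo i j) = dg3 σ (labs (Tab.reps k) (dg3 w i) (dg3 w j)) := by
    intro i j hij hj
    obtain ⟨ht, e1, e2⟩ := edgeList6.edge j hj i hij
    have h6 := N3 (eo i j) ht
    rw [Nat.zero_add, dg3_eq] at h6
    rw [h6]
    congr 1
    have hne : dg3 w i ≠ dg3 w j := fun he => by
      have := pw.inj i j (by omega) hj he
      omega
    rw [← sl_eq (Tab.reps k) _ _ (by have := pw.lt i (by omega); omega)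
      (by have := pw.lt j hj; omega) hne]
    show sl (Tab.reps k) ((w >>> (EL6[eo i j] &&& 31)) &&& 7)
      ((w >>> ((EL6[eo i j] >>> 5) &&& 31)) &&& 7) = _
    rw [e1, e2]
    rfl
  have hlabs8 : ∀ i j, labs (Tab.reps k) i j < 8 := fun i j => labs_lt _ _ _
  have hlabs6 : ∀ i j, i < 6 → j < 6 → i ≠ j → labs (Tab.reps k) i j < 6 := by
    intro i j hi hj hij
    unfold labs
    have key : ∀ i j, i < j → j < 6 → lab (Tab.reps k) i j < 6 := by
      intro i j hij hj
      rw [lab_eq_od]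
      apply hlab k hk
      unfold eo
      interval_cases j <;> omega
    split_ifs with hlt
    · exact key i j hlt hj
    · exact key j i (by omega) hi
  have Ncol : ∀ i j, i < j → j < 6 →
      F.c (f (dg3 w i)) (f (dg3 w j)) = g0 (τ (od N (eo i j))) := by
    intro i j hij hj
    have hne : dg3 w i ≠ dg3 w j := fun he => by
      have := pw.inj i j (by omega) hj he
      omega
    rw [Nlab i j hij hj, στ _ (hlabs8 _ _),
      g0lt _ (hlabs6 _ _ (pw.lt i (by omega)) (pw.lt j hj) hne),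
      ho.col' (pw.lt i (by omega)) (pw.lt j hj) hne]
  have vcol : ∀ i, i < 5 → F.c (f (dg3 w i)) t = g0 (τ (od v i)) := by
    intro i hi
    rw [vd i hi, στ _ (by have := alt i hi; omega), g0lt _ (alt i hi), ag i hi]
  have T5N : N % 8 ^ 10 = Tab.T5 j := by
    rw [← hN5]
    exact (Nat.and_two_pow_sub_one_eq_mod _ 30).symm
  have T58 : Tab.T5 j < 8 ^ 10 := by
    rw [← T5N]
    exact Nat.mod_lt _ (by positivity)
  -- the six points with t
  set f2 : ℕ → Fin 9 := fun i => if i = 5 then t else f (dg3 w i) with hf2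
  have f25 : f2 5 = t := rfl
  have f2lt : ∀ i, i ≠ 5 → f2 i = f (dg3 w i) := fun i hi => if_neg hi
  have hw5 : ∀ i, i < 5 → dg3 w i ≠ s := fun i hi he => by
    have := pw.inj i 5 (by omega) (by norm_num) (by rw [he, hs])
    omega
  have ho2 : Occ F 6 f2 (fun b => g0 (τ b)) (Tab.T5 j + v * 8 ^ 10) := by
    refine ⟨?_, ?_, ?_⟩
    · have aux : ∀ i j, i < j → j < 6 → f2 i ≠ f2 j := by
        intro i j hij hj he
        rw [f2lt i (by omega)] at he
        rcases Nat.lt_or_ge j 5 with hj5 | hj5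
        · rw [f2lt j (by omega)] at he
          have := pw.inj i j (by omega) hj
            (ho.inj _ _ (pw.lt i (by omega)) (pw.lt j hj) he)
          omega
        · have e5 : j = 5 := by omega
          rw [e5, f25] at he
          exact hft _ (pw.lt i (by omega)) he
      intro i j hi hj he
      by_contra hne
      rcases Nat.lt_or_gt_of_ne hne with h | h
      · exact aux i j h hj he
      · exact aux j i h hi he.symm
    · intro b b' hb hb' he
      exact τinj b b' hb hb' (g0inj _ _ (τlt b hb) (τlt b' hb') he)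
    · intro i j hij hj
      show F.c (f2 i) (f2 j) = g0 (τ (lab (Tab.T5 _ + v * 8 ^ 10) i j))
      rw [lab_eq_od, od_add _ _ _ _ T58, f2lt i (by omega)]
      rcases Nat.lt_or_ge j 5 with hj5 | hj5
      · have he : eo i j < 10 := by
          unfold eo
          interval_cases j <;> omega
        rw [if_pos he, f2lt j (by omega), ← T5N, od_mod, if_pos he]
        exact Ncol i j hij hj
      · have e5 : j = 5 := by omega
        subst e5
        have he : eo i 5 = 10 + i := rfl
        rw [he, if_neg (by omega), f25, show 10 + i - 10 = i by omega]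
        exact vcol i (by omega)
  obtain ⟨-, e, heRT, hev, pp, hern, henrm⟩ := rt_complete (hF F) hj hrt v8 vd6 ho2
  -- the rank of these six points
  have hrank : k ≤ e >>> 33 := by
    obtain ⟨⟨g', ho'⟩, -⟩ := ho2.nrm (by norm_num) edgeList6 (e >>> 15) pp.lt pp.inj
    rw [henrm] at ho'
    have hb2 : ∀ i j, i < 6 → j < 6 → i ≠ j → 2 ≤ (F.c (f2 i) (f2 j)).val := by
      have aux : ∀ i j, i < j → j < 6 → 2 ≤ (F.c (f2 i) (f2 j)).val := by
        intro i j hij hj
        rw [f2lt i (by omega)]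
        rcases Nat.lt_or_ge j 5 with hj5 | hj5
        · rw [f2lt j (by omega)]
          exact hbig6 _ _ (pw.lt i (by omega)) (pw.lt j hj) (fun he => by
            have := pw.inj i j (by omega) hj he
            omega)
        · have e5 : j = 5 := by omega
          rw [e5, f25]
          exact hbig _ (pw.lt i (by omega)) (hw5 i (by omega))
      intro i j hi hj hij
      rcases Nat.lt_or_gt_of_ne hij with h | h
      · exact aux i j h hj
      · rw [F.symm]
        exact aux j i h hi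
    obtain ⟨g'', ho'', hg''⟩ := ho'.big (fun i j hij hj => by
        rw [lab_eq_od]
        apply hlab _ hern
        unfold eo
        interval_cases j <;> omega) (fun i j hij hj => by
        apply hb2 _ _ (pp.lt i (by omega)) (pp.lt j hj)
        intro he
        have := pp.inj i j (by omega) hj he
        omega)
    exact hmin _ _ _ hern hg'' ho''
  -- the seven points
  set f3 : ℕ → Fin 9 := fun i => if i = 6 then t else f (dg3 w i) with hf3
  have f36 : f3 6 = t := rfl
  have f3lt : ∀ i, i ≠ 6 → f3 i = f (dg3 w i) := fun i hi => if_neg hi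
  have hPP : PP (Nat.add N 6917529027641081856) e = N + (v + 6 * 8 ^ 5) * 8 ^ 15 := by
    show (N + 6917529027641081856) + (e &&& 32767) <<< 45 = _
    rw [hev, Nat.shiftLeft_eq]
    ring
  have ho3 : Occ F 7 f3 (fun b => g0 (τ b)) (PP (Nat.add N 6917529027641081856) e) := by
    rw [hPP]
    refine ⟨?_, ?_, ?_⟩
    · have aux : ∀ i j, i < j → j < 7 → f3 i ≠ f3 j := by
        intro i j hij hj he
        rw [f3lt i (by omega)] at he
        rcases Nat.lt_or_ge j 6 with hj6 | hj6
        · rw [f3lt j (by omega)] at he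
          have := pw.inj i j (by omega) hj6
            (ho.inj _ _ (pw.lt i (by omega)) (pw.lt j hj6) he)
          omega
        · have e6 : j = 6 := by omega
          rw [e6, f36] at he
          exact hft _ (pw.lt i (by omega)) he
      intro i j hi hj he
      by_contra hne
      rcases Nat.lt_or_gt_of_ne hne with h | h
      · exact aux i j h hj he
      · exact aux j i h hi he.symm
    · intro b b' hb hb' he
      exact τinj b b' hb hb' (g0inj _ _ (τlt b hb) (τlt b' hb') he)
    · intro i j hij hj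
      show F.c (f3 i) (f3 j) = g0 (τ (lab (N + (v + 6 * 8 ^ 5) * 8 ^ 15) i j))
      rw [lab_eq_od, od_add _ _ _ _ N8, f3lt i (by omega)]
      rcases Nat.lt_or_ge j 6 with hj6 | hj6
      · have he : eo i j < 15 := by
          unfold eo
          interval_cases j <;> omega
        rw [if_pos he, f3lt j (by omega)]
        exact Ncol i j hij hj6
      · have e6 : j = 6 := by omega
        subst e6
        have he : eo i 6 = 15 + i := rfl
        rw [he, if_neg (by omega), f36, show 15 + i - 15 = i by omega, od_add _ _ _ _ v8]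
        rcases Nat.lt_or_ge i 5 with hi5 | hi5
        · rw [if_pos hi5]
          exact vcol i hi5
        · have e5 : i = 5 := by omega
          subst e5
          rw [if_neg (by omega), hs]
          have e66 : od 6 (5 - 5) = 6 := rfl
          have τ6 : τ 6 = 6 := by
            have := στ 6 (by norm_num)
            rwa [σ6] at this
          rw [e66, τ6]
          exact g06.symm
  rcases walk_sound (hF F) hok (RT j) H C h e heRT hrank with h6 | ⟨X, hX, hXv⟩
  · exact absurd ho3 (h6 _ _)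
  · refine ⟨X, hX, ?_⟩
    intro i hi his
    obtain ⟨b, hb, hbi⟩ := pw.surj i hi
    have hb5 : b < 5 := by
      by_contra hh
      have : b = 5 := by omega
      rw [this, hs] at hbi
      exact his hbi.symm
    have h7 := conv_spec σ w X b hb5
    rw [hXv, hev, vd b hb5, hbi] at h7
    have h8 := σinj _ _ (by have := alt b hb5; omega) (dg3_lt X i) h7
    rw [← hbi, ← ag b hb5, h8, dg3_eq, hbi]

/-! ### The ranks -/

section ranks

variable {RT : ℕ → List ℕ} {ok : ℕ → ℕ → Bool} {W : ℕ → ℕ → List ℕ}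

theorem itemL_sound (hF : ∀ F, TabF F Tab.T5 Tab.E6 Tab.T4 Tab.E5) (hok : ∀ P C, ok P C = true → ¬ Realk 7 8 P)
    (hlab : ∀ r, r < Tab.nr → ∀ t, t < 15 → od (Tab.reps r) t < 6)
    (hrt : ∀ j, 526 ≤ j → j ≤ 1204 → rtOK Tab.nr Tab.T5 Tab.E6 Tab.reps j (RT j) = true)
    {k s : ℕ} (hk : k < Tab.nr) {Ws I : List ℕ} (h : itemL RT ok k s Ws I = true) :
    V7 Tab.nr Tab.reps k s Ws ∧ (I ≠ [] ∧ s = dg3 (hdI I) 5) := by
  cases I with
  | nil => exact absurd h Bool.false_ne_true
  | cons a C =>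
    obtain ⟨h1, h⟩ := cond_and h
    obtain ⟨h2, h⟩ := cond_and h
    refine ⟨item_sound hF hok hlab hk (by have := Nat.le_of_ble_eq_true h2; omega)
      (hrt _ (Nat.le_of_ble_eq_true h1)
      (Nat.le_of_ble_eq_true h2)) h, by simp, ?_⟩
    obtain ⟨-, h⟩ := cond_and h
    obtain ⟨-, h⟩ := cond_and h
    obtain ⟨-, h⟩ := cond_and h
    obtain ⟨h4, -⟩ := cond_and h
    have h5 : dg3 (a &&& 262143) 5 = s := Nat.eq_of_beq_eq_true h4
    rw [← h5]
    have e : a &&& 262143 = a % 8 ^ 6 := Nat.and_two_pow_sub_one_eq_mod _ 18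
    rw [e, dg3_eq, dg3_eq, od_mod, if_pos (by norm_num)]
    rfl

theorem itsK_sound (hF : ∀ F, TabF F Tab.T5 Tab.E6 Tab.T4 Tab.E5) (hok : ∀ P C, ok P C = true → ¬ Realk 7 8 P)
    (hlab : ∀ r, r < Tab.nr → ∀ t, t < 15 → od (Tab.reps r) t < 6)
    (hrt : ∀ j, 526 ≤ j → j ≤ 1204 → rtOK Tab.nr Tab.T5 Tab.E6 Tab.reps j (RT j) = true)
    {k : ℕ} (hk : k < Tab.nr) {r : ℕ → Bool} : ∀ (L : List (List ℕ)) (m : ℕ),
      (∀ s, m.testBit s = true → s < 6 ∧ V7 Tab.nr Tab.reps k s []) →
      itsK RT ok k L m r = true →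
      ∃ m', (∀ s, m'.testBit s = true → s < 6 ∧ V7 Tab.nr Tab.reps k s []) ∧ r m' = true
  | [], m, hm, h => ⟨m, hm, h⟩
  | I :: L, m, hm, h => by
    obtain ⟨h1, h2⟩ := cond_and (a := itemL RT ok k (vxI I) [] I)
      (b := itsK RT ok k L (Nat.lor m (Nat.shiftLeft 1 (vxI I))) r) h
    have h3 := (itemL_sound hF hok hlab hrt hk h1).1
    -- the vertex is less than six
    have h4 : vxI I < 6 := by
      cases I with
      | nil => exact absurd h1 Bool.false_ne_true
      | cons a C =>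
        obtain ⟨-, h1⟩ := cond_and h1
        obtain ⟨-, h1⟩ := cond_and h1
        obtain ⟨h5, -⟩ := cond_and h1
        have h6 := (isP6_pm h5).lt 5 (by norm_num)
        have e : a &&& 262143 = a % 8 ^ 6 := Nat.and_two_pow_sub_one_eq_mod _ 18
        have h7 : dg3 (a &&& 262143) 5 < 6 := h6
        rw [e, dg3_eq, od_mod, if_pos (by norm_num), ← dg3_eq] at h7
        exact h7
    apply itsK_sound hF hok hlab hrt hk L _ _ h2
    intro s hs
    have hs' : (m ||| 1 <<< vxI I).testBit s = true := hs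
    rw [Nat.testBit_or, Bool.or_eq_true, Nat.one_shiftLeft, Nat.testBit_two_pow,
      decide_eq_true_eq] at hs'
    rcases hs' with hs' | hs'
    · exact hm s hs'
    · rw [← hs']
      exact ⟨h4, h3⟩

theorem itsP_sound (hF : ∀ F, TabF F Tab.T5 Tab.E6 Tab.T4 Tab.E5) (hok : ∀ P C, ok P C = true → ¬ Realk 7 8 P)
    (hlab : ∀ r, r < Tab.nr → ∀ t, t < 15 → od (Tab.reps r) t < 6)
    (hrt : ∀ j, 526 ≤ j → j ≤ 1204 → rtOK Tab.nr Tab.T5 Tab.E6 Tab.reps j (RT j) = true)
    {k : ℕ} (hk : k < Tab.nr) : ∀ (L : List (List ℕ)) (s0 : ℕ),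
      itsP RT ok (W k) k L s0 = true →
      s0 ≤ 6 ∧ ∀ s, s0 ≤ s → s < 6 → V7 Tab.nr Tab.reps k s (W k s)
  | [], s0, h => by
    have h1 : s0 = 6 := Nat.eq_of_beq_eq_true h
    exact ⟨by omega, fun s h2 h3 => by omega⟩
  | I :: L, s0, h => by
    obtain ⟨h1, h2⟩ := cond_and (a := itemL RT ok k s0 (W k s0) I)
      (b := itsP RT ok (W k) k L (Nat.succ s0)) h
    have h3 := (itemL_sound hF hok hlab hrt hk h1).1
    obtain ⟨h4, h5⟩ := itsP_sound hF hok hlab hrt hk L _ h2
    refine ⟨by omega, fun s h6 h7 => ?_⟩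
    rcases Nat.eq_or_lt_of_le h6 with rfl | h8
    · exact h3
    · exact h5 s h8 h7

theorem rkOK_sound (hF : ∀ F, TabF F Tab.T5 Tab.E6 Tab.T4 Tab.E5) (hok : ∀ P C, ok P C = true → ¬ Realk 7 8 P)
    (hlab : ∀ r, r < Tab.nr → ∀ t, t < 15 → od (Tab.reps r) t < 6)
    (hrt : ∀ j, 526 ≤ j → j ≤ 1204 → rtOK Tab.nr Tab.T5 Tab.E6 Tab.reps j (RT j) = true)
    {k : ℕ} (hk : k < Tab.nr) {R : Rk} (h : rkOK RT ok W k R = true) :
    Kil Tab.nr Tab.reps k ∨ (4439 ≤ k ∧ Pro Tab.nr Tab.reps W k) := by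
  cases R with
  | kil I D =>
    left
    obtain ⟨m, hm, h⟩ := itsK_sound (r := fun m => dersK (Tab.reps k) m D m pop4)
      hF hok hlab hrt hk I 0 (fun s hs => by
      rw [Nat.zero_testBit] at hs
      exact absurd hs Bool.false_ne_true) h
    obtain ⟨m', hm', h⟩ := dersK_sound hlab hk hm D m hm h
    intro s1 s2 s3 h1 h2 h3 h12 h13 h23
    rcases pop4_spec m' (testBit_lt64 fun s hs => (hm' s hs).1) h s1 h1 s2 h2 s3 h3 h12 h13 h23
      with hb | hb | hb
    · exact Or.inl (hm' _ hb).2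
    · exact Or.inr (Or.inl (hm' _ hb).2)
    · exact Or.inr (Or.inr (hm' _ hb).2)
  | pro I =>
    right
    obtain ⟨h0, h⟩ := cond_and h
    refine ⟨Nat.le_of_ble_eq_true h0, ?_⟩
    intro s hs
    exact (itsP_sound hF hok hlab hrt hk I 0 h).2 s (Nat.zero_le _) hs

/-- **the check of consecutive ranks** -/
theorem rksOK_sound (hF : ∀ F, TabF F Tab.T5 Tab.E6 Tab.T4 Tab.E5) (hok : ∀ P C, ok P C = true → ¬ Realk 7 8 P)
    (hlab : ∀ r, r < Tab.nr → ∀ t, t < 15 → od (Tab.reps r) t < 6)
    (hrt : ∀ j, 526 ≤ j → j ≤ 1204 → rtOK Tab.nr Tab.T5 Tab.E6 Tab.reps j (RT j) = true) :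
    ∀ (L : List Rk) (a : ℕ), a + L.length ≤ Tab.nr →
      rksOK RT ok W L a = true →
      ∀ k, a ≤ k → k < a + L.length → Kil Tab.nr Tab.reps k ∨ (4439 ≤ k ∧ Pro Tab.nr Tab.reps W k)
  | [], a, _, _, k, h1, h2 => by
    simp only [List.length_nil, Nat.add_zero] at h2
    omega
  | R :: L, a, hl, h, k, h1, h2 => by
    obtain ⟨h3, h4⟩ := cond_and (a := rkOK RT ok W a R)
      (b := rksOK RT ok W L (Nat.succ a)) h
    simp only [List.length_cons] at hl h2
    rcases Nat.eq_or_lt_of_le h1 with rfl | h5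
    · exact rkOK_sound hF hok hlab hrt (by omega) h3
    · exact rksOK_sound hF hok hlab hrt L (a + 1) (by omega) h4 k h5 (by omega)

end ranks

end CR.F7
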