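import Pool.Agent.Lib.MP_6f5d36_co.Level7b
import Pool.Agent.Lib.MP_6f5d36_co.FDefs2

set_option autoImplicit false

/-!
# MP_6f5d36_co : level 8 in case (ii)

`f 0, ..., f 5` carry the pattern `R`, the stars of `f 6` and `f 7` are in the list `E`.  Every pair of
stars and every label of the edge `67` is impossible, or the eight points carry (up to the order of
the points and the names of the labels) one of the patterns `O` with `Dead9 O`.
-/

namespace CR

/-- the eight points `f 0, ..., f 7` with the labels `O` (without the edge `67`, which is bad) do not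
exist -/
def Dead9 (O : ℕ) : Prop :=
  ∀ (F : Conf 9) (f : ℕ → Fin 9) (g : ℕ → Fin 8), (∀ i j, i < 9 → j < 9 → f i = f j → i = j) →
    (∀ a b, a < 8 → b < 8 → g a = g b → a = b) → GoodG g →
    (∀ i j, i < j → j < 8 → ¬ (i = 6 ∧ j = 7) → F.c (f i) (f j) = g (lab O i j)) →
    (F.c (f 6) (f 7)).val < 2 → False

namespace L8

open L9

/-- edge descriptions for seven points -/
def EL7 : List ℕ := [96, 3264, 6339, 9504, 12579, 15654, 18816, 21891, 24966, 28041, 31200, 34275,
  37350, 40425, 43500, 46656, 49731, 52806, 55881, 58956, 62031]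

theorem edgeList7 : EdgeList 7 EL7 where
  len := rfl
  shift := by decide
  edge := by decide
  bound := by
    intro q hq
    simp only [EL7, List.mem_cons, List.not_mem_nil, or_false] at hq
    rcases hq with rfl | rfl | rfl | rfl | rfl | rfl | rfl | rfl | rfl | rfl | rfl | rfl | rfl |
      rfl | rfl | rfl | rfl | rfl | rfl | rfl | rfl
    · exact ⟨0, 1, by decide⟩
    · exact ⟨0, 2, by decide⟩
    · exact ⟨1, 2, by decide⟩
    · exact ⟨0, 3, by decide⟩
    · exact ⟨1, 3, by decide⟩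
    · exact ⟨2, 3, by decide⟩
    · exact ⟨0, 4, by decide⟩
    · exact ⟨1, 4, by decide⟩
    · exact ⟨2, 4, by decide⟩
    · exact ⟨3, 4, by decide⟩
    · exact ⟨0, 5, by decide⟩
    · exact ⟨1, 5, by decide⟩
    · exact ⟨2, 5, by decide⟩
    · exact ⟨3, 5, by decide⟩
    · exact ⟨4, 5, by decide⟩
    · exact ⟨0, 6, by decide⟩
    · exact ⟨1, 6, by decide⟩
    · exact ⟨2, 6, by decide⟩
    · exact ⟨3, 6, by decide⟩
    · exact ⟨4, 6, by decide⟩
    · exact ⟨5, 6, by decide⟩

/-- evaluate `n` first -/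
def frc (n : ℕ) (f : ℕ → Bool) : Bool :=
  Nat.rec (motive := fun _ => Bool) (f 0) (fun m _ => f m) (Nat.add n 1)

theorem frc_eq (n : ℕ) (f : ℕ → Bool) : frc n f = f n := rfl

/-! ### Six points by the tables -/

/-- the normal form `N` of six points is not allowed -/
def n6 (T5 E6 : ℕ → ℕ) (j N : ℕ) : Bool :=
  Nat.beq (Nat.land N 1073741823) (T5 j) && L7.lt6 N && !(L7.tb (E6 j) (Nat.shiftRight N 30))

/-- the six points coded by `h` are not allowed by the table number `j` -/
noncomputable def t6ok (T5 E6 : ℕ → ℕ) (n P h j : ℕ) : Bool :=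
  Nat.ble j 1204 && subv n h 15 && frc (sub P h 15) (fun Q =>
    frc (CR.nrm Q 0o543210 EL6 0 0 0) (fun N => n6 T5 E6 j N))

theorem id6 : ∀ i, i < 6 → dg3 0o543210 i = i := by decide

theorem id7 : ∀ i, i < 7 → dg3 0o6543210 i = i := by decide

theorem shr30 (N : ℕ) : Nat.shiftRight N 30 = N / 8 ^ 10 := Nat.shiftRight_eq_div_pow _ _

theorem land30 (N : ℕ) : Nat.land N 1073741823 = N % 8 ^ 10 := Nat.and_two_pow_sub_one_eq_mod N 30

/-- soundness of the tables for six points in normal form -/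
theorem n6_false {F : Conf 9} {T5 E6 T4 E5 : ℕ → ℕ} (hF : L7.TabF F T5 E6 T4 E5) {j N : ℕ}
    (hj : j < 1205) (hN : n6 T5 E6 j N = true) {f : ℕ → Fin 9} {g : ℕ → Fin 8}
    (ho : Occ F 6 f g N) (hg : (∀ t, t < 15 → od N t < 6) → gro 15 1 N) : False := by
  unfold n6 at hN
  simp only [Bool.and_eq_true, Bool.not_eq_true'] at hN
  obtain ⟨⟨h4, h5⟩, h6⟩ := hN
  have h8 := Nat.eq_of_beq_eq_true h4
  rw [land30] at h8
  have h7 := hF.e6 f g N j hj (hg (L7.lt6_spec h5)) ho h8
  rw [shr30, L7.tb_eq] at h6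
  rw [h6] at h7
  exact absurd h7 Bool.false_ne_true

theorem EL6_len : EL6.length = 15 := rfl

/-- the normal form of six points -/
theorem norm6 {F : Conf 9} {f : ℕ → Fin 9} {g : ℕ → Fin 8} {Q : ℕ} (ho : Occ F 6 f g Q) :
    ∃ N f' g', CR.nrm Q 0o543210 EL6 0 0 0 = N ∧ Occ F 6 f' g' N ∧
      ((∀ t, t < 15 → od N t < 6) → gro 15 1 N) := by
  obtain ⟨⟨g', ho'⟩, hg⟩ := ho.nrm' (by norm_num) edgeList6 0o543210
    (fun i hi => by rw [id6 i hi]; exact hi)
    (fun i j hi hj he => by rwa [id6 i hi, id6 j hj] at he)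
  rw [EL6_len] at hg
  exact ⟨_, _, g', rfl, ho', fun h => (L7.grn_six _ _ _).1 (hg 6 (by norm_num) h)⟩

/-- the normal form of seven points -/
theorem norm7 {F : Conf 9} {f : ℕ → Fin 9} {g : ℕ → Fin 8} {Q : ℕ} (ho : Occ F 7 f g Q) :
    ∃ N f' g', CR.nrm Q 0o6543210 EL7 0 0 0 = N ∧ Occ F 7 f' g' N := by
  obtain ⟨⟨g', ho'⟩, -⟩ := ho.nrm' (by norm_num) edgeList7 0o6543210
    (fun i hi => by rw [id7 i hi]; exact hi)
    (fun i j hi hj he => by rwa [id7 i hi, id7 j hj] at he)
  exact ⟨_, _, g', rfl, ho'⟩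

section lab

variable {F : Conf 9} {f : ℕ → Fin 9} {g : ℕ → Fin 8} {L : ℕ → ℕ} (H : Lab F f g L)

include H in
theorem _root_.CR.L9.Lab.t6ok {T5 E6 T4 E5 : ℕ → ℕ} (hF : L7.TabF F T5 E6 T4 E5) {n h j : ℕ}
    (hk : t6ok T5 E6 n (pre L n) h j = true) : False := by
  unfold L8.t6ok at hk
  simp only [Bool.and_eq_true] at hk
  obtain ⟨⟨h1, h2⟩, h3⟩ := hk
  have ho : Occ F 6 (fun i => f (vx h i)) g (L9.sub (pre L n) h 15) :=
    H.sub (m := 6) (by norm_num) (by norm_num) h2
  generalize L9.sub (pre L n) h 15 = Q at ho h3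
  rw [frc_eq, frc_eq] at h3
  obtain ⟨N, f', g', hN, ho', hg⟩ := norm6 ho
  rw [hN] at h3
  exact n6_false hF (by have := Nat.le_of_ble_eq_true h1; omega) h3 ho' hg

/-- the seven points coded by `h` have a certificate -/
noncomputable def s7ok (ok7 : ℕ → ℕ → Bool) (n P h C : ℕ) : Bool :=
  subv n h 21 && frc (sub P h 21) (fun Q =>
    frc (CR.nrm Q 0o6543210 EL7 0 0 0) (fun N => ok7 N C))

include H in
theorem _root_.CR.L9.Lab.s7ok {ok7 : ℕ → ℕ → Bool} (hok : ∀ P C, ok7 P C = true → ¬ Realk 7 8 P)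
    {n h C : ℕ} (hk : s7ok ok7 n (pre L n) h C = true) : False := by
  unfold L8.s7ok at hk
  simp only [Bool.and_eq_true] at hk
  obtain ⟨h2, h3⟩ := hk
  have ho : Occ F 7 (fun i => f (vx h i)) g (L9.sub (pre L n) h 21) :=
    H.sub (m := 7) (by norm_num) (by norm_num) h2
  generalize L9.sub (pre L n) h 21 = Q at ho h3
  rw [frc_eq, frc_eq] at h3
  obtain ⟨N, f', g', hN, ho'⟩ := norm7 ho
  rw [hN] at h3
  exact hok _ _ h3 (Occ.real ho')

/-! ### The open patterns -/

/-- the labels of `O`, renamed by `τ` -/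
def tl (τ O : ℕ) (e : ℕ) : ℕ := L7.dgs τ (od O e)

/-- the pattern `P` of eight points is the pattern `O` up to the order of the points and the names of
the labels -/
def ptok (P h τ O : ℕ) : Bool :=
  Nat.ble 6 (od P 27) && subv 28 h 28 && okR O 27 && L7.isP6 τ &&
    ((Nat.beq (vx h 6) 6 && Nat.beq (vx h 7) 7) || (Nat.beq (vx h 6) 7 && Nat.beq (vx h 7) 6)) &&
    Nat.beq (pre (tl τ O) 27) (sub P h 27)

theorem kn28 : ∀ a < 9, ∀ b < 9, a ≠ b → kn 28 a b = true → a < 8 ∧ b < 8 := by decide +kernel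

theorem dgs_eq (σ x : ℕ) : L7.dgs σ x = dg3 σ x := rfl

include H in
theorem _root_.CR.L9.Lab.ptok {h τ O : ℕ} (hO : Dead9 O)
    (hk : ptok (pre L 28) h τ O = true) : False := by
  unfold L8.ptok at hk
  simp only [Bool.and_eq_true] at hk
  obtain ⟨⟨⟨⟨⟨h1, h2⟩, h3⟩, h4⟩, h5⟩, h6⟩ := hk
  have hsub := H.sub (m := 8) (by norm_num) (by norm_num) h2
  have hpm := L7.isP6_pm h4
  have hOd := okR_spec 27 h3
  have hv8 : ∀ i, i < 8 → vx h i < 8 := by
    intro i hi
    rcases Nat.lt_or_ge i 7 with h7 | h7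
    · have he := eo_lt (m := 8) (n := 28) h7 (by norm_num) (by norm_num) (by norm_num)
      obtain ⟨a1, a2, a3, a4⟩ := subv_spec 28 h 28 h2 _ he
      obtain ⟨b1, b2, -⟩ := e_spec 7 (by norm_num) i h7
      rw [b1, b2] at a1 a2
      rw [b2] at a3
      rw [b1] at a4
      exact (kn28 _ a3 _ a4 a2 a1).1
    · obtain rfl : i = 7 := by omega
      have he := eo_lt (i := 6) (j := 7) (m := 8) (n := 28) (by norm_num) (by norm_num)
        (by norm_num) (by norm_num)
      obtain ⟨a1, a2, a3, a4⟩ := subv_spec 28 h 28 h2 _ he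
      obtain ⟨b1, b2, -⟩ := e_spec 7 (by norm_num) 6 (by norm_num)
      rw [b1, b2] at a1 a2
      rw [b2] at a3
      rw [b1] at a4
      exact (kn28 _ a3 _ a4 a2 a1).2
  -- the new frame
  refine hO F (fun i => if i < 8 then f (vx h i) else f 8)
    (fun a => if a < 6 then g (L7.dgs τ a) else g a) ?_ ?_ ?_ ?_ ?_
  · have aux : ∀ i j, i < j → j < 9 → (if i < 8 then f (vx h i) else f 8) ≠
        (if j < 8 then f (vx h j) else f 8) := by
      intro i j hij hj
      rw [if_pos (by omega : i < 8)]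
      by_cases hj8 : j < 8
      · rw [if_pos hj8]
        intro he
        have := hsub.inj i j (by omega) hj8 he
        omega
      · rw [if_neg hj8]
        intro he
        have h7 := hv8 i (by omega)
        have := H.inj _ _ (by omega) (by norm_num) he
        omega
    intro i j hi hj he
    by_contra hne
    rcases lt_or_gt_of_ne hne with h7 | h7
    · exact aux i j h7 hj he
    · exact aux j i h7 hi he.symm
  · intro a b ha hb hab
    simp only [dgs_eq] at hab
    have k1 : ∀ a, a < 6 → dg3 τ a < 6 := fun a ha => hpm.lt a ha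
    by_cases ha6 : a < 6 <;> by_cases hb6 : b < 6
    · rw [if_pos ha6, if_pos hb6] at hab
      exact hpm.inj a b ha6 hb6
        (H.ginj _ _ (by have := k1 a ha6; omega) (by have := k1 b hb6; omega) hab)
    · rw [if_pos ha6, if_neg hb6] at hab
      have := H.ginj _ _ (by have := k1 a ha6; omega) hb hab
      have := k1 a ha6
      omega
    · rw [if_neg ha6, if_pos hb6] at hab
      have := H.ginj _ _ ha (by have := k1 b hb6; omega) hab
      have := k1 b hb6
      omega
    · rw [if_neg ha6, if_neg hb6] at hab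
      exact H.ginj _ _ ha hb hab
  · intro a ha
    show 2 ≤ ((if a < 6 then g (L7.dgs τ a) else g a : Fin 8)).val
    rw [if_pos ha]
    exact H.good _ (hpm.lt a ha)
  · intro i j hij hj hne
    show F.c (if i < 8 then f (vx h i) else f 8) (if j < 8 then f (vx h j) else f 8) =
      if lab O i j < 6 then g (L7.dgs τ (lab O i j)) else g (lab O i j)
    rw [if_pos (by omega : i < 8), if_pos hj]
    have he : eo i j < 27 := by
      unfold eo
      interval_cases j <;> omega
    have h7 := hOd _ he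
    rw [lab_eq_od, if_pos h7, hsub.col i j hij hj]
    congr 1
    -- both labels are digits of the same number
    have hnn : Nat.beq (pre (tl τ O) 27) (sub (pre L 28) h 27) = true := h6
    have h8 : pre (tl τ O) 27 = sub (pre L 28) h 27 := Nat.eq_of_beq_eq_true hnn
    have h9 : od (pre (tl τ O) 27) (eo i j) = tl τ O (eo i j) :=
      od_pre (fun e => dg3_lt _ _) he
    have h10 : od (sub (pre L 28) h 27) (eo i j) =
        lb (pre L 28) (vx h (eI (eo i j))) (vx h (eJ (eo i j))) := by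
      unfold L9.sub
      exact od_pre (fun e => lb_lt _ _ _) he
    have h11 : lab (sub (pre L 28) h 28) i j =
        lb (pre L 28) (vx h (eI (eo i j))) (vx h (eJ (eo i j))) := by
      rw [lab_eq_od]
      unfold L9.sub
      exact od_pre (fun e => lb_lt _ _ _) (by omega : eo i j < 28)
    show lab (sub (pre L 28) h 28) i j = L7.dgs τ (od O (eo i j))
    rw [h11, ← h10, ← h8, h9]
    rfl
  · show (F.c (if 6 < 8 then f (vx h 6) else f 8) (if 7 < 8 then f (vx h 7) else f 8)).val < 2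
    rw [if_pos (by norm_num), if_pos (by norm_num)]
    have h7 : F.c (f 6) (f 7) = g (L 27) := H.col 6 7 (by norm_num) (by norm_num)
    have h8 : od (pre L 28) 27 = L 27 := od_pre H.lt (by norm_num)
    rw [h8] at h1
    have h9 := Nat.le_of_ble_eq_true h1
    have h10 := H.lt 27
    have hb : (F.c (f 6) (f 7)).val < 2 := by
      rw [h7]
      obtain h11 | h11 : L 27 = 6 ∨ L 27 = 7 := by omega
      · rw [h11, H.g6]; decide
      · rw [h11, H.g7]; decide
    simp only [Bool.or_eq_true, Bool.and_eq_true, Nat.beq_eq] at h5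
    rcases h5 with ⟨h11, h12⟩ | ⟨h11, h12⟩
    · rw [h11, h12]; exact hb
    · rw [h11, h12, F.symm]; exact hb

end lab

/-! ### The search -/

/-- tokens -/
inductive Tok
  | deg (i j k l m : ℕ)
  | apx (i j k l m : ℕ)
  | siz (x : ℕ)
  | t6 (h j : ℕ)
  | s7 (h C : ℕ)
  | c8 (C : ℕ)
  | pt (h τ i : ℕ)
  | spl

/-- the states : all pairs of stars -/
def root (R : ℕ) (E : List ℕ) : List (ℕ × ℕ) :=
  E.flatMap fun w => E.flatMap fun v => cond (Nat.ble w v) [(27, R + w * 8 ^ 15 + v * 8 ^ 21)] []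

/-- the check of a list of tokens against a stack of states -/
noncomputable def run (T5 E6 : ℕ → ℕ) (ok8 : ℕ → ℕ → Bool) (ok7 : ℕ → ℕ → Bool) (Os : ℕ → ℕ) :
    List Tok → List (ℕ × ℕ) → Bool
  | [], [] => true
  | [], _ :: _ => false
  | _ :: _, [] => false
  | Tok.deg i j k l m :: ts, (n, P) :: st => tdeg n P i j k l m && run T5 E6 ok8 ok7 Os ts st
  | Tok.apx i j k l m :: ts, (n, P) :: st => tapx n P i j k l m && run T5 E6 ok8 ok7 Os ts st
  | Tok.siz x :: ts, (n, P) :: st => tsiz n P x && run T5 E6 ok8 ok7 Os ts st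
  | Tok.t6 h j :: ts, (n, P) :: st => t6ok T5 E6 n P h j && run T5 E6 ok8 ok7 Os ts st
  | Tok.s7 h C :: ts, (n, P) :: st => s7ok ok7 n P h C && run T5 E6 ok8 ok7 Os ts st
  | Tok.c8 C :: ts, (n, P) :: st => Nat.beq n 28 && ok8 P C && run T5 E6 ok8 ok7 Os ts st
  | Tok.pt h τ i :: ts, (n, P) :: st =>
    Nat.beq n 28 && ptok P h τ (Os i) && run T5 E6 ok8 ok7 Os ts st
  | Tok.spl :: ts, (n, P) :: st =>
    Nat.beq n 27 &&
      run T5 E6 ok8 ok7 Os ts ((28, P) :: (28, P + 8 ^ 27) :: (28, P + 2 * 8 ^ 27) ::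
        (28, P + 3 * 8 ^ 27) :: (28, P + 4 * 8 ^ 27) :: (28, P + 5 * 8 ^ 27) ::
        (28, P + 6 * 8 ^ 27) :: (28, P + 7 * 8 ^ 27) :: st)

/-- a configuration with labels whose stars are in the list -/
structure Full2 (R : ℕ) (E : List ℕ) (F : Conf 9) (f : ℕ → Fin 9) (g : ℕ → Fin 8)
    (L : ℕ → ℕ) : Prop extends Lab F f g L where
  r : pre L 15 = R
  w : ∃ w ∈ E, ∃ v ∈ E, w ≤ v ∧ pre (fun i => L (15 + i)) 6 = w ∧ pre (fun i => L (21 + i)) 6 = v

theorem root_mem {R : ℕ} {E : List ℕ} {F : Conf 9} {f : ℕ → Fin 9} {g : ℕ → Fin 8}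
    {L : ℕ → ℕ} (H : Full2 R E F f g L) : (27, pre L 27) ∈ root R E := by
  obtain ⟨w, hw, v, hv, hle, h1, h2⟩ := H.w
  unfold root
  rw [List.mem_flatMap]
  refine ⟨w, hw, ?_⟩
  rw [List.mem_flatMap]
  refine ⟨v, hv, ?_⟩
  have e1 : pre L 21 = R + w * 8 ^ 15 := by
    rw [show (21 : ℕ) = 15 + 6 from rfl, pre_add, H.r, h1]
  have e2 : pre L 27 = pre L 21 + v * 8 ^ 21 := by
    rw [show (27 : ℕ) = 21 + 6 from rfl, pre_add, h2]
  have e3 : Nat.ble w v = true := Nat.ble_eq_true_of_le hle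
  rw [e3, cond_true, List.mem_singleton, e2, e1]

/-- there is no configuration for the state -/
def Bad (R : ℕ) (E : List ℕ) (a : ℕ × ℕ) : Prop :=
  a.1 ≤ 36 ∧ ∀ (F : Conf 9) (f : ℕ → Fin 9) (g : ℕ → Fin 8) (L : ℕ → ℕ),
    Full2 R E F f g L → pre L a.1 = a.2 → False

section sound

variable {T5 E6 T4 E5 : ℕ → ℕ} (hF : ∀ F, L7.TabF F T5 E6 T4 E5)
  {ok8 ok7 : ℕ → ℕ → Bool} (hok8 : ∀ P C, ok8 P C = true → ¬ Realk 8 8 P)
  (hok7 : ∀ P C, ok7 P C = true → ¬ Realk 7 8 P)
  {Os : ℕ → ℕ} (hO : ∀ i, Dead9 (Os i))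
variable {R : ℕ} {E : List ℕ}

include hF hok8 hok7 hO in
theorem run_sound : ∀ (ts : List Tok) (st : List (ℕ × ℕ)),
    (∀ a ∈ st, a.1 ≤ 36) → run T5 E6 ok8 ok7 Os ts st = true → ∀ a ∈ st, Bad R E a
  | [], [], _, _ => by simp
  | [], _ :: _, _, h => by simp [run] at h
  | _ :: _, [], _, _ => by simp
  | t :: ts, (n, P) :: st, hn, h => by
    have hn0 : n ≤ 36 := hn (n, P) (by simp)
    have hst : ∀ a ∈ st, a.1 ≤ 36 := fun a ha => hn a (by simp [ha])
    -- it is enough to treat the first state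
    suffices h0 : ((∀ (F : Conf 9) (f : ℕ → Fin 9) (g : ℕ → Fin 8) (L : ℕ → ℕ),
        Full2 R E F f g L → pre L n = P → False)) ∧ ∀ a ∈ st, Bad R E a by
      intro a ha
      rcases List.mem_cons.1 ha with rfl | ha
      · exact ⟨hn0, h0.1⟩
      · exact h0.2 a ha
    cases t with
    | deg i j k l m =>
      simp only [run, Bool.and_eq_true] at h
      refine ⟨?_, run_sound ts st hst h.2⟩
      intro F f g L H hP
      rw [← hP] at h
      exact H.toLab.tdeg h.1
    | apx i j k l m =>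
      simp only [run, Bool.and_eq_true] at h
      refine ⟨?_, run_sound ts st hst h.2⟩
      intro F f g L H hP
      rw [← hP] at h
      exact H.toLab.tapx h.1
    | siz x =>
      simp only [run, Bool.and_eq_true] at h
      refine ⟨?_, run_sound ts st hst h.2⟩
      intro F f g L H hP
      rw [← hP] at h
      exact H.toLab.tsiz hn0 h.1
    | t6 q j =>
      simp only [run, Bool.and_eq_true] at h
      refine ⟨?_, run_sound ts st hst h.2⟩
      intro F f g L H hP
      rw [← hP] at h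
      exact H.toLab.t6ok (hF F) h.1
    | s7 q C =>
      simp only [run, Bool.and_eq_true] at h
      refine ⟨?_, run_sound ts st hst h.2⟩
      intro F f g L H hP
      rw [← hP] at h
      exact H.toLab.s7ok hok7 h.1
    | c8 C =>
      simp only [run, Bool.and_eq_true] at h
      obtain ⟨⟨h1, h2⟩, h3⟩ := h
      refine ⟨?_, run_sound ts st hst h3⟩
      intro F f g L H hP
      rw [Nat.beq_eq] at h1
      rw [← hP, h1] at h2
      exact hok8 _ _ h2 (Occ.real (H.toLab.occ (by norm_num) (by norm_num)))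
    | pt q τ i =>
      simp only [run, Bool.and_eq_true] at h
      obtain ⟨⟨h1, h2⟩, h3⟩ := h
      refine ⟨?_, run_sound ts st hst h3⟩
      intro F f g L H hP
      rw [Nat.beq_eq] at h1
      rw [← hP, h1] at h2
      exact H.toLab.ptok (hO i) h2
    | spl =>
      simp only [run, Bool.and_eq_true, Nat.beq_eq] at h
      obtain ⟨h1, h2⟩ := h
      have h3 := run_sound ts _ (by
        intro a ha
        simp only [List.mem_cons] at ha
        rcases ha with rfl | rfl | rfl | rfl | rfl | rfl | rfl | rfl | ha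
        all_goals first | exact hst a ha | (simp only; omega)) h2
      refine ⟨?_, fun a ha => h3 a (by simp [ha])⟩
      intro F f g L H hP
      have hL := H.toLab.lt 27
      have hpre : pre L 28 = P + L 27 * 8 ^ 27 := by rw [pre, ← h1, hP, h1]
      have h4 : (28, pre L 28) ∈ ((28, P) :: (28, P + 8 ^ 27) :: (28, P + 2 * 8 ^ 27) ::
        (28, P + 3 * 8 ^ 27) :: (28, P + 4 * 8 ^ 27) :: (28, P + 5 * 8 ^ 27) ::
        (28, P + 6 * 8 ^ 27) :: (28, P + 7 * 8 ^ 27) :: st) := by
        rw [hpre]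
        interval_cases (L 27) <;> simp
      exact (h3 _ h4).2 F f g L H rfl

end sound

/-- the complete check for the pattern `R` with the list `E` of stars -/
noncomputable def chk (T5 E6 : ℕ → ℕ) (ok8 : ℕ → ℕ → Bool) (ok7 : ℕ → ℕ → Bool) (Os : ℕ → ℕ)
    (R : ℕ) (E : List ℕ) (T : List Tok) : Bool :=
  Nat.blt R (8 ^ 15) && okR R 15 && E.all (fun w => Nat.blt w (8 ^ 6)) &&
    run T5 E6 ok8 ok7 Os T (root R E)

theorem build {R : ℕ} {E : List ℕ} (hR : R < 8 ^ 15) (hR2 : okR R 15 = true)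
    (hE : ∀ w ∈ E, w < 8 ^ 6) {F : Conf 9} {f : ℕ → Fin 9} {g : ℕ → Fin 8}
    (hf : ∀ i j, i < 9 → j < 9 → f i = f j → i = j) (hocc : Occ F 6 f g R) (hg : GoodG g)
    {w v : ℕ} (hw : w ∈ E) (hv : v ∈ E) (hwv : w ≤ v) (sw : Star2 F f g w (f 6))
    (sv : Star2 F f g v (f 7)) : ∃ L, Full2 R E F f (fixg g) L := by
  have hinj := fixg_inj hg hocc.ginj
  choose lbl hl using surj8 hinj
  set L : ℕ → ℕ := fun e => lbl (F.c (f (eI e)) (f (eJ e))) with hL
  have hcol : ∀ i j, i < j → j < 9 → F.c (f i) (f j) = fixg g (L (eo i j)) := by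
    intro i j hij hj
    obtain ⟨a1, a2, a3⟩ := e_spec j hj i hij
    simp only [hL, a1, a2]
    exact ((hl _).2).symm
  have hlab : Lab F f (fixg g) L := by
    refine ⟨hf, hinj, ?_, rfl, rfl, fun e => (hl _).1, hcol⟩
    intro a ha
    rw [fixg_lt ha]
    exact hg a ha
  -- how to find a label
  have find : ∀ i j a, i < j → j < 9 → a < 8 → F.c (f i) (f j) = fixg g a → L (eo i j) = a := by
    intro i j a hij hj ha h
    rw [hcol i j hij hj] at h
    exact hinj _ _ (hlab.lt _) ha h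
  refine ⟨L, ⟨hlab, ?_, w, hw, v, hv, hwv, ?_, ?_⟩⟩
  · have h1 : pre L 15 = pre (od R) 15 := by
      apply pre_congr
      intro e he
      obtain ⟨a1, a2, a3⟩ := e_spec2 e (by omega)
      have a4 : eJ e < 6 := by
        unfold eJ
        split_ifs <;> omega
      have h2 := hocc.col (eI e) (eJ e) a1 a4
      rw [lab_eq_od, a3, ← fixg_lt (g := g) (okR_spec 15 hR2 e he)] at h2
      have h3 := find _ _ _ a1 a2 (od_lt _ _) h2
      rw [a3] at h3
      exact h3
    rw [h1, pre_od, Nat.mod_eq_of_lt hR]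
  · have h1 : pre (fun i => L (15 + i)) 6 = pre (od w) 6 := by
      apply pre_congr
      intro i hi
      obtain ⟨h2, h3⟩ := sw i hi
      rw [← fixg_lt (g := g) h2] at h3
      exact find i 6 _ hi (by norm_num) (by omega) h3
    rw [h1, pre_od, Nat.mod_eq_of_lt (hE w hw)]
  · have h1 : pre (fun i => L (21 + i)) 6 = pre (od v) 6 := by
      apply pre_congr
      intro i hi
      obtain ⟨h2, h3⟩ := sv i hi
      rw [← fixg_lt (g := g) h2] at h3
      exact find i 7 _ (by omega) (by norm_num) (by omega) h3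
    rw [h1, pre_od, Nat.mod_eq_of_lt (hE v hv)]

/-- exchange of the points 6 and 7 -/
def sw67 (i : ℕ) : ℕ := if i = 6 then 7 else if i = 7 then 6 else i

theorem sw67_lt {i : ℕ} (h : i < 6) : sw67 i = i := by
  unfold sw67
  rw [if_neg (by omega), if_neg (by omega)]

theorem sw67_inj : ∀ i j, i < 9 → j < 9 → sw67 i = sw67 j → i = j := by
  intro i j _ _ h
  unfold sw67 at h
  split_ifs at h <;> omega

theorem sw67_lt9 {i : ℕ} (h : i < 9) : sw67 i < 9 := by
  unfold sw67
  split_ifs <;> omega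

/-- **levels 8 in case (ii), for one pattern** -/
theorem kill2_of_chk {T5 E6 T4 E5 : ℕ → ℕ} (hF : ∀ F, L7.TabF F T5 E6 T4 E5)
    {ok8 ok7 : ℕ → ℕ → Bool} (hok8 : ∀ P C, ok8 P C = true → ¬ Realk 8 8 P)
    (hok7 : ∀ P C, ok7 P C = true → ¬ Realk 7 8 P) {Os : ℕ → ℕ} (hO : ∀ i, Dead9 (Os i))
    {R : ℕ} {E : List ℕ} {T : List Tok} (h : chk T5 E6 ok8 ok7 Os R E T = true) : Kill2 R E := by
  unfold chk at h
  simp only [Bool.and_eq_true, List.all_eq_true, Nat.blt_eq] at h
  obtain ⟨⟨⟨h1, h2⟩, h3⟩, h4⟩ := h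
  -- the configuration with `w ≤ v` is impossible
  have key : ∀ (F : Conf 9) (f : ℕ → Fin 9) (g : ℕ → Fin 8),
      (∀ i j, i < 9 → j < 9 → f i = f j → i = j) → Occ F 6 f g R → GoodG g →
      ∀ w ∈ E, ∀ v ∈ E, w ≤ v → Star2 F f g w (f 6) → Star2 F f g v (f 7) → False := by
    intro F f g hf hocc hg w hw v hv hwv sw sv
    obtain ⟨L, H⟩ := build h1 h2 h3 hf hocc hg hw hv hwv sw sv
    have h5 := run_sound hF hok8 hok7 hO (R := R) (E := E) T _ (by
      intro a ha
      unfold root at ha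
      rw [List.mem_flatMap] at ha
      obtain ⟨w, _, ha⟩ := ha
      rw [List.mem_flatMap] at ha
      obtain ⟨v, _, ha⟩ := ha
      cases hb : Nat.ble w v
      · rw [hb, cond_false] at ha
        exact absurd ha List.not_mem_nil
      · rw [hb, cond_true, List.mem_singleton] at ha
        rw [ha]
        norm_num) h4
    exact (h5 _ (root_mem H)).2 F f _ L H rfl
  intro F f g hfr hocc hg ⟨w, hw, sw⟩ ⟨v, hv, sv⟩
  rcases le_total w v with hwv | hwv
  · exact key F f g hfr.inj hocc hg w hw v hv hwv sw sv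
  · -- exchange the points 6 and 7
    have e : ∀ i, i < 6 → f (sw67 i) = f i := fun i hi => by rw [sw67_lt hi]
    refine key F (fun i => f (sw67 i)) g ?_ ?_ hg v hv w hw hwv ?_ ?_
    · intro i j hi hj he
      exact sw67_inj i j hi hj (hfr.inj _ _ (sw67_lt9 hi) (sw67_lt9 hj) he)
    · refine ⟨?_, hocc.ginj, ?_⟩
      · intro i j hi hj he
        simp only [e i hi, e j hj] at he
        exact hocc.inj i j hi hj he
      · intro i j hij hj
        show F.c (f (sw67 i)) (f (sw67 j)) = _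
        rw [e i (by omega), e j hj]
        exact hocc.col i j hij hj
    · intro i hi
      show od v i < 6 ∧ F.c (f (sw67 i)) (f 7) = g (od v i)
      rw [e i hi]
      exact sv i hi
    · intro i hi
      show od w i < 6 ∧ F.c (f (sw67 i)) (f 6) = g (od w i)
      rw [e i hi]
      exact sw i hi

end L8

end CR
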