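import Pool.Agent.Lib.MP_6f5d36_co.OccReal

set_option autoImplicit false

/-!
# MP_6f5d36_co : levels 8 and 9 (case (i): the bad edges form a matching)

The nine points are `f 0, ..., f 8`; `f 0, ..., f 5` carry the pattern `R` (six big colours), `f 6`
and `f 7` are the partners (in the class with two edges, label 6) of `f s1` and `f s2`, `f 8` is the
partner (in the class with one edge, label 7) of `f s3`.  The label of the edge number `e` is `L e`.
A state `(n, P)` of the search stands for the configurations whose first `n` edges have the labels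
given by the octal digits of `P`.
-/

namespace CR

namespace L9

/-! ### Octal prefixes -/

/-- the number with the octal digits `L 0, ..., L (n-1)` -/
def pre (L : ℕ → ℕ) : ℕ → ℕ
  | 0 => 0
  | n + 1 => pre L n + L n * 8 ^ n

theorem pre_lt {L : ℕ → ℕ} (hL : ∀ e, L e < 8) : ∀ n, pre L n < 8 ^ n
  | 0 => by simp [pre]
  | n + 1 => by
    have h1 := pre_lt hL n
    have h2 : L n * 8 ^ n ≤ 7 * 8 ^ n := Nat.mul_le_mul_right _ (by have := hL n; omega)
    rw [pre, pow_succ]
    omega

theorem pre_congr {L L' : ℕ → ℕ} : ∀ n, (∀ e, e < n → L e = L' e) → pre L n = pre L' n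
  | 0, _ => rfl
  | n + 1, h => by
    rw [pre, pre, pre_congr n (fun e he => h e (by omega)), h n (by omega)]

theorem pre_add (L : ℕ → ℕ) (n : ℕ) : ∀ m, pre L (n + m) = pre L n + pre (fun i => L (n + i)) m * 8 ^ n
  | 0 => by simp [pre]
  | m + 1 => by
    rw [← Nat.add_assoc, pre, pre_add L n m, pre, pow_add]
    ring

theorem od_pre {L : ℕ → ℕ} (hL : ∀ e, L e < 8) {e n : ℕ} (h : e < n) : od (pre L n) e = L e := by
  obtain ⟨m, rfl⟩ : ∃ m, n = e + 1 + m := ⟨n - (e + 1), by omega⟩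
  rw [pre_add, pre]
  unfold od
  have h1 := pre_lt hL e
  have h2 : pre L e + L e * 8 ^ e + pre (fun i => L (e + 1 + i)) m * 8 ^ (e + 1) =
      pre L e + 8 ^ e * (L e + 8 * pre (fun i => L (e + 1 + i)) m) := by
    rw [pow_succ]; ring
  rw [h2, Nat.add_mul_div_left _ _ (by positivity), Nat.div_eq_of_lt h1, Nat.zero_add]
  have := hL e
  omega

theorem pre_od (P : ℕ) : ∀ n, pre (od P) n = P % 8 ^ n
  | 0 => by simp [pre, Nat.mod_one]
  | n + 1 => by
    rw [pre, pre_od P n]
    unfold od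
    rw [pow_succ, Nat.mod_mul]
    ring

/-! ### Labelled configurations -/

/-- the larger end of the edge number `e` -/
def eJ (e : ℕ) : ℕ :=
  if e < 1 then 1 else if e < 3 then 2 else if e < 6 then 3 else if e < 10 then 4 else
  if e < 15 then 5 else if e < 21 then 6 else if e < 28 then 7 else 8

/-- the smaller end of the edge number `e` -/
def eI (e : ℕ) : ℕ := e - eJ e * (eJ e - 1) / 2

theorem e_spec : ∀ j < 9, ∀ i < j, eJ (eo i j) = j ∧ eI (eo i j) = i ∧ eo i j < 36 := by
  decide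

theorem e_spec2 : ∀ e < 36, eI e < eJ e ∧ eJ e < 9 ∧ eo (eI e) (eJ e) = e := by
  decide

theorem eo_lt {i j m n : ℕ} (hij : i < j) (hj : j < m) (h : m * (m - 1) / 2 ≤ n) (hm : m ≤ 9) :
    eo i j < n := by
  refine lt_of_lt_of_le ?_ h
  unfold eo
  interval_cases m <;> interval_cases j <;> omega

/-- a configuration with labels on all edges of nine points -/
structure Lab (F : Conf 9) (f : ℕ → Fin 9) (g : ℕ → Fin 8) (L : ℕ → ℕ) : Prop where
  inj : ∀ i j, i < 9 → j < 9 → f i = f j → i = j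
  ginj : ∀ a b, a < 8 → b < 8 → g a = g b → a = b
  good : GoodG g
  g6 : g 6 = 1
  g7 : g 7 = 0
  lt : ∀ e, L e < 8
  col : ∀ i j, i < j → j < 9 → F.c (f i) (f j) = g (L (eo i j))

section lab

variable {F : Conf 9} {f : ℕ → Fin 9} {g : ℕ → Fin 8} {L : ℕ → ℕ} (H : Lab F f g L)

include H in
/-- an occurrence on the first `m` points -/
theorem Lab.occ {m n : ℕ} (hm : m ≤ 9) (h : m * (m - 1) / 2 ≤ n) : Occ F m f g (pre L n) where
  inj i j h1 h2 := H.inj i j (by omega) (by omega)
  ginj := H.ginj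
  col i j h1 h2 := by
    rw [H.col i j h1 (by omega), lab_eq_od, od_pre H.lt (eo_lt h1 h2 h hm)]

/-- the edge `i j` is among the first `n` edges -/
def kn (n i j : ℕ) : Bool := cond (Nat.blt i j) (Nat.blt (eo i j) n) (Nat.blt (eo j i) n)

/-- the label of the edge `i j` -/
def lb (P i j : ℕ) : ℕ := cond (Nat.blt i j) (od P (eo i j)) (od P (eo j i))

include H in
theorem Lab.lb {n i j : ℕ} (hi : i < 9) (hj : j < 9) (hij : i ≠ j) (hk : kn n i j = true) :
    F.c (f i) (f j) = g (lb (pre L n) i j) := by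
  unfold kn at hk
  unfold L9.lb
  rcases lt_or_gt_of_ne hij with h | h
  · have h1 : Nat.blt i j = true := by rw [Nat.blt_eq]; exact h
    rw [h1] at hk ⊢
    simp only [cond_true, Nat.blt_eq] at hk ⊢
    rw [od_pre H.lt hk]
    exact H.col i j h hj
  · have h1 : Nat.blt i j = false := by
      rw [← Bool.not_eq_true, Nat.blt_eq]; omega
    rw [h1] at hk ⊢
    simp only [cond_false, Nat.blt_eq] at hk ⊢
    rw [od_pre H.lt hk, F.symm]
    exact H.col j i h hi

end lab

/-! ### Local rules -/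

/-- all different -/
def dif (i j k l m : ℕ) : Bool :=
  !(Nat.beq i j || Nat.beq i k || Nat.beq i l || Nat.beq i m || Nat.beq j k || Nat.beq j l ||
    Nat.beq j m || Nat.beq k l || Nat.beq k m || Nat.beq l m)

theorem nbeq {a b : ℕ} : Nat.beq a b = false ↔ a ≠ b := by
  rw [← Bool.not_eq_true, Nat.beq_eq]

theorem dif_spec {i j k l m : ℕ} (h : dif i j k l m = true) : i ≠ j ∧ i ≠ k ∧ i ≠ l ∧ i ≠ m ∧
    j ≠ k ∧ j ≠ l ∧ j ≠ m ∧ k ≠ l ∧ k ≠ m ∧ l ≠ m := by
  unfold dif at h
  simp only [Bool.not_eq_true', Bool.or_eq_false_iff, nbeq] at h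
  tauto

/-- less than 9 -/
def sm (i j k l m : ℕ) : Bool :=
  Nat.blt i 9 && Nat.blt j 9 && Nat.blt k 9 && Nat.blt l 9 && Nat.blt m 9

theorem sm_spec {i j k l m : ℕ} (h : sm i j k l m = true) :
    i < 9 ∧ j < 9 ∧ k < 9 ∧ l < 9 ∧ m < 9 := by
  unfold sm at h
  simp only [Bool.and_eq_true, Nat.blt_eq] at h
  tauto

/-- the vertex `i` has four neighbours `j, k, l, m` in the same colour -/
def tdeg (n P i j k l m : ℕ) : Bool :=
  dif i j k l m && sm i j k l m && kn n i j && kn n i k && kn n i l && kn n i m &&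
    Nat.beq (lb P i j) (lb P i k) && Nat.beq (lb P i j) (lb P i l) && Nat.beq (lb P i j) (lb P i m)

/-- the vertices `i, j` have three apexes `k, l, m` -/
def tapx (n P i j k l m : ℕ) : Bool :=
  dif i j k l m && sm i j k l m && kn n i k && kn n j k && kn n i l && kn n j l && kn n i m &&
    kn n j m && Nat.beq (lb P i k) (lb P j k) && Nat.beq (lb P i l) (lb P j l) &&
    Nat.beq (lb P i m) (lb P j m)

section lab

variable {F : Conf 9} {f : ℕ → Fin 9} {g : ℕ → Fin 8} {L : ℕ → ℕ} (H : Lab F f g L)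

include H in
theorem Lab.ne {i j : ℕ} (hi : i < 9) (hj : j < 9) (hij : i ≠ j) : f i ≠ f j :=
  fun h => hij (H.inj i j hi hj h)

include H in
theorem Lab.tdeg {n i j k l m : ℕ} (h : tdeg n (pre L n) i j k l m = true) : False := by
  unfold L9.tdeg at h
  simp only [Bool.and_eq_true] at h
  obtain ⟨⟨⟨⟨⟨⟨⟨⟨h1, h2⟩, h3⟩, h4⟩, h5⟩, h6⟩, h7⟩, h8⟩, h9⟩ := h
  obtain ⟨d1, d2, d3, d4, d5, d6, d7, d8, d9, d10⟩ := dif_spec h1
  obtain ⟨s1, s2, s3, s4, s5⟩ := sm_spec h2
  rw [Nat.beq_eq] at h7 h8 h9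
  apply F.deg_le (f i) (f j) (f k) (f l) (f m) (H.ne s1 s2 d1) (H.ne s1 s3 d2) (H.ne s1 s4 d3)
    (H.ne s1 s5 d4) (H.ne s2 s3 d5) (H.ne s2 s4 d6) (H.ne s2 s5 d7) (H.ne s3 s4 d8)
    (H.ne s3 s5 d9) (H.ne s4 s5 d10)
  · rw [H.lb s1 s2 d1 h3, H.lb s1 s3 d2 h4, h7]
  · rw [H.lb s1 s2 d1 h3, H.lb s1 s4 d3 h5, h8]
  · rw [H.lb s1 s2 d1 h3, H.lb s1 s5 d4 h6, h9]

include H in
theorem Lab.tapx {n i j k l m : ℕ} (h : tapx n (pre L n) i j k l m = true) : False := by
  unfold L9.tapx at h
  simp only [Bool.and_eq_true] at h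
  obtain ⟨⟨⟨⟨⟨⟨⟨⟨⟨⟨h1, h2⟩, h3⟩, h4⟩, h5⟩, h6⟩, h7⟩, h8⟩, h9⟩, h10⟩, h11⟩ := h
  obtain ⟨d1, d2, d3, d4, d5, d6, d7, d8, d9, d10⟩ := dif_spec h1
  obtain ⟨s1, s2, s3, s4, s5⟩ := sm_spec h2
  rw [Nat.beq_eq] at h9 h10 h11
  apply F.apex_le (f i) (f j) (f k) (f l) (f m) (H.ne s1 s2 d1) (H.ne s1 s3 d2) (H.ne s1 s4 d3)
    (H.ne s1 s5 d4) (H.ne s2 s3 d5) (H.ne s2 s4 d6) (H.ne s2 s5 d7) (H.ne s3 s4 d8)
    (H.ne s3 s5 d9) (H.ne s4 s5 d10)
  · rw [H.lb s1 s3 d2 h3, H.lb s2 s3 d5 h4, h9]
  · rw [H.lb s1 s4 d3 h5, H.lb s2 s4 d6 h6, h10]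
  · rw [H.lb s1 s5 d4 h7, H.lb s2 s5 d7 h8, h11]

end lab

/-! ### Sizes of the classes -/

/-- the number of edges with the label `a` among the first `n` -/
def cnt (P a : ℕ) : ℕ → ℕ
  | 0 => 0
  | n + 1 => cond (Nat.beq (od P n) a) (Nat.succ (cnt P a n)) (cnt P a n)

theorem cnt_eq (P a : ℕ) : ∀ n,
    cnt P a n = ((Finset.range n).filter (fun e => od P e = a)).card
  | 0 => by simp [cnt]
  | n + 1 => by
    rw [cnt, Finset.range_add_one, Finset.filter_insert, cnt_eq P a n]
    by_cases h : od P n = a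
    · rw [if_pos h, Finset.card_insert_of_notMem (by simp)]
      have : Nat.beq (od P n) a = true := by rw [Nat.beq_eq]; exact h
      rw [this]
      rfl
    · rw [if_neg h]
      have : Nat.beq (od P n) a = false := nbeq.2 h
      rw [this]
      rfl

/-- one or zero -/
def b2 (b : Bool) : ℕ := cond b 1 0

/-- more than `9 - x` of the labels `0, ..., 5` have at least `x` edges -/
def tsiz (n P x : ℕ) : Bool :=
  Nat.ble 3 x && Nat.ble x 9 &&
  Nat.blt (9 - x) (b2 (Nat.ble x (cnt P 0 n)) + b2 (Nat.ble x (cnt P 1 n)) +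
    b2 (Nat.ble x (cnt P 2 n)) + b2 (Nat.ble x (cnt P 3 n)) + b2 (Nat.ble x (cnt P 4 n)) +
    b2 (Nat.ble x (cnt P 5 n)))

section lab

variable {F : Conf 9} {f : ℕ → Fin 9} {g : ℕ → Fin 8} {L : ℕ → ℕ} (H : Lab F f g L)

include H in
theorem Lab.card_le {n a : ℕ} (hn : n ≤ 36) :
    ((Finset.range n).filter (fun e => L e = a)).card ≤ (g a).val + 1 := by
  have h1 := F.count (g a)
  rw [← h1]
  apply Finset.card_le_card_of_injOn
    (fun e => (min (f (eI e)) (f (eJ e)), max (f (eI e)) (f (eJ e))))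
  · intro e he
    rw [Finset.mem_coe, Finset.mem_filter, Finset.mem_range] at he
    obtain ⟨h2, h3, h4⟩ := e_spec2 e (by omega)
    have hne : f (eI e) ≠ f (eJ e) := H.ne (by omega) h3 (by omega)
    rw [Finset.mem_coe, Finset.mem_filter]
    refine ⟨Finset.mem_univ _, ?_, ?_⟩
    · exact min_lt_max.2 hne
    · have h5 := H.col (eI e) (eJ e) h2 h3
      rw [h4, he.2] at h5
      show F.c (min (f (eI e)) (f (eJ e))) (max (f (eI e)) (f (eJ e))) = g a
      rcases le_total (f (eI e)) (f (eJ e)) with h6 | h6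
      · rw [min_eq_left h6, max_eq_right h6]; exact h5
      · rw [min_eq_right h6, max_eq_left h6, F.symm]; exact h5
  · intro e he e' he' hee
    rw [Finset.mem_coe, Finset.mem_filter, Finset.mem_range] at he he'
    obtain ⟨h2, h3, h4⟩ := e_spec2 e (by omega)
    obtain ⟨h2', h3', h4'⟩ := e_spec2 e' (by omega)
    simp only [Prod.mk.injEq] at hee
    obtain ⟨h5, h6⟩ := hee
    have key : (f (eI e) = f (eI e') ∧ f (eJ e) = f (eJ e')) ∨
        (f (eI e) = f (eJ e') ∧ f (eJ e) = f (eI e')) := by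
      rcases le_total (f (eI e)) (f (eJ e)) with h7 | h7 <;>
      rcases le_total (f (eI e')) (f (eJ e')) with h8 | h8
      · rw [min_eq_left h7, min_eq_left h8] at h5
        rw [max_eq_right h7, max_eq_right h8] at h6
        exact Or.inl ⟨h5, h6⟩
      · rw [min_eq_left h7, min_eq_right h8] at h5
        rw [max_eq_right h7, max_eq_left h8] at h6
        exact Or.inr ⟨h5, h6⟩
      · rw [min_eq_right h7, min_eq_left h8] at h5
        rw [max_eq_left h7, max_eq_right h8] at h6
        exact Or.inr ⟨h6, h5⟩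
      · rw [min_eq_right h7, min_eq_right h8] at h5
        rw [max_eq_left h7, max_eq_left h8] at h6
        exact Or.inl ⟨h6, h5⟩
    rcases key with ⟨h7, h8⟩ | ⟨h7, h8⟩
    · have a1 := H.inj _ _ (by omega) (by omega) h7
      have a2 := H.inj _ _ h3 h3' h8
      rw [← h4, ← h4', a1, a2]
    · have a1 := H.inj _ _ (by omega) h3' h7
      have a2 := H.inj _ _ h3 (by omega) h8
      omega

include H in
theorem Lab.tsiz {n x : ℕ} (hn : n ≤ 36) (h : tsiz n (pre L n) x = true) : False := by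
  unfold L9.tsiz at h
  simp only [Bool.and_eq_true, Nat.ble_eq, Nat.blt_eq] at h
  obtain ⟨⟨hx3, hx9⟩, h⟩ := h
  -- the labels with at least `x` edges
  have hc : ∀ a, cnt (pre L n) a n = ((Finset.range n).filter (fun e => L e = a)).card := by
    intro a
    rw [cnt_eq]
    congr 1
    apply Finset.filter_congr
    intro e he
    rw [od_pre H.lt (Finset.mem_range.1 he)]
  have hb : ∀ a, b2 (Nat.ble x (cnt (pre L n) a n)) ≤ if x ≤ (g a).val + 1 then 1 else 0 := by
    intro a
    unfold b2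
    by_cases h1 : x ≤ cnt (pre L n) a n
    · have h2 := H.card_le (n := n) (a := a) hn
      rw [← hc a] at h2
      rw [if_pos (by omega)]
      cases Nat.ble x (cnt (pre L n) a n) <;> simp
    · have h2 : Nat.ble x (cnt (pre L n) a n) = false := by
        rw [← Bool.not_eq_true, Nat.ble_eq]; exact h1
      rw [h2]
      simp
  have h2 : (∑ a ∈ Finset.range 6, if x ≤ (g a).val + 1 then 1 else 0) ≤ 9 - x := by
    rw [← Finset.card_filter]
    have h3 : ((Finset.range 6).filter (fun a => x ≤ (g a).val + 1)).card ≤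
        ((Finset.Icc (x - 1) 7)).card := by
      apply Finset.card_le_card_of_injOn (fun a => (g a).val)
      · intro a ha
        rw [Finset.mem_coe, Finset.mem_filter, Finset.mem_range] at ha
        rw [Finset.mem_coe, Finset.mem_Icc]
        have := (g a).isLt
        simp only
        omega
      · intro a ha b hb' hab
        rw [Finset.mem_coe, Finset.mem_filter, Finset.mem_range] at ha hb'
        exact H.ginj a b (by omega) (by omega) (Fin.ext hab)
    rw [Nat.card_Icc] at h3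
    omega
  simp only [Finset.sum_range_succ, Finset.sum_range_zero] at h2
  have := hb 0
  have := hb 1
  have := hb 2
  have := hb 3
  have := hb 4
  have := hb 5
  omega

end lab

/-! ### Certificates -/

section lab

variable {F : Conf 9} {f : ℕ → Fin 9} {g : ℕ → Fin 8} {L : ℕ → ℕ} (H : Lab F f g L)

include H in
/-- the first eight points when the colour of the edge 67 is not known (label 7) -/
theorem Lab.real7 (h27 : ∀ e, e < 27 → L e < 7) : Realk 8 7 (pre L 27 + 7 * 8 ^ 27) := by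
  have h0 : Occ F 8 f g (pre L 28) := H.occ (by norm_num) (by norm_num)
  obtain ⟨X, Y, x, h1, h2, h3, h4⟩ := Occ.real h0
  refine ⟨X, Y, fun c => if c = 7 then sd X Y 6 7 else x c, h1, ?_, ?_, ?_⟩
  · intro c
    by_cases hc : c = 7
    · simp only [hc, if_true]
      exact h1.ne 6 7 (by norm_num) (by norm_num) (by norm_num)
    · simp only [hc, if_false]
      exact h2 c
  · intro c d hc hd hcd
    simp only [show c ≠ 7 by omega, show d ≠ 7 by omega, if_false] at hcd
    exact h3 c d (by omega) (by omega) hcd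
  · intro i j hij hj
    set L' : ℕ → ℕ := fun e => if e = 27 then 7 else L e with hL'
    have hLt : ∀ e, L' e < 8 := by
      intro e
      simp only [hL']
      split_ifs
      · norm_num
      · exact H.lt e
    have h5 : pre L 27 + 7 * 8 ^ 27 = pre L' 28 := by
      have e1 : pre L' 28 = pre L' 27 + L' 27 * 8 ^ 27 := rfl
      have e2 : pre L' 27 = pre L 27 := by
        apply pre_congr
        intro e he
        simp only [hL', show e ≠ 27 by omega, if_false]
      have e3 : L' 27 = 7 := by simp [hL']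
      rw [e1, e2, e3]
    have h6 : eo i j < 28 := eo_lt hij hj (by norm_num) (by norm_num)
    rw [h5, lab_eq_od, od_pre hLt h6]
    by_cases h7 : eo i j = 27
    · have h8 : i = 6 ∧ j = 7 := by
        unfold eo at h7
        interval_cases j <;> omega
      rw [h8.1, h8.2]
      simp [hL', eo]
    · have h8 : L' (eo i j) = L (eo i j) := by simp only [hL', h7, if_false]
      have h9 := h27 (eo i j) (by omega)
      rw [h8]
      show sd X Y i j = if L (eo i j) = 7 then sd X Y 6 7 else x (L (eo i j))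
      rw [if_neg (by omega), h4 i j hij hj, lab_eq_od, od_pre H.lt h6]

/-- vertex number `i` of a sub-pattern, coded by the hexadecimal digits of `h` -/
def vx (h i : ℕ) : ℕ := h / 16 ^ i % 16

/-- the vertices coded by `h` are different and their edges are known -/
def subv (n h : ℕ) : ℕ → Bool
  | 0 => true
  | e + 1 => kn n (vx h (eI e)) (vx h (eJ e)) && !(Nat.beq (vx h (eI e)) (vx h (eJ e))) &&
      Nat.blt (vx h (eI e)) 9 && Nat.blt (vx h (eJ e)) 9 && subv n h e

theorem subv_spec (n h : ℕ) : ∀ E, subv n h E = true → ∀ e, e < E →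
    kn n (vx h (eI e)) (vx h (eJ e)) = true ∧ vx h (eI e) ≠ vx h (eJ e) ∧ vx h (eI e) < 9 ∧
      vx h (eJ e) < 9
  | 0, _, e, he => by omega
  | E + 1, hs, e, he => by
    rw [subv] at hs
    simp only [Bool.and_eq_true, Bool.not_eq_true', nbeq, Nat.blt_eq] at hs
    obtain ⟨⟨⟨⟨h1, h2⟩, h3⟩, h4⟩, h5⟩ := hs
    rcases Nat.lt_succ_iff_lt_or_eq.1 he with h6 | h6
    · exact subv_spec n h E h5 e h6
    · rw [h6]; exact ⟨h1, h2, h3, h4⟩

/-- the code of the sub-pattern -/
def sub (P h E : ℕ) : ℕ := pre (fun e => lb P (vx h (eI e)) (vx h (eJ e))) E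

theorem lb_lt (P i j : ℕ) : lb P i j < 8 := by
  unfold lb
  cases Nat.blt i j
  · exact od_lt _ _
  · exact od_lt _ _

include H in
theorem Lab.sub {n h m : ℕ} (hm2 : 2 ≤ m) (hm : m ≤ 9)
    (hs : subv n h (m * (m - 1) / 2) = true) :
    Occ F m (fun i => f (vx h i)) g (sub (pre L n) h (m * (m - 1) / 2)) := by
  have key := subv_spec n h _ hs
  have hE : ∀ i j, i < j → j < m → eo i j < m * (m - 1) / 2 := fun i j h1 h2 =>
    eo_lt h1 h2 le_rfl hm
  have hE2 : ∀ i j, i < j → j < m → eJ (eo i j) = j ∧ eI (eo i j) = i := fun i j h1 h2 =>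
    ⟨(e_spec j (by omega) i h1).1, (e_spec j (by omega) i h1).2.1⟩
  refine ⟨?_, H.ginj, ?_⟩
  · intro i j hi hj hij
    by_contra hne
    rcases lt_or_gt_of_ne hne with h1 | h1
    · obtain ⟨a1, a2, a3, a4⟩ := key _ (hE i j h1 hj)
      simp only [(hE2 i j h1 hj).1, (hE2 i j h1 hj).2] at a2 a3 a4
      exact a2 (H.inj _ _ a3 a4 hij)
    · obtain ⟨a1, a2, a3, a4⟩ := key _ (hE j i h1 hi)
      simp only [(hE2 j i h1 hi).1, (hE2 j i h1 hi).2] at a2 a3 a4
      exact a2 (H.inj _ _ a3 a4 hij.symm)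
  · intro i j hij hj
    obtain ⟨a1, a2, a3, a4⟩ := key _ (hE i j hij hj)
    simp only [(hE2 i j hij hj).1, (hE2 i j hij hj).2] at a1 a2 a3 a4
    show F.c (f (vx h i)) (f (vx h j)) = _
    rw [H.lb a3 a4 a2 a1, lab_eq_od, L9.sub, od_pre (fun e => lb_lt _ _ _) (hE i j hij hj),
      (hE2 i j hij hj).1, (hE2 i j hij hj).2]

end lab

/-! ### The search -/

/-- tokens of the proof of one pair `s1 < s2` -/
inductive Tok
  | deg (i j k l m : ℕ)
  | apx (i j k l m : ℕ)
  | siz (x : ℕ)
  | c7 (C : ℕ)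
  | c8 (C : ℕ)
  | c9 (C : ℕ)
  | cs (m h C : ℕ)
  | spl
  | thr

/-- the states for the third partner -/
def thirds (W : ℕ → List ℕ) (s1 s2 P : ℕ) : List (ℕ × ℕ) :=
  [0, 1, 2, 3, 4, 5].flatMap (fun s =>
    cond (Nat.beq s s1 || Nat.beq s s2) []
      ((W s).map (fun w => (34, P + (w + 8 ^ s) * 8 ^ 28))))

/-- the states for the first two partners -/
def root (R : ℕ) (W : ℕ → List ℕ) (s1 s2 : ℕ) : List (ℕ × ℕ) :=
  (W s1).flatMap (fun w => (W s2).map (fun v => (27, R + w * 8 ^ 15 + v * 8 ^ 21)))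

/-- the check of a list of tokens against a stack of states -/
def run (ok ok7 : ℕ → ℕ → ℕ → Bool) (W : ℕ → List ℕ) (s1 s2 : ℕ) :
    List Tok → List (ℕ × ℕ) → Bool
  | [], [] => true
  | [], _ :: _ => false
  | _ :: _, [] => false
  | Tok.deg i j k l m :: ts, (n, P) :: st => tdeg n P i j k l m && run ok ok7 W s1 s2 ts st
  | Tok.apx i j k l m :: ts, (n, P) :: st => tapx n P i j k l m && run ok ok7 W s1 s2 ts st
  | Tok.siz x :: ts, (n, P) :: st => tsiz n P x && run ok ok7 W s1 s2 ts st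
  | Tok.c7 C :: ts, (n, P) :: st =>
    Nat.beq n 27 && ok7 8 (P + 7 * 8 ^ 27) C && run ok ok7 W s1 s2 ts st
  | Tok.c8 C :: ts, (n, P) :: st => Nat.beq n 28 && ok 8 P C && run ok ok7 W s1 s2 ts st
  | Tok.c9 C :: ts, (n, P) :: st => Nat.beq n 36 && ok 9 P C && run ok ok7 W s1 s2 ts st
  | Tok.cs m h C :: ts, (n, P) :: st =>
    Nat.ble 2 m && Nat.ble m 9 && subv n h (m * (m - 1) / 2) &&
      ok m (sub P h (m * (m - 1) / 2)) C && run ok ok7 W s1 s2 ts st
  | Tok.spl :: ts, (n, P) :: st =>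
    (Nat.beq n 27 || Nat.beq n 34 || Nat.beq n 35) &&
      run ok ok7 W s1 s2 ts ((n + 1, P) :: (n + 1, P + 8 ^ n) :: (n + 1, P + 2 * 8 ^ n) ::
        (n + 1, P + 3 * 8 ^ n) :: (n + 1, P + 4 * 8 ^ n) :: (n + 1, P + 5 * 8 ^ n) :: st)
  | Tok.thr :: ts, (n, P) :: st =>
    Nat.beq n 28 && run ok ok7 W s1 s2 ts (thirds W s1 s2 P ++ st)

/-- a configuration with labels whose star vectors are in the lists -/
structure Full (R : ℕ) (W : ℕ → List ℕ) (s1 s2 : ℕ) (F : Conf 9) (f : ℕ → Fin 9) (g : ℕ → Fin 8)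
    (L : ℕ → ℕ) (s3 : ℕ) : Prop extends Lab F f g L where
  h3 : s3 < 6
  h13 : s3 ≠ s1
  h23 : s3 ≠ s2
  r : pre L 15 = R
  w1 : ∃ w ∈ W s1, pre (fun i => L (15 + i)) 6 = w
  w2 : ∃ w ∈ W s2, pre (fun i => L (21 + i)) 6 = w
  w3 : ∃ w ∈ W s3, pre (fun i => L (28 + i)) 6 = w + 8 ^ s3
  b7 : ∀ e, e < 27 → L e < 7
  b27 : L 27 < 6
  b34 : L 34 < 6
  b35 : L 35 < 6

/-- there is no configuration for the state `(n, P)` -/
def Bad (R : ℕ) (W : ℕ → List ℕ) (s1 s2 : ℕ) (a : ℕ × ℕ) : Prop :=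
  a.1 ≤ 36 ∧ ∀ (F : Conf 9) (f : ℕ → Fin 9) (g : ℕ → Fin 8) (L : ℕ → ℕ) (s3 : ℕ),
    Full R W s1 s2 F f g L s3 → pre L a.1 = a.2 → False

theorem root_mem {R : ℕ} {W : ℕ → List ℕ} {s1 s2 : ℕ} {F : Conf 9} {f : ℕ → Fin 9}
    {g : ℕ → Fin 8} {L : ℕ → ℕ} {s3 : ℕ} (H : Full R W s1 s2 F f g L s3) :
    (27, pre L 27) ∈ root R W s1 s2 := by
  obtain ⟨w, hw, hw2⟩ := H.w1
  obtain ⟨v, hv, hv2⟩ := H.w2
  unfold root
  rw [List.mem_flatMap]
  refine ⟨w, hw, List.mem_map.2 ⟨v, hv, ?_⟩⟩
  have e1 : pre L 21 = R + w * 8 ^ 15 := by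
    rw [show (21 : ℕ) = 15 + 6 from rfl, pre_add, H.r, hw2]
  have e2 : pre L 27 = pre L 21 + v * 8 ^ 21 := by
    rw [show (27 : ℕ) = 21 + 6 from rfl, pre_add, hv2]
  rw [e2, e1]

theorem third_mem {R : ℕ} {W : ℕ → List ℕ} {s1 s2 : ℕ} {F : Conf 9} {f : ℕ → Fin 9}
    {g : ℕ → Fin 8} {L : ℕ → ℕ} {s3 : ℕ} (H : Full R W s1 s2 F f g L s3) :
    (34, pre L 34) ∈ thirds W s1 s2 (pre L 28) := by
  obtain ⟨w, hw, hw2⟩ := H.w3
  unfold thirds
  rw [List.mem_flatMap]
  refine ⟨s3, ?_, ?_⟩
  · have := H.h3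
    simp only [List.mem_cons, List.not_mem_nil, or_false]
    omega
  · have h1 : Nat.beq s3 s1 = false := nbeq.2 H.h13
    have h2 : Nat.beq s3 s2 = false := nbeq.2 H.h23
    rw [h1, h2]
    simp only [Bool.or_self, cond_false]
    refine List.mem_map.2 ⟨w, hw, ?_⟩
    have e1 : pre L 34 = pre L 28 + (w + 8 ^ s3) * 8 ^ 28 := by
      rw [show (34 : ℕ) = 28 + 6 from rfl, pre_add, hw2]
    rw [e1]

section sound

variable {ok ok7 : ℕ → ℕ → ℕ → Bool} (hok : ∀ m P C, ok m P C = true → ¬ Realk m 8 P)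
  (hok7 : ∀ m P C, ok7 m P C = true → ¬ Realk m 7 P)
variable {R : ℕ} {W : ℕ → List ℕ} {s1 s2 : ℕ}

include hok hok7 in
theorem run_sound : ∀ (ts : List Tok) (st : List (ℕ × ℕ)),
    (∀ a ∈ st, a.1 ≤ 36) → run ok ok7 W s1 s2 ts st = true → ∀ a ∈ st, Bad R W s1 s2 a
  | [], [], _, _ => by simp
  | [], _ :: _, _, h => by simp [run] at h
  | _ :: _, [], _, _ => by simp
  | t :: ts, (n, P) :: st, hn, h => by
    have hn0 : n ≤ 36 := hn (n, P) (by simp)
    have hst : ∀ a ∈ st, a.1 ≤ 36 := fun a ha => hn a (by simp [ha])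
    -- it is enough to treat the first state
    suffices h0 : ((∀ (F : Conf 9) (f : ℕ → Fin 9) (g : ℕ → Fin 8) (L : ℕ → ℕ) (s3 : ℕ),
        Full R W s1 s2 F f g L s3 → pre L n = P → False)) ∧ ∀ a ∈ st, Bad R W s1 s2 a by
      intro a ha
      rcases List.mem_cons.1 ha with rfl | ha
      · exact ⟨hn0, h0.1⟩
      · exact h0.2 a ha
    cases t with
    | deg i j k l m =>
      simp only [run, Bool.and_eq_true] at h
      refine ⟨?_, run_sound ts st hst h.2⟩
      intro F f g L s3 H hP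
      rw [← hP] at h
      exact H.toLab.tdeg h.1
    | apx i j k l m =>
      simp only [run, Bool.and_eq_true] at h
      refine ⟨?_, run_sound ts st hst h.2⟩
      intro F f g L s3 H hP
      rw [← hP] at h
      exact H.toLab.tapx h.1
    | siz x =>
      simp only [run, Bool.and_eq_true] at h
      refine ⟨?_, run_sound ts st hst h.2⟩
      intro F f g L s3 H hP
      rw [← hP] at h
      exact H.toLab.tsiz hn0 h.1
    | c7 C =>
      simp only [run, Bool.and_eq_true] at h
      obtain ⟨⟨h1, h2⟩, h3⟩ := h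
      refine ⟨?_, run_sound ts st hst h3⟩
      intro F f g L s3 H hP
      rw [Nat.beq_eq] at h1
      rw [← hP, h1] at h2
      exact hok7 _ _ _ h2 (H.toLab.real7 H.b7)
    | c8 C =>
      simp only [run, Bool.and_eq_true] at h
      obtain ⟨⟨h1, h2⟩, h3⟩ := h
      refine ⟨?_, run_sound ts st hst h3⟩
      intro F f g L s3 H hP
      rw [Nat.beq_eq] at h1
      rw [← hP, h1] at h2
      exact hok _ _ _ h2 (Occ.real (H.toLab.occ (by norm_num) (by norm_num)))
    | c9 C =>
      simp only [run, Bool.and_eq_true] at h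
      obtain ⟨⟨h1, h2⟩, h3⟩ := h
      refine ⟨?_, run_sound ts st hst h3⟩
      intro F f g L s3 H hP
      rw [Nat.beq_eq] at h1
      rw [← hP, h1] at h2
      exact hok _ _ _ h2 (Occ.real (H.toLab.occ (by norm_num) (by norm_num)))
    | cs m q C =>
      simp only [run, Bool.and_eq_true, Nat.ble_eq] at h
      obtain ⟨⟨⟨⟨h1, h2⟩, h3⟩, h4⟩, h5⟩ := h
      refine ⟨?_, run_sound ts st hst h5⟩
      intro F f g L s3 H hP
      rw [← hP] at h4
      exact hok _ _ _ h4 (Occ.real (H.toLab.sub h1 h2 h3))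
    | spl =>
      simp only [run, Bool.and_eq_true, Bool.or_eq_true, Nat.beq_eq] at h
      obtain ⟨h1, h2⟩ := h
      have h3 := run_sound ts _ (by
        intro a ha
        simp only [List.mem_cons] at ha
        rcases ha with rfl | rfl | rfl | rfl | rfl | rfl | ha
        all_goals first | exact hst a ha | (simp only; omega)) h2
      refine ⟨?_, fun a ha => h3 a (by simp [ha])⟩
      intro F f g L s3 H hP
      have hL : L n < 6 := by
        rcases h1 with (h1 | h1) | h1
        · rw [h1]; exact H.b27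
        · rw [h1]; exact H.b34
        · rw [h1]; exact H.b35
      have hpre : pre L (n + 1) = P + L n * 8 ^ n := by rw [pre, hP]
      have h4 : (n + 1, pre L (n + 1)) ∈ ((n + 1, P) :: (n + 1, P + 8 ^ n) ::
          (n + 1, P + 2 * 8 ^ n) :: (n + 1, P + 3 * 8 ^ n) :: (n + 1, P + 4 * 8 ^ n) ::
          (n + 1, P + 5 * 8 ^ n) :: st) := by
        rw [hpre]
        interval_cases (L n) <;> simp
      exact (h3 _ h4).2 F f g L s3 H rfl
    | thr =>
      simp only [run, Bool.and_eq_true] at h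
      obtain ⟨h1, h2⟩ := h
      rw [Nat.beq_eq] at h1
      have h3 := run_sound ts _ (by
        intro a ha
        rcases List.mem_append.1 ha with ha | ha
        · unfold thirds at ha
          rw [List.mem_flatMap] at ha
          obtain ⟨s, _, ha⟩ := ha
          cases hb : (Nat.beq s s1 || Nat.beq s s2)
          · rw [hb, cond_false, List.mem_map] at ha
            obtain ⟨w, _, rfl⟩ := ha
            norm_num
          · rw [hb, cond_true] at ha
            exact absurd ha (List.not_mem_nil)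
        · exact hst a ha) h2
      refine ⟨?_, fun a ha => h3 a (List.mem_append.2 (Or.inr ha))⟩
      intro F f g L s3 H hP
      have h4 := third_mem H
      rw [← h1, hP] at h4
      exact (h3 _ (List.mem_append.2 (Or.inl h4))).2 F f g L s3 H rfl

include hok hok7 in
theorem run_root {ts : List Tok} (h : run ok ok7 W s1 s2 ts (root R W s1 s2) = true)
    {F : Conf 9} {f : ℕ → Fin 9} {g : ℕ → Fin 8} {L : ℕ → ℕ} {s3 : ℕ}
    (H : Full R W s1 s2 F f g L s3) : False := by
  have h1 := run_sound hok hok7 (R := R) ts _ (by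
    intro a ha
    unfold root at ha
    rw [List.mem_flatMap] at ha
    obtain ⟨w, _, ha⟩ := ha
    rw [List.mem_map] at ha
    obtain ⟨v, _, rfl⟩ := ha
    norm_num) h
  exact (h1 _ (root_mem H)).2 F f g L s3 H rfl

end sound

/-! ### From the configuration to the labels -/

/-- a star vector: label 6 at `s`, big labels elsewhere -/
def okw (s w : ℕ) : Bool :=
  Nat.blt w (8 ^ 6) && Nat.beq (od w s) 6 &&
  (Nat.beq s 0 || Nat.blt (od w 0) 6) && (Nat.beq s 1 || Nat.blt (od w 1) 6) &&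
  (Nat.beq s 2 || Nat.blt (od w 2) 6) && (Nat.beq s 3 || Nat.blt (od w 3) 6) &&
  (Nat.beq s 4 || Nat.blt (od w 4) 6) && (Nat.beq s 5 || Nat.blt (od w 5) 6)

theorem okw_spec {s w : ℕ} (h : okw s w = true) :
    w < 8 ^ 6 ∧ od w s = 6 ∧ ∀ i, i < 6 → i ≠ s → od w i < 6 := by
  unfold okw at h
  simp only [Bool.and_eq_true, Bool.or_eq_true, Nat.blt_eq, Nat.beq_eq] at h
  obtain ⟨⟨⟨⟨⟨⟨⟨h1, h2⟩, a0⟩, a1⟩, a2⟩, a3⟩, a4⟩, a5⟩ := h
  refine ⟨h1, h2, ?_⟩
  intro i hi his
  interval_cases i
  · rcases a0 with a | a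
    · exact absurd a.symm his
    · exact a
  · rcases a1 with a | a
    · exact absurd a.symm his
    · exact a
  · rcases a2 with a | a
    · exact absurd a.symm his
    · exact a
  · rcases a3 with a | a
    · exact absurd a.symm his
    · exact a
  · rcases a4 with a | a
    · exact absurd a.symm his
    · exact a
  · rcases a5 with a | a
    · exact absurd a.symm his
    · exact a

/-- all star vectors are well formed -/
def okW (W : ℕ → List ℕ) : Bool :=
  (W 0).all (okw 0) && (W 1).all (okw 1) && (W 2).all (okw 2) && (W 3).all (okw 3) &&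
    (W 4).all (okw 4) && (W 5).all (okw 5)

theorem okW_spec {W : ℕ → List ℕ} (h : okW W = true) (s : ℕ) (hs : s < 6) :
    ∀ w ∈ W s, okw s w = true := by
  unfold okW at h
  simp only [Bool.and_eq_true, List.all_eq_true] at h
  obtain ⟨⟨⟨⟨⟨a0, a1⟩, a2⟩, a3⟩, a4⟩, a5⟩ := h
  interval_cases s
  · exact a0
  · exact a1
  · exact a2
  · exact a3
  · exact a4
  · exact a5

/-- the first `n` digits are less than 6 -/
def okR (R : ℕ) : ℕ → Bool
  | 0 => true
  | n + 1 => Nat.blt (od R n) 6 && okR R n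

theorem okR_spec {R : ℕ} : ∀ n, okR R n = true → ∀ e, e < n → od R e < 6
  | 0, _, e, he => by omega
  | n + 1, h, e, he => by
    rw [okR] at h
    simp only [Bool.and_eq_true, Nat.blt_eq] at h
    rcases Nat.lt_succ_iff_lt_or_eq.1 he with h1 | h1
    · exact okR_spec n h.2 e h1
    · rw [h1]; exact h.1

theorem surj8 {g : ℕ → Fin 8} (h : ∀ a b, a < 8 → b < 8 → g a = g b → a = b) (v : Fin 8) :
    ∃ a, a < 8 ∧ g a = v := by
  have h1 : Function.Injective (fun a : Fin 8 => g a.val) := fun a b hab =>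
    Fin.ext (h a b a.isLt b.isLt hab)
  obtain ⟨a, ha⟩ := (Finite.injective_iff_surjective.1 h1) v
  exact ⟨a.val, a.isLt, ha⟩

/-- the labelling with the two bad labels in the right order -/
def fixg (g : ℕ → Fin 8) (a : ℕ) : Fin 8 := if a = 6 then 1 else if a = 7 then 0 else g a

theorem fixg_lt {g : ℕ → Fin 8} {a : ℕ} (h : a < 6) : fixg g a = g a := by
  unfold fixg
  rw [if_neg (by omega), if_neg (by omega)]

theorem fixg_inj {g : ℕ → Fin 8} (hg : GoodG g)
    (h : ∀ a b, a < 8 → b < 8 → g a = g b → a = b) :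
    ∀ a b, a < 8 → b < 8 → fixg g a = fixg g b → a = b := by
  have h6 : fixg g 6 = 1 := rfl
  have h7 : fixg g 7 = 0 := rfl
  have key : ∀ a, a < 6 → 2 ≤ (fixg g a).val := fun a ha => by rw [fixg_lt ha]; exact hg a ha
  have v1 : (1 : Fin 8).val = 1 := rfl
  have v0 : (0 : Fin 8).val = 0 := rfl
  intro a b ha hb hab
  have hab2 : (fixg g a).val = (fixg g b).val := by rw [hab]
  rcases Nat.lt_or_ge a 6 with h1 | h1 <;> rcases Nat.lt_or_ge b 6 with h2 | h2
  · rw [fixg_lt h1, fixg_lt h2] at hab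
    exact h a b ha hb hab
  · have := key a h1
    obtain rfl | rfl : b = 6 ∨ b = 7 := by omega
    · rw [h6] at hab2; omega
    · rw [h7] at hab2; omega
  · have := key b h2
    obtain rfl | rfl : a = 6 ∨ a = 7 := by omega
    · rw [h6] at hab2; omega
    · rw [h7] at hab2; omega
  · obtain rfl | rfl : a = 6 ∨ a = 7 := by omega
    · obtain rfl | rfl : b = 6 ∨ b = 7 := by omega
      · rfl
      · rw [h6, h7] at hab2; omega
    · obtain rfl | rfl : b = 6 ∨ b = 7 := by omega
      · rw [h6, h7] at hab2; omega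
      · rfl

/-- the star vector of `t` with respect to `f 0, ..., f 5` without the partner `f s` -/
def Star (F : Conf 9) (f : ℕ → Fin 9) (g : ℕ → Fin 8) (s w : ℕ) (t : Fin 9) : Prop :=
  ∀ i, i < 6 → i ≠ s → F.c (f i) t = g (od w i)

theorem pre6 (L : ℕ → ℕ) (n : ℕ) : pre (fun i => L (n + i)) 6 =
    L n + L (n + 1) * 8 + L (n + 2) * 64 + L (n + 3) * 512 + L (n + 4) * 4096 +
      L (n + 5) * 32768 := by
  simp only [pre]
  norm_num

theorem build {R : ℕ} {W : ℕ → List ℕ} (hR : R < 8 ^ 15) (hR2 : okR R 15 = true)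
    (hW : okW W = true) {F : Conf 9} {f : ℕ → Fin 9} {g : ℕ → Fin 8}
    (hf : ∀ i j, i < 9 → j < 9 → f i = f j → i = j) (hocc : Occ F 6 f g R) (hg : GoodG g)
    {s1 s2 s3 : ℕ} (h13 : s3 ≠ s1) (h23 : s3 ≠ s2) (hs1 : s1 < 6) (hs2 : s2 < 6)
    (hs3 : s3 < 6) (c1 : F.c (f s1) (f 6) = 1) (c2 : F.c (f s2) (f 7) = 1)
    (c3 : F.c (f s3) (f 8) = 0) (w1 : ∃ w ∈ W s1, Star F f g s1 w (f 6))
    (w2 : ∃ w ∈ W s2, Star F f g s2 w (f 7)) (w3 : ∃ w ∈ W s3, Star F f g s3 w (f 8)) :
    ∃ L, Full R W s1 s2 F f (fixg g) L s3 := by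
  have hinj := fixg_inj hg hocc.ginj
  choose lbl hl using surj8 hinj
  set L : ℕ → ℕ := fun e => lbl (F.c (f (eI e)) (f (eJ e))) with hL
  have hcol : ∀ i j, i < j → j < 9 → F.c (f i) (f j) = fixg g (L (eo i j)) := by
    intro i j hij hj
    obtain ⟨a1, a2, a3⟩ := e_spec j hj i hij
    simp only [hL, a1, a2]
    exact ((hl _).2).symm
  have hlab : Lab F f (fixg g) L := by
    refine ⟨hf, hinj, ?_, rfl, rfl, fun e => (hl _).1, hcol⟩
    intro a ha
    rw [fixg_lt ha]
    exact hg a ha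
  -- how to find a label
  have find : ∀ i j a, i < j → j < 9 → a < 8 → F.c (f i) (f j) = fixg g a → L (eo i j) = a := by
    intro i j a hij hj ha h
    rw [hcol i j hij hj] at h
    exact hinj _ _ (hlab.lt _) ha h
  have e1 : L (15 + s1) = 6 := by
    have := find s1 6 6 (by omega) (by norm_num) (by norm_num) c1
    exact this
  have e2 : L (21 + s2) = 6 := by
    have := find s2 7 6 (by omega) (by norm_num) (by norm_num) c2
    exact this
  have e3 : L (28 + s3) = 7 := by
    have := find s3 8 7 (by omega) (by norm_num) (by norm_num) c3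
    exact this
  -- the bad labels occur only there
  have only6 : ∀ e, e < 36 → L e = 6 → e = 15 + s1 ∨ e = 21 + s2 := by
    intro e he h6
    by_contra hne
    push Not at hne
    have h1 := hlab.card_le (n := 36) (a := 6) le_rfl
    have h2 : ({e, 15 + s1, 21 + s2} : Finset ℕ) ⊆
        (Finset.range 36).filter (fun e => L e = 6) := by
      intro x hx
      rw [Finset.mem_filter, Finset.mem_range]
      simp only [Finset.mem_insert, Finset.mem_singleton] at hx
      rcases hx with rfl | rfl | rfl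
      · exact ⟨he, h6⟩
      · exact ⟨by omega, e1⟩
      · exact ⟨by omega, e2⟩
    have h3 := Finset.card_le_card h2
    have h4 : ({e, 15 + s1, 21 + s2} : Finset ℕ).card = 3 := by
      rw [Finset.card_insert_of_notMem, Finset.card_insert_of_notMem, Finset.card_singleton]
      · rw [Finset.mem_singleton]; omega
      · rw [Finset.mem_insert, Finset.mem_singleton]; tauto
    have h5 : (fixg g 6).val = 1 := rfl
    omega
  have only7 : ∀ e, e < 36 → L e = 7 → e = 28 + s3 := by
    intro e he h7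
    by_contra hne
    have h1 := hlab.card_le (n := 36) (a := 7) le_rfl
    have h2 : ({e, 28 + s3} : Finset ℕ) ⊆ (Finset.range 36).filter (fun e => L e = 7) := by
      intro x hx
      rw [Finset.mem_filter, Finset.mem_range]
      simp only [Finset.mem_insert, Finset.mem_singleton] at hx
      rcases hx with rfl | rfl
      · exact ⟨he, h7⟩
      · exact ⟨by omega, e3⟩
    have h3 := Finset.card_le_card h2
    have h4 : ({e, 28 + s3} : Finset ℕ).card = 2 := by
      rw [Finset.card_insert_of_notMem, Finset.card_singleton]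
      rw [Finset.mem_singleton]; exact hne
    have h5 : (fixg g 7).val = 0 := rfl
    omega
  have big : ∀ e, e < 36 → e ≠ 15 + s1 → e ≠ 21 + s2 → e ≠ 28 + s3 → L e < 6 := by
    intro e he n1 n2 n3
    have h1 := hlab.lt e
    have h2 : L e ≠ 6 := fun h => by rcases only6 e he h with h | h <;> tauto
    have h3 : L e ≠ 7 := fun h => n3 (only7 e he h)
    omega
  -- star vectors
  have star : ∀ (v s w : ℕ), 6 ≤ v → v < 9 → s < 6 → okw s w = true → Star F f g s w (f v) →
      ∀ i, i < 6 → i ≠ s → L (eo i v) = od w i := by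
    intro v s w hv hv2 hs hw hS i hi his
    have h1 := hS i hi his
    have h2 := (okw_spec hw).2.2 i hi his
    rw [← fixg_lt (g := g) h2] at h1
    exact find i v _ (by omega) hv2 (by omega) h1
  refine ⟨L, ⟨hlab, hs3, h13, h23, ?_, ?_, ?_, ?_, ?_, ?_, ?_, ?_⟩⟩
  · have h1 : pre L 15 = pre (od R) 15 := by
      apply pre_congr
      intro e he
      obtain ⟨a1, a2, a3⟩ := e_spec2 e (by omega)
      have a4 : eJ e < 6 := by
        unfold eJ
        split_ifs <;> omega
      have h2 := hocc.col (eI e) (eJ e) a1 a4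
      rw [lab_eq_od, a3, ← fixg_lt (g := g) (okR_spec 15 hR2 e he)] at h2
      have h3 := find _ _ _ a1 a2 (od_lt _ _) h2
      rw [a3] at h3
      exact h3
    rw [h1, pre_od, Nat.mod_eq_of_lt hR]
  · obtain ⟨w, hw, hS⟩ := w1
    have hw2 := okW_spec hW s1 hs1 w hw
    refine ⟨w, hw, ?_⟩
    have h1 : pre (fun i => L (15 + i)) 6 = pre (od w) 6 := by
      apply pre_congr
      intro i hi
      by_cases his : i = s1
      · rw [his, (okw_spec hw2).2.1]; exact e1
      · exact star 6 s1 w le_rfl (by norm_num) hs1 hw2 hS i hi his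
    rw [h1, pre_od, Nat.mod_eq_of_lt (okw_spec hw2).1]
  · obtain ⟨w, hw, hS⟩ := w2
    have hw2 := okW_spec hW s2 hs2 w hw
    refine ⟨w, hw, ?_⟩
    have h1 : pre (fun i => L (21 + i)) 6 = pre (od w) 6 := by
      apply pre_congr
      intro i hi
      by_cases his : i = s2
      · rw [his, (okw_spec hw2).2.1]; exact e2
      · exact star 7 s2 w (by norm_num) (by norm_num) hs2 hw2 hS i hi his
    rw [h1, pre_od, Nat.mod_eq_of_lt (okw_spec hw2).1]
  · obtain ⟨w, hw, hS⟩ := w3
    have hw2 := okW_spec hW s3 hs3 w hw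
    refine ⟨w, hw, ?_⟩
    have h0 : pre (fun i => od w (0 + i)) 6 = w := by
      simp only [Nat.zero_add]
      rw [pre_od, Nat.mod_eq_of_lt (okw_spec hw2).1]
    have h1 := star 8 s3 w (by norm_num) (by norm_num) hs3 hw2 hS
    have h2 := (okw_spec hw2).2.1
    have k0 : s3 ≠ 0 → L 28 = od w 0 := fun h => h1 0 (by norm_num) (Ne.symm h)
    have k1 : s3 ≠ 1 → L 29 = od w 1 := fun h => h1 1 (by norm_num) (Ne.symm h)
    have k2 : s3 ≠ 2 → L 30 = od w 2 := fun h => h1 2 (by norm_num) (Ne.symm h)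
    have k3 : s3 ≠ 3 → L 31 = od w 3 := fun h => h1 3 (by norm_num) (Ne.symm h)
    have k4 : s3 ≠ 4 → L 32 = od w 4 := fun h => h1 4 (by norm_num) (Ne.symm h)
    have k5 : s3 ≠ 5 → L 33 = od w 5 := fun h => h1 5 (by norm_num) (Ne.symm h)
    rw [pre6] at h0 ⊢
    simp only [Nat.zero_add, Nat.reduceAdd] at h0 ⊢
    clear hL hcol hlab find only6 only7 big star h1
    interval_cases s3
    · have := k1 (by norm_num); have := k2 (by norm_num); have := k3 (by norm_num)
      have := k4 (by norm_num); have := k5 (by norm_num)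
      simp only [Nat.add_zero] at e3; omega
    · have := k0 (by norm_num); have := k2 (by norm_num); have := k3 (by norm_num)
      have := k4 (by norm_num); have := k5 (by norm_num)
      simp only [Nat.reduceAdd] at e3; omega
    · have := k0 (by norm_num); have := k1 (by norm_num); have := k3 (by norm_num)
      have := k4 (by norm_num); have := k5 (by norm_num)
      simp only [Nat.reduceAdd] at e3; omega
    · have := k0 (by norm_num); have := k1 (by norm_num); have := k2 (by norm_num)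
      have := k4 (by norm_num); have := k5 (by norm_num)
      simp only [Nat.reduceAdd] at e3; omega
    · have := k0 (by norm_num); have := k1 (by norm_num); have := k2 (by norm_num)
      have := k3 (by norm_num); have := k5 (by norm_num)
      simp only [Nat.reduceAdd] at e3; omega
    · have := k0 (by norm_num); have := k1 (by norm_num); have := k2 (by norm_num)
      have := k3 (by norm_num); have := k4 (by norm_num)
      simp only [Nat.reduceAdd] at e3; omega
  · intro e he
    have h1 := hlab.lt e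
    have h2 : L e ≠ 7 := fun h => by have := only7 e (by omega) h; omega
    omega
  · exact big 27 (by norm_num) (by omega) (by omega) (by omega)
  · exact big 34 (by norm_num) (by omega) (by omega) (by omega)
  · exact big 35 (by norm_num) (by omega) (by omega) (by omega)

/-! ### The complete check for one pattern -/

/-- the pairs `s1 < s2 < 6` -/
def PR : List (ℕ × ℕ) :=
  [(0, 1), (0, 2), (1, 2), (0, 3), (1, 3), (2, 3), (0, 4), (1, 4), (2, 4), (3, 4), (0, 5), (1, 5),
    (2, 5), (3, 5), (4, 5)]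

/-- one token list per pair -/
def chkP (ok ok7 : ℕ → ℕ → ℕ → Bool) (R : ℕ) (W : ℕ → List ℕ) :
    List (ℕ × ℕ) → List (List Tok) → Bool
  | [], _ => true
  | _ :: _, [] => false
  | (a, b) :: ps, t :: ts => run ok ok7 W a b t (root R W a b) && chkP ok ok7 R W ps ts

theorem chkP_spec {ok ok7 : ℕ → ℕ → ℕ → Bool} {R : ℕ} {W : ℕ → List ℕ} :
    ∀ (ps : List (ℕ × ℕ)) (ts : List (List Tok)), chkP ok ok7 R W ps ts = true →
      ∀ a b, (a, b) ∈ ps → ∃ t, run ok ok7 W a b t (root R W a b) = true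
  | [], _, _, a, b, h => by simp at h
  | _ :: _, [], h, _, _, _ => by simp [chkP] at h
  | (a', b') :: ps, t :: ts, h, a, b, hab => by
    rw [chkP] at h
    simp only [Bool.and_eq_true] at h
    rcases List.mem_cons.1 hab with h1 | h1
    · rw [Prod.mk.injEq] at h1
      rw [h1.1, h1.2]
      exact ⟨t, h.1⟩
    · exact chkP_spec ps ts h.2 a b h1

/-- the complete check for the pattern `R` with the lists `W` of star vectors -/
def chk (ok ok7 : ℕ → ℕ → ℕ → Bool) (R : ℕ) (W : ℕ → List ℕ) (T : List (List Tok)) : Bool :=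
  Nat.blt R (8 ^ 15) && okR R 15 && okW W && chkP ok ok7 R W PR T

/-- **levels 8 and 9**: when the check succeeds there is no configuration in which the six points
`f 0, ..., f 5` have the pattern `R`, the partners of `f s1`, `f s2` (class with two edges) and
`f s3` (class with one edge) have star vectors in the lists `W`. -/
theorem level9 {ok ok7 : ℕ → ℕ → ℕ → Bool} (hok : ∀ m P C, ok m P C = true → ¬ Realk m 8 P)
    (hok7 : ∀ m P C, ok7 m P C = true → ¬ Realk m 7 P) {R : ℕ} {W : ℕ → List ℕ}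
    {T : List (List Tok)} (hT : chk ok ok7 R W T = true) {F : Conf 9} {f : ℕ → Fin 9}
    {g : ℕ → Fin 8} (hf : ∀ i j, i < 9 → j < 9 → f i = f j → i = j) (hocc : Occ F 6 f g R)
    (hg : GoodG g) {s1 s2 s3 : ℕ} (hs1 : s1 < 6) (hs2 : s2 < 6) (hs3 : s3 < 6) (h12 : s1 ≠ s2)
    (h13 : s1 ≠ s3) (h23 : s2 ≠ s3) (c1 : F.c (f s1) (f 6) = 1) (c2 : F.c (f s2) (f 7) = 1)
    (c3 : F.c (f s3) (f 8) = 0) (w1 : ∃ w ∈ W s1, Star F f g s1 w (f 6))
    (w2 : ∃ w ∈ W s2, Star F f g s2 w (f 7)) (w3 : ∃ w ∈ W s3, Star F f g s3 w (f 8)) :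
    False := by
  unfold chk at hT
  simp only [Bool.and_eq_true, Nat.blt_eq] at hT
  obtain ⟨⟨⟨hR, hR2⟩, hW⟩, hP⟩ := hT
  have hmem : ∀ a b, a < b → b < 6 → (a, b) ∈ PR := by
    intro a b hab hb
    unfold PR
    interval_cases b <;> interval_cases a <;> simp
  rcases lt_or_gt_of_ne h12 with h | h
  · obtain ⟨t, ht⟩ := chkP_spec PR T hP s1 s2 (hmem s1 s2 h hs2)
    obtain ⟨L, hL⟩ := build hR hR2 hW hf hocc hg h13.symm h23.symm hs1 hs2 hs3 c1 c2 c3 w1 w2 w3
    exact run_root hok hok7 ht hL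
  · obtain ⟨t, ht⟩ := chkP_spec PR T hP s2 s1 (hmem s2 s1 h hs1)
    -- exchange of the points 6 and 7
    set f' : ℕ → Fin 9 := fun i => f (if i = 6 then 7 else if i = 7 then 6 else i) with hf'
    have k6 : f' 6 = f 7 := rfl
    have k7 : f' 7 = f 6 := rfl
    have k8 : f' 8 = f 8 := rfl
    have kk : ∀ i, i < 6 → f' i = f i := by
      intro i hi
      simp only [hf']
      rw [if_neg (by omega), if_neg (by omega)]
    have hinj : ∀ i j, i < 9 → j < 9 → f' i = f' j → i = j := by
      intro i j hi hj hij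
      have h1 := hf _ _ (by split_ifs <;> omega) (by split_ifs <;> omega) hij
      split_ifs at h1 <;> omega
    have hocc' : Occ F 6 f' g R := by
      refine ⟨fun i j hi hj => hinj i j (by omega) (by omega), hocc.ginj, ?_⟩
      intro i j hij hj
      rw [kk i (by omega), kk j hj]
      exact hocc.col i j hij hj
    have hst : ∀ s w t, Star F f g s w t → Star F f' g s w t := by
      intro s w t hS i hi his
      rw [kk i hi]
      exact hS i hi his
    obtain ⟨L, hL⟩ := build (f := f') hR hR2 hW hinj hocc' hg h23.symm h13.symm hs2 hs1 hs3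
      (by rw [kk s2 hs2, k6]; exact c2) (by rw [kk s1 hs1, k7]; exact c1)
      (by rw [kk s3 hs3, k8]; exact c3)
      (by obtain ⟨w, hw, hS⟩ := w2; rw [k6]; exact ⟨w, hw, hst _ _ _ hS⟩)
      (by obtain ⟨w, hw, hS⟩ := w1; rw [k7]; exact ⟨w, hw, hst _ _ _ hS⟩)
      (by obtain ⟨w, hw, hS⟩ := w3; rw [k8]; exact ⟨w, hw, hst _ _ _ hS⟩)
    exact run_root hok hok7 ht hL

end L9

end CR
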