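import Pool.Agent.Lib.MP_6f5d36_co.D7.G00
import Pool.Agent.Lib.MP_6f5d36_co.D7.G01
import Pool.Agent.Lib.MP_6f5d36_co.D7.G02
import Pool.Agent.Lib.MP_6f5d36_co.D7.G03
import Pool.Agent.Lib.MP_6f5d36_co.D7.G04
import Pool.Agent.Lib.MP_6f5d36_co.D7.G05
import Pool.Agent.Lib.MP_6f5d36_co.D7.G06
import Pool.Agent.Lib.MP_6f5d36_co.D7.G07
import Pool.Agent.Lib.MP_6f5d36_co.D7.G08
import Pool.Agent.Lib.MP_6f5d36_co.D7.G09
import Pool.Agent.Lib.MP_6f5d36_co.D7.G10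
import Pool.Agent.Lib.MP_6f5d36_co.D7.G11
import Pool.Agent.Lib.MP_6f5d36_co.D7.G12


/-!
# MP_6f5d36_co : level 7, the final theorems
-/

set_option autoImplicit false

namespace CR.L7

theorem rk_all : RK 0 4792 :=
  D7.g_0.trans (D7.g_620.trans (D7.g_1036.trans (D7.g_1372.trans (D7.g_1667.trans
  (D7.g_1966.trans (D7.g_2290.trans (D7.g_2625.trans (D7.g_2979.trans (D7.g_3319.trans
  (D7.g_3667.trans (D7.g_4033.trans D7.g_4436)))))))))))

/-- **level 7** : every rank is killed or processed -/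
theorem kil_or_pro (h6 : E6H) (h5 : E5H) (k : ℕ) (hk : k < Tab.nr) :
    Kil Tab.nr Tab.reps k ∨ Pro Tab.nr Tab.reps Tab.W k := by
  rcases rk_all (fun F => tabF h6 h5 F) k (Nat.zero_le _) hk with h | ⟨_, h⟩
  · exact Or.inl h
  · exact Or.inr h

end CR.L7
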