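import Pool.Agent.Lib.MP_6f5d36_co.NineOf
import Pool.Agent.Lib.MP_6f5d36_co.D8.Fin

set_option autoImplicit false

/-!
# MP_6f5d36_co : no configuration on nine points
-/

namespace CR

/-- **There is no configuration on nine points.** -/
theorem nine : IsEmpty (Conf 9) :=
  nine_of (D8.kill2_fin (fun F => L7.tabF_all F)
    (fun F => C2.tabs_tab (L7.tabF_all F) L7.rt_ok))

end CR
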