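import Pool.Agent.Lib.MP_6f5d36_co.Glue
import Pool.Agent.Lib.MP_6f5d36_co.Fin2
import Pool.Agent.Lib.MP_6f5d36_co.Fin7
import Pool.Agent.Lib.MP_6f5d36_co.D9.Main
import Pool.Agent.Lib.MP_6f5d36_co.C2.V7

set_option autoImplicit false

/-!
# MP_6f5d36_co : the assembly, up to levels 8 and 9 of case (ii)
-/

namespace CR

/-- level 7 in case (ii) -/
theorem v7c_all (k : ℕ) (hk : k < Tab.nr) : V7c (Tab.reps k) (Tab.E2 k) :=
  C2.v7c (fun F => C2.tabs_tab (L7.tabF_all F) L7.rt_ok) k hk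

/-- **there is no configuration on nine points**, from the result of levels 8 and 9 in case (ii) -/
theorem nine_of
    (h8 : ∀ k, k < Tab.nr → Tab.E2 k ≠ [] → Kill2 (Tab.reps k) (Tab.E2 k)) : IsEmpty (Conf 9) :=
  no_conf_tab L7.rank6_all L7.level7 D9.kill9_all
    (no_frame2 L7.rank6_all v7c_all h8)

end CR
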