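import Pool.Agent.Lib.MP_6f5d36_co.Ker7
import Pool.Agent.Lib.MP_6f5d36_co.Occ

set_option autoImplicit false

/-!
# MP_6f5d36_co : pattern codes and their occurrences

A pattern on `m` points is a natural number with 3 bits for the label of every pair `i < j`, at the
position `j (j-1) / 2 + i`. An occurrence uses a bijection `g` of the eight labels with the eight
colours.
-/

namespace CR

/-- the octal digit number `e` -/
def dg3 (P e : ℕ) : ℕ := (P >>> (3 * e)) &&& 7

theorem dg3_eq (P e : ℕ) : dg3 P e = od P e := by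
  unfold dg3 od
  rw [Nat.shiftRight_eq_div_pow, pow_mul]
  exact Nat.and_two_pow_sub_one_eq_mod _ 3

theorem lab_eq (P i j : ℕ) : lab P i j = dg3 P (eo i j) := (dg3_eq P (eo i j)).symm

theorem dg3_lt (P e : ℕ) : dg3 P e < 8 := by
  rw [dg3_eq]
  exact od_lt _ _

theorem labs_lt (P i j : ℕ) : labs P i j < 8 := by
  unfold labs
  split_ifs
  · exact lab_lt _ _ _
  · exact lab_lt _ _ _

theorem labs_comm (P i j : ℕ) (h : i ≠ j) : labs P i j = labs P j i := by
  unfold labs
  rcases Nat.lt_or_ge i j with h1 | h1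
  · rw [if_pos h1, if_neg (by omega)]
  · rw [if_neg (by omega), if_pos (by omega)]

/-! ### Digits -/

theorem dig_or (a b n w : ℕ) :
    ((a ||| b) >>> n) &&& w = ((a >>> n) &&& w) ||| ((b >>> n) &&& w) := by
  rw [Nat.shiftRight_or_distrib, Nat.and_or_distrib_right]

theorem dig_shift (s x e e' : ℕ) (hx : x < 2 ^ s) :
    ((x <<< (s * e)) >>> (s * e')) &&& (2 ^ s - 1) = if e = e' then x else 0 := by
  apply Nat.eq_of_testBit_eq
  intro i
  rw [Nat.testBit_and, Nat.testBit_shiftRight, Nat.testBit_shiftLeft, Nat.testBit_two_pow_sub_one]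
  by_cases hee : e = e'
  · subst hee
    rw [if_pos rfl]
    have h1 : s * e + i ≥ s * e := Nat.le_add_right _ _
    have h2 : s * e + i - s * e = i := by omega
    rw [h2]
    by_cases hi : i < s
    · simp [hi]
    · have : x.testBit i = false := Nat.testBit_lt_two_pow
        (lt_of_lt_of_le hx (Nat.pow_le_pow_right (by norm_num) (by omega)))
      simp [this]
  · rw [if_neg hee, Nat.zero_testBit]
    by_cases hi : i < s
    · rcases Nat.lt_or_ge e e' with h | h
      · have h3 : s * e + s ≤ s * e' := by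
          have := Nat.mul_le_mul_left s h
          rw [Nat.mul_succ] at this
          exact this
        have : x.testBit (s * e' + i - s * e) = false := Nat.testBit_lt_two_pow
          (lt_of_lt_of_le hx (Nat.pow_le_pow_right (by norm_num) (by omega)))
        simp [this]
      · have h4 : e' < e := by omega
        have h3 : s * e' + s ≤ s * e := by
          have := Nat.mul_le_mul_left s h4
          rw [Nat.mul_succ] at this
          exact this
        have : ¬ (s * e ≤ s * e' + i) := by omega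
        simp [this]
    · simp [hi]

/-- the hexadecimal digit number `e` -/
def dg4 (P e : ℕ) : ℕ := (P >>> (4 * e)) &&& 15

theorem dg3_or (a b e : ℕ) : dg3 (a ||| b) e = dg3 a e ||| dg3 b e := dig_or _ _ _ _

theorem dg4_or (a b e : ℕ) : dg4 (a ||| b) e = dg4 a e ||| dg4 b e := dig_or _ _ _ _

theorem dg3_shift (x e e' : ℕ) (hx : x < 8) :
    dg3 (x <<< (3 * e)) e' = if e = e' then x else 0 := dig_shift 3 x e e' hx

theorem dg4_shift (x e e' : ℕ) (hx : x < 16) :
    dg4 (x <<< (4 * e)) e' = if e = e' then x else 0 := dig_shift 4 x e e' hx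

theorem dg3_zero (e : ℕ) : dg3 0 e = 0 := by simp [dg3]

theorem dg4_zero (e : ℕ) : dg4 0 e = 0 := by simp [dg4]

theorem dg4_lt (P e : ℕ) : dg4 P e < 16 := by
  unfold dg4
  exact Nat.lt_of_le_of_lt Nat.and_le_right (by norm_num)

/-! ### The normal form of a part of a pattern -/

theorem sym_eq : ∀ a < 9, ∀ b < 9, a < b →
    (SYM >>> (128 * a + 8 * b)) &&& 127 = 3 * eo a b ∧
    (SYM >>> (128 * b + 8 * a)) &&& 127 = 3 * eo a b := by
  decide +kernel

theorem sl_eq (P a b : ℕ) (ha : a < 9) (hb : b < 9) (hab : a ≠ b) : sl P a b = labs P a b := by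
  unfold labs
  show (P >>> ((SYM >>> (128 * a + 8 * b)) &&& 127)) &&& 7 = _
  rcases Nat.lt_or_ge a b with h1 | h1
  · rw [if_pos h1, (sym_eq a ha b hb h1).1, lab_eq]
    rfl
  · rw [if_neg (by omega), (sym_eq b hb a ha (by omega)).2, lab_eq]
    rfl

theorem nrm_nil (P h M c o : ℕ) : nrm P h [] M c o = o := rfl

theorem nrm_cons (P h q : ℕ) (L : List ℕ) (M c o : ℕ) : nrm P h (q :: L) M c o =
    if dg4 M (el P h q) = 0 then
      nrm P h L (M ||| (c + 1) <<< (4 * el P h q)) (c + 1) (o ||| c <<< (q >>> 10))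
    else nrm P h L M c (o ||| (dg4 M (el P h q) - 1) <<< (q >>> 10)) := by
  have h0 : nrm P h (q :: L) M c o =
      cond (Nat.beq (dg4 M (el P h q)) 0)
        (nrm P h L (M ||| (c + 1) <<< (4 * el P h q)) (c + 1) (o ||| c <<< (q >>> 10)))
        (nrm P h L M c (o ||| (dg4 M (el P h q) - 1) <<< (q >>> 10))) := rfl
  rw [h0]
  by_cases h1 : dg4 M (el P h q) = 0
  · rw [if_pos h1, h1]
    rfl
  · rw [if_neg h1]
    obtain ⟨n, hn⟩ := Nat.exists_eq_succ_of_ne_zero h1
    rw [hn]
    rfl

/-- `M` is (the table of) an injective partial map of the labels to `0, ..., c - 1`, plus one -/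
structure WF (M c : ℕ) : Prop where
  le : ∀ l, dg4 M l ≤ c
  inj : ∀ l l', dg4 M l ≠ 0 → dg4 M l = dg4 M l' → l = l'
  lt : ∀ l, dg4 M l ≠ 0 → l < 8

theorem WF.zero : WF 0 0 :=
  ⟨fun l => by rw [dg4_zero], fun l _ h => absurd (dg4_zero l) h, fun l h => absurd (dg4_zero l) h⟩

/-- the values of `c` are bounded by the number of labels -/
theorem WF.c_lt {M c : ℕ} (h : WF M c) (hs : ∀ k, k < c → ∃ l, dg4 M l = k + 1) : c ≤ 8 := by
  choose! φ hφ using hs
  have h1 : ∀ k ∈ Finset.range c, φ k ∈ Finset.range 8 := by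
    intro k hk
    rw [Finset.mem_range] at hk ⊢
    exact h.lt _ (by rw [hφ k hk]; omega)
  have h2 := Finset.card_le_card_of_injOn φ h1 (by
    intro a ha b hb hab
    have ha' := Finset.mem_range.1 (Finset.mem_coe.1 ha)
    have hb' := Finset.mem_range.1 (Finset.mem_coe.1 hb)
    have e1 := hφ a ha'
    have e2 := hφ b hb'
    rw [hab, e2] at e1
    omega)
  simpa using h2

/-- the description of the edges: the digits `i, j` and the position -/
def qi (q : ℕ) : ℕ := q &&& 31
def qj (q : ℕ) : ℕ := (q >>> 5) &&& 31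

theorem nrm_spec (P h : ℕ) : ∀ (L : List ℕ) (M c o e0 : ℕ),
    (∀ t, ∀ ht : t < L.length, L[t] >>> 10 = 3 * (e0 + t)) → WF M c →
    (∀ k, k < c → ∃ l, dg4 M l = k + 1) → (∀ q ∈ L, el P h q < 8) →
    (∀ e, e0 ≤ e → dg3 o e = 0) →
    ∃ M' c', WF M' c' ∧ (∀ k, k < c' → ∃ l, dg4 M' l = k + 1) ∧
      (∀ l, dg4 M l ≠ 0 → dg4 M' l = dg4 M l) ∧
      (∀ e, e < e0 → dg3 (nrm P h L M c o) e = dg3 o e) ∧
      (∀ e, e0 + L.length ≤ e → dg3 (nrm P h L M c o) e = 0) ∧
      ∀ t, ∀ ht : t < L.length, dg4 M' (el P h L[t]) = dg3 (nrm P h L M c o) (e0 + t) + 1 := by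
  intro L
  induction L with
  | nil =>
    intro M c o e0 _ hM hs _ ho
    refine ⟨M, c, hM, hs, fun _ _ => rfl, fun _ _ => rfl, ?_, ?_⟩
    · intro e he
      rw [nrm_nil]
      exact ho e (by simpa using he)
    · intro t ht
      simp at ht
  | cons q L ih =>
    intro M c o e0 hq hM hs hel ho
    have hc8 : c ≤ 8 := hM.c_lt hs
    have hq0 : q >>> 10 = 3 * e0 := by
      have := hq 0 (by simp)
      simpa using this
    have hq' : ∀ t, ∀ ht : t < L.length, L[t] >>> 10 = 3 * (e0 + 1 + t) := by
      intro t ht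
      have := hq (t + 1) (by simpa using ht)
      simp only [List.getElem_cons_succ] at this
      rw [this]
      ring
    have hel' : ∀ q ∈ L, el P h q < 8 := fun r hr => hel r (List.mem_cons_of_mem _ hr)
    have hl8 : el P h q < 8 := hel q List.mem_cons_self
    rw [nrm_cons]
    by_cases h1 : dg4 M (el P h q) = 0
    · rw [if_pos h1, hq0]
      have hM1 : ∀ l, dg4 (M ||| (c + 1) <<< (4 * el P h q)) l =
          if el P h q = l then c + 1 else dg4 M l := by
        intro l
        rw [dg4_or, dg4_shift _ _ _ (by omega)]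
        by_cases hl : el P h q = l
        · rw [if_pos hl, if_pos hl, ← hl, h1, Nat.zero_or]
        · rw [if_neg hl, if_neg hl, Nat.or_zero]
      have hs1 : ∀ k, k < c + 1 → ∃ l, dg4 (M ||| (c + 1) <<< (4 * el P h q)) l = k + 1 := by
        intro k hk
        by_cases hkc : k = c
        · exact ⟨el P h q, by rw [hM1, if_pos rfl, hkc]⟩
        · obtain ⟨l, hl⟩ := hs k (by omega)
          refine ⟨l, ?_⟩
          rw [hM1, if_neg, hl]
          rintro rfl
          rw [h1] at hl
          omega
      have hWF1 : WF (M ||| (c + 1) <<< (4 * el P h q)) (c + 1) := by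
        refine ⟨?_, ?_, ?_⟩
        · intro l
          rw [hM1]
          split_ifs
          · exact le_rfl
          · exact (hM.le l).trans (Nat.le_succ c)
        · intro l l' hl hll
          rw [hM1] at hl
          rw [hM1, hM1] at hll
          by_cases e1 : el P h q = l
          · by_cases e2 : el P h q = l'
            · rw [← e1, e2]
            · rw [if_pos e1, if_neg e2] at hll
              have := hM.le l'
              omega
          · rw [if_neg e1] at hl hll
            by_cases e2 : el P h q = l'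
            · rw [if_pos e2] at hll
              have := hM.le l
              omega
            · rw [if_neg e2] at hll
              exact hM.inj l l' hl hll
        · intro l hl
          rw [hM1] at hl
          by_cases e1 : el P h q = l
          · rw [← e1]; exact hl8
          · rw [if_neg e1] at hl
            exact hM.lt l hl
      have ho1 : ∀ e, dg3 (o ||| c <<< (3 * e0)) e = dg3 o e ||| dg3 (c <<< (3 * e0)) e :=
        fun e => dg3_or _ _ _
      have hc7 : c < 8 := by
        have := hWF1.c_lt hs1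
        omega
      obtain ⟨M', c', a1, a2, a3, a4, a5, a6⟩ := ih (M ||| (c + 1) <<< (4 * el P h q)) (c + 1)
        (o ||| c <<< (3 * e0)) (e0 + 1) hq' hWF1 hs1 hel' (by
          intro e he
          rw [ho1, ho e (by omega), dg3_shift _ _ _ hc7, if_neg (by omega), Nat.zero_or])
      refine ⟨M', c', a1, a2, ?_, ?_, ?_, ?_⟩
      · intro l hl
        have hne : el P h q ≠ l := by
          rintro rfl
          exact hl h1
        have h2 : dg4 (M ||| (c + 1) <<< (4 * el P h q)) l = dg4 M l := by
          rw [hM1, if_neg hne]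
        rw [a3 l (by rw [h2]; exact hl), h2]
      · intro e he
        rw [a4 e (by omega), ho1, dg3_shift _ _ _ hc7, if_neg (by omega), Nat.or_zero]
      · intro e he
        exact a5 e (by simp only [List.length_cons] at he; omega)
      · intro t ht
        cases t with
        | zero =>
          simp only [List.getElem_cons_zero, Nat.add_zero]
          rw [a4 e0 (by omega), ho1, ho e0 le_rfl, dg3_shift _ _ _ hc7, if_pos rfl, Nat.zero_or]
          rw [a3 (el P h q) (by rw [hM1, if_pos rfl]; omega), hM1, if_pos rfl]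
        | succ t =>
          simp only [List.getElem_cons_succ]
          have ht' : t < L.length := by simpa using ht
          rw [a6 t ht']
          have : e0 + 1 + t = e0 + (t + 1) := by ring
          rw [this]
    · rw [if_neg h1, hq0]
      have hx8 : dg4 M (el P h q) - 1 < 8 := by
        have := hM.le (el P h q)
        omega
      have ho1 : ∀ e, dg3 (o ||| (dg4 M (el P h q) - 1) <<< (3 * e0)) e =
          dg3 o e ||| dg3 ((dg4 M (el P h q) - 1) <<< (3 * e0)) e :=
        fun e => dg3_or _ _ _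
      obtain ⟨M', c', a1, a2, a3, a4, a5, a6⟩ := ih M c
        (o ||| (dg4 M (el P h q) - 1) <<< (3 * e0)) (e0 + 1) hq' hM hs hel' (by
          intro e he
          rw [ho1, ho e (by omega), dg3_shift _ _ _ hx8, if_neg (by omega), Nat.zero_or])
      refine ⟨M', c', a1, a2, a3, ?_, ?_, ?_⟩
      · intro e he
        rw [a4 e (by omega), ho1, dg3_shift _ _ _ hx8, if_neg (by omega), Nat.or_zero]
      · intro e he
        exact a5 e (by simp only [List.length_cons] at he; omega)
      · intro t ht
        cases t with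
        | zero =>
          simp only [List.getElem_cons_zero, Nat.add_zero]
          rw [a4 e0 (by omega), ho1, ho e0 le_rfl, dg3_shift _ _ _ hx8, if_pos rfl, Nat.zero_or,
            a3 (el P h q) h1]
          omega
        | succ t =>
          simp only [List.getElem_cons_succ]
          have ht' : t < L.length := by simpa using ht
          rw [a6 t ht']
          have : e0 + 1 + t = e0 + (t + 1) := by ring
          rw [this]

/-! ### Extension of partial labellings -/

theorem ext8 (φ : ℕ → ℕ) (c : ℕ) (hc : c ≤ 8) (h8 : ∀ k, k < c → φ k < 8)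
    (hinj : ∀ a b, a < c → b < c → φ a = φ b → a = b) :
    ∃ ψ : ℕ → ℕ, (∀ k, k < c → ψ k = φ k) ∧ (∀ k, k < 8 → ψ k < 8) ∧
      ∀ a b, a < 8 → b < 8 → ψ a = ψ b → a = b := by
  classical
  obtain ⟨g, hg⟩ := Finset.exists_equiv_extend_of_card_eq (α := Fin 8) (β := ℕ)
    (t := Finset.range 8) (by simp) (s := Finset.univ.filter fun k : Fin 8 => k.val < c)
    (f := fun k => φ k.val) (by
      intro x hx
      obtain ⟨k, hk, rfl⟩ := Finset.mem_image.1 hx
      exact Finset.mem_range.2 (h8 _ (Finset.mem_filter.1 hk).2)) (by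
      intro a ha b hb hab
      exact Fin.ext (hinj _ _ (Finset.mem_filter.1 (Finset.mem_coe.1 ha)).2
        (Finset.mem_filter.1 (Finset.mem_coe.1 hb)).2 hab))
  refine ⟨fun k => if hk : k < 8 then (g ⟨k, hk⟩ : ℕ) else 0, ?_, ?_, ?_⟩
  · intro k hk
    have hk8 : k < 8 := by omega
    show (if hk : k < 8 then (g ⟨k, hk⟩ : ℕ) else 0) = φ k
    rw [dif_pos hk8]
    exact hg ⟨k, hk8⟩ (Finset.mem_filter.2 ⟨Finset.mem_univ _, hk⟩)
  · intro k hk
    show (if hk : k < 8 then (g ⟨k, hk⟩ : ℕ) else 0) < 8
    rw [dif_pos hk]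
    exact Finset.mem_range.1 (g ⟨k, hk⟩).2
  · intro a b ha hb hab
    have hab' : (if hk : a < 8 then (g ⟨a, hk⟩ : ℕ) else 0) =
      (if hk : b < 8 then (g ⟨b, hk⟩ : ℕ) else 0) := hab
    rw [dif_pos ha, dif_pos hb] at hab'
    have := g.injective (Subtype.ext hab')
    exact Fin.mk.inj_iff.1 this

/-- a list of edge descriptions for `m` points -/
structure EdgeList (m : ℕ) (L : List ℕ) : Prop where
  len : L.length = m * (m - 1) / 2
  shift : ∀ t, ∀ ht : t < L.length, L[t] >>> 10 = 3 * t
  edge : ∀ j, j < m → ∀ i, i < j → ∃ ht : eo i j < L.length,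
    L[eo i j] &&& 31 = 3 * i ∧ (L[eo i j] >>> 5) &&& 31 = 3 * j
  bound : ∀ q ∈ L, ∃ i j, i < j ∧ j < m ∧ q &&& 31 = 3 * i ∧ (q >>> 5) &&& 31 = 3 * j

theorem edgeList5 : EdgeList 5 EL5 where
  len := rfl
  shift := by decide
  edge := by decide
  bound := by
    intro q hq
    simp only [EL5, List.mem_cons, List.not_mem_nil, or_false] at hq
    rcases hq with rfl | rfl | rfl | rfl | rfl | rfl | rfl | rfl | rfl | rfl
    · exact ⟨0, 1, by decide⟩
    · exact ⟨0, 2, by decide⟩
    · exact ⟨1, 2, by decide⟩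
    · exact ⟨0, 3, by decide⟩
    · exact ⟨1, 3, by decide⟩
    · exact ⟨2, 3, by decide⟩
    · exact ⟨0, 4, by decide⟩
    · exact ⟨1, 4, by decide⟩
    · exact ⟨2, 4, by decide⟩
    · exact ⟨3, 4, by decide⟩

theorem edgeList6 : EdgeList 6 EL6 where
  len := rfl
  shift := by decide
  edge := by decide
  bound := by
    intro q hq
    simp only [EL6, List.mem_cons, List.not_mem_nil, or_false] at hq
    rcases hq with rfl | rfl | rfl | rfl | rfl | rfl | rfl | rfl | rfl | rfl | rfl | rfl | rfl |
      rfl | rfl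
    · exact ⟨0, 1, by decide⟩
    · exact ⟨0, 2, by decide⟩
    · exact ⟨1, 2, by decide⟩
    · exact ⟨0, 3, by decide⟩
    · exact ⟨1, 3, by decide⟩
    · exact ⟨2, 3, by decide⟩
    · exact ⟨0, 4, by decide⟩
    · exact ⟨1, 4, by decide⟩
    · exact ⟨2, 4, by decide⟩
    · exact ⟨3, 4, by decide⟩
    · exact ⟨0, 5, by decide⟩
    · exact ⟨1, 5, by decide⟩
    · exact ⟨2, 5, by decide⟩
    · exact ⟨3, 5, by decide⟩
    · exact ⟨4, 5, by decide⟩

/-- the normal form of a part of an occurring pattern occurs -/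
theorem Occ.nrm {F : Conf 9} {n : ℕ} {f : ℕ → Fin 9} {g : ℕ → Fin 8} {P : ℕ}
    (ho : Occ F n f g P) (hn : n ≤ 9) {m : ℕ} {L : List ℕ} (hL : EdgeList m L) (h : ℕ)
    (hd : ∀ i, i < m → dg3 h i < n) (hinj : ∀ i j, i < m → j < m → dg3 h i = dg3 h j → i = j) :
    (∃ g', Occ F m (fun i => f (dg3 h i)) g' (CR.nrm P h L 0 0 0)) ∧
      ∀ e, m * (m - 1) / 2 ≤ e → dg3 (CR.nrm P h L 0 0 0) e = 0 := by
  have hel : ∀ q i j, i < m → j < m → i ≠ j → q &&& 31 = 3 * i → (q >>> 5) &&& 31 = 3 * j →
      el P h q = labs P (dg3 h i) (dg3 h j) := by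
    intro q i j hi hj hij e1 e2
    rw [← sl_eq P _ _ (by have := hd i hi; omega) (by have := hd j hj; omega)
      (fun e => hij (hinj i j hi hj e))]
    show sl P ((h >>> (q &&& 31)) &&& 7) ((h >>> ((q >>> 5) &&& 31)) &&& 7) = _
    rw [e1, e2]
    rfl
  obtain ⟨M', c', a1, a2, -, -, a5, a6⟩ := nrm_spec P h L 0 0 0 0
    (fun t ht => by rw [hL.shift t ht, Nat.zero_add]) WF.zero (fun k hk => absurd hk (by omega))
    (fun q hq => by
      obtain ⟨i, j, hij, hj, e1, e2⟩ := hL.bound q hq
      rw [hel q i j (by omega) hj (by omega) e1 e2]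
      exact labs_lt _ _ _)
    (fun e _ => dg3_zero e)
  constructor
  · choose! φ hφ using a2
    have hc8 : c' ≤ 8 := a1.c_lt (fun k hk => ⟨φ k, hφ k hk⟩)
    obtain ⟨ψ, p1, p2, p3⟩ := ext8 φ c' hc8 (fun k hk => a1.lt _ (by rw [hφ k hk]; omega)) (by
      intro a b ha hb hab
      have e1 := hφ a ha
      have e2 := hφ b hb
      rw [hab, e2] at e1
      omega)
    refine ⟨fun a => g (ψ a), ?_, ?_, ?_⟩
    · intro i j hi hj hij
      exact hinj i j hi hj (ho.inj _ _ (hd i hi) (hd j hj) hij)
    · intro a b ha hb hab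
      exact p3 a b ha hb (ho.ginj _ _ (p2 a ha) (p2 b hb) hab)
    · intro i j hij hj
      have hi : i < m := by omega
      obtain ⟨ht, e1, e2⟩ := hL.edge j hj i hij
      have h6 := a6 (eo i j) ht
      rw [hel _ i j hi hj (by omega) e1 e2, Nat.zero_add, ← lab_eq] at h6
      have hk : lab (CR.nrm P h L 0 0 0) i j < c' := by
        have := a1.le (labs P (dg3 h i) (dg3 h j))
        rw [h6] at this
        exact this
      show F.c (f (dg3 h i)) (f (dg3 h j)) = g (ψ (lab (CR.nrm P h L 0 0 0) i j))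
      rw [p1 _ hk, ho.col' (hd i hi) (hd j hj) (fun e => by
        have := hinj i j hi hj e
        omega)]
      congr 1
      apply a1.inj
      · rw [h6]; omega
      · rw [h6, hφ _ hk]
  · intro e he
    apply a5
    rw [hL.len]
    omega

/-- when the colours are big, the labelling may be chosen such that all six labels are big -/
theorem Occ.big {F : Conf 9} {m : ℕ} {f : ℕ → Fin 9} {g : ℕ → Fin 8} {P : ℕ}
    (ho : Occ F m f g P) (h6 : ∀ i j, i < j → j < m → lab P i j < 6)
    (hb : ∀ i j, i < j → j < m → 2 ≤ (F.c (f i) (f j)).val) : ∃ g', Occ F m f g' P ∧ GoodG g' := by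
  classical
  have hcard : Fintype.card (Fin 6) = (Finset.univ.filter fun c : Fin 8 => 2 ≤ c.val).card := by
    decide
  obtain ⟨e, he⟩ := Finset.exists_equiv_extend_of_card_eq (α := Fin 6) (β := Fin 8) hcard
    (s := Finset.univ.filter fun a : Fin 6 => ∃ i j, i < j ∧ j < m ∧ lab P i j = a.val)
    (f := fun a => g a.val) (by
      intro x hx
      obtain ⟨a, ha, rfl⟩ := Finset.mem_image.1 hx
      obtain ⟨i, j, hij, hj, hl⟩ := (Finset.mem_filter.1 ha).2
      refine Finset.mem_filter.2 ⟨Finset.mem_univ _, ?_⟩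
      have := hb i j hij hj
      rw [ho.col i j hij hj, hl] at this
      exact this) (by
      intro a _ b _ hab
      exact Fin.ext (ho.ginj _ _ (by omega) (by omega) hab))
  have hebig : ∀ a, 2 ≤ (e a : Fin 8).val := fun a => (Finset.mem_filter.1 (e a).2).2
  let g' : ℕ → Fin 8 := fun a => if ha : a < 6 then (e ⟨a, ha⟩ : Fin 8) else if a = 6 then 0 else 1
  have hg1 : ∀ a, ∀ ha : a < 6, g' a = (e ⟨a, ha⟩ : Fin 8) := fun a ha => dif_pos ha
  have hg2 : g' 6 = 0 := rfl
  have hg3 : g' 7 = 1 := rfl
  refine ⟨g', ⟨ho.inj, ?_, ?_⟩, ?_⟩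
  · have key : ∀ a b, a < 6 → 6 ≤ b → b < 8 → g' a ≠ g' b := by
      intro a b ha hb6 hb8 hab
      rw [hg1 a ha] at hab
      have h1 := hebig ⟨a, ha⟩
      rw [hab] at h1
      have h2 : b = 6 ∨ b = 7 := by omega
      rcases h2 with rfl | rfl
      · rw [hg2] at h1
        exact absurd h1 (by decide)
      · rw [hg3] at h1
        exact absurd h1 (by decide)
    intro a b ha hb' hab
    rcases Nat.lt_or_ge a 6 with h1 | h1
    · rcases Nat.lt_or_ge b 6 with h2 | h2
      · rw [hg1 a h1, hg1 b h2] at hab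
        have := e.injective (Subtype.ext hab)
        exact Fin.mk.inj_iff.1 this
      · exact absurd hab (key a b h1 h2 hb')
    · rcases Nat.lt_or_ge b 6 with h2 | h2
      · exact absurd hab.symm (key b a h2 h1 ha)
      · have h3 : a = 6 ∨ a = 7 := by omega
        have h4 : b = 6 ∨ b = 7 := by omega
        rcases h3 with rfl | rfl <;> rcases h4 with rfl | rfl
        · rfl
        · rw [hg2, hg3] at hab
          exact absurd hab (by decide)
        · rw [hg2, hg3] at hab
          exact absurd hab (by decide)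
        · rfl
  · intro i j hij hj
    have hl := h6 i j hij hj
    rw [hg1 _ hl, he ⟨_, hl⟩ (Finset.mem_filter.2 ⟨Finset.mem_univ _, i, j, hij, hj, rfl⟩)]
    exact ho.col i j hij hj
  · intro a ha
    rw [hg1 a ha]
    exact hebig _

end CR
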