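import Pool.Agent.Lib.MP_6f5d36_co.Struct

set_option autoImplicit false

/-!
# MP_6f5d36_co : the structure in case II

When the three bad edges are not disjoint, there is a point `v` on two of them. Either all three contain
`v` (the eight other points have no bad edges), or the third bad edge joins two other points.
-/

namespace CR

/-- the star: the bad edges contain the point `f 8` -/
def CaseStar (F : Conf 9) (f : ℕ → Fin 9) : Prop :=
  (∀ i j, i < 9 → j < 9 → f i = f j → i = j) ∧
    ∀ i j, i < j → j < 8 → 2 ≤ (F.c (f i) (f j)).val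

/-- two bad edges at `f 8` (to `f a` and `f b`), the third one is `f 6 f 7` -/
def CasePath (F : Conf 9) (f : ℕ → Fin 9) (a b : ℕ) : Prop :=
  (∀ i j, i < 9 → j < 9 → f i = f j → i = j) ∧ a < b ∧ b < 8 ∧
    (F.c (f 6) (f 7)).val < 2 ∧ (F.c (f a) (f 8)).val < 2 ∧ (F.c (f b) (f 8)).val < 2 ∧
    (∀ i j, i < j → j < 8 → ¬ (i = 6 ∧ j = 7) → 2 ≤ (F.c (f i) (f j)).val) ∧
    ∀ i, i < 8 → i ≠ a → i ≠ b → 2 ≤ (F.c (f i) (f 8)).val

theorem surj9 {f : ℕ → Fin 9} (hf : ∀ i j, i < 9 → j < 9 → f i = f j → i = j) (y : Fin 9) :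
    ∃ i, i < 9 ∧ f i = y := by
  classical
  have h1 : ((Finset.range 9).image f).card = 9 := by
    rw [Finset.card_image_of_injOn, Finset.card_range]
    intro i hi j hj hij
    exact hf i j (by simpa using hi) (by simpa using hj) hij
  have h2 : (Finset.range 9).image f = Finset.univ := by
    rw [← Finset.card_eq_iff_eq_univ, h1]
    rfl
  have h3 : y ∈ (Finset.range 9).image f := by rw [h2]; exact Finset.mem_univ y
  obtain ⟨i, hi, h4⟩ := Finset.mem_image.1 h3
  exact ⟨i, Finset.mem_range.1 hi, h4⟩

/-- the two cases when the bad edges are `v x`, `v y` and `z z'` -/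
theorem share_aux (F : Conf 9) (v x y z z' : Fin 9) (hx : v ≠ x) (hy : v ≠ y) (hxy : x ≠ y)
    (hz : z ≠ z') (bx : (F.c v x).val < 2) (by' : (F.c v y).val < 2) (bz : (F.c z z').val < 2)
    (hall : ∀ u w, u ≠ w → (F.c u w).val < 2 →
      ((u = v ∧ w = x) ∨ (u = x ∧ w = v)) ∨ ((u = v ∧ w = y) ∨ (u = y ∧ w = v)) ∨
        ((u = z ∧ w = z') ∨ (u = z' ∧ w = z))) :
    (∃ f, CaseStar F f) ∨ ∃ f a b, CasePath F f a b := by
  classical
  by_cases hv : z = v ∨ z' = v
  · -- the star
    left
    obtain ⟨f, hf1, hf2⟩ := exists_enum {v} 8 (by simp)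
    refine ⟨fun i => if i < 8 then f i else v, ?_, ?_⟩
    · have aux : ∀ i j, i < j → j < 9 →
          (if i < 8 then f i else v) ≠ (if j < 8 then f j else v) := by
        intro i j hij hj
        rw [if_pos (by omega : i < 8)]
        by_cases h8 : j < 8
        · rw [if_pos h8]
          intro he
          have := hf1 i j (by omega) h8 he
          omega
        · rw [if_neg h8]
          have := hf2 i (by omega)
          simpa using this
      intro i j hi hj he
      by_contra hne
      rcases lt_or_gt_of_ne hne with h | h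
      · exact aux i j h hj he
      · exact aux j i h hi he.symm
    · intro i j hij hj
      by_contra hc
      have e1 : (if i < 8 then f i else v) = f i := if_pos (by omega)
      have e2 : (if j < 8 then f j else v) = f j := if_pos hj
      simp only [e1, e2] at hc
      have hne : f i ≠ f j := fun he => by have := hf1 i j (by omega) hj he; omega
      have hi' := hf2 i (by omega)
      have hj' := hf2 j hj
      simp only [Finset.mem_singleton] at hi' hj'
      rcases hall _ _ hne (by omega) with (h | h) | (h | h) | (h | h)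
      · exact hi' h.1
      · exact hj' h.2
      · exact hi' h.1
      · exact hj' h.2
      · rcases hv with h' | h'
        · exact hi' (h.1.trans h')
        · exact hj' (h.2.trans h')
      · rcases hv with h' | h'
        · exact hj' (h.2.trans h')
        · exact hi' (h.1.trans h')
  · right
    push Not at hv
    obtain ⟨hv1, hv2⟩ := hv
    obtain ⟨f, hf1, hf2⟩ := exists_enum {v, z, z'} 6 (by
      have := Finset.card_le_three (a := v) (b := z) (c := z')
      omega)
    set f' : ℕ → Fin 9 := fun i => if i < 6 then f i else if i = 6 then z else if i = 7 then z'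
      else v with hf'
    have e6 : f' 6 = z := rfl
    have e7 : f' 7 = z' := rfl
    have e8 : f' 8 = v := rfl
    have eo : ∀ i, i < 6 → f' i = f i := fun i hi => by simp only [hf', if_pos hi]
    have hinj : ∀ i j, i < 9 → j < 9 → f' i = f' j → i = j := by
      have aux : ∀ i j, i < j → j < 9 → f' i ≠ f' j := by
        intro i j hij hj
        rcases Nat.lt_or_ge j 6 with h | h
        · rw [eo i (by omega), eo j h]
          intro he
          have := hf1 i j (by omega) h he
          omega
        · rcases Nat.lt_or_ge i 6 with h' | h'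
          · rw [eo i h']
            have h3 := hf2 i h'
            simp only [Finset.mem_insert, Finset.mem_singleton, not_or] at h3
            have : j = 6 ∨ j = 7 ∨ j = 8 := by omega
            rcases this with rfl | rfl | rfl
            · rw [e6]; exact h3.2.1
            · rw [e7]; exact h3.2.2
            · rw [e8]; exact h3.1
          · have : (i = 6 ∧ j = 7) ∨ (i = 6 ∧ j = 8) ∨ (i = 7 ∧ j = 8) := by omega
            rcases this with ⟨rfl, rfl⟩ | ⟨rfl, rfl⟩ | ⟨rfl, rfl⟩
            · rw [e6, e7]; exact hz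
            · rw [e6, e8]; exact hv1
            · rw [e7, e8]; exact hv2
      intro i j hi hj he
      by_contra hne
      rcases lt_or_gt_of_ne hne with h | h
      · exact aux i j h hj he
      · exact aux j i h hi he.symm
    have h8 : ∀ i, i < 8 → f' i ≠ v := by
      intro i hi he
      have := hinj i 8 (by omega) (by omega) (he.trans e8.symm)
      omega
    have hbig1 : ∀ i j, i < j → j < 8 → ¬ (i = 6 ∧ j = 7) → 2 ≤ (F.c (f' i) (f' j)).val := by
      intro i j hij hj h67
      by_contra hc
      have hne : f' i ≠ f' j := fun he => by have := hinj i j (by omega) (by omega) he; omega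
      rcases hall _ _ hne (by omega) with (h | h) | (h | h) | (h | h)
      · exact h8 i (by omega) h.1
      · exact h8 j hj h.2
      · exact h8 i (by omega) h.1
      · exact h8 j hj h.2
      · have a1 := hinj i 6 (by omega) (by omega) (h.1.trans e6.symm)
        have a2 := hinj j 7 (by omega) (by omega) (h.2.trans e7.symm)
        exact h67 ⟨a1, a2⟩
      · have a1 := hinj i 7 (by omega) (by omega) (h.1.trans e7.symm)
        have a2 := hinj j 6 (by omega) (by omega) (h.2.trans e6.symm)
        omega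
    obtain ⟨a, ha, hfa⟩ := surj9 hinj x
    obtain ⟨b, hb, hfb⟩ := surj9 hinj y
    have ha8 : a ≠ 8 := fun h => hx (by rw [← e8, ← h, hfa])
    have hb8 : b ≠ 8 := fun h => hy (by rw [← e8, ← h, hfb])
    have hab : a ≠ b := fun h => hxy (by rw [← hfa, ← hfb, h])
    have ba : (F.c (f' a) (f' 8)).val < 2 := by rw [hfa, e8, F.symm]; exact bx
    have bb : (F.c (f' b) (f' 8)).val < 2 := by rw [hfb, e8, F.symm]; exact by'
    have hbig2 : ∀ i, i < 8 → i ≠ a → i ≠ b → 2 ≤ (F.c (f' i) (f' 8)).val := by
      intro i hi hia hib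
      by_contra hc
      rw [e8] at hc
      rcases hall _ _ (h8 i hi) (by omega) with (h | h) | (h | h) | (h | h)
      · exact h8 i hi h.1
      · exact hia (hinj i a (by omega) ha (h.1.trans hfa.symm))
      · exact h8 i hi h.1
      · exact hib (hinj i b (by omega) hb (h.1.trans hfb.symm))
      · exact hv2 h.2.symm
      · exact hv1 h.2.symm
    have bz' : (F.c (f' 6) (f' 7)).val < 2 := bz
    rcases lt_or_gt_of_ne hab with h | h
    · exact ⟨f', a, b, hinj, h, by omega, bz', ba, bb, hbig1, hbig2⟩
    · exact ⟨f', b, a, hinj, h, by omega, bz', bb, ba, hbig1, fun i hi h1 h2 => hbig2 i hi h2 h1⟩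

/-- two of the three bad edges have a common point -/
theorem share_edges (F : Conf 9) (x x' y y' z z' : Fin 9) (hx : x ≠ x') (hy : y ≠ y')
    (hz : z ≠ z') (bx : (F.c x x').val < 2) (by' : (F.c y y').val < 2) (bz : (F.c z z').val < 2)
    (hall : ∀ u w, u ≠ w → (F.c u w).val < 2 →
      ((u = x ∧ w = x') ∨ (u = x' ∧ w = x)) ∨ ((u = y ∧ w = y') ∨ (u = y' ∧ w = y)) ∨
        ((u = z ∧ w = z') ∨ (u = z' ∧ w = z)))
    (hXY : ¬ ((x = y ∧ x' = y') ∨ (x = y' ∧ x' = y)))
    (share : x = y ∨ x = y' ∨ x' = y ∨ x' = y') :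
    (∃ f, CaseStar F f) ∨ ∃ f a b, CasePath F f a b := by
  rcases share with h | h | h | h
  · subst h
    exact share_aux F x x' y' z z' hx hy (fun h => hXY (Or.inl ⟨rfl, h⟩)) hz bx by' bz hall
  · subst h
    exact share_aux F x x' y z z' hx hy.symm (fun h => hXY (Or.inr ⟨rfl, h⟩)) hz bx
      (by rw [F.symm]; exact by') bz (fun u w h1 h2 => by
        rcases hall u w h1 h2 with h3 | h3 | h3
        · exact Or.inl h3
        · exact Or.inr (Or.inl h3.symm)
        · exact Or.inr (Or.inr h3))
  · subst h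
    exact share_aux F x' x y' z z' hx.symm hy (fun h => hXY (Or.inr ⟨h, rfl⟩)) hz
      (by rw [F.symm]; exact bx) by' bz (fun u w h1 h2 => by
        rcases hall u w h1 h2 with h3 | h3 | h3
        · exact Or.inl h3.symm
        · exact Or.inr (Or.inl h3)
        · exact Or.inr (Or.inr h3))
  · subst h
    exact share_aux F x' x y z z' hx.symm hy.symm (fun h => hXY (Or.inl ⟨h, rfl⟩)) hz
      (by rw [F.symm]; exact bx) (by rw [F.symm]; exact by') bz (fun u w h1 h2 => by
        rcases hall u w h1 h2 with h3 | h3 | h3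
        · exact Or.inl h3.symm
        · exact Or.inr (Or.inl h3.symm)
        · exact Or.inr (Or.inr h3))

/-- the three cases -/
theorem cases3 (F : Conf 9) :
    CaseI F ∨ (∃ f, CaseStar F f) ∨ ∃ f a b, CasePath F f a b := by
  obtain ⟨p, p', r, r', t, t', hp, hr, ht, hne, cp, cr, ct, hall⟩ := bad_pairs F
  have hpr : ¬ ((p = r ∧ p' = r') ∨ (p = r' ∧ p' = r)) := by
    rintro (⟨h1, h2⟩ | ⟨h1, h2⟩)
    · rw [h1, h2] at cp; omega
    · rw [h1, h2, F.symm] at cp; omega
  have hpt : ¬ ((p = t ∧ p' = t') ∨ (p = t' ∧ p' = t)) := by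
    rintro (⟨h1, h2⟩ | ⟨h1, h2⟩)
    · rw [h1, h2] at cp; omega
    · rw [h1, h2, F.symm] at cp; omega
  have hrt : ¬ ((r = t ∧ r' = t') ∨ (r = t' ∧ r' = t)) := by
    rintro (h | ⟨h1, h2⟩)
    · exact hne h
    · rw [h1, h2] at hr
      exact absurd (hr.trans ht) (lt_irrefl _)
  have hall2 : ∀ u w, u ≠ w → (F.c u w).val < 2 →
      ((u = p ∧ w = p') ∨ (u = p' ∧ w = p)) ∨ ((u = r ∧ w = r') ∨ (u = r' ∧ w = r)) ∨
        ((u = t ∧ w = t') ∨ (u = t' ∧ w = t)) := by
    intro x y hxy hc
    rcases lt_or_gt_of_ne hxy with h | h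
    · rcases hall x y h hc with h1 | h1 | h1
      · exact Or.inl (Or.inl h1)
      · exact Or.inr (Or.inl (Or.inl h1))
      · exact Or.inr (Or.inr (Or.inl h1))
    · rw [F.symm] at hc
      rcases hall y x h hc with h1 | h1 | h1
      · exact Or.inl (Or.inr h1.symm)
      · exact Or.inr (Or.inl (Or.inr h1.symm))
      · exact Or.inr (Or.inr (Or.inr h1.symm))
  by_cases s1 : p = r ∨ p = r' ∨ p' = r ∨ p' = r'
  · exact Or.inr (share_edges F p p' r r' t t' hp.ne hr.ne ht.ne (by omega) (by omega) (by omega)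
      hall2 hpr s1)
  by_cases s2 : p = t ∨ p = t' ∨ p' = t ∨ p' = t'
  · exact Or.inr (share_edges F p p' t t' r r' hp.ne ht.ne hr.ne (by omega) (by omega) (by omega)
      (fun u w h1 h2 => by
        rcases hall2 u w h1 h2 with h3 | h3 | h3
        · exact Or.inl h3
        · exact Or.inr (Or.inr h3)
        · exact Or.inr (Or.inl h3)) hpt s2)
  by_cases s3 : r = t ∨ r = t' ∨ r' = t ∨ r' = t'
  · exact Or.inr (share_edges F r r' t t' p p' hr.ne ht.ne hp.ne (by omega) (by omega) (by omega)
      (fun u w h1 h2 => by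
        rcases hall2 u w h1 h2 with h3 | h3 | h3
        · exact Or.inr (Or.inr h3)
        · exact Or.inl h3
        · exact Or.inr (Or.inl h3)) hrt s3)
  left
  simp only [not_or] at s1 s2 s3
  refine ⟨p, p', r, r', t, t', hp.ne, hr.ne, ht.ne, s1.1, s1.2.1, s2.1, s2.2.1, s1.2.2.1,
    s1.2.2.2, s2.2.2.1, s2.2.2.2, s3.1, s3.2.1, s3.2.2.1, s3.2.2.2, cp, cr, ct, ?_⟩
  intro x y h1 h2
  rcases hall2 x y h1 h2 with (h3 | h3) | (h3 | h3) | (h3 | h3)
  · exact Or.inl h3
  · exact Or.inr (Or.inl h3)
  · exact Or.inr (Or.inr (Or.inl h3))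
  · exact Or.inr (Or.inr (Or.inr (Or.inl h3)))
  · exact Or.inr (Or.inr (Or.inr (Or.inr (Or.inl h3))))
  · exact Or.inr (Or.inr (Or.inr (Or.inr (Or.inr h3))))

end CR
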